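import Pool.Agent.Lib.MP_488b8a_co_V.Defs

/-! Project SO (MP_488b8a_co), module BLc: calculus of bounded Lipschitz functions and of `cr`, `fr`. -/

namespace Pool.Agent.CAPV

open Complex

theorem cr_abs_le (u v : ℂ) : |cr u v| ≤ ‖u‖ * ‖v‖ := by
  have h1 : cr u v = ((starRingEnd ℂ) u * v).im := by
    simp only [cr, mul_im, conj_re, conj_im]
    ring
  rw [h1]
  refine (abs_im_le_norm _).trans ?_
  rw [norm_mul, norm_conj]

theorem fr_apply (a b v : ℂ) : fr a b v = (v.re : ℂ) * a + (v.im : ℂ) * b := by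
  simp [fr]

theorem frr_apply (a b : ℝ) (v : ℂ) : frr a b v = a * v.re + b * v.im := by
  simp [frr]

theorem fr_norm_le (a b : ℂ) : ‖fr a b‖ ≤ ‖a‖ + ‖b‖ := by
  refine ContinuousLinearMap.opNorm_le_bound _ (by positivity) fun v => ?_
  rw [fr_apply]
  refine (norm_add_le _ _).trans ?_
  rw [norm_mul, norm_mul, norm_real, norm_real, Real.norm_eq_abs, Real.norm_eq_abs, add_mul]
  have h1 := abs_re_le_norm v
  have h2 := abs_im_le_norm v
  have h3 := mul_le_mul_of_nonneg_right h1 (norm_nonneg a)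
  have h4 := mul_le_mul_of_nonneg_right h2 (norm_nonneg b)
  linarith

theorem frr_norm_le (a b : ℝ) : ‖frr a b‖ ≤ |a| + |b| := by
  refine ContinuousLinearMap.opNorm_le_bound _ (by positivity) fun v => ?_
  rw [frr_apply, Real.norm_eq_abs]
  refine (abs_add_le _ _).trans ?_
  rw [abs_mul, abs_mul, add_mul]
  have h1 := abs_re_le_norm v
  have h2 := abs_im_le_norm v
  have h3 := mul_le_mul_of_nonneg_left h1 (abs_nonneg a)
  have h4 := mul_le_mul_of_nonneg_left h2 (abs_nonneg b)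
  linarith

theorem BL_mono {B B' : Set ℂ} {f : ℂ → ℂ} {M L M' L' : ℝ} (h : BL B f M L) (hB : B' ⊆ B)
    (hM : M ≤ M') (hL : L ≤ L') : BL B' f M' L' := by
  refine ⟨fun z hz => (h.1 z (hB hz)).trans hM, fun z hz z' hz' => ?_⟩
  exact (h.2 z (hB hz) z' (hB hz')).trans (mul_le_mul_of_nonneg_right hL (norm_nonneg _))

theorem BL_const {B : Set ℂ} (a : ℂ) : BL B (fun _ => a) ‖a‖ 0 := by
  refine ⟨fun z _ => le_rfl, fun z _ z' _ => ?_⟩
  simp

theorem BL_add {B : Set ℂ} {f g : ℂ → ℂ} {M L M' L' : ℝ} (hf : BL B f M L) (hg : BL B g M' L') :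
    BL B (fun z => f z + g z) (M + M') (L + L') := by
  refine ⟨fun z hz => (norm_add_le _ _).trans (add_le_add (hf.1 z hz) (hg.1 z hz)),
    fun z hz z' hz' => ?_⟩
  have h1 : f z + g z - (f z' + g z') = (f z - f z') + (g z - g z') := by ring
  show ‖f z + g z - (f z' + g z')‖ ≤ _
  rw [h1, add_mul]
  exact (norm_add_le _ _).trans (add_le_add (hf.2 z hz z' hz') (hg.2 z hz z' hz'))

theorem BL_sub {B : Set ℂ} {f g : ℂ → ℂ} {M L M' L' : ℝ} (hf : BL B f M L) (hg : BL B g M' L') :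
    BL B (fun z => f z - g z) (M + M') (L + L') := by
  refine ⟨fun z hz => (norm_sub_le _ _).trans (add_le_add (hf.1 z hz) (hg.1 z hz)),
    fun z hz z' hz' => ?_⟩
  have h1 : f z - g z - (f z' - g z') = (f z - f z') - (g z - g z') := by ring
  show ‖f z - g z - (f z' - g z')‖ ≤ _
  rw [h1, add_mul]
  exact (norm_sub_le _ _).trans (add_le_add (hf.2 z hz z' hz') (hg.2 z hz z' hz'))

theorem BL_mul {B : Set ℂ} {f g : ℂ → ℂ} {M L M' L' : ℝ} (h0 : 0 ≤ M) (h0' : 0 ≤ M')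
    (hf : BL B f M L) (hg : BL B g M' L') :
    BL B (fun z => f z * g z) (M * M') (M * L' + M' * L) := by
  refine ⟨fun z hz => ?_, fun z hz z' hz' => ?_⟩
  · rw [norm_mul]
    exact mul_le_mul (hf.1 z hz) (hg.1 z hz) (norm_nonneg _) h0
  · have h1 : f z * g z - f z' * g z' = f z * (g z - g z') + (f z - f z') * g z' := by ring
    show ‖f z * g z - f z' * g z'‖ ≤ _
    rw [h1]
    refine (norm_add_le _ _).trans ?_
    rw [norm_mul, norm_mul]
    have h2 := mul_le_mul (hf.1 z hz) (hg.2 z hz z' hz') (norm_nonneg _) h0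
    have h3 := mul_le_mul (hf.2 z hz z' hz') (hg.1 z' hz') (norm_nonneg _)
      ((norm_nonneg _).trans (hf.2 z hz z' hz'))
    linarith

/-- product with a real function -/
theorem BL_smul {B : Set ℂ} {f : ℂ → ℝ} {g : ℂ → ℂ} {M L M' L' : ℝ} (h0 : 0 ≤ M) (h0' : 0 ≤ M')
    (hf : BL B (fun z => (f z : ℂ)) M L) (hg : BL B g M' L') :
    BL B (fun z => (f z : ℂ) * g z) (M * M') (M * L' + M' * L) :=
  BL_mul h0 h0' hf hg

theorem BL_cr {B : Set ℂ} {f g : ℂ → ℂ} {M L M' L' : ℝ} (h0 : 0 ≤ M) (h0' : 0 ≤ M')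
    (hf : BL B f M L) (hg : BL B g M' L') :
    BL B (fun z => ((cr (f z) (g z) : ℝ) : ℂ)) (M * M') (M * L' + M' * L) := by
  refine ⟨fun z hz => ?_, fun z hz z' hz' => ?_⟩
  · rw [norm_real, Real.norm_eq_abs]
    exact (cr_abs_le _ _).trans (mul_le_mul (hf.1 z hz) (hg.1 z hz) (norm_nonneg _) h0)
  · have h1 : cr (f z) (g z) - cr (f z') (g z') =
        cr (f z) (g z - g z') + cr (f z - f z') (g z') := by
      simp only [cr, sub_re, sub_im]
      ring
    show ‖((cr (f z) (g z) : ℝ) : ℂ) - ((cr (f z') (g z') : ℝ) : ℂ)‖ ≤ _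
    rw [← ofReal_sub, norm_real, Real.norm_eq_abs, h1]
    refine (abs_add_le _ _).trans ?_
    have h4 := cr_abs_le (f z) (g z - g z')
    have h5 := cr_abs_le (f z - f z') (g z')
    have h2 := mul_le_mul (hf.1 z hz) (hg.2 z hz z' hz') (norm_nonneg _) h0
    have h3 := mul_le_mul (hf.2 z hz z' hz') (hg.1 z' hz') (norm_nonneg _)
      ((norm_nonneg _).trans (hf.2 z hz z' hz'))
    linarith

theorem BL_conj {B : Set ℂ} {f : ℂ → ℂ} {M L : ℝ} (hf : BL B f M L) :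
    BL B (fun z => (starRingEnd ℂ) (f z)) M L := by
  refine ⟨fun z hz => ?_, fun z hz z' hz' => ?_⟩
  · rw [norm_conj]
    exact hf.1 z hz
  · show ‖(starRingEnd ℂ) (f z) - (starRingEnd ℂ) (f z')‖ ≤ _
    rw [← map_sub, norm_conj]
    exact hf.2 z hz z' hz'

/-- a function with bounded derivative on a convex set is Lipschitz -/
theorem BL_of_der {B : Set ℂ} (hB : Convex ℝ B) {f f1 f2 : ℂ → ℂ} {M L : ℝ}
    (hd : ∀ z ∈ B, HasFDerivAt f (fr (f1 z) (f2 z)) z) (hM : ∀ z ∈ B, ‖f z‖ ≤ M)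
    (h1 : ∀ z ∈ B, ‖f1 z‖ ≤ L) (h2 : ∀ z ∈ B, ‖f2 z‖ ≤ L) : BL B f M (2 * L) := by
  refine ⟨hM, fun z hz z' hz' => ?_⟩
  refine hB.norm_image_sub_le_of_norm_hasFDerivWithin_le
    (f' := fun z => fr (f1 z) (f2 z)) (fun x hx => (hd x hx).hasFDerivWithinAt) (fun x hx => ?_)
    hz' hz
  have h3 := fr_norm_le (f1 x) (f2 x)
  have h4 := h1 x hx
  have h5 := h2 x hx
  linarith

theorem BL_of_der_real {B : Set ℂ} (hB : Convex ℝ B) {f f1 f2 : ℂ → ℝ} {M L : ℝ}
    (hd : ∀ z ∈ B, HasFDerivAt f (frr (f1 z) (f2 z)) z) (hM : ∀ z ∈ B, |f z| ≤ M)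
    (h1 : ∀ z ∈ B, |f1 z| ≤ L) (h2 : ∀ z ∈ B, |f2 z| ≤ L) :
    BL B (fun z => (f z : ℂ)) M (2 * L) := by
  refine ⟨fun z hz => ?_, fun z hz z' hz' => ?_⟩
  · rw [norm_real, Real.norm_eq_abs]
    exact hM z hz
  · show ‖((f z : ℝ) : ℂ) - ((f z' : ℝ) : ℂ)‖ ≤ _
    rw [← ofReal_sub, norm_real]
    refine hB.norm_image_sub_le_of_norm_hasFDerivWithin_le
      (f' := fun z => frr (f1 z) (f2 z)) (fun x hx => (hd x hx).hasFDerivWithinAt)
      (fun x hx => ?_) hz' hz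
    have h3 := frr_norm_le (f1 x) (f2 x)
    have h4 := h1 x hx
    have h5 := h2 x hx
    linarith

/-- product rules -/
theorem der_mul {f f1 f2 : ℂ → ℂ} {g : ℂ → ℂ} {g1 g2 : ℂ → ℂ} {z : ℂ}
    (hf : HasFDerivAt f (fr (f1 z) (f2 z)) z) (hg : HasFDerivAt g (fr (g1 z) (g2 z)) z) :
    HasFDerivAt (fun y => f y * g y) (fr (f1 z * g z + f z * g1 z) (f2 z * g z + f z * g2 z)) z := by
  refine (hf.mul hg).congr_fderiv ?_
  ext v
  simp only [add_apply, ContinuousLinearMap.add_apply, ContinuousLinearMap.smul_apply,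
    fr_apply, smul_eq_mul]
  ring

theorem der_ofReal {f f1 f2 : ℂ → ℝ} {z : ℂ} (hf : HasFDerivAt f (frr (f1 z) (f2 z)) z) :
    HasFDerivAt (fun y => (f y : ℂ)) (fr (f1 z : ℂ) (f2 z : ℂ)) z := by
  have h1 : HasFDerivAt (fun y => ofRealCLM (f y)) (ofRealCLM.comp (frr (f1 z) (f2 z))) z :=
    ofRealCLM.hasFDerivAt.comp z hf
  refine h1.congr_fderiv ?_
  refine ContinuousLinearMap.ext fun v => ?_
  rw [ContinuousLinearMap.comp_apply, fr_apply, frr_apply, ofRealCLM_apply]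
  push_cast
  ring

theorem der_smul {f f1 f2 : ℂ → ℝ} {g : ℂ → ℂ} {g1 g2 : ℂ → ℂ} {z : ℂ}
    (hf : HasFDerivAt f (frr (f1 z) (f2 z)) z) (hg : HasFDerivAt g (fr (g1 z) (g2 z)) z) :
    HasFDerivAt (fun y => (f y : ℂ) * g y)
      (fr ((f1 z : ℂ) * g z + (f z : ℂ) * g1 z) ((f2 z : ℂ) * g z + (f z : ℂ) * g2 z)) z :=
  der_mul (f := fun y => (f y : ℂ)) (f1 := fun y => (f1 y : ℂ)) (f2 := fun y => (f2 y : ℂ))
    (der_ofReal hf) hg

theorem der_mul_real {f f1 f2 g g1 g2 : ℂ → ℝ} {z : ℂ}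
    (hf : HasFDerivAt f (frr (f1 z) (f2 z)) z) (hg : HasFDerivAt g (frr (g1 z) (g2 z)) z) :
    HasFDerivAt (fun y => f y * g y) (frr (f1 z * g z + f z * g1 z) (f2 z * g z + f z * g2 z)) z := by
  refine (hf.mul hg).congr_fderiv ?_
  refine ContinuousLinearMap.ext fun v => ?_
  simp only [ContinuousLinearMap.add_apply, ContinuousLinearMap.smul_apply,
    frr_apply, smul_eq_mul]
  ring

theorem der_add {f f1 f2 g g1 g2 : ℂ → ℂ} {z : ℂ}
    (hf : HasFDerivAt f (fr (f1 z) (f2 z)) z) (hg : HasFDerivAt g (fr (g1 z) (g2 z)) z) :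
    HasFDerivAt (fun y => f y + g y) (fr (f1 z + g1 z) (f2 z + g2 z)) z := by
  refine (hf.add hg).congr_fderiv ?_
  refine ContinuousLinearMap.ext fun v => ?_
  simp only [ContinuousLinearMap.add_apply, fr_apply]
  ring

theorem der_sub {f f1 f2 g g1 g2 : ℂ → ℂ} {z : ℂ}
    (hf : HasFDerivAt f (fr (f1 z) (f2 z)) z) (hg : HasFDerivAt g (fr (g1 z) (g2 z)) z) :
    HasFDerivAt (fun y => f y - g y) (fr (f1 z - g1 z) (f2 z - g2 z)) z := by
  refine (hf.sub hg).congr_fderiv ?_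
  refine ContinuousLinearMap.ext fun v => ?_
  simp only [ContinuousLinearMap.sub_apply, fr_apply]
  ring

private theorem der_re {f f1 f2 : ℂ → ℂ} {z : ℂ} (hf : HasFDerivAt f (fr (f1 z) (f2 z)) z) :
    HasFDerivAt (fun y => (f y).re) (frr (f1 z).re (f2 z).re) z := by
  have h1 : HasFDerivAt (fun y => reCLM (f y)) (reCLM.comp (fr (f1 z) (f2 z))) z :=
    reCLM.hasFDerivAt.comp z hf
  refine h1.congr_fderiv ?_
  refine ContinuousLinearMap.ext fun v => ?_
  rw [ContinuousLinearMap.comp_apply, fr_apply, frr_apply, reCLM_apply]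
  simp only [add_re, re_ofReal_mul]
  ring

private theorem der_im {f f1 f2 : ℂ → ℂ} {z : ℂ} (hf : HasFDerivAt f (fr (f1 z) (f2 z)) z) :
    HasFDerivAt (fun y => (f y).im) (frr (f1 z).im (f2 z).im) z := by
  have h1 : HasFDerivAt (fun y => imCLM (f y)) (imCLM.comp (fr (f1 z) (f2 z))) z :=
    imCLM.hasFDerivAt.comp z hf
  refine h1.congr_fderiv ?_
  refine ContinuousLinearMap.ext fun v => ?_
  rw [ContinuousLinearMap.comp_apply, fr_apply, frr_apply, imCLM_apply]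
  simp only [add_im, im_ofReal_mul]
  ring

theorem der_cr {f f1 f2 g g1 g2 : ℂ → ℂ} {z : ℂ}
    (hf : HasFDerivAt f (fr (f1 z) (f2 z)) z) (hg : HasFDerivAt g (fr (g1 z) (g2 z)) z) :
    HasFDerivAt (fun y => cr (f y) (g y))
      (frr (cr (f1 z) (g z) + cr (f z) (g1 z)) (cr (f2 z) (g z) + cr (f z) (g2 z))) z := by
  have h1 := ((der_re hf).mul (der_im hg)).sub ((der_im hf).mul (der_re hg))
  refine HasFDerivAt.congr_fderiv h1 ?_
  refine ContinuousLinearMap.ext fun v => ?_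
  simp only [ContinuousLinearMap.sub_apply, ContinuousLinearMap.add_apply,
    ContinuousLinearMap.smul_apply, frr_apply, smul_eq_mul, cr]
  ring

end Pool.Agent.CAPV
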