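import Pool.Agent.Lib.MP_488b8a_co_V.PlD

/-! Project SO (MP_488b8a_co), module Bas: elementary bounds in a strip. -/

namespace Pool.Agent.CAPV

open Complex

theorem SB_convex (h : ℝ) (N : ℕ) : Convex ℝ (SB h N) := by
  have e : SB h N = ({z : ℂ | -h ≤ z.re} ∩ {z : ℂ | z.re ≤ ((N : ℝ) + 1) * h}) ∩
      ({z : ℂ | -(2 * h) ≤ z.im} ∩ {z : ℂ | z.im ≤ 2 * h}) := by
    ext z
    simp only [SB, Set.mem_ofPred_eq, Set.mem_inter_iff, abs_le]
    tauto
  rw [e]
  exact ((convex_halfSpace_re_ge _).inter (convex_halfSpace_re_le _)).inter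
    ((convex_halfSpace_im_ge _).inter (convex_halfSpace_im_le _))

private theorem Bas_half {B : Set ℂ} {f g : ℂ → ℂ} {K L : ℝ} (hf : BL B f K L)
    (hg : BL B g K L) : BL B (fun z => (f z + g z) / 2) K L := by
  have h := BL_add hf hg
  refine ⟨fun z hz => ?_, fun z hz z' hz' => ?_⟩
  · have h1 := h.1 z hz
    simp only at h1
    rw [norm_div, Complex.norm_two]
    linarith
  · have h1 := h.2 z hz z' hz'
    simp only at h1
    rw [← sub_div, norm_div, Complex.norm_two]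
    linarith

private theorem Bas_lip {f f' : ℝ → ℝ} {C : ℝ} (hf : ∀ t, HasDerivAt f (f' t) t)
    (hb : ∀ t, |f' t| ≤ C) (x y : ℝ) : |f x - f y| ≤ C * |x - y| :=
  (convex_univ (𝕜 := ℝ) (E := ℝ)).norm_image_sub_le_of_norm_hasDerivWithin_le
    (fun t _ => (hf t).hasDerivWithinAt) (fun t _ => hb t) (Set.mem_univ y) (Set.mem_univ x)

/-- a real profile of the scaled height -/
private theorem Bas_prof {B : Set ℂ} {f : ℝ → ℝ} {M C K h k : ℝ} (h0 : 0 < h) (k0 : 0 < k)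
    (hC : 0 ≤ C) (hCK : C ≤ K) (hb : ∀ t, |f t| ≤ M) (hl : ∀ x y, |f x - f y| ≤ C * |x - y|) :
    BL B (fun z => ((f (z.im / h) / k : ℝ) : ℂ)) (M / k) (K / (k * h)) := by
  refine ⟨fun z _ => ?_, fun z _ z' _ => ?_⟩
  · rw [Complex.norm_real, Real.norm_eq_abs, abs_div, abs_of_pos k0]
    exact div_le_div_of_nonneg_right (hb _) k0.le
  · rw [← ofReal_sub, Complex.norm_real, Real.norm_eq_abs, ← sub_div, abs_div, abs_of_pos k0]
    have h1 := hl (z.im / h) (z'.im / h)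
    rw [← sub_div, abs_div, abs_of_pos h0] at h1
    have h2 : |z.im - z'.im| ≤ ‖z - z'‖ := by
      rw [← sub_im]
      exact Complex.abs_im_le_norm _
    have h3 : C * (|z.im - z'.im| / h) ≤ K * (‖z - z'‖ / h) := by
      have h4 : |z.im - z'.im| / h ≤ ‖z - z'‖ / h := div_le_div_of_nonneg_right h2 h0.le
      have h5 : 0 ≤ |z.im - z'.im| / h := by positivity
      exact mul_le_mul hCK h4 h5 (hC.trans hCK)
    calc |f (z.im / h) - f (z'.im / h)| / k ≤ (K * (‖z - z'‖ / h)) / k :=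
          div_le_div_of_nonneg_right (h1.trans h3) k0.le
      _ = K / (k * h) * ‖z - z'‖ := by
          field_simp

/-- elementary bounds -/
theorem SD.Hyp.basic {S : SD} {K t : ℝ} (hS : S.Hyp K t) :
    BL (SB S.h S.N) S.H1 K (2 * K) ∧ BL (SB S.h S.N) S.H2 K (2 * K) ∧
      BL (SB S.h S.N) S.w1 t (4 * K) ∧ BL (SB S.h S.N) S.w2 t (4 * K) ∧
      BL (SB S.h S.N) (fun z => (S.X0 z : ℂ)) 1 (K / S.h) ∧
      BL (SB S.h S.N) (fun z => (S.X1 z : ℂ)) (K / S.h) (K / S.h ^ 2) ∧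
      BL (SB S.h S.N) (fun z => (S.X2 z : ℂ)) (K / S.h ^ 2) (K / S.h ^ 3) ∧
      (∀ z ∈ SB S.h S.N, ∀ z' ∈ SB S.h S.N, ‖S.H z - S.H z'‖ ≤ 2 * K * ‖z - z'‖) ∧
      (∀ i, 1 ≤ i → i < S.N → ‖S.b i‖ ≤ 2 * K * S.ε) := by
  have hc := SB_convex S.h S.N
  obtain ⟨f1, f2, -, -, -⟩ := hS.Fb.bl hS.F hc
  obtain ⟨g1, g2, -, -, -⟩ := hS.Gb.bl hS.G hc
  have hH1 : BL (SB S.h S.N) S.H1 K (2 * K) := Bas_half f1 g1
  have hH2 : BL (SB S.h S.N) S.H2 K (2 * K) := Bas_half f2 g2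
  have h0 := hS.h0
  have hPC : 0 ≤ S.P.C := le_trans zero_le_one S.P.hC
  refine ⟨hH1, hH2, ⟨hS.d1, fun z hz z' hz' => ?_⟩, ⟨hS.d2, fun z hz z' hz' => ?_⟩,
    ?_, ?_, ?_, ?_, ?_⟩
  · have h1 := (BL_sub g1 f1).2 z hz z' hz'
    have e : 2 * K + 2 * K = 4 * K := by ring
    rw [e] at h1
    exact h1
  · have h1 := (BL_sub g2 f2).2 z hz z' hz'
    have e : 2 * K + 2 * K = 4 * K := by ring
    rw [e] at h1
    exact h1
  · have h1 := Bas_prof (B := SB S.h S.N) (f := S.P.x0) h0 one_pos hPC hS.PC S.P.bx0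
      (Bas_lip S.P.dx0 S.P.bx1)
    simp only [div_one, one_mul] at h1
    exact h1
  · have h1 := Bas_prof (B := SB S.h S.N) (f := S.P.x1) (k := S.h) h0 h0 hPC hS.PC
      (fun t => (S.P.bx1 t).trans hS.PC) (Bas_lip S.P.dx1 S.P.bx2)
    rw [← pow_two] at h1
    exact h1
  · have h1 := Bas_prof (B := SB S.h S.N) (f := S.P.x2) (k := S.h ^ 2) h0 (by positivity) hPC
      hS.PC (fun t => (S.P.bx2 t).trans hS.PC) S.P.lx2
    rw [← pow_succ] at h1
    exact h1
  · intro z hz z' hz'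
    refine hc.norm_image_sub_le_of_norm_hasFDerivWithin_le
      (f' := fun z => fr (S.H1 z) (S.H2 z))
      (fun y _ => (hS.H_der y).hasFDerivWithinAt) (fun y hy => ?_) hz' hz
    have h1 := hH1.1 y hy
    have h2 := hH2.1 y hy
    refine (fr_norm_le _ _).trans ?_
    linarith
  · intro i hi hiN
    have hp : S.p i ∈ SB S.h S.N := by
      have h1 : (S.p i).re = i * S.h := rfl
      have h2 : (S.p i).im = 0 := rfl
      have h3 : (0 : ℝ) ≤ i * S.h := by positivity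
      have h4 : (i : ℝ) ≤ (S.N : ℝ) + 1 := by
        exact_mod_cast (by omega : i ≤ S.N + 1)
      refine ⟨?_, ?_, ?_⟩
      · rw [h1]
        linarith
      · rw [h1]
        exact mul_le_mul_of_nonneg_right h4 h0.le
      · rw [h2, abs_zero]
        positivity
    have h1 := hS.wb i hiN (S.p i) hp (by
      have e : (S.p i).re = i * S.h := rfl
      rw [e, sub_self, abs_zero]
      positivity)
    have h2 := hS.wb (i - 1) (by omega) (S.p i) hp (by
      have e : (S.p i).re = i * S.h := rfl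
      rw [e, Nat.cast_sub hi, Nat.cast_one]
      have e2 : (i : ℝ) * S.h - (i - 1) * S.h = S.h := by ring
      rw [e2, abs_of_pos h0]
      linarith)
    have e : S.b i = S.w (i - 1) (S.p i) - S.w i (S.p i) := by
      unfold SD.b SD.w
      ring
    rw [e]
    refine (norm_sub_le _ _).trans ?_
    linarith

end Pool.Agent.CAPV
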