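import Pool.Agent.Lib.MP_488b8a_co_V.Defs

/-! Project SO (MP_488b8a_co): definitions for the induction over the cells. -/

namespace Pool.Agent.CAPV

open Complex

noncomputable section

/-- admissible parameters -/
structure Prm.Gd (p : Prm) (CR a0 : ℝ) (k1 : ℕ) : Prop where
  cr : p.CR = CR
  T0 : 0 ≤ p.T
  T1 : p.T ≤ 1
  elo : 1 / 16 ^ (p.K + 1) ≤ p.ε
  ehi : p.ε ≤ 1 / 16 ^ p.K
  A0 : a0 ≤ p.A0
  Au : a0 ≤ p.Au
  C0 : a0 ≤ p.C0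
  Cc : a0 ≤ p.Cc
  k0 : k1 ≤ p.k0
  K : p.k0 ≤ p.K

/-- a good map on the cell of level `k + 1` with centre `c'`, which agrees with the chart of the
parent cell (centre `c`) near its boundary -/
def Kid (p : Prm) (k : ℕ) (c c' : ℂ) (φ Bn En : ℝ) : Prop :=
  ∃ (U : ℂ → ℂ) (Bad : Finset ℂ) (Cor : Finset (ℂ × ℕ)),
    (∀ z, ak (k + 1) - hk p.K (k + 1) < mx (z - c') → U z = (chart p.T c φ).f z) ∧
    (∀ z, mx (z - c') ≤ ak (k + 1) → (∀ q ∈ Bad, p.C0 * p.ε ≤ ‖z - q‖) →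
      Ok p.T p.ε p.CR (kmin p z) (cst p Cor z) U z) ∧
    (Bad.card : ℝ) ≤ Bn ∧ ∑ x ∈ Cor, ((x.2 : ℝ) + 1) ≤ En ∧
    (∀ q ∈ Bad, mx (q - c') ≤ ak (k + 1)) ∧ (∀ x ∈ Cor, mx (x.1 - c') ≤ ak (k + 1))

/-- the rectangle which contains the image of the window -/
def RB : Set ℂ :=
  {z | -(1 / 10) ≤ z.re ∧ z.re ≤ 7 ∧ -(101 / 100) ≤ z.im ∧ z.im ≤ -(28 / 500)}

end

end Pool.Agent.CAPV
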