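import Pool.Agent.Lib.MP_488b8a_co_V.BLc
import Pool.Agent.Lib.MP_488b8a_co_U.Lat
import Pool.Agent.Lib.MP_488b8a_co_U.LatC

/-! Project SO (MP_488b8a_co), module LamL: the lattice. -/

namespace Pool.Agent.CAPV

open Complex

/-- the lattice has covering radius `ε` -/
theorem LamE_near {ε : ℝ} (hε : 0 < ε) (v : ℂ) : ∃ l ∈ LamE ε, ‖v - l‖ ≤ ε := by
  obtain ⟨l, hl, h⟩ := CAPU.lat_cover 0 (v / ε)
  rw [zero_mul, sub_zero, norm_zero] at h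
  have hε' : (ε : ℂ) ≠ 0 := by exact_mod_cast hε.ne'
  refine ⟨ε * l, ⟨l, hl, rfl⟩, ?_⟩
  have h1 : v - ε * l = -((ε : ℂ) * (l - v / ε)) := by
    rw [mul_sub, mul_div_cancel₀ _ hε']
    ring
  have h2 : ‖l - v / ε‖ ≤ 1 := by
    have h3 := norm_nonneg (l - v / ε)
    nlinarith
  rw [h1, norm_neg, norm_mul, Complex.norm_real, Real.norm_of_nonneg hε.le]
  nlinarith

theorem LamE_sub {ε : ℝ} {a b : ℂ} (ha : a ∈ LamE ε) (hb : b ∈ LamE ε) : a - b ∈ LamE ε := by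
  obtain ⟨l, hl, rfl⟩ := ha
  obtain ⟨m, hm, rfl⟩ := hb
  exact ⟨l - m, CAPU.Lam_sub hl hm, by ring⟩

theorem LamE_add {ε : ℝ} {a b : ℂ} (ha : a ∈ LamE ε) (hb : b ∈ LamE ε) : a + b ∈ LamE ε := by
  obtain ⟨l, hl, rfl⟩ := ha
  obtain ⟨m, hm, rfl⟩ := hb
  exact ⟨l + m, CAPU.Lam_add hl hm, by ring⟩

theorem LamE_zero (ε : ℝ) : (0 : ℂ) ∈ LamE ε :=
  ⟨0, CAPU.Lam_zero, by ring⟩

end Pool.Agent.CAPV
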