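import Pool.Agent.Lib.MP_488b8a_co_V.JetL
import Pool.Agent.Lib.MP_488b8a_co_V.LamL

/-! Project SO (MP_488b8a_co), module Rot: goodness under rotations; congruence; from `NearS` to
`Ok`. -/

namespace Pool.Agent.CAPV

open Complex

private theorem Rot_aff (ω' z0 y : ℂ) :
    HasFDerivAt (fun y => ω' * (y - z0)) (fr ω' (ω' * I)) y := by
  have h1 : HasFDerivAt (fun y : ℂ => ω' * (y - z0)) (ω' • (ContinuousLinearMap.id ℝ ℂ)) y :=
    ((hasFDerivAt_id y).sub_const z0).const_mul ω'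
  refine h1.congr_fderiv ?_
  ext v
  change ω' * v = fr ω' (ω' * I) v
  rw [fr_apply]
  conv_lhs => rw [← re_add_im v]
  ring

private theorem Rot_comp {V : ℂ → ℂ} {a b ω' z0 y : ℂ}
    (hf : HasFDerivAt V (fr a b) (ω' * (y - z0))) : HasFDerivAt (fun y => V (ω' * (y - z0)))
      (fr ((ω'.re : ℂ) * a + (ω'.im : ℂ) * b) (-(ω'.im : ℂ) * a + (ω'.re : ℂ) * b)) y := by
  have h1 := hf.comp y (Rot_aff ω' z0 y)
  refine h1.congr_fderiv ?_
  ext v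
  change fr a b (fr ω' (ω' * I) v) = _
  rw [fr_apply, fr_apply, fr_apply]
  have e1 : ((v.re : ℂ) * ω' + (v.im : ℂ) * (ω' * I)).re = v.re * ω'.re - v.im * ω'.im := by
    simp
    ring
  have e2 : ((v.re : ℂ) * ω' + (v.im : ℂ) * (ω' * I)).im = v.re * ω'.im + v.im * ω'.re := by
    simp
  rw [e1, e2]
  push_cast
  ring

private theorem Rot_comb {c1 c2 : ℝ} {x y : ℂ} {K : ℝ} (_hK : 0 ≤ K) (hx : ‖x‖ ≤ K)
    (hy : ‖y‖ ≤ K) (h1 : |c1| ≤ 1) (h2 : |c2| ≤ 1) : ‖(c1 : ℂ) * x + (c2 : ℂ) * y‖ ≤ 2 * K := by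
  have e1 : ‖(c1 : ℂ) * x‖ ≤ 1 * K := by
    rw [norm_mul, norm_real, Real.norm_eq_abs]
    exact mul_le_mul h1 hx (norm_nonneg _) zero_le_one
  have e2 : ‖(c2 : ℂ) * y‖ ≤ 1 * K := by
    rw [norm_mul, norm_real, Real.norm_eq_abs]
    exact mul_le_mul h2 hy (norm_nonneg _) zero_le_one
  refine (norm_add_le _ _).trans ?_
  linarith

theorem near_rot {F : Jet} {ε CR a e : ℝ} {U : ℂ → ℂ} {w z0 ω : ℂ} (hω : ‖ω‖ = 1) (hCR : 4 ≤ CR)
    (ha : 0 ≤ a) (he : 0 ≤ e) (hε : 0 < ε)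
    (h : NearS ε CR a e U w ((F.rot ω z0).f1 w) ((F.rot ω z0).f2 w)) :
    NearS ε (CR / 4) a (4 * (a + e)) (fun z => U ((starRingEnd ℂ) ω * (z - z0))) (z0 + ω * w)
      (F.f1 (z0 + ω * w)) (F.f2 (z0 + ω * w)) := by
  obtain ⟨V, V1, V2, β, L, hβ, hL, hl, h1, h2, h3, h4, h5, h6⟩ := h
  have hra : |ω.re| ≤ 1 := (abs_re_le_norm ω).trans hω.le
  have hrb : |ω.im| ≤ 1 := (abs_im_le_norm ω).trans hω.le
  have hrb' : |-ω.im| ≤ 1 := by rwa [abs_neg]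
  have hn2 : ω.re ^ 2 + ω.im ^ 2 = 1 := by
    have h7 : ‖ω‖ ^ 2 = 1 := by rw [hω]; norm_num
    rw [← normSq_eq_norm_sq, normSq_apply] at h7
    linarith
  have hn2c : (ω.re : ℂ) ^ 2 + (ω.im : ℂ) ^ 2 = 1 := by exact_mod_cast hn2
  have hcc : (starRingEnd ℂ) ω * ω = 1 := by
    rw [mul_comm, mul_conj, normSq_eq_norm_sq, hω]
    norm_num
  have hcn : ‖(starRingEnd ℂ) ω‖ = 1 := by rw [norm_conj, hω]
  set cω : ℂ := (starRingEnd ℂ) ω with hcω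
  have hre : cω.re = ω.re := conj_re ω
  have him : cω.im = -ω.im := conj_im ω
  have hpt : cω * (z0 + ω * w - z0) = w := by
    rw [add_sub_cancel_left, ← mul_assoc, hcc, one_mul]
  have hdist : ∀ y y' : ℂ, ‖cω * (y - z0) - cω * (y' - z0)‖ = ‖y - y'‖ := fun y y' => by
    rw [show cω * (y - z0) - cω * (y' - z0) = cω * (y - y') by ring, norm_mul, hcn, one_mul]
  have hball : ∀ y ∈ Metric.closedBall (z0 + ω * w) (100 * ε),
      cω * (y - z0) ∈ Metric.closedBall w (100 * ε) := by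
    intro y hy
    rw [mem_closedBall_iff_norm] at hy ⊢
    rw [← hpt, hdist]
    exact hy
  have hCRL : 0 ≤ CR * (ε * L) := by positivity
  have hCRb : 0 ≤ CR * β := by positivity
  have hb2 : 4 * β ^ 2 ≤ CR * β ^ 2 := mul_le_mul_of_nonneg_right hCR (sq_nonneg β)
  set A : ℂ := V1 w with hA
  set B : ℂ := V2 w with hB
  have hcr : cr ((ω.re : ℂ) * A + (-ω.im : ℝ) * B) ((ω.im : ℂ) * A + (ω.re : ℂ) * B) =
      cr A B := by
    unfold cr
    simp only [add_re, add_im, mul_re, mul_im, ofReal_re, ofReal_im, zero_mul, sub_zero,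
      add_zero]
    linear_combination (A.re * B.im - A.im * B.re) * hn2
  refine ⟨fun y => V (cω * (y - z0)),
    fun y => (ω.re : ℂ) * V1 (cω * (y - z0)) + ((-ω.im : ℝ) : ℂ) * V2 (cω * (y - z0)),
    fun y => (ω.im : ℂ) * V1 (cω * (y - z0)) + (ω.re : ℂ) * V2 (cω * (y - z0)),
    2 * β, 2 * L, by linarith, by linarith, ⟨?_, ?_, ?_, ?_⟩, ?_, ?_, ?_, ?_, ?_, ?_⟩
  · intro y hy
    have h7 := Rot_comp (hl.der _ (hball y hy))
    rw [hre, him] at h7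
    push_cast at h7 ⊢
    rw [neg_neg] at h7
    exact h7
  · intro y hy
    exact hl.mod _ (hball y hy)
  · intro y hy y' hy'
    have k1 := hl.l1 _ (hball y hy) _ (hball y' hy')
    have k2 := hl.l2 _ (hball y hy) _ (hball y' hy')
    rw [hdist] at k1 k2
    have k3 := Rot_comb (by positivity) k1 k2 hra hrb'
    rw [← mul_assoc] at k3
    refine (le_of_eq ?_).trans k3
    congr 1
    ring
  · intro y hy y' hy'
    have k1 := hl.l1 _ (hball y hy) _ (hball y' hy')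
    have k2 := hl.l2 _ (hball y hy) _ (hball y' hy')
    rw [hdist] at k1 k2
    have k3 := Rot_comb (by positivity) k1 k2 hrb hra
    rw [← mul_assoc] at k3
    refine (le_of_eq ?_).trans k3
    congr 1
    ring
  · have k3 := Rot_comb hβ h1 h2 hra hrb'
    refine (le_of_eq ?_).trans k3
    congr 1
    simp only [hpt, Jet.rot]
    push_cast
    linear_combination (F.f1 (z0 + ω * w)) * hn2c
  · have k3 := Rot_comb hβ h1 h2 hrb hra
    refine (le_of_eq ?_).trans k3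
    congr 1
    simp only [hpt, Jet.rot]
    push_cast
    linear_combination (F.f2 (z0 + ω * w)) * hn2c
  · simp only [hpt]
    rw [hcr]
    have k1 : CR / 4 * ((2 * β) ^ 2 + ε * (2 * L)) =
        CR * (β ^ 2 + ε * L) - CR * (ε * L) / 2 := by
      ring
    rw [k1]
    linarith
  · simp only [hpt]
    rw [hcr]
    have k1 : CR * (β ^ 2 + ε * L) = CR * β ^ 2 + CR * (ε * L) := by ring
    rw [k1] at h3
    have k2 := sq_nonneg β
    nlinarith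
  · linarith
  · linarith

theorem near_congr {ε CR a e a' e' : ℝ} {U U' : ℂ → ℂ} {z F1 F2 : ℂ}
    (h : NearS ε CR a e U z F1 F2) (ha : a ≤ a') (he : e ≤ e')
    (hU : ∀ y ∈ Metric.closedBall z (100 * ε), U y - U' y ∈ LamE ε) :
    NearS ε CR a' e' U' z F1 F2 := by
  obtain ⟨V, V1, V2, β, L, hβ, hL, hl, h1, h2, h3, h4, h5, h6⟩ := h
  refine ⟨V, V1, V2, β, L, hβ, hL, ⟨hl.der, fun y hy => ?_, hl.l1, hl.l2⟩, h1, h2, by linarith,
    by linarith, h5, h6⟩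
  have h7 := LamE_add (hl.mod y hy) (hU y hy)
  rwa [sub_add_sub_cancel] at h7

theorem ok_congr {T ε CR κ e κ' e' : ℝ} {U U' : ℂ → ℂ} {z : ℂ} (h : Ok T ε CR κ e U z)
    (hκ : κ ≤ κ') (he : e ≤ e')
    (hU : ∀ y ∈ Metric.closedBall z (100 * ε), U y - U' y ∈ LamE ε) : Ok T ε CR κ' e' U' z := by
  obtain ⟨V, V1, V2, u, β, L, hu, hβ, hL, hl, h1, h2, h3, h4, h5, h6⟩ := h
  refine ⟨V, V1, V2, u, β, L, hu, hβ, hL, ⟨hl.der, fun y hy => ?_, hl.l1, hl.l2⟩, h1, h2,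
    by linarith, by linarith, h5, h6⟩
  have h7 := LamE_add (hl.mod y hy) (hU y hy)
  rwa [sub_add_sub_cancel] at h7

/-- a chart is good -/
theorem near_jet {F : Jet} {B : Set ℂ} {C CR ε : ℝ} {z : ℂ} (hC : 0 ≤ C) (hCR : 1 ≤ CR)
    (hε : 0 < ε) (hs : F.Sm) (hb : F.Bd B C) (hB : Metric.closedBall z (100 * ε) ⊆ B)
    (h1 : CR * (2 * C * ε) ≤ 1) (U : ℂ → ℂ)
    (hU : ∀ y ∈ Metric.closedBall z (100 * ε), F.f y - U y ∈ LamE ε) :
    NearS ε CR (2 * CR * C * ε) 0 U z (F.f1 z) (F.f2 z) := by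
  have hb' : F.Bd (Metric.closedBall z (100 * ε)) C :=
    ⟨fun y hy => hb.b1 y (hB hy), fun y hy => hb.b2 y (hB hy), fun y hy => hb.b11 y (hB hy),
      fun y hy => hb.b12 y (hB hy), fun y hy => hb.b22 y (hB hy),
      fun y hy y' hy' => hb.l11 y (hB hy) y' (hB hy'),
      fun y hy y' hy' => hb.l12 y (hB hy) y' (hB hy'),
      fun y hy y' hy' => hb.l22 y (hB hy) y' (hB hy')⟩
  obtain ⟨b1, b2, -⟩ := hb'.bl hs (convex_closedBall _ _)
  refine ⟨F.f, F.f1, F.f2, 0, 2 * C, le_rfl, by linarith,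
    ⟨fun y _ => hs.d0 y, hU, b1.2, b2.2⟩, ?_, ?_, ?_, ?_, ?_, ?_⟩
  · rw [sub_self, norm_zero]
  · rw [sub_self, norm_zero]
  · rw [hs.det z]
    linarith
  · rw [hs.det z]
    norm_num
  · rw [mul_zero]
    exact zero_le_one
  · linarith

theorem near_ok {T ε CR a e δ κ : ℝ} {U : ℂ → ℂ} {z F1 F2 u : ℂ} (hu : ‖u‖ = 1) (hCR : 1 ≤ CR)
    (ha : 0 ≤ a) (hε : 0 < ε) (hδ : 0 ≤ δ) (h : NearS ε (2 * CR) a e U z F1 F2)
    (h1 : ‖F1 - (mm T z.im : ℂ) * u‖ ≤ δ) (h2 : ‖F2 - I * u / (mm T z.im : ℂ)‖ ≤ δ)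
    (h3 : a + CR * (2 * δ ^ 2 + ε) ≤ 3 / 4 * κ) (h4 : 2 * CR * δ ≤ 1) :
    Ok T ε CR κ (2 * (a + e) + 2 * δ ^ 2) U z := by
  obtain ⟨V, V1, V2, β, L, hβ, hL, hl, g1, g2, g3, g4, g5, g6⟩ := h
  have hCRL : 0 ≤ CR * (ε * L) := by positivity
  have hb2 : 1 * β ^ 2 ≤ CR * β ^ 2 := mul_le_mul_of_nonneg_right hCR (sq_nonneg β)
  have hsq : (β + δ) ^ 2 ≤ 2 * β ^ 2 + 2 * δ ^ 2 := by nlinarith [sq_nonneg (β - δ)]
  have hsq' : CR * (β + δ) ^ 2 ≤ CR * (2 * β ^ 2 + 2 * δ ^ 2) :=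
    mul_le_mul_of_nonneg_left hsq (by linarith)
  have k1 : 2 * CR * (β ^ 2 + ε * L) = 2 * (CR * β ^ 2) + 2 * (CR * (ε * L)) := by ring
  rw [k1] at g3
  have k2 : CR * (2 * δ ^ 2 + ε) = 2 * (CR * δ ^ 2) + CR * ε := by ring
  rw [k2] at h3
  have k3 : CR * (2 * β ^ 2 + 2 * δ ^ 2) = 2 * (CR * β ^ 2) + 2 * (CR * δ ^ 2) := by ring
  rw [k3] at hsq'
  have hb0 := sq_nonneg β
  refine ⟨V, V1, V2, u, β + δ, L, hu, by linarith, hL, hl, ?_, ?_, ?_, ?_, ?_, ?_⟩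
  · have := norm_sub_le_norm_sub_add_norm_sub (V1 z) F1 ((mm T z.im : ℂ) * u)
    linarith
  · have := norm_sub_le_norm_sub_add_norm_sub (V2 z) F2 (I * u / (mm T z.im : ℂ))
    linarith
  · have k4 : CR * ((β + δ) ^ 2 + ε + ε * L) =
        CR * (β + δ) ^ 2 + CR * ε + CR * (ε * L) := by ring
    rw [k4]
    linarith
  · linarith
  · linarith
  · linarith

end Pool.Agent.CAPV
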