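import Pool.Agent.Lib.MP_488b8a_co_V.ThB
import Pool.Agent.Lib.MP_488b8a_co_V.Rot

/-! Project SO (MP_488b8a_co), module Glu: gluing the four children of a cell. -/

namespace Pool.Agent.CAPV

open Complex

private theorem Glu_add (u v : ℂ) : mx (u + v) ≤ mx u + mx v := by
  unfold mx
  rw [add_re, add_im]
  refine max_le ?_ ?_
  · exact (abs_add_le _ _).trans (add_le_add (le_max_left _ _) (le_max_left _ _))
  · exact (abs_add_le _ _).trans (add_le_add (le_max_right _ _) (le_max_right _ _))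

private theorem Glu_neg (u : ℂ) : mx (-u) = mx u := by
  unfold mx
  rw [neg_re, neg_im, abs_neg, abs_neg]

private theorem Glu_tri' (u v w : ℂ) : mx (u - w) ≤ mx (u - v) + mx (v - w) := by
  have h := Glu_add (u - v) (v - w)
  rwa [sub_add_sub_cancel] at h

private theorem Glu_tri (u v w : ℂ) : mx (u - w) ≤ mx (v - u) + mx (v - w) := by
  have h := Glu_tri' u v w
  have h2 := Glu_neg (v - u)
  rw [neg_sub] at h2
  rwa [h2] at h

private theorem Glu_mx (u : ℂ) : mx u ≤ ‖u‖ :=
  max_le (abs_re_le_norm u) (abs_im_le_norm u)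

private theorem Glu_sum {α β : Type*} [DecidableEq β] (s : Finset α) (t : α → Finset β)
    (f : β → ℝ) (hf : ∀ x, 0 ≤ f x) :
    ∑ x ∈ s.biUnion t, f x ≤ ∑ i ∈ s, ∑ x ∈ t i, f x := by
  classical
  induction s using Finset.induction_on with
  | empty => simp
  | insert a s ha ih =>
    rw [Finset.biUnion_insert, Finset.sum_insert ha]
    have h1 : ∑ x ∈ t a ∪ s.biUnion t, f x ≤ ∑ x ∈ t a, f x + ∑ x ∈ s.biUnion t, f x := by
      rw [← Finset.sum_union_inter]
      exact le_add_of_nonneg_right (Finset.sum_nonneg fun x _ => hf x)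
    linarith

theorem glue4 {p : Prm} {k : ℕ} {c : ℂ} {φ Bn En : ℝ} (hA : 0 ≤ p.Au) (hCc : 0 ≤ p.Cc)
    (hε : 0 < p.ε) (h1 : 1000 * p.ε ≤ hk p.K (k + 1)) (h2 : 4 * hk p.K (k + 1) ≤ ak (k + 1))
    (hK : ∀ s s' : ℝ, (s = 1 ∨ s = -1) → (s' = 1 ∨ s' = -1) →
      Kid p k c (c + (⟨s * ak (k + 1), s' * ak (k + 1)⟩ : ℂ)) φ Bn En) :
    Cell p k c φ (4 * Bn) (4 * En) := by
  classical
  obtain ⟨a, ha⟩ : ∃ a : ℝ, a = ak (k + 1) := ⟨_, rfl⟩
  obtain ⟨h, hh⟩ : ∃ h : ℝ, h = hk p.K (k + 1) := ⟨_, rfl⟩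
  have ha0 : 0 < a := by
    rw [ha]
    unfold ak
    positivity
  have hh0 : 0 < h := by
    rw [hh]
    unfold hk
    positivity
  have hak : ak k = 2 * a := by
    rw [ha]
    unfold ak
    rw [pow_succ (2 : ℝ) (k + 1)]
    field_simp
  let sg : Bool → ℝ := fun b => if b = true then 1 else -1
  have hsg : ∀ b, sg b = 1 ∨ sg b = -1 := by
    intro b
    cases b
    · right
      rfl
    · left
      rfl
  let cc : Bool × Bool → ℂ := fun b => c + (⟨sg b.1 * a, sg b.2 * a⟩ : ℂ)
  have hK' : ∀ b : Bool × Bool, Kid p k c (cc b) φ Bn En := by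
    intro b
    have h3 := hK (sg b.1) (sg b.2) (hsg _) (hsg _)
    rw [← ha] at h3
    exact h3
  unfold Kid at hK'
  rw [← ha, ← hh] at hK'
  choose Uf Badf Corf k1 k2 k3 k4 k5 k6 using hK'
  rw [← hh] at h1
  -- the centres
  have hcre : ∀ b : Bool × Bool, (cc b).re = c.re + sg b.1 * a := fun b => rfl
  have hcim : ∀ b : Bool × Bool, (cc b).im = c.im + sg b.2 * a := fun b => rfl
  have hsa : ∀ b, |sg b * a| = a := by
    intro b
    rcases hsg b with h3 | h3
    · rw [h3, one_mul, abs_of_pos ha0]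
    · rw [h3, neg_one_mul, abs_neg, abs_of_pos ha0]
  have hcc : ∀ b, mx (cc b - c) = a := by
    intro b
    unfold mx
    rw [sub_re, sub_im, hcre, hcim, add_sub_cancel_left, add_sub_cancel_left, hsa, hsa, max_self]
  have hsep : ∀ b b', b ≠ b' → 2 * a ≤ mx (cc b - cc b') := by
    rintro ⟨b1, b2⟩ ⟨b1', b2'⟩ hne
    have hd : ∀ s s' : Bool, s ≠ s' → |sg s * a - sg s' * a| = 2 * a := by
      intro s s' hss
      cases s <;> cases s'
      · exact absurd rfl hss
      · change |(-1 : ℝ) * a - 1 * a| = 2 * a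
        rw [show (-1 : ℝ) * a - 1 * a = -(2 * a) by ring, abs_neg, abs_of_pos (by linarith)]
      · change |(1 : ℝ) * a - -1 * a| = 2 * a
        rw [show (1 : ℝ) * a - -1 * a = 2 * a by ring, abs_of_pos (by linarith)]
      · exact absurd rfl hss
    unfold mx
    rw [sub_re, sub_im, hcre, hcre, hcim, hcim, add_sub_add_left_eq_sub,
      add_sub_add_left_eq_sub]
    by_cases h3 : b1 = b1'
    · have h4 : b2 ≠ b2' := fun h5 => hne (by rw [h3, h5])
      exact le_max_of_le_right (hd _ _ h4).ge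
    · exact le_max_of_le_left (hd _ _ h3).ge
  -- the map
  let U : ℂ → ℂ := fun y => if hy : ∃ b, mx (y - cc b) ≤ a - h then Uf hy.choose y else
    (chart p.T c φ).f y
  have hU : ∀ b y, mx (y - cc b) < a + h → U y = Uf b y := by
    intro b y hy
    by_cases h3 : ∃ b, mx (y - cc b) ≤ a - h
    · have e1 : U y = Uf h3.choose y := dif_pos h3
      have e2 := h3.choose_spec
      by_cases h4 : b = h3.choose
      · rw [e1, ← h4]
      · exfalso
        have h5 := hsep _ _ h4
        have h6 := Glu_tri (cc b) y (cc h3.choose)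
        linarith
    · have e1 : U y = (chart p.T c φ).f y := dif_neg h3
      rw [e1]
      push Not at h3
      exact (k1 b y (h3 b)).symm
  refine ⟨U, Finset.univ.biUnion Badf, Finset.univ.biUnion Corf, ?_, ?_, ?_, ?_, ?_, ?_⟩
  · intro z hz
    rw [hak, ← hh] at hz
    refine dif_neg ?_
    rintro ⟨b, hb⟩
    have h6 := Glu_tri' z (cc b) c
    rw [hcc] at h6
    linarith
  · intro z hz hgood
    rw [hak] at hz
    obtain ⟨b, hb⟩ : ∃ b, mx (z - cc b) ≤ a := by
      have hd : ∀ x x0 : ℝ, |x - x0| ≤ 2 * a → ∃ b, |x - (x0 + sg b * a)| ≤ a := by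
        intro x x0 hx
        rw [abs_le] at hx
        rcases le_total 0 (x - x0) with h3 | h3
        · refine ⟨true, ?_⟩
          change |x - (x0 + 1 * a)| ≤ a
          rw [abs_le]
          constructor <;> linarith
        · refine ⟨false, ?_⟩
          change |x - (x0 + -1 * a)| ≤ a
          rw [abs_le]
          constructor <;> linarith
      unfold mx at hz
      rw [max_le_iff, sub_re, sub_im] at hz
      obtain ⟨b1, hb1⟩ := hd _ _ hz.1
      obtain ⟨b2, hb2⟩ := hd _ _ hz.2
      refine ⟨(b1, b2), ?_⟩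
      unfold mx
      rw [sub_re, sub_im, hcre, hcim]
      exact max_le hb1 hb2
    have h3 := k2 b z hb fun q hq => hgood q (Finset.mem_biUnion.2 ⟨b, Finset.mem_univ _, hq⟩)
    refine ok_congr h3 le_rfl ?_ ?_
    · unfold cst
      refine mul_le_mul_of_nonneg_left ?_ hCc
      have h4 : ∑ x ∈ Corf b, en p z x ≤ ∑ x ∈ Finset.univ.biUnion Corf, en p z x :=
        Finset.sum_le_sum_of_subset_of_nonneg
          (Finset.subset_biUnion_of_mem Corf (Finset.mem_univ b)) fun x _ _ => by
            unfold en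
            split_ifs
            · exact sq_nonneg _
            · exact le_rfl
      linarith
    · intro y hy
      rw [mem_closedBall_iff_norm] at hy
      have h4 := Glu_tri' y z (cc b)
      have h5 := Glu_mx (y - z)
      rw [hU b y (by linarith), sub_self]
      exact LamE_zero _
  · have h3 : ((Finset.univ.biUnion Badf).card : ℝ) ≤ ∑ b, ((Badf b).card : ℝ) := by
      have h4 := Finset.card_biUnion_le (s := Finset.univ) (t := Badf)
      exact_mod_cast h4
    have h4 : ∑ b, ((Badf b).card : ℝ) ≤ ∑ b : Bool × Bool, Bn :=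
      Finset.sum_le_sum fun b _ => k3 b
    rw [Finset.sum_const, Finset.card_univ, Fintype.card_prod, Fintype.card_bool,
      nsmul_eq_mul] at h4
    norm_num at h4
    linarith
  · have h3 := Glu_sum Finset.univ Corf (fun x => (x.2 : ℝ) + 1) fun x => by positivity
    have h4 : ∑ b, ∑ x ∈ Corf b, ((x.2 : ℝ) + 1) ≤ ∑ b : Bool × Bool, En :=
      Finset.sum_le_sum fun b _ => k4 b
    rw [Finset.sum_const, Finset.card_univ, Fintype.card_prod, Fintype.card_bool,
      nsmul_eq_mul] at h4
    norm_num at h4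
    linarith
  · intro q hq
    obtain ⟨b, -, hb⟩ := Finset.mem_biUnion.1 hq
    have h3 := k5 b q hb
    have h4 := Glu_tri' q (cc b) c
    rw [hcc] at h4
    rw [hak]
    linarith
  · intro x hx
    obtain ⟨b, -, hb⟩ := Finset.mem_biUnion.1 hx
    have h3 := k6 b x hb
    have h4 := Glu_tri' x.1 (cc b) c
    rw [hcc] at h4
    rw [hak]
    linarith

end Pool.Agent.CAPV
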