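import Pool.Agent.Lib.MP_488b8a_co_V.ChD

/-! Project SO (MP_488b8a_co), module ChB: bounds for the charts. -/

namespace Pool.Agent.CAPV

open Complex

/-- a smooth function of the three variables is bounded and Lipschitz on the box -/
private theorem box_bd (g : ℝ × ℝ × ℝ → ℂ) (hg : ContDiff ℝ 1 g) :
    ∃ C : ℝ, 0 ≤ C ∧ (∀ x ∈ Metric.closedBall (0 : ℝ × ℝ × ℝ) 12, ‖g x‖ ≤ C) ∧
      ∀ x ∈ Metric.closedBall (0 : ℝ × ℝ × ℝ) 12, ∀ y ∈ Metric.closedBall (0 : ℝ × ℝ × ℝ) 12,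
        ‖g x - g y‖ ≤ C * ‖x - y‖ := by
  have hc : IsCompact (Metric.closedBall (0 : ℝ × ℝ × ℝ) 12) := isCompact_closedBall _ _
  obtain ⟨C1, h1⟩ := hc.exists_bound_of_continuousOn hg.continuous.continuousOn
  obtain ⟨K, hK⟩ := LocallyLipschitzOn.exists_lipschitzOnWith_of_compact hc
    (hg.locallyLipschitz.locallyLipschitzOn (s := Metric.closedBall (0 : ℝ × ℝ × ℝ) 12))
  have h0 : (0 : ℝ × ℝ × ℝ) ∈ Metric.closedBall (0 : ℝ × ℝ × ℝ) 12 :=
    Metric.mem_closedBall_self (by norm_num)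
  have hC1 : 0 ≤ C1 := (norm_nonneg _).trans (h1 0 h0)
  refine ⟨C1 + K, add_nonneg hC1 K.2, fun x hx => (h1 x hx).trans (by
    have : (0 : ℝ) ≤ K := K.2
    linarith), fun x hx y hy => ?_⟩
  have h2 := hK.dist_le_mul x hx y hy
  rw [dist_eq_norm, dist_eq_norm] at h2
  have h3 := mul_nonneg hC1 (norm_nonneg (x - y))
  have h4 : (C1 + K) * ‖x - y‖ = C1 * ‖x - y‖ + K * ‖x - y‖ := by ring
  rw [h4]
  linarith

private theorem gen (g : ℝ × ℝ × ℝ → ℂ) (hg : ContDiff ℝ 1 g) :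
    ∃ C : ℝ, 0 ≤ C ∧ ∀ (T : ℝ) (c κ : ℂ), 0 ≤ T → T ≤ 1 → -(103 / 100) ≤ c.im →
      c.im ≤ -(1 / 25) → ‖κ‖ ≤ 36 →
      (∀ z ∈ Metric.closedBall c 2, ‖κ * g (hh T c.im / mm T c.im / 4, mm T c.im * (z.re - c.re),
        (z.im - c.im) / mm T c.im)‖ ≤ C) ∧
      ∀ z ∈ Metric.closedBall c 2, ∀ z' ∈ Metric.closedBall c 2,
        ‖κ * g (hh T c.im / mm T c.im / 4, mm T c.im * (z.re - c.re),
          (z.im - c.im) / mm T c.im) -
          κ * g (hh T c.im / mm T c.im / 4, mm T c.im * (z'.re - c.re),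
          (z'.im - c.im) / mm T c.im)‖ ≤ C * ‖z - z'‖ := by
  obtain ⟨C, hC, hb, hl⟩ := box_bd g hg
  refine ⟨216 * C, by positivity, fun T c κ hT0 hT1 hc1 hc2 hκ => ?_⟩
  obtain ⟨_, hm1, hm2⟩ := mm_range hT0 hT1 hc1 hc2
  obtain ⟨m, hm⟩ : ∃ m : ℝ, m = mm T c.im := ⟨_, rfl⟩
  rw [← hm] at hm1 hm2 ⊢
  have hm0 : 0 < m := by linarith
  have hinv : m⁻¹ ≤ 6 := by
    rw [inv_le_comm₀ hm0 (by norm_num)]
    linarith
  have hinv0 : 0 < m⁻¹ := inv_pos.2 hm0
  have hhb : |hh T c.im| ≤ 1 := by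
    unfold hh
    have h1 : T ^ 2 ≤ 1 := by nlinarith
    have h2 : 0 ≤ T ^ 2 := sq_nonneg T
    rw [abs_le]
    constructor
    · nlinarith
    · nlinarith
  have ha : |hh T c.im / m / 4| ≤ 12 := by
    rw [div_eq_mul_inv, div_eq_mul_inv, abs_mul, abs_mul, abs_of_pos hinv0,
      abs_of_pos (by norm_num : (0:ℝ) < 4⁻¹)]
    have h1 : |hh T c.im| * m⁻¹ ≤ 1 * 6 :=
      mul_le_mul hhb hinv hinv0.le zero_le_one
    linarith
  have hmem : ∀ z ∈ Metric.closedBall c 2,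
      (hh T c.im / m / 4, m * (z.re - c.re), (z.im - c.im) / m) ∈
        Metric.closedBall (0 : ℝ × ℝ × ℝ) 12 := by
    intro z hz
    rw [mem_closedBall_iff_norm] at hz
    have h1 : |z.re - c.re| ≤ 2 := by
      have := Complex.abs_re_le_norm (z - c)
      rw [Complex.sub_re] at this
      linarith
    have h2 : |z.im - c.im| ≤ 2 := by
      have := Complex.abs_im_le_norm (z - c)
      rw [Complex.sub_im] at this
      linarith
    rw [mem_closedBall_zero_iff, Prod.norm_def, Prod.norm_def]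
    refine max_le ha (max_le ?_ ?_)
    · change |m * (z.re - c.re)| ≤ 12
      rw [abs_mul, abs_of_pos hm0]
      have h3 : m * |z.re - c.re| ≤ 3 / 2 * 2 :=
        mul_le_mul hm2 h1 (abs_nonneg _) (by norm_num)
      linarith
    · change |(z.im - c.im) / m| ≤ 12
      rw [div_eq_mul_inv, abs_mul, abs_of_pos hinv0]
      have h3 : |z.im - c.im| * m⁻¹ ≤ 2 * 6 :=
        mul_le_mul h2 hinv hinv0.le (by norm_num)
      linarith
  constructor
  · intro z hz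
    rw [norm_mul]
    have h1 := mul_le_mul hκ (hb _ (hmem z hz)) (norm_nonneg _) (by norm_num)
    linarith
  · intro z hz z' hz'
    rw [← mul_sub, norm_mul]
    have h1 := hl _ (hmem z hz) _ (hmem z' hz')
    have h2 : ‖((hh T c.im / m / 4, m * (z.re - c.re), (z.im - c.im) / m) : ℝ × ℝ × ℝ) -
        (hh T c.im / m / 4, m * (z'.re - c.re), (z'.im - c.im) / m)‖ ≤ 6 * ‖z - z'‖ := by
      have h3 : |z.re - z'.re| ≤ ‖z - z'‖ := by
        have := Complex.abs_re_le_norm (z - z')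
        rwa [Complex.sub_re] at this
      have h4 : |z.im - z'.im| ≤ ‖z - z'‖ := by
        have := Complex.abs_im_le_norm (z - z')
        rwa [Complex.sub_im] at this
      have h5 := norm_nonneg (z - z')
      rw [Prod.norm_def, Prod.norm_def]
      refine max_le ?_ (max_le ?_ ?_)
      · change ‖hh T c.im / m / 4 - hh T c.im / m / 4‖ ≤ _
        rw [sub_self, norm_zero]
        linarith
      · change |m * (z.re - c.re) - m * (z'.re - c.re)| ≤ _
        rw [← mul_sub, sub_sub_sub_cancel_right, abs_mul, abs_of_pos hm0]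
        have h6 := mul_le_mul hm2 h3 (abs_nonneg _) (by norm_num)
        linarith
      · change |(z.im - c.im) / m - (z'.im - c.im) / m| ≤ _
        rw [← sub_div, sub_sub_sub_cancel_right, div_eq_mul_inv, abs_mul, abs_of_pos hinv0]
        have h6 := mul_le_mul h4 hinv hinv0.le h5
        linarith
    have h3 : ‖g (hh T c.im / m / 4, m * (z.re - c.re), (z.im - c.im) / m) -
        g (hh T c.im / m / 4, m * (z'.re - c.re), (z'.im - c.im) / m)‖ ≤
        C * (6 * ‖z - z'‖) := h1.trans (mul_le_mul_of_nonneg_left h2 hC)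
    have h4 := mul_le_mul hκ h3 (norm_nonneg _) (by norm_num)
    linarith

private theorem cd_mk {u v : ℝ × ℝ × ℝ → ℝ} (hu : ContDiff ℝ 1 u) (hv : ContDiff ℝ 1 v) :
    ContDiff ℝ 1 (fun x => (⟨u x, v x⟩ : ℂ)) := by
  have h := Complex.equivRealProdCLM.symm.contDiff.comp (hu.prodMk hv)
  have e : (fun x => (⟨u x, v x⟩ : ℂ)) =
      Complex.equivRealProdCLM.symm ∘ fun x => (u x, v x) := by
    funext x
    rw [Function.comp_apply, Complex.equivRealProdCLM_symm_apply]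
    apply Complex.ext <;> simp
  rw [e]
  exact h

theorem chart_bd : ∃ C : ℝ, 1 ≤ C ∧ ∀ (T φ : ℝ) (c : ℂ), 0 ≤ T → T ≤ 1 → -(103 / 100) ≤ c.im →
    c.im ≤ -(1 / 25) → (chart T c φ).Bd (Metric.closedBall c 2) C := by
  obtain ⟨C1, h10, h1⟩ := gen (fun x => shp x.1 x.2.1 x.2.2) (by
    unfold shp
    exact cd_mk (by fun_prop) (by fun_prop))
  obtain ⟨C2, h20, h2⟩ := gen (fun x => shq x.1 x.2.1 x.2.2) (by
    unfold shq
    exact cd_mk (by fun_prop) (by fun_prop))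
  obtain ⟨C3, h30, h3⟩ := gen (fun x => shpp x.1 x.2.1 x.2.2) (by
    unfold shpp
    exact cd_mk (by fun_prop) (by fun_prop))
  obtain ⟨C4, h40, h4⟩ := gen (fun x => shpq x.1 x.2.1 x.2.2) (by
    unfold shpq
    exact cd_mk (by fun_prop) (by fun_prop))
  obtain ⟨C5, h50, h5⟩ := gen (fun x => shqq x.1 x.2.1 x.2.2) (by
    unfold shqq
    exact cd_mk (by fun_prop) (by fun_prop))
  refine ⟨1 + C1 + C2 + C3 + C4 + C5, by linarith, fun T φ c hT0 hT1 hc1 hc2 => ?_⟩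
  obtain ⟨_, hm1, hm2⟩ := mm_range hT0 hT1 hc1 hc2
  have hm0 : 0 < mm T c.im := by linarith
  have hinv : (mm T c.im)⁻¹ ≤ 6 := by
    rw [inv_le_comm₀ hm0 (by norm_num)]
    linarith
  have hinv0 : 0 < (mm T c.im)⁻¹ := inv_pos.2 hm0
  have he : ‖exp ((φ : ℂ) * I)‖ = 1 := Complex.norm_exp_ofReal_mul_I φ
  have hnm : ‖((mm T c.im : ℝ) : ℂ)‖ = mm T c.im := by
    rw [Complex.norm_real, Real.norm_of_nonneg hm0.le]
  have k1 : ‖exp ((φ : ℂ) * I) * (mm T c.im : ℂ)‖ ≤ 36 := by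
    rw [norm_mul, he, hnm]
    linarith
  have k2 : ‖exp ((φ : ℂ) * I) / (mm T c.im : ℂ)‖ ≤ 36 := by
    rw [norm_div, he, hnm, one_div]
    linarith
  have k3 : ‖exp ((φ : ℂ) * I) * (mm T c.im : ℂ) ^ 2‖ ≤ 36 := by
    rw [norm_mul, norm_pow, he, hnm]
    nlinarith
  have k4 : ‖exp ((φ : ℂ) * I)‖ ≤ 36 := by
    rw [he]
    norm_num
  have k5 : ‖exp ((φ : ℂ) * I) / (mm T c.im : ℂ) ^ 2‖ ≤ 36 := by
    rw [norm_div, norm_pow, he, hnm, one_div, ← inv_pow]
    nlinarith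
  obtain ⟨b1, _⟩ := h1 T c _ hT0 hT1 hc1 hc2 k1
  obtain ⟨b2, _⟩ := h2 T c _ hT0 hT1 hc1 hc2 k2
  obtain ⟨b3, l3⟩ := h3 T c _ hT0 hT1 hc1 hc2 k3
  obtain ⟨b4, l4⟩ := h4 T c _ hT0 hT1 hc1 hc2 k4
  obtain ⟨b5, l5⟩ := h5 T c _ hT0 hT1 hc1 hc2 k5
  refine ⟨fun z hz => (b1 z hz).trans (by linarith), fun z hz => (b2 z hz).trans (by linarith),
    fun z hz => (b3 z hz).trans (by linarith), fun z hz => (b4 z hz).trans (by linarith),
    fun z hz => (b5 z hz).trans (by linarith), fun z hz z' hz' => (l3 z hz z' hz').trans ?_,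
    fun z hz z' hz' => (l4 z hz z' hz').trans ?_, fun z hz z' hz' => (l5 z hz z' hz').trans ?_⟩
  · exact mul_le_mul_of_nonneg_right (by linarith) (norm_nonneg _)
  · exact mul_le_mul_of_nonneg_right (by linarith) (norm_nonneg _)
  · exact mul_le_mul_of_nonneg_right (by linarith) (norm_nonneg _)

end Pool.Agent.CAPV
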