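import Pool.Agent.Lib.MP_488b8a_co_V.ChN

/-! Project SO (MP_488b8a_co), module ChF: charts of a cell and of its parent differ little. -/

namespace Pool.Agent.CAPV

open Complex

private theorem chf_exp (s t : ℝ) :
    ‖exp ((s : ℂ) * I) - exp ((t : ℂ) * I)‖ ≤ |s - t| := by
  have h1 : exp ((s : ℂ) * I) - exp ((t : ℂ) * I) =
      exp ((t : ℂ) * I) * (exp (I * ((s - t : ℝ) : ℂ)) - 1) := by
    rw [mul_sub, ← Complex.exp_add, mul_one]
    congr 2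
    push_cast
    ring
  rw [h1, norm_mul, Complex.norm_exp_ofReal_mul_I, one_mul]
  exact Real.norm_exp_I_mul_ofReal_sub_one_le

private theorem chf_mm {T s : ℝ} (h0 : 0 ≤ T) (h1 : T ≤ 1) (h2 : -(103 / 100) ≤ s)
    (h3 : s ≤ -(4 / 100)) : 1 / 6 ≤ mm T s ∧ mm T s ≤ 3 / 2 := by
  have hT : T ^ 2 ≤ 1 := pow_le_one₀ h0 h1
  have hT0 : 0 ≤ T ^ 2 := sq_nonneg T
  have h4 : 97 / 100 ≤ 2 + T ^ 2 * s := by nlinarith
  have h5 : 2 + T ^ 2 * s ≤ 2 := by nlinarith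
  constructor
  · refine Real.le_sqrt_of_sq_le ?_
    nlinarith
  · refine Real.sqrt_le_iff.2 ⟨by norm_num, ?_⟩
    nlinarith

private theorem chf_three {a b u v : ℂ} {A M : ℝ} (h1 : ‖a - u‖ ≤ A) (h2 : ‖b - v‖ ≤ A)
    (h3 : ‖u - v‖ ≤ M) : ‖a - b‖ ≤ 2 * A + M := by
  have h4 : a - b = (a - u) + (u - v) - (b - v) := by ring
  have h5 := norm_sub_le ((a - u) + (u - v)) (b - v)
  have h6 := norm_add_le (a - u) (u - v)
  rw [h4]
  linarith

theorem chart_diff : ∃ C : ℝ, 1 ≤ C ∧ ∀ (T φ r : ℝ) (c c' z : ℂ), 0 ≤ T → T ≤ 1 →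
    -(102 / 100) ≤ c.im → c.im ≤ -(1 / 20) → -(102 / 100) ≤ c'.im → c'.im ≤ -(1 / 20) →
    r ≤ 1 / 100 → ‖c - c'‖ ≤ r → ‖z - c‖ ≤ r → ‖z - c'‖ ≤ r →
    ‖(chart T c' (φ + hh T c.im * (c'.re - c.re))).f1 z - (chart T c φ).f1 z‖ ≤ C * r ^ 2 ∧
      ‖(chart T c' (φ + hh T c.im * (c'.re - c.re))).f2 z - (chart T c φ).f2 z‖ ≤ C * r ^ 2 := by
  obtain ⟨C, hC, hch⟩ := chart_near
  refine ⟨2 * C + 6, by linarith, ?_⟩
  intro T φ r c c' z hT0 hT1 hc1 hc2 hc1' hc2' hr hcc hzc hzc'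
  have hr0 : 0 ≤ r := (norm_nonneg _).trans hcc
  set φ' : ℝ := φ + hh T c.im * (c'.re - c.re) with hφ'
  set θ : ℝ := φ + hh T c.im * (z.re - c.re) with hθ
  set θ' : ℝ := φ' + hh T c'.im * (z.re - c'.re) with hθ'
  obtain ⟨h1, h2⟩ := hch T φ c z hT0 hT1 hc1 hc2 (hzc.trans hr)
  obtain ⟨h3, h4⟩ := hch T φ' c' z hT0 hT1 hc1' hc2' (hzc'.trans hr)
  rw [← hθ] at h1 h2
  rw [← hθ'] at h3 h4
  have hsq : ‖z - c‖ ^ 2 ≤ r ^ 2 := pow_le_pow_left₀ (norm_nonneg _) hzc 2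
  have hsq' : ‖z - c'‖ ^ 2 ≤ r ^ 2 := pow_le_pow_left₀ (norm_nonneg _) hzc' 2
  have hC0 : 0 ≤ C := by linarith
  have g1 := h1.trans (mul_le_mul_of_nonneg_left hsq hC0)
  have g2 := h2.trans (mul_le_mul_of_nonneg_left hsq hC0)
  have g3 := h3.trans (mul_le_mul_of_nonneg_left hsq' hC0)
  have g4 := h4.trans (mul_le_mul_of_nonneg_left hsq' hC0)
  -- the imaginary part of `z`
  have him : |z.im - c.im| ≤ r := by
    have := abs_im_le_norm (z - c)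
    rw [sub_im] at this
    exact this.trans hzc
  have him' := abs_le.1 him
  obtain ⟨hm1, hm2⟩ := chf_mm (T := T) (s := z.im) hT0 hT1 (by linarith) (by linarith)
  have hm0 : 0 < mm T z.im := by linarith
  -- the angles
  have hang : |θ' - θ| ≤ r ^ 2 := by
    have e : θ' - θ = T ^ 2 * ((c'.im - c.im) * (z.re - c'.re)) := by
      rw [hθ', hθ, hφ']
      unfold hh
      ring
    have e1 : |c'.im - c.im| ≤ r := by
      have := abs_im_le_norm (c - c')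
      rw [sub_im, abs_sub_comm] at this
      exact this.trans hcc
    have e2 : |z.re - c'.re| ≤ r := by
      have := abs_re_le_norm (z - c')
      rw [sub_re] at this
      exact this.trans hzc'
    rw [e, abs_mul, abs_mul, abs_of_nonneg (sq_nonneg T)]
    have e3 : |c'.im - c.im| * |z.re - c'.re| ≤ r * r :=
      mul_le_mul e1 e2 (abs_nonneg _) hr0
    have hT : T ^ 2 ≤ 1 := pow_le_one₀ hT0 hT1
    calc T ^ 2 * (|c'.im - c.im| * |z.re - c'.re|) ≤ 1 * (r * r) :=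
          mul_le_mul hT e3 (by positivity) zero_le_one
      _ = r ^ 2 := by ring
  have hE : ‖exp ((θ' : ℂ) * I) - exp ((θ : ℂ) * I)‖ ≤ r ^ 2 := (chf_exp θ' θ).trans hang
  have hr2 : 0 ≤ r ^ 2 := sq_nonneg r
  constructor
  · have h5 : ‖(mm T z.im : ℂ) * exp ((θ' : ℂ) * I) - (mm T z.im : ℂ) * exp ((θ : ℂ) * I)‖ ≤
        6 * r ^ 2 := by
      rw [← mul_sub, norm_mul, Complex.norm_real, Real.norm_eq_abs, abs_of_pos hm0]
      calc mm T z.im * ‖exp ((θ' : ℂ) * I) - exp ((θ : ℂ) * I)‖ ≤ 3 / 2 * r ^ 2 :=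
            mul_le_mul hm2 hE (norm_nonneg _) (by norm_num)
        _ ≤ 6 * r ^ 2 := by nlinarith
    refine (chf_three g3 g1 h5).trans (le_of_eq ?_)
    ring
  · have h5 : ‖I * exp ((θ' : ℂ) * I) / (mm T z.im : ℂ) -
        I * exp ((θ : ℂ) * I) / (mm T z.im : ℂ)‖ ≤ 6 * r ^ 2 := by
      rw [← sub_div, ← mul_sub, norm_div, norm_mul, Complex.norm_I, one_mul, Complex.norm_real,
        Real.norm_eq_abs, abs_of_pos hm0, div_le_iff₀ hm0]
      nlinarith [mul_le_mul_of_nonneg_left hm1 (by positivity : 0 ≤ 6 * r ^ 2)]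
    refine (chf_three g4 g2 h5).trans (le_of_eq ?_)
    ring

end Pool.Agent.CAPV
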