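import Pool.Agent.Lib.MP_488b8a_co_V.BLc

/-! Project SO (MP_488b8a_co), module Pro: existence of the profile functions. -/

namespace Pool.Agent.CAPV

open Complex
open scoped ContDiff

private theorem pro_zero {φ : ℝ → ℝ} {φ' c : ℝ} {S : Set ℝ} (hS : UniqueDiffOn ℝ S) {t : ℝ}
    (ht : t ∈ S) (hφ : HasDerivAt φ φ' t) (h : ∀ u ∈ S, φ u = c) : φ' = 0 := by
  have h1 : HasDerivWithinAt φ φ' S t := hφ.hasDerivWithinAt
  have h2 : HasDerivWithinAt φ 0 S t :=
    (hasDerivWithinAt_const t S c).congr h (h t ht)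
  exact (hS t ht).eq_deriv S h1 h2

private theorem pro_cd {f : ℝ → ℝ} (h : ContDiff ℝ ∞ f) : ContDiff ℝ ∞ (deriv f) :=
  h.iterate_deriv 1

private theorem pro_hd {f : ℝ → ℝ} (h : ContDiff ℝ ∞ f) (t : ℝ) : HasDerivAt f (deriv f t) t :=
  (h.differentiable (by simp) t).hasDerivAt

private theorem pro_x : ∃ x0 x1 x2 x3 : ℝ → ℝ, (∀ t, HasDerivAt x0 (x1 t) t) ∧
    (∀ t, HasDerivAt x1 (x2 t) t) ∧ (∀ t, HasDerivAt x2 (x3 t) t) ∧ Continuous x3 ∧
    (∀ t, |x0 t| ≤ 1) ∧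
    (∀ t, t ≤ -(1 / 4) → x0 t = 0 ∧ x1 t = 0 ∧ x2 t = 0 ∧ x3 t = 0) ∧
    (∀ t, 1 / 4 ≤ t → x0 t = 1 ∧ x1 t = 0 ∧ x2 t = 0 ∧ x3 t = 0) := by
  obtain ⟨x0, hx0⟩ : ∃ x0 : ℝ → ℝ, x0 = fun t => Real.smoothTransition (2 * t + 1 / 2) :=
    ⟨_, rfl⟩
  have h0 : ContDiff ℝ ∞ x0 := by
    rw [hx0]
    exact Real.smoothTransition.contDiff.comp (by fun_prop)
  have h1 := pro_cd h0
  have h2 := pro_cd h1
  have h3 := pro_cd h2
  have d0 := pro_hd h0
  have d1 := pro_hd h1
  have d2 := pro_hd h2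
  have l0 : ∀ t ∈ Set.Iic (-(1 / 4) : ℝ), x0 t = 0 := fun t ht => by
    have ht' : t ≤ -(1 / 4) := ht
    rw [hx0]
    exact Real.smoothTransition.zero_of_nonpos (by linarith)
  have r0 : ∀ t ∈ Set.Ici (1 / 4 : ℝ), x0 t = 1 := fun t ht => by
    have ht' : 1 / 4 ≤ t := ht
    rw [hx0]
    exact Real.smoothTransition.one_of_one_le (by linarith)
  have l1 : ∀ t ∈ Set.Iic (-(1 / 4) : ℝ), deriv x0 t = 0 := fun t ht =>
    pro_zero (uniqueDiffOn_Iic _) ht (d0 t) l0
  have l2 : ∀ t ∈ Set.Iic (-(1 / 4) : ℝ), deriv (deriv x0) t = 0 := fun t ht =>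
    pro_zero (uniqueDiffOn_Iic _) ht (d1 t) l1
  have l3 : ∀ t ∈ Set.Iic (-(1 / 4) : ℝ), deriv (deriv (deriv x0)) t = 0 := fun t ht =>
    pro_zero (uniqueDiffOn_Iic _) ht (d2 t) l2
  have r1 : ∀ t ∈ Set.Ici (1 / 4 : ℝ), deriv x0 t = 0 := fun t ht =>
    pro_zero (uniqueDiffOn_Ici _) ht (d0 t) r0
  have r2 : ∀ t ∈ Set.Ici (1 / 4 : ℝ), deriv (deriv x0) t = 0 := fun t ht =>
    pro_zero (uniqueDiffOn_Ici _) ht (d1 t) r1
  have r3 : ∀ t ∈ Set.Ici (1 / 4 : ℝ), deriv (deriv (deriv x0)) t = 0 := fun t ht =>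
    pro_zero (uniqueDiffOn_Ici _) ht (d2 t) r2
  refine ⟨x0, deriv x0, deriv (deriv x0), deriv (deriv (deriv x0)), d0, d1, d2, h3.continuous,
    fun t => ?_, fun t ht => ⟨l0 t ht, l1 t ht, l2 t ht, l3 t ht⟩,
    fun t ht => ⟨r0 t ht, r1 t ht, r2 t ht, r3 t ht⟩⟩
  rw [hx0, abs_of_nonneg (Real.smoothTransition.nonneg _)]
  exact Real.smoothTransition.le_one _

private theorem pro_om : ∃ om om1 om2 om3 : ℝ → ℝ, (∀ t, HasDerivAt om (om1 t) t) ∧
    (∀ t, HasDerivAt om1 (om2 t) t) ∧ (∀ t, HasDerivAt om2 (om3 t) t) ∧ Continuous om3 ∧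
    (∀ s, 0 < s → s ≤ 2 → s / 2 ≤ om s) ∧ (∀ s, 0 < s → 0 < om s) ∧
    (∀ s, 0 < s → om s ≤ 4 * s) ∧ (∀ s, om s ≤ 1) ∧
    (∀ s, 3 / 8 ≤ s → om s = 1 ∧ om1 s = 0) := by
  obtain ⟨τ, hτ⟩ : ∃ τ : ℝ → ℝ, τ = fun s => Real.smoothTransition (8 * s - 2) := ⟨_, rfl⟩
  obtain ⟨om, hom⟩ : ∃ om : ℝ → ℝ, om = fun s => 2 * s * (1 - τ s) + τ s := ⟨_, rfl⟩
  have hτ0 : ContDiff ℝ ∞ τ := by
    rw [hτ]
    exact Real.smoothTransition.contDiff.comp (by fun_prop)
  have h0 : ContDiff ℝ ∞ om := by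
    rw [hom]
    fun_prop
  have h1 := pro_cd h0
  have h2 := pro_cd h1
  have h3 := pro_cd h2
  have d0 := pro_hd h0
  have t0 : ∀ s, 0 ≤ τ s := fun s => by
    rw [hτ]
    exact Real.smoothTransition.nonneg _
  have t1 : ∀ s, τ s ≤ 1 := fun s => by
    rw [hτ]
    exact Real.smoothTransition.le_one _
  have tl : ∀ s, s ≤ 1 / 4 → τ s = 0 := fun s hs => by
    rw [hτ]
    exact Real.smoothTransition.zero_of_nonpos (by linarith)
  have tr : ∀ s, 3 / 8 ≤ s → τ s = 1 := fun s hs => by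
    rw [hτ]
    exact Real.smoothTransition.one_of_one_le (by linarith)
  have oe : ∀ s, om s = 2 * s * (1 - τ s) + τ s := fun s => by rw [hom]
  have or : ∀ s ∈ Set.Ici (3 / 8 : ℝ), om s = 1 := fun s hs => by
    rw [oe, tr s hs]
    ring
  refine ⟨om, deriv om, deriv (deriv om), deriv (deriv (deriv om)), d0, pro_hd h1, pro_hd h2,
    h3.continuous, fun s hs hs2 => ?_, fun s hs => ?_, fun s hs => ?_, fun s => ?_,
    fun s hs => ⟨or s hs, pro_zero (uniqueDiffOn_Ici _) hs (d0 s) or⟩⟩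
  · rw [oe]
    nlinarith [t0 s, t1 s, mul_nonneg hs.le (sub_nonneg.2 (t1 s)),
      mul_nonneg (t0 s) (sub_nonneg.2 hs2)]
  · rw [oe]
    rcases le_total (τ s) (1 / 2) with h | h
    · nlinarith [t0 s, mul_pos hs (by linarith : 0 < 1 - τ s)]
    · nlinarith [mul_nonneg hs.le (sub_nonneg.2 (t1 s))]
  · rw [oe]
    rcases le_total s (1 / 4) with h | h
    · rw [tl s h]
      linarith
    · nlinarith [t0 s, t1 s, mul_nonneg hs.le (t0 s)]
  · rcases le_total (3 / 8) s with h | h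
    · exact (or s h).le
    · rw [oe]
      nlinarith [t0 s, t1 s, mul_nonneg (sub_nonneg.2 (t1 s)) (by linarith : 0 ≤ 1 - 2 * s)]

private theorem pro_bd {f : ℝ → ℝ} (hf : Continuous f) (a b : ℝ) :
    ∃ M : ℝ, 0 ≤ M ∧ ∀ s, a ≤ s → s ≤ b → |f s| ≤ M := by
  obtain ⟨M, hM⟩ := isCompact_Icc.exists_bound_of_continuousOn (hf.continuousOn (s := Set.Icc a b))
  exact ⟨max M 0, le_max_right _ _, fun s h1 h2 => (hM s ⟨h1, h2⟩).trans (le_max_left _ _)⟩

private theorem pro_bdc {f : ℝ → ℝ} (hf : Continuous f) (hz : ∀ t, 1 / 4 ≤ |t| → f t = 0) :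
    ∃ M : ℝ, 0 ≤ M ∧ ∀ t, |f t| ≤ M := by
  obtain ⟨M, hM0, hM⟩ := pro_bd hf (-(1 / 4)) (1 / 4)
  refine ⟨M, hM0, fun t => ?_⟩
  rcases le_total (1 / 4) |t| with h | h
  · rw [hz t h, abs_zero]
    exact hM0
  · exact hM t (abs_le.1 h).1 (abs_le.1 h).2

private theorem pro_der {om a g : ℝ → ℝ} {o1 a' g' : ℝ} {z : ℂ} (h0 : 0 < om z.re)
    (dom : HasDerivAt om o1 z.re) (da : HasDerivAt a a' (z.im / om z.re))
    (dg : HasDerivAt g g' z.re) :
    HasFDerivAt (fun z : ℂ => a (z.im / om z.re) * g z.re)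
      (frr (a' * (-(z.im / om z.re * (o1 / om z.re))) * g z.re + a (z.im / om z.re) * g')
        (a' * (1 / om z.re) * g z.re)) z := by
  have hre : HasFDerivAt (fun z : ℂ => z.re) reCLM z := reCLM.hasFDerivAt
  have him : HasFDerivAt (fun z : ℂ => z.im) imCLM z := imCLM.hasFDerivAt
  have h1 : HasDerivAt (fun s => (om s)⁻¹) (-o1 / om z.re ^ 2) z.re := dom.fun_inv h0.ne'
  have h2 : HasFDerivAt (fun z : ℂ => (om z.re)⁻¹) ((-o1 / om z.re ^ 2) • reCLM) z :=
    h1.comp_hasFDerivAt z hre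
  have h3 : HasFDerivAt (fun z : ℂ => z.im * (om z.re)⁻¹)
      (z.im • ((-o1 / om z.re ^ 2) • reCLM) + (om z.re)⁻¹ • imCLM) z := him.mul h2
  have h4 : HasFDerivAt (fun z : ℂ => a (z.im * (om z.re)⁻¹))
      (a' • (z.im • ((-o1 / om z.re ^ 2) • reCLM) + (om z.re)⁻¹ • imCLM)) z :=
    HasDerivAt.comp_hasFDerivAt z (by rwa [div_eq_mul_inv] at da) h3
  have h5 : HasFDerivAt (fun z : ℂ => g z.re) (g' • reCLM) z := dg.comp_hasFDerivAt z hre
  have h6 := h4.mul h5
  refine (h6.congr_fderiv ?_)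
  ext v
  simp only [frr, add_apply, smul_apply, smul_eq_mul,
    reCLM_apply, imCLM_apply, div_eq_mul_inv]
  field_simp
  ring

/-- facts about points of the cone -/
private theorem pro_cone {om : ℝ → ℝ} (uom : ∀ s, 0 < s → om s ≤ 4 * s)
    (pom : ∀ s, 0 < s → 0 < om s) {z : ℂ} (h0 : 0 < z.re) (h : |z.im / om z.re| < 1 / 4) :
    ‖z‖ ≤ 2 * z.re := by
  have h1 := pom _ h0
  rw [abs_div, abs_of_pos h1, div_lt_iff₀ h1] at h
  have h2 := uom _ h0
  have h3 := Complex.norm_le_abs_re_add_abs_im z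
  rw [abs_of_pos h0] at h3
  linarith

private theorem pro_b1 {om h a : ℝ → ℝ} (pom : ∀ s, 0 < s → 0 < om s)
    (lom : ∀ s, 0 < s → s ≤ 2 → s / 2 ≤ om s) (uom : ∀ s, 0 < s → om s ≤ 4 * s)
    (ch : Continuous h) (ca : Continuous a) (za : ∀ t, 1 / 4 ≤ |t| → a t = 0) :
    ∃ K : ℝ, 0 ≤ K ∧ ∀ z : ℂ, 0 < z.re → z.re ≤ 2 →
      |a (z.im / om z.re) * (h z.re / om z.re)| * ‖z‖ ≤ K := by
  obtain ⟨A, hA0, hA⟩ := pro_bdc ca za
  obtain ⟨M, hM0, hM⟩ := pro_bd ch 0 2
  refine ⟨A * M * 4, by positivity, fun z h0 h2 => ?_⟩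
  rcases le_or_gt (1 / 4) |z.im / om z.re| with hq | hq
  · rw [za _ hq, zero_mul, abs_zero, zero_mul]
    positivity
  · have hn := pro_cone uom pom h0 hq
    have ho := pom _ h0
    have hl := lom _ h0 h2
    rw [abs_mul, abs_div, abs_of_pos ho]
    have h3 : |h z.re| / om z.re ≤ M * (2 / z.re) := by
      rw [div_le_iff₀ ho]
      have h4 : |h z.re| ≤ M := hM _ h0.le h2
      have h5 : 1 ≤ 2 / z.re * om z.re := by
        rw [div_mul_eq_mul_div, le_div_iff₀ h0]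
        linarith
      calc |h z.re| ≤ M * 1 := by linarith
        _ ≤ M * (2 / z.re * om z.re) := mul_le_mul_of_nonneg_left h5 hM0
        _ = M * (2 / z.re) * om z.re := by ring
    calc |a (z.im / om z.re)| * (|h z.re| / om z.re) * ‖z‖
        ≤ A * (M * (2 / z.re)) * (2 * z.re) := by
          have h4 := hA (z.im / om z.re)
          gcongr
      _ = A * M * 4 := by
          field_simp
          ring

private theorem pro_b2 {om om1 h h1 a a1 : ℝ → ℝ} (dom : ∀ s, HasDerivAt om (om1 s) s)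
    (co1 : Continuous om1) (pom : ∀ s, 0 < s → 0 < om s)
    (lom : ∀ s, 0 < s → s ≤ 2 → s / 2 ≤ om s) (uom : ∀ s, 0 < s → om s ≤ 4 * s)
    (dh : ∀ s, HasDerivAt h (h1 s) s) (ch1 : Continuous h1)
    (da : ∀ s, HasDerivAt a (a1 s) s) (ca1 : Continuous a1)
    (za : ∀ t, 1 / 4 ≤ |t| → a t = 0) (za1 : ∀ t, 1 / 4 ≤ |t| → a1 t = 0) :
    ∃ K : ℝ, 0 ≤ K ∧ (∀ z : ℂ, 0 < z.re → z.re ≤ 2 →
      |a (z.im / om z.re) * (h z.re / om z.re ^ 2)| * ‖z‖ ^ 2 ≤ K) ∧
      ∀ z z' : ℂ, 0 < z.re → 0 < z'.re → z.re ≤ 2 → z'.re ≤ 2 → ‖z - z'‖ ≤ ‖z‖ / 2 →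
        |a (z.im / om z.re) * (h z.re / om z.re ^ 2) -
          a (z'.im / om z'.re) * (h z'.re / om z'.re ^ 2)| * ‖z‖ ^ 3 ≤ K * ‖z - z'‖ := by
  have ca : Continuous a := continuous_iff_continuousAt.2 fun s => (da s).continuousAt
  have ch : Continuous h := continuous_iff_continuousAt.2 fun s => (dh s).continuousAt
  obtain ⟨A0, hA00, hA0⟩ := pro_bdc ca za
  obtain ⟨A1, hA10, hA1⟩ := pro_bdc ca1 za1
  obtain ⟨M0, hM00, hM0⟩ := pro_bd ch 0 2
  obtain ⟨M1, hM10, hM1⟩ := pro_bd ch1 0 2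
  obtain ⟨M2, hM20, hM2⟩ := pro_bd co1 0 2
  set D : ℝ := A1 * (1 * (M2 * 2)) * (M0 * 4) + A0 * (M1 * 4 * 2 + 2 * M0 * M2 * 8) +
    A1 * 2 * (M0 * 4) with hD
  have hD0 : 0 ≤ D := by positivity
  have hW : ∀ z : ℂ, 0 < z.re → z.re ≤ 2 → 0 ≤ z.re / om z.re ∧ z.re / om z.re ≤ 2 := by
    intro z h0 h2
    have ho := pom _ h0
    refine ⟨(div_pos h0 ho).le, ?_⟩
    rw [div_le_iff₀ ho]
    linarith [lom _ h0 h2]
  have hder : ∀ z : ℂ, 0 < z.re → HasFDerivAt
      (fun z : ℂ => a (z.im / om z.re) * (h z.re / om z.re ^ 2))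
      (frr (a1 (z.im / om z.re) * (-(z.im / om z.re * (om1 z.re / om z.re))) *
          (h z.re / om z.re ^ 2) + a (z.im / om z.re) *
            (h1 z.re / om z.re ^ 2 - 2 * h z.re * om1 z.re / om z.re ^ 3))
        (a1 (z.im / om z.re) * (1 / om z.re) * (h z.re / om z.re ^ 2))) z := by
    intro z h0
    have ho := pom _ h0
    have hg : HasDerivAt (fun s => h s / om s ^ 2)
        (h1 z.re / om z.re ^ 2 - 2 * h z.re * om1 z.re / om z.re ^ 3) z.re := by
      have h2 := (dh z.re).fun_div ((dom z.re).fun_pow 2) (pow_ne_zero 2 ho.ne')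
      refine h2.congr_deriv ?_
      field_simp
      ring
    exact pro_der (g := fun s => h s / om s ^ 2) ho (dom _) (da _) hg
  have hbd : ∀ z : ℂ, 0 < z.re → z.re ≤ 2 →
      ‖frr (a1 (z.im / om z.re) * (-(z.im / om z.re * (om1 z.re / om z.re))) *
          (h z.re / om z.re ^ 2) + a (z.im / om z.re) *
            (h1 z.re / om z.re ^ 2 - 2 * h z.re * om1 z.re / om z.re ^ 3))
        (a1 (z.im / om z.re) * (1 / om z.re) * (h z.re / om z.re ^ 2))‖ * ‖z‖ ^ 3 ≤ 8 * D := by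
    intro z h0 h2
    rcases le_or_gt (1 / 4) |z.im / om z.re| with hq | hq
    · have e : ‖frr 0 0‖ ≤ 0 := by
        have := frr_norm_le 0 0
        simpa using this
      rw [za _ hq, za1 _ hq]
      simp only [zero_mul, add_zero]
      have := mul_le_mul_of_nonneg_right e (by positivity : 0 ≤ ‖z‖ ^ 3)
      linarith
    · have hn := pro_cone uom pom h0 hq
      have ho := pom _ h0
      obtain ⟨hW0, hW2⟩ := hW z h0 h2
      set s := z.re with hs
      set q := z.im / om s with hqd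
      set W := s / om s with hWd
      have e1 : (a1 q * (-(q * (om1 s / om s))) * (h s / om s ^ 2) + a q *
            (h1 s / om s ^ 2 - 2 * h s * om1 s / om s ^ 3)) * s ^ 3 =
          a1 q * (-(q * (om1 s * W))) * (h s * W ^ 2) + a q *
            (h1 s * W ^ 2 * s - 2 * h s * om1 s * W ^ 3) := by
        rw [hWd]
        field_simp
      have e2 : (a1 q * (1 / om s) * (h s / om s ^ 2)) * s ^ 3 = a1 q * W * (h s * W ^ 2) := by
        rw [hWd]
        field_simp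
      have b0 := hA0 q
      have b1 := hA1 q
      have b2 := hM0 s h0.le h2
      have b3 := hM1 s h0.le h2
      have b4 := hM2 s h0.le h2
      have bq : |q| ≤ 1 := by linarith
      have aW : |W| ≤ 2 := by rwa [abs_of_nonneg hW0]
      have as : |s| ≤ 2 := by rwa [abs_of_pos h0]
      have aW2 : |W| ^ 2 ≤ 4 := by
        have := pow_le_pow_left₀ (abs_nonneg W) aW 2
        linarith
      have aW3 : |W| ^ 3 ≤ 8 := by
        have := pow_le_pow_left₀ (abs_nonneg W) aW 3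
        linarith
      have f1 : |(a1 q * (-(q * (om1 s / om s))) * (h s / om s ^ 2) + a q *
            (h1 s / om s ^ 2 - 2 * h s * om1 s / om s ^ 3))| * s ^ 3 ≤
          A1 * (1 * (M2 * 2)) * (M0 * 4) + A0 * (M1 * 4 * 2 + 2 * M0 * M2 * 8) := by
        have e3 : s ^ 3 = |s ^ 3| := (abs_of_pos (by positivity)).symm
        rw [e3, ← abs_mul, e1]
        refine (abs_add_le _ _).trans (add_le_add ?_ ?_)
        · rw [abs_mul, abs_mul, abs_mul, abs_neg, abs_mul, abs_mul, abs_pow]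
          gcongr
        · rw [abs_mul]
          refine mul_le_mul b0 ?_ (abs_nonneg _) hA00
          refine (abs_sub _ _).trans (add_le_add ?_ ?_)
          · rw [abs_mul, abs_mul, abs_pow]
            gcongr
          · rw [abs_mul, abs_mul, abs_mul, abs_pow, abs_two]
            gcongr
      have f2 : |a1 q * (1 / om s) * (h s / om s ^ 2)| * s ^ 3 ≤ A1 * 2 * (M0 * 4) := by
        have e3 : s ^ 3 = |s ^ 3| := (abs_of_pos (by positivity)).symm
        rw [e3, ← abs_mul, e2, abs_mul, abs_mul, abs_mul, abs_pow]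
        gcongr
      have f3 := frr_norm_le (a1 q * (-(q * (om1 s / om s))) * (h s / om s ^ 2) + a q *
            (h1 s / om s ^ 2 - 2 * h s * om1 s / om s ^ 3))
        (a1 q * (1 / om s) * (h s / om s ^ 2))
      have hz3 : ‖z‖ ^ 3 ≤ 8 * s ^ 3 := by
        have := pow_le_pow_left₀ (norm_nonneg z) hn 3
        calc ‖z‖ ^ 3 ≤ (2 * s) ^ 3 := this
          _ = 8 * s ^ 3 := by ring
      calc _ ≤ (|a1 q * (-(q * (om1 s / om s))) * (h s / om s ^ 2) + a q *
              (h1 s / om s ^ 2 - 2 * h s * om1 s / om s ^ 3)| +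
            |a1 q * (1 / om s) * (h s / om s ^ 2)|) * (8 * s ^ 3) :=
            mul_le_mul f3 hz3 (by positivity) (by positivity)
        _ = 8 * (|a1 q * (-(q * (om1 s / om s))) * (h s / om s ^ 2) + a q *
              (h1 s / om s ^ 2 - 2 * h s * om1 s / om s ^ 3)| * s ^ 3 +
            |a1 q * (1 / om s) * (h s / om s ^ 2)| * s ^ 3) := by ring
        _ ≤ 8 * D := by
            rw [hD]
            linarith
  refine ⟨A0 * M0 * 16 + 64 * D, by positivity, fun z h0 h2 => ?_, fun z z' h0 h0' h2 h2' hd => ?_⟩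
  · have h64 : 0 ≤ 64 * D := by positivity
    rcases le_or_gt (1 / 4) |z.im / om z.re| with hq | hq
    · rw [za _ hq, zero_mul, abs_zero, zero_mul]
      positivity
    · have hn := pro_cone uom pom h0 hq
      have ho := pom _ h0
      obtain ⟨hW0, hW2⟩ := hW z h0 h2
      have h3 : |h z.re / om z.re ^ 2| * ‖z‖ ^ 2 ≤ M0 * 16 := by
        rw [abs_div, abs_of_pos (by positivity : 0 < om z.re ^ 2)]
        have h4 : ‖z‖ ^ 2 / om z.re ^ 2 ≤ 16 := by
          have h5 : ‖z‖ / om z.re ≤ 4 := by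
            rw [div_le_iff₀ ho]
            have := lom _ h0 h2
            linarith
          have h6 := pow_le_pow_left₀ (div_nonneg (norm_nonneg z) ho.le) h5 2
          rw [div_pow] at h6
          linarith
        calc |h z.re| / om z.re ^ 2 * ‖z‖ ^ 2 = |h z.re| * (‖z‖ ^ 2 / om z.re ^ 2) := by ring
          _ ≤ M0 * 16 := mul_le_mul (hM0 _ h0.le h2) h4 (by positivity) hM00
      rw [abs_mul, mul_assoc]
      have h4 : |a (z.im / om z.re)| * (|h z.re / om z.re ^ 2| * ‖z‖ ^ 2) ≤ A0 * (M0 * 16) :=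
        mul_le_mul (hA0 _) h3 (by positivity) hA00
      linarith
  · have hz : 0 < ‖z‖ := norm_pos_iff.2 fun h => by
      rw [h] at h0
      simp at h0
    set S : Set ℂ := ({y : ℂ | 0 < y.re} ∩ {y : ℂ | y.re ≤ 2}) ∩ Metric.closedBall z ‖z - z'‖
      with hS
    have hSc : Convex ℝ S := ((convex_halfSpace_re_gt 0).inter (convex_halfSpace_re_le 2)).inter
      (convex_closedBall _ _)
    have hzS : z ∈ S := ⟨⟨h0, h2⟩, Metric.mem_closedBall_self (norm_nonneg _)⟩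
    have hzS' : z' ∈ S := ⟨⟨h0', h2'⟩, by
      rw [Metric.mem_closedBall, dist_eq_norm, norm_sub_rev]⟩
    have hmv := hSc.norm_image_sub_le_of_norm_hasFDerivWithin_le
      (C := 64 * D / ‖z‖ ^ 3)
      (fun y hy => (hder y hy.1.1).hasFDerivWithinAt) (fun y hy => ?_) hzS' hzS
    · rw [Real.norm_eq_abs] at hmv
      calc _ ≤ (64 * D / ‖z‖ ^ 3 * ‖z - z'‖) * ‖z‖ ^ 3 :=
            mul_le_mul_of_nonneg_right hmv (by positivity)
        _ = 64 * D * ‖z - z'‖ := by
            field_simp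
        _ ≤ _ := by
            refine mul_le_mul_of_nonneg_right ?_ (norm_nonneg _)
            have : 0 ≤ A0 * M0 * 16 := by positivity
            linarith
    · have hy1 : ‖z‖ / 2 ≤ ‖y‖ := by
        have h3 : ‖y - z‖ ≤ ‖z - z'‖ := by
          rw [← dist_eq_norm]
          exact hy.2
        have h4 := norm_sub_norm_le z y
        rw [norm_sub_rev] at h4
        linarith
      have hb := hbd y hy.1.1 hy.1.2
      have hy3 : ‖z‖ ^ 3 ≤ 8 * ‖y‖ ^ 3 := by
        have := pow_le_pow_left₀ (by positivity) hy1 3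
        calc ‖z‖ ^ 3 = 8 * (‖z‖ / 2) ^ 3 := by ring
          _ ≤ 8 * ‖y‖ ^ 3 := by linarith
      rw [le_div_iff₀ (by positivity)]
      refine (mul_le_mul_of_nonneg_left hy3 (norm_nonneg _)).trans ?_
      linarith

private theorem pro_add {a b c d n k1 k2 N C : ℝ} (h1 : |a - c| * n ≤ k1 * N)
    (h2 : |b - d| * n ≤ k2 * N) (hn : 0 ≤ n) (hN : 0 ≤ N) (hC : k1 + k2 ≤ C) :
    |a + b - (c + d)| * n ≤ C * N := by
  have e : a + b - (c + d) = (a - c) + (b - d) := by ring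
  have h3 : |a + b - (c + d)| * n ≤ (|a - c| + |b - d|) * n := by
    rw [e]
    exact mul_le_mul_of_nonneg_right (abs_add_le _ _) hn
  have h4 : (k1 + k2) * N ≤ C * N := mul_le_mul_of_nonneg_right hC hN
  rw [add_mul] at h3 h4
  linarith

theorem prof_ex : Nonempty Prof := by
  obtain ⟨x0, x1, x2, x3, dx0, dx1, dx2, cx3, bx0, xlo, xhi⟩ := pro_x
  obtain ⟨om, om1, om2, om3, do0, do1, do2, co3, lom, pom, uom, uom1, rom⟩ := pro_om
  have cx0 : Continuous x0 := continuous_iff_continuousAt.2 fun s => (dx0 s).continuousAt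
  have cx1 : Continuous x1 := continuous_iff_continuousAt.2 fun s => (dx1 s).continuousAt
  have cx2 : Continuous x2 := continuous_iff_continuousAt.2 fun s => (dx2 s).continuousAt
  have co0 : Continuous om := continuous_iff_continuousAt.2 fun s => (do0 s).continuousAt
  have co1 : Continuous om1 := continuous_iff_continuousAt.2 fun s => (do1 s).continuousAt
  have co2 : Continuous om2 := continuous_iff_continuousAt.2 fun s => (do2 s).continuousAt
  have hz : ∀ t, 1 / 4 ≤ |t| → x1 t = 0 ∧ x2 t = 0 ∧ x3 t = 0 := by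
    intro t ht
    rcases le_abs.1 ht with h | h
    · exact (xhi t h).2
    · exact (xlo t (by linarith)).2
  have z1 : ∀ t, 1 / 4 ≤ |t| → x1 t = 0 := fun t ht => (hz t ht).1
  have z2 : ∀ t, 1 / 4 ≤ |t| → x2 t = 0 := fun t ht => (hz t ht).2.1
  have z3 : ∀ t, 1 / 4 ≤ |t| → x3 t = 0 := fun t ht => (hz t ht).2.2
  obtain ⟨C1, hC10, hC1⟩ := pro_bdc cx1 z1
  obtain ⟨C2, hC20, hC2⟩ := pro_bdc cx2 z2
  obtain ⟨C3, hC30, hC3⟩ := pro_bdc cx3 z3
  obtain ⟨K1, hK10, hK1⟩ := pro_b1 (h := om1) (a := fun q => -(x1 q * q)) pom lom uom co1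
    (by fun_prop) (fun t ht => by rw [z1 t ht]; ring)
  obtain ⟨K2, hK20, hK2⟩ := pro_b1 (h := fun _ => 1) (a := x1) pom lom uom continuous_const
    cx1 z1
  obtain ⟨K3, hK30, hK3, hL3⟩ := pro_b2 (h := fun s => om1 s ^ 2)
    (h1 := fun s => 2 * om1 s * om2 s)
    (a := fun q => q ^ 2 * x2 q + 2 * q * x1 q)
    (a1 := fun q => 2 * q * x2 q + q ^ 2 * x3 q + (2 * x1 q + 2 * q * x2 q)) do0 co1 pom lom uom
    (fun s => ((do1 s).fun_pow 2).congr_deriv (by ring)) (by fun_prop)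
    (fun q => ((((hasDerivAt_id q).fun_pow 2).fun_mul (dx2 q)).fun_add
      (((hasDerivAt_id q).const_mul 2).fun_mul (dx1 q))).congr_deriv (by simp))
    (by fun_prop)
    (fun t ht => by rw [z1 t ht, z2 t ht]; ring)
    (fun t ht => by rw [z1 t ht, z2 t ht, z3 t ht]; ring)
  obtain ⟨K4, hK40, hK4, hL4⟩ := pro_b2 (h := fun s => om2 s * om s)
    (h1 := fun s => om3 s * om s + om2 s * om1 s)
    (a := fun q => -(q * x1 q))
    (a1 := fun q => -(x1 q + q * x2 q)) do0 co1 pom lom uom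
    (fun s => (do2 s).fun_mul (do0 s)) (by fun_prop)
    (fun q => (((hasDerivAt_id q).fun_mul (dx1 q)).fun_neg).congr_deriv (by simp))
    (by fun_prop)
    (fun t ht => by rw [z1 t ht]; ring)
    (fun t ht => by rw [z1 t ht, z2 t ht]; ring)
  obtain ⟨K5, hK50, hK5, hL5⟩ := pro_b2 (h := om1)
    (h1 := om2)
    (a := fun q => -(x1 q + q * x2 q))
    (a1 := fun q => -(x2 q + (x2 q + q * x3 q))) do0 co1 pom lom uom
    do1 co2
    (fun q => (((dx1 q).fun_add ((hasDerivAt_id q).fun_mul (dx2 q))).fun_neg).congr_deriv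
      (by simp))
    (by fun_prop)
    (fun t ht => by rw [z1 t ht, z2 t ht]; ring)
    (fun t ht => by rw [z2 t ht, z3 t ht]; ring)
  obtain ⟨K6, hK60, hK6, hL6⟩ := pro_b2 (h := fun _ => 1) (h1 := fun _ => 0) (a := x2)
    (a1 := x3) do0 co1 pom lom uom (fun s => hasDerivAt_const s 1) continuous_const dx2 cx3 z2 z3
  have lx2 : ∀ s t, |x2 s - x2 t| ≤ C3 * |s - t| := by
    intro s t
    have h := (convex_univ (𝕜 := ℝ) (E := ℝ)).norm_image_sub_le_of_norm_hasDerivWithin_le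
      (f := x2) (f' := x3) (C := C3) (fun x _ => (dx2 x).hasDerivWithinAt)
      (fun x _ => hC3 x) (Set.mem_univ t) (Set.mem_univ s)
    exact h
  have hq1 : ∀ z : ℂ, 0 < z.re → z.re < z.im → 1 / 4 ≤ z.im / om z.re := by
    intro z h0 h1
    rw [le_div_iff₀ (pom _ h0)]
    linarith [uom _ h0]
  have hq0 : ∀ z : ℂ, 0 < z.re → z.re < -z.im → z.im / om z.re ≤ -(1 / 4) := by
    intro z h0 h1
    rw [div_le_iff₀ (pom _ h0)]
    linarith [uom _ h0]
  have hu1 : ∀ z : ℂ, 0 < z.re → 1 / 4 ≤ z.im → 1 / 4 ≤ z.im / om z.re := by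
    intro z h0 h1
    rw [le_div_iff₀ (pom _ h0)]
    linarith [uom1 z.re]
  have hu0 : ∀ z : ℂ, 0 < z.re → z.im ≤ -(1 / 4) → z.im / om z.re ≤ -(1 / 4) := by
    intro z h0 h1
    rw [div_le_iff₀ (pom _ h0)]
    linarith [uom1 z.re]
  exact ⟨{
    C := 1 + C1 + C2 + C3 + K1 + K2 + K3 + K4 + K5 + K6
    x0 := x0
    x1 := x1
    x2 := x2
    t0 := fun z => x0 (z.im / om z.re)
    t1 := fun z => -(x1 (z.im / om z.re) * (z.im / om z.re)) * (om1 z.re / om z.re)
    t2 := fun z => x1 (z.im / om z.re) * (1 / om z.re)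
    t11 := fun z => ((z.im / om z.re) ^ 2 * x2 (z.im / om z.re) + 2 * (z.im / om z.re) *
        x1 (z.im / om z.re)) * (om1 z.re ^ 2 / om z.re ^ 2) +
      -((z.im / om z.re) * x1 (z.im / om z.re)) * (om2 z.re * om z.re / om z.re ^ 2)
    t12 := fun z => -(x1 (z.im / om z.re) + (z.im / om z.re) * x2 (z.im / om z.re)) *
      (om1 z.re / om z.re ^ 2)
    t22 := fun z => x2 (z.im / om z.re) * (1 / om z.re ^ 2)
    hC := by linarith
    dx0 := dx0
    dx1 := dx1
    bx0 := bx0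
    bx1 := fun t => (hC1 t).trans (by linarith)
    bx2 := fun t => (hC2 t).trans (by linarith)
    lx2 := fun s t => (lx2 s t).trans (mul_le_mul_of_nonneg_right (by linarith) (abs_nonneg _))
    xlo := fun t ht => ⟨(xlo t ht).1, (xlo t ht).2.1, (xlo t ht).2.2.1⟩
    xhi := fun t ht => ⟨(xhi t ht).1, (xhi t ht).2.1, (xhi t ht).2.2.1⟩
    dt0 := fun z h0 => by
      have h := pro_der (g := fun _ => 1) (pom _ h0) (do0 _) (dx0 _) (hasDerivAt_const z.re 1)
      simp only [mul_one, mul_zero, add_zero] at h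
      refine h.congr_fderiv ?_
      congr 1
      ring
    dt1 := fun z h0 => by
      have ho := pom _ h0
      have hg : HasDerivAt (fun s => om1 s / om s)
          (om2 z.re / om z.re - om1 z.re * om1 z.re / om z.re ^ 2) z.re := by
        refine ((do1 z.re).fun_div (do0 z.re) ho.ne').congr_deriv ?_
        field_simp
      have h := pro_der (g := fun s => om1 s / om s) (a := fun q => -(x1 q * q)) ho (do0 _)
        ((((dx1 (z.im / om z.re)).fun_mul (hasDerivAt_id (z.im / om z.re)))).fun_neg) hg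
      refine h.congr_fderiv ?_
      simp only [id, mul_one]
      congr 1
      · field_simp
        ring
      · field_simp
        ring
    dt2 := fun z h0 => by
      have ho := pom _ h0
      have hg : HasDerivAt (fun s => 1 / om s) (-(om1 z.re / om z.re ^ 2)) z.re := by
        have h1 := (do0 z.re).fun_inv ho.ne'
        simp only [one_div]
        refine h1.congr_deriv ?_
        ring
      have h := pro_der (g := fun s => 1 / om s) ho (do0 _) (dx1 (z.im / om z.re)) hg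
      refine h.congr_fderiv ?_
      congr 1
      · field_simp
        ring
      · field_simp
    bt0 := fun z _ => bx0 _
    bt1 := fun z h0 h2 => (hK1 z h0 h2).trans (by linarith)
    bt2 := fun z h0 h2 => (hK2 z h0 h2).trans (by linarith)
    bt11 := fun z h0 h2 => by
      refine (mul_le_mul_of_nonneg_right (abs_add_le _ _) (by positivity)).trans ?_
      rw [add_mul]
      linarith [hK3 z h0 h2, hK4 z h0 h2]
    bt12 := fun z h0 h2 => (hK5 z h0 h2).trans (by linarith)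
    bt22 := fun z h0 h2 => (hK6 z h0 h2).trans (by linarith)
    lt11 := fun z z' h0 h0' h2 h2' hd => pro_add (hL3 z z' h0 h0' h2 h2' hd)
      (hL4 z z' h0 h0' h2 h2' hd) (by positivity) (norm_nonneg _) (by linarith)
    lt12 := fun z z' h0 h0' h2 h2' hd => (hL5 z z' h0 h0' h2 h2' hd).trans
      (mul_le_mul_of_nonneg_right (by linarith) (norm_nonneg _))
    lt22 := fun z z' h0 h0' h2 h2' hd => (hL6 z z' h0 h0' h2 h2' hd).trans
      (mul_le_mul_of_nonneg_right (by linarith) (norm_nonneg _))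
    c1 := fun z h0 h1 => by
      obtain ⟨e0, e1, e2, -⟩ := xhi _ (hq1 z h0 h1)
      simp only [e0, e1]
      simp
    c0 := fun z h0 h1 => by
      obtain ⟨e0, e1, e2, -⟩ := xlo _ (hq0 z h0 h1)
      simp only [e0, e1]
      simp
    r := fun z h => by
      obtain ⟨e0, e1⟩ := rom _ h
      simp only [e0, e1]
      simp
    u1 := fun z h0 h1 => by
      obtain ⟨e0, e1, e2, -⟩ := xhi _ (hu1 z h0 h1)
      simp only [e0, e1]
      simp
    u0 := fun z h0 h1 => by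
      obtain ⟨e0, e1, e2, -⟩ := xlo _ (hu0 z h0 h1)
      simp only [e0, e1]
      simp }⟩

end Pool.Agent.CAPV
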