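import Pool.Agent.Lib.MP_488b8a_co_V.RDef

/-! Project SO (MP_488b8a_co), module RgG: geometry of the ring. -/

namespace Pool.Agent.CAPV

open Complex

private theorem rgG_conj_mul {ω : ℂ} (h : Qr ω) : (starRingEnd ℂ) ω * ω = 1 := by
  rcases h with h | h | h | h <;> subst h <;> simp

private theorem rgG_norm {ω : ℂ} (h : Qr ω) : ‖(starRingEnd ℂ) ω‖ = 1 := by
  rcases h with h | h | h | h <;> subst h <;> simp

private theorem rgG_re_one (c z : ℂ) : (sgm c 1 z).re = (z - c).re := by simp [sgm]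
private theorem rgG_im_one (c z : ℂ) : (sgm c 1 z).im = (z - c).im := by simp [sgm]
private theorem rgG_re_neg (c z : ℂ) : (sgm c (-1) z).re = -(z - c).re := by simp [sgm]
private theorem rgG_im_neg (c z : ℂ) : (sgm c (-1) z).im = -(z - c).im := by simp [sgm]
private theorem rgG_re_I (c z : ℂ) : (sgm c I z).re = (z - c).im := by simp [sgm]
private theorem rgG_im_I (c z : ℂ) : (sgm c I z).im = -(z - c).re := by simp [sgm]
private theorem rgG_re_nI (c z : ℂ) : (sgm c (-I) z).re = -(z - c).im := by simp [sgm]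
private theorem rgG_im_nI (c z : ℂ) : (sgm c (-I) z).im = (z - c).re := by simp [sgm]

private theorem rgG_mx {ω : ℂ} (h : Qr ω) (c z : ℂ) : mx (sgm c ω z) = mx (z - c) := by
  rcases h with h | h | h | h <;> subst h <;> unfold mx
  · rw [rgG_re_one, rgG_im_one]
  · rw [rgG_re_neg, rgG_im_neg, abs_neg, abs_neg]
  · rw [rgG_re_I, rgG_im_I, abs_neg, max_comm]
  · rw [rgG_re_nI, rgG_im_nI, abs_neg, max_comm]

private theorem rgG_I {a h : ℝ} {c : ℂ} {f U0 : ℂ → ℂ} {V : ℂ → ℂ → ℂ} {z : ℂ}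
    (hz : mx (z - c) ≤ a - 2 * h) : rgU a h c f U0 V z = U0 z := by
  unfold rgU
  rw [if_pos hz]

private theorem rgG_R {a h : ℝ} {c : ℂ} {f U0 : ℂ → ℂ} {V : ℂ → ℂ → ℂ} {z ω : ℂ}
    (hA : 0 < a - 2 * h) (hω : Qr ω) (hz : Rr a h c ω z) : rgU a h c f U0 V z = V ω z := by
  have h1 : Rr a h c 1 z ↔ |(z - c).re| ≤ a - 2 * h ∧ (z - c).im < -(a - 2 * h) := by
    unfold Rr
    rw [rgG_re_one, rgG_im_one]
  have h2 : Rr a h c (-1) z ↔ |(z - c).re| ≤ a - 2 * h ∧ -(z - c).im < -(a - 2 * h) := by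
    unfold Rr
    rw [rgG_re_neg, rgG_im_neg, abs_neg]
  have h3 : Rr a h c I z ↔ |(z - c).im| ≤ a - 2 * h ∧ -(z - c).re < -(a - 2 * h) := by
    unfold Rr
    rw [rgG_re_I, rgG_im_I]
  have h4 : Rr a h c (-I) z ↔ |(z - c).im| ≤ a - 2 * h ∧ (z - c).re < -(a - 2 * h) := by
    unfold Rr
    rw [rgG_re_nI, rgG_im_nI, abs_neg]
  unfold rgU
  rcases hω with h | h | h | h <;> subst h
  · have h5 : ¬ mx (z - c) ≤ a - 2 * h := by
      rw [h1] at hz
      unfold mx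
      intro h6
      have h7 := (abs_le.1 ((le_max_right _ _).trans h6)).1
      linarith [hz.2]
    rw [if_neg h5, if_pos hz]
  · rw [h2] at hz
    have h5 : ¬ mx (z - c) ≤ a - 2 * h := by
      unfold mx
      intro h6
      have h7 := (abs_le.1 ((le_max_right _ _).trans h6)).2
      linarith [hz.2]
    have h6 : ¬ Rr a h c 1 z := by
      rw [h1]
      rintro ⟨_, h7⟩
      linarith [hz.2]
    rw [if_neg h5, if_neg h6, if_pos (h2.2 hz)]
  · rw [h3] at hz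
    have h5 : ¬ mx (z - c) ≤ a - 2 * h := by
      unfold mx
      intro h6
      have h7 := (abs_le.1 ((le_max_left _ _).trans h6)).2
      linarith [hz.2]
    have h6 : ¬ Rr a h c 1 z := by
      rw [h1]
      rintro ⟨h7, _⟩
      linarith [hz.2, (abs_le.1 h7).2]
    have h6' : ¬ Rr a h c (-1) z := by
      rw [h2]
      rintro ⟨h7, _⟩
      linarith [hz.2, (abs_le.1 h7).2]
    rw [if_neg h5, if_neg h6, if_neg h6', if_pos (h3.2 hz)]
  · rw [h4] at hz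
    have h5 : ¬ mx (z - c) ≤ a - 2 * h := by
      unfold mx
      intro h6
      have h7 := (abs_le.1 ((le_max_left _ _).trans h6)).1
      linarith [hz.2]
    have h6 : ¬ Rr a h c 1 z := by
      rw [h1]
      rintro ⟨h7, _⟩
      linarith [hz.2, (abs_le.1 h7).1]
    have h6' : ¬ Rr a h c (-1) z := by
      rw [h2]
      rintro ⟨h7, _⟩
      linarith [hz.2, (abs_le.1 h7).1]
    have h6'' : ¬ Rr a h c I z := by
      rw [h3]
      rintro ⟨_, h7⟩
      linarith [hz.2]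
    rw [if_neg h5, if_neg h6, if_neg h6', if_neg h6'', if_pos (h4.2 hz)]

private theorem rgG_C0 {a h : ℝ} {c : ℂ} {f U0 : ℂ → ℂ} {V : ℂ → ℂ → ℂ} {z : ℂ}
    (h1 : a - 2 * h < |(z - c).re|) (h2 : a - 2 * h < |(z - c).im|) :
    rgU a h c f U0 V z = f z := by
  unfold rgU
  have h5 : ¬ mx (z - c) ≤ a - 2 * h := by
    unfold mx
    intro h6
    linarith [(le_max_left _ _).trans h6]
  have a1 : ¬ Rr a h c 1 z := by
    unfold Rr
    rw [rgG_re_one]
    rintro ⟨h3, _⟩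
    linarith
  have a2 : ¬ Rr a h c (-1) z := by
    unfold Rr
    rw [rgG_re_neg, abs_neg]
    rintro ⟨h3, _⟩
    linarith
  have a3 : ¬ Rr a h c I z := by
    unfold Rr
    rw [rgG_re_I]
    rintro ⟨h3, _⟩
    linarith
  have a4 : ¬ Rr a h c (-I) z := by
    unfold Rr
    rw [rgG_re_nI, abs_neg]
    rintro ⟨h3, _⟩
    linarith
  rw [if_neg h5, if_neg a1, if_neg a2, if_neg a3, if_neg a4]

private theorem rgG_C {a h : ℝ} {c : ℂ} {f U0 : ℂ → ℂ} {V : ℂ → ℂ → ℂ} {z ω : ℂ} (hω : Qr ω)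
    (h1 : a - 2 * h < |(sgm c ω z).re|) (h2 : a - 2 * h < |(sgm c ω z).im|) :
    rgU a h c f U0 V z = f z := by
  rcases hω with h | h | h | h <;> subst h
  · rw [rgG_re_one] at h1
    rw [rgG_im_one] at h2
    exact rgG_C0 h1 h2
  · rw [rgG_re_neg, abs_neg] at h1
    rw [rgG_im_neg, abs_neg] at h2
    exact rgG_C0 h1 h2
  · rw [rgG_re_I] at h1
    rw [rgG_im_I, abs_neg] at h2
    exact rgG_C0 h2 h1
  · rw [rgG_re_nI, abs_neg] at h1
    rw [rgG_im_nI] at h2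
    exact rgG_C0 h2 h1

/-- trichotomy -/
private theorem rgG_tri (a h : ℝ) (c z : ℂ) : mx (z - c) ≤ a - 2 * h ∨
    (∃ ω, Qr ω ∧ Rr a h c ω z) ∨
    (a - 2 * h < |(z - c).re| ∧ a - 2 * h < |(z - c).im|) := by
  by_cases hx : |(z - c).re| ≤ a - 2 * h
  · by_cases hy : |(z - c).im| ≤ a - 2 * h
    · left
      exact max_le hx hy
    · right
      left
      rw [not_le, lt_abs] at hy
      rcases hy with hy | hy
      · refine ⟨-1, Or.inr (Or.inl rfl), ?_, ?_⟩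
        · rw [rgG_re_neg, abs_neg]
          exact hx
        · rw [rgG_im_neg]
          linarith
      · refine ⟨1, Or.inl rfl, ?_, ?_⟩
        · rw [rgG_re_one]
          exact hx
        · rw [rgG_im_one]
          linarith
  · by_cases hy : |(z - c).im| ≤ a - 2 * h
    · right
      left
      rw [not_le, lt_abs] at hx
      rcases hx with hx | hx
      · refine ⟨I, Or.inr (Or.inr (Or.inl rfl)), ?_, ?_⟩
        · rw [rgG_re_I]
          exact hy
        · rw [rgG_im_I]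
          linarith
      · refine ⟨-I, Or.inr (Or.inr (Or.inr rfl)), ?_, ?_⟩
        · rw [rgG_re_nI, abs_neg]
          exact hy
        · rw [rgG_im_nI]
          linarith
    · right
      right
      exact ⟨not_le.1 hx, not_le.1 hy⟩

private theorem rgG_choose (c z : ℂ) : ∃ ω, Qr ω ∧ (sgm c ω z).im = -mx (z - c) := by
  unfold mx
  rcases le_total |(z - c).im| |(z - c).re| with h | h
  · rw [max_eq_left h]
    rcases abs_cases (z - c).re with ⟨h1, _⟩ | ⟨h1, _⟩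
    · exact ⟨I, Or.inr (Or.inr (Or.inl rfl)), by rw [rgG_im_I, h1]⟩
    · exact ⟨-I, Or.inr (Or.inr (Or.inr rfl)), by rw [rgG_im_nI, h1, neg_neg]⟩
  · rw [max_eq_right h]
    rcases abs_cases (z - c).im with ⟨h1, _⟩ | ⟨h1, _⟩
    · exact ⟨-1, Or.inr (Or.inl rfl), by rw [rgG_im_neg, h1]⟩
    · exact ⟨1, Or.inl rfl, by rw [rgG_im_one, h1, neg_neg]⟩

private theorem rgG_diff {ω : ℂ} (h : Qr ω) (c : ℂ) {z y : ℂ} {r : ℝ}
    (hy : y ∈ Metric.closedBall z r) :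
    |(sgm c ω y).re - (sgm c ω z).re| ≤ r ∧ |(sgm c ω y).im - (sgm c ω z).im| ≤ r := by
  rw [Metric.mem_closedBall, dist_eq_norm] at hy
  have h1 : sgm c ω y - sgm c ω z = (starRingEnd ℂ) ω * (y - z) := by
    unfold sgm
    ring
  have h2 : ‖sgm c ω y - sgm c ω z‖ ≤ r := by
    rw [h1, norm_mul, rgG_norm h, one_mul]
    exact hy
  rw [← Complex.sub_re, ← Complex.sub_im]
  exact ⟨(Complex.abs_re_le_norm _).trans h2, (Complex.abs_im_le_norm _).trans h2⟩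

/-- near a cut -/
private theorem rgG_X {a h ε : ℝ} {c : ℂ} (hε : 0 < ε) {z : ℂ}
    (hc : ∀ ω, Qr ω → ∀ s : ℝ, (s = 1 ∨ s = -1) → ∀ j : ℕ, (j : ℝ) * ε ≤ h →
      1000 * ε ≤ ‖z - kut a h ε c ω s j‖) {ω : ℂ} (hω : Qr ω) {s τ : ℝ} (hs : s = 1 ∨ s = -1)
    (h1 : |(sgm c ω z).re - s * (a - 2 * h)| ≤ 200 * ε) (hτ0 : 0 ≤ τ) (hτ : τ ≤ h)
    (h2 : |(sgm c ω z).im + (a - 2 * h + τ)| ≤ 200 * ε) : False := by
  set j : ℕ := ⌊τ / ε⌋₊ with hj
  have hj1 : (j : ℝ) * ε ≤ τ := by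
    have h3 : (j : ℝ) ≤ τ / ε := Nat.floor_le (div_nonneg hτ0 hε.le)
    rwa [le_div_iff₀ hε] at h3
  have hj2 : τ ≤ (j : ℝ) * ε + ε := by
    have h3 : τ / ε < (j : ℝ) + 1 := Nat.lt_floor_add_one _
    rw [div_lt_iff₀ hε] at h3
    linarith
  have h3 := hc ω hω s hs j (hj1.trans hτ)
  have h4 : (starRingEnd ℂ) ω * (z - kut a h ε c ω s j) =
      sgm c ω z - (⟨s * (a - 2 * h), -(a - 2 * h + j * ε)⟩ : ℂ) := by
    unfold kut sgm
    have h5 := rgG_conj_mul hω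
    linear_combination (-(⟨s * (a - 2 * h), -(a - 2 * h + j * ε)⟩ : ℂ)) * h5
  have h5 : ‖z - kut a h ε c ω s j‖ =
      ‖sgm c ω z - (⟨s * (a - 2 * h), -(a - 2 * h + j * ε)⟩ : ℂ)‖ := by
    rw [← h4, norm_mul, rgG_norm hω, one_mul]
  rw [h5] at h3
  have h6 := Complex.norm_le_abs_re_add_abs_im
    (sgm c ω z - (⟨s * (a - 2 * h), -(a - 2 * h + j * ε)⟩ : ℂ))
  rw [Complex.sub_re, Complex.sub_im] at h6
  have h7 : |(sgm c ω z).im - -(a - 2 * h + j * ε)| ≤ 201 * ε := by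
    rw [abs_le] at h2 ⊢
    constructor <;> linarith [h2.1, h2.2]
  have h8 : |(sgm c ω z).re - s * (a - 2 * h)| + |(sgm c ω z).im - -(a - 2 * h + j * ε)| ≤
      401 * ε := by linarith
  have h9 : 1000 * ε ≤ 401 * ε := h3.trans (h6.trans h8)
  linarith

private theorem rgG_sign {A p p' r : ℝ} (h1 : |p| ≤ A) (h2 : A < |p'|) (h3 : |p' - p| ≤ r) :
    (∃ s : ℝ, (s = 1 ∨ s = -1) ∧ |p - s * A| ≤ r) ∧
      ∃ s : ℝ, (s = 1 ∨ s = -1) ∧ |p' - s * A| ≤ r := by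
  rw [abs_le] at h1 h3
  rw [lt_abs] at h2
  rcases h2 with h2 | h2
  · refine ⟨⟨1, Or.inl rfl, ?_⟩, ⟨1, Or.inl rfl, ?_⟩⟩ <;> rw [abs_le] <;> constructor <;>
      linarith [h1.1, h1.2, h3.1, h3.2]
  · refine ⟨⟨-1, Or.inr rfl, ?_⟩, ⟨-1, Or.inr rfl, ?_⟩⟩ <;> rw [abs_le] <;> constructor <;>
      linarith [h1.1, h1.2, h3.1, h3.2]

/-- outside the ring -/
theorem rg_out {a h : ℝ} {c : ℂ} {f U0 : ℂ → ℂ} {V : ℂ → ℂ → ℂ} (hh : 0 < h) (ha : 3 * h ≤ a)
    (hV : ∀ ω, Qr ω → ∀ z : ℂ, (sgm c ω z).im ≤ -(a - 5 / 4 * h) → V ω z = f z) :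
    ∀ z, a - h < mx (z - c) → rgU a h c f U0 V z = f z := by
  intro z hz
  rcases rgG_tri a h c z with h1 | ⟨ω, hω, h1⟩ | ⟨h1, h2⟩
  · linarith
  · rw [rgG_R (by linarith) hω h1]
    apply hV ω hω
    rw [← rgG_mx hω] at hz
    unfold mx at hz
    rcases lt_max_iff.1 hz with h2 | h2
    · linarith [h1.1]
    · rw [lt_abs] at h2
      rcases h2 with h2 | h2
      · linarith [h1.2]
      · linarith
  · exact rgG_C0 h1 h2

private theorem rgG_zero (ε : ℝ) {v w : ℂ} (h : v = w) : v - w ∈ LamE ε := by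
  rw [h, sub_self]
  exact ⟨0, CAPU.Lam_zero, by ring⟩

private theorem rgG_mem {a h ε : ℝ} {c : ℂ} {f g U0 : ℂ → ℂ} {V : ℂ → ℂ → ℂ} (hε : 0 < ε)
    (hh : 1000 * ε ≤ h)
    (ha : 3 * h ≤ a) (hV : ∀ ω, Qr ω → ∀ z : ℂ, (sgm c ω z).im ≤ -(a - 5 / 4 * h) → V ω z = f z)
    (hG : ∀ ω, Qr ω → ∀ z : ℂ, -(a - 7 / 4 * h) ≤ (sgm c ω z).im → V ω z - g z ∈ LamE ε)
    (hU : ∀ z, a - 4 * h < mx (z - c) → U0 z = g z) {z : ℂ}
    (hc : ∀ ω, Qr ω → ∀ s : ℝ, (s = 1 ∨ s = -1) → ∀ j : ℕ, (j : ℝ) * ε ≤ h →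
      1000 * ε ≤ ‖z - kut a h ε c ω s j‖) {ω : ℂ} (hω : Qr ω)
    (hp : |(sgm c ω z).re| ≤ a - 2 * h) (hq : (sgm c ω z).im ≤ -(a - 2 * h) + 100 * ε) :
    ∀ y ∈ Metric.closedBall z (100 * ε), V ω y - rgU a h c f U0 V y ∈ LamE ε := by
  intro y hy
  obtain ⟨hd1, hd2⟩ := rgG_diff hω c hy
  have hd2' := abs_le.1 hd2
  by_cases hp' : |(sgm c ω y).re| ≤ a - 2 * h
  · by_cases hq' : |(sgm c ω y).im| ≤ a - 2 * h
    · have h1 : mx (y - c) ≤ a - 2 * h := by
        rw [← rgG_mx hω]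
        exact max_le hp' hq'
      rw [rgG_I h1]
      have h2 : a - 4 * h < mx (y - c) := by
        rw [← rgG_mx hω]
        have h3 : -(sgm c ω y).im ≤ mx (sgm c ω y) := (neg_le_abs _).trans (le_max_right _ _)
        linarith [hd2'.2]
      rw [hU y h2]
      apply hG ω hω
      linarith [(abs_le.1 hq').1]
    · rw [not_le, lt_abs] at hq'
      rcases hq' with hq' | hq'
      · exfalso
        linarith [hd2'.2]
      · exact rgG_zero ε (rgG_R (by linarith) hω ⟨hp', by linarith⟩).symm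
  · rw [not_le] at hp'
    obtain ⟨⟨s, hs, hs1⟩, _⟩ := rgG_sign hp hp' hd1
    by_cases hq' : |(sgm c ω y).im| ≤ a - 2 * h
    · exfalso
      refine rgG_X (a := a) (h := h) (τ := 0) hε hc hω hs (by linarith) le_rfl (by linarith) ?_
      have h1 := abs_le.1 hq'
      rw [abs_le]
      constructor <;> linarith [hd2'.1, hd2'.2, h1.1, h1.2]
    · rw [not_le] at hq'
      rw [rgG_C hω hp' hq']
      rw [lt_abs] at hq'
      rcases hq' with hq' | hq'
      · exfalso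
        linarith [hd2'.2]
      · by_cases h1 : (sgm c ω y).im ≤ -(a - 5 / 4 * h)
        · exact rgG_zero ε (hV ω hω y h1)
        · exfalso
          rw [not_le] at h1
          refine rgG_X (a := a) (h := h) (τ := -(sgm c ω y).im - (a - 2 * h)) hε hc hω hs
            (by linarith) (by linarith) (by linarith) ?_
          rw [abs_le]
          constructor <;> linarith [hd2'.1, hd2'.2]

private theorem rgG_corner {a h ε : ℝ} {c : ℂ} {f U0 : ℂ → ℂ} {V : ℂ → ℂ → ℂ}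
    (hε : 0 < ε) (hh : 1000 * ε ≤ h)
    (ha : 3 * h ≤ a) (hV : ∀ ω, Qr ω → ∀ z : ℂ, (sgm c ω z).im ≤ -(a - 5 / 4 * h) → V ω z = f z)
    {z : ℂ}
    (hc : ∀ ω, Qr ω → ∀ s : ℝ, (s = 1 ∨ s = -1) → ∀ j : ℕ, (j : ℝ) * ε ≤ h →
      1000 * ε ≤ ‖z - kut a h ε c ω s j‖)
    (h1 : a - 2 * h < |(z - c).re|) (h2 : a - 2 * h < |(z - c).im|) :
    ∀ y ∈ Metric.closedBall z (100 * ε), rgU a h c f U0 V y = f y := by
  intro y hy
  -- all coordinates of `z` are large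
  have hbig : ∀ ω, Qr ω → a - 2 * h < |(sgm c ω z).re| ∧ a - 2 * h < |(sgm c ω z).im| := by
    intro ω hω
    rcases hω with h | h | h | h <;> subst h
    · rw [rgG_re_one, rgG_im_one]
      exact ⟨h1, h2⟩
    · rw [rgG_re_neg, rgG_im_neg, abs_neg, abs_neg]
      exact ⟨h1, h2⟩
    · rw [rgG_re_I, rgG_im_I, abs_neg]
      exact ⟨h2, h1⟩
    · rw [rgG_re_nI, rgG_im_nI, abs_neg]
      exact ⟨h2, h1⟩
  rcases rgG_tri a h c y with h3 | ⟨ω, hω, h3⟩ | ⟨h3, h4⟩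
  · exfalso
    have hex : ∃ ω, Qr ω ∧ (sgm c ω z).im < 0 := by
      rcases lt_or_ge (z - c).im 0 with h4 | h4
      · exact ⟨1, Or.inl rfl, by rw [rgG_im_one]; exact h4⟩
      · refine ⟨-1, Or.inr (Or.inl rfl), ?_⟩
        rw [rgG_im_neg]
        rw [abs_of_nonneg h4] at h2
        linarith
    obtain ⟨ω, hω, h4⟩ := hex
    obtain ⟨h5, h6⟩ := hbig ω hω
    obtain ⟨hd1, hd2⟩ := rgG_diff hω c hy
    rw [← rgG_mx hω] at h3
    have h7 : |(sgm c ω y).re| ≤ a - 2 * h := (le_max_left _ _).trans h3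
    have h8 : |(sgm c ω y).im| ≤ a - 2 * h := (le_max_right _ _).trans h3
    have hd1' : |(sgm c ω z).re - (sgm c ω y).re| ≤ 100 * ε := by rwa [abs_sub_comm]
    obtain ⟨_, s, hs, hs1⟩ := rgG_sign h7 h5 hd1'
    refine rgG_X (a := a) (h := h) (τ := 0) hε hc hω hs (by linarith) le_rfl (by linarith) ?_
    rw [abs_of_neg h4] at h6
    have h9 := abs_le.1 h8
    have h10 := abs_le.1 hd2
    rw [abs_le]
    constructor <;> linarith [h9.1, h9.2, h10.1, h10.2]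
  · rw [rgG_R (by linarith) hω h3]
    by_cases h4 : (sgm c ω y).im ≤ -(a - 5 / 4 * h)
    · exact hV ω hω y h4
    · exfalso
      rw [not_le] at h4
      obtain ⟨h5, h6⟩ := hbig ω hω
      obtain ⟨hd1, hd2⟩ := rgG_diff hω c hy
      have hd1' : |(sgm c ω z).re - (sgm c ω y).re| ≤ 100 * ε := by rwa [abs_sub_comm]
      obtain ⟨_, s, hs, hs1⟩ := rgG_sign h3.1 h5 hd1'
      have h10 := abs_le.1 hd2
      have h11 := h3.2
      refine rgG_X (a := a) (h := h) (τ := -(sgm c ω y).im - (a - 2 * h)) hε hc hω hs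
        (by linarith) (by linarith) (by linarith) ?_
      rw [abs_le]
      constructor <;> linarith [h10.1, h10.2]
  · exact rgG_C0 h3 h4

/-- the three cases for a point of the cell far from the cuts -/
theorem rg_cases {a h ε : ℝ} {c : ℂ} {f g U0 : ℂ → ℂ} {V : ℂ → ℂ → ℂ} (hε : 0 < ε) (hh : 1000 * ε ≤ h)
    (ha : 3 * h ≤ a) (hV : ∀ ω, Qr ω → ∀ z : ℂ, (sgm c ω z).im ≤ -(a - 5 / 4 * h) → V ω z = f z)
    (hG : ∀ ω, Qr ω → ∀ z : ℂ, -(a - 7 / 4 * h) ≤ (sgm c ω z).im → V ω z - g z ∈ LamE ε)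
    (hU : ∀ z, a - 4 * h < mx (z - c) → U0 z = g z) {z : ℂ} (hz : mx (z - c) ≤ a)
    (hc : ∀ ω, Qr ω → ∀ s : ℝ, (s = 1 ∨ s = -1) → ∀ j : ℕ, (j : ℝ) * ε ≤ h →
      1000 * ε ≤ ‖z - kut a h ε c ω s j‖) :
    (mx (z - c) ≤ a - 2 * h ∧ ∀ y ∈ Metric.closedBall z (100 * ε), rgU a h c f U0 V y = U0 y) ∨
    (∃ ω, Qr ω ∧ |(sgm c ω z).re| ≤ a - 2 * h ∧ |(sgm c ω z).im + (a - 3 / 2 * h)| ≤ 5 / 4 * h ∧
      a - 3 * h ≤ mx (z - c) ∧
      ∀ y ∈ Metric.closedBall z (100 * ε), V ω y - rgU a h c f U0 V y ∈ LamE ε) ∨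
    (a - 3 * h ≤ mx (z - c) ∧
      ∀ y ∈ Metric.closedBall z (100 * ε), rgU a h c f U0 V y = f y) := by
  have hh0 : 0 < h := by linarith
  by_cases hM : mx (z - c) ≤ a - 2 * h - 100 * ε
  · left
    refine ⟨by linarith, ?_⟩
    intro y hy
    apply rgG_I
    have h1 : Qr 1 := Or.inl rfl
    obtain ⟨hd1, hd2⟩ := rgG_diff h1 c hy
    rw [← rgG_mx h1] at hM ⊢
    have h2 : |(sgm c 1 z).re| ≤ a - 2 * h - 100 * ε := (le_max_left _ _).trans hM
    have h3 : |(sgm c 1 z).im| ≤ a - 2 * h - 100 * ε := (le_max_right _ _).trans hM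
    rw [abs_le] at hd1 hd2 h2 h3
    apply max_le
    · rw [abs_le]
      constructor <;> linarith [hd1.1, hd1.2, h2.1, h2.2]
    · rw [abs_le]
      constructor <;> linarith [hd2.1, hd2.2, h3.1, h3.2]
  · rw [not_le] at hM
    rcases rgG_tri a h c z with h1 | ⟨ω, hω, h1⟩ | ⟨h1, h2⟩
    · right
      left
      obtain ⟨ω, hω, hq⟩ := rgG_choose c z
      have hp : |(sgm c ω z).re| ≤ a - 2 * h := by
        have h2 : |(sgm c ω z).re| ≤ mx (sgm c ω z) := le_max_left _ _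
        rw [rgG_mx hω] at h2
        linarith
      refine ⟨ω, hω, hp, ?_, by linarith, ?_⟩
      · rw [hq, abs_le]
        constructor <;> linarith
      · apply rgG_mem hε hh ha hV hG hU hc hω hp
        rw [hq]
        linarith
    · by_cases hq : -(a - h / 4) ≤ (sgm c ω z).im
      · right
        left
        refine ⟨ω, hω, h1.1, ?_, by linarith, ?_⟩
        · have := h1.2
          rw [abs_le]
          constructor <;> linarith
        · apply rgG_mem hε hh ha hV hG hU hc hω h1.1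
          have := h1.2
          linarith
      · right
        right
        rw [not_le] at hq
        refine ⟨by linarith, ?_⟩
        intro y hy
        apply rg_out hh0 ha hV
        obtain ⟨hd1, hd2⟩ := rgG_diff hω c hy
        rw [← rgG_mx hω]
        have h3 : -(sgm c ω y).im ≤ mx (sgm c ω y) := (neg_le_abs _).trans (le_max_right _ _)
        linarith [(abs_le.1 hd2).2]
    · right
      right
      exact ⟨by linarith, rgG_corner hε hh ha hV hc h1 h2⟩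

end Pool.Agent.CAPV
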