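import Pool.Agent.Lib.MP_488b8a_co_V.Sid
import Pool.Agent.Lib.MP_488b8a_co_V.RgG
import Pool.Agent.Lib.MP_488b8a_co_V.Pro

/-! Project SO (MP_488b8a_co), module Rng: the ring along the boundary of a cell. -/

namespace Pool.Agent.CAPV

open Complex

private theorem Rng_mx {ω v : ℂ} (hω : Qr ω) : mx (ω * v) = mx v := by
  unfold mx
  rcases hω with h | h | h | h
  · rw [h, one_mul]
  · rw [h]
    simp
  · rw [h]
    simp [max_comm]
  · rw [h]
    simp [max_comm]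

private theorem Rng_ne {ω : ℂ} (hω : Qr ω) : ω ≠ 0 := by
  rcases hω with h | h | h | h <;> rw [h] <;> simp

private theorem Rng_nle (z : ℂ) : ‖z‖ ≤ 2 * mx z := by
  have h1 := Complex.norm_le_abs_re_add_abs_im z
  have h2 : |z.re| ≤ mx z := le_max_left _ _
  have h3 : |z.im| ≤ mx z := le_max_right _ _
  linarith

private theorem Rng_eh (ε h : ℝ) (z q : ℂ) : 0 ≤ eh ε h z q := by
  unfold eh
  split_ifs
  · positivity
  · exact le_rfl

private theorem Rng_kor_inj {a h : ℝ} {c ω : ℂ} (hω : Qr ω) (hh : 0 < h) {i j : ℕ}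
    (e : kor a h c ω i = kor a h c ω j) : i = j := by
  unfold kor at e
  have e1 := mul_left_cancel₀ (Rng_ne hω) (add_left_cancel e)
  have e2 := congrArg Complex.re e1
  simp only at e2
  have e3 : (i : ℝ) * h = j * h := by linarith
  exact_mod_cast mul_right_cancel₀ hh.ne' e3

private theorem Rng_sum {ε a h : ℝ} {c ω z : ℂ} (hω : Qr ω) (hh : 0 < h) {N : ℕ}
    {Cor : Finset ℂ} (hC : ∀ i, 1 ≤ i → i < N → kor a h c ω i ∈ Cor) :
    ∑ i ∈ Finset.Ico 1 N, eh ε h z (kor a h c ω i) ≤ ∑ q ∈ Cor, eh ε h z q := by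
  have e : ∑ q ∈ (Finset.Ico 1 N).image (fun i => kor a h c ω i), eh ε h z q =
      ∑ i ∈ Finset.Ico 1 N, eh ε h z (kor a h c ω i) :=
    Finset.sum_image fun i _ j _ e => Rng_kor_inj hω hh e
  rw [← e]
  refine Finset.sum_le_sum_of_subset_of_nonneg (fun q hq => ?_) fun q _ _ => Rng_eh _ _ _ _
  obtain ⟨i, hi, rfl⟩ := Finset.mem_image.1 hq
  rw [Finset.mem_Ico] at hi
  exact hC i hi.1 hi.2

private theorem Rng_th {t : ℝ} (h0 : 0 < t) (h1 : t ≤ 1) : t ^ 2 ≤ th t := by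
  unfold th
  have h2 : 0 ≤ Real.log (1 / t) := Real.log_nonneg (by rw [le_div_iff₀ h0]; linarith)
  nlinarith [mul_nonneg (sq_nonneg t) h2]

theorem ring_ex (Cj CR : ℝ) (h1 : 1 ≤ Cj) (h2 : 1 ≤ CR) : ∃ C C0 t0 : ℝ, 1 ≤ C ∧
    1000 ≤ C0 ∧ 0 < t0 ∧ ∀ (ε h t a : ℝ) (N : ℕ) (c : ℂ) (F G : Jet) (U0 : ℂ → ℂ), 0 < ε → 0 < h →
      t ≤ t0 → ε ≤ t * h → t * h ≤ Cj * ε → h ≤ t → 2 ≤ N → 2 * (a - 2 * h) = N * h → a ≤ 1 / 4 →
      F.Sm → G.Sm → F.Bd (Metric.closedBall c 1) Cj → G.Bd (Metric.closedBall c 1) Cj →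
      (∀ z, mx (z - c) ≤ 2 * a → ‖G.f1 z - F.f1 z‖ ≤ t ∧ ‖G.f2 z - F.f2 z‖ ≤ t) →
      (∀ z, a - 4 * h < mx (z - c) → U0 z = G.f z) →
      ∃ (U : ℂ → ℂ) (Bad Cor : Finset ℂ), (∀ z, a - h < mx (z - c) → U z = F.f z) ∧
        (∀ z, mx (z - c) ≤ a → (∀ q ∈ Bad, C0 * ε ≤ ‖z - q‖) →
          (mx (z - c) ≤ a - 2 * h ∧ ∀ y ∈ Metric.closedBall z (100 * ε), U y = U0 y) ∨
          (a - 3 * h ≤ mx (z - c) ∧
            NearS ε (2 * CR) (C * th t) (C * (th t + ∑ q ∈ Cor, eh ε h z q)) U z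
              (F.f1 z) (F.f2 z))) ∧
        (Bad.card : ℝ) ≤ C * (N + h / ε) ∧ (Cor.card : ℝ) ≤ 4 * N ∧
        (∀ q ∈ Bad, mx (q - c) ≤ a) ∧ (∀ q ∈ Cor, mx (q - c) ≤ a) := by
  classical
  obtain ⟨P⟩ := prof_ex
  obtain ⟨C, C0, t0, hC, hC0, ht0, hs⟩ := side P Cj CR h1 h2
  have hCC : 1 ≤ CR * Cj := by nlinarith
  refine ⟨C + 12 + 4 * (CR * Cj), C0, min t0 (min 1 (1 / (4 * (CR * Cj)))), by linarith, hC0,
    by positivity, ?_⟩
  intro ε h t a N c F G U0 hε hh ht e1 e2 e3 hN hNa ha4 hF hG hFb hGb hd hU0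
  have ht1 : t ≤ t0 := ht.trans (min_le_left _ _)
  have ht2 : t ≤ 1 := ht.trans ((min_le_right _ _).trans (min_le_left _ _))
  have ht3 : t ≤ 1 / (4 * (CR * Cj)) := ht.trans ((min_le_right _ _).trans (min_le_right _ _))
  have htp : 0 < t := hh.trans_le e3
  have hN' : (2 : ℝ) ≤ N := by exact_mod_cast hN
  have ha : 3 * h ≤ a := by nlinarith
  have heps : ε ≤ t ^ 2 := by nlinarith
  have hth := Rng_th htp ht2
  have hth0 : 0 ≤ th t := (sq_nonneg t).trans hth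
  obtain ⟨h1000, hex⟩ := hs ε h t a N c F G hε hh ht1 e1 e2 e3 hN hNa ha4 hF hG hFb hGb hd
  choose! V hV1 hV2 hV3 using hex
  obtain ⟨Qs, hQs⟩ : ∃ Qs : Finset ℂ, Qs = {1, -1, I, -I} := ⟨_, rfl⟩
  obtain ⟨Ss, hSs⟩ : ∃ Ss : Finset ℝ, Ss = {1, -1} := ⟨_, rfl⟩
  have hQm : ∀ ω, ω ∈ Qs ↔ Qr ω := fun ω => by
    rw [hQs]
    simp only [Finset.mem_insert, Finset.mem_singleton]
    rfl
  have hSm : ∀ s, s ∈ Ss ↔ (s = 1 ∨ s = -1) := fun s => by
    rw [hSs]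
    simp only [Finset.mem_insert, Finset.mem_singleton]
  have hQc : Qs.card ≤ 4 := by
    rw [hQs]
    exact Finset.card_le_four
  have hSc : Ss.card ≤ 2 := by
    rw [hSs]
    exact Finset.card_le_two
  obtain ⟨Cor, hCor⟩ : ∃ Cor : Finset ℂ, Cor =
    (Qs ×ˢ Finset.Ico 1 N).image (fun p => kor a h c p.1 p.2) := ⟨_, rfl⟩
  obtain ⟨Kut, hKut⟩ : ∃ Kut : Finset ℂ, Kut =
    ((Qs ×ˢ Ss) ×ˢ Finset.range (⌊h / ε⌋₊ + 1)).image
      (fun p => kut a h ε c p.1.1 p.1.2 p.2) := ⟨_, rfl⟩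
  have hCm : ∀ ω, Qr ω → ∀ i, 1 ≤ i → i < N → kor a h c ω i ∈ Cor := by
    intro ω hω i hi hiN
    rw [hCor]
    exact Finset.mem_image.2 ⟨(ω, i), Finset.mem_product.2
      ⟨(hQm ω).2 hω, Finset.mem_Ico.2 ⟨hi, hiN⟩⟩, rfl⟩
  have hKm : ∀ ω, Qr ω → ∀ s : ℝ, (s = 1 ∨ s = -1) → ∀ j : ℕ, (j : ℝ) * ε ≤ h →
      kut a h ε c ω s j ∈ Kut := by
    intro ω hω s hs j hj
    rw [hKut]
    refine Finset.mem_image.2 ⟨((ω, s), j), Finset.mem_product.2
      ⟨Finset.mem_product.2 ⟨(hQm ω).2 hω, (hSm s).2 hs⟩, Finset.mem_range.2 ?_⟩, rfl⟩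
    refine Nat.lt_succ_of_le (Nat.le_floor ?_)
    rw [le_div_iff₀ hε]
    exact hj
  have hCc : (Cor.card : ℝ) ≤ 4 * N := by
    have k1 : Cor.card ≤ 4 * N := by
      rw [hCor]
      refine Finset.card_image_le.trans ?_
      rw [Finset.card_product, Nat.card_Ico]
      exact Nat.mul_le_mul hQc (Nat.sub_le _ _)
    exact_mod_cast k1
  have hKc : (Kut.card : ℝ) ≤ 8 * (h / ε + 1) := by
    have k1 : Kut.card ≤ 8 * (⌊h / ε⌋₊ + 1) := by
      rw [hKut]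
      refine Finset.card_image_le.trans ?_
      rw [Finset.card_product, Finset.card_product, Finset.card_range]
      exact Nat.mul_le_mul (Nat.mul_le_mul hQc hSc) le_rfl
    have k2 : (Kut.card : ℝ) ≤ 8 * ((⌊h / ε⌋₊ : ℝ) + 1) := by exact_mod_cast k1
    have k3 := Nat.floor_le (div_pos hh hε).le
    linarith
  have hCa : ∀ q ∈ Cor, mx (q - c) ≤ a := by
    intro q hq
    rw [hCor] at hq
    obtain ⟨⟨ω, i⟩, hm, rfl⟩ := Finset.mem_image.1 hq
    rw [Finset.mem_product, Finset.mem_Ico] at hm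
    obtain ⟨hω, hi1, hi2⟩ := hm
    simp only at hω hi1 hi2 ⊢
    unfold kor
    rw [add_sub_cancel_left, Rng_mx ((hQm ω).1 hω)]
    have k1 : (i : ℝ) * h ≤ N * h :=
      mul_le_mul_of_nonneg_right (by exact_mod_cast hi2.le) hh.le
    have k2 : 0 ≤ (i : ℝ) * h := by positivity
    refine max_le (abs_le.2 ⟨?_, ?_⟩) (abs_le.2 ⟨?_, ?_⟩) <;> simp only <;> linarith
  have hKa : ∀ q ∈ Kut, mx (q - c) ≤ a := by
    intro q hq
    rw [hKut] at hq
    obtain ⟨⟨⟨ω, s⟩, j⟩, hm, rfl⟩ := Finset.mem_image.1 hq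
    rw [Finset.mem_product, Finset.mem_product, Finset.mem_range] at hm
    obtain ⟨⟨hω, hs'⟩, hj⟩ := hm
    simp only at hω hs' hj ⊢
    unfold kut
    rw [add_sub_cancel_left, Rng_mx ((hQm ω).1 hω)]
    have k1 : (j : ℝ) * ε ≤ h := by
      have k3 := Nat.floor_le (div_pos hh hε).le
      have k4 : (j : ℝ) ≤ h / ε := by
        have k5 : (j : ℝ) ≤ (⌊h / ε⌋₊ : ℝ) := by exact_mod_cast Nat.le_of_lt_succ hj
        exact k5.trans k3
      rwa [le_div_iff₀ hε] at k4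
    have k2 : 0 ≤ (j : ℝ) * ε := by positivity
    rcases (hSm s).1 hs' with hs1 | hs1
    · rw [hs1]
      refine max_le (abs_le.2 ⟨?_, ?_⟩) (abs_le.2 ⟨?_, ?_⟩) <;> simp only <;> linarith
    · rw [hs1]
      refine max_le (abs_le.2 ⟨?_, ?_⟩) (abs_le.2 ⟨?_, ?_⟩) <;> simp only <;> linarith
  refine ⟨rgU a h c F.f U0 V, Cor ∪ Kut, Cor, rg_out hh ha hV1, ?_, ?_, hCc, ?_, hCa⟩
  · intro z hz hfar
    have hfC : ∀ q ∈ Cor, C0 * ε ≤ ‖z - q‖ := fun q hq => hfar q (Finset.mem_union_left _ hq)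
    have hfK : ∀ q ∈ Kut, C0 * ε ≤ ‖z - q‖ := fun q hq => hfar q (Finset.mem_union_right _ hq)
    have hSum0 : 0 ≤ ∑ q ∈ Cor, eh ε h z q := Finset.sum_nonneg fun q _ => Rng_eh _ _ _ _
    rcases rg_cases (f := F.f) (g := G.f) hε h1000 ha hV1 hV2 hU0 hz
      (fun ω hω s hs j hj => (mul_le_mul_of_nonneg_right hC0 hε.le).trans
        (hfK _ (hKm ω hω s hs j hj))) with hc | hc | hc
    · exact Or.inl hc
    · obtain ⟨ω, hω, k1, k2, k3, k4⟩ := hc
      refine Or.inr ⟨k3, near_congr (hV3 ω hω z k1 k2 fun i hi hiN =>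
        hfC _ (hCm ω hω i hi hiN)) ?_ ?_ k4⟩
      · exact mul_le_mul_of_nonneg_right (by linarith) hth0
      · have k5 := Rng_sum (ε := ε) (z := z) hω hh (hCm ω hω)
        have k6 : 0 ≤ ∑ i ∈ Finset.Ico 1 N, eh ε h z (kor a h c ω i) :=
          Finset.sum_nonneg fun i _ => Rng_eh _ _ _ _
        exact mul_le_mul (by linarith) (by linarith) (by linarith) (by linarith)
    · obtain ⟨k3, k4⟩ := hc
      have k5 : ε ≤ t := by nlinarith
      have k6 : 4 * (CR * Cj) * ε ≤ 1 := by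
        rw [le_div_iff₀ (by positivity)] at ht3
        have := mul_le_mul_of_nonneg_left k5 (by positivity : 0 ≤ 4 * (CR * Cj))
        linarith
      have k7 := Rng_nle (z - c)
      have hL0 : (0 : ℂ) ∈ LamE ε := LamE_zero ε
      have k8 := near_jet (F := F) (B := Metric.closedBall c 1) (C := Cj) (CR := 2 * CR)
        (ε := ε) (z := z) (by linarith) (by linarith) hε hF hFb (fun y hy => by
          rw [mem_closedBall_iff_norm] at hy ⊢
          have := norm_sub_le_norm_sub_add_norm_sub y z c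
          linarith) (by linarith) (rgU a h c F.f U0 V) (fun y hy => by
          rw [k4 y hy, sub_self]
          exact hL0)
      refine Or.inr ⟨k3, near_congr k8 ?_ ?_ fun y _ => ?_⟩
      · have k9 : 4 * (CR * Cj) * ε ≤ 4 * (CR * Cj) * th t :=
          mul_le_mul_of_nonneg_left (by linarith) (by positivity)
        have k10 : 0 ≤ C * th t := by positivity
        have k11 : (C + 12 + 4 * (CR * Cj)) * th t =
            C * th t + 12 * th t + 4 * (CR * Cj) * th t := by ring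
        rw [k11]
        linarith
      · positivity
      · rw [sub_self]
        exact hL0
  · have k1 : ((Cor ∪ Kut).card : ℝ) ≤ Cor.card + Kut.card := by
      exact_mod_cast Finset.card_union_le _ _
    have k2 : 0 ≤ h / ε := (div_pos hh hε).le
    have k3 : 12 * (N + h / ε) ≤ (C + 12 + 4 * (CR * Cj)) * (N + h / ε) :=
      mul_le_mul_of_nonneg_right (by linarith) (by positivity)
    linarith
  · intro q hq
    rcases Finset.mem_union.1 hq with hq | hq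
    · exact hCa q hq
    · exact hKa q hq

end Pool.Agent.CAPV
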