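import Pool.Agent.Lib.MP_488b8a_co_V.ThB
import Pool.Agent.Lib.MP_488b8a_co_V.Rng
import Pool.Agent.Lib.MP_488b8a_co_V.ChB
import Pool.Agent.Lib.MP_488b8a_co_V.ChF

/-! Project SO (MP_488b8a_co), module KidE: a cell inside its parent. -/

namespace Pool.Agent.CAPV

open Complex

/-- norm of a complex number by its maximum norm -/
private theorem KidE_norm {z : ℂ} {r : ℝ} (h : mx z ≤ r) : ‖z‖ ≤ 3 / 2 * r := by
  have h1 : |z.re| ≤ r := (le_max_left _ _).trans h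
  have h2 : |z.im| ≤ r := (le_max_right _ _).trans h
  have hr : 0 ≤ r := (abs_nonneg _).trans h1
  have h3 : z.re * z.re ≤ r * r := by
    rw [← abs_mul_abs_self z.re]
    exact mul_le_mul h1 h1 (abs_nonneg _) hr
  have h4 : z.im * z.im ≤ r * r := by
    rw [← abs_mul_abs_self z.im]
    exact mul_le_mul h2 h2 (abs_nonneg _) hr
  rw [Complex.norm_def, Real.sqrt_le_left (by positivity), Complex.normSq_apply]
  nlinarith

private theorem KidE_bd {F : Jet} {B B' : Set ℂ} {C C' : ℝ} (h : F.Bd B C) (hB : B' ⊆ B)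
    (hC : C ≤ C') : F.Bd B' C' :=
  ⟨fun z hz => (h.b1 z (hB hz)).trans hC, fun z hz => (h.b2 z (hB hz)).trans hC,
    fun z hz => (h.b11 z (hB hz)).trans hC, fun z hz => (h.b12 z (hB hz)).trans hC,
    fun z hz => (h.b22 z (hB hz)).trans hC,
    fun z hz z' hz' => (h.l11 z (hB hz) z' (hB hz')).trans
      (mul_le_mul_of_nonneg_right hC (norm_nonneg _)),
    fun z hz z' hz' => (h.l12 z (hB hz) z' (hB hz')).trans
      (mul_le_mul_of_nonneg_right hC (norm_nonneg _)),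
    fun z hz z' hz' => (h.l22 z (hB hz) z' (hB hz')).trans
      (mul_le_mul_of_nonneg_right hC (norm_nonneg _))⟩

private theorem KidE_eh (ε h : ℝ) (z q : ℂ) : 0 ≤ eh ε h z q := by
  unfold eh
  split_ifs
  · positivity
  · exact le_rfl

private theorem KidE_en (p : Prm) (z : ℂ) (x : ℂ × ℕ) : 0 ≤ en p z x := by
  unfold en
  split_ifs
  · positivity
  · exact le_rfl

private theorem KidE_th {t : ℝ} (h0 : 0 < t) (h1 : t ≤ 1) : 0 ≤ th t := by
  unfold th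
  have h2 : 0 ≤ Real.log (1 / t) := Real.log_nonneg (by rw [le_div_iff₀ h0]; linarith)
  have h3 := sq_nonneg t
  nlinarith

/-- the numbers of the step -/
private theorem KidE_num {C Ct CR Ce q s th δ ε A0 Au Cc κ Sg a0 : ℝ} (hC : 1 ≤ C)
    (hCR : 1 ≤ CR) (hs : 1 / q ^ 2 ≤ s) (hε : 0 < ε) (hth : th ≤ 2 * Ct ^ 2 * s)
    (hδ : δ ^ 2 = 81 / 16 * Ce ^ 2 * (1 / q ^ 2)) (hSg : 0 ≤ Sg)
    (ha0 : 8 * C * Ct ^ 2 + 22 * CR * Ce ^ 2 + 2 * CR + 2 * C ≤ a0) (hA0 : a0 ≤ A0)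
    (hAu : a0 ≤ Au) (hCc : a0 ≤ Cc) (hs0 : 0 < s) (hκ : A0 * ε + Au * s ≤ κ) :
    C * th + CR * (2 * δ ^ 2 + ε) ≤ 3 / 4 * κ ∧
      2 * (C * th + C * (th + Sg)) + 2 * δ ^ 2 ≤ Cc * (κ + Sg) := by
  have e1 : C * th ≤ C * (2 * Ct ^ 2 * s) := mul_le_mul_of_nonneg_left hth (by linarith)
  have hCe : 0 ≤ Ce ^ 2 := sq_nonneg _
  have hCt : 0 ≤ Ct ^ 2 := sq_nonneg _
  have e2 : δ ^ 2 ≤ 81 / 16 * Ce ^ 2 * s := by
    rw [hδ]
    exact mul_le_mul_of_nonneg_left hs (by positivity)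
  have e2' : 0 ≤ 81 / 16 * Ce ^ 2 * s := by positivity
  have e3 : CR * (2 * δ ^ 2) ≤ CR * (2 * (81 / 16 * Ce ^ 2 * s)) :=
    mul_le_mul_of_nonneg_left (by linarith) (by linarith)
  have e4 : 0 ≤ C * (2 * Ct ^ 2 * s) := by positivity
  have e5 : 1 * (2 * (81 / 16 * Ce ^ 2 * s)) ≤ CR * (2 * (81 / 16 * Ce ^ 2 * s)) :=
    mul_le_mul_of_nonneg_right hCR (by positivity)
  have f1 : a0 * ε ≤ A0 * ε := mul_le_mul_of_nonneg_right hA0 hε.le
  have f2 : a0 * s ≤ Au * s := mul_le_mul_of_nonneg_right hAu hs0.le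
  have f3 : (8 * C * Ct ^ 2 + 22 * CR * Ce ^ 2 + 2 * CR + 2 * C) * s ≤ a0 * s :=
    mul_le_mul_of_nonneg_right ha0 hs0.le
  have g1 : 0 ≤ C * Ct ^ 2 := by positivity
  have g2 : 0 ≤ CR * Ce ^ 2 := by positivity
  have f4 : (2 * CR) * ε ≤ a0 * ε :=
    mul_le_mul_of_nonneg_right (by nlinarith) hε.le
  have f5 : (8 * C * Ct ^ 2 + 22 * CR * Ce ^ 2 + 2 * CR + 2 * C) * s =
      4 * (C * (2 * Ct ^ 2 * s)) + 22 * (CR * (Ce ^ 2 * s)) + 2 * (CR * s) + 2 * (C * s) := by ring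
  have f6 : CR * (2 * (81 / 16 * Ce ^ 2 * s)) = 81 / 8 * (CR * (Ce ^ 2 * s)) := by ring
  have g3 : 0 ≤ CR * (Ce ^ 2 * s) := by positivity
  have g4 : 0 ≤ CR * s := by positivity
  have g5 : 0 ≤ C * s := by positivity
  have g6 : 0 ≤ CR * ε := by positivity
  have hκ0 : 0 ≤ κ := by
    have : 0 ≤ a0 * ε := by nlinarith
    linarith
  constructor
  · have h1 : CR * (2 * δ ^ 2 + ε) = CR * (2 * δ ^ 2) + CR * ε := by ring
    rw [h1]
    linarith
  · have h1 : 1 * κ ≤ Cc * κ := mul_le_mul_of_nonneg_right (by nlinarith) hκ0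
    have h2 : 2 * C * Sg ≤ Cc * Sg := mul_le_mul_of_nonneg_right (by nlinarith) hSg
    have h3 : Cc * (κ + Sg) = Cc * κ + Cc * Sg := by ring
    have h4 : 2 * (C * th + C * (th + Sg)) = 4 * (C * th) + 2 * C * Sg := by ring
    have h5 : 0 ≤ a0 * ε := by nlinarith
    rw [h3, h4]
    linarith

theorem kid_ex (CR : ℝ) (h1 : 1 ≤ CR) : ∃ (a0 Cn : ℝ) (k1 : ℕ), 1 ≤ a0 ∧ 1 ≤ Cn ∧ ∀ p : Prm,
    p.Gd CR a0 k1 → ∀ k : ℕ, p.k0 ≤ k → k < p.K → ∀ (c c' : ℂ) (φ Bn En : ℝ), Rg k c →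
      Rg (k + 1) c' → Dya (k + 1) c' → mx (c' - c) ≤ ak (k + 1) →
      Cell p (k + 1) c' (φ + hh p.T c.im * (c'.re - c.re)) Bn En →
      Kid p k c c' φ (Bn + Cn * (16 ^ p.K / 8 ^ k + 4 ^ k))
        (En + Cn * ((k : ℝ) + 2) * (16 ^ p.K / 8 ^ k)) := by
  classical
  obtain ⟨Cb, hCb, hbd⟩ := chart_bd
  obtain ⟨Cd, hCd, hdf⟩ := chart_diff
  obtain ⟨Ce, hCe, hnr⟩ := chart_near
  obtain ⟨Ct, hCt⟩ : ∃ Ct : ℝ, Ct = 25 * Cd / 4 := ⟨_, rfl⟩
  have hCt1 : 1 ≤ Ct := by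
    rw [hCt]
    linarith
  obtain ⟨Cj, hCj⟩ : ∃ Cj : ℝ, Cj = max (16 * Ct) Cb := ⟨_, rfl⟩
  have hCj1 : Cb ≤ Cj := by
    rw [hCj]
    exact le_max_right _ _
  have hCj2 : 16 * Ct ≤ Cj := by
    rw [hCj]
    exact le_max_left _ _
  obtain ⟨C, C0, t0, hC, hC0, ht0, hring⟩ := ring_ex Cj CR (hCb.trans hCj1) h1
  obtain ⟨k2, hk2⟩ := pow_unbounded_of_one_lt (Ct + Ct / t0 + 18 * CR * Ce)
    (by norm_num : (1 : ℝ) < 4)
  obtain ⟨a0, ha0⟩ : ∃ a0 : ℝ, a0 = 1 + C0 + (8 * C * Ct ^ 2 + 22 * CR * Ce ^ 2 + 2 * CR +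
    2 * C) := ⟨_, rfl⟩
  have hpp1 : 0 ≤ 8 * C * Ct ^ 2 + 22 * CR * Ce ^ 2 + 2 * CR + 2 * C := by positivity
  refine ⟨a0, 64 * C, k2 + 7, by linarith, by linarith, ?_⟩
  intro p hp k hk0 hkK c c' φ Bn En hRc hRc' hDya hmx hCell
  obtain ⟨U0, Bad0, Cor0, u0, ok0, nb0, nc0, pb0, pc0⟩ := hCell
  have hk7 : k2 + 7 ≤ k := hp.k0.trans hk0
  -- the numbers
  obtain ⟨q, hq⟩ : ∃ q : ℝ, q = 4 ^ (k + 1) := ⟨_, rfl⟩
  obtain ⟨E, hE⟩ : ∃ E : ℝ, E = 16 ^ p.K := ⟨_, rfl⟩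
  have hq1 : Ct + Ct / t0 + 18 * CR * Ce ≤ q := by
    rw [hq]
    exact hk2.le.trans (pow_le_pow_right₀ (by norm_num) (by omega))
  have hq0 : 0 < q := by
    rw [hq]
    positivity
  have hE0 : 0 < E := by
    rw [hE]
    positivity
  have hq16 : (16 : ℝ) ^ (k + 1) = q ^ 2 := by
    rw [hq, ← pow_mul, mul_comm (k + 1) 2, pow_mul]
    norm_num
  have hqE : q ^ 2 ≤ E := by
    rw [← hq16, hE]
    exact pow_le_pow_right₀ (by norm_num) (by omega)
  obtain ⟨a, ha⟩ : ∃ a : ℝ, a = ak (k + 1) := ⟨_, rfl⟩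
  have ha0' : 0 < a := by
    rw [ha, ak]
    positivity
  have ha2 : a ^ 2 = 1 / (4 * q) := by
    rw [ha, ak, hq, div_pow, one_pow, ← pow_mul, mul_comm (k + 1 + 1) 2, pow_mul, ← pow_succ']
    norm_num
  have ha100 : 5 * a ≤ 1 / 100 := by
    rw [ha, ak]
    have h2 : (2 : ℝ) ^ 9 ≤ 2 ^ (k + 1 + 1) := pow_le_pow_right₀ (by norm_num) (by omega)
    have h3 : (1 : ℝ) / 2 ^ (k + 1 + 1) ≤ 1 / 2 ^ 9 :=
      one_div_le_one_div_of_le (by norm_num) h2
    norm_num at h3 ⊢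
    linarith
  obtain ⟨h, hh'⟩ : ∃ h : ℝ, h = hk p.K (k + 1) := ⟨_, rfl⟩
  have hhe : h = q / E := by
    rw [hh', hk, hq, hE]
  have hh0 : 0 < h := by
    rw [hhe]
    positivity
  have hh4 : hk p.K (k + 1 + 1) = 4 * h := by
    rw [hh', hk, hk, pow_succ (4 : ℝ) (k + 1)]
    ring
  obtain ⟨ε, hε'⟩ : ∃ ε : ℝ, ε = p.ε := ⟨_, rfl⟩
  have hεlo : 1 / (16 * E) ≤ ε := by
    have := hp.elo
    rw [pow_succ', ← hE, ← hε'] at this
    exact this
  have hεhi : ε ≤ 1 / E := by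
    have := hp.ehi
    rw [← hE, ← hε'] at this
    exact this
  have hε0 : 0 < ε := lt_of_lt_of_le (by positivity) hεlo
  obtain ⟨t, ht⟩ : ∃ t : ℝ, t = Ct / q := ⟨_, rfl⟩
  have ht0' : 0 < t := by
    rw [ht]
    positivity
  have hCt0 : 0 < Ct := by linarith
  have hp1 : 0 ≤ Ct / t0 := by positivity
  have hp2 : 0 ≤ 18 * CR * Ce := by positivity
  have htt0 : t ≤ t0 := by
    rw [ht, div_le_iff₀ hq0]
    have h2 : Ct / t0 ≤ q := by linarith
    rw [div_le_iff₀ ht0] at h2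
    linarith
  have ht1 : t ≤ 1 := by
    rw [ht, div_le_one hq0]
    linarith
  have hth : t * h = Ct / E := by
    rw [ht, hhe]
    field_simp
  obtain ⟨N, hN2, hNe, hNle⟩ := strip_N (K := p.K) (j := k + 1)
    (by have := hp.K; omega) (by omega)
  rw [← ha, ← hh'] at hNe
  have hak : 0 < ak k := by
    rw [ak]
    positivity
  obtain ⟨r1, r2⟩ := hRc
  obtain ⟨r3, r4⟩ := hRc'
  rw [← ha] at r3 r4 hmx
  have hcc : ‖c' - c‖ ≤ 3 / 2 * a := KidE_norm hmx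
  have hcc' : ‖c - c'‖ ≤ 3 / 2 * a := by
    rw [norm_sub_rev]
    exact hcc
  obtain ⟨F, hF⟩ : ∃ F : Jet, F = chart p.T c φ := ⟨_, rfl⟩
  obtain ⟨G, hG⟩ : ∃ G : Jet, G = chart p.T c' (φ + hh p.T c.im * (c'.re - c.re)) := ⟨_, rfl⟩
  have hT0 := hp.T0
  have hT1 := hp.T1
  have hFs : F.Sm := by
    rw [hF]
    exact chart_sm hT0 hT1 (by linarith) (by linarith) φ
  have hGs : G.Sm := by
    rw [hG]
    exact chart_sm hT0 hT1 (by linarith) (by linarith) _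
  have hFb : F.Bd (Metric.closedBall c' 1) Cj := by
    rw [hF]
    refine KidE_bd (hbd p.T φ c hT0 hT1 (by linarith) (by linarith)) ?_ hCj1
    intro y hy
    rw [mem_closedBall_iff_norm] at hy ⊢
    have h2 := norm_sub_le_norm_sub_add_norm_sub y c' c
    linarith
  have hGb : G.Bd (Metric.closedBall c' 1) Cj := by
    rw [hG]
    refine KidE_bd (hbd p.T _ c' hT0 hT1 (by linarith) (by linarith)) ?_ hCj1
    exact Metric.closedBall_subset_closedBall (by norm_num)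
  have hdiff : ∀ z, mx (z - c') ≤ 2 * a → ‖G.f1 z - F.f1 z‖ ≤ t ∧ ‖G.f2 z - F.f2 z‖ ≤ t := by
    intro z hz
    have h2 := KidE_norm hz
    have h3 := norm_sub_le_norm_sub_add_norm_sub z c' c
    have h4 := hdf p.T φ (5 * a) c c' z hT0 hT1 (by linarith) (by linarith) (by linarith)
      (by linarith) ha100 (by linarith) (by linarith) (by linarith)
    have h5 : Cd * (5 * a) ^ 2 = t := by
      rw [mul_pow, ha2, ht, hCt]
      field_simp
      norm_num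
    rw [h5, ← hF, ← hG] at h4
    exact h4
  obtain ⟨U, Bad1, Cor1, g1, g2, g3, g4, g5, g6⟩ := hring ε h t a N c' F G U0 hε0 hh0 htt0
    (by
      rw [hth]
      refine hεhi.trans ?_
      exact div_le_div_of_nonneg_right hCt1 hE0.le)
    (by
      rw [hth]
      have h2 : 16 * Ct * (1 / (16 * E)) ≤ Cj * ε :=
        mul_le_mul hCj2 hεlo (by positivity) (by linarith)
      refine le_trans (le_of_eq ?_) h2
      field_simp)
    (by
      rw [hhe, ht, div_le_div_iff₀ hE0 hq0]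
      nlinarith)
    hN2 hNe (by linarith) hFs hGs hFb hGb hdiff
    (by
      intro z hz
      rw [hG]
      refine u0 z ?_
      rw [hh4, ← ha]
      exact hz)
  obtain ⟨Cor1', hCor1'⟩ : ∃ s : Finset (ℂ × ℕ), s = Cor1.image (fun x => (x, k + 1)) := ⟨_, rfl⟩
  have hinj : Set.InjOn (fun x : ℂ => (x, k + 1)) Cor1 := by
    intro x _ y _ hxy
    exact (Prod.mk.injEq _ _ _ _ ▸ hxy).1
  have hsum : ∀ f : ℂ × ℕ → ℝ, ∑ x ∈ Cor1', f x = ∑ x ∈ Cor1, f (x, k + 1) := by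
    intro f
    rw [hCor1', Finset.sum_image hinj]
  have hcstle : ∀ z, ∑ x ∈ Cor0, en p z x ≤ ∑ x ∈ Cor0 ∪ Cor1', en p z x := by
    intro z
    exact Finset.sum_le_sum_of_subset_of_nonneg Finset.subset_union_left
      (fun x _ _ => KidE_en p z x)
  have hcstle1 : ∀ z, ∑ x ∈ Cor1, eh ε h z x ≤ ∑ x ∈ Cor0 ∪ Cor1', en p z x := by
    intro z
    have h2 : ∑ x ∈ Cor1, eh ε h z x = ∑ x ∈ Cor1', en p z x := by
      rw [hsum]
      refine Finset.sum_congr rfl (fun x _ => ?_)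
      rw [eh, en, hh', hε']
    rw [h2]
    exact Finset.sum_le_sum_of_subset_of_nonneg Finset.subset_union_right
      (fun x _ _ => KidE_en p z x)
  have hA0 := hp.A0
  have hAu := hp.Au
  have hCc := hp.Cc
  have hpC0 := hp.C0
  have hAu0 : 0 ≤ p.Au := by linarith
  refine ⟨U, Bad0 ∪ Bad1, Cor0 ∪ Cor1', ?_, ?_, ?_, ?_, ?_, ?_⟩
  · intro z hz
    rw [← hF]
    refine g1 z ?_
    rw [ha, hh']
    exact hz
  · intro z hz hfar
    have hz' : mx (z - c') ≤ a := by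
      rw [ha]
      exact hz
    have hfar0 : ∀ x ∈ Bad0, p.C0 * p.ε ≤ ‖z - x‖ := fun x hx =>
      hfar x (Finset.mem_union_left _ hx)
    have hfar1 : ∀ x ∈ Bad1, C0 * ε ≤ ‖z - x‖ := fun x hx => by
      have h2 := hfar x (Finset.mem_union_right _ hx)
      rw [← hε'] at h2
      refine le_trans ?_ h2
      exact mul_le_mul_of_nonneg_right (by linarith) hε0.le
    rcases g2 z hz' hfar1 with ⟨-, h2⟩ | ⟨h2, h3⟩
    · refine ok_congr (ok0 z hz hfar0) le_rfl ?_ ?_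
      · unfold cst
        have h3 := hcstle z
        exact mul_le_mul_of_nonneg_left (by linarith) (by linarith)
      · intro y hy
        rw [← hε'] at hy
        rw [h2 y hy, sub_self]
        exact LamE_zero _
    · -- near the sides
      have hz3 : ‖z - c'‖ ≤ 3 / 2 * a := KidE_norm hz'
      have h4 := norm_sub_le_norm_sub_add_norm_sub z c' c
      have hzc : ‖z - c‖ ≤ 3 * a := by linarith
      obtain ⟨n1, n2⟩ := hnr p.T φ c z hT0 hT1 (by linarith) (by linarith) (by linarith)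
      obtain ⟨δ, hδ⟩ : ∃ δ : ℝ, δ = Ce * (3 * a) ^ 2 := ⟨_, rfl⟩
      have hδ0 : 0 ≤ δ := by
        rw [hδ]
        positivity
      have hsq : ‖z - c‖ ^ 2 ≤ (3 * a) ^ 2 := pow_le_pow_left₀ (norm_nonneg _) hzc 2
      have hsq' : Ce * ‖z - c‖ ^ 2 ≤ δ := by
        rw [hδ]
        exact mul_le_mul_of_nonneg_left hsq (by linarith)
      have hδ' : δ = 9 / 4 * Ce / q := by
        rw [hδ, mul_pow, ha2]
        field_simp
        norm_num
      have hkm := kmin_side (p := p) (j := k + 1) (c := c') (z := z) hAu0 (by omega) (by omega)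
        hDya hz (by rw [← ha, ← hh']; exact h2)
      obtain ⟨s, hs⟩ : ∃ s : ℝ, s = (((k + 1 : ℕ) : ℝ) + 1) / 16 ^ (k + 1) := ⟨_, rfl⟩
      rw [← hs, ← hε'] at hkm
      have hs0 : 0 < s := by
        rw [hs]
        positivity
      have hs1 : 1 / q ^ 2 ≤ s := by
        rw [hs, hq16]
        refine div_le_div_of_nonneg_right ?_ (by positivity)
        have : (0 : ℝ) ≤ ((k + 1 : ℕ) : ℝ) := Nat.cast_nonneg _
        linarith
      have hthl := th_le hCt1 (k + 1) (by rw [← hq]; linarith)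
      rw [← hq, ← ht, mul_div_assoc, ← hs] at hthl
      have hδ2 : δ ^ 2 = 81 / 16 * Ce ^ 2 * (1 / q ^ 2) := by
        rw [hδ', div_pow, mul_pow]
        ring
      have hSg0 : 0 ≤ ∑ x ∈ Cor1, eh ε h z x := Finset.sum_nonneg (fun x _ => KidE_eh ε h z x)
      obtain ⟨m1, m2⟩ := KidE_num hC h1 hs1 hε0 hthl hδ2 hSg0 (a0 := a0) (by linarith) hA0 hAu
        hCc hs0 hkm
      have hth0 : 0 ≤ C * th t := mul_nonneg (by linarith) (KidE_th ht0' ht1)
      have h4CR : 2 * CR * δ ≤ 1 := by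
        rw [hδ', mul_div_assoc', div_le_one hq0]
        nlinarith
      have hok := near_ok (T := p.T) (u := exp (((φ + hh p.T c.im * (z.re - c.re) : ℝ) : ℂ) * I))
        (κ := kmin p z) (Complex.norm_exp_ofReal_mul_I _) h1 hth0 hε0 hδ0 h3
        (by rw [hF]; exact n1.trans hsq') (by rw [hF]; exact n2.trans hsq') m1 h4CR
      rw [hε', ← hp.cr] at hok
      refine ok_congr hok le_rfl ?_ ?_
      · rw [← hε']
        refine m2.trans ?_
        unfold cst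
        have h5 := hcstle1 z
        exact mul_le_mul_of_nonneg_left (by linarith) (by linarith)
      · intro y _
        rw [sub_self]
        exact LamE_zero _
  · -- number of bad points
    have h2 : ((Bad0 ∪ Bad1).card : ℝ) ≤ (Bad0.card : ℝ) + Bad1.card := by
      exact_mod_cast Finset.card_union_le _ _
    have h3 : h / ε ≤ 64 * 4 ^ k := by
      rw [div_le_iff₀ hε0, hhe]
      have h4 : 64 * 4 ^ k * (1 / (16 * E)) ≤ 64 * 4 ^ k * ε :=
        mul_le_mul_of_nonneg_left hεlo (by positivity)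
      refine le_trans (le_of_eq ?_) h4
      rw [hq, pow_succ]
      field_simp
      norm_num
    have h5 : (N : ℝ) ≤ 16 ^ p.K / 8 ^ k := by
      refine hNle.trans ?_
      refine div_le_div_of_nonneg_left (by positivity) (by positivity) ?_
      exact pow_le_pow_right₀ (by norm_num) (by omega)
    have h6 : C * ((N : ℝ) + h / ε) ≤ C * (16 ^ p.K / 8 ^ k + 64 * 4 ^ k) :=
      mul_le_mul_of_nonneg_left (by linarith) (by linarith)
    have h7 : 0 ≤ C * (16 ^ p.K / 8 ^ k) := by positivity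
    have h8 : 64 * C * (16 ^ p.K / 8 ^ k + 4 ^ k) =
        C * (16 ^ p.K / 8 ^ k + 64 * 4 ^ k) + 63 * (C * (16 ^ p.K / 8 ^ k)) := by ring
    rw [h8]
    linarith
  · -- the cores
    have h2 : ∑ x ∈ Cor0 ∪ Cor1', ((x.2 : ℝ) + 1) ≤
        ∑ x ∈ Cor0, ((x.2 : ℝ) + 1) + ∑ x ∈ Cor1', ((x.2 : ℝ) + 1) := by
      rw [← Finset.sum_union_inter]
      have : 0 ≤ ∑ x ∈ Cor0 ∩ Cor1', ((x.2 : ℝ) + 1) :=
        Finset.sum_nonneg (fun x _ => by positivity)
      linarith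
    have h3 : ∑ x ∈ Cor1', ((x.2 : ℝ) + 1) = (Cor1.card : ℝ) * ((k : ℝ) + 2) := by
      rw [hsum]
      have h4 : ∀ x ∈ Cor1, (((x, k + 1) : ℂ × ℕ).2 : ℝ) + 1 = (k : ℝ) + 2 := by
        intro x _
        push_cast
        ring
      rw [Finset.sum_congr rfl h4, Finset.sum_const, nsmul_eq_mul]
    have h5 : (N : ℝ) ≤ 16 ^ p.K / 8 ^ k := by
      refine hNle.trans ?_
      refine div_le_div_of_nonneg_left (by positivity) (by positivity) ?_
      exact pow_le_pow_right₀ (by norm_num) (by omega)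
    have h6 : (Cor1.card : ℝ) * ((k : ℝ) + 2) ≤ 4 * (16 ^ p.K / 8 ^ k) * ((k : ℝ) + 2) :=
      mul_le_mul_of_nonneg_right (by linarith) (by positivity)
    have h7 : 4 * (((k : ℝ) + 2) * (16 ^ p.K / 8 ^ k)) ≤
        64 * C * (((k : ℝ) + 2) * (16 ^ p.K / 8 ^ k)) :=
      mul_le_mul_of_nonneg_right (by linarith) (by positivity)
    have h8 : 64 * C * ((k : ℝ) + 2) * (16 ^ p.K / 8 ^ k) =
        64 * C * (((k : ℝ) + 2) * (16 ^ p.K / 8 ^ k)) := by ring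
    rw [h8]
    linarith
  · intro x hx
    rcases Finset.mem_union.1 hx with h2 | h2
    · exact pb0 x h2
    · rw [← ha]
      exact g5 x h2
  · intro x hx
    rcases Finset.mem_union.1 hx with h2 | h2
    · exact pc0 x h2
    · rw [hCor1'] at h2
      obtain ⟨y, hy, rfl⟩ := Finset.mem_image.1 h2
      rw [← ha]
      exact g6 y hy

end Pool.Agent.CAPV
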