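import Pool.Agent.Lib.MP_488b8a_co_V.CelB
import Pool.Agent.Lib.MP_488b8a_co_V.KidE
import Pool.Agent.Lib.MP_488b8a_co_V.Glu

/-! Project SO (MP_488b8a_co), module CelA: induction over the levels. -/

namespace Pool.Agent.CAPV

open Complex

private theorem CelA_gd {p : Prm} {CR a0 a0' : ℝ} {k1 k1' : ℕ} (h : p.Gd CR a0 k1)
    (ha : a0' ≤ a0) (hk : k1' ≤ k1) : p.Gd CR a0' k1' :=
  ⟨h.cr, h.T0, h.T1, h.elo, h.ehi, ha.trans h.A0, ha.trans h.Au, ha.trans h.C0,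
    ha.trans h.Cc, hk.trans h.k0, h.K⟩

private theorem CelA_mono {p : Prm} {k : ℕ} {c : ℂ} {φ B E B' E' : ℝ} (h : Cell p k c φ B E)
    (hB : B ≤ B') (hE : E ≤ E') : Cell p k c φ B' E' := by
  obtain ⟨U, Bad, Cor, h1, h2, h3, h4, h5, h6⟩ := h
  exact ⟨U, Bad, Cor, h1, h2, h3.trans hB, h4.trans hE, h5, h6⟩

private theorem CelA_ak (k : ℕ) : ak k = 2 * ak (k + 1) := by
  unfold ak
  rw [pow_succ (2 : ℝ) (k + 1)]
  field_simp

private theorem CelA_ak0 (k : ℕ) : 0 < ak k := by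
  unfold ak
  positivity

private theorem CelA_mx (c : ℂ) {k : ℕ} {s s' : ℝ} (hs : s = 1 ∨ s = -1)
    (hs' : s' = 1 ∨ s' = -1) :
    mx (c + (⟨s * ak (k + 1), s' * ak (k + 1)⟩ : ℂ) - c) ≤ ak (k + 1) := by
  rw [add_sub_cancel_left]
  have hsa : ∀ s : ℝ, s = 1 ∨ s = -1 → |s * ak (k + 1)| ≤ ak (k + 1) := by
    rintro s (rfl | rfl)
    · rw [one_mul, abs_of_pos (CelA_ak0 _)]
    · rw [neg_one_mul, abs_neg, abs_of_pos (CelA_ak0 _)]
  exact max_le (hsa s hs) (hsa s' hs')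

private theorem CelA_rg {c : ℂ} {k : ℕ} {s s' : ℝ} (h : Rg k c) (hs' : s' = 1 ∨ s' = -1) :
    Rg (k + 1) (c + (⟨s * ak (k + 1), s' * ak (k + 1)⟩ : ℂ)) := by
  obtain ⟨h1, h2⟩ := h
  rw [CelA_ak] at h1 h2
  have h0 := CelA_ak0 (k + 1)
  have e : (c + (⟨s * ak (k + 1), s' * ak (k + 1)⟩ : ℂ)).im = c.im + s' * ak (k + 1) := rfl
  unfold Rg
  rw [e]
  rcases hs' with rfl | rfl <;> constructor <;> linarith

private theorem CelA_dya {c : ℂ} {k : ℕ} {s s' : ℝ} (h : Dya k c) (hs : s = 1 ∨ s = -1)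
    (hs' : s' = 1 ∨ s' = -1) :
    Dya (k + 1) (c + (⟨s * ak (k + 1), s' * ak (k + 1)⟩ : ℂ)) := by
  have key : ∀ (i : ℤ) (s : ℝ), s = 1 ∨ s = -1 → ∃ i' : ℤ,
      ((i : ℝ) + 1 / 2) / 2 ^ k + s * ak (k + 1) = ((i' : ℝ) + 1 / 2) / 2 ^ (k + 1) := by
    intro i s hs
    rcases hs with rfl | rfl
    · refine ⟨2 * i + 1, ?_⟩
      unfold ak
      push_cast
      rw [pow_succ (2 : ℝ) (k + 1), pow_succ]
      field_simp
    · refine ⟨2 * i, ?_⟩
      unfold ak
      push_cast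
      rw [pow_succ (2 : ℝ) (k + 1), pow_succ]
      field_simp
      ring
  obtain ⟨i, j, rfl⟩ := h
  obtain ⟨i', hi⟩ := key i s hs
  obtain ⟨j', hj⟩ := key j s' hs'
  refine ⟨i', j', ?_⟩
  apply Complex.ext
  · exact hi
  · exact hj

theorem cell_all (CR : ℝ) (h1 : 1 ≤ CR) : ∃ (a0 Cn : ℝ) (k1 : ℕ), 1 ≤ a0 ∧ 1 ≤ Cn ∧ ∀ p : Prm,
    p.Gd CR a0 k1 → ∀ k : ℕ, p.k0 ≤ k → k ≤ p.K → ∀ (c : ℂ) (φ : ℝ), Dya k c → Rg k c →
      Cell p k c φ (Cn * (2 * (16 ^ p.K / 8 ^ k) + (16 ^ p.K - 16 ^ k) / 4 ^ k))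
        (4 * Cn * ((k : ℝ) + 3) * (16 ^ p.K / 8 ^ k)) := by
  obtain ⟨a1, k1, ha1, hb⟩ := cell_base CR h1
  obtain ⟨a2, Cn', k2, ha2, hCn', hkid⟩ := kid_ex CR h1
  refine ⟨max a1 a2, 4 * Cn', max (max k1 k2) 8, ha1.trans (le_max_left _ _), by linarith, ?_⟩
  intro p hp
  have hp1 : p.Gd CR a1 k1 := CelA_gd hp (le_max_left _ _)
    ((le_max_left _ _).trans (le_max_left _ _))
  have hp2 : p.Gd CR a2 k2 := CelA_gd hp (le_max_right _ _)
    ((le_max_right _ _).trans (le_max_left _ _))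
  have hk8 : 8 ≤ p.k0 := (le_max_right _ _).trans hp.k0
  have hAu : 0 ≤ p.Au := by linarith [hp1.Au]
  have hCc : 0 ≤ p.Cc := by linarith [hp1.Cc]
  have hε : 0 < p.ε := lt_of_lt_of_le (by positivity) hp.elo
  have main : ∀ n k : ℕ, k + n = p.K → p.k0 ≤ k → ∀ (c : ℂ) (φ : ℝ), Dya k c → Rg k c →
      Cell p k c φ (4 * Cn' * (2 * (16 ^ p.K / 8 ^ k) + (16 ^ p.K - 16 ^ k) / 4 ^ k))
        (4 * (4 * Cn') * ((k : ℝ) + 3) * (16 ^ p.K / 8 ^ k)) := by
    intro n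
    induction n with
    | zero =>
      intro k hkn _ c φ _ hr
      rw [add_zero] at hkn
      subst hkn
      refine CelA_mono (hb p hp1 c φ hr) ?_ ?_
      · rw [sub_self, zero_div, add_zero]
        positivity
      · positivity
    | succ n ih =>
      intro k hkn hk0 c φ hd hr
      have hkK : k < p.K := by omega
      have hk9 : 8 ≤ k := hk8.trans hk0
      obtain ⟨X, hX⟩ : ∃ X : ℝ, X = 16 ^ p.K / 8 ^ k := ⟨_, rfl⟩
      have hX0 : 0 < X := by
        rw [hX]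
        positivity
      have e8 : (16 : ℝ) ^ p.K / 8 ^ (k + 1) = X / 8 := by
        rw [hX, pow_succ]
        field_simp
      have e1000 : 1000 * p.ε ≤ hk p.K (k + 1) := by
        unfold hk
        have h3 : (1000 : ℝ) ≤ 4 ^ (k + 1) := by
          calc (1000 : ℝ) ≤ 4 ^ 9 := by norm_num
            _ ≤ 4 ^ (k + 1) := pow_le_pow_right₀ (by norm_num) (by omega)
        have h4 : 1000 * p.ε ≤ 1000 * (1 / 16 ^ p.K) :=
          mul_le_mul_of_nonneg_left hp.ehi (by norm_num)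
        refine h4.trans ?_
        rw [mul_one_div]
        exact div_le_div_of_nonneg_right h3 (by positivity)
      have e4 : 4 * hk p.K (k + 1) ≤ ak (k + 1) := by
        unfold hk ak
        have h3 : (4 : ℝ) ^ (k + 2) * 2 ^ (k + 2) ≤ 16 ^ p.K := by
          calc (4 : ℝ) ^ (k + 2) * 2 ^ (k + 2) = 8 ^ (k + 1) * 8 := by
                rw [← mul_pow]
                norm_num
                ring
            _ ≤ 8 ^ (k + 1) * 2 ^ (k + 1) := by
                refine mul_le_mul_of_nonneg_left ?_ (by positivity)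
                calc (8 : ℝ) = 2 ^ 3 := by norm_num
                  _ ≤ 2 ^ (k + 1) := pow_le_pow_right₀ (by norm_num) (by omega)
            _ = 16 ^ (k + 1) := by
                rw [← mul_pow]
                norm_num
            _ ≤ 16 ^ p.K := pow_le_pow_right₀ (by norm_num) (by omega)
        rw [show k + 1 + 1 = k + 2 from rfl, mul_div_assoc', div_le_div_iff₀ (by positivity)
          (by positivity), one_mul]
        refine le_trans (le_of_eq ?_) h3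
        rw [pow_succ (4 : ℝ) (k + 1)]
        ring
      have hkids := fun (s s' : ℝ) (hs : s = 1 ∨ s = -1) (hs' : s' = 1 ∨ s' = -1) =>
        hkid p hp2 k hk0 hkK c (c + (⟨s * ak (k + 1), s' * ak (k + 1)⟩ : ℂ)) φ _ _ hr
          (CelA_rg hr hs') (CelA_dya hd hs hs') (CelA_mx c hs hs')
          (ih (k + 1) (by omega) (by omega) _ _ (CelA_dya hd hs hs') (CelA_rg hr hs'))
      refine CelA_mono (glue4 hAu hCc hε e1000 e4 hkids) ?_ ?_
      · rw [e8, ← hX]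
        have e5 : ((16 : ℝ) ^ p.K - 16 ^ (k + 1)) / 4 ^ (k + 1) =
            (16 ^ p.K - 16 ^ k) / 4 ^ k / 4 - 15 / 4 * 4 ^ k := by
          have h3 : (16 : ℝ) ^ k = 4 ^ k * 4 ^ k := by
            rw [← mul_pow]
            norm_num
          rw [pow_succ, pow_succ, h3]
          field_simp
          ring
        rw [e5]
        have h3 : 0 ≤ Cn' * (4 : ℝ) ^ k := by positivity
        have h4 : (4 : ℝ) ^ k = 4 ^ k := rfl
        nlinarith
      · rw [e8, ← hX]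
        have h3 : 0 ≤ Cn' * X := by positivity
        have h4 : 0 ≤ (k : ℝ) * (Cn' * X) := by positivity
        push_cast
        nlinarith
  intro k hk0 hkK c φ hd hr
  exact main (p.K - k) k (by omega) hk0 c φ hd hr

end Pool.Agent.CAPV
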