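import Pool.Agent.Lib.MP_488b8a_co_V.ChD

/-! Project SO (MP_488b8a_co), module ChN: the charts are isometries up to the second order. -/

namespace Pool.Agent.CAPV

open Complex

private theorem ChN_A {T s v d m n b k : ℝ} (hT0 : 0 ≤ T) (hT1 : T ≤ 1)
    (hm2 : m ^ 2 = -s * (2 + T ^ 2 * s)) (hn2 : n ^ 2 = -(s + v) * (2 + T ^ 2 * (s + v)))
    (hm : 1 / 6 ≤ m) (hn : 1 / 6 ≤ n) (hmb : m * b = 1) (hb0 : 0 < b) (hb6 : b ≤ 6)
    (hk : k = 1 + T ^ 2 * s) (hk1 : |k| ≤ 1) (hv : |v| ≤ d) (hd : d ≤ 1 / 100) :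
    |k * v * b| ≤ 6 * d ∧ |n - (m - k * v * b)| ≤ 222 * d ^ 2 := by
  have hd0 : 0 ≤ d := (abs_nonneg v).trans hv
  have h1 : |k * v * b| ≤ 6 * d := by
    rw [abs_mul, abs_mul, abs_of_pos hb0]
    calc |k| * |v| * b ≤ 1 * d * 6 := by gcongr
      _ = 6 * d := by ring
  refine ⟨h1, ?_⟩
  have h2 := abs_le.1 h1
  have h3 : (n - (m - k * v * b)) * (n + (m - k * v * b)) = -((k ^ 2 * b ^ 2 + T ^ 2) * v ^ 2) := by
    have : n ^ 2 - m ^ 2 = -2 * k * v - T ^ 2 * v ^ 2 := by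
      rw [hn2, hm2, hk]
      ring
    have h4 : 2 * (k * v) * (m * b) = 2 * (k * v) := by rw [hmb, mul_one]
    linear_combination this + h4
  have h5 : |n - (m - k * v * b)| * (n + (m - k * v * b)) = (k ^ 2 * b ^ 2 + T ^ 2) * v ^ 2 := by
    have h6 : 0 ≤ n + (m - k * v * b) := by linarith [h2.2]
    rw [← abs_of_nonneg h6, ← abs_mul, h3, abs_neg, abs_of_nonneg (by positivity)]
  have h7 : (k ^ 2 * b ^ 2 + T ^ 2) * v ^ 2 ≤ 37 * d ^ 2 := by
    have e1 : k ^ 2 ≤ 1 := by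
      rw [← sq_abs]
      nlinarith [abs_nonneg k]
    have e2 : b ^ 2 ≤ 36 := by nlinarith
    have e3 : T ^ 2 ≤ 1 := by nlinarith
    have e4 : v ^ 2 ≤ d ^ 2 := by
      rw [← sq_abs]
      exact pow_le_pow_left₀ (abs_nonneg v) hv 2
    calc (k ^ 2 * b ^ 2 + T ^ 2) * v ^ 2 ≤ (1 * 36 + 1) * d ^ 2 := by gcongr
      _ = 37 * d ^ 2 := by ring
  have h8 : 1 / 6 ≤ n + (m - k * v * b) := by linarith [h2.2]
  have h9 : |n - (m - k * v * b)| * (1 / 6) ≤ |n - (m - k * v * b)| * (n + (m - k * v * b)) :=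
    mul_le_mul_of_nonneg_left h8 (abs_nonneg _)
  linarith

/-- the remainders of the shears -/
private theorem ChN_B {α β d : ℝ} (hα : |α| ≤ d / 2) (hβ : |β| ≤ 18 * d) (hd : d ≤ 1 / 100) :
    |-(α + β) ^ 2 - 2 * (α + β) * (α - β) + 2 * (α + β) ^ 3| ≤ 1200 * d ^ 2 ∧
      |(α + β) ^ 2 - 2 * (α + β) * (α - β) + 2 * (α + β) ^ 3| ≤ 1200 * d ^ 2 := by
  have hd0 : 0 ≤ d := by
    have := abs_nonneg α
    linarith
  have h1 : |α + β| ≤ 37 / 2 * d := (abs_add_le _ _).trans (by linarith)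
  have h2 : |α - β| ≤ 37 / 2 * d := (abs_sub _ _).trans (by linarith)
  have h3 : |(α + β) ^ 2| ≤ 343 * d ^ 2 := by
    rw [abs_pow]
    calc |α + β| ^ 2 ≤ (37 / 2 * d) ^ 2 := pow_le_pow_left₀ (abs_nonneg _) h1 2
      _ ≤ 343 * d ^ 2 := by nlinarith [sq_nonneg d]
  have h4 : |2 * (α + β) * (α - β)| ≤ 686 * d ^ 2 := by
    rw [abs_mul, abs_mul, abs_two]
    calc 2 * |α + β| * |α - β| ≤ 2 * (37 / 2 * d) * (37 / 2 * d) := by gcongr
      _ ≤ 686 * d ^ 2 := by nlinarith [sq_nonneg d]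
  have h5 : |2 * (α + β) ^ 3| ≤ 127 * d ^ 2 := by
    rw [abs_mul, abs_two, abs_pow]
    calc 2 * |α + β| ^ 3 ≤ 2 * (37 / 2 * d) ^ 3 := by gcongr
      _ ≤ 127 * d ^ 2 := by
        have : d ^ 3 ≤ 1 / 100 * d ^ 2 := by
          have := mul_le_mul_of_nonneg_right hd (sq_nonneg d)
          calc d ^ 3 = d * d ^ 2 := by ring
            _ ≤ _ := this
        nlinarith [sq_nonneg d]
  rw [abs_le] at h3 h4 h5
  constructor <;> rw [abs_le] <;> constructor <;> nlinarith [sq_nonneg d]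

private theorem ChN_shp (a p q : ℝ) : shp a p q = ((1 - 4 * a * q : ℝ) : ℂ) +
    ((4 * a * p : ℝ) : ℂ) * I + ((-(2 * a * p + 2 * a * q) ^ 2 -
      2 * (2 * a * p + 2 * a * q) * (2 * a * p - 2 * a * q) +
      2 * (2 * a * p + 2 * a * q) ^ 3 : ℝ) : ℂ) * (1 + I) := by
  apply Complex.ext
  · simp only [shp, add_re, mul_re, ofReal_re, ofReal_im, I_re, I_im, one_re, one_im, add_im]
    ring
  · simp only [shp, add_re, mul_im, ofReal_re, ofReal_im, I_re, I_im, one_re, one_im, add_im]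
    ring

private theorem ChN_shq (a p q : ℝ) : shq a p q = -((4 * a * p : ℝ) : ℂ) +
    ((1 + 4 * a * q : ℝ) : ℂ) * I + (((2 * a * p + 2 * a * q) ^ 2 -
      2 * (2 * a * p + 2 * a * q) * (2 * a * p - 2 * a * q) +
      2 * (2 * a * p + 2 * a * q) ^ 3 : ℝ) : ℂ) * (1 + I) := by
  apply Complex.ext
  · simp only [shq, add_re, mul_re, ofReal_re, ofReal_im, I_re, I_im, one_re, one_im, add_im,
      neg_re]
    ring
  · simp only [shq, add_re, mul_im, ofReal_re, ofReal_im, I_re, I_im, one_re, one_im, add_im,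
      neg_im]
    ring

private theorem ChN_one : ‖(1 + I : ℂ)‖ ≤ 2 := by
  refine (norm_add_le _ _).trans ?_
  rw [norm_one, norm_I]
  norm_num

theorem chart_near : ∃ C : ℝ, 1 ≤ C ∧ ∀ (T φ : ℝ) (c z : ℂ), 0 ≤ T → T ≤ 1 →
    -(102 / 100) ≤ c.im → c.im ≤ -(1 / 20) → ‖z - c‖ ≤ 1 / 100 →
    ‖(chart T c φ).f1 z - (mm T z.im : ℂ) * exp (((φ + hh T c.im * (z.re - c.re) : ℝ) : ℂ) * I)‖ ≤
        C * ‖z - c‖ ^ 2 ∧
      ‖(chart T c φ).f2 z -
          I * exp (((φ + hh T c.im * (z.re - c.re) : ℝ) : ℂ) * I) / (mm T z.im : ℂ)‖ ≤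
        C * ‖z - c‖ ^ 2 := by
  refine ⟨100000, by norm_num, fun T φ c z hT0 hT1 hc1 hc2 hd => ?_⟩
  set d := ‖z - c‖ with hddef
  have hd0 : 0 ≤ d := norm_nonneg _
  set x := z.re - c.re with hx
  set v := z.im - c.im with hv
  have hxd : |x| ≤ d := by
    have := abs_re_le_norm (z - c)
    rwa [sub_re] at this
  have hvd : |v| ≤ d := by
    have := abs_im_le_norm (z - c)
    rwa [sub_im] at this
  have hv2 := abs_le.1 hvd
  obtain ⟨hm2, hm, hm'⟩ := mm_range hT0 hT1 (s := c.im) (by linarith) (by linarith)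
  obtain ⟨hn2, hn, hn'⟩ := mm_range hT0 hT1 (s := z.im) (by linarith) (by linarith)
  set m := mm T c.im with hmdef
  set n := mm T z.im with hndef
  set k := hh T c.im with hkdef
  have hk : k = 1 + T ^ 2 * c.im := rfl
  have hk1 : |k| ≤ 1 := by
    have e1 : T ^ 2 ≤ 1 := pow_le_one₀ hT0 hT1
    have e2 : 0 ≤ T ^ 2 := sq_nonneg T
    have e3 := mul_le_mul_of_nonneg_left hc1 e2
    have e4 := mul_le_mul_of_nonneg_left hc2 e2
    rw [hk, abs_le]
    constructor <;> linarith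
  set b := m⁻¹ with hb
  have hm0 : 0 < m := by linarith
  have hn0 : 0 < n := by linarith
  have hmb : m * b = 1 := mul_inv_cancel₀ hm0.ne'
  have hb0 : 0 < b := inv_pos.2 hm0
  have hb6 : b ≤ 6 := by
    have h := mul_le_mul_of_nonneg_right hm hb0.le
    rw [hmb] at h
    linarith
  set n' := n⁻¹ with hn'def
  have hnn : n * n' = 1 := mul_inv_cancel₀ hn0.ne'
  have hn'0 : 0 < n' := inv_pos.2 hn0
  have hn'6 : n' ≤ 6 := by
    have h := mul_le_mul_of_nonneg_right hn hn'0.le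
    rw [hnn] at h
    linarith
  have hzim : z.im = c.im + v := by rw [hv]; ring
  rw [hzim] at hn2
  obtain ⟨hA1, hA2⟩ := ChN_A hT0 hT1 hm2 hn2 hm hn hmb hb0 hb6 hk hk1 hvd hd
  -- the parameters
  set u := k * v * b ^ 2 with hu
  have hu36 : |u| ≤ 36 * d := by
    rw [hu, abs_mul, abs_mul, abs_of_pos (pow_pos hb0 2)]
    calc |k| * |v| * b ^ 2 ≤ 1 * d * 6 ^ 2 := by gcongr
      _ = 36 * d := by ring
  have hkx : |k * x| ≤ d := by
    rw [abs_mul]
    calc |k| * |x| ≤ 1 * d := by gcongr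
      _ = d := one_mul d
  have hmu : m * u = k * v * b := by
    rw [hu]
    linear_combination (k * v * b) * hmb
  obtain ⟨hB1, hB2⟩ := ChN_B (α := k * x / 2) (β := u / 2) (d := d)
    (by rw [abs_div, abs_two]; linarith) (by rw [abs_div, abs_two]; linarith) hd
  set R1 := -(k * x / 2 + u / 2) ^ 2 - 2 * (k * x / 2 + u / 2) * (k * x / 2 - u / 2) +
    2 * (k * x / 2 + u / 2) ^ 3 with hR1
  set R2 := (k * x / 2 + u / 2) ^ 2 - 2 * (k * x / 2 + u / 2) * (k * x / 2 - u / 2) +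
    2 * (k * x / 2 + u / 2) ^ 3 with hR2
  have ep : 2 * (k / m / 4) * (m * x) = k * x / 2 := by
    field_simp
    ring
  have eq : 2 * (k / m / 4) * (v / m) = u / 2 := by
    rw [hu, hb]
    field_simp
    ring
  have ep4 : 4 * (k / m / 4) * (m * x) = k * x := by
    linear_combination 2 * ep
  have eq4 : 4 * (k / m / 4) * (v / m) = u := by
    linear_combination 2 * eq
  have hshp : shp (k / m / 4) (m * x) (v / m) = ((1 - u : ℝ) : ℂ) + ((k * x : ℝ) : ℂ) * I +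
      (R1 : ℂ) * (1 + I) := by
    rw [ChN_shp, ep, eq, ep4, eq4]
  have hshq : shq (k / m / 4) (m * x) (v / m) = -((k * x : ℝ) : ℂ) + ((1 + u : ℝ) : ℂ) * I +
      (R2 : ℂ) * (1 + I) := by
    rw [ChN_shq, ep, eq, ep4, eq4]
  -- the exponential
  set Ep := exp ((φ : ℂ) * I) with hEp
  set Ex := exp (((k * x : ℝ) : ℂ) * I) with hEx
  have hEpn : ‖Ep‖ = 1 := norm_exp_ofReal_mul_I φ
  have hexp : exp (((φ + k * x : ℝ) : ℂ) * I) = Ep * Ex := by
    rw [hEp, hEx, ← exp_add]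
    congr 1
    push_cast
    ring
  have hExn : ‖Ex - 1 - ((k * x : ℝ) : ℂ) * I‖ ≤ d ^ 2 := by
    have h1 : ‖((k * x : ℝ) : ℂ) * I‖ = |k * x| := by
      rw [norm_mul, norm_I, mul_one, norm_real, Real.norm_eq_abs]
    have h2 := norm_exp_sub_one_sub_id_le (x := ((k * x : ℝ) : ℂ) * I) (by rw [h1]; linarith)
    rw [h1] at h2
    exact h2.trans (pow_le_pow_left₀ (abs_nonneg _) hkx 2)
  set E2 := Ex - 1 - ((k * x : ℝ) : ℂ) * I with hE2
  have hExeq : Ex = 1 + ((k * x : ℝ) : ℂ) * I + E2 := by rw [hE2]; ring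
  have hd2 : d ^ 2 ≤ d / 100 := by
    have h := mul_le_mul_of_nonneg_left hd hd0
    rw [pow_two]
    linarith
  have hmn : |m - n| ≤ 9 * d := by
    have e1 : m - n = k * v * b - (n - (m - k * v * b)) := by ring
    rw [e1]
    refine (abs_sub _ _).trans ?_
    linarith
  constructor
  · -- the first derivative
    have e1 : (chart T c φ).f1 z = Ep * (m : ℂ) * shp (k / m / 4) (m * x) (v / m) := rfl
    have e2 : (chart T c φ).f1 z - (n : ℂ) * exp (((φ + k * x : ℝ) : ℂ) * I) =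
        Ep * (((m - k * v * b - n : ℝ) : ℂ) + (((m - n) * (k * x) : ℝ) : ℂ) * I +
          ((m * R1 : ℝ) : ℂ) * (1 + I) - (n : ℂ) * E2) := by
      rw [e1, hshp, hexp, hExeq, ← hmu]
      push_cast
      ring
    rw [e2, norm_mul, hEpn, one_mul]
    have n1 : ‖((m - k * v * b - n : ℝ) : ℂ)‖ ≤ 222 * d ^ 2 := by
      rw [norm_real, Real.norm_eq_abs, abs_sub_comm]
      exact hA2
    have n2 : ‖(((m - n) * (k * x) : ℝ) : ℂ) * I‖ ≤ 9 * d ^ 2 := by
      rw [norm_mul, norm_I, mul_one, norm_real, Real.norm_eq_abs, abs_mul]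
      calc |m - n| * |k * x| ≤ 9 * d * d := by gcongr
        _ = 9 * d ^ 2 := by ring
    have n3 : ‖((m * R1 : ℝ) : ℂ) * (1 + I)‖ ≤ 3600 * d ^ 2 := by
      rw [norm_mul, norm_real, Real.norm_eq_abs, abs_mul, abs_of_pos hm0]
      calc m * |R1| * ‖(1 + I : ℂ)‖ ≤ 3 / 2 * (1200 * d ^ 2) * 2 := by
            gcongr
            exact ChN_one
        _ = 3600 * d ^ 2 := by ring
    have n4 : ‖(n : ℂ) * E2‖ ≤ 3 / 2 * d ^ 2 := by
      rw [norm_mul, norm_real, Real.norm_eq_abs, abs_of_pos hn0]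
      gcongr
    calc ‖((m - k * v * b - n : ℝ) : ℂ) + (((m - n) * (k * x) : ℝ) : ℂ) * I +
          ((m * R1 : ℝ) : ℂ) * (1 + I) - (n : ℂ) * E2‖ ≤
          ‖((m - k * v * b - n : ℝ) : ℂ)‖ + ‖(((m - n) * (k * x) : ℝ) : ℂ) * I‖ +
          ‖((m * R1 : ℝ) : ℂ) * (1 + I)‖ + ‖(n : ℂ) * E2‖ := by
            refine (norm_sub_le _ _).trans ?_
            gcongr
            refine (norm_add_le _ _).trans ?_
            gcongr
            exact norm_add_le _ _
      _ ≤ 222 * d ^ 2 + 9 * d ^ 2 + 3600 * d ^ 2 + 3 / 2 * d ^ 2 := by gcongr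
      _ ≤ 100000 * d ^ 2 := by linarith [sq_nonneg d]
  · -- the second derivative
    have e1 : (chart T c φ).f2 z = Ep / (m : ℂ) * shq (k / m / 4) (m * x) (v / m) := rfl
    have hbC : (m : ℂ)⁻¹ = (b : ℂ) := by rw [hb, ofReal_inv]
    have hnC : (n : ℂ)⁻¹ = (n' : ℂ) := by rw [hn'def, ofReal_inv]
    have e2 : (chart T c φ).f2 z - I * exp (((φ + k * x : ℝ) : ℂ) * I) / (n : ℂ) =
        Ep * (((b * (1 + u) - n' : ℝ) : ℂ) * I - (((b - n') * (k * x) : ℝ) : ℂ) +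
          ((b * R2 : ℝ) : ℂ) * (1 + I) - I * ((n' : ℂ) * E2)) := by
      rw [e1, hshq, hexp, hExeq, div_eq_mul_inv, div_eq_mul_inv, hbC, hnC]
      push_cast
      linear_combination (-(Ep * (n' : ℂ) * (k : ℂ) * (x : ℂ))) * I_mul_I
    rw [e2, norm_mul, hEpn, one_mul]
    have hmain : |b * (1 + u) - n'| ≤ 81000 * d ^ 2 := by
      have g1 : b * (1 + u) - n' = b * n' * ((n - (m - k * v * b)) * (1 + u) - m * u ^ 2) := by
        have g2 : (n - (m - k * v * b)) * (1 + u) - m * u ^ 2 = n * (1 + u) - m := by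
          rw [← hmu]
          ring
        rw [g2]
        linear_combination (-(b * (1 + u))) * hnn + n' * hmb
      have g3 : |b * n'| ≤ 36 := by
        rw [abs_of_pos (mul_pos hb0 hn'0)]
        calc b * n' ≤ 6 * 6 := by gcongr
          _ = 36 := by norm_num
      have g4 : |(n - (m - k * v * b)) * (1 + u)| ≤ 303 * d ^ 2 := by
        rw [abs_mul]
        have g5 : |1 + u| ≤ 136 / 100 := by
          refine (abs_add_le _ _).trans ?_
          rw [abs_one]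
          linarith
        calc |n - (m - k * v * b)| * |1 + u| ≤ 222 * d ^ 2 * (136 / 100) := by gcongr
          _ ≤ 303 * d ^ 2 := by linarith [sq_nonneg d]
      have g6 : |m * u ^ 2| ≤ 1944 * d ^ 2 := by
        rw [abs_mul, abs_of_pos hm0, abs_pow]
        calc m * |u| ^ 2 ≤ 3 / 2 * (36 * d) ^ 2 := by gcongr
          _ = 1944 * d ^ 2 := by ring
      rw [g1, abs_mul]
      have g7 : |(n - (m - k * v * b)) * (1 + u) - m * u ^ 2| ≤ 2247 * d ^ 2 :=
        (abs_sub _ _).trans (by linarith)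
      calc |b * n'| * |(n - (m - k * v * b)) * (1 + u) - m * u ^ 2| ≤ 36 * (2247 * d ^ 2) := by
            gcongr
        _ ≤ 81000 * d ^ 2 := by linarith [sq_nonneg d]
    have n1 : ‖((b * (1 + u) - n' : ℝ) : ℂ) * I‖ ≤ 81000 * d ^ 2 := by
      rw [norm_mul, norm_I, mul_one, norm_real, Real.norm_eq_abs]
      exact hmain
    have n2 : ‖(((b - n') * (k * x) : ℝ) : ℂ)‖ ≤ 324 * d ^ 2 := by
      rw [norm_real, Real.norm_eq_abs, abs_mul]
      have g1 : b - n' = b * n' * (n - m) := by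
        linear_combination (-b) * hnn + n' * hmb
      have g2 : |b - n'| ≤ 324 * d := by
        rw [g1, abs_mul, abs_of_pos (mul_pos hb0 hn'0), abs_sub_comm]
        calc b * n' * |m - n| ≤ 6 * 6 * (9 * d) := by gcongr
          _ = 324 * d := by ring
      calc |b - n'| * |k * x| ≤ 324 * d * d := by gcongr
        _ = 324 * d ^ 2 := by ring
    have n3 : ‖((b * R2 : ℝ) : ℂ) * (1 + I)‖ ≤ 14400 * d ^ 2 := by
      rw [norm_mul, norm_real, Real.norm_eq_abs, abs_mul, abs_of_pos hb0]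
      calc b * |R2| * ‖(1 + I : ℂ)‖ ≤ 6 * (1200 * d ^ 2) * 2 := by
            gcongr
            exact ChN_one
        _ = 14400 * d ^ 2 := by ring
    have n4 : ‖I * ((n' : ℂ) * E2)‖ ≤ 6 * d ^ 2 := by
      rw [norm_mul, norm_I, one_mul, norm_mul, norm_real, Real.norm_eq_abs, abs_of_pos hn'0]
      gcongr
    calc ‖((b * (1 + u) - n' : ℝ) : ℂ) * I - (((b - n') * (k * x) : ℝ) : ℂ) +
          ((b * R2 : ℝ) : ℂ) * (1 + I) - I * ((n' : ℂ) * E2)‖ ≤
          ‖((b * (1 + u) - n' : ℝ) : ℂ) * I‖ + ‖(((b - n') * (k * x) : ℝ) : ℂ)‖ +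
          ‖((b * R2 : ℝ) : ℂ) * (1 + I)‖ + ‖I * ((n' : ℂ) * E2)‖ := by
            refine (norm_sub_le _ _).trans ?_
            gcongr
            refine (norm_add_le _ _).trans ?_
            gcongr
            exact norm_sub_le _ _
      _ ≤ 81000 * d ^ 2 + 324 * d ^ 2 + 14400 * d ^ 2 + 6 * d ^ 2 := by gcongr
      _ ≤ 100000 * d ^ 2 := by linarith [sq_nonneg d]

end Pool.Agent.CAPV
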