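import Pool.Agent.Lib.MP_488b8a_co_V.CDef
import Pool.Agent.Lib.MP_488b8a_co_V.ChB
import Pool.Agent.Lib.MP_488b8a_co_V.ChN
import Pool.Agent.Lib.MP_488b8a_co_V.LamL

/-! Project SO (MP_488b8a_co), module CelB: the cells of the last level. -/

namespace Pool.Agent.CAPV

open Complex

private theorem CelB_lip {f f1 f2 : ℂ → ℂ} {B : Set ℂ} (hB : Convex ℝ B) {C : ℝ}
    (hf : ∀ z, HasFDerivAt f (fr (f1 z) (f2 z)) z) (h1 : ∀ z ∈ B, ‖f1 z‖ ≤ C)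
    (h2 : ∀ z ∈ B, ‖f2 z‖ ≤ C) {x y : ℂ} (hx : x ∈ B) (hy : y ∈ B) :
    ‖f x - f y‖ ≤ 2 * C * ‖x - y‖ :=
  hB.norm_image_sub_le_of_norm_hasFDerivWithin_le (fun z _ => (hf z).hasFDerivWithinAt)
    (fun z hz => (fr_norm_le _ _).trans (by linarith [h1 z hz, h2 z hz])) hy hx

private theorem CelB_ok {T ε CR κ e Cn Cb X : ℝ} {c z : ℂ} {φ : ℝ} (hT0 : 0 ≤ T) (hT1 : T ≤ 1)
    (hc1 : -(102 / 100) ≤ c.im) (hc2 : c.im ≤ -(1 / 20)) (hε : 0 < ε) (hε1 : 100 * ε ≤ 1)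
    (hCR : 1 ≤ CR) (hCn : 1 ≤ Cn) (hCb : 1 ≤ Cb)
    (hbd : (chart T c φ).Bd (Metric.closedBall c 2) Cb) (hd : ‖z - c‖ ≤ 1 / 100)
    (hn1 : ‖(chart T c φ).f1 z -
      (mm T z.im : ℂ) * exp (((φ + hh T c.im * (z.re - c.re) : ℝ) : ℂ) * I)‖ ≤ Cn * ‖z - c‖ ^ 2)
    (hn2 : ‖(chart T c φ).f2 z -
      I * exp (((φ + hh T c.im * (z.re - c.re) : ℝ) : ℂ) * I) / (mm T z.im : ℂ)‖ ≤
      Cn * ‖z - c‖ ^ 2) (hX : ‖z - c‖ ^ 2 ≤ 2 * X) (hX2 : X ^ 2 ≤ ε)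
    (hκ : 2 * (CR * (4 * Cn ^ 2 + 1 + 2 * Cb)) * ε ≤ κ) (he : 4 * Cn ^ 2 * ε ≤ e)
    (h3 : CR * (Cn * (2 * X)) ≤ 1) (h4 : CR * (ε * (2 * Cb)) ≤ 1) :
    Ok T ε CR κ e (chart T c φ).f z := by
  have hsm := chart_sm hT0 hT1 (by linarith : -(103 / 100) ≤ c.im)
    (by linarith : c.im ≤ -(1 / 25)) φ
  have hsub : Metric.closedBall z (100 * ε) ⊆ Metric.closedBall c 2 := by
    intro y hy
    rw [mem_closedBall_iff_norm] at hy ⊢
    have h5 : y - c = (y - z) + (z - c) := by ring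
    rw [h5]
    exact (norm_add_le _ _).trans (by linarith)
  have hcv := convex_closedBall c (2 : ℝ)
  have hβ : (Cn * ‖z - c‖ ^ 2) ^ 2 ≤ 4 * Cn ^ 2 * ε := by
    have h5 : (‖z - c‖ ^ 2) ^ 2 ≤ (2 * X) ^ 2 := pow_le_pow_left₀ (by positivity) hX 2
    have h6 : (Cn * ‖z - c‖ ^ 2) ^ 2 = Cn ^ 2 * (‖z - c‖ ^ 2) ^ 2 := by ring
    rw [h6]
    calc Cn ^ 2 * (‖z - c‖ ^ 2) ^ 2 ≤ Cn ^ 2 * (4 * ε) :=
          mul_le_mul_of_nonneg_left (by linarith) (sq_nonneg _)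
      _ = 4 * Cn ^ 2 * ε := by ring
  refine ⟨(chart T c φ).f, (chart T c φ).f1, (chart T c φ).f2,
    exp (((φ + hh T c.im * (z.re - c.re) : ℝ) : ℂ) * I), Cn * ‖z - c‖ ^ 2, 2 * Cb,
    Complex.norm_exp_ofReal_mul_I _, by positivity, by positivity,
    ⟨fun y _ => hsm.d0 y, fun y _ => ?_, fun y hy y' hy' => ?_, fun y hy y' hy' => ?_⟩,
    hn1, hn2, ?_, ?_, ?_, h4⟩
  · rw [sub_self]
    exact LamE_zero ε
  · exact CelB_lip hcv hsm.d1 hbd.b11 hbd.b12 (hsub hy) (hsub hy')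
  · exact CelB_lip hcv hsm.d2 hbd.b12 hbd.b22 (hsub hy) (hsub hy')
  · rw [hsm.det z]
    have h5 : CR * ((Cn * ‖z - c‖ ^ 2) ^ 2 + ε + ε * (2 * Cb)) ≤
        CR * (4 * Cn ^ 2 + 1 + 2 * Cb) * ε := by
      rw [mul_assoc]
      refine mul_le_mul_of_nonneg_left ?_ (by linarith)
      linarith
    have h6 : 0 ≤ CR * (4 * Cn ^ 2 + 1 + 2 * Cb) * ε := by positivity
    linarith
  · rw [hsm.det z]
    linarith
  · refine le_trans (mul_le_mul_of_nonneg_left ?_ (by linarith)) h3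
    exact mul_le_mul_of_nonneg_left hX (by linarith)

theorem cell_base (CR : ℝ) (h1 : 1 ≤ CR) : ∃ (a0 : ℝ) (k1 : ℕ), 1 ≤ a0 ∧ ∀ p : Prm,
    p.Gd CR a0 k1 → ∀ (c : ℂ) (φ : ℝ), Rg p.K c → Cell p p.K c φ 0 0 := by
  obtain ⟨Cb, hCb, hbd⟩ := chart_bd
  obtain ⟨Cn, hCn, hnear⟩ := chart_near
  have hp0 : 0 ≤ CR * (4 * Cn ^ 2 + 1 + 2 * Cb) := by positivity
  refine ⟨2 * (CR * (4 * Cn ^ 2 + 1 + 2 * Cb)) + 4 * Cn ^ 2 + 1,
    max 7 ⌈2 * CR * (Cn + Cb)⌉₊, by linarith [sq_nonneg Cn], fun p hp c φ hc => ?_⟩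
  have hK7 : 7 ≤ p.K := (le_max_left _ _).trans (hp.k0.trans hp.K)
  have hKC : 2 * CR * (Cn + Cb) ≤ 4 ^ p.K := by
    have h2 : ⌈2 * CR * (Cn + Cb)⌉₊ ≤ p.K := (le_max_right _ _).trans (hp.k0.trans hp.K)
    have h3 : 2 * CR * (Cn + Cb) ≤ (p.K : ℝ) := (Nat.le_ceil _).trans (by exact_mod_cast h2)
    have h4 : (p.K : ℝ) ≤ 4 ^ p.K := by
      have h5 : p.K < 4 ^ p.K := Nat.lt_pow_self (by norm_num)
      exact_mod_cast h5.le
    linarith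
  have h16 : (16 : ℝ) ^ p.K = 4 ^ p.K * 4 ^ p.K := by
    rw [← mul_pow]
    norm_num
  have h4p : (1 : ℝ) ≤ 4 ^ p.K := one_le_pow₀ (by norm_num)
  have h47 : (4 : ℝ) ^ 7 ≤ 4 ^ p.K := pow_le_pow_right₀ (by norm_num) hK7
  have hε : 0 < p.ε := lt_of_lt_of_le (by positivity) hp.elo
  have hε2 : p.ε * (4 ^ p.K * 4 ^ p.K) ≤ 1 := by
    have h2 := hp.ehi
    rw [h16, le_div_iff₀ (by positivity)] at h2
    exact h2
  have hak : 0 < ak p.K := by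
    unfold ak
    positivity
  obtain ⟨hc1, hc2⟩ := hc
  have hc1' : -(102 / 100) ≤ c.im := by linarith
  have hc2' : c.im ≤ -(1 / 20) := by linarith
  have hT0 := hp.T0
  have hT1 := hp.T1
  have hA0 : 0 ≤ p.Au := by linarith [hp.Au, sq_nonneg Cn]
  have hakX : ak p.K ^ 2 = 1 / 4 ^ (p.K + 1) := by
    unfold ak
    rw [div_pow, one_pow, ← pow_mul, mul_comm (p.K + 1) 2, pow_mul]
    norm_num
  have hX0 : ak p.K ^ 2 * (4 * 4 ^ p.K) = 1 := by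
    rw [hakX, pow_succ]
    field_simp
  have hak8 : ak p.K ≤ 1 / 256 := by
    unfold ak
    have h2 : (2 : ℝ) ^ 8 ≤ 2 ^ (p.K + 1) := pow_le_pow_right₀ (by norm_num) (by omega)
    rw [div_le_div_iff₀ (by positivity) (by norm_num)]
    norm_num at h2
    linarith
  refine ⟨(chart p.T c φ).f, ∅, ∅, fun z _ => rfl, fun z hz _ => ?_, by simp, by simp,
    by simp, by simp⟩
  have hre : |(z - c).re| ≤ ak p.K := (le_max_left _ _).trans hz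
  have him : |(z - c).im| ≤ ak p.K := (le_max_right _ _).trans hz
  have hX : ‖z - c‖ ^ 2 ≤ 2 * ak p.K ^ 2 := by
    rw [Complex.sq_norm, Complex.normSq_apply]
    have h2 : (z - c).re * (z - c).re ≤ ak p.K ^ 2 := by
      rw [← sq, ← sq_abs]
      exact pow_le_pow_left₀ (abs_nonneg _) hre 2
    have h3 : (z - c).im * (z - c).im ≤ ak p.K ^ 2 := by
      rw [← sq, ← sq_abs]
      exact pow_le_pow_left₀ (abs_nonneg _) him 2
    linarith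
  have hd : ‖z - c‖ ≤ 1 / 100 := by
    refine (Complex.norm_le_abs_re_add_abs_im _).trans ?_
    linarith
  obtain ⟨hn1, hn2⟩ := hnear p.T φ c z hT0 hT1 hc1' hc2' hd
  have hkm : p.A0 * p.ε ≤ kmin p z := by
    unfold kmin
    refine le_add_of_nonneg_right (mul_nonneg hA0 (Finset.sum_nonneg fun k _ => ?_))
    refine mul_nonneg (by positivity) ?_
    split_ifs
    · exact zero_le_one
    · exact le_rfl
  have hA1 := mul_le_mul_of_nonneg_right hp.A0 hε.le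
  have hpos : 0 ≤ CR * (4 * Cn ^ 2 + 1 + 2 * Cb) * p.ε := mul_nonneg hp0 hε.le
  have hpos2 : 0 ≤ 4 * Cn ^ 2 * p.ε := by positivity
  rw [hp.cr]
  refine CelB_ok (Cn := Cn) (Cb := Cb) (X := ak p.K ^ 2) hT0 hT1 hc1' hc2' hε ?_ h1 hCn hCb
    (hbd p.T φ c hT0 hT1 (by linarith) (by linarith)) hd hn1 hn2 hX ?_ ?_ ?_ ?_ ?_
  · norm_num at h47
    nlinarith
  · refine le_trans (le_of_eq ?_) hp.elo
    rw [hakX, div_pow, one_pow, ← pow_mul, mul_comm (p.K + 1) 2, pow_mul]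
    norm_num
  · linarith
  · have h2 : 1 ≤ p.Cc := by linarith [hp.Cc, sq_nonneg Cn]
    have h3 : cst p ∅ z = p.Cc * kmin p z := by
      unfold cst
      rw [Finset.sum_empty, add_zero]
    rw [h3]
    have h4 : 4 * Cn ^ 2 * p.ε ≤ kmin p z := by linarith
    have h5 : 0 ≤ kmin p z := hpos2.trans h4
    nlinarith
  · have h2 : CR * (Cn * (2 * ak p.K ^ 2)) * (4 * 4 ^ p.K) = CR * (Cn * 2) := by
      linear_combination (CR * Cn * 2) * hX0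
    have h3 : CR * (Cn * 2) ≤ 1 * (4 * 4 ^ p.K) := by
      have h4 : 0 ≤ CR * Cb := by positivity
      nlinarith
    rw [← h2] at h3
    exact le_of_mul_le_mul_right h3 (by positivity)
  · have h2 : CR * (p.ε * (2 * Cb)) * 4 ^ p.K ≤ 1 * 4 ^ p.K := by
      have h3 : CR * (2 * Cb) ≤ 4 ^ p.K := by
        have h4 : 0 ≤ CR * Cn := by positivity
        nlinarith
      have h5 : p.ε * 4 ^ p.K ≤ 1 := by
        have h6 : 0 ≤ p.ε * 4 ^ p.K := by positivity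
        nlinarith
      calc CR * (p.ε * (2 * Cb)) * 4 ^ p.K = (CR * (2 * Cb)) * (p.ε * 4 ^ p.K) := by ring
        _ ≤ 4 ^ p.K * 1 := mul_le_mul h3 h5 (by positivity) (by positivity)
        _ = 1 * 4 ^ p.K := by ring
    exact le_of_mul_le_mul_right h2 (by positivity)

end Pool.Agent.CAPV
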