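import Pool.Agent.Lib.MP_488b8a_co_V.BLc

/-! Project SO (MP_488b8a_co), module ChD: the charts are smooth and area preserving. -/

namespace Pool.Agent.CAPV

open Complex

private theorem ChD_add {f g : ℂ → ℝ} {a b c d : ℝ} {z : ℂ} (hf : HasFDerivAt f (frr a b) z)
    (hg : HasFDerivAt g (frr c d) z) :
    HasFDerivAt (fun y => f y + g y) (frr (a + c) (b + d)) z := by
  refine (hf.add hg).congr_fderiv (ContinuousLinearMap.ext fun v => ?_)
  simp only [frr, ContinuousLinearMap.add_apply, ContinuousLinearMap.smul_apply, smul_eq_mul]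
  ring

private theorem ChD_sub {f g : ℂ → ℝ} {a b c d : ℝ} {z : ℂ} (hf : HasFDerivAt f (frr a b) z)
    (hg : HasFDerivAt g (frr c d) z) :
    HasFDerivAt (fun y => f y - g y) (frr (a - c) (b - d)) z := by
  refine (hf.sub hg).congr_fderiv (ContinuousLinearMap.ext fun v => ?_)
  simp only [frr, ContinuousLinearMap.add_apply, ContinuousLinearMap.sub_apply,
    ContinuousLinearMap.smul_apply, smul_eq_mul]
  ring

private theorem ChD_mul {f g : ℂ → ℝ} {a b c d : ℝ} {z : ℂ} (hf : HasFDerivAt f (frr a b) z)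
    (hg : HasFDerivAt g (frr c d) z) :
    HasFDerivAt (fun y => f y * g y) (frr (a * g z + f z * c) (b * g z + f z * d)) z := by
  refine (hf.mul hg).congr_fderiv (ContinuousLinearMap.ext fun v => ?_)
  simp only [frr, ContinuousLinearMap.add_apply, ContinuousLinearMap.smul_apply, smul_eq_mul]
  ring

private theorem ChD_const (k : ℝ) (z : ℂ) : HasFDerivAt (fun _ : ℂ => k) (frr 0 0) z := by
  refine (hasFDerivAt_const k z).congr_fderiv (ContinuousLinearMap.ext fun v => ?_)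
  simp only [frr, ContinuousLinearMap.add_apply, ContinuousLinearMap.smul_apply, smul_eq_mul,
    ContinuousLinearMap.zero_apply]
  ring

private theorem ChD_re (z : ℂ) : HasFDerivAt (fun z : ℂ => z.re) (frr 1 0) z := by
  refine reCLM.hasFDerivAt.congr_fderiv (ContinuousLinearMap.ext fun v => ?_)
  simp only [frr, ContinuousLinearMap.add_apply, ContinuousLinearMap.smul_apply, smul_eq_mul]
  ring

private theorem ChD_im (z : ℂ) : HasFDerivAt (fun z : ℂ => z.im) (frr 0 1) z := by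
  refine imCLM.hasFDerivAt.congr_fderiv (ContinuousLinearMap.ext fun v => ?_)
  simp only [frr, ContinuousLinearMap.add_apply, ContinuousLinearMap.smul_apply, smul_eq_mul]
  ring

private theorem ChD_sq {f : ℂ → ℝ} {a b : ℝ} {z : ℂ} (hf : HasFDerivAt f (frr a b) z) :
    HasFDerivAt (fun y => f y ^ 2) (frr (2 * f z * a) (2 * f z * b)) z := by
  have h1 := ChD_mul hf hf
  have e : (fun y => f y ^ 2) = fun y => f y * f y := by
    funext y
    ring
  rw [e]
  refine h1.congr_fderiv ?_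
  congr 1 <;> ring

private theorem ChD_mk {f g : ℂ → ℝ} {a b c d : ℝ} {z : ℂ} (hf : HasFDerivAt f (frr a b) z)
    (hg : HasFDerivAt g (frr c d) z) :
    HasFDerivAt (fun y => (⟨f y, g y⟩ : ℂ)) (fr ⟨a, c⟩ ⟨b, d⟩) z := by
  have h1 : HasFDerivAt (fun y => (f y : ℂ)) (ofRealCLM.comp (frr a b)) z :=
    ofRealCLM.hasFDerivAt.comp z hf
  have h2 : HasFDerivAt (fun y => (g y : ℂ)) (ofRealCLM.comp (frr c d)) z :=
    ofRealCLM.hasFDerivAt.comp z hg
  have h3 := h1.add (h2.mul_const I)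
  have e : (fun y => (⟨f y, g y⟩ : ℂ)) = fun y => (f y : ℂ) + (g y : ℂ) * I := by
    funext y
    exact Complex.mk_eq_add_mul_I _ _
  rw [e]
  refine h3.congr_fderiv (ContinuousLinearMap.ext fun v => ?_)
  apply Complex.ext
  · simp [fr, frr]
    ring
  · simp [fr, frr]
    ring

/-- range of the radius of the parallels -/
theorem mm_range {T s : ℝ} (h0 : 0 ≤ T) (h1 : T ≤ 1) (h2 : -(103 / 100) ≤ s)
    (h3 : s ≤ -(1 / 25)) :
    mm T s ^ 2 = -s * (2 + T ^ 2 * s) ∧ 1 / 6 ≤ mm T s ∧ mm T s ≤ 3 / 2 := by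
  have hT2 : T ^ 2 ≤ 1 := by nlinarith
  have hT0 : 0 ≤ T ^ 2 := sq_nonneg T
  have h4 : 97 / 100 ≤ 2 + T ^ 2 * s := by nlinarith
  have h5 : 2 + T ^ 2 * s ≤ 2 := by nlinarith
  have h6 : 1 / 36 ≤ -s * (2 + T ^ 2 * s) := by nlinarith
  have h7 : -s * (2 + T ^ 2 * s) ≤ 9 / 4 := by nlinarith
  refine ⟨Real.sq_sqrt (by linarith), ?_, ?_⟩
  · exact Real.le_sqrt_of_sq_le (by norm_num; linarith)
  · exact Real.sqrt_le_iff.2 ⟨by norm_num, by norm_num; linarith⟩

theorem sh_der (a p q : ℝ) :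
    HasFDerivAt (fun z : ℂ => sh a z.re z.im) (fr (shp a p q) (shq a p q)) (⟨p, q⟩ : ℂ) ∧
    HasFDerivAt (fun z : ℂ => shp a z.re z.im) (fr (shpp a p q) (shpq a p q)) (⟨p, q⟩ : ℂ) ∧
    HasFDerivAt (fun z : ℂ => shq a z.re z.im) (fr (shpq a p q) (shqq a p q)) (⟨p, q⟩ : ℂ) := by
  have hx := ChD_re (⟨p, q⟩ : ℂ)
  have hy := ChD_im (⟨p, q⟩ : ℂ)
  have hS : HasFDerivAt (fun z : ℂ => z.re + z.im) (frr 1 1) (⟨p, q⟩ : ℂ) :=
    (ChD_add hx hy).congr_fderiv (by congr 1 <;> ring)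
  have hS2 : HasFDerivAt (fun z : ℂ => (z.re + z.im) ^ 2) (frr (2 * (p + q)) (2 * (p + q)))
      (⟨p, q⟩ : ℂ) := (ChD_sq hS).congr_fderiv (by congr 1 <;> ring)
  have hD : HasFDerivAt (fun z : ℂ => z.re - z.im - 2 * a * (z.re + z.im) ^ 2)
      (frr (1 - 4 * a * (p + q)) (-1 - 4 * a * (p + q))) (⟨p, q⟩ : ℂ) :=
    (ChD_sub (ChD_sub hx hy) (ChD_mul (ChD_const (2 * a) _) hS2)).congr_fderiv
      (by congr 1 <;> ring)
  have hP : HasFDerivAt (fun z : ℂ => 1 - 4 * a * (z.re + z.im))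
      (frr (-(4 * a)) (-(4 * a))) (⟨p, q⟩ : ℂ) :=
    (ChD_sub (ChD_const 1 _) (ChD_mul (ChD_const (4 * a) _) hS)).congr_fderiv
      (by congr 1 <;> ring)
  have hQ : HasFDerivAt (fun z : ℂ => -1 - 4 * a * (z.re + z.im))
      (frr (-(4 * a)) (-(4 * a))) (⟨p, q⟩ : ℂ) :=
    (ChD_sub (ChD_const (-1) _) (ChD_mul (ChD_const (4 * a) _) hS)).congr_fderiv
      (by congr 1 <;> ring)
  have hD2 := ChD_mul (ChD_const a _) (ChD_sq hD)
  have hDP := ChD_mul (ChD_mul (ChD_const (2 * a) _) hD) hP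
  have hDQ := ChD_mul (ChD_mul (ChD_const (2 * a) _) hD) hQ
  have h2S := ChD_mul (ChD_const (2 * a) _) hS
  have haS2 := ChD_mul (ChD_const a _) hS2
  refine ⟨?_, ?_, ?_⟩
  · refine (ChD_mk (ChD_add (ChD_sub hx haS2) hD2)
      (ChD_add (ChD_add hy haS2) hD2)).congr_fderiv ?_
    unfold shp shq
    congr 2 <;> ring
  · refine (ChD_mk (ChD_add (ChD_sub (ChD_const 1 _) h2S) hDP)
      (ChD_add h2S hDP)).congr_fderiv ?_
    unfold shpp shpq
    congr 2 <;> ring
  · have hneg : HasFDerivAt (fun z : ℂ => -(2 * a * (z.re + z.im))) (frr (-(2 * a)) (-(2 * a)))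
        (⟨p, q⟩ : ℂ) := by
      have h1 := ChD_sub (ChD_const 0 _) h2S
      have e : (fun z : ℂ => -(2 * a * (z.re + z.im))) =
          fun z : ℂ => 0 - 2 * a * (z.re + z.im) := by
        funext z
        ring
      rw [e]
      exact h1.congr_fderiv (by congr 1 <;> ring)
    refine (ChD_mk (ChD_add hneg hDQ)
      (ChD_add (ChD_add (ChD_const 1 _) h2S) hDQ)).congr_fderiv ?_
    unfold shpq shqq
    congr 2 <;> ring

theorem sh_det (a p q : ℝ) : cr (shp a p q) (shq a p q) = 1 := by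
  unfold cr shp shq
  ring

private theorem ChD_comp (g : ℂ → ℂ) (A B : ℂ) (c z : ℂ) {m : ℝ} (k : ℂ)
    (h : HasFDerivAt g (fr A B) (⟨m * (z.re - c.re), (z.im - c.im) / m⟩ : ℂ)) :
    HasFDerivAt (fun z : ℂ => k * g ⟨m * (z.re - c.re), (z.im - c.im) / m⟩)
      (fr (k * ((m : ℂ) * A)) (k * (B / (m : ℂ)))) z := by
  have h1 : HasFDerivAt (fun z : ℂ => m * (z.re - c.re)) (frr m 0) z :=
    (ChD_mul (ChD_const m z) (ChD_sub (ChD_re z) (ChD_const c.re z))).congr_fderiv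
      (by congr 1 <;> ring)
  have h2 : HasFDerivAt (fun z : ℂ => (z.im - c.im) / m) (frr 0 (1 / m)) z := by
    have h3 := ChD_mul (ChD_sub (ChD_im z) (ChD_const c.im z)) (ChD_const (1 / m) z)
    have e : (fun z : ℂ => (z.im - c.im) / m) = fun z : ℂ => (z.im - c.im) * (1 / m) := by
      funext z
      ring
    rw [e]
    exact h3.congr_fderiv (by congr 1 <;> ring)
  have h3 := (h.comp z (ChD_mk h1 h2)).const_mul k
  refine h3.congr_fderiv (ContinuousLinearMap.ext fun v => ?_)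
  rw [ContinuousLinearMap.smul_apply, ContinuousLinearMap.comp_apply, smul_eq_mul, fr_apply,
    fr_apply, fr_apply]
  have e1 : ((v.re : ℂ) * (⟨m, 0⟩ : ℂ) + (v.im : ℂ) * (⟨0, 1 / m⟩ : ℂ)).re = v.re * m := by
    simp
  have e2 : ((v.re : ℂ) * (⟨m, 0⟩ : ℂ) + (v.im : ℂ) * (⟨0, 1 / m⟩ : ℂ)).im = v.im / m := by
    simp
    ring
  rw [e1, e2]
  push_cast
  ring

private theorem ChD_cr (u A B : ℂ) {m : ℝ} (hm : m ≠ 0) :
    cr (u * (m : ℂ) * A) (u / (m : ℂ) * B) = Complex.normSq u * cr A B := by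
  have h1 : u / (m : ℂ) = u * ((m⁻¹ : ℝ) : ℂ) := by
    rw [ofReal_inv, div_eq_mul_inv]
  rw [h1]
  unfold cr
  simp only [mul_re, mul_im, ofReal_re, ofReal_im, Complex.normSq_apply, mul_zero, sub_zero,
    zero_add, add_zero]
  have h2 : m * m⁻¹ = 1 := mul_inv_cancel₀ hm
  linear_combination ((u.re * u.re + u.im * u.im) * (A.re * B.im - A.im * B.re)) * h2

theorem chart_sm {T : ℝ} {c : ℂ} (h0 : 0 ≤ T) (h1 : T ≤ 1) (h2 : -(103 / 100) ≤ c.im)
    (h3 : c.im ≤ -(1 / 25)) (φ : ℝ) : (chart T c φ).Sm := by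
  obtain ⟨-, hm, -⟩ := mm_range h0 h1 h2 h3
  have hm0 : mm T c.im ≠ 0 := by
    intro h
    rw [h] at hm
    norm_num at hm
  have hmc : (mm T c.im : ℂ) ≠ 0 := ofReal_ne_zero.2 hm0
  refine ⟨fun z => ?_, fun z => ?_, fun z => ?_, fun z => ?_⟩
  · have h := ChD_comp (fun z : ℂ => sh (hh T c.im / mm T c.im / 4) z.re z.im) _ _ c z
      (m := mm T c.im) (exp (φ * I)) (sh_der (hh T c.im / mm T c.im / 4) _ _).1
    refine HasFDerivAt.congr_fderiv h ?_
    unfold chart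
    congr 1 <;> ring
  · have h := ChD_comp (fun z : ℂ => shp (hh T c.im / mm T c.im / 4) z.re z.im) _ _ c z
      (m := mm T c.im) (exp (φ * I) * (mm T c.im : ℂ))
      (sh_der (hh T c.im / mm T c.im / 4) _ _).2.1
    refine HasFDerivAt.congr_fderiv h ?_
    unfold chart
    congr 1
    · ring
    · field_simp
  · have h := ChD_comp (fun z : ℂ => shq (hh T c.im / mm T c.im / 4) z.re z.im) _ _ c z
      (m := mm T c.im) (exp (φ * I) / (mm T c.im : ℂ))
      (sh_der (hh T c.im / mm T c.im / 4) _ _).2.2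
    refine HasFDerivAt.congr_fderiv h ?_
    unfold chart
    congr 1
    · field_simp
    · field_simp
  · unfold chart
    simp only
    rw [ChD_cr _ _ _ hm0, sh_det, mul_one, Complex.normSq_eq_norm_sq,
      Complex.norm_exp_ofReal_mul_I, one_pow]

end Pool.Agent.CAPV
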