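import Pool.Agent.Lib.MP_488b8a_co_V.KDef
import Pool.Agent.Lib.MP_488b8a_co_U.LocC
import Pool.Agent.Lib.MP_488b8a_co_U.Lat
import Pool.Agent.Lib.MP_488b8a_co_U.LinF

/-! Project SO (MP_488b8a_co), module CovT: covering and injectivity at a good point. -/

namespace Pool.Agent.CAPV

open Complex

theorem trf_cov {c Ce : ℝ} {Um : ℂ → ℂ} {Z : ℂ} (hc : 0 < c) (h : Trf c Ce Um Z) (v : ℂ) :
    ∃ q : ℂ, ‖Z - q‖ ≤ 1 / c ∧ Um q - v ∈ CAPU.Lam := by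
  obtain ⟨V, A, B, L, hL, hd, hl, ha, hb, hLc, hA, -⟩ := h
  obtain ⟨q, hq1, hq2, hq3⟩ := CAPU.loc_cover (v := v) hc hL (fun Y hY => (hd Y hY).1) hl ha hb hLc
  have hqm : q ∈ Metric.closedBall Z (4 / c) := by
    rw [Metric.mem_closedBall, dist_eq_norm]
    exact hq1
  refine ⟨q, ?_, ?_⟩
  · obtain ⟨S, hS⟩ : ∃ S : ℝ, S = 1 + 4 * ‖B Z‖ ^ 2 / c ^ 2 + 5 * L / c ^ 2 := ⟨_, rfl⟩
    rw [← hS] at hA hq3
    have hS0 : 0 < S := by
      have h1 : 0 ≤ 4 * ‖B Z‖ ^ 2 / c ^ 2 := by positivity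
      have h2 : 0 ≤ 5 * L / c ^ 2 := by positivity
      linarith
    have h3 : c * S * ‖q - Z‖ ≤ S :=
      (mul_le_mul_of_nonneg_right hA (norm_nonneg _)).trans hq3
    have h4 : S * (‖q - Z‖ * c) ≤ S * 1 := by linarith
    have h5 := le_of_mul_le_mul_left h4 hS0
    rw [norm_sub_rev, le_div_iff₀ hc]
    exact h5
  · have h1 : Um q - v = (V q - v) - (V q - Um q) := by ring
    rw [h1]
    exact CAPU.Lam_sub hq2 (hd q hqm).2

theorem trf_inj {c Ce R : ℝ} {Um : ℂ → ℂ} {Z : ℂ} (hc : 0 < c) (hR : 0 ≤ R) (hR4 : R ≤ 4 / c)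
    (h : Trf c Ce Um Z) : ∃ (V : ℂ → ℂ) (V' : ℂ → (ℂ →L[ℝ] ℂ)),
      Set.InjOn V (Metric.closedBall Z R) ∧
      (∀ Y ∈ Metric.closedBall Z R, HasFDerivAt V (V' Y) Y ∧ V Y - Um Y ∈ CAPU.Lam) ∧
      |(V' Z).det| ≤ c ^ 2 * (1 + Ce) := by
  have _ := hR
  obtain ⟨V, A, B, L, hL, hd, hl, ha, hb, hLc, -, hA2⟩ := h
  have hsub : Metric.closedBall Z R ⊆ Metric.closedBall Z (4 / c) :=
    Metric.closedBall_subset_closedBall hR4
  refine ⟨V, fun Y => CAPU.lin (A Y) (B Y), ?_, fun Y hY => hd Y (hsub hY), ?_⟩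
  · refine CAPU.lin_inj hL (fun Y hY => (hd Y (hsub hY)).1) (fun Y hY => hl Y (hsub hY)) ?_
    have h1 : L * R ≤ c ^ 2 / 100 * (4 / c) :=
      (mul_le_mul_of_nonneg_left hR4 hL).trans
        (mul_le_mul_of_nonneg_right (by linarith) (by positivity))
    have h2 : c ^ 2 / 100 * (4 / c) = c / 25 := by
      field_simp
      ring
    rw [h2] at h1
    linarith
  · change |(CAPU.lin (A Z) (B Z)).det| ≤ _
    rw [CAPU.lin_det]
    have h1 : ‖B Z‖ ≤ ‖A Z‖ := by linarith [norm_nonneg (B Z)]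
    have h2 : ‖B Z‖ ^ 2 ≤ ‖A Z‖ ^ 2 := pow_le_pow_left₀ (norm_nonneg _) h1 2
    rw [abs_of_nonneg (by linarith)]
    have h3 : 0 ≤ ‖B Z‖ ^ 2 := by positivity
    linarith

end Pool.Agent.CAPV
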