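import Pool.Agent.Lib.MP_488b8a_co_U.Defs

/-! Project SO (MP_488b8a_co, sharp order of the second term): definitions.

Base plane: a point `z` has coordinates `z.re` (angle) and `z.im` (equal-area coordinate of the
latitude, scaled by `T`). The metric of the sphere is `mm² dx² + dy² / mm²` with
`mm = mm T z.im`, so area is Lebesgue measure. `chart T c φ` is an exactly area preserving
polynomial map which is an isometry at `c` up to the second order. Points of the covering are the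
solutions of `U z - v ∈ LamE ε` for a map `U` which is locally, modulo the lattice, a smooth map
(`Lift`). -/

namespace Pool.Agent.CAPV

open Complex MeasureTheory

noncomputable section

/-- cross product -/
def cr (u v : ℂ) : ℝ := u.re * v.im - u.im * v.re

/-- the real-linear map with the value `a` at `1` and `b` at `I` -/
def fr (a b : ℂ) : ℂ →L[ℝ] ℂ := reCLM.smulRight a + imCLM.smulRight b

/-- the real-linear form with the value `a` at `1` and `b` at `I` -/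
def frr (a b : ℝ) : ℂ →L[ℝ] ℝ := a • reCLM + b • imCLM

/-- the hexagonal lattice of circumradius `ε` -/
def LamE (ε : ℝ) : Set ℂ := {w | ∃ l ∈ CAPU.Lam, w = (ε : ℂ) * l}

/-- maximum norm -/
def mx (z : ℂ) : ℝ := max |z.re| |z.im|

/-- a complex function of `z` with its partial derivatives up to the second order -/
structure Jet where
  f : ℂ → ℂ
  f1 : ℂ → ℂ
  f2 : ℂ → ℂ
  f11 : ℂ → ℂ
  f12 : ℂ → ℂ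
  f22 : ℂ → ℂ

/-- smooth and area preserving -/
structure Jet.Sm (F : Jet) : Prop where
  d0 : ∀ z, HasFDerivAt F.f (fr (F.f1 z) (F.f2 z)) z
  d1 : ∀ z, HasFDerivAt F.f1 (fr (F.f11 z) (F.f12 z)) z
  d2 : ∀ z, HasFDerivAt F.f2 (fr (F.f12 z) (F.f22 z)) z
  det : ∀ z, cr (F.f1 z) (F.f2 z) = 1

/-- bounds on a set -/
structure Jet.Bd (F : Jet) (B : Set ℂ) (C : ℝ) : Prop where
  b1 : ∀ z ∈ B, ‖F.f1 z‖ ≤ C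
  b2 : ∀ z ∈ B, ‖F.f2 z‖ ≤ C
  b11 : ∀ z ∈ B, ‖F.f11 z‖ ≤ C
  b12 : ∀ z ∈ B, ‖F.f12 z‖ ≤ C
  b22 : ∀ z ∈ B, ‖F.f22 z‖ ≤ C
  l11 : ∀ z ∈ B, ∀ z' ∈ B, ‖F.f11 z - F.f11 z'‖ ≤ C * ‖z - z'‖
  l12 : ∀ z ∈ B, ∀ z' ∈ B, ‖F.f12 z - F.f12 z'‖ ≤ C * ‖z - z'‖
  l22 : ∀ z ∈ B, ∀ z' ∈ B, ‖F.f22 z - F.f22 z'‖ ≤ C * ‖z - z'‖

/-- `f` is bounded by `M` and Lipschitz with constant `L` on `B` -/
def BL (B : Set ℂ) (f : ℂ → ℂ) (M L : ℝ) : Prop :=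
  (∀ z ∈ B, ‖f z‖ ≤ M) ∧ ∀ z ∈ B, ∀ z' ∈ B, ‖f z - f z'‖ ≤ L * ‖z - z'‖

/-- the radius of the parallel with coordinate `s` -/
def mm (T s : ℝ) : ℝ := Real.sqrt (-s * (2 + T ^ 2 * s))

def hh (T s : ℝ) : ℝ := 1 + T ^ 2 * s

/-- two shears, area preserving; `a = k / 4` -/
def sh (a p q : ℝ) : ℂ :=
  ⟨p - a * (p + q) ^ 2 + a * (p - q - 2 * a * (p + q) ^ 2) ^ 2,
    q + a * (p + q) ^ 2 + a * (p - q - 2 * a * (p + q) ^ 2) ^ 2⟩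

/-- derivative of `sh` in `p` -/
def shp (a p q : ℝ) : ℂ :=
  ⟨1 - 2 * a * (p + q) + 2 * a * (p - q - 2 * a * (p + q) ^ 2) * (1 - 4 * a * (p + q)),
    2 * a * (p + q) + 2 * a * (p - q - 2 * a * (p + q) ^ 2) * (1 - 4 * a * (p + q))⟩

/-- derivative of `sh` in `q` -/
def shq (a p q : ℝ) : ℂ :=
  ⟨-(2 * a * (p + q)) + 2 * a * (p - q - 2 * a * (p + q) ^ 2) * (-1 - 4 * a * (p + q)),
    1 + 2 * a * (p + q) + 2 * a * (p - q - 2 * a * (p + q) ^ 2) * (-1 - 4 * a * (p + q))⟩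

def shpp (a p q : ℝ) : ℂ :=
  ⟨-(2 * a) + 2 * a * ((1 - 4 * a * (p + q)) ^ 2 - 4 * a * (p - q - 2 * a * (p + q) ^ 2)),
    2 * a + 2 * a * ((1 - 4 * a * (p + q)) ^ 2 - 4 * a * (p - q - 2 * a * (p + q) ^ 2))⟩

def shpq (a p q : ℝ) : ℂ :=
  ⟨-(2 * a) + 2 * a * ((1 - 4 * a * (p + q)) * (-1 - 4 * a * (p + q)) -
      4 * a * (p - q - 2 * a * (p + q) ^ 2)),
    2 * a + 2 * a * ((1 - 4 * a * (p + q)) * (-1 - 4 * a * (p + q)) -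
      4 * a * (p - q - 2 * a * (p + q) ^ 2))⟩

def shqq (a p q : ℝ) : ℂ :=
  ⟨-(2 * a) + 2 * a * ((-1 - 4 * a * (p + q)) ^ 2 - 4 * a * (p - q - 2 * a * (p + q) ^ 2)),
    2 * a + 2 * a * ((-1 - 4 * a * (p + q)) ^ 2 - 4 * a * (p - q - 2 * a * (p + q) ^ 2))⟩

/-- the chart centred at `c` with the rotation angle `φ` -/
def chart (T : ℝ) (c : ℂ) (φ : ℝ) : Jet where
  f := fun z => exp (φ * I) *
    sh (hh T c.im / mm T c.im / 4) (mm T c.im * (z.re - c.re)) ((z.im - c.im) / mm T c.im)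
  f1 := fun z => exp (φ * I) * (mm T c.im : ℂ) *
    shp (hh T c.im / mm T c.im / 4) (mm T c.im * (z.re - c.re)) ((z.im - c.im) / mm T c.im)
  f2 := fun z => exp (φ * I) / (mm T c.im : ℂ) *
    shq (hh T c.im / mm T c.im / 4) (mm T c.im * (z.re - c.re)) ((z.im - c.im) / mm T c.im)
  f11 := fun z => exp (φ * I) * (mm T c.im : ℂ) ^ 2 *
    shpp (hh T c.im / mm T c.im / 4) (mm T c.im * (z.re - c.re)) ((z.im - c.im) / mm T c.im)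
  f12 := fun z => exp (φ * I) *
    shpq (hh T c.im / mm T c.im / 4) (mm T c.im * (z.re - c.re)) ((z.im - c.im) / mm T c.im)
  f22 := fun z => exp (φ * I) / (mm T c.im : ℂ) ^ 2 *
    shqq (hh T c.im / mm T c.im / 4) (mm T c.im * (z.re - c.re)) ((z.im - c.im) / mm T c.im)

/-- the jet `w ↦ F (z0 + ω w)` -/
def Jet.rot (F : Jet) (ω z0 : ℂ) : Jet where
  f := fun w => F.f (z0 + ω * w)
  f1 := fun w => (ω.re : ℂ) * F.f1 (z0 + ω * w) + (ω.im : ℂ) * F.f2 (z0 + ω * w)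
  f2 := fun w => -(ω.im : ℂ) * F.f1 (z0 + ω * w) + (ω.re : ℂ) * F.f2 (z0 + ω * w)
  f11 := fun w => (ω.re : ℂ) ^ 2 * F.f11 (z0 + ω * w) +
    2 * (ω.re : ℂ) * (ω.im : ℂ) * F.f12 (z0 + ω * w) + (ω.im : ℂ) ^ 2 * F.f22 (z0 + ω * w)
  f12 := fun w => (ω.re : ℂ) * (ω.im : ℂ) * (F.f22 (z0 + ω * w) - F.f11 (z0 + ω * w)) +
    ((ω.re : ℂ) ^ 2 - (ω.im : ℂ) ^ 2) * F.f12 (z0 + ω * w)
  f22 := fun w => (ω.im : ℂ) ^ 2 * F.f11 (z0 + ω * w) -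
    2 * (ω.re : ℂ) * (ω.im : ℂ) * F.f12 (z0 + ω * w) + (ω.re : ℂ) ^ 2 * F.f22 (z0 + ω * w)

/-- `V` is a smooth lift of `U` modulo the lattice near `z` -/
structure Lift (ε : ℝ) (U : ℂ → ℂ) (z : ℂ) (V V1 V2 : ℂ → ℂ) (L : ℝ) : Prop where
  der : ∀ y ∈ Metric.closedBall z (100 * ε), HasFDerivAt V (fr (V1 y) (V2 y)) y
  mod : ∀ y ∈ Metric.closedBall z (100 * ε), V y - U y ∈ LamE ε
  l1 : ∀ y ∈ Metric.closedBall z (100 * ε), ∀ y' ∈ Metric.closedBall z (100 * ε),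
    ‖V1 y - V1 y'‖ ≤ L * ‖y - y'‖
  l2 : ∀ y ∈ Metric.closedBall z (100 * ε), ∀ y' ∈ Metric.closedBall z (100 * ε),
    ‖V2 y - V2 y'‖ ≤ L * ‖y - y'‖

/-- `U` is good at `z`, reference derivatives `F1`, `F2`, allowed deficiency `a`, cost `e` -/
def NearS (ε CR a e : ℝ) (U : ℂ → ℂ) (z F1 F2 : ℂ) : Prop :=
  ∃ (V V1 V2 : ℂ → ℂ) (β L : ℝ), 0 ≤ β ∧ 0 ≤ L ∧ Lift ε U z V V1 V2 L ∧
    ‖V1 z - F1‖ ≤ β ∧ ‖V2 z - F2‖ ≤ β ∧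
    1 + CR * (β ^ 2 + ε * L) ≤ cr (V1 z) (V2 z) + a ∧
    cr (V1 z) (V2 z) + β ^ 2 ≤ 1 + e ∧ CR * β ≤ 1 ∧ CR * (ε * L) ≤ 1

/-- `U` is good at `z` with respect to the metric of the sphere, compression `κ`, cost `e` -/
def Ok (T ε CR κ e : ℝ) (U : ℂ → ℂ) (z : ℂ) : Prop :=
  ∃ (V V1 V2 : ℂ → ℂ) (u : ℂ) (β L : ℝ), ‖u‖ = 1 ∧ 0 ≤ β ∧ 0 ≤ L ∧ Lift ε U z V V1 V2 L ∧
    ‖V1 z - (mm T z.im : ℂ) * u‖ ≤ β ∧ ‖V2 z - I * u / (mm T z.im : ℂ)‖ ≤ β ∧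
    1 + CR * (β ^ 2 + ε + ε * L) ≤ cr (V1 z) (V2 z) + 3 / 4 * κ ∧
    cr (V1 z) (V2 z) + β ^ 2 ≤ 1 + e ∧ CR * β ≤ 1 ∧ CR * (ε * L) ≤ 1

/-- the allowed loss at the misfit `t` -/
def th (t : ℝ) : ℝ := t ^ 2 * (1 + Real.log (1 / t))

/-- width of the strips of level `k` -/
def hk (K k : ℕ) : ℝ := 4 ^ k / 16 ^ K

/-- half side of the cells of level `k` -/
def ak (k : ℕ) : ℝ := 1 / 2 ^ (k + 1)

/-- distance to the nearest multiple of `2 ^ (-k)` -/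
def dg (k : ℕ) (t : ℝ) : ℝ := |t - round (2 ^ k * t) / 2 ^ k|

/-- parameters -/
structure Prm where
  T : ℝ
  ε : ℝ
  CR : ℝ
  A0 : ℝ
  Au : ℝ
  C0 : ℝ
  Cc : ℝ
  k0 : ℕ
  K : ℕ

/-- minimal compression at `z` -/
def kmin (p : Prm) (z : ℂ) : ℝ := by
  classical
  exact p.A0 * p.ε + p.Au * ∑ k ∈ Finset.Ioc p.k0 p.K, ((k : ℝ) + 1) / 16 ^ k *
    (if dg k z.re ≤ 3 * hk p.K k ∨ dg k z.im ≤ 3 * hk p.K k then 1 else 0)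

/-- energy of a core: `x.1` position, `x.2` level -/
def en (p : Prm) (z : ℂ) (x : ℂ × ℕ) : ℝ := by
  classical
  exact if ‖z - x.1‖ ≤ hk p.K x.2 then (p.ε / ‖z - x.1‖) ^ 2 else 0

/-- cost at `z` -/
def cst (p : Prm) (Cor : Finset (ℂ × ℕ)) (z : ℂ) : ℝ :=
  p.Cc * (kmin p z + ∑ x ∈ Cor, en p z x)

/-- a good map on the cell of level `k` with centre `c`, which agrees with the chart near the
boundary of the cell (and outside) -/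
def Cell (p : Prm) (k : ℕ) (c : ℂ) (φ Bn En : ℝ) : Prop :=
  ∃ (U : ℂ → ℂ) (Bad : Finset ℂ) (Cor : Finset (ℂ × ℕ)),
    (∀ z, ak k - hk p.K (k + 1) < mx (z - c) → U z = (chart p.T c φ).f z) ∧
    (∀ z, mx (z - c) ≤ ak k → (∀ q ∈ Bad, p.C0 * p.ε ≤ ‖z - q‖) →
      Ok p.T p.ε p.CR (kmin p z) (cst p Cor z) U z) ∧
    (Bad.card : ℝ) ≤ Bn ∧ ∑ x ∈ Cor, ((x.2 : ℝ) + 1) ≤ En ∧
    (∀ q ∈ Bad, mx (q - c) ≤ ak k) ∧ (∀ x ∈ Cor, mx (x.1 - c) ≤ ak k)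

/-- centre of a dyadic cell of level `k` -/
def Dya (k : ℕ) (c : ℂ) : Prop :=
  ∃ i j : ℤ, c = ⟨((i : ℝ) + 1 / 2) / 2 ^ k, ((j : ℝ) + 1 / 2) / 2 ^ k⟩

/-- the cell lies in the admissible range of latitudes -/
def Rg (k : ℕ) (c : ℂ) : Prop := -(102 / 100) ≤ c.im - ak k ∧ c.im + ak k ≤ -(1 / 20)

/-- profile functions: `x0` a smooth step, `t0` (on the right half plane) a function with values in
`[0, 1]`, constant outside a cone, winding once around the origin -/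
structure Prof where
  C : ℝ
  x0 : ℝ → ℝ
  x1 : ℝ → ℝ
  x2 : ℝ → ℝ
  t0 : ℂ → ℝ
  t1 : ℂ → ℝ
  t2 : ℂ → ℝ
  t11 : ℂ → ℝ
  t12 : ℂ → ℝ
  t22 : ℂ → ℝ
  hC : 1 ≤ C
  dx0 : ∀ t, HasDerivAt x0 (x1 t) t
  dx1 : ∀ t, HasDerivAt x1 (x2 t) t
  bx0 : ∀ t, |x0 t| ≤ 1
  bx1 : ∀ t, |x1 t| ≤ C
  bx2 : ∀ t, |x2 t| ≤ C
  lx2 : ∀ s t, |x2 s - x2 t| ≤ C * |s - t|
  xlo : ∀ t, t ≤ -(1 / 4) → x0 t = 0 ∧ x1 t = 0 ∧ x2 t = 0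
  xhi : ∀ t, 1 / 4 ≤ t → x0 t = 1 ∧ x1 t = 0 ∧ x2 t = 0
  dt0 : ∀ z : ℂ, 0 < z.re → HasFDerivAt t0 (frr (t1 z) (t2 z)) z
  dt1 : ∀ z : ℂ, 0 < z.re → HasFDerivAt t1 (frr (t11 z) (t12 z)) z
  dt2 : ∀ z : ℂ, 0 < z.re → HasFDerivAt t2 (frr (t12 z) (t22 z)) z
  bt0 : ∀ z : ℂ, 0 < z.re → |t0 z| ≤ 1
  bt1 : ∀ z : ℂ, 0 < z.re → z.re ≤ 2 → |t1 z| * ‖z‖ ≤ C
  bt2 : ∀ z : ℂ, 0 < z.re → z.re ≤ 2 → |t2 z| * ‖z‖ ≤ C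
  bt11 : ∀ z : ℂ, 0 < z.re → z.re ≤ 2 → |t11 z| * ‖z‖ ^ 2 ≤ C
  bt12 : ∀ z : ℂ, 0 < z.re → z.re ≤ 2 → |t12 z| * ‖z‖ ^ 2 ≤ C
  bt22 : ∀ z : ℂ, 0 < z.re → z.re ≤ 2 → |t22 z| * ‖z‖ ^ 2 ≤ C
  lt11 : ∀ z z' : ℂ, 0 < z.re → 0 < z'.re → z.re ≤ 2 → z'.re ≤ 2 → ‖z - z'‖ ≤ ‖z‖ / 2 →
    |t11 z - t11 z'| * ‖z‖ ^ 3 ≤ C * ‖z - z'‖
  lt12 : ∀ z z' : ℂ, 0 < z.re → 0 < z'.re → z.re ≤ 2 → z'.re ≤ 2 → ‖z - z'‖ ≤ ‖z‖ / 2 →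
    |t12 z - t12 z'| * ‖z‖ ^ 3 ≤ C * ‖z - z'‖
  lt22 : ∀ z z' : ℂ, 0 < z.re → 0 < z'.re → z.re ≤ 2 → z'.re ≤ 2 → ‖z - z'‖ ≤ ‖z‖ / 2 →
    |t22 z - t22 z'| * ‖z‖ ^ 3 ≤ C * ‖z - z'‖
  c1 : ∀ z : ℂ, 0 < z.re → z.re < z.im → t0 z = 1 ∧ t1 z = 0 ∧ t2 z = 0
  c0 : ∀ z : ℂ, 0 < z.re → z.re < -z.im → t0 z = 0 ∧ t1 z = 0 ∧ t2 z = 0
  r : ∀ z : ℂ, 3 / 8 ≤ z.re → t0 z = x0 z.im ∧ t1 z = 0 ∧ t2 z = x1 z.im
  u1 : ∀ z : ℂ, 0 < z.re → 1 / 4 ≤ z.im → t0 z = 1 ∧ t1 z = 0 ∧ t2 z = 0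
  u0 : ∀ z : ℂ, 0 < z.re → z.im ≤ -(1 / 4) → t0 z = 0 ∧ t1 z = 0 ∧ t2 z = 0

end

end Pool.Agent.CAPV
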