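import Pool.Agent.Lib.MP_488b8a_co_V.PlD

/-! Project SO (MP_488b8a_co), module Det: the exact formula for the determinant. -/

namespace Pool.Agent.CAPV

open Complex

variable {S : SD} {K t : ℝ}

private theorem det_a (F1 F2 G1 G2 F11 F12 w : ℂ) (X0 X1 X2 gam : ℝ) (hF : cr F1 F2 = 1)
    (hG : cr G1 G2 = 1) (h3 : cr F11 F2 + cr F1 F12 = 0) :
    cr F1 ((X1 : ℂ) * w + (X0 : ℂ) * (G2 - F2) +
        ((cr w ((F2 + G2) / 2) * X1 + gam * X2 : ℝ) : ℂ) * F1 + ((gam * X1 : ℝ) : ℂ) * F12) +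
      cr ((X0 : ℂ) * (G1 - F1) + ((cr w ((F1 + G1) / 2) * X1 : ℝ) : ℂ) * F1 +
        ((gam * X1 : ℝ) : ℂ) * F11) F2 =
      -(X0 * cr (G1 - F1) (G2 - F2)) + X1 * cr w (G1 - F1) / 2 := by
  simp only [cr, add_re, add_im, sub_re, sub_im, mul_re, mul_im, ofReal_re, ofReal_im,
    div_ofNat_re, div_ofNat_im] at *
  linear_combination X0 * (hG - hF) +
    X1 * (w.re * ((F1.im + G1.im) / 2) - w.im * ((F1.re + G1.re) / 2)) * hF + gam * X1 * h3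

private theorem det_b (F1 F2 G1 G2 F11 F12 F22 b : ℂ) (T1 T2 T11 T12 T22 bet : ℝ)
    (hF : cr F1 F2 = 1) (h3 : cr F11 F2 + cr F1 F12 = 0) (h4 : cr F12 F2 + cr F1 F22 = 0) :
    cr F1 (b * (T2 : ℂ) + (cr b ((F2 + G2) / 2) : ℂ) * (F1 * (T2 : ℂ) - F2 * (T1 : ℂ)) +
        (bet : ℂ) * (F12 * (T2 : ℂ) + F1 * (T22 : ℂ) - F22 * (T1 : ℂ) - F2 * (T12 : ℂ))) +
      cr (b * (T1 : ℂ) + (cr b ((F1 + G1) / 2) : ℂ) * (F1 * (T2 : ℂ) - F2 * (T1 : ℂ)) +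
        (bet : ℂ) * (F11 * (T2 : ℂ) + F1 * (T12 : ℂ) - F12 * (T1 : ℂ) - F2 * (T11 : ℂ))) F2 =
      (T2 * cr b (G1 - F1) - T1 * cr b (G2 - F2)) / 2 := by
  simp only [cr, add_re, add_im, sub_re, sub_im, mul_re, mul_im, ofReal_re, ofReal_im,
    div_ofNat_re, div_ofNat_im] at *
  linear_combination T2 * (b.re * ((F1.im + G1.im) / 2) - b.im * ((F1.re + G1.re) / 2)) * hF -
    T1 * (b.re * ((F2.im + G2.im) / 2) - b.im * ((F2.re + G2.re) / 2)) * hF +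
    bet * (T2 * h3 - T1 * h4)

private theorem det_c (F1 F2 G1 G2 tt : ℂ) (A n : ℝ) (hF : cr F1 F2 = 1) (hG : cr G1 G2 = 1) :
    cr F1 ((A : ℂ) * ((n : ℂ) * ((F2 + G2) / 2) + tt * (starRingEnd ℂ) ((F2 + G2) / 2))) +
      cr ((A : ℂ) * ((n : ℂ) * ((F1 + G1) / 2) + tt * (starRingEnd ℂ) ((F1 + G1) / 2))) F2 =
      2 * A * n * (1 - cr (G1 - F1) (G2 - F2) / 4) -
        (cr (G1 - F1) ((A : ℂ) * ((n : ℂ) * ((F2 + G2) / 2) +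
          tt * (starRingEnd ℂ) ((F2 + G2) / 2))) +
        cr ((A : ℂ) * ((n : ℂ) * ((F1 + G1) / 2) + tt * (starRingEnd ℂ) ((F1 + G1) / 2)))
          (G2 - F2)) / 2 := by
  simp only [cr, add_re, add_im, sub_re, sub_im, mul_re, mul_im, ofReal_re, ofReal_im,
    div_ofNat_re, div_ofNat_im, conj_re, conj_im] at *
  linear_combination A * n * (hF + hG)

private theorem det_e (F1 F2 P1 P2 D1 D2 W1 W2 : ℂ) (s s' : ℝ) :
    cr (F1 + (P1 - (s : ℂ) * D1 + (s' : ℂ) * W1)) (F2 + (P2 - (s : ℂ) * D2 + (s' : ℂ) * W2)) =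
      cr F1 F2 + (cr F1 P2 + cr P1 F2) - s * (cr F1 D2 + cr D1 F2) +
        s' * (cr F1 W2 + cr W1 F2) +
        cr (P1 - (s : ℂ) * D1 + (s' : ℂ) * W1) (P2 - (s : ℂ) * D2 + (s' : ℂ) * W2) := by
  simp only [cr, add_re, add_im, sub_re, sub_im, mul_re, mul_im, ofReal_re, ofReal_im]
  ring

/-- `H` preserves area up to the second order -/
theorem SD.Hyp.H_det (hS : S.Hyp K t) (z : ℂ) :
    cr (S.H1 z) (S.H2 z) = 1 - cr (S.w1 z) (S.w2 z) / 4 := by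
  have hF := hS.F.det z
  have hG := hS.G.det z
  simp only [SD.H1, SD.H2, SD.w1, SD.w2, cr, add_re, add_im, sub_re, sub_im, div_ofNat_re,
    div_ofNat_im] at *
  linear_combination (hF + hG) / 2

theorem SD.Hyp.det_id (hS : S.Hyp K t) (i j : ℕ) (z : ℂ) (s s' : ℝ) :
    cr (S.F.f1 z + (S.pl1 j z - (s : ℂ) * S.df1 i z + (s' : ℂ) * S.W1 i z))
        (S.F.f2 z + (S.pl2 j z - (s : ℂ) * S.df2 i z + (s' : ℂ) * S.W2 i z)) =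
      1 - S.X0 z * cr (S.w1 z) (S.w2 z) + S.X1 z * cr (S.w j z) (S.w1 z) / 2 -
        s * (S.T2 i z * cr (S.b i) (S.w1 z) - S.T1 i z * cr (S.b i) (S.w2 z)) / 2 +
        s' * (2 * S.A * S.nn i z * (1 - cr (S.w1 z) (S.w2 z) / 4) -
          (cr (S.w1 z) (S.W2 i z) + cr (S.W1 i z) (S.w2 z)) / 2) +
        cr (S.pl1 j z - (s : ℂ) * S.df1 i z + (s' : ℂ) * S.W1 i z)
          (S.pl2 j z - (s : ℂ) * S.df2 i z + (s' : ℂ) * S.W2 i z) := by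
  have hF := hS.F.det z
  have hG := hS.G.det z
  obtain ⟨h3, h4⟩ := hS.F.der_det z
  have ha := det_a (S.F.f1 z) (S.F.f2 z) (S.G.f1 z) (S.G.f2 z) (S.F.f11 z) (S.F.f12 z) (S.w j z)
    (S.X0 z) (S.X1 z) (S.X2 z) (S.gam j z) hF hG h3
  have hb := det_b (S.F.f1 z) (S.F.f2 z) (S.G.f1 z) (S.G.f2 z) (S.F.f11 z) (S.F.f12 z)
    (S.F.f22 z) (S.b i) (S.T1 i z) (S.T2 i z) (S.T11 i z) (S.T12 i z) (S.T22 i z) (S.bet i z)
    hF h3 h4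
  have hc := det_c (S.F.f1 z) (S.F.f2 z) (S.G.f1 z) (S.G.f2 z) (S.tt i z) S.A (S.nn i z) hF hG
  have ha' : cr (S.F.f1 z) (S.pl2 j z) + cr (S.pl1 j z) (S.F.f2 z) =
      -(S.X0 z * cr (S.w1 z) (S.w2 z)) + S.X1 z * cr (S.w j z) (S.w1 z) / 2 := ha
  have hb' : cr (S.F.f1 z) (S.df2 i z) + cr (S.df1 i z) (S.F.f2 z) =
      (S.T2 i z * cr (S.b i) (S.w1 z) - S.T1 i z * cr (S.b i) (S.w2 z)) / 2 := hb
  have hc' : cr (S.F.f1 z) (S.W2 i z) + cr (S.W1 i z) (S.F.f2 z) =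
      2 * S.A * S.nn i z * (1 - cr (S.w1 z) (S.w2 z) / 4) -
        (cr (S.w1 z) (S.W2 i z) + cr (S.W1 i z) (S.w2 z)) / 2 := hc
  rw [det_e, ha', hb', hc', hF]
  ring

end Pool.Agent.CAPV
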