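import Pool.Agent.Lib.MP_488b8a_co_V.TBd

/-! Project SO (MP_488b8a_co), module DfB: bounds for the dislocation field. -/

namespace Pool.Agent.CAPV

open Complex

private theorem DfB_gen {B : Set ℂ} {K e d u : ℝ} (hK : 1 ≤ K) (he : 0 ≤ e) (hu : 0 < u)
    (hd : 0 ≤ d) (hdu : d * u = 1) (hd4 : 1 ≤ 4 * u) {b : ℂ} (hb : ‖b‖ ≤ 2 * K * e)
    {H F1 F2 Fa Fc : ℂ → ℂ} {T1 T2 Ta Tb Td bet : ℂ → ℝ} (hH : BL B H K (2 * K))
    (hF1 : BL B F1 K (2 * K)) (hF2 : BL B F2 K (2 * K)) (hFa : BL B Fa K K) (hFc : BL B Fc K K)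
    (hT1 : BL B (fun z => (T1 z : ℂ)) (2 * (K * u)) (4 * K * u ^ 2))
    (hT2 : BL B (fun z => (T2 z : ℂ)) (2 * (K * u)) (4 * K * u ^ 2))
    (hTa : BL B (fun z => (Ta z : ℂ)) (2 * (K * u)) (4 * K * u ^ 2))
    (hTb : BL B (fun z => (Tb z : ℂ)) (2 * (K * u ^ 2)) (K * u ^ 3))
    (hTd : BL B (fun z => (Td z : ℂ)) (2 * (K * u ^ 2)) (K * u ^ 3))
    (hbet : BL B (fun z => (bet z : ℂ)) (5 * K ^ 2 * e * d) (4 * K ^ 2 * e)) :
    BL B (fun z => b * (Ta z : ℂ) +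
      (cr b (H z) : ℂ) * (F1 z * (T2 z : ℂ) - F2 z * (T1 z : ℂ)) +
      (bet z : ℂ) * (Fa z * (T2 z : ℂ) + F1 z * (Tb z : ℂ) - Fc z * (T1 z : ℂ) -
        F2 z * (Td z : ℂ))) (1000 * K ^ 4 * e * u) (1000 * K ^ 4 * e * u ^ 2) := by
  have hK0 : 0 ≤ K := by linarith
  have k1 : 0 ≤ 2 * K * e := by positivity
  have k2 : 0 ≤ 2 * (K * u) := by positivity
  have k3 : 0 ≤ 2 * (K * u ^ 2) := by positivity
  have hbc : BL B (fun _ => b) (2 * K * e) 0 := BL_mono (BL_const b) subset_rfl hb le_rfl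
  have g1 := BL_mul k1 k2 hbc hTa
  have g2 := BL_cr k1 hK0 hbc hH
  have g3 := BL_sub (BL_mul hK0 k2 hF1 hT2) (BL_mul hK0 k2 hF2 hT1)
  have g4 := BL_mul (by positivity) (by positivity) g2 g3
  have g5 := BL_sub (BL_sub (BL_add (BL_mul hK0 k2 hFa hT2) (BL_mul hK0 k3 hF1 hTb))
    (BL_mul hK0 k2 hFc hT1)) (BL_mul hK0 k3 hF2 hTd)
  have g6 := BL_mul (by positivity) (by positivity) hbet g5
  have g7 := BL_add (BL_add g1 g4) g6
  have hKK : K ^ 2 ≤ K ^ 4 := pow_le_pow_right₀ hK (by norm_num)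
  have e1 : K ^ 2 * (e * u) ≤ K ^ 4 * (e * u) := mul_le_mul_of_nonneg_right hKK (by positivity)
  have e2 : K ^ 4 * e * 1 ≤ K ^ 4 * e * (4 * u) := mul_le_mul_of_nonneg_left hd4 (by positivity)
  have e3 : K ^ 2 * (e * u ^ 2) ≤ K ^ 4 * (e * u ^ 2) :=
    mul_le_mul_of_nonneg_right hKK (by positivity)
  have e4 : K ^ 4 * e * u * 1 ≤ K ^ 4 * e * u * (4 * u) :=
    mul_le_mul_of_nonneg_left hd4 (by positivity)
  refine BL_mono g7 subset_rfl ?_ ?_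
  · have e5 : 2 * K * e * (2 * (K * u)) + 2 * K * e * K * (K * (2 * (K * u)) +
        K * (2 * (K * u))) + 5 * K ^ 2 * e * d * (K * (2 * (K * u)) + K * (2 * (K * u ^ 2)) +
        K * (2 * (K * u)) + K * (2 * (K * u ^ 2))) =
        4 * (K ^ 2 * (e * u)) + 28 * (K ^ 4 * (e * u)) + 20 * (K ^ 4 * e * 1) := by
      linear_combination (20 * K ^ 4 * e + 20 * K ^ 4 * e * u) * hdu
    refine le_trans (le_of_eq ?_) (le_trans (le_of_eq e5) ?_)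
    · ring
    · nlinarith
  · have e5 : 2 * K * e * (4 * K * u ^ 2) + 2 * (K * u) * 0 +
        (2 * K * e * K * (K * (4 * K * u ^ 2) + 2 * (K * u) * (2 * K) +
          (K * (4 * K * u ^ 2) + 2 * (K * u) * (2 * K))) +
        (K * (2 * (K * u)) + K * (2 * (K * u))) * (2 * K * e * (2 * K) + K * 0)) +
        (5 * K ^ 2 * e * d * (K * (4 * K * u ^ 2) + 2 * (K * u) * K +
          (K * (K * u ^ 3) + 2 * (K * u ^ 2) * (2 * K)) +
          (K * (4 * K * u ^ 2) + 2 * (K * u) * K) +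
          (K * (K * u ^ 3) + 2 * (K * u ^ 2) * (2 * K))) +
        (K * (2 * (K * u)) + K * (2 * (K * u ^ 2)) + K * (2 * (K * u)) +
          K * (2 * (K * u ^ 2))) * (4 * K ^ 2 * e)) =
        8 * (K ^ 2 * (e * u ^ 2)) + 42 * (K ^ 4 * (e * u ^ 2)) + 128 * (K ^ 4 * e * u * 1) +
          20 * (K ^ 4 * e * 1) := by
      linear_combination (10 * K ^ 4 * e * u ^ 2 + 80 * K ^ 4 * e * u + 20 * K ^ 4 * e) * hdu
    refine le_trans (le_of_eq ?_) (le_trans (le_of_eq e5) ?_)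
    · ring
    · have e6 : K ^ 4 * e * (4 * u) = 4 * (K ^ 4 * e * u * 1) := by ring
      have e7 : K ^ 4 * e * u * (4 * u) = 4 * (K ^ 4 * (e * u ^ 2)) := by ring
      have e8 : 1000 * K ^ 4 * e * u ^ 2 = 1000 * (K ^ 4 * (e * u ^ 2)) := by ring
      have e9 : 0 ≤ K ^ 4 * (e * u ^ 2) := by positivity
      rw [e6] at e2
      rw [e7] at e4
      rw [e8]
      linarith

private theorem DfB_pair {f : ℂ → ℂ} {z z' : ℂ} {M L : ℝ} (h1 : ‖f z‖ ≤ M) (h2 : ‖f z'‖ ≤ M)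
    (h3 : ‖f z - f z'‖ ≤ L * ‖z - z'‖) : BL {z, z'} f M L := by
  refine ⟨?_, ?_⟩
  · rintro y (rfl | rfl)
    · exact h1
    · exact h2
  · rintro y (rfl | rfl) y' (rfl | rfl)
    · simp
    · exact h3
    · rw [norm_sub_rev (f y), norm_sub_rev y]
      exact h3
    · simp

private theorem DfB_T {T : ℂ → ℝ} {z z' : ℂ} {a l : ℝ} (h1 : |T z| ≤ a)
    (h2 : |T z - T z'| ≤ l * ‖z - z'‖) (h3 : l * ‖z - z'‖ ≤ a) :
    BL {z, z'} (fun y => (T y : ℂ)) (2 * a) l := by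
  refine DfB_pair ?_ ?_ ?_
  · rw [Complex.norm_real, Real.norm_eq_abs]
    linarith [abs_nonneg (T z)]
  · rw [Complex.norm_real, Real.norm_eq_abs]
    have h4 : |T z'| ≤ |T z| + |T z - T z'| := by
      have := abs_sub_abs_le_abs_sub (T z') (T z)
      rw [abs_sub_comm (T z') (T z)] at this
      linarith
    linarith
  · rw [← ofReal_sub, Complex.norm_real, Real.norm_eq_abs]
    exact h2

private theorem DfB_p {S : SD} {K t : ℝ} (hS : S.Hyp K t) {i : ℕ} (hi : i < S.N) :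
    S.p i ∈ SB S.h S.N := by
  have h0 := hS.h0
  have h1 : (S.p i).re = i * S.h := rfl
  have h2 : (S.p i).im = 0 := rfl
  have h3 : (0 : ℝ) ≤ i * S.h := by positivity
  have h4 : (i : ℝ) ≤ (S.N : ℝ) + 1 := by
    exact_mod_cast (by omega : i ≤ S.N + 1)
  refine ⟨?_, ?_, ?_⟩
  · rw [h1]
    linarith
  · rw [h1]
    exact mul_le_mul_of_nonneg_right h4 h0.le
  · rw [h2, abs_zero]
    positivity

private theorem DfB_main {S : SD} {K t : ℝ} (hS : S.Hyp K t) {i : ℕ} (h1i : 1 ≤ i)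
    (hi : i < S.N) {z z' : ℂ} (hz : z ∈ SB S.h S.N) (hz' : z' ∈ SB S.h S.N)
    (h1 : (i : ℝ) * S.h < z.re) (h2 : z.re ≤ (i + 2) * S.h)
    (h1' : (i : ℝ) * S.h < z'.re) (h2' : z'.re ≤ (i + 2) * S.h)
    (hzz : ‖z - z'‖ ≤ ‖z - S.p i‖ / 4) :
    BL {z, z'} (S.df1 i) (1000 * K ^ 4 * S.ε * ‖z - S.p i‖⁻¹)
        (1000 * K ^ 4 * S.ε * (‖z - S.p i‖⁻¹) ^ 2) ∧
      BL {z, z'} (S.df2 i) (1000 * K ^ 4 * S.ε * ‖z - S.p i‖⁻¹)
        (1000 * K ^ 4 * S.ε * (‖z - S.p i‖⁻¹) ^ 2) := by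
  have hK := hS.hK
  have hK0 : 0 ≤ K := by linarith
  have he := hS.e0
  have h0 := hS.h0
  have hh1 : S.h ≤ 1 := hS.ht.trans hS.t1
  have hpr : (S.p i).re = i * S.h := rfl
  have hpi : (S.p i).im = 0 := rfl
  have hre : (z - S.p i).re = z.re - i * S.h := by rw [sub_re, hpr]
  have him : (z - S.p i).im = z.im := by rw [sub_im, hpi, sub_zero]
  have hd0 : 0 < ‖z - S.p i‖ := by
    refine lt_of_lt_of_le ?_ (abs_re_le_norm (z - S.p i))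
    rw [hre, abs_of_pos (by linarith)]
    linarith
  have hd4 : ‖z - S.p i‖ ≤ 4 := by
    have e1 := norm_le_abs_re_add_abs_im (z - S.p i)
    rw [hre, him, abs_of_pos (by linarith)] at e1
    have e2 := hz.2.2
    have e3 : z.re - i * S.h ≤ 2 * S.h := by
      have : ((i : ℝ) + 2) * S.h = i * S.h + 2 * S.h := by ring
      linarith
    linarith
  obtain ⟨⟨t1, t2, t11, t12, t22⟩, l1, l2, l11, l12, l22⟩ := T_bd hS i h1 h2 h1' h2' hzz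
  obtain ⟨bH1, bH2, -, -, -, -, -, hH, hb⟩ := hS.basic
  have hc := SB_convex S.h S.N
  obtain ⟨f1, f2, f11, f12, f22⟩ := hS.Fb.bl hS.F hc
  have hB : ({z, z'} : Set ℂ) ⊆ SB S.h S.N := by
    rintro y (rfl | rfl)
    · exact hz
    · exact hz'
  have hbi := hb i h1i hi
  have hp := DfB_p hS hi
  set d : ℝ := ‖z - S.p i‖ with hd
  set u : ℝ := d⁻¹ with hu
  have hu0 : 0 < u := inv_pos.2 hd0
  have hdu : d * u = 1 := mul_inv_cancel₀ hd0.ne'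
  have hu4 : 1 ≤ 4 * u := by
    rw [← hdu]
    exact mul_le_mul_of_nonneg_right hd4 hu0.le
  have c1 : K / d = K * u := by rw [hu, div_eq_mul_inv]
  have c2 : K / d ^ 2 = K * u ^ 2 := by rw [hu, div_eq_mul_inv, inv_pow]
  have c3 : K / d ^ 3 = K * u ^ 3 := by rw [hu, div_eq_mul_inv, inv_pow]
  have c4 : 4 * K / d ^ 2 = 4 * K * u ^ 2 := by rw [hu, div_eq_mul_inv, inv_pow]
  rw [c1] at t1 t2
  rw [c2] at t11 t12 t22
  rw [c3] at l11 l12 l22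
  rw [c4] at l1 l2
  have s1 : 4 * K * u ^ 2 * ‖z - z'‖ ≤ K * u := by
    refine (mul_le_mul_of_nonneg_left hzz (by positivity)).trans (le_of_eq ?_)
    linear_combination (K * u) * hdu
  have s2 : K * u ^ 3 * ‖z - z'‖ ≤ K * u ^ 2 := by
    refine (mul_le_mul_of_nonneg_left hzz (by positivity)).trans ?_
    have e1 : K * u ^ 3 * (d / 4) = K * u ^ 2 / 4 := by linear_combination (K * u ^ 2 / 4) * hdu
    rw [e1]
    have e2 : 0 ≤ K * u ^ 2 := by positivity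
    linarith
  have T1 := DfB_T t1 l1 s1
  have T2 := DfB_T t2 l2 s1
  have T11 := DfB_T t11 l11 s2
  have T12 := DfB_T t12 l12 s2
  have T22 := DfB_T t22 l22 s2
  have hdz' : ‖z' - S.p i‖ ≤ 5 / 4 * d := by
    have e1 : z' - S.p i = (z - S.p i) - (z - z') := by ring
    have e2 := norm_sub_le (z - S.p i) (z - z')
    rw [← e1, ← hd] at e2
    linarith
  have bb : ∀ y ∈ SB S.h S.N, ‖y - S.p i‖ ≤ 5 / 4 * d →
      ‖((S.bet i y : ℝ) : ℂ)‖ ≤ 5 * K ^ 2 * S.ε * d := by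
    intro y hy hyd
    rw [Complex.norm_real, Real.norm_eq_abs]
    refine (cr_abs_le _ _).trans ?_
    have e1 := (hH y hy _ hp).trans (mul_le_mul_of_nonneg_left hyd (by positivity))
    refine (mul_le_mul hbi e1 (norm_nonneg _) (by positivity)).trans (le_of_eq ?_)
    ring
  have hbet : BL {z, z'} (fun y => ((S.bet i y : ℝ) : ℂ)) (5 * K ^ 2 * S.ε * d)
      (4 * K ^ 2 * S.ε) := by
    refine DfB_pair (bb z hz ?_) (bb z' hz' hdz') ?_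
    · rw [← hd]
      linarith
    · rw [← ofReal_sub, Complex.norm_real, Real.norm_eq_abs]
      have e1 : S.bet i z - S.bet i z' = cr (S.b i) (S.H z - S.H z') := by
        unfold SD.bet cr
        simp only [sub_re, sub_im]
        ring
      rw [e1]
      refine (cr_abs_le _ _).trans ?_
      refine (mul_le_mul hbi (hH z hz z' hz') (norm_nonneg _) (by positivity)).trans
        (le_of_eq ?_)
      ring
  have r : ∀ {f : ℂ → ℂ} {M L : ℝ}, BL (SB S.h S.N) f M L → BL {z, z'} f M L := fun h =>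
    BL_mono h hB le_rfl le_rfl
  exact ⟨DfB_gen hK he.le hu0 hd0.le hdu hu4 hbi (r bH1) (r f1) (r f2) (r f11) (r f12) T1 T2 T1
      T12 T11 hbet,
    DfB_gen hK he.le hu0 hd0.le hdu hu4 hbi (r bH2) (r f1) (r f2) (r f12) (r f22) T1 T2 T2
      T22 T12 hbet⟩

theorem df_bd (K : ℝ) (hK : 1 ≤ K) : ∃ C : ℝ, 1 ≤ C ∧ ∀ (S : SD) (t : ℝ), S.Hyp K t →
    ∀ i, 1 ≤ i → i < S.N → ∀ z ∈ SB S.h S.N, (i : ℝ) * S.h < z.re → z.re ≤ (i + 2) * S.h →
      |S.T1 i z| ≤ C / ‖z - S.p i‖ ∧ |S.T2 i z| ≤ C / ‖z - S.p i‖ ∧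
      ‖S.df1 i z‖ ≤ C * (S.ε / ‖z - S.p i‖) ∧ ‖S.df2 i z‖ ≤ C * (S.ε / ‖z - S.p i‖) ∧
      ∀ z' ∈ SB S.h S.N, (i : ℝ) * S.h < z'.re → z'.re ≤ (i + 2) * S.h →
        ‖z - z'‖ ≤ ‖z - S.p i‖ / 4 →
        ‖S.df1 i z - S.df1 i z'‖ ≤ C * (S.ε / ‖z - S.p i‖ ^ 2) * ‖z - z'‖ ∧
        ‖S.df2 i z - S.df2 i z'‖ ≤ C * (S.ε / ‖z - S.p i‖ ^ 2) * ‖z - z'‖ := by
  refine ⟨1000 * K ^ 4, ?_, ?_⟩
  · have := one_le_pow₀ hK (n := 4)
    linarith
  intro S t hS i h1i hi z hz h1 h2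
  have hK4 : K ≤ 1000 * K ^ 4 := by
    have e1 : K ^ 1 ≤ K ^ 4 := pow_le_pow_right₀ hK (by norm_num)
    rw [pow_one] at e1
    have e2 : 0 ≤ K ^ 4 := by positivity
    linarith
  have hzz : ‖z - z‖ ≤ ‖z - S.p i‖ / 4 := by
    rw [sub_self, norm_zero]
    positivity
  have hT := T_bd hS i h1 h2 h1 h2 hzz
  obtain ⟨g1, g2⟩ := DfB_main hS h1i hi hz hz h1 h2 h1 h2 hzz
  have e0 : 1000 * K ^ 4 * (S.ε / ‖z - S.p i‖) = 1000 * K ^ 4 * S.ε * ‖z - S.p i‖⁻¹ := by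
    rw [div_eq_mul_inv]
    ring
  have e1 : 1000 * K ^ 4 * (S.ε / ‖z - S.p i‖ ^ 2) =
      1000 * K ^ 4 * S.ε * (‖z - S.p i‖⁻¹) ^ 2 := by
    rw [div_eq_mul_inv, inv_pow]
    ring
  rw [e0, e1]
  refine ⟨hT.1.1.trans (div_le_div_of_nonneg_right hK4 (norm_nonneg _)),
    hT.1.2.1.trans (div_le_div_of_nonneg_right hK4 (norm_nonneg _)),
    g1.1 z (Set.mem_insert _ _), g2.1 z (Set.mem_insert _ _), ?_⟩
  intro z' hz' h1' h2' hzz'
  obtain ⟨g3, g4⟩ := DfB_main hS h1i hi hz hz' h1 h2 h1' h2' hzz'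
  exact ⟨g3.2 z (Set.mem_insert _ _) z' (Set.mem_insert_of_mem _ rfl),
    g4.2 z (Set.mem_insert _ _) z' (Set.mem_insert_of_mem _ rfl)⟩

end Pool.Agent.CAPV
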