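import Pool.Agent.Lib.MP_488b8a_co_V.SumN

/-! Project SO (MP_488b8a_co), module FinN: the final theorem. -/

namespace Pool.Agent.CAPV

open Complex MeasureTheory

/-- the least common radius of `n` equal caps covering the sphere -/
noncomputable def capRadius (n : ℕ) : ℝ :=
  sInf {r : ℝ | 0 ≤ r ∧ ∃ p : Fin n → EuclideanSpace ℝ (Fin 3), (∀ i, ‖p i‖ = 1) ∧
    ∀ x : EuclideanSpace ℝ (Fin 3), ‖x‖ = 1 → ∃ i, InnerProductGeometry.angle x (p i) ≤ r}

private theorem capRadius_nonneg (n : ℕ) : 0 ≤ capRadius n := by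
  apply Real.sInf_nonneg
  rintro r ⟨h, _⟩
  exact h

private theorem capRadius_le {n : ℕ} {r : ℝ} (h0 : 0 ≤ r) (h1 : r ≤ Real.pi)
    (Q : Finset (EuclideanSpace ℝ (Fin 3))) (hQ1 : ∀ q ∈ Q, ‖q‖ = 1)
    (hQ2 : ∀ x : EuclideanSpace ℝ (Fin 3), ‖x‖ = 1 → ∃ q ∈ Q, Real.cos r ≤ inner ℝ x q)
    (hn : Q.card ≤ n) : capRadius n ≤ r := by
  classical
  apply csInf_le
  · exact ⟨0, fun s hs => hs.1⟩
  refine ⟨h0, ?_⟩
  -- a unit vector
  set e : EuclideanSpace ℝ (Fin 3) := EuclideanSpace.single 0 1 with he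
  have he1 : ‖e‖ = 1 := by simp [he]
  obtain ⟨q0, hq0, _⟩ := hQ2 e he1
  -- enumerate Q
  let E := Q.equivFin
  refine ⟨fun i => if h : (i : ℕ) < Q.card then ((E.symm ⟨i, h⟩ : Q) : EuclideanSpace ℝ (Fin 3)) else q0,
    ?_, ?_⟩
  · intro i
    by_cases h : (i : ℕ) < Q.card
    · simp only [h, dif_pos]
      exact hQ1 _ (E.symm ⟨i, h⟩).2
    · simp only [h, dif_neg, not_false_eq_true]
      exact hQ1 _ hq0
  · intro x hx
    obtain ⟨q, hq, hc⟩ := hQ2 x hx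
    have hi : ((E ⟨q, hq⟩ : Fin Q.card) : ℕ) < n := lt_of_lt_of_le (E ⟨q, hq⟩).2 hn
    refine ⟨⟨(E ⟨q, hq⟩ : Fin Q.card), hi⟩, ?_⟩
    have h2 : ((E ⟨q, hq⟩ : Fin Q.card) : ℕ) < Q.card := (E ⟨q, hq⟩).2
    simp only [h2, dif_pos]
    have h3 : E.symm ⟨((E ⟨q, hq⟩ : Fin Q.card) : ℕ), h2⟩ = ⟨q, hq⟩ := by
      rw [Fin.eta, Equiv.symm_apply_apply]
    rw [h3]
    unfold InnerProductGeometry.angle
    rw [hx, hQ1 q hq, mul_one, div_one]
    calc Real.arccos (inner ℝ x q) ≤ Real.arccos (Real.cos r) := Real.arccos_le_arccos hc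
      _ = r := Real.arccos_cos h0 h1

theorem mainN : ∃ C : ℝ, 0 < C ∧ ∃ n₀ : ℕ, ∀ n : ℕ, n₀ ≤ n →
    n * capRadius n ^ 2 ≤
      8 * Real.pi / (3 * Real.sqrt 3) * (1 + C / Real.sqrt n) := by
  obtain ⟨C₀, r₀, hC₀, hr0, hr1, H⟩ := sphere_coverN
  set A : ℝ := 8 * Real.pi / (3 * Real.sqrt 3) with hA
  set C : ℝ := 2 * C₀ with hCdef
  have hC : 0 < C := by positivity
  have h3 : Real.sqrt 3 ≤ 2 := by
    rw [Real.sqrt_le_left (by norm_num)]
    norm_num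
  have h30 : 0 < Real.sqrt 3 := by positivity
  have hA1 : 1 ≤ A := by
    rw [hA, le_div_iff₀ (by positivity)]
    nlinarith [Real.pi_gt_three]
  have hA0 : 0 < A := by linarith
  have hev1 : ∀ᶠ n : ℕ in Filter.atTop, C ^ 2 ≤ (n : ℝ) :=
    (tendsto_natCast_atTop_atTop (R := ℝ)).eventually_ge_atTop _
  have hev2 : ∀ᶠ n : ℕ in Filter.atTop, 2 * A / r₀ ^ 2 ≤ (n : ℝ) :=
    (tendsto_natCast_atTop_atTop (R := ℝ)).eventually_ge_atTop _
  have hev3 : ∀ᶠ n : ℕ in Filter.atTop, 3 ≤ n := Filter.eventually_ge_atTop 3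
  obtain ⟨n₀, hn₀⟩ := Filter.eventually_atTop.1 ((hev1.and hev2).and hev3)
  refine ⟨C, hC, n₀, fun n hn => ?_⟩
  obtain ⟨⟨e1, e2⟩, e3⟩ := hn₀ n hn
  have hn3 : (3 : ℝ) ≤ n := by exact_mod_cast e3
  have hnpos : (0 : ℝ) < n := by linarith
  have hsq : 0 < Real.sqrt n := Real.sqrt_pos.2 hnpos
  have hsq2 : Real.sqrt n ^ 2 = n := Real.sq_sqrt hnpos.le
  set t : ℝ := C / Real.sqrt n with ht
  have ht0 : 0 < t := by positivity
  have ht1 : t ≤ 1 := by
    rw [ht, div_le_one hsq]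
    apply Real.le_sqrt_of_sq_le
    exact e1
  set r : ℝ := Real.sqrt (A / n * (1 + t)) with hr
  have hrsq : r ^ 2 = A / n * (1 + t) := Real.sq_sqrt (by positivity)
  have hrpos : 0 < r := Real.sqrt_pos.2 (by positivity)
  have hrle : r ≤ r₀ := by
    have h1 : r ^ 2 ≤ r₀ ^ 2 := by
      rw [hrsq]
      have h2 : A / n * (1 + t) ≤ A / n * 2 := by
        apply mul_le_mul_of_nonneg_left _ (by positivity)
        linarith
      refine h2.trans ?_
      rw [div_mul_eq_mul_div, div_le_iff₀ hnpos]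
      rw [div_le_iff₀ (by positivity)] at e2
      linarith
    exact (pow_le_pow_iff_left₀ hrpos.le hr0.le (by norm_num)).1 h1
  obtain ⟨Q, hQ1, hQ2, hQ3⟩ := H r hrpos hrle
  have hcard : (Q.card : ℝ) ≤ n := by
    refine hQ3.trans ?_
    have h1 : A / r ^ 2 = n / (1 + t) := by
      rw [hrsq]
      field_simp
    have h2 : (n : ℝ) / (1 + t) ≤ n * (1 - t / 2) := by
      rw [div_le_iff₀ (by linarith)]
      have : (1 : ℝ) ≤ (1 - t / 2) * (1 + t) := by nlinarith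
      nlinarith
    have h4 : 1 / r ≤ Real.sqrt n := by
      rw [div_le_iff₀ hrpos]
      have h5 : (1 : ℝ) ≤ (Real.sqrt n * r) ^ 2 := by
        rw [mul_pow, hsq2, hrsq]
        have : (n : ℝ) * (A / n * (1 + t)) = A * (1 + t) := by field_simp
        rw [this]
        nlinarith
      nlinarith [mul_pos hsq hrpos]
    have h8 : C₀ / r ≤ n * (t / 2) := by
      have h9 : C₀ / r = C₀ * (1 / r) := by ring
      have h10 : (n : ℝ) * (t / 2) = C₀ * Real.sqrt n := by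
        rw [ht, hCdef]
        field_simp
        rw [hsq2]
      rw [h9, h10]
      gcongr
    rw [h1]
    linarith
  have hcard' : Q.card ≤ n := by exact_mod_cast hcard
  have hpi : r ≤ Real.pi := by linarith [Real.pi_gt_three]
  have hfin := capRadius_le hrpos.le hpi Q hQ1 hQ2 hcard'
  have h0 := capRadius_nonneg n
  calc (n : ℝ) * capRadius n ^ 2 ≤ n * r ^ 2 := by gcongr
    _ = A * (1 + C / Real.sqrt n) := by
        rw [hrsq, ht]
        field_simp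

end Pool.Agent.CAPV
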