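import Pool.Agent.Lib.MP_488b8a_co_V.MerB

/-! Project SO (MP_488b8a_co), module IntE: the energy of a core. -/

namespace Pool.Agent.CAPV

open Complex MeasureTheory

/-- a planar set of small diameter -/
private theorem IntE_vol {s : Set ℂ} {R : ℝ} (hR : 0 ≤ R)
    (h : ∀ Z ∈ s, ∀ Z' ∈ s, ‖Z - Z'‖ ≤ R) : volume.real s ≤ Real.pi * R ^ 2 := by
  rcases s.eq_empty_or_nonempty with rfl | ⟨Z0, hZ0⟩
  · rw [measureReal_empty]
    positivity
  · have h1 : s ⊆ Metric.closedBall Z0 R := fun Z hZ => by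
      rw [Metric.mem_closedBall, dist_eq_norm]
      exact h Z hZ Z0 hZ0
    have h2 : volume (Metric.closedBall Z0 R) ≠ ⊤ :=
      (isCompact_closedBall Z0 R).measure_lt_top.ne
    refine (measureReal_mono h1 h2).trans (le_of_eq ?_)
    rw [measureReal_def, Complex.volume_closedBall, ENNReal.toReal_mul, ENNReal.toReal_pow,
      ENNReal.toReal_ofReal hR, mul_comm]
    rfl

/-- the energy is bounded by a sum over shells -/
private theorem IntE_shell {e r : ℝ} (he : 0 < e) (hr : e ≤ r) {m : ℕ}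
    (hm : r ≤ 2 ^ m * e) : ∃ j ∈ Finset.range (m + 1), 2 ^ j * e ≤ r ∧ r < 2 ^ (j + 1) * e := by
  have h1 : 1 ≤ r / e := by rwa [le_div_iff₀ he, one_mul]
  obtain ⟨n, hn1, hn2⟩ := exists_nat_pow_near h1 (one_lt_two)
  rw [le_div_iff₀ he] at hn1
  rw [div_lt_iff₀ he] at hn2
  refine ⟨n, ?_, hn1, hn2⟩
  rw [Finset.mem_range]
  by_contra hcon
  have h2 : m + 1 ≤ n := not_lt.1 hcon
  have h3 : (2 : ℝ) ^ (m + 1) ≤ 2 ^ n := pow_le_pow_right₀ (by norm_num) h2
  have h4 : (2 : ℝ) ^ (m + 1) * e ≤ 2 ^ m * e :=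
    (mul_le_mul_of_nonneg_right h3 he.le).trans (hn1.trans hm)
  have h5 : (0 : ℝ) < 2 ^ m * e := by positivity
  rw [pow_succ] at h4
  linarith

/-- volume of a bounded set -/
private theorem IntE_fin {y0 ε : ℝ} {A : Set ℂ} (hAB : A ⊆ BxV y0 ε) : volume A < ⊤ := by
  have h1 : A ⊆ Set.Icc (-(3 * ε)) (2 * Real.pi + 3 * ε) ×ℂ
      Set.Icc (y0 - 3 * ε) (y0 + 1 + 3 * ε) := by
    intro Z hZ
    obtain ⟨h1, h2, h3, h4⟩ := hAB hZ
    exact ⟨⟨h1, h2⟩, ⟨h3, h4⟩⟩
  exact lt_of_le_of_lt (measure_mono h1) (isCompact_Icc.reProdIm isCompact_Icc).measure_lt_top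

theorem int_en {κ P : ℝ → ℝ} {p : Prm} {δ C y0 : ℝ} (h : KP κ P p.ε δ C) (hδ : δ ≤ 1 / 100)
    (h0 : 0 ≤ y0) (hε1 : p.ε ≤ 1 / 3000) (elo : 1 / 16 ^ (p.K + 1) ≤ p.ε) {A : Set ℂ}
    (hA : MeasurableSet A) (hAB : A ⊆ BxV y0 p.ε) (x : ℂ × ℕ)
    (hx : ∀ Z ∈ A, p.ε ≤ ‖zz P y0 Z - x.1‖) :
    IntegrableOn (fun Z : ℂ => en p (zz P y0 Z) x) A ∧
      ∫ Z in A, en p (zz P y0 Z) x ≤ 10 ^ 5 * p.ε ^ 2 * ((x.2 : ℝ) + 1) := by
  classical
  have he : 0 < p.ε := lt_of_lt_of_le (by positivity) elo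
  obtain ⟨q, k⟩ := x
  have hfin := IntE_fin hAB
  have hcont := zz_cont h y0
  obtain ⟨r, hr⟩ : ∃ r : ℂ → ℝ, r = fun Z => ‖zz P y0 Z - q‖ := ⟨_, rfl⟩
  have hrc : Continuous r := by
    rw [hr]
    exact (hcont.sub continuous_const).norm
  have hrx : ∀ Z ∈ A, p.ε ≤ r Z := by
    intro Z hZ
    rw [hr]
    exact hx Z hZ
  have hen : ∀ Z, en p (zz P y0 Z) (q, k) = if r Z ≤ hk p.K k then (p.ε / r Z) ^ 2 else 0 := by
    intro Z
    unfold en
    rw [hr]
  simp only [hen]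
  have hmeas : Measurable fun Z => if r Z ≤ hk p.K k then (p.ε / r Z) ^ 2 else 0 :=
    Measurable.ite (measurableSet_le hrc.measurable measurable_const)
      ((measurable_const.div hrc.measurable).pow_const 2) measurable_const
  have hint : IntegrableOn (fun Z : ℂ => if r Z ≤ hk p.K k then (p.ε / r Z) ^ 2 else 0) A := by
    refine IntegrableOn.of_bound hfin hmeas.aestronglyMeasurable 1 ?_
    refine (ae_restrict_iff' hA).2 (Filter.Eventually.of_forall fun Z hZ => ?_)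
    have h1 := hrx Z hZ
    have h2 : 0 < r Z := lt_of_lt_of_le he h1
    split_ifs
    · rw [Real.norm_of_nonneg (by positivity)]
      refine pow_le_one₀ (by positivity) ?_
      rwa [div_le_one h2]
    · rw [norm_zero]
      exact zero_le_one
  refine ⟨hint, ?_⟩
  -- the shells
  have hhk : hk p.K k ≤ 2 ^ (2 * k + 4) * p.ε := by
    unfold hk
    have h1 : 1 / (16 : ℝ) ^ p.K ≤ 16 * p.ε := by
      have h2 : 1 / (16 : ℝ) ^ p.K = 16 * (1 / 16 ^ (p.K + 1)) := by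
        rw [pow_succ]
        field_simp
      rw [h2]
      linarith
    have h2 : (2 : ℝ) ^ (2 * k + 4) = 4 ^ k * 16 := by
      rw [pow_add, pow_mul]
      norm_num
    rw [h2, div_eq_mul_one_div]
    have h3 := mul_le_mul_of_nonneg_left h1 (show (0 : ℝ) ≤ 4 ^ k by positivity)
    linarith
  obtain ⟨S, hS⟩ : ∃ S : ℕ → Set ℂ, S = fun j => A ∩ {Z | 2 ^ j * p.ε ≤ r Z ∧
      r Z < 2 ^ (j + 1) * p.ε} := ⟨_, rfl⟩
  have hSm : ∀ j, MeasurableSet (S j) := by
    intro j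
    rw [hS]
    exact hA.inter ((measurableSet_le measurable_const hrc.measurable).inter
      (measurableSet_lt hrc.measurable measurable_const))
  have hSA : ∀ j, S j ⊆ A := by
    intro j
    rw [hS]
    exact Set.inter_subset_left
  have hSv : ∀ j, volume.real (S j) ≤ 3300 * 4 ^ j * p.ε ^ 2 := by
    intro j
    have h1 : ∀ Z ∈ S j, ∀ Z' ∈ S j, ‖Z - Z'‖ ≤ 32 * (2 ^ j * p.ε) := by
      intro Z hZ Z' hZ'
      rw [hS] at hZ hZ'
      obtain ⟨a1, -, a2⟩ := hZ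
      obtain ⟨b1, -, b2⟩ := hZ'
      obtain ⟨-, -, c3, c4⟩ := hAB a1
      obtain ⟨-, -, d3, d4⟩ := hAB b1
      have h2 := (zz_lip h hδ h0 (Z := Z) (Z' := Z') (by linarith) (by linarith) (by linarith)
        (by linarith)).1
      have h3 : ‖zz P y0 Z - zz P y0 Z'‖ ≤ r Z + r Z' := by
        rw [hr]
        have h4 := norm_sub_le (zz P y0 Z - q) (zz P y0 Z' - q)
        rwa [show zz P y0 Z - q - (zz P y0 Z' - q) = zz P y0 Z - zz P y0 Z' by ring] at h4
      rw [pow_succ] at a2 b2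
      linarith
    have h2 := IntE_vol (by positivity) h1
    have h3 : (32 * (2 ^ j * p.ε)) ^ 2 = 1024 * (4 ^ j * p.ε ^ 2) := by
      have h4 : (4 : ℝ) ^ j = (2 ^ j) ^ 2 := by
        rw [← pow_mul, mul_comm j 2, pow_mul]
        norm_num
      rw [h4]
      ring
    rw [h3] at h2
    have h4 : Real.pi ≤ 3.15 := Real.pi_lt_d2.le
    have h5 : (0 : ℝ) ≤ 4 ^ j * p.ε ^ 2 := by positivity
    nlinarith
  have hle : ∀ Z ∈ A, (if r Z ≤ hk p.K k then (p.ε / r Z) ^ 2 else 0) ≤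
      ∑ j ∈ Finset.range (2 * k + 5), (S j).indicator (fun _ => (1 / 4 : ℝ) ^ j) Z := by
    intro Z hZ
    have hnn : ∀ j ∈ Finset.range (2 * k + 5),
        0 ≤ (S j).indicator (fun _ => (1 / 4 : ℝ) ^ j) Z :=
      fun j _ => Set.indicator_nonneg (fun _ _ => by positivity) Z
    have h1 := hrx Z hZ
    have h2 : 0 < r Z := lt_of_lt_of_le he h1
    split_ifs with hc
    · obtain ⟨j, hj, hj1, hj2⟩ := IntE_shell he h1 (hc.trans hhk)
      have hmem : Z ∈ S j := by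
        rw [hS]
        exact ⟨hZ, hj1, hj2⟩
      refine le_trans ?_ (Finset.single_le_sum hnn hj)
      rw [Set.indicator_of_mem hmem]
      have h3 : p.ε / r Z ≤ (1 / 2) ^ j := by
        rw [div_le_iff₀ h2]
        have h4 := mul_le_mul_of_nonneg_left hj1 (show (0 : ℝ) ≤ (1 / 2) ^ j by positivity)
        have h5 : (1 / 2 : ℝ) ^ j * (2 ^ j * p.ε) = p.ε := by
          rw [← mul_assoc, ← mul_pow]
          norm_num
        rwa [h5] at h4
      have h4 : (1 / 4 : ℝ) ^ j = ((1 / 2) ^ j) ^ 2 := by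
        rw [← pow_mul, mul_comm j 2, pow_mul]
        norm_num
      rw [h4]
      exact pow_le_pow_left₀ (by positivity) h3 2
    · exact Finset.sum_nonneg hnn
  have hgi : ∀ j ∈ Finset.range (2 * k + 5), Integrable
      ((S j).indicator (fun _ => (1 / 4 : ℝ) ^ j)) (volume.restrict A) := fun j _ =>
    Integrable.indicator (integrableOn_const (hs := hfin.ne)) (hSm j)
  have h1 := setIntegral_mono_on hint (integrable_finsetSum _ hgi) hA hle
  refine h1.trans ?_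
  rw [integral_finsetSum _ hgi]
  have h2 : ∀ j ∈ Finset.range (2 * k + 5),
      ∫ Z in A, (S j).indicator (fun _ => (1 / 4 : ℝ) ^ j) Z ≤ 3300 * p.ε ^ 2 := by
    intro j _
    rw [integral_indicator_const _ (hSm j), measureReal_restrict_apply (hSm j),
      Set.inter_eq_left.2 (hSA j), smul_eq_mul]
    have h3 := mul_le_mul_of_nonneg_right (hSv j) (show (0 : ℝ) ≤ (1 / 4) ^ j by positivity)
    refine h3.trans (le_of_eq ?_)
    have h4 : (4 : ℝ) ^ j * (1 / 4) ^ j = 1 := by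
      rw [← mul_pow]
      norm_num
    linear_combination 3300 * p.ε ^ 2 * h4
  refine (Finset.sum_le_sum h2).trans ?_
  rw [Finset.sum_const, Finset.card_range, nsmul_eq_mul]
  push_cast
  have h3 : (0 : ℝ) ≤ p.ε ^ 2 := by positivity
  have h4 : (0 : ℝ) ≤ (k : ℝ) := Nat.cast_nonneg k
  nlinarith [mul_nonneg h3 h4]

end Pool.Agent.CAPV
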