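import Pool.Agent.Lib.MP_488b8a_co_V.MerB

/-! Project SO (MP_488b8a_co), module IntM: integrals over the box. -/

namespace Pool.Agent.CAPV

open Complex MeasureTheory

private theorem IntM_Bx (y0 ε : ℝ) : BxV y0 ε =
    Set.Icc (-(3 * ε)) (2 * Real.pi + 3 * ε) ×ℂ
      Set.Icc (y0 - 3 * ε) (y0 + 1 + 3 * ε) := by
  ext Z
  simp only [BxV, Set.mem_setOf_eq, Complex.mem_reProdIm, Set.mem_Icc, and_assoc]

private theorem IntM_pre (s t : Set ℝ) : s ×ℂ t = measurableEquivRealProd ⁻¹' (s ×ˢ t) := rfl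

private theorem IntM_cpt (y0 ε : ℝ) : IsCompact (BxV y0 ε) := by
  rw [IntM_Bx]
  exact isCompact_Icc.reProdIm isCompact_Icc

private theorem IntM_mul {a b c d : ℝ} (hab : a ≤ b) (hcd : c ≤ d) (f g : ℝ → ℝ) :
    ∫ Z in Set.Icc a b ×ℂ Set.Icc c d, f Z.re * g Z.im =
      (∫ x in a..b, f x) * ∫ y in c..d, g y := by
  have e2 : ∫ Z in Set.Icc a b ×ℂ Set.Icc c d, f Z.re * g Z.im =
      ∫ p in Set.Icc a b ×ˢ Set.Icc c d, f p.1 * g p.2 := by
    rw [IntM_pre]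
    exact Complex.volume_preserving_equiv_real_prod.setIntegral_preimage_emb
      measurableEquivRealProd.measurableEmbedding (fun p : ℝ × ℝ => f p.1 * g p.2) _
  rw [e2, Measure.volume_eq_prod, setIntegral_prod_mul, integral_Icc_eq_integral_Ioc,
    integral_Icc_eq_integral_Ioc, ← intervalIntegral.integral_of_le hab,
    ← intervalIntegral.integral_of_le hcd]

private theorem IntM_myc (y0 : ℝ) : Continuous (fun y : ℝ => my y0 y ^ 2) := by
  have h1 : Continuous (my y0) := by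
    unfold my
    exact continuous_const.div Real.continuous_cosh fun y => (Real.cosh_pos y).ne'
  exact h1.pow 2

private theorem IntM_tyc (y0 : ℝ) : Continuous (ty y0) :=
  continuous_iff_continuousAt.2 fun y => (ty_der y0 y).continuousAt

private theorem IntM_int (y0 a b : ℝ) : ∫ y in a..b, my y0 y ^ 2 = ty y0 b - ty y0 a :=
  intervalIntegral.integral_eq_sub_of_hasDerivAt (fun y _ => ty_der y0 y)
    ((IntM_myc y0).intervalIntegrable a b)

private theorem IntM_side {y0 a b : ℝ} (h0 : 0 ≤ y0) (ha : y0 - 1 / 100 ≤ a) (hab : a ≤ b)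
    (hb : b ≤ y0 + 1 + 1 / 100) :
    ∫ y in a..b, my y0 y ^ 2 ≤ 10404 / 10000 * (b - a) := by
  have h1 : ∫ y in a..b, my y0 y ^ 2 ≤ ∫ _y in a..b, (10404 / 10000 : ℝ) := by
    refine intervalIntegral.integral_mono_on hab ((IntM_myc y0).intervalIntegrable a b)
      (by simp) fun y hy => ?_
    have h2 := my_bd h0 (ha.trans hy.1) (hy.2.trans hb)
    nlinarith [h2.1, h2.2]
  rw [intervalIntegral.integral_const, smul_eq_mul] at h1
  linarith

theorem BxV_meas (y0 ε : ℝ) : MeasurableSet (BxV y0 ε) ∧ Bornology.IsBounded (BxV y0 ε) :=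
  ⟨(IntM_cpt y0 ε).isClosed.measurableSet, (IntM_cpt y0 ε).isBounded⟩

theorem int_my {y0 ε : ℝ} (h0 : 0 ≤ y0) (hε : 0 < ε) (hε1 : ε ≤ 1 / 3000) :
    IntegrableOn (fun Z : ℂ => my y0 Z.im ^ 2) (BxV y0 ε) ∧
      ∫ Z in BxV y0 ε, my y0 Z.im ^ 2 ≤
        2 * Real.pi * Real.cosh y0 ^ 2 * (Real.tanh (y0 + 1) - Real.tanh y0) + 100 * ε := by
  have hc : Continuous (fun Z : ℂ => my y0 Z.im ^ 2) := (IntM_myc y0).comp Complex.continuous_im
  refine ⟨hc.continuousOn.integrableOn_compact (IntM_cpt y0 ε), ?_⟩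
  have hpi := Real.pi_gt_three
  have hpi2 := Real.pi_lt_d2
  have e1 : ∫ Z in BxV y0 ε, my y0 Z.im ^ 2 =
      (2 * Real.pi + 6 * ε) * ∫ y in (y0 - 3 * ε)..(y0 + 1 + 3 * ε), my y0 y ^ 2 := by
    have e2 := IntM_mul (a := -(3 * ε)) (b := 2 * Real.pi + 3 * ε) (c := y0 - 3 * ε)
      (d := y0 + 1 + 3 * ε) (by linarith) (by linarith) (fun _ => 1) (fun y => my y0 y ^ 2)
    simp only [one_mul] at e2
    rw [IntM_Bx, e2, intervalIntegral.integral_const, smul_eq_mul]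
    congr 1
    ring
  have hi : ∀ a b : ℝ, IntervalIntegrable (fun y => my y0 y ^ 2) volume a b :=
    fun a b => (IntM_myc y0).intervalIntegrable a b
  have e3 : ∫ y in (y0 - 3 * ε)..(y0 + 1 + 3 * ε), my y0 y ^ 2 =
      (∫ y in (y0 - 3 * ε)..y0, my y0 y ^ 2) + (∫ y in y0..(y0 + 1), my y0 y ^ 2) +
        ∫ y in (y0 + 1)..(y0 + 1 + 3 * ε), my y0 y ^ 2 := by
    rw [intervalIntegral.integral_add_adjacent_intervals (hi _ _) (hi _ _),
      intervalIntegral.integral_add_adjacent_intervals (hi _ _) (hi _ _)]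
  have s1 := IntM_side (y0 := y0) (a := y0 - 3 * ε) (b := y0) h0 (by linarith) (by linarith)
    (by linarith)
  have s2 := IntM_side (y0 := y0) (a := y0) (b := y0 + 1) h0 (by linarith) (by linarith)
    (by linarith)
  have s3 := IntM_side (y0 := y0) (a := y0 + 1) (b := y0 + 1 + 3 * ε) h0 (by linarith)
    (by linarith) (by linarith)
  have s4 : ∫ y in y0..(y0 + 1), my y0 y ^ 2 =
      Real.cosh y0 ^ 2 * (Real.tanh (y0 + 1) - Real.tanh y0) := by
    rw [IntM_int]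
    unfold ty
    ring
  rw [e1, e3]
  set I1 := ∫ y in (y0 - 3 * ε)..y0, my y0 y ^ 2
  set I2 := ∫ y in y0..(y0 + 1), my y0 y ^ 2
  set I3 := ∫ y in (y0 + 1)..(y0 + 1 + 3 * ε), my y0 y ^ 2
  have t1 : I1 + I2 + I3 ≤ I2 + 62424 / 10000 * ε := by linarith
  have t2 : (2 * Real.pi + 6 * ε) * (I1 + I2 + I3) ≤
      (2 * Real.pi + 6 * ε) * (I2 + 62424 / 10000 * ε) :=
    mul_le_mul_of_nonneg_left t1 (by linarith)
  have t3 : (2 * Real.pi + 6 * ε) * (I2 + 62424 / 10000 * ε) =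
      2 * Real.pi * I2 + 6 * (ε * I2) + (2 * Real.pi + 6 * ε) * (62424 / 10000 * ε) := by ring
  have t4 : ε * I2 ≤ ε * (10404 / 10000) := mul_le_mul_of_nonneg_left (by linarith) hε.le
  have t5 : (2 * Real.pi + 6 * ε) * (62424 / 10000 * ε) ≤ 6.5 * (62424 / 10000 * ε) :=
    mul_le_mul_of_nonneg_right (by linarith) (by linarith)
  have t6 : 2 * Real.pi * Real.cosh y0 ^ 2 * (Real.tanh (y0 + 1) - Real.tanh y0) =
      2 * Real.pi * I2 := by
    rw [s4]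
    ring
  rw [t6]
  linarith

private theorem IntM_sub {κ : ℝ → ℝ} (hc : Continuous κ) (h : ∀ t, 0 ≤ κ t) {M a b : ℝ}
    (hM : ∫ t in (-10 : ℝ)..10, κ t ≤ M) (ha : -10 ≤ a) (hab : a ≤ b) (hb : b ≤ 10) :
    ∫ t in a..b, κ t ≤ M :=
  (intervalIntegral.integral_mono_interval ha hab hb (Filter.Eventually.of_forall fun t => h t)
    (hc.intervalIntegrable _ _)).trans hM

private theorem IntM_ty {κ : ℝ → ℝ} (hc : Continuous κ) (h : ∀ t, 0 ≤ κ t) {M y0 ε : ℝ}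
    (hM : ∫ t in (-10 : ℝ)..10, κ t ≤ M) (h0 : 0 ≤ y0) (hε : 0 < ε) (hε1 : ε ≤ 1 / 3000) :
    ∫ y in (y0 - 3 * ε)..(y0 + 1 + 3 * ε), κ (ty y0 y) ≤ 8 * M := by
  have hab : y0 - 3 * ε ≤ y0 + 1 + 3 * ε := by linarith
  have hcc : Continuous (fun y => κ (ty y0 y)) := hc.comp (IntM_tyc y0)
  have h1 : ∫ y in (y0 - 3 * ε)..(y0 + 1 + 3 * ε), κ (ty y0 y) ≤
      ∫ y in (y0 - 3 * ε)..(y0 + 1 + 3 * ε), 8 * (κ (ty y0 y) * my y0 y ^ 2) := by
    refine intervalIntegral.integral_mono_on hab (hcc.intervalIntegrable _ _)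
      ((continuous_const.mul (hcc.mul (IntM_myc y0))).intervalIntegrable _ _) fun y hy => ?_
    have h2 := (my_bd h0 (y := y) (by linarith [hy.1]) (by linarith [hy.2])).1
    have h3 : 1 ≤ 8 * my y0 y ^ 2 := by nlinarith
    have h4 := h (ty y0 y)
    nlinarith
  have h2 : ∫ y in (y0 - 3 * ε)..(y0 + 1 + 3 * ε), κ (ty y0 y) * my y0 y ^ 2 =
      ∫ t in (ty y0 (y0 - 3 * ε))..(ty y0 (y0 + 1 + 3 * ε)), κ t :=
    intervalIntegral.integral_comp_mul_deriv (fun y _ => ty_der y0 y)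
      (IntM_myc y0).continuousOn hc
  rw [intervalIntegral.integral_const_mul, h2] at h1
  have h3 := ty_range (y0 := y0) (y := y0 - 3 * ε) h0 (by linarith) (by linarith)
  have h4 := ty_range (y0 := y0) (y := y0 + 1 + 3 * ε) h0 (by linarith) (by linarith)
  have h5 : ty y0 (y0 - 3 * ε) ≤ ty y0 (y0 + 1 + 3 * ε) := by
    have h6 := IntM_int y0 (y0 - 3 * ε) (y0 + 1 + 3 * ε)
    have h7 : 0 ≤ ∫ y in (y0 - 3 * ε)..(y0 + 1 + 3 * ε), my y0 y ^ 2 :=
      intervalIntegral.integral_nonneg hab fun y _ => sq_nonneg _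
    linarith
  have h6 := IntM_sub hc h hM (a := ty y0 (y0 - 3 * ε)) (b := ty y0 (y0 + 1 + 3 * ε))
    (by linarith) h5 (by linarith)
  linarith

theorem int_kap {κ : ℝ → ℝ} (hc : Continuous κ) (h : ∀ t, 0 ≤ κ t) {M y0 ε : ℝ}
    (hM : ∫ t in (-10 : ℝ)..10, κ t ≤ M) (h0 : 0 ≤ y0) (hε : 0 < ε) (hε1 : ε ≤ 1 / 3000) :
    IntegrableOn (fun Z : ℂ => κ Z.re + κ (ty y0 Z.im)) (BxV y0 ε) ∧
      ∫ Z in BxV y0 ε, (κ Z.re + κ (ty y0 Z.im)) ≤ 100 * M := by
  have c1 : Continuous (fun Z : ℂ => κ Z.re) := hc.comp Complex.continuous_re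
  have c2 : Continuous (fun Z : ℂ => κ (ty y0 Z.im)) :=
    (hc.comp (IntM_tyc y0)).comp Complex.continuous_im
  have i1 : IntegrableOn (fun Z : ℂ => κ Z.re) (BxV y0 ε) :=
    c1.continuousOn.integrableOn_compact (IntM_cpt y0 ε)
  have i2 : IntegrableOn (fun Z : ℂ => κ (ty y0 Z.im)) (BxV y0 ε) :=
    c2.continuousOn.integrableOn_compact (IntM_cpt y0 ε)
  refine ⟨i1.add i2, ?_⟩
  have hpi := Real.pi_gt_three
  have hpi2 := Real.pi_lt_d2
  have hM0 : 0 ≤ M :=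
    le_trans (intervalIntegral.integral_nonneg (by norm_num) fun t _ => h t) hM
  rw [integral_add i1 i2]
  have e1 : ∫ Z in BxV y0 ε, κ Z.re =
      (∫ x in (-(3 * ε))..(2 * Real.pi + 3 * ε), κ x) * (1 + 6 * ε) := by
    have e2 := IntM_mul (a := -(3 * ε)) (b := 2 * Real.pi + 3 * ε) (c := y0 - 3 * ε)
      (d := y0 + 1 + 3 * ε) (by linarith) (by linarith) κ (fun _ => 1)
    simp only [mul_one] at e2
    rw [IntM_Bx, e2, intervalIntegral.integral_const, smul_eq_mul]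
    congr 1
    ring
  have e2 : ∫ Z in BxV y0 ε, κ (ty y0 Z.im) =
      (2 * Real.pi + 6 * ε) * ∫ y in (y0 - 3 * ε)..(y0 + 1 + 3 * ε), κ (ty y0 y) := by
    have e2 := IntM_mul (a := -(3 * ε)) (b := 2 * Real.pi + 3 * ε) (c := y0 - 3 * ε)
      (d := y0 + 1 + 3 * ε) (by linarith) (by linarith) (fun _ => 1) (fun y => κ (ty y0 y))
    simp only [one_mul] at e2
    rw [IntM_Bx, e2, intervalIntegral.integral_const, smul_eq_mul]
    congr 1
    ring
  have b1 := IntM_sub hc h hM (a := -(3 * ε)) (b := 2 * Real.pi + 3 * ε) (by linarith)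
    (by linarith) (by linarith)
  have b2 := IntM_ty hc h hM h0 hε hε1
  rw [e1, e2]
  have t1 : (∫ x in (-(3 * ε))..(2 * Real.pi + 3 * ε), κ x) * (1 + 6 * ε) ≤ M * (1 + 6 * ε) :=
    mul_le_mul_of_nonneg_right b1 (by linarith)
  have t2 : (2 * Real.pi + 6 * ε) * (∫ y in (y0 - 3 * ε)..(y0 + 1 + 3 * ε), κ (ty y0 y)) ≤
      (2 * Real.pi + 6 * ε) * (8 * M) := mul_le_mul_of_nonneg_left b2 (by linarith)
  have t3 : M * (1 + 6 * ε) ≤ M * 2 := mul_le_mul_of_nonneg_left (by linarith) hM0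
  have t4 : (2 * Real.pi + 6 * ε) * (8 * M) ≤ 6.5 * (8 * M) :=
    mul_le_mul_of_nonneg_right (by linarith) (by linarith)
  linarith

end Pool.Agent.CAPV
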