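import Pool.Agent.Lib.MP_488b8a_co_V.BLc
import Mathlib.MeasureTheory.Integral.CurveIntegral.Poincare

/-! Project SO (MP_488b8a_co), module JetL: consequences of `Sm` and `Bd`. -/

namespace Pool.Agent.CAPV

open Complex

private theorem JetL_eq {a b a' b' : ℝ} (h : frr a b = frr a' b') : a = a' ∧ b = b' := by
  have h1 := congrArg (fun L : ℂ →L[ℝ] ℝ => L 1) h
  have h2 := congrArg (fun L : ℂ →L[ℝ] ℝ => L I) h
  simp only [frr_apply, one_re, one_im, I_re, I_im, mul_one, mul_zero, add_zero, zero_add] at h1 h2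
  exact ⟨h1, h2⟩

theorem Jet.Sm.der_det {F : Jet} (h : F.Sm) (z : ℂ) :
    cr (F.f11 z) (F.f2 z) + cr (F.f1 z) (F.f12 z) = 0 ∧
      cr (F.f12 z) (F.f2 z) + cr (F.f1 z) (F.f22 z) = 0 := by
  have h1 := der_cr (f1 := F.f11) (f2 := F.f12) (g1 := F.f12) (g2 := F.f22) (h.d1 z) (h.d2 z)
  have h2 : (fun y => cr (F.f1 y) (F.f2 y)) = fun _ => (1 : ℝ) := funext h.det
  rw [h2] at h1
  have h3 : HasFDerivAt (fun _ : ℂ => (1 : ℝ)) (frr 0 0) z := by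
    have h4 : (frr 0 0 : ℂ →L[ℝ] ℝ) = 0 := by
      ext v
      rw [frr_apply]
      simp
    rw [h4]
    exact hasFDerivAt_const _ _
  exact JetL_eq (h1.unique h3)

/-- the derivatives as bounded Lipschitz functions -/
theorem Jet.Bd.bl {F : Jet} {B : Set ℂ} {C : ℝ} (h : F.Sm) (hb : F.Bd B C) (hB : Convex ℝ B) :
    BL B F.f1 C (2 * C) ∧ BL B F.f2 C (2 * C) ∧ BL B F.f11 C C ∧ BL B F.f12 C C ∧
      BL B F.f22 C C :=
  ⟨BL_of_der hB (fun z _ => h.d1 z) hb.b1 hb.b11 hb.b12,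
    BL_of_der hB (fun z _ => h.d2 z) hb.b2 hb.b12 hb.b22, ⟨hb.b11, hb.l11⟩, ⟨hb.b12, hb.l12⟩,
    ⟨hb.b22, hb.l22⟩⟩

private theorem JetL_cmul {g g1 g2 : ℂ → ℂ} {z : ℂ} (hg : HasFDerivAt g (fr (g1 z) (g2 z)) z)
    (c : ℂ) : HasFDerivAt (fun y => c * g y) (fr (c * g1 z) (c * g2 z)) z := by
  have h1 := hg.const_mul c
  refine h1.congr_fderiv ?_
  ext v
  change c * fr (g1 z) (g2 z) v = fr (c * g1 z) (c * g2 z) v
  rw [fr_apply, fr_apply]
  ring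

private theorem JetL_cr_half (u v w : ℂ) : cr u ((v + w) / 2) = (cr u v + cr u w) / 2 := by
  have h1 : ((v + w) / 2).re = (v.re + w.re) / 2 := by
    rw [Complex.div_ofNat_re, add_re]
  have h2 : ((v + w) / 2).im = (v.im + w.im) / 2 := by
    rw [Complex.div_ofNat_im, add_im]
  unfold cr
  rw [h1, h2]
  ring

/-- the mixed 1-form is closed, so it has a primitive -/
theorem poinc {F G : Jet} (hF : F.Sm) (hG : G.Sm) : ∃ g : ℂ → ℝ, ∀ z,
    HasFDerivAt g (frr (cr (G.f z - F.f z) ((F.f1 z + G.f1 z) / 2))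
      (cr (G.f z - F.f z) ((F.f2 z + G.f2 z) / 2))) z := by
  have hw : ∀ z, HasFDerivAt (fun y => G.f y - F.f y)
      (fr (G.f1 z - F.f1 z) (G.f2 z - F.f2 z)) z := fun z =>
    der_sub (hG.d0 z) (hF.d0 z)
  have hH1 : ∀ z, HasFDerivAt (fun y => (F.f1 y + G.f1 y) / 2)
      (fr ((F.f11 z + G.f11 z) / 2) ((F.f12 z + G.f12 z) / 2)) z := fun z => by
    have h1 := JetL_cmul (g1 := fun y => F.f11 y + G.f11 y) (g2 := fun y => F.f12 y + G.f12 y)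
      (der_add (hF.d1 z) (hG.d1 z)) (1 / 2)
    have e1 : (fun y => 1 / 2 * (F.f1 y + G.f1 y)) = fun y => (F.f1 y + G.f1 y) / 2 := by
      funext y
      ring
    rw [e1, one_div_mul_eq_div, one_div_mul_eq_div] at h1
    exact h1
  have hH2 : ∀ z, HasFDerivAt (fun y => (F.f2 y + G.f2 y) / 2)
      (fr ((F.f12 z + G.f12 z) / 2) ((F.f22 z + G.f22 z) / 2)) z := fun z => by
    have h1 := JetL_cmul (g1 := fun y => F.f12 y + G.f12 y) (g2 := fun y => F.f22 y + G.f22 y)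
      (der_add (hF.d2 z) (hG.d2 z)) (1 / 2)
    have e1 : (fun y => 1 / 2 * (F.f2 y + G.f2 y)) = fun y => (F.f2 y + G.f2 y) / 2 := by
      funext y
      ring
    rw [e1, one_div_mul_eq_div, one_div_mul_eq_div] at h1
    exact h1
  set ω : ℂ → ℂ →L[ℝ] ℝ := fun z => frr (cr (G.f z - F.f z) ((F.f1 z + G.f1 z) / 2))
      (cr (G.f z - F.f z) ((F.f2 z + G.f2 z) / 2)) with hω
  set a1 : ℂ → ℝ := fun z => cr (G.f1 z - F.f1 z) ((F.f1 z + G.f1 z) / 2) +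
    cr (G.f z - F.f z) ((F.f11 z + G.f11 z) / 2) with ha1
  set a2 : ℂ → ℝ := fun z => cr (G.f2 z - F.f2 z) ((F.f1 z + G.f1 z) / 2) +
    cr (G.f z - F.f z) ((F.f12 z + G.f12 z) / 2) with ha2
  set b1 : ℂ → ℝ := fun z => cr (G.f1 z - F.f1 z) ((F.f2 z + G.f2 z) / 2) +
    cr (G.f z - F.f z) ((F.f12 z + G.f12 z) / 2) with hb1
  set b2 : ℂ → ℝ := fun z => cr (G.f2 z - F.f2 z) ((F.f2 z + G.f2 z) / 2) +
    cr (G.f z - F.f z) ((F.f22 z + G.f22 z) / 2) with hb2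
  have hA : ∀ z, HasFDerivAt (fun y => cr (G.f y - F.f y) ((F.f1 y + G.f1 y) / 2))
      (frr (a1 z) (a2 z)) z := fun z =>
    der_cr (f1 := fun y => G.f1 y - F.f1 y) (f2 := fun y => G.f2 y - F.f2 y)
      (g1 := fun y => (F.f11 y + G.f11 y) / 2) (g2 := fun y => (F.f12 y + G.f12 y) / 2)
      (hw z) (hH1 z)
  have hB : ∀ z, HasFDerivAt (fun y => cr (G.f y - F.f y) ((F.f2 y + G.f2 y) / 2))
      (frr (b1 z) (b2 z)) z := fun z =>
    der_cr (f1 := fun y => G.f1 y - F.f1 y) (f2 := fun y => G.f2 y - F.f2 y)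
      (g1 := fun y => (F.f12 y + G.f12 y) / 2) (g2 := fun y => (F.f22 y + G.f22 y) / 2)
      (hw z) (hH2 z)
  have hsym : ∀ z, a2 z = b1 z := by
    intro z
    have e1 := hF.det z
    have e2 := hG.det z
    rw [ha2, hb1]
    change cr (G.f2 z - F.f2 z) ((F.f1 z + G.f1 z) / 2) +
      cr (G.f z - F.f z) ((F.f12 z + G.f12 z) / 2) =
      cr (G.f1 z - F.f1 z) ((F.f2 z + G.f2 z) / 2) +
      cr (G.f z - F.f z) ((F.f12 z + G.f12 z) / 2)
    rw [JetL_cr_half (G.f2 z - F.f2 z), JetL_cr_half (G.f1 z - F.f1 z)]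
    unfold cr at e1 e2 ⊢
    simp only [sub_re, sub_im]
    linear_combination e1 - e2
  have hder : ∀ z, HasFDerivAt ω ((frr (a1 z) (a2 z)).smulRight reCLM +
      (frr (b1 z) (b2 z)).smulRight imCLM) z := fun z =>
    ((hA z).smul_const reCLM).add ((hB z).smul_const imCLM)
  obtain ⟨g, hg⟩ := convex_univ.exists_forall_hasFDerivWithinAt_of_hasFDerivWithinAt_symmetric
    (ω := ω) (dω := fun z => (frr (a1 z) (a2 z)).smulRight reCLM +
      (frr (b1 z) (b2 z)).smulRight imCLM) (s := Set.univ)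
    (fun z _ => (hder z).hasFDerivWithinAt) (by
      intro z _ x _ y _
      change frr (a1 z) (a2 z) x * y.re + frr (b1 z) (b2 z) x * y.im =
        frr (a1 z) (a2 z) y * x.re + frr (b1 z) (b2 z) y * x.im
      rw [frr_apply, frr_apply, frr_apply, frr_apply, hsym z]
      ring)
  exact ⟨g, fun z => (hasFDerivWithinAt_univ.1 (hg z (Set.mem_univ z)))⟩

private theorem JetL_aff (ω z0 w : ℂ) :
    HasFDerivAt (fun w => z0 + ω * w) (fr ω (ω * I)) w := by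
  have h1 : HasFDerivAt (fun w : ℂ => z0 + ω * w) (ω • (ContinuousLinearMap.id ℝ ℂ)) w :=
    ((hasFDerivAt_id w).const_mul ω).const_add z0
  refine h1.congr_fderiv ?_
  ext v
  change ω * v = fr ω (ω * I) v
  rw [fr_apply]
  conv_lhs => rw [← re_add_im v]
  ring

private theorem JetL_comp {f f1 f2 : ℂ → ℂ} (hf : ∀ z, HasFDerivAt f (fr (f1 z) (f2 z)) z)
    (ω z0 w : ℂ) : HasFDerivAt (fun w => f (z0 + ω * w))
      (fr ((ω.re : ℂ) * f1 (z0 + ω * w) + (ω.im : ℂ) * f2 (z0 + ω * w))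
        (-(ω.im : ℂ) * f1 (z0 + ω * w) + (ω.re : ℂ) * f2 (z0 + ω * w))) w := by
  have h1 := (hf (z0 + ω * w)).comp w (JetL_aff ω z0 w)
  refine h1.congr_fderiv ?_
  ext v
  change fr (f1 (z0 + ω * w)) (f2 (z0 + ω * w)) (fr ω (ω * I) v) = _
  rw [fr_apply, fr_apply, fr_apply]
  have e1 : ((v.re : ℂ) * ω + (v.im : ℂ) * (ω * I)).re = v.re * ω.re - v.im * ω.im := by
    simp
    ring
  have e2 : ((v.re : ℂ) * ω + (v.im : ℂ) * (ω * I)).im = v.re * ω.im + v.im * ω.re := by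
    simp
  rw [e1, e2]
  push_cast
  ring

/-- rotation of a jet -/
theorem rot_sm {F : Jet} (h : F.Sm) {ω : ℂ} (hω : ‖ω‖ = 1) (z0 : ℂ) : (F.rot ω z0).Sm := by
  refine ⟨?_, ?_, ?_, ?_⟩
  · intro w
    exact JetL_comp h.d0 ω z0 w
  · intro w
    have h1 := JetL_comp h.d1 ω z0 w
    have h2 := JetL_comp h.d2 ω z0 w
    have h3 := JetL_cmul
      (g1 := fun w => (ω.re : ℂ) * F.f11 (z0 + ω * w) + (ω.im : ℂ) * F.f12 (z0 + ω * w))
      (g2 := fun w => -(ω.im : ℂ) * F.f11 (z0 + ω * w) + (ω.re : ℂ) * F.f12 (z0 + ω * w))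
      h1 (ω.re : ℂ)
    have h4 := JetL_cmul
      (g1 := fun w => (ω.re : ℂ) * F.f12 (z0 + ω * w) + (ω.im : ℂ) * F.f22 (z0 + ω * w))
      (g2 := fun w => -(ω.im : ℂ) * F.f12 (z0 + ω * w) + (ω.re : ℂ) * F.f22 (z0 + ω * w))
      h2 (ω.im : ℂ)
    have h5 := h3.add h4
    refine h5.congr_fderiv ?_
    ext v
    rw [ContinuousLinearMap.add_apply, fr_apply, fr_apply, fr_apply]
    simp only [Jet.rot]
    ring
  · intro w
    have h1 := JetL_comp h.d1 ω z0 w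
    have h2 := JetL_comp h.d2 ω z0 w
    have h3 := JetL_cmul
      (g1 := fun w => (ω.re : ℂ) * F.f11 (z0 + ω * w) + (ω.im : ℂ) * F.f12 (z0 + ω * w))
      (g2 := fun w => -(ω.im : ℂ) * F.f11 (z0 + ω * w) + (ω.re : ℂ) * F.f12 (z0 + ω * w))
      h1 (-(ω.im : ℂ))
    have h4 := JetL_cmul
      (g1 := fun w => (ω.re : ℂ) * F.f12 (z0 + ω * w) + (ω.im : ℂ) * F.f22 (z0 + ω * w))
      (g2 := fun w => -(ω.im : ℂ) * F.f12 (z0 + ω * w) + (ω.re : ℂ) * F.f22 (z0 + ω * w))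
      h2 (ω.re : ℂ)
    have h5 := h3.add h4
    refine h5.congr_fderiv ?_
    ext v
    rw [ContinuousLinearMap.add_apply, fr_apply, fr_apply, fr_apply]
    simp only [Jet.rot]
    ring
  · intro w
    have h1 := h.det (z0 + ω * w)
    have h2 : ω.re ^ 2 + ω.im ^ 2 = 1 := by
      have h3 : ‖ω‖ ^ 2 = 1 := by rw [hω]; norm_num
      rw [← normSq_eq_norm_sq, normSq_apply] at h3
      linarith
    simp only [Jet.rot]
    unfold cr at h1 ⊢
    simp only [add_re, add_im, mul_re, mul_im, neg_re, neg_im, ofReal_re, ofReal_im, zero_mul,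
      sub_zero, add_zero, neg_zero]
    linear_combination (ω.re ^ 2 + ω.im ^ 2) * h1 + h2

private theorem JetL_comb {c1 c2 c3 x y z : ℂ} {K : ℝ} (hK : 0 ≤ K) (hx : ‖x‖ ≤ K)
    (hy : ‖y‖ ≤ K) (hz : ‖z‖ ≤ K) (h1 : ‖c1‖ ≤ 1) (h2 : ‖c2‖ ≤ 2) (h3 : ‖c3‖ ≤ 1) :
    ‖c1 * x + c2 * y + c3 * z‖ ≤ 4 * K := by
  have e1 : ‖c1 * x‖ ≤ 1 * K := by
    rw [norm_mul]
    exact mul_le_mul h1 hx (norm_nonneg _) zero_le_one
  have e2 : ‖c2 * y‖ ≤ 2 * K := by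
    rw [norm_mul]
    exact mul_le_mul h2 hy (norm_nonneg _) zero_le_two
  have e3 : ‖c3 * z‖ ≤ 1 * K := by
    rw [norm_mul]
    exact mul_le_mul h3 hz (norm_nonneg _) zero_le_one
  refine (norm_add_le _ _).trans ?_
  have e4 := norm_add_le (c1 * x) (c2 * y)
  linarith

theorem rot_bd {F : Jet} {B : Set ℂ} {C : ℝ} (h : F.Bd B C) (hC : 0 ≤ C) {ω : ℂ} (hω : ‖ω‖ = 1)
    (z0 : ℂ) : (F.rot ω z0).Bd {w | z0 + ω * w ∈ B} (4 * C) := by
  have ha : |ω.re| ≤ 1 := (abs_re_le_norm ω).trans hω.le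
  have hb : |ω.im| ≤ 1 := (abs_im_le_norm ω).trans hω.le
  have na : ‖(ω.re : ℂ)‖ ≤ 1 := by rwa [norm_real, Real.norm_eq_abs]
  have nb : ‖(ω.im : ℂ)‖ ≤ 1 := by rwa [norm_real, Real.norm_eq_abs]
  have nb2 : ‖(ω.im : ℂ)‖ ≤ 2 := nb.trans one_le_two
  have na2' : ‖(ω.re : ℂ)‖ ≤ 2 := na.trans one_le_two
  have naa : ‖(ω.re : ℂ) ^ 2‖ ≤ 1 := by
    rw [norm_pow]
    exact pow_le_one₀ (norm_nonneg _) na
  have nbb : ‖(ω.im : ℂ) ^ 2‖ ≤ 1 := by
    rw [norm_pow]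
    exact pow_le_one₀ (norm_nonneg _) nb
  have nab : ‖(ω.re : ℂ) * (ω.im : ℂ)‖ ≤ 1 := by
    rw [norm_mul]
    exact mul_le_one₀ na (norm_nonneg _) nb
  have n2ab : ‖2 * (ω.re : ℂ) * (ω.im : ℂ)‖ ≤ 2 := by
    rw [mul_assoc, norm_mul, Complex.norm_ofNat]
    linarith
  have ndd : ‖(ω.re : ℂ) ^ 2 - (ω.im : ℂ) ^ 2‖ ≤ 2 := (norm_sub_le _ _).trans (by linarith)
  have n0 : ‖(0 : ℂ)‖ ≤ 1 := by rw [norm_zero]; exact zero_le_one
  have ndist : ∀ w w' : ℂ, ‖z0 + ω * w - (z0 + ω * w')‖ = ‖w - w'‖ := fun w w' => by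
    rw [show z0 + ω * w - (z0 + ω * w') = ω * (w - w') by ring, norm_mul, hω, one_mul]
  refine ⟨?_, ?_, ?_, ?_, ?_, ?_, ?_, ?_⟩
  · intro w hw
    have h1 := JetL_comb (c3 := 0) hC (h.b1 _ hw) (h.b2 _ hw) (h.b2 _ hw) na nb2 n0
    rw [zero_mul, add_zero] at h1
    exact h1
  · intro w hw
    have h1 := JetL_comb (c1 := -(ω.im : ℂ)) (c3 := 0) hC (h.b1 _ hw) (h.b2 _ hw) (h.b2 _ hw)
      (by rwa [norm_neg]) na2' n0
    rw [zero_mul, add_zero] at h1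
    exact h1
  · intro w hw
    exact JetL_comb hC (h.b11 _ hw) (h.b12 _ hw) (h.b22 _ hw) naa n2ab nbb
  · intro w hw
    have h1 := JetL_comb (c1 := -((ω.re : ℂ) * (ω.im : ℂ))) hC (h.b11 _ hw) (h.b12 _ hw)
      (h.b22 _ hw) (by rwa [norm_neg]) ndd nab
    refine (le_of_eq ?_).trans h1
    congr 1
    simp only [Jet.rot]
    ring
  · intro w hw
    have h1 := JetL_comb (c2 := -(2 * (ω.re : ℂ) * (ω.im : ℂ))) hC (h.b11 _ hw) (h.b12 _ hw)
      (h.b22 _ hw) nbb (by rwa [norm_neg]) naa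
    refine (le_of_eq ?_).trans h1
    congr 1
    simp only [Jet.rot]
    ring
  · intro w hw w' hw'
    have hK : 0 ≤ C * ‖w - w'‖ := mul_nonneg hC (norm_nonneg _)
    have l1 := h.l11 _ hw _ hw'
    have l2 := h.l12 _ hw _ hw'
    have l3 := h.l22 _ hw _ hw'
    rw [ndist] at l1 l2 l3
    have h1 := JetL_comb hK l1 l2 l3 naa n2ab nbb
    rw [← mul_assoc] at h1
    refine (le_of_eq ?_).trans h1
    congr 1
    simp only [Jet.rot]
    ring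
  · intro w hw w' hw'
    have hK : 0 ≤ C * ‖w - w'‖ := mul_nonneg hC (norm_nonneg _)
    have l1 := h.l11 _ hw _ hw'
    have l2 := h.l12 _ hw _ hw'
    have l3 := h.l22 _ hw _ hw'
    rw [ndist] at l1 l2 l3
    have h1 := JetL_comb (c1 := -((ω.re : ℂ) * (ω.im : ℂ))) hK l1 l2 l3 (by rwa [norm_neg]) ndd nab
    rw [← mul_assoc] at h1
    refine (le_of_eq ?_).trans h1
    congr 1
    simp only [Jet.rot]
    ring
  · intro w hw w' hw'
    have hK : 0 ≤ C * ‖w - w'‖ := mul_nonneg hC (norm_nonneg _)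
    have l1 := h.l11 _ hw _ hw'
    have l2 := h.l12 _ hw _ hw'
    have l3 := h.l22 _ hw _ hw'
    rw [ndist] at l1 l2 l3
    have h1 := JetL_comb (c2 := -(2 * (ω.re : ℂ) * (ω.im : ℂ))) hK l1 l2 l3 nbb
      (by rwa [norm_neg]) naa
    rw [← mul_assoc] at h1
    refine (le_of_eq ?_).trans h1
    congr 1
    simp only [Jet.rot]
    ring

end Pool.Agent.CAPV
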