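import Pool.Agent.Lib.MP_488b8a_co_V.CDef

/-! Project SO (MP_488b8a_co): the compression and the passage to the Mercator plane. -/

namespace Pool.Agent.CAPV

open Complex MeasureTheory

noncomputable section

/-- a bump with an exponential tail -/
def bmp (t : ℝ) : ℝ := min 1 (Real.exp (4 - t))

/-- compression in one coordinate -/
def kp (p : Prm) (t : ℝ) : ℝ :=
  p.A0 * p.ε + p.Au * ∑ k ∈ Finset.Ioc p.k0 p.K, ((k : ℝ) + 1) / 16 ^ k * bmp (dg k t / hk p.K k)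

/-- the compressed coordinate -/
def PP (p : Prm) (t : ℝ) : ℝ := t + ∫ s in (0 : ℝ)..t, kp p s

/-- what is needed from a compression `κ` with the coordinate `P` -/
structure KP (κ P : ℝ → ℝ) (ε δ C : ℝ) : Prop where
  cont : Continuous κ
  lo : ∀ t, 0 ≤ κ t
  hi : ∀ t, κ t ≤ δ
  li : ∀ s t, |s - t| ≤ 100 * ε → |κ s - κ t| ≤ δ / ε * κ s * |s - t|
  dP : ∀ t, HasDerivAt P (1 + κ t) t
  sh : ∀ t, |t| ≤ 10 → |P t - t| ≤ C * ε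
  int : ∫ t in (-10 : ℝ)..10, κ t ≤ C * ε

/-- the equal-area coordinate of the latitude as a function of the Mercator coordinate -/
def ty (y0 y : ℝ) : ℝ := -(Real.cosh y0) ^ 2 * (1 - Real.tanh y)

/-- the scale of the Mercator coordinates -/
def my (y0 y : ℝ) : ℝ := Real.cosh y0 / Real.cosh y

/-- from the Mercator plane to the base plane -/
def zz (P : ℝ → ℝ) (y0 : ℝ) (Z : ℂ) : ℂ := ⟨P Z.re, P (ty y0 Z.im)⟩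

/-- the window -/
def Win (y0 : ℝ) : Set ℂ :=
  {Z | -(1 / 20) ≤ Z.re ∧ Z.re ≤ 2 * Real.pi + 1 / 20 ∧ y0 - 1 / 400 ≤ Z.im ∧
    Z.im ≤ y0 + 1 + 1 / 400}

/-- the box in which the points are counted -/
def BxV (y0 ε : ℝ) : Set ℂ :=
  {Z | -(3 * ε) ≤ Z.re ∧ Z.re ≤ 2 * Real.pi + 3 * ε ∧ y0 - 3 * ε ≤ Z.im ∧
    Z.im ≤ y0 + 1 + 3 * ε}

/-- a good lift of `Um` at `Z` in the Mercator plane -/
def Trf (c Ce : ℝ) (Um : ℂ → ℂ) (Z : ℂ) : Prop :=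
  ∃ (V A B : ℂ → ℂ) (L : ℝ), 0 ≤ L ∧
    (∀ Y ∈ Metric.closedBall Z (4 / c), HasFDerivAt V (CAPU.lin (A Y) (B Y)) Y ∧
      V Y - Um Y ∈ CAPU.Lam) ∧
    (∀ Y ∈ Metric.closedBall Z (4 / c), ‖A Y - A Z‖ + ‖B Y - B Z‖ ≤ L * ‖Y - Z‖) ∧
    c ≤ ‖A Z‖ ∧ 10 * ‖B Z‖ ≤ c ∧ 100 * L ≤ c ^ 2 ∧
    c * (1 + 4 * ‖B Z‖ ^ 2 / c ^ 2 + 5 * L / c ^ 2) ≤ ‖A Z‖ ∧ ‖A Z‖ ^ 2 ≤ c ^ 2 * (1 + Ce)

end

end Pool.Agent.CAPV
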