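import Pool.Agent.Lib.MP_488b8a_co_V.KDef

/-! Project SO (MP_488b8a_co), module KpA: elementary facts on the compression. -/

namespace Pool.Agent.CAPV

open Complex MeasureTheory

theorem dg_le (k : ℕ) (t : ℝ) (m : ℤ) : dg k t ≤ |t - m / 2 ^ k| := by
  have h2 : (0:ℝ) < 2 ^ k := by positivity
  have key : ∀ x : ℝ, |t - x / 2 ^ k| = |2 ^ k * t - x| / 2 ^ k := by
    intro x
    have e : t - x / 2 ^ k = (2 ^ k * t - x) / 2 ^ k := by
      field_simp
    rw [e, abs_div, abs_of_pos h2]
  unfold dg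
  rw [key, key]
  exact div_le_div_of_nonneg_right (round_le (2 ^ k * t) m) h2.le

theorem dg_nonneg (k : ℕ) (t : ℝ) : 0 ≤ dg k t := abs_nonneg _

theorem dg_lip (k : ℕ) (s t : ℝ) : |dg k s - dg k t| ≤ |s - t| := by
  have key : ∀ s t : ℝ, dg k s ≤ |s - t| + dg k t := by
    intro s t
    refine (dg_le k s (round (2 ^ k * t))).trans ?_
    have e : s - (round (2 ^ k * t) : ℤ) / 2 ^ k =
        (s - t) + (t - (round (2 ^ k * t) : ℤ) / 2 ^ k) := by ring
    rw [e]
    exact abs_add_le _ _
  have h1 := key s t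
  have h2 := key t s
  rw [abs_sub_comm t s] at h2
  rw [abs_le]
  constructor <;> linarith

theorem bmp_bd (t : ℝ) : 0 < bmp t ∧ bmp t ≤ 1 ∧ (t ≤ 4 → bmp t = 1) :=
  ⟨lt_min one_pos (Real.exp_pos _), min_le_left _ _,
    fun h => min_eq_left (Real.one_le_exp (by linarith))⟩

theorem bmp_lip {s t : ℝ} (h : |s - t| ≤ 1) : |bmp s - bmp t| ≤ 2 * bmp s * |s - t| := by
  have key : ∀ s t d : ℝ, 0 ≤ d → s - t ≤ d → bmp t ≤ Real.exp d * bmp s := by
    intro s t d hd hst
    unfold bmp
    rw [mul_min_of_nonneg _ _ (Real.exp_pos d).le, mul_one, ← Real.exp_add]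
    refine le_min ?_ ?_
    · exact (min_le_left _ _).trans (Real.one_le_exp hd)
    · exact (min_le_right _ _).trans (Real.exp_le_exp.mpr (by linarith))
  have hd0 : 0 ≤ |s - t| := abs_nonneg _
  have h1 := key s t |s - t| hd0 (le_abs_self _)
  have h2 := key t s |s - t| hd0 (by rw [abs_sub_comm]; exact le_abs_self _)
  have hs := (bmp_bd s).1
  have h3 : Real.exp |s - t| - 1 ≤ 2 * |s - t| := by
    have h4 := Real.abs_exp_sub_one_le (x := |s - t|) (by rwa [abs_abs])
    rw [abs_abs] at h4
    exact (le_abs_self _).trans h4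
  have h5 : Real.exp (-|s - t|) * bmp s ≤ bmp t := by
    have h6 := mul_le_mul_of_nonneg_left h2 (Real.exp_pos (-|s - t|)).le
    rwa [← mul_assoc, ← Real.exp_add, neg_add_cancel, Real.exp_zero, one_mul] at h6
  have h7 := Real.add_one_le_exp (-|s - t|)
  have h8 := mul_le_mul_of_nonneg_right h7 hs.le
  have h9 := mul_le_mul_of_nonneg_right h3 hs.le
  have h10 : 0 ≤ |s - t| * bmp s := mul_nonneg hd0 hs.le
  rw [abs_le]
  constructor <;> nlinarith

theorem kp_cont (p : Prm) : Continuous (kp p) := by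
  have hdg : ∀ k : ℕ, Continuous (dg k) := by
    intro k
    have h : LipschitzWith 1 (dg k) := by
      refine LipschitzWith.of_dist_le_mul fun s t => ?_
      rw [NNReal.coe_one, one_mul, Real.dist_eq, Real.dist_eq]
      exact dg_lip k s t
    exact h.continuous
  have hb : Continuous bmp :=
    continuous_const.min (Real.continuous_exp.comp (continuous_const.sub continuous_id))
  unfold kp
  refine continuous_const.add (continuous_const.mul (continuous_finsetSum _ fun k _ => ?_))
  exact continuous_const.mul (hb.comp ((hdg k).div_const _))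

theorem PP_der (p : Prm) (t : ℝ) : HasDerivAt (PP p) (1 + kp p t) t :=
  (hasDerivAt_id t).add ((kp_cont p).integral_hasStrictDerivAt 0 t).hasDerivAt

end Pool.Agent.CAPV
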