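import Pool.Agent.Lib.MP_488b8a_co_V.KpA

/-! Project SO (MP_488b8a_co), module KpI: the integral of the compression. -/

namespace Pool.Agent.CAPV

open Complex MeasureTheory

private theorem KpI_cont : Continuous bmp := by
  unfold bmp
  fun_prop

private theorem KpI_J {R : ℝ} (hR : 0 ≤ R) : ∫ u in (0 : ℝ)..R, bmp u ≤ 5 := by
  have hI : ∀ a b : ℝ, IntervalIntegrable bmp volume a b := fun a b =>
    KpI_cont.intervalIntegrable a b
  have h4 : (4 : ℝ) ≤ max R 4 := le_max_right _ _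
  have h1 : ∫ u in (0 : ℝ)..R, bmp u ≤ ∫ u in (0 : ℝ)..(max R 4), bmp u := by
    refine intervalIntegral.integral_mono_interval le_rfl hR (le_max_left _ _) ?_ (hI _ _)
    exact Filter.Eventually.of_forall fun u => (bmp_bd u).1.le
  have h2 : ∫ u in (0 : ℝ)..(max R 4), bmp u =
      (∫ u in (0 : ℝ)..4, bmp u) + ∫ u in (4 : ℝ)..(max R 4), bmp u :=
    (intervalIntegral.integral_add_adjacent_intervals (hI _ _) (hI _ _)).symm
  have h3 : ∫ u in (0 : ℝ)..4, bmp u ≤ 4 := by
    have h5 : ∫ u in (0 : ℝ)..4, bmp u ≤ ∫ u in (0 : ℝ)..4, (1 : ℝ) :=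
      intervalIntegral.integral_mono_on (by norm_num) (hI _ _)
        (continuous_const.intervalIntegrable _ _) fun u _ => (bmp_bd u).2.1
    rw [intervalIntegral.integral_const] at h5
    norm_num at h5
    exact h5
  have h6 : ∫ u in (4 : ℝ)..(max R 4), bmp u ≤ 1 := by
    have h7 : ∫ u in (4 : ℝ)..(max R 4), bmp u ≤
        ∫ u in (4 : ℝ)..(max R 4), Real.exp (4 - u) :=
      intervalIntegral.integral_mono_on h4 (hI _ _)
        (Continuous.intervalIntegrable (by fun_prop) _ _) fun u _ => min_le_right _ _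
    have h8 : ∫ u in (4 : ℝ)..(max R 4), Real.exp (4 - u) =
        -Real.exp (4 - max R 4) - -Real.exp (4 - 4) := by
      refine intervalIntegral.integral_eq_sub_of_hasDerivAt
        (f := fun u : ℝ => -Real.exp (4 - u)) (fun u _ => ?_)
        (Continuous.intervalIntegrable (by fun_prop) _ _)
      have h9 : HasDerivAt (fun u : ℝ => 4 - u) (-1) u := by
        simpa using (hasDerivAt_id u).const_sub 4
      have h10 : HasDerivAt (fun u : ℝ => -Real.exp (4 - u)) (-(Real.exp (4 - u) * -1)) u :=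
        h9.exp.neg
      rw [mul_neg_one, neg_neg] at h10
      exact h10
    have h11 := Real.exp_pos (4 - max R 4)
    rw [h8, sub_self, Real.exp_zero] at h7
    linarith
  linarith

private theorem KpI_abs {a b : ℝ} (hab : a ≤ b) : ∫ u in a..b, bmp |u| ≤ 10 := by
  have hc : Continuous fun u : ℝ => bmp |u| := KpI_cont.comp continuous_abs
  have hI : ∀ a b : ℝ, IntervalIntegrable (fun u : ℝ => bmp |u|) volume a b := fun a b =>
    hc.intervalIntegrable a b
  have hR : 0 ≤ max |a| |b| := (abs_nonneg a).trans (le_max_left _ _)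
  have ha : -max |a| |b| ≤ a := (neg_le_neg (le_max_left _ _)).trans (neg_abs_le a)
  have hb : b ≤ max |a| |b| := (le_abs_self b).trans (le_max_right _ _)
  have h1 : ∫ u in a..b, bmp |u| ≤ ∫ u in (-max |a| |b|)..(max |a| |b|), bmp |u| := by
    refine intervalIntegral.integral_mono_interval ha hab hb ?_ (hI _ _)
    exact Filter.Eventually.of_forall fun u => (bmp_bd _).1.le
  have h2 : ∫ u in (-max |a| |b|)..(max |a| |b|), bmp |u| =
      (∫ u in (-max |a| |b|)..0, bmp |u|) + ∫ u in (0 : ℝ)..(max |a| |b|), bmp |u| :=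
    (intervalIntegral.integral_add_adjacent_intervals (hI _ _) (hI _ _)).symm
  have h3 : ∫ u in (0 : ℝ)..(max |a| |b|), bmp |u| = ∫ u in (0 : ℝ)..(max |a| |b|), bmp u := by
    refine intervalIntegral.integral_congr fun u hu => ?_
    rw [Set.uIcc_of_le hR] at hu
    show bmp |u| = bmp u
    rw [abs_of_nonneg hu.1]
  have h4 : ∫ u in (-max |a| |b|)..0, bmp |u| = ∫ u in (0 : ℝ)..(max |a| |b|), bmp |u| := by
    have h5 := intervalIntegral.integral_comp_neg (a := 0) (b := max |a| |b|)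
      (fun u : ℝ => bmp |u|)
    simp only [abs_neg, neg_zero] at h5
    exact h5.symm
  have h6 := KpI_J hR
  rw [h2, h4, h3] at h1
  linarith

private theorem KpI_one (c : ℝ) {h : ℝ} (hh : 0 < h) :
    ∫ t in (-10 : ℝ)..10, bmp (|t - c| / h) ≤ 10 * h := by
  have h1 : ∀ t : ℝ, bmp (|t - c| / h) = (fun u : ℝ => bmp |u|) (t / h - c / h) := by
    intro t
    show _ = bmp |t / h - c / h|
    rw [← sub_div, abs_div, abs_of_pos hh]
  have h0 := intervalIntegral.integral_comp_div_sub (a := -10) (b := 10)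
    (fun u : ℝ => bmp |u|) hh.ne' (c / h)
  have e : ∫ t in (-10 : ℝ)..10, bmp (|t - c| / h) =
      ∫ t in (-10 : ℝ)..10, (fun u : ℝ => bmp |u|) (t / h - c / h) :=
    intervalIntegral.integral_congr fun t _ => h1 t
  rw [e, h0, smul_eq_mul]
  have h2 : -10 / h - c / h ≤ 10 / h - c / h := by
    have : -10 / h ≤ 10 / h := by
      gcongr
      norm_num
    linarith
  have h3 := mul_le_mul_of_nonneg_left (KpI_abs h2) hh.le
  linarith

private theorem KpI_dg (k : ℕ) : Continuous (dg k) := by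
  refine LipschitzWith.continuous (K := 1) (LipschitzWith.of_dist_le_mul fun s t => ?_)
  rw [Real.dist_eq, Real.dist_eq]
  simpa using dg_lip k s t

private theorem KpI_sum (n : ℕ) : ∑ k ∈ Finset.range n, ((k : ℝ) + 1) / 2 ^ k =
    4 - (2 * n + 4) / 2 ^ n := by
  induction n with
  | zero => norm_num
  | succ n ih =>
    rw [Finset.sum_range_succ, ih, pow_succ]
    push_cast
    field_simp
    ring

theorem bmp_int (k : ℕ) {h : ℝ} (hh : 0 < h) :
    ∫ t in (-10 : ℝ)..10, bmp (dg k t / h) ≤ 300 * 2 ^ k * h := by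
  obtain ⟨N, hN⟩ : ∃ N : ℤ, N = 10 * 2 ^ k := ⟨_, rfl⟩
  have hNr : (N : ℝ) = 10 * 2 ^ k := by
    rw [hN]
    push_cast
    rfl
  have h2k : (1 : ℝ) ≤ 2 ^ k := one_le_pow₀ (by norm_num)
  have hterm : ∀ m : ℤ, Continuous fun t : ℝ => bmp (|t - m / 2 ^ k| / h) := fun m =>
    KpI_cont.comp (by fun_prop)
  have hpt : ∀ t ∈ Set.Icc (-10 : ℝ) 10, bmp (dg k t / h) ≤
      ∑ m ∈ Finset.Icc (-N) N, bmp (|t - m / 2 ^ k| / h) := by
    intro t ht
    have h1 := abs_le.1 (abs_sub_round (2 ^ k * t))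
    have h2 : 2 ^ k * t ≤ N := by
      rw [hNr]
      nlinarith [ht.2]
    have h3 : -(N : ℝ) ≤ 2 ^ k * t := by
      rw [hNr]
      nlinarith [ht.1]
    have h4 : round (2 ^ k * t) < N + 1 := by
      have : ((round (2 ^ k * t) : ℤ) : ℝ) < N + 1 := by linarith
      exact_mod_cast this
    have h5 : -N - 1 < round (2 ^ k * t) := by
      have : -(N : ℝ) - 1 < ((round (2 ^ k * t) : ℤ) : ℝ) := by linarith
      exact_mod_cast this
    exact Finset.single_le_sum (f := fun m : ℤ => bmp (|t - m / 2 ^ k| / h))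
      (fun m _ => (bmp_bd _).1.le) (Finset.mem_Icc.2 ⟨by omega, by omega⟩)
  have h1 : ∫ t in (-10 : ℝ)..10, bmp (dg k t / h) ≤
      ∫ t in (-10 : ℝ)..10, ∑ m ∈ Finset.Icc (-N) N, bmp (|t - m / 2 ^ k| / h) := by
    refine intervalIntegral.integral_mono_on (by norm_num) ?_ ?_ hpt
    · exact (KpI_cont.comp ((KpI_dg k).div_const h)).intervalIntegrable _ _
    · exact (continuous_finsetSum _ fun m _ => hterm m).intervalIntegrable _ _
  rw [intervalIntegral.integral_finsetSum fun m _ => (hterm m).intervalIntegrable _ _] at h1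
  have h2 : ∑ m ∈ Finset.Icc (-N) N, ∫ t in (-10 : ℝ)..10, bmp (|t - m / 2 ^ k| / h) ≤
      ∑ m ∈ Finset.Icc (-N) N, 10 * h := Finset.sum_le_sum fun m _ => KpI_one _ hh
  rw [Finset.sum_const, nsmul_eq_mul, Int.card_Icc] at h2
  have hN0 : 0 ≤ N := by
    rw [hN]
    positivity
  have h3 : (((N + 1 - -N).toNat : ℕ) : ℝ) = 2 * N + 1 := by
    have h4 : (((N + 1 - -N).toNat : ℕ) : ℤ) = 2 * N + 1 := by
      rw [Int.toNat_of_nonneg (by linarith)]
      ring
    exact_mod_cast h4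
  rw [h3, hNr] at h2
  have h5 : (2 * (10 * 2 ^ k) + 1) * (10 * h) ≤ 300 * 2 ^ k * h := by nlinarith
  linarith

theorem kp_int (a0 : ℝ) (h0 : 0 ≤ a0) : ∃ C : ℝ, 0 ≤ C ∧ ∀ p : Prm, p.A0 = a0 → p.Au = a0 →
    1 / 16 ^ (p.K + 1) ≤ p.ε → ∫ t in (-10 : ℝ)..10, kp p t ≤ C * p.ε := by
  refine ⟨19220 * a0, by positivity, fun p hA hAu hK => ?_⟩
  have hε : 0 < p.ε := lt_of_lt_of_le (by positivity) hK
  have hc : ∀ k : ℕ, Continuous fun t : ℝ =>
      ((k : ℝ) + 1) / 16 ^ k * bmp (dg k t / hk p.K k) :=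
    fun k => continuous_const.mul (KpI_cont.comp ((KpI_dg k).div_const _))
  have hhk : ∀ k, 0 < hk p.K k := fun k => by
    unfold hk
    positivity
  have h1 : ∫ t in (-10 : ℝ)..10, kp p t = 20 * (a0 * p.ε) + a0 *
      ∑ k ∈ Finset.Ioc p.k0 p.K, ((k : ℝ) + 1) / 16 ^ k *
        ∫ t in (-10 : ℝ)..10, bmp (dg k t / hk p.K k) := by
    have hs : Continuous fun t : ℝ => a0 * ∑ k ∈ Finset.Ioc p.k0 p.K,
        ((k : ℝ) + 1) / 16 ^ k * bmp (dg k t / hk p.K k) :=
      continuous_const.mul (continuous_finsetSum _ fun k _ => hc k)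
    unfold kp
    rw [hA, hAu, intervalIntegral.integral_add (continuous_const.intervalIntegrable _ _)
      (hs.intervalIntegrable _ _),
      intervalIntegral.integral_const, intervalIntegral.integral_const_mul,
      intervalIntegral.integral_finsetSum fun k _ => (hc k).intervalIntegrable _ _]
    simp_rw [intervalIntegral.integral_const_mul]
    rw [smul_eq_mul]
    norm_num
  have h2 : ∀ k ∈ Finset.Ioc p.k0 p.K, ((k : ℝ) + 1) / 16 ^ k *
      ∫ t in (-10 : ℝ)..10, bmp (dg k t / hk p.K k) ≤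
        4800 * p.ε * (((k : ℝ) + 1) / 2 ^ k) := by
    intro k _
    have h3 := bmp_int k (hhk k)
    have h4 : (0 : ℝ) ≤ ((k : ℝ) + 1) / 16 ^ k := by positivity
    refine (mul_le_mul_of_nonneg_left h3 h4).trans ?_
    have h5 : ((k : ℝ) + 1) / 16 ^ k * (300 * 2 ^ k * hk p.K k) =
        4800 * (1 / 16 ^ (p.K + 1)) * (((k : ℝ) + 1) / 2 ^ k) := by
      unfold hk
      have h6 : (16 : ℝ) ^ k = 2 ^ k * 2 ^ k * 4 ^ k := by
        rw [← mul_pow, ← mul_pow]
        norm_num
      rw [h6, pow_succ]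
      field_simp
      ring
    rw [h5]
    gcongr
  have h7 : ∑ k ∈ Finset.Ioc p.k0 p.K, ((k : ℝ) + 1) / 2 ^ k ≤ 4 := by
    have h8 : ∑ k ∈ Finset.Ioc p.k0 p.K, ((k : ℝ) + 1) / 2 ^ k ≤
        ∑ k ∈ Finset.range (p.K + 1), ((k : ℝ) + 1) / 2 ^ k := by
      refine Finset.sum_le_sum_of_subset_of_nonneg (fun k hk => ?_) fun k _ _ => by positivity
      exact Finset.mem_range.2 (by have := (Finset.mem_Ioc.1 hk).2; omega)
    rw [KpI_sum] at h8
    have h9 : (0 : ℝ) ≤ (2 * ((p.K + 1 : ℕ) : ℝ) + 4) / 2 ^ (p.K + 1) := by positivity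
    linarith
  have h10 := Finset.sum_le_sum h2
  rw [← Finset.mul_sum] at h10
  have h11 : 4800 * p.ε * ∑ k ∈ Finset.Ioc p.k0 p.K, ((k : ℝ) + 1) / 2 ^ k ≤
      4800 * p.ε * 4 := mul_le_mul_of_nonneg_left h7 (by positivity)
  have h12 := mul_le_mul_of_nonneg_left (h10.trans h11) h0
  rw [h1]
  linarith

end Pool.Agent.CAPV
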