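import Pool.Agent.Lib.MP_488b8a_co_V.KpA

/-! Project SO (MP_488b8a_co), module KpM: the compression dominates the minimal one. -/

namespace Pool.Agent.CAPV

open Complex MeasureTheory

private theorem hk_pos' (K k : ℕ) : 0 < hk K k := by
  unfold hk
  positivity

private theorem hk_mono' (K : ℕ) {a b : ℕ} (h : a ≤ b) : hk K a ≤ hk K b := by
  unfold hk
  apply div_le_div_of_nonneg_right _ (by positivity)
  exact pow_le_pow_right₀ (by norm_num) h

private theorem bmp_one' {K k k0 : ℕ} (hk0 : k0 < k) {x x' : ℝ}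
    (hx : |x' - x| ≤ hk K (k0 + 1)) (h : dg k x' ≤ 3 * hk K k) :
    bmp (dg k x / hk K k) = 1 := by
  apply (bmp_bd _).2.2
  rw [div_le_iff₀ (hk_pos' K k)]
  have h1 := hk_mono' K (Nat.succ_le_of_lt hk0)
  have h2 := dg_lip k x x'
  rw [abs_le] at h2
  have h3 : |x - x'| = |x' - x| := abs_sub_comm _ _
  simp only [Nat.succ_eq_add_one] at h1
  linarith [h2.2]

theorem kp_kmin {p : Prm} {x t x' t' : ℝ} (hA : 0 ≤ p.Au) (h0 : 0 ≤ p.A0 * p.ε)
    (hx : |x' - x| ≤ hk p.K (p.k0 + 1)) (ht : |t' - t| ≤ hk p.K (p.k0 + 1)) :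
    kmin p (⟨x', t'⟩ : ℂ) ≤ kp p x + kp p t := by
  unfold kmin kp
  have key : ∑ k ∈ Finset.Ioc p.k0 p.K, ((k : ℝ) + 1) / 16 ^ k *
      (if dg k x' ≤ 3 * hk p.K k ∨ dg k t' ≤ 3 * hk p.K k then (1 : ℝ) else 0) ≤
      ∑ k ∈ Finset.Ioc p.k0 p.K, ((k : ℝ) + 1) / 16 ^ k * bmp (dg k x / hk p.K k) +
      ∑ k ∈ Finset.Ioc p.k0 p.K, ((k : ℝ) + 1) / 16 ^ k * bmp (dg k t / hk p.K k) := by
    rw [← Finset.sum_add_distrib]
    apply Finset.sum_le_sum
    intro k hk'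
    rw [Finset.mem_Ioc] at hk'
    rw [← mul_add]
    apply mul_le_mul_of_nonneg_left _ (by positivity)
    have hx0 := (bmp_bd (dg k x / hk p.K k)).1
    have ht0 := (bmp_bd (dg k t / hk p.K k)).1
    split_ifs with h
    · rcases h with h | h
      · rw [bmp_one' hk'.1 hx h]
        linarith
      · rw [bmp_one' hk'.1 ht h]
        linarith
    · linarith
  have h2 := mul_le_mul_of_nonneg_left key hA
  rw [mul_add] at h2
  simp only at h2 ⊢
  convert_to p.A0 * p.ε + p.Au * ∑ k ∈ Finset.Ioc p.k0 p.K, ((k : ℝ) + 1) / 16 ^ k *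
      (if dg k x' ≤ 3 * hk p.K k ∨ dg k t' ≤ 3 * hk p.K k then (1 : ℝ) else 0) ≤ _
  linarith

end Pool.Agent.CAPV
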