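import Pool.Agent.Lib.MP_488b8a_co_V.KpL
import Pool.Agent.Lib.MP_488b8a_co_V.KpI
import Pool.Agent.Lib.MP_488b8a_co_V.KpM

/-! Project SO (MP_488b8a_co), module KpF: the compression. -/

namespace Pool.Agent.CAPV

open Complex MeasureTheory

private theorem kpF_int_le {f : ℝ → ℝ} (hf : Continuous f) (h0 : ∀ t, 0 ≤ f t) {t : ℝ}
    (ht : |t| ≤ 10) : |∫ s in (0 : ℝ)..t, f s| ≤ ∫ s in (-10 : ℝ)..10, f s := by
  obtain ⟨h1, h2⟩ := abs_le.1 ht
  have hae : 0 ≤ᵐ[volume.restrict (Set.Ioc (-10 : ℝ) 10)] f :=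
    Filter.Eventually.of_forall (fun s => h0 s)
  rcases le_total 0 t with h | h
  · rw [abs_of_nonneg (intervalIntegral.integral_nonneg h (fun s _ => h0 s))]
    exact intervalIntegral.integral_mono_interval (by norm_num) h h2 hae
      (hf.intervalIntegrable _ _)
  · rw [intervalIntegral.integral_symm, abs_neg,
      abs_of_nonneg (intervalIntegral.integral_nonneg h (fun s _ => h0 s))]
    exact intervalIntegral.integral_mono_interval h1 h (by norm_num) hae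
      (hf.intervalIntegrable _ _)

theorem kp_all (a0 δ : ℝ) (h0 : 0 ≤ a0) (hδ : 0 < δ) : ∃ (C : ℝ) (k2 : ℕ), 1 ≤ C ∧ ∀ p : Prm,
    p.A0 = a0 → p.Au = a0 → k2 ≤ p.k0 → p.k0 ≤ p.K → 1 / 16 ^ (p.K + 1) ≤ p.ε →
    p.ε ≤ 1 / 16 ^ p.K → KP (kp p) (PP p) p.ε δ C ∧
      ∀ x t, |x| ≤ 10 → |t| ≤ 10 → kmin p (⟨PP p x, PP p t⟩ : ℂ) ≤ kp p x + kp p t := by
  obtain ⟨C0, hC0, hint⟩ := kp_int a0 h0
  obtain ⟨k2, hsz⟩ := kp_size a0 δ h0 hδ
  obtain ⟨k3, hk3⟩ := pow_unbounded_of_one_lt (max C0 1) (by norm_num : (1 : ℝ) < 4)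
  refine ⟨max C0 1, max k2 k3, le_max_right _ _, ?_⟩
  intro p hA0 hAu hkk hkK he1 he2
  have hk2 : k2 ≤ p.k0 := le_trans (le_max_left _ _) hkk
  have hk3' : k3 ≤ p.k0 := le_trans (le_max_right _ _) hkk
  obtain ⟨h1, h2⟩ := hsz p hA0 hAu hk2 hkK he1 he2
  have hε : 0 < p.ε := lt_of_lt_of_le (by positivity) he1
  have hlo : ∀ t, 0 ≤ kp p t := fun t => le_trans (mul_nonneg h0 hε.le) (h1 t).1
  have hI : ∫ t in (-10 : ℝ)..10, kp p t ≤ max C0 1 * p.ε :=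
    le_trans (hint p hA0 hAu he1) (mul_le_mul_of_nonneg_right (le_max_left _ _) hε.le)
  have hsh : ∀ t, |t| ≤ 10 → |PP p t - t| ≤ max C0 1 * p.ε := by
    intro t ht
    have h3 : PP p t - t = ∫ s in (0 : ℝ)..t, kp p s := by
      unfold PP
      ring
    rw [h3]
    exact le_trans (kpF_int_le (kp_cont p) hlo ht) hI
  have hhk : max C0 1 * p.ε ≤ hk p.K (p.k0 + 1) := by
    unfold hk
    have h4 : max C0 1 ≤ 4 ^ (p.k0 + 1) := by
      refine le_trans hk3.le ?_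
      exact pow_le_pow_right₀ (by norm_num) (by omega)
    calc max C0 1 * p.ε ≤ 4 ^ (p.k0 + 1) * (1 / 16 ^ p.K) :=
          mul_le_mul h4 he2 hε.le (by positivity)
      _ = 4 ^ (p.k0 + 1) / 16 ^ p.K := by ring
  refine ⟨⟨kp_cont p, hlo, fun t => (h1 t).2, h2, PP_der p, hsh, hI⟩, ?_⟩
  intro x t hx ht
  apply kp_kmin
  · rw [hAu]
    exact h0
  · rw [hA0]
    exact mul_nonneg h0 hε.le
  · exact le_trans (hsh x hx) hhk
  · exact le_trans (hsh t ht) hhk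

end Pool.Agent.CAPV
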