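import Pool.Agent.Lib.MP_488b8a_co_V.KpA

/-! Project SO (MP_488b8a_co), module KpL: size and variation of the compression. -/

namespace Pool.Agent.CAPV

open Complex MeasureTheory

private theorem KpL_geo {k0 K : ℕ} (h : k0 ≤ K) :
    ∑ k ∈ Finset.Ioc k0 K, ((1 : ℝ) / 8) ^ k ≤ (1 / 8) ^ k0 - (1 / 8) ^ K := by
  induction K, h using Nat.le_induction with
  | base => simp
  | succ n hn ih =>
    rw [Finset.sum_Ioc_succ_top (by omega)]
    have h1 : ((1 : ℝ) / 8) ^ (n + 1) = (1 / 8) ^ n * (1 / 8) := pow_succ _ _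
    have h2 : (0 : ℝ) ≤ (1 / 8) ^ n := by positivity
    linarith

private theorem KpL_wt (k : ℕ) : ((k : ℝ) + 1) / 16 ^ k ≤ (1 / 8) ^ k := by
  have h1 : ((k : ℝ) + 1) ≤ 2 ^ k := by
    have h2 : k + 1 ≤ 2 ^ k := Nat.lt_two_pow_self
    exact_mod_cast h2
  have h3 : ((1 : ℝ) / 8) ^ k = 2 ^ k / 16 ^ k := by
    rw [← div_pow]
    norm_num
  rw [h3]
  exact div_le_div_of_nonneg_right h1 (by positivity)

theorem kp_size (a0 δ : ℝ) (h0 : 0 ≤ a0) (hδ : 0 < δ) : ∃ k2 : ℕ, ∀ p : Prm, p.A0 = a0 →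
    p.Au = a0 → k2 ≤ p.k0 → p.k0 ≤ p.K → 1 / 16 ^ (p.K + 1) ≤ p.ε → p.ε ≤ 1 / 16 ^ p.K →
    (∀ t, a0 * p.ε ≤ kp p t ∧ kp p t ≤ δ) ∧
      ∀ s t, |s - t| ≤ 100 * p.ε → |kp p s - kp p t| ≤ δ / p.ε * kp p s * |s - t| := by
  obtain ⟨n, hn⟩ := exists_pow_lt_of_lt_one (by positivity : (0 : ℝ) < δ / (2 * a0 + 2))
    (by norm_num : (1 : ℝ) / 4 < 1)
  have hn' : (2 * a0 + 2) * (1 / 4) ^ n ≤ δ := by
    rw [lt_div_iff₀ (by positivity)] at hn
    linarith
  refine ⟨max 4 n, ?_⟩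
  rintro p hA hu hk2 hkK hε1 hε2
  have hk4 : 4 ≤ p.k0 := (le_max_left _ _).trans hk2
  have hkn : n ≤ p.k0 := (le_max_right _ _).trans hk2
  have hε : 0 < p.ε := lt_of_lt_of_le (by positivity) hε1
  have q4 : ((1 : ℝ) / 4) ^ p.k0 ≤ (1 / 4) ^ n :=
    pow_le_pow_of_le_one (by norm_num) (by norm_num) hkn
  have q8 : ((1 : ℝ) / 8) ^ p.k0 ≤ (1 / 4) ^ p.k0 :=
    pow_le_pow_left₀ (by norm_num) (by norm_num) _
  have q16 : (1 : ℝ) / 16 ^ p.K ≤ (1 / 4) ^ p.k0 := by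
    have h1 : (1 : ℝ) / 16 ^ p.K = (1 / 16) ^ p.K := by rw [one_div_pow]
    rw [h1]
    refine (pow_le_pow_left₀ (by norm_num) (by norm_num : (1 : ℝ) / 16 ≤ 1 / 4) _).trans ?_
    exact pow_le_pow_of_le_one (by norm_num) (by norm_num) hkK
  set S : ℝ → ℝ := fun t => ∑ k ∈ Finset.Ioc p.k0 p.K,
    ((k : ℝ) + 1) / 16 ^ k * bmp (dg k t / hk p.K k) with hS
  have hkp : ∀ t, kp p t = a0 * p.ε + a0 * S t := by
    intro t
    rw [kp, hA, hu]
  have hS0 : ∀ t, 0 ≤ S t := fun t => Finset.sum_nonneg fun k _ =>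
    mul_nonneg (by positivity) (bmp_bd _).1.le
  have hS1 : ∀ t, S t ≤ (1 / 8) ^ p.k0 := by
    intro t
    have h1 : S t ≤ ∑ k ∈ Finset.Ioc p.k0 p.K, ((1 : ℝ) / 8) ^ k := by
      refine Finset.sum_le_sum fun k _ => ?_
      have h2 := (bmp_bd (dg k t / hk p.K k)).2.1
      calc ((k : ℝ) + 1) / 16 ^ k * bmp (dg k t / hk p.K k) ≤ ((k : ℝ) + 1) / 16 ^ k * 1 :=
            mul_le_mul_of_nonneg_left h2 (by positivity)
        _ = ((k : ℝ) + 1) / 16 ^ k := mul_one _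
        _ ≤ _ := KpL_wt k
    have h3 := KpL_geo hkK
    have h4 : (0 : ℝ) ≤ (1 / 8) ^ p.K := by positivity
    linarith
  refine ⟨fun t => ⟨?_, ?_⟩, fun s t hst => ?_⟩
  · rw [hkp]
    have := mul_nonneg h0 (hS0 t)
    linarith
  · rw [hkp]
    have h1 : a0 * p.ε ≤ a0 * (1 / 4) ^ n :=
      mul_le_mul_of_nonneg_left ((hε2.trans q16).trans q4) h0
    have h2 : a0 * S t ≤ a0 * (1 / 4) ^ n :=
      mul_le_mul_of_nonneg_left (((hS1 t).trans q8).trans q4) h0
    have h3 : (0 : ℝ) ≤ (1 / 4) ^ n := by positivity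
    linarith
  · have hterm : ∀ k ∈ Finset.Ioc p.k0 p.K,
        |((k : ℝ) + 1) / 16 ^ k * bmp (dg k s / hk p.K k) -
          ((k : ℝ) + 1) / 16 ^ k * bmp (dg k t / hk p.K k)| ≤
        (δ / p.ε * |s - t|) * (((k : ℝ) + 1) / 16 ^ k * bmp (dg k s / hk p.K k)) := by
      intro k hk'
      rw [Finset.mem_Ioc] at hk'
      have hh : 0 < hk p.K k := by
        unfold hk
        positivity
      have hhε : p.ε * 4 ^ k ≤ hk p.K k := by
        unfold hk
        calc p.ε * 4 ^ k ≤ 1 / 16 ^ p.K * 4 ^ k :=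
              mul_le_mul_of_nonneg_right hε2 (by positivity)
          _ = 4 ^ k / 16 ^ p.K := by ring
      have h4k : (1024 : ℝ) ≤ 4 ^ k := by
        calc (1024 : ℝ) = 4 ^ 5 := by norm_num
          _ ≤ 4 ^ k := pow_le_pow_right₀ (by norm_num) (by omega)
      have h1 : |dg k s / hk p.K k - dg k t / hk p.K k| ≤ |s - t| / hk p.K k := by
        rw [← sub_div, abs_div, abs_of_pos hh]
        exact div_le_div_of_nonneg_right (dg_lip k s t) hh.le
      have h2 : |s - t| / hk p.K k ≤ 1 := by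
        rw [div_le_one hh]
        nlinarith
      have h3 := bmp_lip (h1.trans h2)
      have hb := (bmp_bd (dg k s / hk p.K k)).1
      have h5 : |s - t| / hk p.K k ≤ δ / 2 * (|s - t| / p.ε) := by
        have h6 : 2 / (4 : ℝ) ^ k ≤ δ := by
          have h7 : ((1 : ℝ) / 4) ^ k ≤ (1 / 4) ^ n :=
            pow_le_pow_of_le_one (by norm_num) (by norm_num) (by omega)
          have h8 : 2 / (4 : ℝ) ^ k = 2 * (1 / 4) ^ k := by
            rw [one_div_pow]
            ring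
          have h9 : 0 ≤ a0 * ((1 : ℝ) / 4) ^ n := by positivity
          rw [h8]
          linarith
        have h10 : |s - t| / hk p.K k ≤ |s - t| / (p.ε * 4 ^ k) :=
          div_le_div_of_nonneg_left (abs_nonneg _) (by positivity) hhε
        have h11 : |s - t| / (p.ε * 4 ^ k) = 2 / (4 : ℝ) ^ k * (|s - t| / p.ε) / 2 := by
          field_simp
        have h12 : 2 / (4 : ℝ) ^ k * (|s - t| / p.ε) ≤ δ * (|s - t| / p.ε) :=
          mul_le_mul_of_nonneg_right h6 (by positivity)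
        linarith
      rw [← mul_sub, abs_mul, abs_of_nonneg (by positivity : (0 : ℝ) ≤ ((k : ℝ) + 1) / 16 ^ k)]
      have h13 : |bmp (dg k s / hk p.K k) - bmp (dg k t / hk p.K k)| ≤
          (δ / p.ε * |s - t|) * bmp (dg k s / hk p.K k) := by
        refine h3.trans ?_
        have h14 : 2 * bmp (dg k s / hk p.K k) * |dg k s / hk p.K k - dg k t / hk p.K k| ≤
            2 * bmp (dg k s / hk p.K k) * (δ / 2 * (|s - t| / p.ε)) :=
          mul_le_mul_of_nonneg_left (h1.trans h5) (by positivity)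
        refine h14.trans (le_of_eq ?_)
        ring
      calc ((k : ℝ) + 1) / 16 ^ k * |bmp (dg k s / hk p.K k) - bmp (dg k t / hk p.K k)| ≤
          ((k : ℝ) + 1) / 16 ^ k * ((δ / p.ε * |s - t|) * bmp (dg k s / hk p.K k)) :=
            mul_le_mul_of_nonneg_left h13 (by positivity)
        _ = _ := by ring
    have hdiff : |S s - S t| ≤ (δ / p.ε * |s - t|) * S s := by
      have h1 : S s - S t = ∑ k ∈ Finset.Ioc p.k0 p.K,
          (((k : ℝ) + 1) / 16 ^ k * bmp (dg k s / hk p.K k) -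
            ((k : ℝ) + 1) / 16 ^ k * bmp (dg k t / hk p.K k)) := by
        rw [Finset.sum_sub_distrib]
      rw [h1]
      refine (Finset.abs_sum_le_sum_abs _ _).trans ?_
      refine (Finset.sum_le_sum hterm).trans (le_of_eq ?_)
      rw [← Finset.mul_sum]
    have h1 : kp p s - kp p t = a0 * (S s - S t) := by
      rw [hkp, hkp]
      ring
    rw [h1, abs_mul, abs_of_nonneg h0]
    have h2 := mul_le_mul_of_nonneg_left hdiff h0
    have h3 : 0 ≤ (δ / p.ε * |s - t|) * (a0 * p.ε) := by positivity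
    rw [hkp]
    calc a0 * |S s - S t| ≤ a0 * ((δ / p.ε * |s - t|) * S s) := h2
      _ ≤ (δ / p.ε * |s - t|) * (a0 * p.ε) + a0 * ((δ / p.ε * |s - t|) * S s) := by linarith
      _ = _ := by ring

end Pool.Agent.CAPV
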