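import Pool.Agent.Lib.MP_488b8a_co_V.KDef
import Pool.Agent.Lib.MP_488b8a_co_V.ChD

/-! Project SO (MP_488b8a_co), module MerA: the equal-area coordinate of the latitude. -/

namespace Pool.Agent.CAPV

open Complex

private theorem MerA_tanh (y : ℝ) : HasDerivAt Real.tanh (1 / Real.cosh y ^ 2) y := by
  have h1 := (Real.hasDerivAt_sinh y).div (Real.hasDerivAt_cosh y) (Real.cosh_pos y).ne'
  have h2 : (Real.cosh y * Real.cosh y - Real.sinh y * Real.sinh y) / Real.cosh y ^ 2 =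
      1 / Real.cosh y ^ 2 := by
    rw [show Real.cosh y * Real.cosh y - Real.sinh y * Real.sinh y = 1 by
      nlinarith [Real.cosh_sq y]]
  rw [h2] at h1
  have h3 : Real.tanh = fun x => Real.sinh x / Real.cosh x := by
    funext x
    exact Real.tanh_eq_sinh_div_cosh x
  rw [h3]
  exact h1

private theorem MerA_cosh_le (a b : ℝ) : Real.cosh a ≤ Real.exp |a - b| * Real.cosh b := by
  have h1 : Real.exp a ≤ Real.exp |a - b| * Real.exp b := by
    rw [← Real.exp_add]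
    apply Real.exp_le_exp.2
    linarith [le_abs_self (a - b)]
  have h2 : Real.exp (-a) ≤ Real.exp |a - b| * Real.exp (-b) := by
    rw [← Real.exp_add]
    apply Real.exp_le_exp.2
    linarith [neg_abs_le (a - b)]
  rw [Real.cosh_eq, Real.cosh_eq]
  linarith

private theorem MerA_my_pos (y0 y : ℝ) : 0 < my y0 y :=
  div_pos (Real.cosh_pos _) (Real.cosh_pos _)

/-- lower bound for the scale -/
private theorem MerA_low {y0 y c : ℝ} (h : |y - y0| ≤ c) : Real.exp (-c) ≤ my y0 y := by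
  have h1 := MerA_cosh_le y y0
  have hy := Real.cosh_pos y
  have h0 := Real.cosh_pos y0
  unfold my
  rw [le_div_iff₀ hy]
  have h2 : Real.exp (-c) * Real.exp |y - y0| ≤ 1 := by
    rw [← Real.exp_add, ← Real.exp_zero]
    apply Real.exp_le_exp.2
    linarith
  calc Real.exp (-c) * Real.cosh y ≤ Real.exp (-c) * (Real.exp |y - y0| * Real.cosh y0) :=
        mul_le_mul_of_nonneg_left h1 (Real.exp_pos _).le
    _ = (Real.exp (-c) * Real.exp |y - y0|) * Real.cosh y0 := by ring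
    _ ≤ 1 * Real.cosh y0 := mul_le_mul_of_nonneg_right h2 h0.le
    _ = Real.cosh y0 := one_mul _

/-- upper bound for the scale -/
private theorem MerA_up {y0 y c : ℝ} (hc : 0 ≤ c) (h0 : 0 ≤ y0) (h1 : y0 - c ≤ y) :
    my y0 y ≤ Real.exp c := by
  have hy := Real.cosh_pos y
  unfold my
  rw [div_le_iff₀ hy]
  rcases le_total y0 y with h | h
  · have h2 : Real.cosh y0 ≤ Real.cosh y := by
      rw [Real.cosh_le_cosh, abs_of_nonneg h0, abs_of_nonneg (h0.trans h)]
      exact h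
    have h3 : 1 ≤ Real.exp c := Real.one_le_exp hc
    nlinarith
  · refine (MerA_cosh_le y0 y).trans (mul_le_mul_of_nonneg_right ?_ hy.le)
    apply Real.exp_le_exp.2
    rw [abs_of_nonneg (by linarith)]
    linarith

private theorem MerA_exp1 : Real.exp 1 < 2.7182818286 := Real.exp_one_lt_d9

private theorem MerA_expx {x : ℝ} (h0 : 0 ≤ x) (h1 : x < 1) : Real.exp x ≤ 1 / (1 - x) :=
  Real.exp_bound_div_one_sub_of_interval h0 h1

theorem ty_der (y0 y : ℝ) : HasDerivAt (ty y0) (my y0 y ^ 2) y := by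
  have h1 := ((MerA_tanh y).const_sub 1).const_mul (-(Real.cosh y0) ^ 2)
  have h2 : -(Real.cosh y0) ^ 2 * -(1 / Real.cosh y ^ 2) = my y0 y ^ 2 := by
    unfold my
    rw [div_pow]
    ring
  rw [h2] at h1
  exact h1

private theorem MerA_one_sub (y : ℝ) : 1 - Real.tanh y = Real.exp (-y) / Real.cosh y := by
  have hy := (Real.cosh_pos y).ne'
  rw [Real.tanh_eq_sinh_div_cosh, ← Real.cosh_sub_sinh]
  field_simp

theorem mm_ty (y0 y : ℝ) : mm (1 / Real.cosh y0) (ty y0 y) = my y0 y := by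
  have hy := (Real.cosh_pos y).ne'
  have h0 := (Real.cosh_pos y0).ne'
  have h1 : -(ty y0 y) * (2 + (1 / Real.cosh y0) ^ 2 * ty y0 y) = (my y0 y) ^ 2 := by
    unfold ty my
    rw [Real.tanh_eq_sinh_div_cosh]
    field_simp
    nlinarith [Real.cosh_sq y]
  unfold mm
  rw [h1, Real.sqrt_sq (MerA_my_pos y0 y).le]

theorem my_bd {y0 y : ℝ} (h0 : 0 ≤ y0) (h1 : y0 - 1 / 100 ≤ y) (h2 : y ≤ y0 + 1 + 1 / 100) :
    9 / 25 ≤ my y0 y ∧ my y0 y ≤ 51 / 50 := by
  have he1 := MerA_exp1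
  have he2 := MerA_expx (x := 1 / 100) (by norm_num) (by norm_num)
  constructor
  · have h3 : |y - y0| ≤ 1 + 1 / 100 := abs_le.2 ⟨by linarith, by linarith⟩
    refine le_trans ?_ (MerA_low h3)
    rw [Real.exp_neg, Real.exp_add, ← one_div, le_div_iff₀ (by positivity)]
    have h4 : Real.exp 1 * Real.exp (1 / 100) ≤ 2.7182818286 * (1 / (1 - 1 / 100)) :=
      mul_le_mul he1.le he2 (Real.exp_pos _).le (by norm_num)
    have h5 : (2.7182818286 : ℝ) * (1 / (1 - 1 / 100)) ≤ 25 / 9 := by norm_num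
    linarith
  · refine (MerA_up (c := 1 / 100) (by norm_num) h0 h1).trans (he2.trans ?_)
    norm_num

private theorem MerA_my_der (y0 y : ℝ) :
    HasDerivAt (fun y => my y0 y ^ 2) (-2 * my y0 y ^ 2 * Real.tanh y) y := by
  have hy := (Real.cosh_pos y).ne'
  have h1 : HasDerivAt (fun y => my y0 y)
      (((0 : ℝ) * Real.cosh y - Real.cosh y0 * Real.sinh y) / Real.cosh y ^ 2) y :=
    (hasDerivAt_const y (Real.cosh y0)).div (Real.hasDerivAt_cosh y) hy
  have h2 := h1.pow 2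
  have h3 : ((2 : ℕ) : ℝ) * my y0 y ^ (2 - 1) *
      (((0 : ℝ) * Real.cosh y - Real.cosh y0 * Real.sinh y) / Real.cosh y ^ 2) =
      -2 * my y0 y ^ 2 * Real.tanh y := by
    rw [Real.tanh_eq_sinh_div_cosh, show (2 : ℕ) - 1 = 1 from rfl, pow_one]
    unfold my
    push_cast
    field_simp
    ring
  rw [h3] at h2
  exact h2

theorem my_lip {y0 y y' : ℝ} (h0 : 0 ≤ y0) (h1 : y0 - 1 / 100 ≤ y) (h2 : y ≤ y0 + 1 + 1 / 100)
    (h1' : y0 - 1 / 100 ≤ y') (h2' : y' ≤ y0 + 1 + 1 / 100) :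
    |my y0 y ^ 2 - my y0 y' ^ 2| ≤ 3 * |y - y'| := by
  have h3 := Convex.norm_image_sub_le_of_norm_hasDerivWithin_le
    (f := fun y => my y0 y ^ 2) (f' := fun y => -2 * my y0 y ^ 2 * Real.tanh y)
    (s := Set.Icc (y0 - 1 / 100) (y0 + 1 + 1 / 100)) (C := 3)
    (fun x _ => (MerA_my_der y0 x).hasDerivWithinAt) (fun x hx => by
      obtain ⟨h4, h5⟩ := my_bd h0 hx.1 hx.2
      have h6 := (Real.abs_tanh_lt_one x).le
      rw [Real.norm_eq_abs, abs_mul, abs_mul, abs_of_nonneg (sq_nonneg (my y0 x))]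
      have h7 : |(-2 : ℝ)| = 2 := by norm_num
      rw [h7]
      have h8 : my y0 x ^ 2 ≤ (51 / 50) ^ 2 := pow_le_pow_left₀ (by linarith) h5 2
      have h9 : 2 * my y0 x ^ 2 * |Real.tanh x| ≤ 2 * my y0 x ^ 2 * 1 :=
        mul_le_mul_of_nonneg_left h6 (by positivity)
      linarith) (convex_Icc _ _) (x := y') (y := y) ⟨h1', h2'⟩ ⟨h1, h2⟩
  simpa only [Real.norm_eq_abs] using h3

theorem ty_range {y0 y : ℝ} (h0 : 0 ≤ y0) (h1 : y0 - 1 / 400 ≤ y) (h2 : y ≤ y0 + 1 + 1 / 400) :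
    -(1006 / 1000) ≤ ty y0 y ∧ ty y0 y ≤ -(66 / 1000) := by
  have hy := Real.cosh_pos y
  have hc0 := Real.cosh_pos y0
  have e : ty y0 y = -((Real.cosh y0 * Real.exp (-y0)) * Real.exp (y0 - y) * my y0 y) := by
    unfold ty my
    rw [MerA_one_sub, show y0 - y = y0 + -y by ring, Real.exp_add, Real.exp_neg y0]
    have := (Real.exp_pos y0).ne'
    field_simp
  have hm := MerA_my_pos y0 y
  have hA1 : Real.cosh y0 * Real.exp (-y0) ≤ 1 := by
    rw [Real.cosh_eq]
    have h3 : Real.exp y0 * Real.exp (-y0) = 1 := by rw [← Real.exp_add]; simp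
    have h4 : Real.exp (-y0) ≤ 1 := Real.exp_le_one_iff.2 (by linarith)
    have h5 := Real.exp_pos (-y0)
    nlinarith
  have hA2 : 1 / 2 ≤ Real.cosh y0 * Real.exp (-y0) := by
    rw [Real.cosh_eq]
    have h3 : Real.exp y0 * Real.exp (-y0) = 1 := by rw [← Real.exp_add]; simp
    have h5 := Real.exp_pos (-y0)
    nlinarith
  have he1 := MerA_exp1
  have he2 := MerA_expx (x := 1 / 400) (by norm_num) (by norm_num)
  constructor
  · have h3 : my y0 y ≤ Real.exp (1 / 400) := MerA_up (by norm_num) h0 h1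
    have h4 : Real.exp (y0 - y) ≤ Real.exp (1 / 400) := Real.exp_le_exp.2 (by linarith)
    have h5 := Real.exp_pos (y0 - y)
    have h6 := Real.exp_pos (1 / 400 : ℝ)
    have h7 : (Real.cosh y0 * Real.exp (-y0)) * Real.exp (y0 - y) ≤ 1 * Real.exp (1 / 400) :=
      mul_le_mul hA1 h4 h5.le zero_le_one
    have h8 : (Real.cosh y0 * Real.exp (-y0)) * Real.exp (y0 - y) * my y0 y ≤
        (1 * Real.exp (1 / 400)) * Real.exp (1 / 400) :=
      mul_le_mul h7 h3 hm.le (by positivity)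
    have h9 : (1 * Real.exp (1 / 400)) * Real.exp (1 / 400) ≤
        (1 / (1 - 1 / 400)) * (1 / (1 - 1 / 400)) := by
      rw [one_mul]
      exact mul_le_mul he2 he2 h6.le (by norm_num)
    have h10 : (1 / (1 - 1 / 400) : ℝ) * (1 / (1 - 1 / 400)) ≤ 1006 / 1000 := by norm_num
    rw [e]
    linarith
  · have h3 : Real.exp (-(1 + 1 / 400)) ≤ my y0 y :=
      MerA_low (abs_le.2 ⟨by linarith, by linarith⟩)
    have h4 : Real.exp (-(1 + 1 / 400)) ≤ Real.exp (y0 - y) := Real.exp_le_exp.2 (by linarith)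
    have h6 := Real.exp_pos (-(1 + 1 / 400) : ℝ)
    have h7 : 1 / 2 * Real.exp (-(1 + 1 / 400)) ≤
        (Real.cosh y0 * Real.exp (-y0)) * Real.exp (y0 - y) :=
      mul_le_mul hA2 h4 h6.le (by positivity)
    have h8 : (1 / 2 * Real.exp (-(1 + 1 / 400))) * Real.exp (-(1 + 1 / 400)) ≤
        (Real.cosh y0 * Real.exp (-y0)) * Real.exp (y0 - y) * my y0 y :=
      mul_le_mul h7 h3 h6.le (by positivity)
    have h9 : 364 / 1000 ≤ Real.exp (-(1 + 1 / 400)) := by
      rw [Real.exp_neg, Real.exp_add, ← one_div, le_div_iff₀ (by positivity)]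
      have h4 : Real.exp 1 * Real.exp (1 / 400) ≤ 2.7182818286 * (1 / (1 - 1 / 400)) :=
        mul_le_mul he1.le he2 (Real.exp_pos _).le (by norm_num)
      have h5 : (364 / 1000 : ℝ) * (2.7182818286 * (1 / (1 - 1 / 400))) ≤ 1 := by norm_num
      linarith
    rw [e]
    nlinarith

/-- the radius of the parallel as a function of the equal-area coordinate -/
theorem mm_lip {T s s' : ℝ} (h0 : 0 ≤ T) (h1 : T ≤ 1) (h2 : -(103 / 100) ≤ s) (h3 : s ≤ -(1 / 25))
    (h2' : -(103 / 100) ≤ s') (h3' : s' ≤ -(1 / 25)) : |mm T s - mm T s'| ≤ 10 * |s - s'| := by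
  obtain ⟨e1, e2, -⟩ := mm_range h0 h1 h2 h3
  obtain ⟨e1', e2', -⟩ := mm_range h0 h1 h2' h3'
  have hT2 : T ^ 2 ≤ 1 := by nlinarith
  have hT0 : 0 ≤ T ^ 2 := sq_nonneg T
  have h4 : (mm T s - mm T s') * (mm T s + mm T s') = -(s - s') * (2 + T ^ 2 * (s + s')) := by
    have : (mm T s - mm T s') * (mm T s + mm T s') = mm T s ^ 2 - mm T s' ^ 2 := by ring
    rw [this, e1, e1']
    ring
  have h5 : |mm T s - mm T s'| * (mm T s + mm T s') = |s - s'| * |2 + T ^ 2 * (s + s')| := by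
    have h6 := congrArg abs h4
    rw [abs_mul, abs_mul, abs_neg, abs_of_nonneg (show 0 ≤ mm T s + mm T s' by linarith)] at h6
    exact h6
  have h7 : |2 + T ^ 2 * (s + s')| ≤ 2 := by
    rw [abs_le]
    constructor <;> nlinarith
  have h8 : |s - s'| * |2 + T ^ 2 * (s + s')| ≤ |s - s'| * 2 :=
    mul_le_mul_of_nonneg_left h7 (abs_nonneg _)
  have h9 : |mm T s - mm T s'| * (1 / 3) ≤ |mm T s - mm T s'| * (mm T s + mm T s') :=
    mul_le_mul_of_nonneg_left (by linarith) (abs_nonneg _)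
  have h10 := abs_nonneg (s - s')
  linarith

end Pool.Agent.CAPV
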