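import Pool.Agent.Lib.MP_488b8a_co_V.MerA
import Pool.Agent.Lib.MP_488b8a_co_V.BLc

/-! Project SO (MP_488b8a_co), module MerB: the map from the Mercator plane to the base plane. -/

namespace Pool.Agent.CAPV

open Complex

private theorem MerB_mvt {f f' : ℝ → ℝ} {m M a b : ℝ} (hd : ∀ t, HasDerivAt f (f' t) t)
    (h0 : 0 ≤ m) (hb : ∀ t, min a b ≤ t → t ≤ max a b → m ≤ f' t ∧ f' t ≤ M) :
    m * |a - b| ≤ |f a - f b| ∧ |f a - f b| ≤ M * |a - b| := by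
  have key : ∀ a b : ℝ, a < b → (∀ t, a ≤ t → t ≤ b → m ≤ f' t ∧ f' t ≤ M) →
      m * |a - b| ≤ |f a - f b| ∧ |f a - f b| ≤ M * |a - b| := by
    intro a b hab hb
    obtain ⟨c, ⟨hc1, hc2⟩, hc⟩ := exists_hasDerivAt_eq_slope f f' hab
      (fun t _ => (hd t).continuousAt.continuousWithinAt) (fun t _ => hd t)
    have hba : 0 < b - a := by linarith
    have h1 : f b - f a = f' c * (b - a) := by
      rw [hc]
      field_simp
    obtain ⟨h2, h3⟩ := hb c hc1.le hc2.le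
    have h4 : 0 ≤ f' c := h0.trans h2
    have h5 : |f a - f b| = f' c * (b - a) := by
      rw [abs_sub_comm, h1, abs_of_nonneg (mul_nonneg h4 hba.le)]
    have h6 : |a - b| = b - a := by
      rw [abs_sub_comm, abs_of_pos hba]
    rw [h5, h6]
    exact ⟨mul_le_mul_of_nonneg_right h2 hba.le, mul_le_mul_of_nonneg_right h3 hba.le⟩
  rcases lt_trichotomy a b with h | h | h
  · rw [min_eq_left h.le, max_eq_right h.le] at hb
    exact key a b h hb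
  · subst h
    simp
  · rw [min_eq_right h.le, max_eq_left h.le] at hb
    have := key b a h hb
    rwa [abs_sub_comm b a, abs_sub_comm (f b)] at this

private theorem MerB_P {κ P : ℝ → ℝ} {ε δ C : ℝ} (h : KP κ P ε δ C) (hδ : δ ≤ 1 / 100)
    (a b : ℝ) : |a - b| ≤ |P a - P b| ∧ |P a - P b| ≤ 101 / 100 * |a - b| := by
  have h1 := MerB_mvt (m := 1) (M := 101 / 100) (a := a) (b := b) h.dP zero_le_one
    (fun t _ _ => ⟨by linarith [h.lo t], by linarith [h.hi t]⟩)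
  rwa [one_mul] at h1

private theorem MerB_ty {y0 a b : ℝ} (h0 : 0 ≤ y0) (h1 : y0 - 1 / 100 ≤ a)
    (h2 : a ≤ y0 + 1 + 1 / 100) (h1' : y0 - 1 / 100 ≤ b) (h2' : b ≤ y0 + 1 + 1 / 100) :
    1 / 8 * |a - b| ≤ |ty y0 a - ty y0 b| ∧ |ty y0 a - ty y0 b| ≤ 105 / 100 * |a - b| := by
  refine MerB_mvt (m := 1 / 8) (M := 105 / 100) (a := a) (b := b) (ty_der y0) (by norm_num)
    (fun t ht ht' => ?_)
  have h3 : y0 - 1 / 100 ≤ t := (le_min h1 h1').trans ht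
  have h4 : t ≤ y0 + 1 + 1 / 100 := ht'.trans (max_le h2 h2')
  obtain ⟨h5, h6⟩ := my_bd h0 h3 h4
  constructor <;> nlinarith

theorem zz_der {κ P : ℝ → ℝ} {ε δ C : ℝ} (h : KP κ P ε δ C) (y0 : ℝ) (Z : ℂ) :
    HasFDerivAt (zz P y0) (fr ((1 + κ Z.re : ℝ) : ℂ)
      (I * (((1 + κ (ty y0 Z.im)) * my y0 Z.im ^ 2 : ℝ) : ℂ))) Z := by
  have h1 : HasFDerivAt (fun y : ℂ => P y.re) ((1 + κ Z.re) • reCLM) Z :=
    (h.dP Z.re).comp_hasFDerivAt Z reCLM.hasFDerivAt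
  have h2 : HasFDerivAt (fun y : ℂ => P (ty y0 y.im))
      (((1 + κ (ty y0 Z.im)) * my y0 Z.im ^ 2) • imCLM) Z :=
    ((h.dP (ty y0 Z.im)).comp Z.im (ty_der y0 Z.im)).comp_hasFDerivAt Z imCLM.hasFDerivAt
  have h3 : HasFDerivAt (fun y : ℂ => ((P y.re : ℝ) : ℂ))
      (ofRealCLM.comp ((1 + κ Z.re) • reCLM)) Z := ofRealCLM.hasFDerivAt.comp Z h1
  have h4 : HasFDerivAt (fun y : ℂ => ((P (ty y0 y.im) : ℝ) : ℂ))
      (ofRealCLM.comp (((1 + κ (ty y0 Z.im)) * my y0 Z.im ^ 2) • imCLM)) Z :=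
    ofRealCLM.hasFDerivAt.comp Z h2
  have h5 := h3.add (h4.const_mul I)
  have h6 : zz P y0 = fun y : ℂ => ((P y.re : ℝ) : ℂ) + I * ((P (ty y0 y.im) : ℝ) : ℂ) := by
    funext y
    apply Complex.ext <;> simp [zz]
  rw [h6]
  refine HasFDerivAt.congr_fderiv h5 ?_
  refine ContinuousLinearMap.ext fun v => ?_
  rw [fr_apply]
  simp only [add_apply, smul_apply,
    ContinuousLinearMap.comp_apply, ofRealCLM_apply, reCLM_apply, imCLM_apply, smul_eq_mul]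
  push_cast
  ring

theorem zz_lip {κ P : ℝ → ℝ} {ε δ C y0 : ℝ} (h : KP κ P ε δ C) (hδ : δ ≤ 1 / 100) (h0 : 0 ≤ y0)
    {Z Z' : ℂ} (h1 : y0 - 1 / 100 ≤ Z.im) (h2 : Z.im ≤ y0 + 1 + 1 / 100)
    (h1' : y0 - 1 / 100 ≤ Z'.im) (h2' : Z'.im ≤ y0 + 1 + 1 / 100) :
    ‖Z - Z'‖ ≤ 8 * ‖zz P y0 Z - zz P y0 Z'‖ ∧ ‖zz P y0 Z - zz P y0 Z'‖ ≤ 2 * ‖Z - Z'‖ := by
  obtain ⟨a1, a2⟩ := MerB_P h hδ Z.re Z'.re
  obtain ⟨b1, b2⟩ := MerB_P h hδ (ty y0 Z.im) (ty y0 Z'.im)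
  obtain ⟨c1, c2⟩ := MerB_ty h0 h1 h2 h1' h2'
  have hre : (zz P y0 Z - zz P y0 Z').re = P Z.re - P Z'.re := by simp [zz]
  have him : (zz P y0 Z - zz P y0 Z').im = P (ty y0 Z.im) - P (ty y0 Z'.im) := by simp [zz]
  have d1 : ‖Z - Z'‖ ^ 2 = |Z.re - Z'.re| ^ 2 + |Z.im - Z'.im| ^ 2 := by
    rw [← normSq_eq_norm_sq, normSq_apply, sub_re, sub_im, sq_abs, sq_abs]
    ring
  have d2 : ‖zz P y0 Z - zz P y0 Z'‖ ^ 2 =
      |P Z.re - P Z'.re| ^ 2 + |P (ty y0 Z.im) - P (ty y0 Z'.im)| ^ 2 := by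
    rw [← normSq_eq_norm_sq, normSq_apply, hre, him, sq_abs, sq_abs]
    ring
  have e1 : |Z.im - Z'.im| ≤ 8 * |P (ty y0 Z.im) - P (ty y0 Z'.im)| := by linarith
  have e2 : |P (ty y0 Z.im) - P (ty y0 Z'.im)| ≤ 2 * |Z.im - Z'.im| := by
    have := abs_nonneg (Z.im - Z'.im)
    linarith
  have e3 : |Z.re - Z'.re| ≤ 8 * |P Z.re - P Z'.re| := by
    have := abs_nonneg (P Z.re - P Z'.re)
    linarith
  have e4 : |P Z.re - P Z'.re| ≤ 2 * |Z.re - Z'.re| := by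
    have := abs_nonneg (Z.re - Z'.re)
    linarith
  constructor
  · refine le_of_sq_le_sq ?_ (by positivity)
    rw [mul_pow, d1, d2]
    have f1 := pow_le_pow_left₀ (abs_nonneg _) e1 2
    have f2 := pow_le_pow_left₀ (abs_nonneg _) e3 2
    rw [mul_pow] at f1 f2
    linarith
  · refine le_of_sq_le_sq ?_ (by positivity)
    rw [mul_pow, d1, d2]
    have f1 := pow_le_pow_left₀ (abs_nonneg _) e2 2
    have f2 := pow_le_pow_left₀ (abs_nonneg _) e4 2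
    rw [mul_pow] at f1 f2
    linarith

theorem zz_cont {κ P : ℝ → ℝ} {ε δ C : ℝ} (h : KP κ P ε δ C) (y0 : ℝ) :
    Continuous (zz P y0) :=
  continuous_iff_continuousAt.2 fun Z => (zz_der h y0 Z).continuousAt

/-- the window is mapped into the rectangle -/
theorem zz_RB {κ P : ℝ → ℝ} {ε δ C y0 : ℝ} (h : KP κ P ε δ C) (h0 : 0 ≤ y0)
    (hε : C * ε ≤ 1 / 1000) {Z : ℂ} (hZ : Z ∈ Win y0) : zz P y0 Z ∈ RB := by
  obtain ⟨h1, h2, h3, h4⟩ := hZ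
  have hpi := Real.pi_lt_d2
  obtain ⟨t1, t2⟩ := ty_range h0 h3 h4
  have p1 := abs_le.1 (h.sh Z.re (abs_le.2 ⟨by linarith, by linarith⟩))
  have p2 := abs_le.1 (h.sh (ty y0 Z.im) (abs_le.2 ⟨by linarith, by linarith⟩))
  refine ⟨?_, ?_, ?_, ?_⟩
  · show -(1 / 10) ≤ P Z.re
    linarith [p1.1]
  · show P Z.re ≤ 7
    linarith [p1.2]
  · show -(101 / 100) ≤ P (ty y0 Z.im)
    linarith [p2.1]
  · show P (ty y0 Z.im) ≤ -(28 / 500)
    linarith [p2.2]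

end Pool.Agent.CAPV
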