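import Pool.Agent.Lib.MP_488b8a_co_V.ZeB
import Pool.Agent.Lib.MP_488b8a_co_U.PsiL

/-! Project SO (MP_488b8a_co), module WVal: values of the components of the radial correction. -/

namespace Pool.Agent.CAPV

open Complex

private theorem WVal_basic {K : ℝ} (hK : 1 ≤ K) {S : SD} {t : ℝ} (hS : S.Hyp K t)
    (hW : S.HypW K) : 0 < t ∧ 0 < CAPU.Dm S.M ∧ 1 / CAPU.Dm S.M ≤ 1000 * K ^ 2 * t ∧
      CAPU.Dm S.M ≤ 1 / t := by
  have he := hS.e0
  have hh := hS.h0
  have h1 := hS.eh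
  have h2 := hS.he
  have h3 := hW.lo
  have h4 := hW.hi
  have hK0 : 0 < K := by linarith
  have ht : 0 < t := by
    by_contra hc
    push Not at hc
    have := mul_nonpos_of_nonpos_of_nonneg hc hh.le
    linarith
  have hKe : 0 < 1000 * K ^ 2 * S.ε := by positivity
  have hD : 0 < CAPU.Dm S.M := by
    by_contra hc
    push Not at hc
    have := mul_nonpos_of_nonneg_of_nonpos hKe.le hc
    linarith
  refine ⟨ht, hD, ?_, ?_⟩
  · rw [div_le_iff₀ hD]
    have h5 : S.h * 1 ≤ S.h * (1000 * K ^ 2 * t * CAPU.Dm S.M) := by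
      have h6 : 1000 * K ^ 2 * CAPU.Dm S.M * S.ε ≤ 1000 * K ^ 2 * CAPU.Dm S.M * (t * S.h) :=
        mul_le_mul_of_nonneg_left h1 (by positivity)
      linarith
    exact le_of_mul_le_mul_left h5 hh
  · rw [le_div_iff₀ ht]
    have h5 : (100 * K ^ 2 * S.ε * CAPU.Dm S.M) * t ≤ S.h * t :=
      mul_le_mul_of_nonneg_right h4 ht.le
    have h6 : (K * S.ε) * (CAPU.Dm S.M * t) ≤ (K * S.ε) * 1 := by
      have h7 : (K * S.ε) * (CAPU.Dm S.M * t) ≤ 100 * K * ((K * S.ε) * (CAPU.Dm S.M * t)) := by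
        have : 0 ≤ (K * S.ε) * (CAPU.Dm S.M * t) := by positivity
        nlinarith
      linarith
    exact le_of_mul_le_mul_left h6 (by positivity)

private theorem WVal_chi {x : ℝ} (hx : 0 ≤ x) : 0 ≤ CAPU.chi x ∧ CAPU.chi x ≤ 1 :=
  ⟨le_max_right _ _, max_le (by linarith) zero_le_one⟩

private theorem WVal_log {K q R s : ℝ} (hK : 1 ≤ K) (hq : 1 ≤ q) (hR : 1 ≤ R)
    (h : R ≤ 2 * K * q) (hs : s = R ^ 2) : 1 + Real.log s ≤ 5 * K * (1 + Real.log q) := by
  have hK0 : 0 < K := by linarith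
  have h1 : Real.log s = 2 * Real.log R := by
    rw [hs, Real.log_pow]
    norm_num
  have h2 : Real.log R ≤ Real.log (2 * K * q) := Real.log_le_log (by linarith) h
  rw [Real.log_mul (by positivity) (by positivity)] at h2
  have h3 : Real.log (2 * K) ≤ 2 * K - 1 := Real.log_le_sub_one_of_pos (by positivity)
  have h4 : 0 ≤ Real.log q := Real.log_nonneg hq
  rw [h1]
  nlinarith

theorem W_val (K : ℝ) (hK : 1 ≤ K) : ∃ C t0 : ℝ, 1 ≤ C ∧ 0 < t0 ∧ ∀ (S : SD) (t : ℝ),
    S.Hyp K t → S.HypW K → t ≤ t0 → ∀ i < S.N, ∀ z ∈ SB S.h S.N, ‖z - S.p i‖ ≤ 3 * S.h →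
      C * S.ε ≤ ‖z - S.p i‖ →
      1 / C * (S.ε / ‖z - S.p i‖) ^ 2 - C * th t ≤ S.nn i z ∧
        S.nn i z ≤ C * (S.ε / ‖z - S.p i‖) ^ 2 ∧
        |S.nn i z| ≤ C * (1 + Real.log (‖z - S.p i‖ / S.ε)) * (S.ε / ‖z - S.p i‖) ^ 2 ∧
        ‖S.tt i z‖ ≤ C * (1 + Real.log (‖z - S.p i‖ / S.ε)) * (S.ε / ‖z - S.p i‖) ^ 2 := by
  obtain ⟨t0, ht0, hze⟩ := ze_bd K hK
  have hK0 : 0 < K := by linarith
  have hK6 : 1 ≤ K ^ 6 := one_le_pow₀ hK
  have hK46 : K ^ 4 ≤ K ^ 6 := pow_le_pow_right₀ hK (by norm_num)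
  have hK36 : K ^ 3 ≤ K ^ 6 := pow_le_pow_right₀ hK (by norm_num)
  have hK26 : K ^ 2 ≤ K ^ 6 := pow_le_pow_right₀ hK (by norm_num)
  have hK16 : K ≤ K ^ 6 := by
    have := pow_le_pow_right₀ hK (show 1 ≤ 6 by norm_num)
    rwa [pow_one] at this
  refine ⟨10 ^ 9 * K ^ 6, t0, by linarith, ht0, ?_⟩
  intro S t hS hW ht i hi z hz hz3 hC
  obtain ⟨h1, h2⟩ := hze S t hS ht i hi z hz hz3
  obtain ⟨htp, hD, hDt, hD1⟩ := WVal_basic hK hS hW
  have he := hS.e0
  have ht1 := hS.t1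
  set d := ‖z - S.p i‖ with hd
  set R := ‖S.ze i z‖ with hR
  set D := CAPU.Dm S.M with hDdef
  have hdp : 0 < d := lt_of_lt_of_le (by positivity) hC
  set q := d / S.ε with hq
  have hqC : 10 ^ 9 * K ^ 6 ≤ q := by rw [hq, le_div_iff₀ he]; exact hC
  have hq1 : 1 ≤ q := by linarith
  have hRq : R ≤ 2 * K * q := by
    rw [hq, ← mul_div_assoc, le_div_iff₀ he]
    linarith
  have hqR : q ≤ 8 * K * R := by
    rw [hq, div_le_iff₀ he]
    linarith
  have hR1 : 1 ≤ R := by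
    by_contra hc
    push Not at hc
    have : 8 * K * R < 8 * K * 1 := mul_lt_mul_of_pos_left hc (by positivity)
    linarith
  have hR0 : 0 < R := by linarith
  set s := R ^ 2 with hs
  have hs1 : 1 ≤ s := one_le_pow₀ hR1
  have hs0 : 0 < s := by linarith
  set X := (S.ε / d) ^ 2 with hX
  have hXq : X = 1 / q ^ 2 := by
    rw [hX, hq]
    field_simp
  have hX0 : 0 ≤ X := by positivity
  have hq0 : 0 < q := by linarith
  have hX1 : 1 / s ≤ 64 * K ^ 2 * X := by
    rw [hXq, ← mul_div_assoc, div_le_div_iff₀ hs0 (by positivity), mul_one, one_mul, hs]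
    have := pow_le_pow_left₀ hq0.le hqR 2
    linarith
  have hX2 : X ≤ 4 * K ^ 2 * (1 / s) := by
    rw [hXq, ← mul_div_assoc, div_le_div_iff₀ (by positivity) hs0, mul_one, one_mul, hs]
    have := pow_le_pow_left₀ hR0.le hRq 2
    linarith
  have hlogs := WVal_log hK hq1 hR1 hRq hs
  have hls : 0 ≤ Real.log s := Real.log_nonneg hs1
  have hlq : 0 ≤ Real.log q := Real.log_nonneg hq1
  have hM : 1 ≤ S.M := hW.M1
  have hD2 : 0 < D ^ 2 := by positivity
  have hlt : 0 ≤ Real.log (1 / t) := Real.log_nonneg (by rw [le_div_iff₀ htp]; linarith)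
  have hth : th t = t ^ 2 * (1 + Real.log (1 / t)) := rfl
  have hth0 : 0 ≤ th t := by rw [hth]; positivity
  have hD2t : 1 / D ^ 2 ≤ 10 ^ 6 * K ^ 4 * t ^ 2 := by
    have h3 := pow_le_pow_left₀ (by positivity) hDt 2
    rw [div_pow, one_pow] at h3
    linarith
  have hlogD : Real.log D ≤ Real.log (1 / t) := Real.log_le_log hD hD1
  obtain ⟨c0, c1⟩ := WVal_chi (x := s / D ^ 2) (by positivity)
  have hnn : S.nn i z = 100 * (CAPU.chi (s / D ^ 2) ^ 3 / s -
      3 * Real.log s * CAPU.chi (s / D ^ 2) ^ 2 / D ^ 2) := rfl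
  have c20 : 0 ≤ CAPU.chi (s / D ^ 2) ^ 2 := by positivity
  have c30 : 0 ≤ CAPU.chi (s / D ^ 2) ^ 3 := by positivity
  have c21 : CAPU.chi (s / D ^ 2) ^ 2 ≤ 1 := pow_le_one₀ c0 c1
  have c31 : CAPU.chi (s / D ^ 2) ^ 3 ≤ 1 := pow_le_one₀ c0 c1
  -- the second term when s is smaller than D squared
  have hsec : s ≤ D ^ 2 → 3 * Real.log s * CAPU.chi (s / D ^ 2) ^ 2 / D ^ 2 ≤
      6 * 10 ^ 6 * K ^ 4 * th t := by
    intro hsD
    have h3 : Real.log s ≤ 2 * Real.log (1 / t) := by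
      have h4 : Real.log s ≤ Real.log (D ^ 2) := Real.log_le_log hs0 hsD
      have h4' : Real.log (D ^ 2) = 2 * Real.log D := by
        rw [Real.log_pow]
        norm_num
      linarith
    have h5 : 3 * Real.log s * CAPU.chi (s / D ^ 2) ^ 2 ≤ 3 * (2 * Real.log (1 / t)) * 1 := by
      refine mul_le_mul ?_ c21 c20 (by positivity)
      linarith
    calc 3 * Real.log s * CAPU.chi (s / D ^ 2) ^ 2 / D ^ 2
        = (3 * Real.log s * CAPU.chi (s / D ^ 2) ^ 2) * (1 / D ^ 2) := by ring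
      _ ≤ (3 * (2 * Real.log (1 / t)) * 1) * (10 ^ 6 * K ^ 4 * t ^ 2) :=
          mul_le_mul h5 hD2t (by positivity) (by positivity)
      _ = 6 * 10 ^ 6 * K ^ 4 * (t ^ 2 * Real.log (1 / t)) := by ring
      _ ≤ 6 * 10 ^ 6 * K ^ 4 * th t := by
          refine mul_le_mul_of_nonneg_left ?_ (by positivity)
          rw [hth]
          nlinarith [sq_nonneg t]
  have hup : S.nn i z ≤ 100 / s := CAPU.nu_up hs1
  have hup' : 100 / s ≤ 6400 * K ^ 2 * X := by
    have : 100 / s = 100 * (1 / s) := by ring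
    rw [this]
    linarith
  have hK2X : K ^ 2 * X ≤ K ^ 6 * X := mul_le_mul_of_nonneg_right hK26 hX0
  have hKX0 : 0 ≤ K ^ 6 * X := by positivity
  have hK4th : K ^ 4 * th t ≤ K ^ 6 * th t := mul_le_mul_of_nonneg_right hK46 hth0
  have hKth0 : 0 ≤ K ^ 6 * th t := by positivity
  have habs : |S.nn i z| ≤ 300 * ((1 + Real.log s) / s) := by
    have h3 : 3 * Real.log s * CAPU.chi (s / D ^ 2) ^ 2 / D ^ 2 ≤ 3 * Real.log s / s := by
      rcases le_total (D ^ 2) s with h4 | h4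
      · have h5 : CAPU.chi (s / D ^ 2) = 0 := by
          refine max_eq_right ?_
          have : 1 ≤ s / D ^ 2 := (one_le_div hD2).2 h4
          linarith
        rw [h5]
        simp only [ne_eq, OfNat.ofNat_ne_zero, not_false_eq_true, zero_pow, mul_zero, zero_div]
        positivity
      · calc 3 * Real.log s * CAPU.chi (s / D ^ 2) ^ 2 / D ^ 2 ≤ 3 * Real.log s * 1 / D ^ 2 := by
              refine div_le_div_of_nonneg_right ?_ hD2.le
              exact mul_le_mul_of_nonneg_left c21 (by positivity)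
          _ ≤ 3 * Real.log s / s := by
              rw [mul_one]
              exact div_le_div_of_nonneg_left (by positivity) hs0 h4
    have h3' : 0 ≤ 3 * Real.log s * CAPU.chi (s / D ^ 2) ^ 2 / D ^ 2 := by positivity
    have h4 : CAPU.chi (s / D ^ 2) ^ 3 / s ≤ 1 / s := div_le_div_of_nonneg_right c31 hs0.le
    have h4' : 0 ≤ CAPU.chi (s / D ^ 2) ^ 3 / s := by positivity
    have h5 : (1 + Real.log s) / s = 1 / s + Real.log s / s := by ring
    have h6 : 3 * Real.log s / s = 3 * (Real.log s / s) := by ring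
    have h7 : 0 ≤ Real.log s / s := by positivity
    have h8 : 0 ≤ 1 / s := by positivity
    rw [hnn, abs_mul, abs_of_nonneg (by norm_num : (0 : ℝ) ≤ 100), h5]
    have h9 : |CAPU.chi (s / D ^ 2) ^ 3 / s -
        3 * Real.log s * CAPU.chi (s / D ^ 2) ^ 2 / D ^ 2| ≤ 1 / s + 3 * (Real.log s / s) := by
      rw [abs_le]
      constructor <;> linarith
    linarith
  have hfin : (1 + Real.log s) / s ≤ 320 * K ^ 3 * (1 + Real.log q) * X := by
    calc (1 + Real.log s) / s = (1 + Real.log s) * (1 / s) := by ring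
      _ ≤ (5 * K * (1 + Real.log q)) * (64 * K ^ 2 * X) :=
          mul_le_mul hlogs hX1 (by positivity) (by positivity)
      _ = 320 * K ^ 3 * (1 + Real.log q) * X := by ring
  have hKq : K ^ 3 * (1 + Real.log q) * X ≤ K ^ 6 * (1 + Real.log q) * X := by
    refine mul_le_mul_of_nonneg_right ?_ hX0
    exact mul_le_mul_of_nonneg_right hK36 (by positivity)
  have hKq0 : 0 ≤ K ^ 6 * (1 + Real.log q) * X := by positivity
  refine ⟨?_, ?_, ?_, ?_⟩
  · -- lower bound
    have hXC : 1 / (10 ^ 9 * K ^ 6) * X ≤ X / K ^ 2 := by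
      rw [one_div, ← div_eq_inv_mul]
      refine div_le_div_of_nonneg_left hX0 (by positivity) ?_
      linarith
    have hXC' : 1 / (10 ^ 9 * K ^ 6) * X ≤ X := by
      rw [one_div, ← div_eq_inv_mul]
      exact div_le_self hX0 (by linarith)
    rcases le_total s (D ^ 2 / 2) with h3 | h3
    · have h4 := hsec (by linarith)
      have h5 : (1 : ℝ) / 2 ≤ CAPU.chi (s / D ^ 2) := by
        refine le_trans ?_ (le_max_left _ _)
        have : s / D ^ 2 ≤ 1 / 2 := by
          rw [div_le_iff₀ hD2]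
          linarith
        linarith
      have h6 : (1 : ℝ) / 8 ≤ CAPU.chi (s / D ^ 2) ^ 3 := by
        have := pow_le_pow_left₀ (by norm_num) h5 3
        linarith
      have h7 : 1 / 8 * (1 / s) ≤ CAPU.chi (s / D ^ 2) ^ 3 / s := by
        rw [div_eq_mul_one_div (CAPU.chi (s / D ^ 2) ^ 3) s]
        exact mul_le_mul_of_nonneg_right h6 (by positivity)
      have h8 : X / K ^ 2 ≤ 4 * (1 / s) := by
        rw [div_le_iff₀ (by positivity)]
        linarith
      have h9 : 0 ≤ 1 / s := by positivity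
      rw [hnn]
      linarith
    · have h4 : -(6 * 10 ^ 8 * K ^ 4 * th t) ≤ S.nn i z := by
        rcases le_total (D ^ 2) s with h5 | h5
        · have h6 : S.nn i z = 0 := (CAPU.out_zero hM h5).2.2
          rw [h6]
          have : 0 ≤ K ^ 4 * th t := by positivity
          linarith
        · have h6 := hsec h5
          have h7 : 0 ≤ CAPU.chi (s / D ^ 2) ^ 3 / s := by positivity
          rw [hnn]
          linarith
      have h5 : 1 / s ≤ 2 * (1 / D ^ 2) := by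
        rw [← mul_div_assoc, div_le_div_iff₀ hs0 hD2]
        linarith
      have h6 : X ≤ 8 * 10 ^ 6 * K ^ 6 * th t := by
        have h7 : t ^ 2 ≤ th t := by
          rw [hth]
          nlinarith [sq_nonneg t]
        calc X ≤ 4 * K ^ 2 * (1 / s) := hX2
          _ ≤ 4 * K ^ 2 * (2 * (10 ^ 6 * K ^ 4 * t ^ 2)) := by
              refine mul_le_mul_of_nonneg_left ?_ (by positivity)
              linarith
          _ = 8 * 10 ^ 6 * K ^ 6 * t ^ 2 := by ring
          _ ≤ 8 * 10 ^ 6 * K ^ 6 * th t := mul_le_mul_of_nonneg_left h7 (by positivity)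
      linarith
  · linarith
  · have : 10 ^ 9 * K ^ 6 * (1 + Real.log q) * X = 10 ^ 9 * (K ^ 6 * (1 + Real.log q) * X) := by
      ring
    rw [this]
    linarith
  · have h3 : ‖S.tt i z‖ = s * |CAPU.psd S.M s| := by
      unfold SD.tt
      rw [norm_mul, norm_pow, norm_real, Real.norm_eq_abs]
    have h4 := CAPU.psd_bd hM hs1
    have h5 : s * |CAPU.psd S.M s| ≤ 500 * ((1 + Real.log s) / s) := by
      calc s * |CAPU.psd S.M s| ≤ s * (500 * (1 + Real.log s) / s ^ 2) :=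
            mul_le_mul_of_nonneg_left h4 hs0.le
        _ = 500 * ((1 + Real.log s) / s) := by
            field_simp
    have : 10 ^ 9 * K ^ 6 * (1 + Real.log q) * X = 10 ^ 9 * (K ^ 6 * (1 + Real.log q) * X) := by
      ring
    rw [this, h3]
    linarith

theorem W_zero (K : ℝ) (hK : 1 ≤ K) : ∃ t0 : ℝ, 0 < t0 ∧ ∀ (S : SD) (t : ℝ),
    S.Hyp K t → S.HypW K → t ≤ t0 → ∀ i < S.N, ∀ z ∈ SB S.h S.N, ‖z - S.p i‖ ≤ 3 * S.h →
      S.h / 4 ≤ ‖z - S.p i‖ → S.W i z = 0 := by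
  obtain ⟨t0, ht0, hze⟩ := ze_bd K hK
  have hK0 : 0 < K := by linarith
  refine ⟨t0, ht0, ?_⟩
  intro S t hS hW ht i hi z hz hz3 h4
  obtain ⟨h1, -⟩ := hze S t hS ht i hi z hz hz3
  obtain ⟨-, hD, -, -⟩ := WVal_basic hK hS hW
  have he := hS.e0
  have hhi := hW.hi
  have h5 : CAPU.Dm S.M ≤ ‖S.ze i z‖ := by
    have h6 : (8 * K * S.ε) * CAPU.Dm S.M ≤ (8 * K * S.ε) * ‖S.ze i z‖ := by
      have h7 : 32 * K * S.ε * CAPU.Dm S.M ≤ 100 * K ^ 2 * S.ε * CAPU.Dm S.M := by
        have h8 : 0 ≤ S.ε * CAPU.Dm S.M := by positivity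
        have h9 : 32 * K ≤ 100 * K ^ 2 := by nlinarith
        have := mul_le_mul_of_nonneg_right h9 h8
        linarith
      linarith
    exact le_of_mul_le_mul_left h6 (by positivity)
  have h6 : CAPU.Dm S.M ^ 2 ≤ ‖S.ze i z‖ ^ 2 := pow_le_pow_left₀ hD.le h5 2
  unfold SD.W CAPU.W0
  rw [(CAPU.out_zero hW.M1 h6).1]
  simp

end Pool.Agent.CAPV
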