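import Pool.Agent.Lib.MP_488b8a_co_V.Stp
import Pool.Agent.Lib.MP_488b8a_co_V.WVal

/-! Project SO (MP_488b8a_co), module Mod: the local formulas agree with `U` modulo the lattice. -/

namespace Pool.Agent.CAPV

open Complex

variable {S : SD}

private theorem Mod_re (j : ℕ) (y : ℂ) : |y.re - j * S.h| ≤ ‖y - S.p j‖ := by
  have h := abs_re_le_norm (y - S.p j)
  simpa [SD.p] using h

private theorem Mod_nrm (j : ℕ) (y : ℂ) : ‖y - S.p j‖ ≤ |y.re - j * S.h| + |y.im| := by
  have h := norm_le_abs_re_add_abs_im (y - S.p j)
  simpa [SD.p] using h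

private theorem Mod_U0 {z : ℂ} (h : S.ix z ≤ 0) : S.U z = S.pl 0 z := by
  unfold SD.U
  rw [if_pos h]

private theorem Mod_UN {z : ℂ} (h0 : ¬ S.ix z ≤ 0) (h : (S.N : ℤ) ≤ S.ix z) :
    S.U z = S.pl (S.N - 1) z := by
  unfold SD.U
  rw [if_neg h0, if_pos h]

private theorem Mod_U1 {z : ℂ} {n : ℕ} (hn : 1 ≤ n) (hN : n < S.N) (h : S.ix z = n)
    (hz : (n : ℝ) * S.h < z.re) (hW : S.h < ‖z - S.p n‖ → S.W n z = 0) :
    S.U z = S.pl (n - 1) z - S.df n z + S.W n z := by
  have h0 : ¬ S.ix z ≤ 0 := by omega
  have h1 : ¬ (S.N : ℤ) ≤ S.ix z := by omega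
  unfold SD.U
  rw [if_neg h0, if_neg h1, h, Int.toNat_natCast, if_pos hz]
  by_cases hc : ‖z - S.p n‖ ≤ S.h
  · rw [if_pos hc]
  · rw [if_neg hc, hW (not_le.mp hc)]

private theorem Mod_U2 {z : ℂ} {n : ℕ} (hn : 1 ≤ n) (hN : n < S.N) (h : S.ix z = n)
    (hz : z.re ≤ (n : ℝ) * S.h) (hW : S.h < ‖z - S.p n‖ → S.W n z = 0) :
    S.U z = S.pl (n - 1) z + S.W n z := by
  have h0 : ¬ S.ix z ≤ 0 := by omega
  have h1 : ¬ (S.N : ℤ) ≤ S.ix z := by omega
  unfold SD.U
  rw [if_neg h0, if_neg h1, h, Int.toNat_natCast, if_neg (not_lt.mpr hz), sub_zero]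
  by_cases hc : ‖z - S.p n‖ ≤ S.h
  · rw [if_pos hc]
  · rw [if_neg hc, hW (not_le.mp hc)]

private theorem Mod_ix (hh : 0 < S.h) (n : ℤ) (z : ℂ) :
    n ≤ S.ix z ↔ ((n : ℝ) - 1 / 2) * S.h ≤ z.re := by
  unfold SD.ix
  rw [Int.le_floor, ← sub_le_iff_le_add, le_div_iff₀ hh]

theorem mod_core (K : ℝ) (hK : 1 ≤ K) : ∃ C t0 : ℝ, 1000 ≤ C ∧ 0 < t0 ∧ ∀ (S : SD) (t : ℝ),
    S.Hyp K t → S.HypW K → t ≤ t0 → C * S.ε ≤ S.h ∧
    (∀ i, 1 ≤ i → i < S.N → ∀ z : ℂ, |z.re - i * S.h| ≤ S.h / 2 → |z.im| ≤ 5 / 4 * S.h →
      C * S.ε ≤ ‖z - S.p i‖ → ∀ y ∈ Metric.closedBall z (100 * S.ε),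
        (i * S.h + 100 * S.ε < z.re →
          S.pl (i - 1) y - ((1 : ℝ) : ℂ) * S.df i y + S.W i y - S.U y ∈ LamE S.ε) ∧
        (z.re ≤ i * S.h + 100 * S.ε →
          S.pl (i - 1) y - ((0 : ℝ) : ℂ) * S.df i y + S.W i y - S.U y ∈ LamE S.ε)) ∧
    (∀ z : ℂ, |z.im| ≤ 5 / 4 * S.h → ∀ y ∈ Metric.closedBall z (100 * S.ε),
      (z.re ≤ S.h / 2 → S.pl 0 y - S.U y ∈ LamE S.ε) ∧
      (S.N * S.h - S.h / 2 ≤ z.re → S.pl (S.N - 1) y - S.U y ∈ LamE S.ε)) := by
  obtain ⟨t0, ht0, hWz⟩ := W_zero K hK
  refine ⟨1000, min t0 (1 / 1000), le_rfl, lt_min ht0 (by norm_num), ?_⟩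
  intro S t hS hHW ht
  have he := hS.e0
  have hh := hS.h0
  have hN2 := hS.N2
  have heh : 1000 * S.ε ≤ S.h := by
    have h1 := hS.eh
    have h2 : t ≤ 1 / 1000 := ht.trans (min_le_right _ _)
    have h3 := mul_le_mul_of_nonneg_right h2 hh.le
    linarith
  have hN2' : (2 : ℝ) ≤ S.N := by exact_mod_cast hN2
  -- vanishing of the radial correction
  have hW0 : ∀ j < S.N, 1 ≤ j → ∀ y : ℂ, |y.im| ≤ 135 / 100 * S.h → |y.re - j * S.h| ≤ 3 / 2 * S.h →
      S.h / 4 ≤ ‖y - S.p j‖ → S.W j y = 0 := by
    intro j hj h5 y him hre h4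
    have hj' : (j : ℝ) + 1 ≤ S.N := by exact_mod_cast hj
    have hj0 : (0 : ℝ) ≤ j := Nat.cast_nonneg j
    have hjh : ((j : ℝ) + 1) * S.h ≤ S.N * S.h := mul_le_mul_of_nonneg_right hj' hh.le
    have hr := abs_le.mp hre
    by_cases hrl : -S.h ≤ y.re
    · refine hWz S t hS hHW (ht.trans (min_le_left _ _)) j hj y ⟨hrl, ?_, ?_⟩ ?_ h4
      · linarith [hr.2]
      · linarith
      · have := Mod_nrm (S := S) j y
        linarith
    · exfalso
      push Not at hrl
      have h6 : (1 : ℝ) ≤ j := by exact_mod_cast h5
      have h7 : 1 * S.h ≤ j * S.h := mul_le_mul_of_nonneg_right h6 hh.le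
      linarith [hr.1]
  refine ⟨heh, ?_, ?_⟩
  · intro i h1 h2 z hzre hzim hzp y hy
    rw [Metric.mem_closedBall, dist_eq_norm] at hy
    have hyre := (abs_re_le_norm (y - z)).trans hy
    have hyim := (abs_im_le_norm (y - z)).trans hy
    rw [sub_re] at hyre
    rw [sub_im] at hyim
    have a1 := abs_le.mp hyre
    have a2 := abs_le.mp hyim
    have a3 := abs_le.mp hzre
    have a4 := abs_le.mp hzim
    have hyim' : |y.im| ≤ 135 / 100 * S.h := by
      rw [abs_le]
      constructor <;> linarith [a2.1, a2.2, a4.1, a4.2]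
    have hi1 : (1 : ℝ) ≤ i := by exact_mod_cast h1
    have hiN : (i : ℝ) + 1 ≤ S.N := by exact_mod_cast h2
    have b1 : (i : ℝ) * S.h - 6 / 10 * S.h ≤ y.re := by linarith [a1.1, a3.1]
    have b2 : y.re ≤ (i : ℝ) * S.h + 6 / 10 * S.h := by linarith [a1.2, a3.2]
    have hWi : S.h / 4 ≤ ‖y - S.p i‖ → S.W i y = 0 := by
      refine hW0 i h2 h1 y hyim' ?_
      rw [abs_le]
      constructor <;> linarith
    have hix1 : (i : ℤ) - 1 ≤ S.ix y := by
      rw [Mod_ix hh]
      push_cast
      linarith
    have hix2 : S.ix y < (i : ℤ) + 2 := by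
      rw [← not_le, Mod_ix hh]
      push_cast
      linarith
    constructor
    · intro hz
      have hyi : (i : ℝ) * S.h < y.re := by linarith [a1.1]
      have hix3 : (i : ℤ) ≤ S.ix y := by
        rw [Mod_ix hh]
        push_cast
        linarith
      have hc : S.ix y = i ∨ S.ix y = ((i + 1 : ℕ) : ℤ) := by
        push_cast
        omega
      rcases hc with hc | hc
      · rw [Mod_U1 h1 h2 hc hyi (fun h => hWi (by linarith))]
        have e : S.pl (i - 1) y - ((1 : ℝ) : ℂ) * S.df i y + S.W i y -
            (S.pl (i - 1) y - S.df i y + S.W i y) = 0 := by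
          push_cast
          ring
        rw [e]
        exact LamE_zero _
      · have hre1 : ((i : ℝ) + 1 / 2) * S.h ≤ y.re := by
          have := (Mod_ix hh ((i + 1 : ℕ) : ℤ) y).mp hc.ge
          push_cast at this
          linarith
        have hst := hS.step h1 h2 (z := y) (by linarith)
        have hWi0 : S.W i y = 0 := by
          apply hWi
          refine le_trans ?_ (Mod_re (S := S) i y)
          refine le_trans ?_ (le_abs_self _)
          linarith
        have hU : S.U y = S.pl i y := by
          by_cases hN : i + 1 = S.N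
          · have h3 : S.N - 1 = i := by omega
            rw [Mod_UN (by omega) (by omega), h3]
          · have hi1N : i + 1 < S.N := by omega
            have hd : S.h / 4 ≤ ‖y - S.p (i + 1)‖ := by
              refine le_trans ?_ (Mod_re (S := S) (i + 1) y)
              refine le_trans ?_ (neg_le_abs _)
              push_cast
              linarith
            have hW1 : S.W (i + 1) y = 0 := by
              refine hW0 (i + 1) hi1N (by omega) y hyim' ?_ hd
              push_cast
              rw [abs_le]
              constructor <;> linarith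
            rw [Mod_U2 (by omega) hi1N hc (by push_cast; linarith) (fun _ => hW1), hW1,
              add_zero, Nat.add_sub_cancel]
        have e : S.pl (i - 1) y - ((1 : ℝ) : ℂ) * S.df i y + S.W i y - S.U y = 0 := by
          rw [hU, hWi0, ← hst]
          push_cast
          ring
        rw [e]
        exact LamE_zero _
    · intro hz
      have hix3 : S.ix y < (i : ℤ) + 1 := by
        rw [← not_le, Mod_ix hh]
        push_cast
        linarith [a1.2]
      have hc : S.ix y = i ∨ S.ix y = (i : ℤ) - 1 := by omega
      rcases hc with hc | hc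
      · rcases le_or_gt y.re ((i : ℝ) * S.h) with hyi | hyi
        · rw [Mod_U2 h1 h2 hc hyi (fun h => hWi (by linarith))]
          have e : S.pl (i - 1) y - ((0 : ℝ) : ℂ) * S.df i y + S.W i y -
              (S.pl (i - 1) y + S.W i y) = 0 := by
            push_cast
            ring
          rw [e]
          exact LamE_zero _
        · rw [Mod_U1 h1 h2 hc hyi (fun h => hWi (by linarith))]
          have e : S.pl (i - 1) y - ((0 : ℝ) : ℂ) * S.df i y + S.W i y -
              (S.pl (i - 1) y - S.df i y + S.W i y) = S.df i y := by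
            push_cast
            ring
          rw [e]
          refine hS.cut hyi ?_
          have h3 := hzp.trans (Mod_nrm (S := S) i z)
          have h4 : |z.re - i * S.h| ≤ 100 * S.ε := by
            rw [abs_le]
            constructor <;> linarith [a1.1, a1.2]
          have h5 : |z.im| ≤ |y.im| + 100 * S.ε := by
            have : z.im = y.im - (y.im - z.im) := by ring
            rw [this]
            exact (abs_sub _ _).trans (add_le_add_right hyim _)
          linarith [a1.2]
      · have hre1 : y.re < ((i : ℝ) - 1 / 2) * S.h := by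
          have := (not_congr (Mod_ix hh (i : ℤ) y)).mp (by omega)
          push_cast at this
          linarith
        have hWi0 : S.W i y = 0 := by
          apply hWi
          refine le_trans ?_ (Mod_re (S := S) i y)
          refine le_trans ?_ (neg_le_abs _)
          linarith
        have hU : S.U y = S.pl (i - 1) y := by
          by_cases hi : i = 1
          · subst hi
            exact Mod_U0 (by omega)
          · obtain ⟨n, rfl⟩ : ∃ n, i = n + 1 := ⟨i - 1, by omega⟩
            have hn1 : 1 ≤ n := by omega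
            have hnN : n < S.N := by omega
            have hc' : S.ix y = (n : ℤ) := by
              push_cast at hc
              omega
            push_cast at b1 b2 hre1
            have hd : S.h / 4 ≤ ‖y - S.p n‖ := by
              refine le_trans ?_ (Mod_re (S := S) n y)
              refine le_trans ?_ (le_abs_self _)
              linarith
            have hW1 : S.W n y = 0 := by
              refine hW0 n hnN hn1 y hyim' ?_ hd
              rw [abs_le]
              constructor <;> linarith
            rw [Mod_U1 hn1 hnN hc' (by linarith) (fun _ => hW1), hW1, add_zero,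
              hS.step hn1 hnN (by linarith), Nat.add_sub_cancel]
        have e : S.pl (i - 1) y - ((0 : ℝ) : ℂ) * S.df i y + S.W i y - S.U y = 0 := by
          rw [hU, hWi0]
          push_cast
          ring
        rw [e]
        exact LamE_zero _
  · intro z hzim y hy
    rw [Metric.mem_closedBall, dist_eq_norm] at hy
    have hyre := (abs_re_le_norm (y - z)).trans hy
    have hyim := (abs_im_le_norm (y - z)).trans hy
    rw [sub_re] at hyre
    rw [sub_im] at hyim
    have a1 := abs_le.mp hyre
    have a2 := abs_le.mp hyim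
    have a4 := abs_le.mp hzim
    have hyim' : |y.im| ≤ 135 / 100 * S.h := by
      rw [abs_le]
      constructor <;> linarith [a2.1, a2.2, a4.1, a4.2]
    constructor
    · intro hz
      have hix1 : S.ix y < 2 := by
        rw [← not_le, Mod_ix hh]
        push_cast
        linarith [a1.2]
      have hU : S.U y = S.pl 0 y := by
        rcases le_or_gt (S.ix y) 0 with h0 | h0
        · exact Mod_U0 h0
        · have hc : S.ix y = ((1 : ℕ) : ℤ) := by
            push_cast
            omega
          have hre1 := (Mod_ix hh ((1 : ℕ) : ℤ) y).mp hc.ge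
          push_cast at hre1
          have hd : S.h / 4 ≤ ‖y - S.p 1‖ := by
            refine le_trans ?_ (Mod_re (S := S) 1 y)
            refine le_trans ?_ (neg_le_abs _)
            push_cast
            linarith [a1.2]
          have hW1 : S.W 1 y = 0 := by
            refine hW0 1 (by omega) le_rfl y hyim' ?_ hd
            push_cast
            rw [abs_le]
            constructor <;> linarith [a1.2]
          rw [Mod_U2 le_rfl (by omega) hc (by push_cast; linarith [a1.2]) (fun _ => hW1), hW1,
            add_zero]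
      rw [hU, sub_self]
      exact LamE_zero _
    · intro hz
      have hix1 : (S.N : ℤ) - 1 ≤ S.ix y := by
        rw [Mod_ix hh]
        push_cast
        linarith [a1.1]
      have hU : S.U y = S.pl (S.N - 1) y := by
        rcases le_or_gt (S.N : ℤ) (S.ix y) with h0 | h0
        · exact Mod_UN (by omega) h0
        · obtain ⟨n, hn⟩ : ∃ n, S.N = n + 1 := ⟨S.N - 1, by omega⟩
          have hn1 : 1 ≤ n := by omega
          have hnN : n < S.N := by omega
          have hc : S.ix y = (n : ℤ) := by
            rw [hn] at h0 hix1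
            push_cast at h0 hix1
            omega
          have hre1 : y.re < ((n : ℝ) + 1 / 2) * S.h := by
            have := (not_congr (Mod_ix hh (S.N : ℤ) y)).mp (by omega)
            rw [hn] at this
            push_cast at this
            linarith
          have hnr : (S.N : ℝ) = n + 1 := by
            rw [hn]
            push_cast
            ring
          rw [hnr] at hz
          have hd : S.h / 4 ≤ ‖y - S.p n‖ := by
            refine le_trans ?_ (Mod_re (S := S) n y)
            refine le_trans ?_ (le_abs_self _)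
            linarith [a1.1]
          have hW1 : S.W n y = 0 := by
            refine hW0 n hnN hn1 y hyim' ?_ hd
            rw [abs_le]
            constructor <;> linarith [a1.1]
          have hnn : S.N - 1 = n := by omega
          rw [hnn, Mod_U1 hn1 hnN hc (by linarith [a1.1]) (fun _ => hW1), hW1, add_zero,
            hS.step hn1 hnN (by linarith [a1.1])]
      rw [hU, sub_self]
      exact LamE_zero _

end Pool.Agent.CAPV
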