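import Pool.Agent.Lib.MP_488b8a_co_V.Stp
import Pool.Agent.Lib.MP_488b8a_co_V.WVal

/-! Project SO (MP_488b8a_co), module ModE: below the strip the map is `F`, above it is `G`
modulo the
lattice. -/

namespace Pool.Agent.CAPV

open Complex

private theorem ModE_re (S : SD) (i : ℕ) (z : ℂ) :
    ((z - S.p i) / (S.h : ℂ)).re = (z.re - i * S.h) / S.h := by
  rw [Complex.div_ofReal_re, sub_re]
  rfl

private theorem ModE_im (S : SD) (i : ℕ) (z : ℂ) :
    ((z - S.p i) / (S.h : ℂ)).im = z.im / S.h := by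
  rw [Complex.div_ofReal_im, sub_im]
  have h1 : (S.p i).im = 0 := rfl
  rw [h1, sub_zero]

private theorem ModE_SB {S : SD} {K t : ℝ} (hS : S.Hyp K t) {i : ℕ} (h1 : 1 ≤ i)
    (h2 : i < S.N) {z : ℂ} (hz : ‖z - S.p i‖ ≤ S.h) : z ∈ SB S.h S.N := by
  have h0 := hS.h0
  have e1 : (z - S.p i).re = z.re - i * S.h := by
    rw [sub_re]
    rfl
  have e2 : (z - S.p i).im = z.im := by
    rw [sub_im]
    have h3 : (S.p i).im = 0 := rfl
    rw [h3, sub_zero]
  have h3 := abs_le.1 ((Complex.abs_re_le_norm (z - S.p i)).trans hz)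
  have h4 := (Complex.abs_im_le_norm (z - S.p i)).trans hz
  rw [e1] at h3
  rw [e2] at h4
  have h5 : (1 : ℝ) ≤ i := by exact_mod_cast h1
  have h6 : (i : ℝ) ≤ S.N := by exact_mod_cast h2.le
  refine ⟨by nlinarith [h3.1], by nlinarith [h3.2], by linarith⟩

theorem mod_ends (K : ℝ) (hK : 1 ≤ K) : ∃ t0 : ℝ, 0 < t0 ∧ ∀ (S : SD) (t : ℝ),
    S.Hyp K t → S.HypW K → t ≤ t0 →
    (∀ z : ℂ, z.im ≤ -(S.h / 4) → S.U z = S.F.f z) ∧
    (∀ z : ℂ, S.h / 4 ≤ z.im → S.U z - S.G.f z ∈ LamE S.ε) := by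
  obtain ⟨t0, ht0, hW⟩ := W_zero K hK
  refine ⟨t0, ht0, fun S t hS hSW ht => ?_⟩
  have h0 := hS.h0
  have hWz : ∀ (i : ℕ) (z : ℂ), 1 ≤ i → i < S.N → S.h / 4 ≤ |z.im| → ‖z - S.p i‖ ≤ S.h →
      S.W i z = 0 := by
    intro i z h1 h2 him hz
    refine hW S t hS hSW ht i h2 z (ModE_SB hS h1 h2 hz) (by linarith) (him.trans ?_)
    have e2 : (z - S.p i).im = z.im := by
      rw [sub_im]
      have h3 : (S.p i).im = 0 := rfl
      rw [h3, sub_zero]
    rw [← e2]
    exact Complex.abs_im_le_norm _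
  constructor
  · intro z hz
    have h1 : z.im / S.h ≤ -(1 / 4) := by
      rw [div_le_iff₀ h0]
      linarith
    obtain ⟨x0, x1, -⟩ := S.P.xlo _ h1
    have hX0 : S.X0 z = 0 := x0
    have hX1 : S.X1 z = 0 := by
      unfold SD.X1
      rw [x1, zero_div]
    have hpl : ∀ j, S.pl j z = S.F.f z := by
      intro j
      unfold SD.pl
      rw [hX0, hX1, mul_zero, ofReal_zero, zero_mul, zero_mul, add_zero, add_zero]
    have hdf : ∀ i : ℕ, (i : ℝ) * S.h < z.re → S.df i z = 0 := by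
      intro i hi
      obtain ⟨a0, a1, a2⟩ := S.P.u0 ((z - S.p i) / (S.h : ℂ))
        (by rw [ModE_re]; exact div_pos (by linarith) h0) (by rw [ModE_im]; exact h1)
      unfold SD.df SD.T0 SD.T1 SD.T2
      rw [a0, a1, a2]
      simp
    have him : S.h / 4 ≤ |z.im| := by
      have h2 : z.im ≤ 0 := by linarith
      rw [abs_of_nonpos h2]
      linarith
    unfold SD.U
    split_ifs with c1 c2 c3 c4 c5
    · exact hpl 0
    · exact hpl _
    · rw [hpl, hdf _ c3, hWz _ z (by omega) (by omega) him c4, sub_zero, add_zero]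
    · rw [hpl, hdf _ c3, sub_zero, add_zero]
    · rw [hpl, hWz _ z (by omega) (by omega) him c5, sub_zero, add_zero]
    · rw [hpl, sub_zero, add_zero]
  · intro z hz
    have h1 : 1 / 4 ≤ z.im / S.h := by
      rw [le_div_iff₀ h0]
      linarith
    obtain ⟨x0, x1, -⟩ := S.P.xhi _ h1
    have hX0 : S.X0 z = 1 := x0
    have hX1 : S.X1 z = 0 := by
      unfold SD.X1
      rw [x1, zero_div]
    have hpl : ∀ j, S.pl j z = S.G.f z - S.lam j := by
      intro j
      unfold SD.pl SD.w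
      rw [hX0, hX1, mul_zero, ofReal_zero, ofReal_one, zero_mul, one_mul, add_zero]
      ring
    have hdf : ∀ i : ℕ, (i : ℝ) * S.h < z.re → S.df i z = S.b i := by
      intro i hi
      obtain ⟨a0, a1, a2⟩ := S.P.u1 ((z - S.p i) / (S.h : ℂ))
        (by rw [ModE_re]; exact div_pos (by linarith) h0) (by rw [ModE_im]; exact h1)
      unfold SD.df SD.T0 SD.T1 SD.T2
      rw [a0, a1, a2]
      simp
    have him : S.h / 4 ≤ |z.im| := by
      have h2 : 0 ≤ z.im := by linarith
      rw [abs_of_nonneg h2]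
      exact hz
    have hneg : ∀ j, -S.lam j ∈ LamE S.ε := fun j => by
      have h2 := LamE_sub (LamE_zero S.ε) (hS.lam j)
      rwa [zero_sub] at h2
    have e1 : ∀ j, S.G.f z - S.lam j - S.G.f z = -S.lam j := fun j => by ring
    have e2 : ∀ i, S.G.f z - S.lam (i - 1) - S.b i - S.G.f z = -S.lam i := fun i => by
      unfold SD.b
      ring
    unfold SD.U
    split_ifs with c1 c2 c3 c4 c5
    · rw [hpl, e1]
      exact hneg _
    · rw [hpl, e1]
      exact hneg _
    · rw [hpl, hdf _ c3, hWz _ z (by omega) (by omega) him c4, add_zero, e2]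
      exact hneg _
    · rw [hpl, hdf _ c3, add_zero, e2]
      exact hneg _
    · rw [hpl, hWz _ z (by omega) (by omega) him c5, sub_zero, add_zero, e1]
      exact hneg _
    · rw [hpl, sub_zero, add_zero, e1]
      exact hneg _

end Pool.Agent.CAPV
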