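import Pool.Agent.Lib.MP_488b8a_co_V.MerB

/-! Project SO (MP_488b8a_co), module NetV: nets near the bad points. -/

namespace Pool.Agent.CAPV

open Complex

private theorem netV_fl {M ε u : ℝ} {n : ℕ} (hn : 4 * |M| + 1 ≤ n) (hε : 0 < ε)
    (hu : |u| ≤ M * ε) : -(n : ℤ) ≤ ⌊u * 4 / ε⌋ ∧ ⌊u * 4 / ε⌋ ≤ (n : ℤ) ∧
      |u - ε / 4 * (⌊u * 4 / ε⌋ : ℤ)| ≤ ε / 4 := by
  obtain ⟨h1, h2⟩ := abs_le.1 hu
  have h3 : M ≤ |M| := le_abs_self M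
  have h4 : u * 4 / ε ≤ 4 * |M| := by
    rw [div_le_iff₀ hε]
    nlinarith
  have h5 : -(4 * |M|) ≤ u * 4 / ε := by
    rw [le_div_iff₀ hε]
    nlinarith
  have h6 := Int.floor_le (u * 4 / ε)
  have h7 := Int.lt_floor_add_one (u * 4 / ε)
  have h9 : u = ε / 4 * (u * 4 / ε) := by
    field_simp
  refine ⟨?_, ?_, ?_⟩
  · have h8 : (-(n : ℤ) : ℝ) ≤ u * 4 / ε := by
      push_cast
      linarith
    exact Int.le_floor.2 (by push_cast; push_cast at h8; linarith)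
  · have h8 : ((⌊u * 4 / ε⌋ : ℤ) : ℝ) ≤ ((n : ℤ) : ℝ) := by
      push_cast
      linarith
    exact_mod_cast h8
  · have h10 : u - ε / 4 * (⌊u * 4 / ε⌋ : ℤ) = ε / 4 * (u * 4 / ε - (⌊u * 4 / ε⌋ : ℤ)) := by
      rw [mul_sub, ← h9]
    rw [h10, abs_of_nonneg (mul_nonneg (by positivity) (by linarith))]
    nlinarith

theorem nets_M (M : ℝ) : ∃ N : ℕ, ∀ (ε : ℝ) (z : ℂ), 0 < ε → ∃ Q : Finset ℂ, Q.card ≤ N ∧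
    ∀ Z : ℂ, ‖Z - z‖ ≤ M * ε → ∃ q ∈ Q, ‖Z - q‖ ≤ ε / 2 := by
  classical
  obtain ⟨n, hn⟩ := exists_nat_ge (4 * |M| + 1)
  refine ⟨((Finset.Icc (-(n : ℤ)) n) ×ˢ (Finset.Icc (-(n : ℤ)) n)).card, ?_⟩
  intro ε z hε
  refine ⟨((Finset.Icc (-(n : ℤ)) n) ×ˢ (Finset.Icc (-(n : ℤ)) n)).image
    (fun x => (⟨z.re + ε / 4 * (x.1 : ℝ), z.im + ε / 4 * (x.2 : ℝ)⟩ : ℂ)),
    Finset.card_image_le, ?_⟩
  intro Z hZ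
  have hre : |Z.re - z.re| ≤ M * ε := by
    have := (abs_re_le_norm (Z - z)).trans hZ
    rwa [sub_re] at this
  have him : |Z.im - z.im| ≤ M * ε := by
    have := (abs_im_le_norm (Z - z)).trans hZ
    rwa [sub_im] at this
  obtain ⟨a1, a2, a3⟩ := netV_fl hn hε hre
  obtain ⟨b1, b2, b3⟩ := netV_fl hn hε him
  refine ⟨_, Finset.mem_image.2 ⟨(⌊(Z.re - z.re) * 4 / ε⌋, ⌊(Z.im - z.im) * 4 / ε⌋), ?_, rfl⟩, ?_⟩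
  · rw [Finset.mem_product, Finset.mem_Icc, Finset.mem_Icc]
    exact ⟨⟨a1, a2⟩, ⟨b1, b2⟩⟩
  · refine (norm_le_abs_re_add_abs_im _).trans ?_
    rw [sub_re, sub_im]
    have h1 : |Z.re - (z.re + ε / 4 * (⌊(Z.re - z.re) * 4 / ε⌋ : ℤ))| ≤ ε / 4 := by
      rw [← sub_sub]
      exact a3
    have h2 : |Z.im - (z.im + ε / 4 * (⌊(Z.im - z.im) * 4 / ε⌋ : ℤ))| ≤ ε / 4 := by
      rw [← sub_sub]
      exact b3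
    linarith

theorem nets_V (M : ℝ) : ∃ N : ℕ, ∀ (κ P : ℝ → ℝ) (ε δ C y0 : ℝ) (q : ℂ), KP κ P ε δ C →
    δ ≤ 1 / 100 → 0 ≤ y0 → 0 < ε → ∃ Q : Finset ℂ, Q.card ≤ N ∧
    ∀ Z ∈ Win y0, ‖zz P y0 Z - q‖ ≤ M * ε → ∃ q' ∈ Q, ‖Z - q'‖ ≤ ε / 2 := by
  obtain ⟨N, hN⟩ := nets_M (16 * M)
  refine ⟨N, ?_⟩
  intro κ P ε δ C y0 q hK hδ h0 hε
  by_cases h : ∃ Z1 ∈ Win y0, ‖zz P y0 Z1 - q‖ ≤ M * ε
  · obtain ⟨Z1, hZ1, hq1⟩ := h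
    obtain ⟨Q, hQc, hQ⟩ := hN ε Z1 hε
    refine ⟨Q, hQc, ?_⟩
    intro Z hZ hq
    apply hQ
    have h1 := (zz_lip hK hδ h0 (Z := Z) (Z' := Z1) (by linarith [hZ.2.2.1])
      (by linarith [hZ.2.2.2]) (by linarith [hZ1.2.2.1]) (by linarith [hZ1.2.2.2])).1
    have h2 : ‖zz P y0 Z - zz P y0 Z1‖ ≤ 2 * (M * ε) := by
      have h3 : zz P y0 Z - zz P y0 Z1 = (zz P y0 Z - q) - (zz P y0 Z1 - q) := by ring
      rw [h3]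
      refine (norm_sub_le _ _).trans ?_
      linarith
    linarith
  · refine ⟨∅, by simp, ?_⟩
    intro Z hZ hq
    exact absurd ⟨Z, hZ, hq⟩ h

end Pool.Agent.CAPV
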