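import Pool.Agent.Lib.MP_488b8a_co_V.Defs

/-! Project SO (MP_488b8a_co), module Num: the numerical inequality at a core. -/

namespace Pool.Agent.CAPV

theorem numeric (C1 CR : ℝ) (h1 : 1 ≤ C1) (h2 : 1 ≤ CR) :
    ∃ A C C0 : ℝ, 1 ≤ A ∧ 1 ≤ C ∧ 1000 ≤ C0 ∧ ∀ t x l n D : ℝ, 0 < t → t ≤ 1 → 0 < x →
      x ≤ 1 / C0 → t ≤ C1 * x → l = 1 + Real.log (1 / x) →
      |D - 1 - 2 * A * n| ≤ C1 * ((t + x) ^ 2 + A * (t + x) * l * x ^ 2 + A ^ 2 * (l * x ^ 2) ^ 2) →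
      1 / C1 * x ^ 2 - C1 * th t ≤ n → n ≤ C1 * x ^ 2 →
      1 + CR * ((C1 * (t + x + A * l * x ^ 2)) ^ 2 + C1 * (t ^ 2 + x ^ 2 + A * l * x ^ 3)) ≤
          D + C * th t ∧
        D + (C1 * (t + x + A * l * x ^ 2)) ^ 2 ≤ 1 + C * (th t + x ^ 2) ∧
        CR * (C1 * (t + x + A * l * x ^ 2)) ≤ 1 ∧
        CR * (C1 * (t ^ 2 + x ^ 2 + A * l * x ^ 3)) ≤ 1 := by
  obtain ⟨C2, hC2⟩ : ∃ C2 : ℝ, C2 = CR * (8 * C1 ^ 2 + 2 * C1) := ⟨_, rfl⟩
  obtain ⟨C3, hC3⟩ : ∃ C3 : ℝ, C3 = 5 * C1 := ⟨_, rfl⟩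
  have hC10 : 0 < C1 := by linarith
  have hCR0 : 0 < CR := by linarith
  have hC20 : 1 ≤ C2 := by
    rw [hC2]
    have h3 : 1 ≤ 8 * C1 ^ 2 + 2 * C1 := by linarith [sq_nonneg C1]
    exact one_le_mul_of_one_le_of_one_le h2 h3
  have hC30 : 1 ≤ C3 := by rw [hC3]; linarith
  obtain ⟨A, hA⟩ : ∃ A : ℝ, A = C1 * (C2 + C3) := ⟨_, rfl⟩
  have hA1 : 1 ≤ A := by rw [hA]; exact one_le_mul_of_one_le_of_one_le h1 (by linarith)
  have hA0 : 0 < A := by linarith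
  obtain ⟨C, hC⟩ : ∃ C : ℝ, C = 2 * A * C1 + C2 + C3 + 8 * C1 ^ 2 := ⟨_, rfl⟩
  have hAC1 : 0 < A * C1 := mul_pos hA0 hC10
  have hC1' : 1 ≤ C := by
    have e1 : 0 ≤ 2 * A * C1 := by positivity
    rw [hC]; linarith [sq_nonneg C1]
  obtain ⟨C0, hC0⟩ : ∃ C0 : ℝ, C0 = 1000 + CR * (C1 * (C1 + 2)) +
      CR * (2 * C1 * (C1 ^ 2 + 1)) + 9 * A ^ 2 := ⟨_, rfl⟩
  have q1 : 0 < CR * (C1 * (C1 + 2)) := by positivity
  have q2 : 0 < CR * (2 * C1 * (C1 ^ 2 + 1)) := by positivity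
  have q3 : 0 < 9 * A ^ 2 := by positivity
  have hC0k : 1000 ≤ C0 := by rw [hC0]; linarith
  have hC0p : 0 < C0 := by linarith
  refine ⟨A, C, C0, hA1, hC1', hC0k, ?_⟩
  intro t x l n D ht0 ht1 hx0 hxC htx hl hD hn1 hn2
  have hxC0 : x * C0 ≤ 1 := by
    rw [le_div_iff₀ hC0p] at hxC
    exact hxC
  have hx1 : x ≤ 1 := by
    have e1 : x * 1 ≤ x * C0 := mul_le_mul_of_nonneg_left (by linarith) hx0.le
    linarith
  have hx9 : x * (9 * A ^ 2) ≤ 1 := by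
    have : x * (9 * A ^ 2) ≤ x * C0 := mul_le_mul_of_nonneg_left (by rw [hC0]; linarith) hx0.le
    linarith
  -- `A l x ≤ 1`
  have hlog0 : 0 ≤ Real.log (1 / x) := Real.log_nonneg (by rw [le_div_iff₀ hx0]; linarith)
  have hl1 : 1 ≤ l := by rw [hl]; linarith
  have hAlx : A * l * x ≤ 1 := by
    obtain ⟨u, hu⟩ : ∃ u : ℝ, u = Real.sqrt x := ⟨_, rfl⟩
    have hu0 : 0 < u := by rw [hu]; exact Real.sqrt_pos.2 hx0
    have hux : u ^ 2 = x := by rw [hu]; exact Real.sq_sqrt hx0.le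
    have hu1 : u ≤ 1 := by
      refine le_of_sq_le_sq (b := (1:ℝ)) ?_ (by norm_num)
      rw [hux]; linarith
    have hlogu : Real.log (1 / x) ≤ 2 * (1 / u) := by
      have e1 : (1:ℝ) / x = (1 / u) ^ 2 := by rw [← hux]; field_simp
      have e2 : Real.log (1 / u) ≤ 1 / u - 1 := Real.log_le_sub_one_of_pos (by positivity)
      rw [e1, Real.log_pow]
      push_cast
      linarith
    have hlx : l * x ≤ 3 * u := by
      have e3 : l * x ≤ (1 + 2 * (1 / u)) * x :=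
        mul_le_mul_of_nonneg_right (by rw [hl]; linarith) hx0.le
      have e4 : (1 + 2 * (1 / u)) * x = u ^ 2 + 2 * u := by
        rw [← hux]; field_simp
      have e5 : u ^ 2 ≤ u := by
        have : u * u ≤ u * 1 := mul_le_mul_of_nonneg_left hu1 hu0.le
        linarith [sq u]
      linarith
    have hAu : A * (3 * u) ≤ 1 := by
      have e5 : (A * (3 * u)) ^ 2 ≤ 1 ^ 2 := by
        have : (A * (3 * u)) ^ 2 = x * (9 * A ^ 2) := by rw [← hux]; ring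
        rw [this]; linarith
      exact le_of_sq_le_sq e5 (by norm_num)
    calc A * l * x = A * (l * x) := by ring
      _ ≤ A * (3 * u) := mul_le_mul_of_nonneg_left hlx hA0.le
      _ ≤ 1 := hAu
  have hAl0 : 0 ≤ A * l := by positivity
  have m1 : A * l * x ^ 2 ≤ x := by
    have : A * l * x ^ 2 = (A * l * x) * x := by ring
    rw [this]
    exact mul_le_of_le_one_left hx0.le hAlx
  have m1' : 0 ≤ A * l * x ^ 2 := by positivity
  have m2 : A * l * x ^ 3 ≤ x ^ 2 := by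
    have : A * l * x ^ 3 = (A * l * x) * x ^ 2 := by ring
    rw [this]
    exact mul_le_of_le_one_left (sq_nonneg x) hAlx
  have m3 : A * (t + x) * l * x ^ 2 ≤ (t + x) * x := by
    have : A * (t + x) * l * x ^ 2 = (t + x) * (A * l * x ^ 2) := by ring
    rw [this]
    exact mul_le_mul_of_nonneg_left m1 (by linarith)
  have m4 : A ^ 2 * (l * x ^ 2) ^ 2 ≤ x ^ 2 := by
    have : A ^ 2 * (l * x ^ 2) ^ 2 = (A * l * x ^ 2) ^ 2 := by ring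
    rw [this]
    exact pow_le_pow_left₀ m1' m1 2
  -- the quantities `b`, `e'`
  have hb : C1 * (t + x + A * l * x ^ 2) ≤ C1 * (t + 2 * x) :=
    mul_le_mul_of_nonneg_left (by linarith) hC10.le
  have hb0 : 0 ≤ C1 * (t + x + A * l * x ^ 2) := by positivity
  have hb2 : (C1 * (t + x + A * l * x ^ 2)) ^ 2 ≤ 8 * C1 ^ 2 * (t ^ 2 + x ^ 2) := by
    refine (pow_le_pow_left₀ hb0 hb 2).trans ?_
    have e1 : (t + 2 * x) ^ 2 ≤ 8 * (t ^ 2 + x ^ 2) := by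
      have e3 : 8 * (t ^ 2 + x ^ 2) = (t + 2 * x) ^ 2 + ((t - 2 * x) ^ 2 + 6 * t ^ 2) := by ring
      rw [e3]
      exact le_add_of_nonneg_right (by positivity)
    have e2 : 0 ≤ C1 ^ 2 := sq_nonneg _
    calc (C1 * (t + 2 * x)) ^ 2 = C1 ^ 2 * (t + 2 * x) ^ 2 := by ring
      _ ≤ C1 ^ 2 * (8 * (t ^ 2 + x ^ 2)) := mul_le_mul_of_nonneg_left e1 e2
      _ = 8 * C1 ^ 2 * (t ^ 2 + x ^ 2) := by ring
  have he : C1 * (t ^ 2 + x ^ 2 + A * l * x ^ 3) ≤ 2 * C1 * (t ^ 2 + x ^ 2) := by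
    have e1 : t ^ 2 + x ^ 2 + A * l * x ^ 3 ≤ 2 * (t ^ 2 + x ^ 2) := by
      linarith [sq_nonneg t]
    calc C1 * (t ^ 2 + x ^ 2 + A * l * x ^ 3) ≤ C1 * (2 * (t ^ 2 + x ^ 2)) :=
          mul_le_mul_of_nonneg_left e1 hC10.le
      _ = 2 * C1 * (t ^ 2 + x ^ 2) := by ring
  have hDb : |D - 1 - 2 * A * n| ≤ C3 * (t ^ 2 + x ^ 2) := by
    refine hD.trans ?_
    have e1 : (t + x) ^ 2 + A * (t + x) * l * x ^ 2 + A ^ 2 * (l * x ^ 2) ^ 2 ≤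
        5 * (t ^ 2 + x ^ 2) := by
      have e3 : 5 * (t ^ 2 + x ^ 2) = (t + x) ^ 2 + (t + x) * x + x ^ 2 +
          (2 * (x - 3 / 4 * t) ^ 2 + 23 / 8 * t ^ 2) := by ring
      have e4 : 0 ≤ 2 * (x - 3 / 4 * t) ^ 2 + 23 / 8 * t ^ 2 := by positivity
      linarith
    rw [hC3]
    calc C1 * ((t + x) ^ 2 + A * (t + x) * l * x ^ 2 + A ^ 2 * (l * x ^ 2) ^ 2) ≤
          C1 * (5 * (t ^ 2 + x ^ 2)) := mul_le_mul_of_nonneg_left e1 hC10.le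
      _ = 5 * C1 * (t ^ 2 + x ^ 2) := by ring
  obtain ⟨hD1, hD2⟩ := abs_le.1 hDb
  have hth : t ^ 2 ≤ th t := by
    have e1 : 0 ≤ Real.log (1 / t) := Real.log_nonneg (by rw [le_div_iff₀ ht0]; linarith)
    unfold th
    linarith [mul_nonneg (sq_nonneg t) e1]
  have ht2 : 0 ≤ t ^ 2 := sq_nonneg t
  have hx2 : 0 ≤ x ^ 2 := sq_nonneg x
  -- `2 A n` from both sides
  have hAn1 : 2 * (C2 + C3) * x ^ 2 - 2 * A * C1 * th t ≤ 2 * A * n := by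
    have e1 : 2 * A * (1 / C1 * x ^ 2 - C1 * th t) ≤ 2 * A * n :=
      mul_le_mul_of_nonneg_left hn1 (by positivity)
    have e2 : 2 * A * (1 / C1 * x ^ 2 - C1 * th t) =
        2 * (C2 + C3) * x ^ 2 - 2 * A * C1 * th t := by
      have : A * (1 / C1) = C2 + C3 := by rw [hA]; field_simp
      calc 2 * A * (1 / C1 * x ^ 2 - C1 * th t) =
            2 * (A * (1 / C1)) * x ^ 2 - 2 * A * C1 * th t := by ring
        _ = _ := by rw [this]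
    linarith
  have hAn2 : 2 * A * n ≤ 2 * A * C1 * x ^ 2 := by
    have e1 : 2 * A * n ≤ 2 * A * (C1 * x ^ 2) := mul_le_mul_of_nonneg_left hn2 (by positivity)
    linarith
  refine ⟨?_, ?_, ?_, ?_⟩
  · have e1 : CR * ((C1 * (t + x + A * l * x ^ 2)) ^ 2 + C1 * (t ^ 2 + x ^ 2 + A * l * x ^ 3)) ≤
        C2 * (t ^ 2 + x ^ 2) := by
      rw [hC2]
      calc CR * ((C1 * (t + x + A * l * x ^ 2)) ^ 2 + C1 * (t ^ 2 + x ^ 2 + A * l * x ^ 3)) ≤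
            CR * (8 * C1 ^ 2 * (t ^ 2 + x ^ 2) + 2 * C1 * (t ^ 2 + x ^ 2)) :=
            mul_le_mul_of_nonneg_left (add_le_add hb2 he) hCR0.le
        _ = CR * (8 * C1 ^ 2 + 2 * C1) * (t ^ 2 + x ^ 2) := by ring
    have e2 : (C2 + C3) * t ^ 2 ≤ (C2 + C3) * th t :=
      mul_le_mul_of_nonneg_left hth (by linarith)
    have e3 : 0 ≤ 8 * C1 ^ 2 * th t := mul_nonneg (by positivity) (ht2.trans hth)
    have e4 : 0 ≤ (C2 + C3) * x ^ 2 := mul_nonneg (by linarith) hx2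
    have e5 : C * th t = 2 * A * C1 * th t + (C2 + C3) * th t + 8 * C1 ^ 2 * th t := by
      rw [hC]; ring
    rw [e5]
    linarith
  · have e2 : (C3 + 8 * C1 ^ 2) * t ^ 2 ≤ (C3 + 8 * C1 ^ 2) * th t :=
      mul_le_mul_of_nonneg_left hth (by positivity)
    have e3 : 0 ≤ (2 * A * C1 + C2) * th t :=
      mul_nonneg (by positivity) (ht2.trans hth)
    have e4 : 0 ≤ C2 * x ^ 2 := mul_nonneg (by linarith) hx2
    have e5 : C * (th t + x ^ 2) = (2 * A * C1 + C2) * th t + (C3 + 8 * C1 ^ 2) * th t +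
        2 * A * C1 * x ^ 2 + C2 * x ^ 2 + (C3 + 8 * C1 ^ 2) * x ^ 2 := by
      rw [hC]; ring
    rw [e5]
    linarith
  · have e1 : C1 * (t + x + A * l * x ^ 2) ≤ C1 * ((C1 + 2) * x) :=
      mul_le_mul_of_nonneg_left (by linarith) hC10.le
    have e2 : CR * (C1 * (t + x + A * l * x ^ 2)) ≤ CR * (C1 * ((C1 + 2) * x)) :=
      mul_le_mul_of_nonneg_left e1 hCR0.le
    have e3 : x * (CR * (C1 * (C1 + 2))) ≤ x * C0 :=
      mul_le_mul_of_nonneg_left (by rw [hC0]; linarith) hx0.le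
    calc CR * (C1 * (t + x + A * l * x ^ 2)) ≤ CR * (C1 * ((C1 + 2) * x)) := e2
      _ = x * (CR * (C1 * (C1 + 2))) := by ring
      _ ≤ 1 := by linarith
  · have e0 : t ^ 2 ≤ (C1 * x) ^ 2 := pow_le_pow_left₀ ht0.le htx 2
    have e1 : t ^ 2 + x ^ 2 ≤ (C1 ^ 2 + 1) * x := by
      have : x ^ 2 ≤ x := by
        have : x * x ≤ x * 1 := mul_le_mul_of_nonneg_left hx1 hx0.le
        linarith [sq x]
      have e4 : (C1 * x) ^ 2 = C1 ^ 2 * x ^ 2 := by ring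
      have h5 : 0 ≤ C1 ^ 2 + 1 := by positivity
      calc t ^ 2 + x ^ 2 ≤ (C1 ^ 2 + 1) * x ^ 2 := by linarith
        _ ≤ (C1 ^ 2 + 1) * x := mul_le_mul_of_nonneg_left this h5
    have e2 : CR * (C1 * (t ^ 2 + x ^ 2 + A * l * x ^ 3)) ≤
        CR * (2 * C1 * ((C1 ^ 2 + 1) * x)) :=
      mul_le_mul_of_nonneg_left
        (he.trans (mul_le_mul_of_nonneg_left e1 (by positivity))) hCR0.le
    have e3 : x * (CR * (2 * C1 * (C1 ^ 2 + 1))) ≤ x * C0 :=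
      mul_le_mul_of_nonneg_left (by rw [hC0]; linarith) hx0.le
    calc CR * (C1 * (t ^ 2 + x ^ 2 + A * l * x ^ 3)) ≤
          CR * (2 * C1 * ((C1 ^ 2 + 1) * x)) := e2
      _ = x * (CR * (2 * C1 * (C1 ^ 2 + 1))) := by ring
      _ ≤ 1 := by linarith

end Pool.Agent.CAPV
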