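import Pool.Agent.Lib.MP_488b8a_co_V.SDefs

/-! Project SO (MP_488b8a_co): the perturbation near a core. -/

namespace Pool.Agent.CAPV

open Complex

/-- first component of the perturbation -/
noncomputable def SD.P1 (S : SD) (i : ℕ) (s : ℝ) (z : ℂ) : ℂ :=
  S.pl1 (i - 1) z - (s : ℂ) * S.df1 i z + S.W1 i z

/-- second component of the perturbation -/
noncomputable def SD.P2 (S : SD) (i : ℕ) (s : ℝ) (z : ℂ) : ℂ :=
  S.pl2 (i - 1) z - (s : ℂ) * S.df2 i z + S.W2 i z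

/-- position of a point near the core `i` -/
structure SD.Pos (S : SD) (C : ℝ) (i : ℕ) (z : ℂ) (s x l : ℝ) : Prop where
  i1 : 1 ≤ i
  iN : i < S.N
  re : |z.re - i * S.h| ≤ 5 / 8 * S.h
  im : |z.im| ≤ 5 / 4 * S.h
  far : C * S.ε ≤ ‖z - S.p i‖
  hs : s = 0 ∨ (s = 1 ∧ i * S.h + 100 * S.ε < z.re)
  hx : x = S.ε / ‖z - S.p i‖
  hl : l = 1 + Real.log (1 / x)

end Pool.Agent.CAPV
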