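import Pool.Agent.Lib.MP_488b8a_co_V.Bas

/-! Project SO (MP_488b8a_co), module PlB: bounds for the map without dislocations. -/

namespace Pool.Agent.CAPV

open Complex

private theorem PlB_mul {B : Set ℂ} {f g : ℂ → ℂ} {M L M' L' P Q : ℝ} (h0 : 0 ≤ M) (h0' : 0 ≤ M')
    (hf : BL B f M L) (hg : BL B g M' L') (hP : M * M' ≤ P) (hQ : M * L' + M' * L ≤ Q) :
    BL B (fun z => f z * g z) P Q :=
  BL_mono (BL_mul h0 h0' hf hg) le_rfl hP hQ

private theorem PlB_num {t ε h : ℝ} (hh : 0 < h) (ht : t ≤ 1)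
    (eh : ε ≤ t * h) (he : h ≤ t) :
    ∃ g y : ℝ, 0 < g ∧ 1 ≤ y ∧ g = 1 / h ∧ y = t / h ∧ h * g = 1 ∧ t * g = y ∧ ε * g ≤ t ∧
      ε * g ^ 2 ≤ y ∧ ε ≤ t := by
  have ht0 : 0 < t := hh.trans_le he
  have hg : h * (1 / h) = 1 := by field_simp
  have h1 : ε * (1 / h) ≤ t := by
    rw [mul_one_div, div_le_iff₀ hh]
    exact eh
  refine ⟨1 / h, t / h, by positivity, ?_, rfl, rfl, hg, by ring, h1, ?_, ?_⟩
  · rw [le_div_iff₀ hh]
    linarith
  · have h2 : ε * (1 / h) * (1 / h) ≤ t * (1 / h) := mul_le_mul_of_nonneg_right h1 (by positivity)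
    calc ε * (1 / h) ^ 2 = ε * (1 / h) * (1 / h) := by ring
      _ ≤ t * (1 / h) := h2
      _ = t / h := by ring
  · have : t * h ≤ t * 1 := mul_le_mul_of_nonneg_left (by linarith) ht0.le
    linarith

theorem pl_bd (K : ℝ) (hK : 1 ≤ K) : ∃ C : ℝ, 1 ≤ C ∧ ∀ (S : SD) (t : ℝ), S.Hyp K t →
    ∀ i < S.N, ∀ z ∈ SB S.h S.N, |z.re - i * S.h| ≤ 3 * S.h →
      ‖S.pl1 i z‖ ≤ C * t ∧ ‖S.pl2 i z‖ ≤ C * t ∧
      ∀ z' ∈ SB S.h S.N, |z'.re - i * S.h| ≤ 3 * S.h →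
        ‖S.pl1 i z - S.pl1 i z'‖ ≤ C * (1 + t / S.h) * ‖z - z'‖ ∧
        ‖S.pl2 i z - S.pl2 i z'‖ ≤ C * (1 + t / S.h) * ‖z - z'‖ := by
  have hK0 : 0 < K := by linarith
  have hK2 : K ≤ K ^ 2 := by nlinarith
  have hK3 : K ^ 2 ≤ K ^ 3 := by nlinarith [sq_nonneg K]
  have hK4 : K ^ 3 ≤ K ^ 4 := by nlinarith [pow_pos hK0 3]
  refine ⟨25 * K ^ 4, by linarith, ?_⟩
  intro S t hS i hi
  obtain ⟨bH1, bH2, bw1, bw2, bX0, bX1, bX2, -, -⟩ := hS.basic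
  obtain ⟨g, y, hg0, hy1, hg, hy, hhg, htg, heg, heg2, het⟩ :=
    PlB_num hS.h0 hS.t1 hS.eh hS.ht
  have hε := hS.e0
  have hh := hS.h0
  have ht0 : 0 < t := hh.trans_le hS.ht
  have ht1 := hS.t1
  set ε := S.ε with hεd
  set h := S.h with hhd
  have e1 : K / h = K * g := by rw [hg]; ring
  have e2 : K / h ^ 2 = K * g ^ 2 := by rw [hg]; field_simp
  have e3 : K / h ^ 3 = K * g ^ 3 := by rw [hg]; field_simp
  rw [e1] at bX0 bX1
  rw [e2] at bX1 bX2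
  rw [e3] at bX2
  set B : Set ℂ := {z | z ∈ SB h S.N ∧ |z.re - i * h| ≤ 3 * h} with hB
  have hBS : B ⊆ SB h S.N := fun z hz => hz.1
  have hBc : Convex ℝ B := by
    have h2 : Convex ℝ {z : ℂ | |z.re - i * h| ≤ 3 * h} := by
      have h3 : {z : ℂ | |z.re - i * h| ≤ 3 * h} =
          {z : ℂ | i * h - 3 * h ≤ z.re} ∩ {z : ℂ | z.re ≤ i * h + 3 * h} := by
        ext z
        simp only [Set.mem_ofPred_eq, Set.mem_inter_iff, abs_le]
        constructor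
        · rintro ⟨h4, h5⟩
          constructor <;> linarith
        · rintro ⟨h4, h5⟩
          constructor <;> linarith
      rw [h3]
      exact (convex_halfSpace_re_ge _).inter (convex_halfSpace_re_le _)
    exact (SB_convex h S.N).inter h2
  have bF1 : BL B S.F.f1 K (2 * K) := BL_of_der hBc (fun z _ => hS.F.d1 z)
    (fun z hz => hS.Fb.b1 z hz.1) (fun z hz => hS.Fb.b11 z hz.1) (fun z hz => hS.Fb.b12 z hz.1)
  have bF11 : BL B S.F.f11 K K := ⟨fun z hz => hS.Fb.b11 z hz.1, fun z hz z' hz' =>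
    hS.Fb.l11 z hz.1 z' hz'.1⟩
  have bF12 : BL B S.F.f12 K K := ⟨fun z hz => hS.Fb.b12 z hz.1, fun z hz z' hz' =>
    hS.Fb.l12 z hz.1 z' hz'.1⟩
  have bw : BL B (S.w i) (K * ε) (2 * t) := BL_of_der hBc (fun z _ => hS.w_der i z)
    (fun z hz => hS.wb i hi z hz.1 hz.2) (fun z hz => hS.d1 z hz.1) (fun z hz => hS.d2 z hz.1)
  have bg : BL B (fun z => (S.gam i z : ℂ)) (K * ε * h) (2 * (K * ε * K)) := by
    refine BL_of_der_real hBc (fun z _ => hS.gam_der i z) (fun z hz => hS.gb i hi z hz.1 hz.2)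
      (fun z hz => ?_) (fun z hz => ?_)
    · exact (cr_abs_le _ _).trans (mul_le_mul (hS.wb i hi z hz.1 hz.2) (bH1.1 z hz.1)
        (norm_nonneg _) (by positivity))
    · exact (cr_abs_le _ _).trans (mul_le_mul (hS.wb i hi z hz.1 hz.2) (bH2.1 z hz.1)
        (norm_nonneg _) (by positivity))
  have bX0' := BL_mono bX0 hBS le_rfl le_rfl
  have bX1' := BL_mono bX1 hBS le_rfl le_rfl
  have bX2' := BL_mono bX2 hBS le_rfl le_rfl
  have bw1' := BL_mono bw1 hBS le_rfl le_rfl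
  have bw2' := BL_mono bw2 hBS le_rfl le_rfl
  have bH1' := BL_mono bH1 hBS le_rfl le_rfl
  have bH2' := BL_mono bH2 hBS le_rfl le_rfl
  have hy0 : 0 < y := by linarith
  have m1 : K ^ 3 * (ε * g) ≤ K ^ 3 * t := mul_le_mul_of_nonneg_left heg (by positivity)
  have m2 : K ^ 3 * (ε * g ^ 2) ≤ K ^ 3 * y := mul_le_mul_of_nonneg_left heg2 (by positivity)
  have m3 : K ^ 2 * (ε * g) ≤ K ^ 2 * t := mul_le_mul_of_nonneg_left heg (by positivity)
  have m4 : K ^ 2 * (ε * g ^ 2) ≤ K ^ 2 * y := mul_le_mul_of_nonneg_left heg2 (by positivity)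
  have m5 : K ^ 3 * t ≤ K ^ 3 * 1 := mul_le_mul_of_nonneg_left ht1 (by positivity)
  have m6 : K ^ 2 * y ≤ K ^ 3 * y := mul_le_mul_of_nonneg_right hK3 hy0.le
  have m7 : K ^ 2 * t ≤ K ^ 3 * t := mul_le_mul_of_nonneg_right hK3 ht0.le
  have m8 : K * y ≤ K ^ 2 * y := mul_le_mul_of_nonneg_right hK2 hy0.le
  have m9 : K ^ 3 * y ≤ K ^ 4 * y := mul_le_mul_of_nonneg_right hK4 hy0.le
  have m10 : K ^ 3 * t ≤ K ^ 4 * t := mul_le_mul_of_nonneg_right hK4 ht0.le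
  have m11 : K ^ 2 * ε ≤ K ^ 2 * t := mul_le_mul_of_nonneg_left het (by positivity)
  have m12 : K ^ 4 * t ≤ K ^ 4 * 1 := mul_le_mul_of_nonneg_left ht1 (by positivity)
  have m13 : 1 * t ≤ K ^ 2 * t := mul_le_mul_of_nonneg_right (by linarith) ht0.le
  have m14 : K ^ 2 * t ≤ K ^ 2 * 1 := mul_le_mul_of_nonneg_left ht1 (by positivity)
  have m15 : 0 ≤ K ^ 4 * y := by positivity
  have m16 : 0 ≤ K ^ 3 * y := by positivity
  have m17 : 0 ≤ K ^ 2 * y := by positivity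
  -- products
  have crX : ∀ Hj : ℂ → ℂ, BL B Hj K (2 * K) →
      BL B (fun z => (((cr (S.w i z) (Hj z) : ℝ) : ℂ)) * (S.X1 z : ℂ)) (K ^ 3 * t)
        (5 * K ^ 3 * (1 + y)) := by
    intro Hj hHj
    refine PlB_mul (by positivity) (by positivity)
      (BL_cr (by positivity) hK0.le bw hHj) bX1' ?_ ?_
    · calc K * ε * K * (K * g) = K ^ 3 * (ε * g) := by ring
        _ ≤ _ := m1
    · calc K * ε * K * (K * g ^ 2) + K * g * (K * ε * (2 * K) + K * (2 * t))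
          = K ^ 3 * (ε * g ^ 2) + 2 * (K ^ 3 * (ε * g)) + 2 * (K ^ 2 * (t * g)) := by ring
        _ ≤ K ^ 3 * y + 2 * (K ^ 3 * 1) + 2 * (K ^ 3 * y) := by
            rw [htg]
            linarith
        _ ≤ _ := by nlinarith
  have gX1 : BL B (fun z => (S.gam i z : ℂ) * (S.X1 z : ℂ)) (K ^ 2 * t) (3 * K ^ 3 * (1 + y)) := by
    refine PlB_mul (by positivity) (by positivity) bg bX1' ?_ ?_
    · calc K * ε * h * (K * g) = K ^ 2 * ε * (h * g) := by ring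
        _ = K ^ 2 * ε := by rw [hhg, mul_one]
        _ ≤ _ := m11
    · calc K * ε * h * (K * g ^ 2) + K * g * (2 * (K * ε * K))
          = K ^ 2 * (ε * g) * (h * g) + 2 * (K ^ 3 * (ε * g)) := by ring
        _ = K ^ 2 * (ε * g) + 2 * (K ^ 3 * (ε * g)) := by rw [hhg, mul_one]
        _ ≤ _ := by nlinarith
  have gX2 : BL B (fun z => (S.gam i z : ℂ) * (S.X2 z : ℂ)) (K ^ 2 * t) (3 * K ^ 3 * (1 + y)) := by
    refine PlB_mul (by positivity) (by positivity) bg bX2' ?_ ?_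
    · calc K * ε * h * (K * g ^ 2) = K ^ 2 * (ε * g) * (h * g) := by ring
        _ = K ^ 2 * (ε * g) := by rw [hhg, mul_one]
        _ ≤ _ := m3
    · calc K * ε * h * (K * g ^ 3) + K * g ^ 2 * (2 * (K * ε * K))
          = K ^ 2 * (ε * g ^ 2) * (h * g) + 2 * (K ^ 3 * (ε * g ^ 2)) := by ring
        _ = K ^ 2 * (ε * g ^ 2) + 2 * (K ^ 3 * (ε * g ^ 2)) := by rw [hhg, mul_one]
        _ ≤ _ := by nlinarith
  have X0w : ∀ wj : ℂ → ℂ, BL B wj t (4 * K) →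
      BL B (fun z => (S.X0 z : ℂ) * wj z) (K ^ 2 * t) (4 * K ^ 3 * (1 + y)) := by
    intro wj hwj
    refine PlB_mul zero_le_one ht0.le bX0' hwj m13 ?_
    calc 1 * (4 * K) + t * (K * g) = 4 * K + K * (t * g) := by ring
      _ = 4 * K + K * y := by rw [htg]
      _ ≤ _ := by nlinarith
  have X1w : BL B (fun z => (S.X1 z : ℂ) * S.w i z) (K ^ 2 * t) (3 * K ^ 3 * (1 + y)) := by
    refine PlB_mul (by positivity) (by positivity) bX1' bw ?_ ?_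
    · calc K * g * (K * ε) = K ^ 2 * (ε * g) := by ring
        _ ≤ _ := m3
    · calc K * g * (2 * t) + K * ε * (K * g ^ 2)
          = 2 * (K * (t * g)) + K ^ 2 * (ε * g ^ 2) := by ring
        _ = 2 * (K * y) + K ^ 2 * (ε * g ^ 2) := by rw [htg]
        _ ≤ _ := by nlinarith
  have gF : ∀ Fj : ℂ → ℂ, BL B Fj K K →
      BL B (fun z => (S.gam i z : ℂ) * (S.X1 z : ℂ) * Fj z) (K ^ 3 * t)
        (4 * K ^ 4 * (1 + y)) := by
    intro Fj hFj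
    refine PlB_mul (by positivity) hK0.le gX1 hFj (le_of_eq (by ring)) ?_
    calc K ^ 2 * t * K + K * (3 * K ^ 3 * (1 + y)) = K ^ 3 * t + 3 * K ^ 4 + 3 * (K ^ 4 * y) := by
          ring
      _ ≤ _ := by nlinarith
  have p1 : BL B (S.pl1 i) (25 * K ^ 4 * t) (25 * K ^ 4 * (1 + y)) := by
    have h1 : BL B (fun z => (((cr (S.w i z) (S.H1 z) : ℝ) : ℂ)) * (S.X1 z : ℂ) * S.F.f1 z)
        (K ^ 4 * t) (7 * K ^ 4 * (1 + y)) := by
      refine PlB_mul (by positivity) hK0.le (crX _ bH1') bF1 (le_of_eq (by ring)) ?_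
      calc K ^ 3 * t * (2 * K) + K * (5 * K ^ 3 * (1 + y)) =
          2 * (K ^ 4 * t) + 5 * K ^ 4 + 5 * (K ^ 4 * y) := by ring
        _ ≤ _ := by nlinarith
    have h2 := BL_add (BL_add (X0w _ bw1') h1) (gF _ bF11)
    have h3 : S.pl1 i = fun z => (S.X0 z : ℂ) * S.w1 z +
        (((cr (S.w i z) (S.H1 z) : ℝ) : ℂ)) * (S.X1 z : ℂ) * S.F.f1 z +
        (S.gam i z : ℂ) * (S.X1 z : ℂ) * S.F.f11 z := by
      funext z
      simp only [SD.pl1, ofReal_mul]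
    rw [h3]
    refine BL_mono h2 le_rfl (by nlinarith) (by nlinarith)
  have p2 : BL B (S.pl2 i) (25 * K ^ 4 * t) (25 * K ^ 4 * (1 + y)) := by
    have h1 : BL B (fun z => ((((cr (S.w i z) (S.H2 z) : ℝ) : ℂ)) * (S.X1 z : ℂ) +
        (S.gam i z : ℂ) * (S.X2 z : ℂ)) * S.F.f1 z)
        (2 * K ^ 4 * t) (12 * K ^ 4 * (1 + y)) := by
      refine PlB_mul (by positivity) hK0.le (BL_add (crX _ bH2') gX2) bF1 ?_ ?_
      · nlinarith
      · calc (K ^ 3 * t + K ^ 2 * t) * (2 * K) +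
            K * (5 * K ^ 3 * (1 + y) + 3 * K ^ 3 * (1 + y)) =
            2 * (K ^ 4 * t) + 2 * (K ^ 3 * t) + 8 * K ^ 4 + 8 * (K ^ 4 * y) := by ring
          _ ≤ _ := by nlinarith
    have h2 := BL_add (BL_add (BL_add X1w (X0w _ bw2')) h1) (gF _ bF12)
    have h3 : S.pl2 i = fun z => (S.X1 z : ℂ) * S.w i z + (S.X0 z : ℂ) * S.w2 z +
        ((((cr (S.w i z) (S.H2 z) : ℝ) : ℂ)) * (S.X1 z : ℂ) +
        (S.gam i z : ℂ) * (S.X2 z : ℂ)) * S.F.f1 z +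
        (S.gam i z : ℂ) * (S.X1 z : ℂ) * S.F.f12 z := by
      funext z
      simp only [SD.pl2, ofReal_mul, ofReal_add]
    rw [h3]
    refine BL_mono h2 le_rfl (by nlinarith) (by nlinarith)
  rw [hy] at p1 p2
  intro z hz hz'
  refine ⟨p1.1 z ⟨hz, hz'⟩, p2.1 z ⟨hz, hz'⟩, fun z' hw hw' => ⟨?_, ?_⟩⟩
  · exact p1.2 z ⟨hz, hz'⟩ z' ⟨hw, hw'⟩
  · exact p2.2 z ⟨hz, hz'⟩ z' ⟨hw, hw'⟩

end Pool.Agent.CAPV
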