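import Pool.Agent.Lib.MP_488b8a_co_V.SDefs
import Pool.Agent.Lib.MP_488b8a_co_V.JetL

/-! Project SO (MP_488b8a_co), module PlD: derivatives of the building blocks. -/

namespace Pool.Agent.CAPV

open Complex

variable {S : SD} {K t : ℝ}

section aux

variable {f g : ℂ → ℂ} {u v : ℂ → ℝ} {a b c d z : ℂ} {p q r s : ℝ}

private theorem fcongr (h : HasFDerivAt f (fr a b) z) (h1 : a = c) (h2 : b = d) :
    HasFDerivAt f (fr c d) z := by
  rwa [← h1, ← h2]

private theorem rcongr (h : HasFDerivAt u (frr p q) z) (h1 : p = r) (h2 : q = s) :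
    HasFDerivAt u (frr r s) z := by
  rwa [← h1, ← h2]

private theorem dconst (e : ℂ) : HasFDerivAt (fun _ : ℂ => e) (fr 0 0) z := by
  refine (hasFDerivAt_const e z).congr_fderiv ?_
  refine ContinuousLinearMap.ext fun v => ?_
  rw [fr_apply]
  simp

private theorem drconst (e : ℝ) : HasFDerivAt (fun _ : ℂ => e) (frr 0 0) z := by
  refine (hasFDerivAt_const e z).congr_fderiv ?_
  refine ContinuousLinearMap.ext fun v => ?_
  rw [frr_apply]
  simp

private theorem dmul (hf : HasFDerivAt f (fr a b) z) (hg : HasFDerivAt g (fr c d) z) :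
    HasFDerivAt (fun y => f y * g y) (fr (a * g z + f z * c) (b * g z + f z * d)) z :=
  der_mul (f1 := fun _ => a) (f2 := fun _ => b) (g1 := fun _ => c) (g2 := fun _ => d) hf hg

private theorem dadd (hf : HasFDerivAt f (fr a b) z) (hg : HasFDerivAt g (fr c d) z) :
    HasFDerivAt (fun y => f y + g y) (fr (a + c) (b + d)) z :=
  der_add (f1 := fun _ => a) (f2 := fun _ => b) (g1 := fun _ => c) (g2 := fun _ => d) hf hg

private theorem dsub (hf : HasFDerivAt f (fr a b) z) (hg : HasFDerivAt g (fr c d) z) :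
    HasFDerivAt (fun y => f y - g y) (fr (a - c) (b - d)) z :=
  der_sub (f1 := fun _ => a) (f2 := fun _ => b) (g1 := fun _ => c) (g2 := fun _ => d) hf hg

private theorem dcr (hf : HasFDerivAt f (fr a b) z) (hg : HasFDerivAt g (fr c d) z) :
    HasFDerivAt (fun y => cr (f y) (g y)) (frr (cr a (g z) + cr (f z) c)
      (cr b (g z) + cr (f z) d)) z :=
  der_cr (f1 := fun _ => a) (f2 := fun _ => b) (g1 := fun _ => c) (g2 := fun _ => d) hf hg

private theorem dofReal (hf : HasFDerivAt u (frr p q) z) :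
    HasFDerivAt (fun y => (u y : ℂ)) (fr (p : ℂ) (q : ℂ)) z :=
  der_ofReal (f1 := fun _ => p) (f2 := fun _ => q) hf

private theorem drmul (hf : HasFDerivAt u (frr p q) z) (hg : HasFDerivAt v (frr r s) z) :
    HasFDerivAt (fun y => u y * v y) (frr (p * v z + u z * r) (q * v z + u z * s)) z :=
  der_mul_real (f1 := fun _ => p) (f2 := fun _ => q) (g1 := fun _ => r) (g2 := fun _ => s) hf hg

private theorem drsub (hf : HasFDerivAt u (frr p q) z) (hg : HasFDerivAt v (frr r s) z) :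
    HasFDerivAt (fun y => u y - v y) (frr (p - r) (q - s)) z := by
  refine (hf.sub hg).congr_fderiv ?_
  refine ContinuousLinearMap.ext fun v => ?_
  simp only [sub_apply, frr_apply]
  ring

private theorem dradd (hf : HasFDerivAt u (frr p q) z) (hg : HasFDerivAt v (frr r s) z) :
    HasFDerivAt (fun y => u y + v y) (frr (p + r) (q + s)) z := by
  refine (hf.add hg).congr_fderiv ?_
  refine ContinuousLinearMap.ext fun v => ?_
  simp only [add_apply, frr_apply]
  ring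

end aux

theorem SD.Hyp.H_der (hS : S.Hyp K t) (z : ℂ) : HasFDerivAt S.H (fr (S.H1 z) (S.H2 z)) z := by
  have h1 := dmul (dadd (hS.F.d0 z) (hS.G.d0 z)) (dconst (z := z) (1 / 2 : ℂ))
  have h2 : S.H = fun y => (S.F.f y + S.G.f y) * (1 / 2) := by
    funext y
    show (S.F.f y + S.G.f y) / 2 = _
    ring
  rw [h2]
  refine fcongr h1 ?_ ?_
  · show _ = (S.F.f1 z + S.G.f1 z) / 2
    ring
  · show _ = (S.F.f2 z + S.G.f2 z) / 2
    ring

theorem SD.Hyp.w_der (hS : S.Hyp K t) (i : ℕ) (z : ℂ) :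
    HasFDerivAt (S.w i) (fr (S.w1 z) (S.w2 z)) z := by
  have h1 := dsub (dsub (hS.G.d0 z) (hS.F.d0 z)) (dconst (z := z) (S.lam i))
  exact fcongr h1 (sub_zero _) (sub_zero _)

theorem SD.Hyp.gam_der (hS : S.Hyp K t) (i : ℕ) (z : ℂ) :
    HasFDerivAt (S.gam i) (frr (cr (S.w i z) (S.H1 z)) (cr (S.w i z) (S.H2 z))) z := by
  have h1 := dradd (drsub (hS.g0 z) (dcr (dconst (z := z) (S.lam i)) (hS.H_der z)))
    (drconst (z := z) (S.c i))
  refine rcongr h1 ?_ ?_
  · simp only [cr, sub_re, sub_im, zero_re, zero_im, SD.w]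
    ring
  · simp only [cr, sub_re, sub_im, zero_re, zero_im, SD.w]
    ring

theorem SD.Hyp.bet_der (hS : S.Hyp K t) (i : ℕ) (z : ℂ) :
    HasFDerivAt (S.bet i) (frr (cr (S.b i) (S.H1 z)) (cr (S.b i) (S.H2 z))) z := by
  have h1 := dcr (dconst (z := z) (S.b i)) (dsub (hS.H_der z) (dconst (z := z) (S.H (S.p i))))
  refine rcongr h1 ?_ ?_
  · simp only [cr, sub_re, sub_im, zero_re, zero_im]
    ring
  · simp only [cr, sub_re, sub_im, zero_re, zero_im]
    ring

private theorem d_im (h : ℝ) (z : ℂ) : HasFDerivAt (fun y : ℂ => y.im / h) (frr 0 (1 / h)) z := by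
  have h1 : HasFDerivAt (fun y : ℂ => imCLM y) imCLM z := imCLM.hasFDerivAt
  have h2 := h1.mul_const (1 / h)
  have h3 : (fun y : ℂ => y.im / h) = fun y => imCLM y * (1 / h) := by
    funext y
    rw [imCLM_apply]
    ring
  rw [h3]
  refine h2.congr_fderiv ?_
  refine ContinuousLinearMap.ext fun v => ?_
  rw [frr_apply]
  simp

private theorem d_aff (h : ℝ) (p z : ℂ) :
    HasFDerivAt (fun y : ℂ => (y - p) / (h : ℂ)) (fr (1 / h) (I / h)) z := by
  have h1 : HasFDerivAt (fun y : ℂ => y) (ContinuousLinearMap.id ℝ ℂ) z := hasFDerivAt_id z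
  have h2 := (h1.sub_const p).mul_const (1 / (h : ℂ))
  have h3 : (fun y : ℂ => (y - p) / (h : ℂ)) = fun y => (y - p) * (1 / (h : ℂ)) := by
    funext y
    ring
  rw [h3]
  refine h2.congr_fderiv ?_
  refine ContinuousLinearMap.ext fun v => ?_
  rw [fr_apply]
  simp only [smul_apply, ContinuousLinearMap.id_apply, smul_eq_mul]
  conv_lhs => rw [← re_add_im v]
  ring

theorem SD.Hyp.X_der (hS : S.Hyp K t) (z : ℂ) :
    HasFDerivAt S.X0 (frr 0 (S.X1 z)) z ∧ HasFDerivAt S.X1 (frr 0 (S.X2 z)) z := by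
  have _ := hS
  constructor
  · have h1 := (S.P.dx0 (z.im / S.h)).comp_hasFDerivAt z (d_im S.h z)
    refine HasFDerivAt.congr_fderiv (f := S.X0) h1 ?_
    refine ContinuousLinearMap.ext fun v => ?_
    simp only [smul_apply, frr_apply, smul_eq_mul, SD.X1]
    ring
  · have h1 := ((S.P.dx1 (z.im / S.h)).comp_hasFDerivAt z (d_im S.h z)).mul_const (1 / S.h)
    have h2 : S.X1 = fun y : ℂ => (S.P.x1 ∘ fun y : ℂ => y.im / S.h) y * (1 / S.h) := by
      funext y
      show S.P.x1 (y.im / S.h) / S.h = S.P.x1 (y.im / S.h) * (1 / S.h)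
      ring
    rw [h2]
    refine HasFDerivAt.congr_fderiv h1 ?_
    refine ContinuousLinearMap.ext fun v => ?_
    simp only [smul_apply, frr_apply, smul_eq_mul, SD.X2]
    ring

private theorem re_aff {h : ℝ} (hh : 0 < h) (z : ℂ) (i : ℕ) (hz : (i : ℝ) * h < z.re) :
    0 < ((z - (((i : ℝ) * h : ℝ) : ℂ)) / (h : ℂ)).re := by
  rw [div_ofReal_re, sub_re, ofReal_re]
  exact div_pos (by linarith) hh

private theorem d_comp {u : ℂ → ℝ} {x y : ℝ} (h : ℝ) (p z : ℂ)
    (hu : HasFDerivAt u (frr x y) ((z - p) / (h : ℂ))) :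
    HasFDerivAt (fun w => u ((w - p) / (h : ℂ))) (frr (x / h) (y / h)) z := by
  have h1 := hu.comp z (d_aff h p z)
  refine HasFDerivAt.congr_fderiv h1 ?_
  refine ContinuousLinearMap.ext fun v => ?_
  rw [ContinuousLinearMap.comp_apply, fr_apply, frr_apply, frr_apply]
  have e1 : (v.re : ℂ) * (1 / (h : ℂ)) + (v.im : ℂ) * (I / (h : ℂ)) = v / (h : ℂ) := by
    conv_rhs => rw [← re_add_im v]
    ring
  rw [e1, div_ofReal_re, div_ofReal_im]
  ring

private theorem d_div {u : ℂ → ℝ} {x y : ℝ} (h : ℝ) {z : ℂ} (hu : HasFDerivAt u (frr x y) z) :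
    HasFDerivAt (fun w => u w / h) (frr (x / h) (y / h)) z := by
  have h1 := drmul hu (drconst (z := z) (1 / h))
  have h2 : (fun w => u w / h) = fun w => u w * (1 / h) := by
    funext w
    ring
  rw [h2]
  exact rcongr h1 (by ring) (by ring)

theorem SD.Hyp.T_der (hS : S.Hyp K t) (i : ℕ) (z : ℂ) (hz : (i : ℝ) * S.h < z.re) :
    HasFDerivAt (S.T0 i) (frr (S.T1 i z) (S.T2 i z)) z ∧
      HasFDerivAt (S.T1 i) (frr (S.T11 i z) (S.T12 i z)) z ∧
      HasFDerivAt (S.T2 i) (frr (S.T12 i z) (S.T22 i z)) z := by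
  have h0 := re_aff hS.h0 z i hz
  refine ⟨d_comp S.h (S.p i) z (S.P.dt0 _ h0), ?_, ?_⟩
  · refine rcongr (d_div S.h (d_comp S.h (S.p i) z (S.P.dt1 _ h0))) ?_ ?_
    · show _ = S.P.t11 ((z - S.p i) / (S.h : ℂ)) / S.h ^ 2
      rw [div_div, pow_two]
    · show _ = S.P.t12 ((z - S.p i) / (S.h : ℂ)) / S.h ^ 2
      rw [div_div, pow_two]
  · refine rcongr (d_div S.h (d_comp S.h (S.p i) z (S.P.dt2 _ h0))) ?_ ?_
    · show _ = S.P.t12 ((z - S.p i) / (S.h : ℂ)) / S.h ^ 2
      rw [div_div, pow_two]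
    · show _ = S.P.t22 ((z - S.p i) / (S.h : ℂ)) / S.h ^ 2
      rw [div_div, pow_two]

theorem SD.Hyp.pl_der (hS : S.Hyp K t) (i : ℕ) (z : ℂ) :
    HasFDerivAt (S.pl i) (fr (S.F.f1 z + S.pl1 i z) (S.F.f2 z + S.pl2 i z)) z := by
  obtain ⟨hX0, hX1⟩ := hS.X_der z
  have h1 := dadd (dadd (hS.F.d0 z) (dmul (dofReal hX0) (hS.w_der i z)))
    (dmul (dofReal (drmul (hS.gam_der i z) hX1)) (hS.F.d1 z))
  refine fcongr (f := S.pl i) h1 ?_ ?_
  · simp only [SD.pl1]
    push_cast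
    ring
  · simp only [SD.pl2]
    push_cast
    ring

theorem SD.Hyp.df_der (hS : S.Hyp K t) (i : ℕ) (z : ℂ) (hz : (i : ℝ) * S.h < z.re) :
    HasFDerivAt (S.df i) (fr (S.df1 i z) (S.df2 i z)) z := by
  obtain ⟨hT0, hT1, hT2⟩ := hS.T_der i z hz
  have h1 := dadd (dmul (dconst (z := z) (S.b i)) (dofReal hT0))
    (dmul (dofReal (hS.bet_der i z)) (dsub (dmul (hS.F.d1 z) (dofReal hT2))
      (dmul (hS.F.d2 z) (dofReal hT1))))
  refine fcongr (f := S.df i) h1 ?_ ?_
  · simp only [SD.df1]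
    ring
  · simp only [SD.df2]
    ring

end Pool.Agent.CAPV
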