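import Pool.Agent.Lib.MP_488b8a_co_V.PlB
import Pool.Agent.Lib.MP_488b8a_co_V.Det

/-! Project SO (MP_488b8a_co), module Pla: goodness of a lift away from the cores. -/

namespace Pool.Agent.CAPV

open Complex

private theorem Pla_cr (u v : ℂ) : |cr u v| ≤ ‖u‖ * ‖v‖ := by
  have h1 : cr u v = ((starRingEnd ℂ) u * v).im := by
    simp only [cr, mul_im, conj_re, conj_im]
    ring
  rw [h1]
  refine (Complex.abs_im_le_norm _).trans (le_of_eq ?_)
  rw [norm_mul, Complex.norm_conj]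

private theorem Pla_th {t : ℝ} (h0 : 0 < t) (h1 : t ≤ 1) : t ^ 2 ≤ th t := by
  have h2 : 0 ≤ Real.log (1 / t) := Real.log_nonneg ((one_le_div h0).2 h1)
  unfold th
  nlinarith [sq_nonneg t]

theorem plain (K CR : ℝ) (hK : 1 ≤ K) (hCR : 1 ≤ CR) : ∃ C t0 : ℝ, 1 ≤ C ∧ 0 < t0 ∧
    ∀ (S : SD) (t : ℝ), S.Hyp K t → t ≤ t0 → 1000 * S.ε ≤ S.h →
    ∀ i < S.N, ∀ z : ℂ, |z.re - i * S.h| ≤ 2 * S.h → 0 ≤ z.re → z.re ≤ S.N * S.h →
      |z.im| ≤ 5 / 4 * S.h →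
      ∀ U : ℂ → ℂ, (∀ y ∈ Metric.closedBall z (100 * S.ε), S.pl i y - U y ∈ LamE S.ε) →
      NearS S.ε CR (C * th t) (C * th t) U z (S.F.f1 z) (S.F.f2 z) := by
  obtain ⟨C1, hC1, hpl⟩ := pl_bd K hK
  obtain ⟨C, hC⟩ : ∃ C : ℝ, C = CR * (C1 ^ 2 + 2 * K + 2 * C1) + (1 + K ^ 2 + C1 ^ 2) + C1 ^ 2 :=
    ⟨_, rfl⟩
  have hCR0 : 0 < CR := by linarith
  have hC1p : 0 < C1 := by linarith
  have hKp : 0 < K := by linarith
  have c1 : CR * (2 * K + 2 * C1) ≤ C := by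
    rw [hC]
    have h1 : 0 ≤ CR * C1 ^ 2 := by positivity
    have h2 : 0 ≤ K ^ 2 := by positivity
    have h3 : 0 ≤ C1 ^ 2 := by positivity
    nlinarith
  have c2 : CR * C1 ≤ C := by
    have h1 : CR * C1 ≤ CR * (2 * K + 2 * C1) := mul_le_mul_of_nonneg_left (by linarith) hCR0.le
    linarith
  have c3 : 1 ≤ C := by
    have h1 : 1 ≤ CR * C1 := by nlinarith
    linarith
  have hCp : 0 < C := by linarith
  refine ⟨C, 1 / C, c3, by positivity, ?_⟩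
  intro S t hS ht heh i hi z hz1 hz2 hz3 hz4 U hU
  have hh := hS.h0
  have he := hS.e0
  have htp : 0 < t := by
    have h1 : 0 < t * S.h := he.trans_le hS.eh
    exact (pos_iff_pos_of_mul_pos h1).2 hh
  have ht1 := hS.t1
  have hCt : C * t ≤ 1 := by
    rw [le_div_iff₀ hCp] at ht
    linarith
  have hth : t ^ 2 ≤ th t := Pla_th htp ht1
  have hsub : ∀ y ∈ Metric.closedBall z (100 * S.ε), y ∈ SB S.h S.N ∧
      |y.re - i * S.h| ≤ 3 * S.h := by
    intro y hy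
    rw [Metric.mem_closedBall, dist_eq_norm] at hy
    have h1 := (Complex.abs_re_le_norm (y - z)).trans hy
    have h2 := (Complex.abs_im_le_norm (y - z)).trans hy
    rw [sub_re, abs_le] at h1
    rw [sub_im, abs_le] at h2
    rw [abs_le] at hz1 hz4
    refine ⟨⟨by linarith [h1.1], by linarith [h1.2], ?_⟩, ?_⟩
    · rw [abs_le]
      constructor <;> linarith [h2.1, h2.2, hz4.1, hz4.2]
    · rw [abs_le]
      constructor <;> linarith [h1.1, h1.2, hz1.1, hz1.2]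
  have hzm : z ∈ Metric.closedBall z (100 * S.ε) := Metric.mem_closedBall_self (by positivity)
  obtain ⟨hzS, hz3h⟩ := hsub z hzm
  obtain ⟨bz1, bz2, -⟩ := hpl S t hS i hi z hzS hz3h
  obtain ⟨f1, f2, -, -, -⟩ := hS.Fb.bl hS.F (SB_convex S.h S.N)
  have e1 : S.ε ≤ t ^ 2 := by
    refine hS.eh.trans ?_
    rw [pow_two]
    exact mul_le_mul_of_nonneg_left hS.ht htp.le
  have e2 : S.ε * t / S.h ≤ t ^ 2 := by
    rw [div_le_iff₀ hh, pow_two]
    have := mul_le_mul_of_nonneg_right hS.eh htp.le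
    linarith
  obtain ⟨L, hL⟩ : ∃ L : ℝ, L = 2 * K + C1 * (1 + t / S.h) := ⟨_, rfl⟩
  have hL0 : 0 ≤ L := by
    rw [hL]
    positivity
  have hεL : S.ε * L ≤ (2 * K + 2 * C1) * t ^ 2 := by
    have h1 : S.ε * L = (2 * K + C1) * S.ε + C1 * (S.ε * t / S.h) := by
      rw [hL]
      ring
    rw [h1]
    have h2 := mul_le_mul_of_nonneg_left e1 (by positivity : 0 ≤ 2 * K + C1)
    have h3 := mul_le_mul_of_nonneg_left e2 hC1p.le
    linarith
  -- the determinant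
  have hdet := hS.det_id i i z 0 0
  simp only [ofReal_zero, zero_mul, sub_zero, add_zero, zero_div] at hdet
  obtain ⟨-, -, b3, b4, b5, b6, -, -, -⟩ := hS.basic
  have n1 := b3.1 z hzS
  have n2 := b4.1 z hzS
  have n3 := b5.1 z hzS
  have n4 := b6.1 z hzS
  simp only [Complex.norm_real, Real.norm_eq_abs] at n3 n4
  have n5 := hS.wb i hi z hzS hz3h
  have k1 : |S.X0 z * cr (S.w1 z) (S.w2 z)| ≤ t ^ 2 := by
    rw [abs_mul]
    have h1 := (Pla_cr (S.w1 z) (S.w2 z)).trans (mul_le_mul n1 n2 (norm_nonneg _) htp.le)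
    have h2 := mul_le_mul n3 h1 (abs_nonneg _) zero_le_one
    linarith
  have k2 : |S.X1 z * cr (S.w i z) (S.w1 z) / 2| ≤ K ^ 2 * t ^ 2 := by
    rw [abs_div, abs_mul, abs_two]
    have h1 := (Pla_cr (S.w i z) (S.w1 z)).trans
      (mul_le_mul n5 n1 (norm_nonneg _) (by positivity))
    have h2 := mul_le_mul n4 h1 (abs_nonneg _) (by positivity)
    have h3 : K / S.h * (K * S.ε * t) = K ^ 2 * (S.ε * t / S.h) := by ring
    rw [h3] at h2
    have h4 := mul_le_mul_of_nonneg_left e2 (sq_nonneg K)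
    have h5 : 0 ≤ |S.X1 z| * |cr (S.w i z) (S.w1 z)| := by positivity
    linarith
  have k3 : |cr (S.pl1 i z) (S.pl2 i z)| ≤ C1 ^ 2 * t ^ 2 := by
    have h1 := (Pla_cr (S.pl1 i z) (S.pl2 i z)).trans
      (mul_le_mul bz1 bz2 (norm_nonneg _) (by positivity))
    linarith
  have hD : |cr (S.F.f1 z + S.pl1 i z) (S.F.f2 z + S.pl2 i z) - 1| ≤
      (1 + K ^ 2 + C1 ^ 2) * t ^ 2 := by
    rw [hdet]
    have h1 : 1 - S.X0 z * cr (S.w1 z) (S.w2 z) + S.X1 z * cr (S.w i z) (S.w1 z) / 2 +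
        cr (S.pl1 i z) (S.pl2 i z) - 1 = -(S.X0 z * cr (S.w1 z) (S.w2 z)) +
        S.X1 z * cr (S.w i z) (S.w1 z) / 2 + cr (S.pl1 i z) (S.pl2 i z) := by ring
    rw [h1]
    have h2 := abs_add_le (-(S.X0 z * cr (S.w1 z) (S.w2 z)) +
      S.X1 z * cr (S.w i z) (S.w1 z) / 2) (cr (S.pl1 i z) (S.pl2 i z))
    have h3 := abs_add_le (-(S.X0 z * cr (S.w1 z) (S.w2 z)))
      (S.X1 z * cr (S.w i z) (S.w1 z) / 2)
    rw [abs_neg] at h3
    linarith
  rw [abs_le] at hD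
  have hCth : C * t ^ 2 ≤ C * th t := mul_le_mul_of_nonneg_left hth hCp.le
  have ht2 : 0 ≤ t ^ 2 := sq_nonneg t
  have hCε := mul_le_mul_of_nonneg_left hεL hCR0.le
  refine ⟨S.pl i, fun y => S.F.f1 y + S.pl1 i y, fun y => S.F.f2 y + S.pl2 i y, C1 * t, L,
    by positivity, hL0, ⟨fun y _ => hS.pl_der i y, hU, fun y hy y' hy' => ?_,
    fun y hy y' hy' => ?_⟩, ?_, ?_, ?_, ?_, ?_, ?_⟩
  · obtain ⟨hy1, hy2⟩ := hsub y hy
    obtain ⟨hy1', hy2'⟩ := hsub y' hy'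
    have h1 := f1.2 y hy1 y' hy1'
    have h2 := ((hpl S t hS i hi y hy1 hy2).2.2 y' hy1' hy2').1
    have h3 : S.F.f1 y + S.pl1 i y - (S.F.f1 y' + S.pl1 i y') =
        (S.F.f1 y - S.F.f1 y') + (S.pl1 i y - S.pl1 i y') := by ring
    rw [h3, hL, add_mul]
    exact (norm_add_le _ _).trans (add_le_add h1 h2)
  · obtain ⟨hy1, hy2⟩ := hsub y hy
    obtain ⟨hy1', hy2'⟩ := hsub y' hy'
    have h1 := f2.2 y hy1 y' hy1'
    have h2 := ((hpl S t hS i hi y hy1 hy2).2.2 y' hy1' hy2').2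
    have h3 : S.F.f2 y + S.pl2 i y - (S.F.f2 y' + S.pl2 i y') =
        (S.F.f2 y - S.F.f2 y') + (S.pl2 i y - S.pl2 i y') := by ring
    rw [h3, hL, add_mul]
    exact (norm_add_le _ _).trans (add_le_add h1 h2)
  · simp only [add_sub_cancel_left]
    exact bz1
  · simp only [add_sub_cancel_left]
    exact bz2
  · have h1 : CR * ((C1 * t) ^ 2 + S.ε * L) =
        CR * C1 ^ 2 * t ^ 2 + CR * (S.ε * L) := by ring
    have h2 : C * t ^ 2 = CR * C1 ^ 2 * t ^ 2 + CR * ((2 * K + 2 * C1) * t ^ 2) +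
        (1 + K ^ 2 + C1 ^ 2) * t ^ 2 + C1 ^ 2 * t ^ 2 := by
      rw [hC]
      ring
    have h3 : 0 ≤ C1 ^ 2 * t ^ 2 := by positivity
    simp only
    rw [h1]
    linarith [hD.1]
  · have h2 : C * t ^ 2 = CR * C1 ^ 2 * t ^ 2 + CR * ((2 * K + 2 * C1) * t ^ 2) +
        (1 + K ^ 2 + C1 ^ 2) * t ^ 2 + C1 ^ 2 * t ^ 2 := by
      rw [hC]
      ring
    have h3 : 0 ≤ CR * C1 ^ 2 * t ^ 2 := by positivity
    have h4 : 0 ≤ CR * ((2 * K + 2 * C1) * t ^ 2) := by positivity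
    have h5 : (C1 * t) ^ 2 = C1 ^ 2 * t ^ 2 := by ring
    simp only
    rw [h5]
    linarith [hD.2]
  · have h1 := mul_le_mul_of_nonneg_right c2 htp.le
    linarith
  · have h1 : CR * ((2 * K + 2 * C1) * t ^ 2) ≤ C * t ^ 2 := by
      have := mul_le_mul_of_nonneg_right c1 ht2
      linarith
    have h2 : C * t ^ 2 ≤ 1 := by
      have h3 : C * t ^ 2 = (C * t) * t := by ring
      rw [h3]
      have h4 := mul_le_mul_of_nonneg_right hCt htp.le
      linarith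
    linarith

end Pool.Agent.CAPV
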