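import Pool.Agent.Lib.MP_488b8a_co_V.PlD
import Pool.Agent.Lib.MP_488b8a_co_U.WD

/-! Project SO (MP_488b8a_co), module WDr: derivative of the radial correction. -/

namespace Pool.Agent.CAPV

open Complex

variable {S : SD} {K t : ℝ}

private theorem WDr_fr (a b v : ℂ) : fr a b v = (v.re : ℂ) * a + (v.im : ℂ) * b := by
  unfold fr
  rw [ContinuousLinearMap.add_apply, ContinuousLinearMap.smulRight_apply,
    ContinuousLinearMap.smulRight_apply, reCLM_apply, imCLM_apply, Complex.real_smul,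
    Complex.real_smul]

theorem SD.Hyp.W_der (hS : S.Hyp K t) (i : ℕ) (z : ℂ) (hz : S.ze i z ≠ 0) :
    HasFDerivAt (S.W i) (fr (S.W1 i z) (S.W2 i z)) z := by
  have he : (S.ε : ℂ) ≠ 0 := by exact_mod_cast hS.e0.ne'
  have h1 : HasFDerivAt (fun z => S.H z - S.H (S.p i)) (fr (S.H1 z) (S.H2 z)) z :=
    (hS.H_der z).sub_const _
  have h2 : HasFDerivAt (S.ze i)
      ((ContinuousLinearMap.mul ℝ ℂ (S.ε : ℂ)⁻¹).comp (fr (S.H1 z) (S.H2 z))) z := by
    have h3 := (ContinuousLinearMap.mul ℝ ℂ (S.ε : ℂ)⁻¹).hasFDerivAt.comp z h1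
    have h4 : S.ze i = (ContinuousLinearMap.mul ℝ ℂ (S.ε : ℂ)⁻¹) ∘
        fun z => S.H z - S.H (S.p i) := by
      funext w
      show (S.H w - S.H (S.p i)) / (S.ε : ℂ) = (S.ε : ℂ)⁻¹ * (S.H w - S.H (S.p i))
      rw [div_eq_mul_inv, mul_comm]
    rw [h4]
    exact h3
  have h5 := (CAPU.W0_der S.M hz).comp z h2
  have h6 := (ContinuousLinearMap.mul ℝ ℂ ((S.A * S.ε : ℝ) : ℂ)).hasFDerivAt.comp z h5
  have h7 : S.W i = (ContinuousLinearMap.mul ℝ ℂ ((S.A * S.ε : ℝ) : ℂ)) ∘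
      (CAPU.W0 S.M ∘ S.ze i) := by
    funext w
    rfl
  rw [h7]
  refine h6.congr_fderiv ?_
  ext v
  rw [WDr_fr]
  simp only [ContinuousLinearMap.comp_apply, CAPU.lin_apply, ContinuousLinearMap.mul_apply',
    WDr_fr, SD.W1, SD.W2, SD.nn, SD.tt, map_mul, map_add, map_inv₀, Complex.conj_ofReal]
  push_cast
  field_simp

end Pool.Agent.CAPV
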