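import Pool.Agent.Lib.MP_488b8a_co_V.PtB
import Pool.Agent.Lib.MP_488b8a_co_V.Num
import Pool.Agent.Lib.MP_488b8a_co_V.WDr

/-! Project SO (MP_488b8a_co), module Pnt: goodness of a lift near a core. -/

namespace Pool.Agent.CAPV

open Complex

/-- the points of the small ball are in the box, near the core, and different from the core -/
private theorem Pnt_geo {S : SD} {K t : ℝ} (hS : S.Hyp K t) {i : ℕ} (hiN : i < S.N) {z : ℂ}
    (hre : |z.re - i * S.h| ≤ 5 / 8 * S.h) (him : |z.im| ≤ 5 / 4 * S.h)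
    (hfar : 1000 * S.ε ≤ ‖z - S.p i‖) {y : ℂ} (hy : y ∈ Metric.closedBall z (100 * S.ε)) :
    y ∈ SB S.h S.N ∧ ‖y - S.p i‖ ≤ 3 * S.h ∧ 0 < ‖y - S.p i‖ ∧
      z.re - 100 * S.ε ≤ y.re := by
  have he := hS.e0
  have hh := hS.h0
  rw [Metric.mem_closedBall, dist_eq_norm] at hy
  have e1 : (z - S.p i).re = z.re - i * S.h := by
    rw [sub_re]
    rfl
  have e2 : (z - S.p i).im = z.im := by
    rw [sub_im]
    show z.im - 0 = z.im
    ring
  have hn : ‖z - S.p i‖ ≤ 15 / 8 * S.h := by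
    have h1 := Complex.norm_le_abs_re_add_abs_im (z - S.p i)
    rw [e1, e2] at h1
    linarith
  have hr := abs_le.1 ((Complex.abs_re_le_norm (y - z)).trans hy)
  have hi := abs_le.1 ((Complex.abs_im_le_norm (y - z)).trans hy)
  rw [sub_re] at hr
  rw [sub_im] at hi
  rw [abs_le] at hre him
  have hi0 : (0 : ℝ) ≤ i * S.h := by positivity
  have hiN' : (i : ℝ) * S.h ≤ S.N * S.h :=
    mul_le_mul_of_nonneg_right (by exact_mod_cast hiN.le) hh.le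
  refine ⟨⟨?_, ?_, ?_⟩, ?_, ?_, ?_⟩
  · linarith [hr.1, hre.1]
  · linarith [hr.2, hre.2]
  · rw [abs_le]
    constructor <;> linarith [hi.1, hi.2, him.1, him.2]
  · have h1 : ‖y - S.p i‖ ≤ ‖y - z‖ + ‖z - S.p i‖ := norm_sub_le_norm_sub_add_norm_sub _ _ _
    linarith
  · have h1 : ‖z - S.p i‖ ≤ ‖z - y‖ + ‖y - S.p i‖ := norm_sub_le_norm_sub_add_norm_sub _ _ _
    rw [norm_sub_rev z y] at h1
    linarith
  · linarith [hr.1]

/-- derivative of the lift -/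
private theorem Pnt_der {S : SD} {K t : ℝ} (hS : S.Hyp K t) {i : ℕ} {y : ℂ} {s : ℝ}
    (hs : s = 0 ∨ (s = 1 ∧ (i : ℝ) * S.h < y.re)) (hz : S.ze i y ≠ 0) :
    HasFDerivAt (fun y => S.pl (i - 1) y - (s : ℂ) * S.df i y + S.W i y)
      (fr (S.F.f1 y + S.P1 i s y) (S.F.f2 y + S.P2 i s y)) y := by
  have hd : HasFDerivAt (fun y => (s : ℂ) * S.df i y)
      (fr ((s : ℂ) * S.df1 i y) ((s : ℂ) * S.df2 i y)) y := by
    rcases hs with rfl | ⟨rfl, h⟩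
    · simp only [ofReal_zero, zero_mul]
      refine (hasFDerivAt_const (0 : ℂ) y).congr_fderiv ?_
      refine ContinuousLinearMap.ext fun v => ?_
      rw [fr_apply]
      simp
    · simp only [ofReal_one, one_mul]
      exact hS.df_der i y h
  refine (((hS.pl_der (i - 1) y).sub hd).add (hS.W_der i y hz)).congr_fderiv ?_
  refine ContinuousLinearMap.ext fun v => ?_
  simp only [add_apply, sub_apply, fr_apply, SD.P1, SD.P2]
  ring

/-- `th` is nonnegative -/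
private theorem Pnt_th {t : ℝ} (h0 : 0 < t) (h1 : t ≤ 1) : 0 ≤ th t := by
  unfold th
  have h2 : 0 ≤ Real.log (1 / t) := Real.log_nonneg (by rw [le_div_iff₀ h0]; linarith)
  positivity

/-- near the core `i`: `s = 1` with the dislocation field, `s = 0` without it -/
theorem point (K CR : ℝ) (hK : 1 ≤ K) (hCR : 1 ≤ CR) : ∃ A C C0 t0 : ℝ, 1 ≤ A ∧ 1 ≤ C ∧
    1000 ≤ C0 ∧ 0 < t0 ∧ ∀ (S : SD) (t : ℝ), S.Hyp K t → S.HypW K → S.A = A → t ≤ t0 →
    ∀ i, 1 ≤ i → i < S.N → ∀ z : ℂ, |z.re - i * S.h| ≤ 5 / 8 * S.h → |z.im| ≤ 5 / 4 * S.h →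
      C0 * S.ε ≤ ‖z - S.p i‖ → ∀ s : ℝ, (s = 0 ∨ (s = 1 ∧ i * S.h + 100 * S.ε < z.re)) →
      ∀ U : ℂ → ℂ, (∀ y ∈ Metric.closedBall z (100 * S.ε),
        S.pl (i - 1) y - (s : ℂ) * S.df i y + S.W i y - U y ∈ LamE S.ε) →
      NearS S.ε CR (C * th t) (C * (th t + (S.ε / ‖z - S.p i‖) ^ 2)) U z (S.F.f1 z) (S.F.f2 z) := by
  obtain ⟨Cn, tn, hCn, htn, Hn⟩ := pt_norm K hK
  obtain ⟨Cl, tl, hCl, htl, Hl⟩ := pt_lip K hK
  obtain ⟨Cd, td, hCd, htd, Hd⟩ := pt_det K hK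
  obtain ⟨tz, htz, Hz⟩ := ze_bd K hK
  obtain ⟨C1, hC1⟩ : ∃ C1, C1 = max Cn (max Cl Cd) := ⟨_, rfl⟩
  have hn1 : Cn ≤ C1 := hC1 ▸ le_max_left _ _
  have hl1 : Cl ≤ C1 := hC1 ▸ (le_max_left _ _).trans (le_max_right _ _)
  have hd1 : Cd ≤ C1 := hC1 ▸ (le_max_right _ _).trans (le_max_right _ _)
  obtain ⟨A, C, C0', hA, hC, hC0', Hnum⟩ := numeric C1 CR (by linarith) hCR
  refine ⟨A, C, max C0' C1, min (min tn tl) (min td tz), hA, hC, hC0'.trans (le_max_left _ _),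
    lt_min (lt_min htn htl) (lt_min htd htz), ?_⟩
  intro S t hS hW hSA ht i hi hiN z hre him hfar s hs U hU
  have ht1 := ht.trans ((min_le_left _ _).trans (min_le_left _ _))
  have ht2 := ht.trans ((min_le_left _ _).trans (min_le_right _ _))
  have ht3 := ht.trans ((min_le_right _ _).trans (min_le_left _ _))
  have ht4 := ht.trans ((min_le_right _ _).trans (min_le_right _ _))
  have he := hS.e0
  have hh := hS.h0
  have ht0 : 0 < t := by
    by_contra hcon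
    have h1 := hS.eh
    nlinarith [mul_nonneg (neg_nonneg.2 (not_lt.1 hcon)) hh.le]
  have hfar1 : C1 * S.ε ≤ ‖z - S.p i‖ :=
    (mul_le_mul_of_nonneg_right (le_max_right _ _) he.le).trans hfar
  have hfar2 : C0' * S.ε ≤ ‖z - S.p i‖ :=
    (mul_le_mul_of_nonneg_right (le_max_left _ _) he.le).trans hfar
  have hfar3 : 1000 * S.ε ≤ ‖z - S.p i‖ :=
    (mul_le_mul_of_nonneg_right hC0' he.le).trans hfar2
  have hd0 : 0 < ‖z - S.p i‖ := by linarith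
  obtain ⟨x, hx⟩ : ∃ x, x = S.ε / ‖z - S.p i‖ := ⟨_, rfl⟩
  obtain ⟨l, hl⟩ : ∃ l, l = 1 + Real.log (1 / x) := ⟨_, rfl⟩
  have hpos : ∀ C', C' ≤ C1 → S.Pos C' i z s x l := fun C' h' =>
    ⟨hi, hiN, hre, him, (mul_le_mul_of_nonneg_right h' he.le).trans hfar1, hs, hx, hl⟩
  obtain ⟨hx0, -, hl0, htx, hP1, hP2, -, -, -, hnlo, hnhi⟩ :=
    Hn S t hS hW ht1 i z s x l (hpos Cn hn1)
  have hdet := Hd S t hS hW ht3 i z s x l (hpos Cd hd1)
  have hlip := Hl S t hS hW ht2 i z s x l (hpos Cl hl1)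
  rw [hSA] at hP1 hP2 hdet hlip
  have hth := Pnt_th ht0 hS.t1
  have hl0' : 0 ≤ l := by linarith
  have hA0 : 0 ≤ A := by linarith
  have hC10 : 0 < C1 := by linarith
  have hCn0 : 0 < Cn := by linarith
  have hx1 : x ≤ 1 / C0' := by
    rw [hx, div_le_div_iff₀ hd0 (by linarith)]
    linarith
  have q1 : 0 ≤ t + x + A * l * x ^ 2 := by positivity
  have q2 : 0 ≤ t ^ 2 + x ^ 2 + A * l * x ^ 3 := by positivity
  have q3 : 0 ≤ (t + x) ^ 2 + A * (t + x) * l * x ^ 2 + A ^ 2 * (l * x ^ 2) ^ 2 := by positivity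
  obtain ⟨r1, r2, r3, r4⟩ := Hnum t x l (S.nn i z)
    (cr (S.F.f1 z + S.P1 i s z) (S.F.f2 z + S.P2 i s z)) ht0 hS.t1 hx0 hx1
    (htx.trans (mul_le_mul_of_nonneg_right hn1 hx0.le)) hl
    (hdet.trans (mul_le_mul_of_nonneg_right hd1 q3))
    (by
      refine le_trans ?_ hnlo
      have h1 : 1 / C1 ≤ 1 / Cn := one_div_le_one_div_of_le hCn0 hn1
      have h2 := mul_le_mul_of_nonneg_right h1 (sq_nonneg x)
      have h3 := mul_le_mul_of_nonneg_right hn1 hth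
      linarith)
    (hnhi.trans (mul_le_mul_of_nonneg_right hn1 (sq_nonneg x)))
  have hLe : S.ε * (C1 * (t ^ 2 + x ^ 2 + A * l * x ^ 3) / S.ε) =
      C1 * (t ^ 2 + x ^ 2 + A * l * x ^ 3) := by
    field_simp
  have hlip' : ∀ u v : ℝ, 0 ≤ v → S.ε * u ≤ Cl * (t ^ 2 + x ^ 2 + A * l * x ^ 3) * v →
      u ≤ C1 * (t ^ 2 + x ^ 2 + A * l * x ^ 3) / S.ε * v := by
    intro u v hv huv
    have h1 : Cl * (t ^ 2 + x ^ 2 + A * l * x ^ 3) * v ≤
        C1 * (t ^ 2 + x ^ 2 + A * l * x ^ 3) * v :=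
      mul_le_mul_of_nonneg_right (mul_le_mul_of_nonneg_right hl1 q2) hv
    rw [div_mul_eq_mul_div, le_div_iff₀ he]
    linarith
  refine ⟨fun y => S.pl (i - 1) y - (s : ℂ) * S.df i y + S.W i y,
    fun y => S.F.f1 y + S.P1 i s y, fun y => S.F.f2 y + S.P2 i s y,
    C1 * (t + x + A * l * x ^ 2), C1 * (t ^ 2 + x ^ 2 + A * l * x ^ 3) / S.ε,
    by positivity, by positivity, ⟨fun y hy => ?_, hU, fun y hy y' hy' => ?_,
      fun y hy y' hy' => ?_⟩, ?_, ?_, ?_, ?_, r3, ?_⟩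
  · obtain ⟨g1, g2, g3, g4⟩ := Pnt_geo hS hiN hre him hfar3 hy
    refine Pnt_der hS ?_ ?_
    · rcases hs with h | ⟨h, h'⟩
      · exact Or.inl h
      · exact Or.inr ⟨h, by linarith⟩
    · intro h0
      have h1 := (Hz S t hS ht4 i hiN y g1 g2).1
      rw [h0, norm_zero, mul_zero, mul_zero] at h1
      linarith
  · exact hlip' _ _ (norm_nonneg _) (hlip y hy y' hy').1
  · exact hlip' _ _ (norm_nonneg _) (hlip y hy y' hy').2
  · show ‖S.F.f1 z + S.P1 i s z - S.F.f1 z‖ ≤ _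
    rw [add_sub_cancel_left]
    exact hP1.trans (mul_le_mul_of_nonneg_right hn1 q1)
  · show ‖S.F.f2 z + S.P2 i s z - S.F.f2 z‖ ≤ _
    rw [add_sub_cancel_left]
    exact hP2.trans (mul_le_mul_of_nonneg_right hn1 q1)
  · rw [hLe]
    exact r1
  · rw [← hx]
    exact r2
  · rw [hLe]
    exact r4

end Pool.Agent.CAPV
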