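import Pool.Agent.Lib.MP_488b8a_co_V.PtL
import Pool.Agent.Lib.MP_488b8a_co_V.Det

/-! Project SO (MP_488b8a_co), module PtB: the determinant near a core. -/

namespace Pool.Agent.CAPV

open Complex

private theorem ptb_cr (u v : ℂ) : |cr u v| ≤ ‖u‖ * ‖v‖ := by
  have h1 : cr u v = ((starRingEnd ℂ) u * v).im := by
    simp only [cr, mul_im, conj_re, conj_im]
    ring
  rw [h1]
  refine (Complex.abs_im_le_norm _).trans ?_
  rw [norm_mul, Complex.norm_conj]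

private theorem ptb_cr' {u v : ℂ} {a b : ℝ} (hu : ‖u‖ ≤ a) (hv : ‖v‖ ≤ b) :
    |cr u v| ≤ a * b :=
  (ptb_cr u v).trans (mul_le_mul hu hv (norm_nonneg _) ((norm_nonneg _).trans hu))

private theorem ptb_num {K C1 C2 t x y : ℝ} (hK : 1 ≤ K) (hC1 : 1 ≤ C1) (hC2 : 1 ≤ C2)
    (ht : 0 ≤ t) (ht1 : t ≤ 1) (hx : 0 ≤ x) (hy : 0 ≤ y) :
    t * t + K ^ 2 * t ^ 2 / 2 + 2 * K * C2 * (t * x) + C1 * y * (t * t) / 2 + t * (C1 * y) +
      C1 * (t + x + y) * (C1 * (t + x + y)) ≤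
    (1000 + C1 + K ^ 2 + 2 * K * C2 + 2 * C1 ^ 2 + 2 * C1) *
      ((t + x) ^ 2 + (t + x) * y + y ^ 2) := by
  have hu : 0 ≤ t + x := add_nonneg ht hx
  have e1 : t * t ≤ (t + x) ^ 2 := by nlinarith
  have e2 : t * x ≤ (t + x) ^ 2 := by nlinarith [mul_nonneg ht hx]
  have e3 : y * (t * t) ≤ (t + x) * y := by
    have : t * t ≤ t + x := by nlinarith
    nlinarith
  have e4 : t * y ≤ (t + x) * y := mul_le_mul_of_nonneg_right (by linarith) hy
  have e5 : (t + x + y) ^ 2 ≤ 2 * ((t + x) ^ 2 + y ^ 2) := by nlinarith [sq_nonneg (t + x - y)]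
  have huy : 0 ≤ (t + x) * y := mul_nonneg hu hy
  have hu2 : 0 ≤ (t + x) ^ 2 := sq_nonneg _
  have hy2 : 0 ≤ y ^ 2 := sq_nonneg _
  have hKC : 0 ≤ 2 * K * C2 := by positivity
  have f1 : t * t ≤ 1 * ((t + x) ^ 2 + (t + x) * y + y ^ 2) := by linarith
  have f2 : K ^ 2 * t ^ 2 / 2 ≤ K ^ 2 * ((t + x) ^ 2 + (t + x) * y + y ^ 2) := by
    have : t ^ 2 / 2 ≤ (t + x) ^ 2 + (t + x) * y + y ^ 2 := by nlinarith
    have h := mul_le_mul_of_nonneg_left this (sq_nonneg K)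
    linarith
  have f3 : 2 * K * C2 * (t * x) ≤ 2 * K * C2 * ((t + x) ^ 2 + (t + x) * y + y ^ 2) :=
    mul_le_mul_of_nonneg_left (by linarith) hKC
  have f4 : C1 * y * (t * t) / 2 ≤ C1 * ((t + x) ^ 2 + (t + x) * y + y ^ 2) := by
    have : y * (t * t) / 2 ≤ (t + x) ^ 2 + (t + x) * y + y ^ 2 := by linarith
    have h := mul_le_mul_of_nonneg_left this (by linarith : (0:ℝ) ≤ C1)
    linarith
  have f5 : t * (C1 * y) ≤ C1 * ((t + x) ^ 2 + (t + x) * y + y ^ 2) := by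
    have : t * y ≤ (t + x) ^ 2 + (t + x) * y + y ^ 2 := by linarith
    have h := mul_le_mul_of_nonneg_left this (by linarith : (0:ℝ) ≤ C1)
    linarith
  have f6 : C1 * (t + x + y) * (C1 * (t + x + y)) ≤
      2 * C1 ^ 2 * ((t + x) ^ 2 + (t + x) * y + y ^ 2) := by
    have h := mul_le_mul_of_nonneg_left e5 (sq_nonneg C1)
    have h2 : 0 ≤ C1 ^ 2 * ((t + x) * y) := mul_nonneg (sq_nonneg _) huy
    nlinarith
  have g : 0 ≤ (t + x) ^ 2 + (t + x) * y + y ^ 2 := by linarith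
  have g1 : 0 ≤ (999 + C1) * ((t + x) ^ 2 + (t + x) * y + y ^ 2) :=
    mul_nonneg (by linarith) g
  nlinarith

theorem pt_det (K : ℝ) (hK : 1 ≤ K) : ∃ C t0 : ℝ, 1000 ≤ C ∧ 0 < t0 ∧ ∀ (S : SD) (t : ℝ),
    S.Hyp K t → S.HypW K → t ≤ t0 → ∀ (i : ℕ) (z : ℂ) (s x l : ℝ), S.Pos C i z s x l →
        |cr (S.F.f1 z + S.P1 i s z) (S.F.f2 z + S.P2 i s z) - 1 - 2 * S.A * S.nn i z| ≤
          C * ((t + x) ^ 2 + S.A * (t + x) * l * x ^ 2 + S.A ^ 2 * (l * x ^ 2) ^ 2) := by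
  obtain ⟨C1, t1, hC1, ht1, hpt⟩ := pt_norm K hK
  obtain ⟨C2, hC2, hdf⟩ := df_bd K hK
  have hC1' : 1 ≤ C1 := by linarith
  have hC0 : 0 ≤ K ^ 2 + 2 * K * C2 + 2 * C1 ^ 2 + 2 * C1 := by positivity
  refine ⟨1000 + C1 + K ^ 2 + 2 * K * C2 + 2 * C1 ^ 2 + 2 * C1, t1, by linarith, ht1, ?_⟩
  intro S t hS hW ht i z s x l hp
  have he := hS.e0
  have hh := hS.h0
  have ht0 : 0 < t := by
    by_contra hc
    have h1 : t * S.h ≤ 0 := mul_nonpos_of_nonpos_of_nonneg (not_lt.1 hc) hh.le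
    linarith [hS.eh]
  have hp1 : S.Pos C1 i z s x l := by
    refine ⟨hp.i1, hp.iN, hp.re, hp.im, le_trans ?_ hp.far, hp.hs, hp.hx, hp.hl⟩
    exact mul_le_mul_of_nonneg_right (by linarith) he.le
  obtain ⟨hx0, hx1, hl1, -, hP1, hP2, hW1, hW2, hnn, -, -⟩ := hpt S t hS hW ht i z s x l hp1
  have hD : 0 < ‖z - S.p i‖ := lt_of_lt_of_le (mul_pos (by linarith) he) hp1.far
  have hA := hW.A1
  have hi1 := hp.i1
  have hiN := hp.iN
  have hi1' : (1:ℝ) ≤ i := by exact_mod_cast hi1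
  have hiN' : (i:ℝ) + 1 ≤ S.N := by exact_mod_cast hiN
  have hre := abs_le.1 hp.re
  have him := hp.im
  have hh1 : S.h ≤ i * S.h := by nlinarith
  have hh2 : i * S.h + S.h ≤ S.N * S.h := by nlinarith
  have hz : z ∈ SB S.h S.N := by
    refine ⟨by linarith [hre.1], ?_, by linarith⟩
    rw [add_mul, one_mul]
    linarith [hre.2]
  have hw1 := hS.d1 z hz
  have hw2 := hS.d2 z hz
  have hcast : ((i - 1 : ℕ) : ℝ) = i - 1 := by
    rw [Nat.cast_sub hi1, Nat.cast_one]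
  have hwi : ‖S.w i z‖ ≤ K * S.ε := hS.wb i hiN z hz (hp.re.trans (by linarith))
  have hwi1 : ‖S.w (i - 1) z‖ ≤ K * S.ε := by
    refine hS.wb (i - 1) (by omega) z hz ?_
    rw [hcast, abs_le]
    constructor
    · nlinarith [hre.1]
    · nlinarith [hre.2]
  have hb : ‖S.b i‖ ≤ 2 * (K * S.ε) := by
    have h1 : S.b i = S.w (i - 1) z - S.w i z := by
      unfold SD.b SD.w
      ring
    rw [h1]
    exact (norm_sub_le _ _).trans (by linarith)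
  have hX0 : |S.X0 z| ≤ 1 := S.P.bx0 _
  have hX1 : |S.X1 z| ≤ K / S.h := by
    unfold SD.X1
    rw [abs_div, abs_of_pos hh]
    exact div_le_div_of_nonneg_right ((S.P.bx1 _).trans hS.PC) hh.le
  have hid := hS.det_id i (i - 1) z s 1
  rw [ofReal_one, one_mul, one_mul, one_mul] at hid
  have hcr12 : |cr (S.w1 z) (S.w2 z)| ≤ t * t := ptb_cr' hw1 hw2
  set y : ℝ := S.A * l * x ^ 2 with hy
  have hlx : 0 ≤ l * x ^ 2 := mul_nonneg (by linarith) (sq_nonneg x)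
  have hy0 : 0 ≤ y := by
    rw [hy, mul_assoc]
    exact mul_nonneg (by linarith) hlx
  have hnn' : |S.A * S.nn i z| ≤ C1 * y := by
    rw [abs_mul, abs_of_nonneg (by linarith : (0:ℝ) ≤ S.A)]
    have := mul_le_mul_of_nonneg_left hnn (by linarith : (0:ℝ) ≤ S.A)
    rw [hy]
    linarith
  have b1 : |S.X0 z * cr (S.w1 z) (S.w2 z)| ≤ t * t := by
    rw [abs_mul]
    calc |S.X0 z| * |cr (S.w1 z) (S.w2 z)| ≤ 1 * (t * t) :=
          mul_le_mul hX0 hcr12 (abs_nonneg _) zero_le_one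
      _ = t * t := one_mul _
  have b2 : |S.X1 z * cr (S.w (i - 1) z) (S.w1 z) / 2| ≤ K ^ 2 * t ^ 2 / 2 := by
    rw [abs_div, abs_mul, abs_of_pos (two_pos : (0:ℝ) < 2)]
    refine div_le_div_of_nonneg_right ?_ two_pos.le
    calc |S.X1 z| * |cr (S.w (i - 1) z) (S.w1 z)| ≤ K / S.h * (K * S.ε * t) :=
          mul_le_mul hX1 (ptb_cr' hwi1 hw1) (abs_nonneg _) (by positivity)
      _ = K ^ 2 * t * (S.ε / S.h) := by ring
      _ ≤ K ^ 2 * t * t := by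
          refine mul_le_mul_of_nonneg_left ?_ (by positivity)
          rw [div_le_iff₀ hh]
          exact hS.eh
      _ = K ^ 2 * t ^ 2 := by ring
  have b3 : |s * (S.T2 i z * cr (S.b i) (S.w1 z) - S.T1 i z * cr (S.b i) (S.w2 z)) / 2| ≤
      2 * K * C2 * (t * x) := by
    rcases hp.hs with h0 | ⟨h0, h1⟩
    · rw [h0, zero_mul, zero_div, abs_zero]
      positivity
    · have hlt : (i:ℝ) * S.h < z.re := by linarith
      obtain ⟨hT1, hT2, -⟩ := hdf S t hS i hi1 hiN z hz hlt (by nlinarith [hre.2])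
      have c1 : |S.T2 i z * cr (S.b i) (S.w1 z)| ≤ C2 / ‖z - S.p i‖ * (2 * (K * S.ε) * t) := by
        rw [abs_mul]
        exact mul_le_mul hT2 (ptb_cr' hb hw1) (abs_nonneg _) (by positivity)
      have c2 : |S.T1 i z * cr (S.b i) (S.w2 z)| ≤ C2 / ‖z - S.p i‖ * (2 * (K * S.ε) * t) := by
        rw [abs_mul]
        exact mul_le_mul hT1 (ptb_cr' hb hw2) (abs_nonneg _) (by positivity)
      have c3 : C2 / ‖z - S.p i‖ * (2 * (K * S.ε) * t) = 2 * K * C2 * (t * x) := by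
        rw [hp.hx]
        ring
      rw [c3] at c1 c2
      rw [h0, one_mul, abs_div, abs_of_pos (two_pos : (0:ℝ) < 2), div_le_iff₀ two_pos]
      refine (abs_sub _ _).trans ?_
      linarith
  have b4 : |S.A * S.nn i z * cr (S.w1 z) (S.w2 z) / 2| ≤ C1 * y * (t * t) / 2 := by
    rw [abs_div, abs_mul, abs_of_pos (two_pos : (0:ℝ) < 2)]
    refine div_le_div_of_nonneg_right ?_ two_pos.le
    exact mul_le_mul hnn' hcr12 (abs_nonneg _) (by positivity)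
  have hW1' : ‖S.W1 i z‖ ≤ C1 * y := hW1
  have hW2' : ‖S.W2 i z‖ ≤ C1 * y := hW2
  have b5 : |(cr (S.w1 z) (S.W2 i z) + cr (S.W1 i z) (S.w2 z)) / 2| ≤ t * (C1 * y) := by
    rw [abs_div, abs_of_pos (two_pos : (0:ℝ) < 2), div_le_iff₀ two_pos]
    refine (abs_add_le _ _).trans ?_
    have c1 := ptb_cr' hw1 hW2'
    have c2 := ptb_cr' hW1' hw2
    linarith
  have b6 : |cr (S.P1 i s z) (S.P2 i s z)| ≤ C1 * (t + x + y) * (C1 * (t + x + y)) :=
    ptb_cr' hP1 hP2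
  have hmain : cr (S.F.f1 z + S.P1 i s z) (S.F.f2 z + S.P2 i s z) - 1 - 2 * S.A * S.nn i z =
      -(S.X0 z * cr (S.w1 z) (S.w2 z)) + S.X1 z * cr (S.w (i - 1) z) (S.w1 z) / 2 -
        s * (S.T2 i z * cr (S.b i) (S.w1 z) - S.T1 i z * cr (S.b i) (S.w2 z)) / 2 -
        S.A * S.nn i z * cr (S.w1 z) (S.w2 z) / 2 -
        (cr (S.w1 z) (S.W2 i z) + cr (S.W1 i z) (S.w2 z)) / 2 +
        cr (S.P1 i s z) (S.P2 i s z) := by
    unfold SD.P1 SD.P2
    rw [hid]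
    ring
  rw [hmain]
  have hnum := ptb_num hK hC1' hC2 ht0.le hS.t1 hx0.le hy0
  have htgt : (t + x) ^ 2 + S.A * (t + x) * l * x ^ 2 + S.A ^ 2 * (l * x ^ 2) ^ 2 =
      (t + x) ^ 2 + (t + x) * y + y ^ 2 := by
    rw [hy]
    ring
  rw [htgt]
  refine le_trans ?_ hnum
  have a1 := abs_le.1 b1
  have a2 := abs_le.1 b2
  have a3 := abs_le.1 b3
  have a4 := abs_le.1 b4
  have a5 := abs_le.1 b5
  have a6 := abs_le.1 b6
  rw [abs_le]
  constructor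
  · linarith [a1.2, a2.1, a3.2, a4.2, a5.2, a6.1]
  · linarith [a1.1, a2.2, a3.1, a4.1, a5.1, a6.2]

end Pool.Agent.CAPV
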