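import Pool.Agent.Lib.MP_488b8a_co_V.ZeB
import Pool.Agent.Lib.MP_488b8a_co_U.PsiL

/-! Project SO (MP_488b8a_co), module WLi: the components of the radial correction are Lipschitz. -/

namespace Pool.Agent.CAPV

open Complex

private theorem WLi_log {K q R : ℝ} (hK : 1 ≤ K) (hq : 1 ≤ q) (hR : 1 ≤ R)
    (h : R ≤ 2 * K * q) : 1 + Real.log (R ^ 2) ≤ 5 * K * (1 + Real.log q) := by
  have hK0 : 0 < K := by linarith
  have h1 : Real.log (R ^ 2) = 2 * Real.log R := by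
    rw [Real.log_pow]
    norm_num
  have h2 : Real.log R ≤ Real.log (2 * K * q) := Real.log_le_log (by linarith) h
  rw [Real.log_mul (by positivity) (by positivity)] at h2
  have h3 : Real.log (2 * K) ≤ 2 * K - 1 := Real.log_le_sub_one_of_pos (by positivity)
  have h4 : 0 ≤ Real.log q := Real.log_nonneg hq
  rw [h1]
  nlinarith

/-- the estimates in the lattice coordinate -/
private theorem WLi_core {M : ℕ} (hM : 1 ≤ M) {u v : ℂ} {R E : ℝ} (hR : R = ‖u‖) (hR2 : 2 ≤ R)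
    (hE : ‖u - v‖ ≤ E) (hE2 : E ≤ R / 2) :
    |CAPU.nu M (‖u‖ ^ 2) - CAPU.nu M (‖v‖ ^ 2)| ≤
        800000 * ((1 + Real.log (R ^ 2)) * E / R ^ 3) ∧
      ‖u ^ 2 * (CAPU.psd M (‖u‖ ^ 2) : ℂ) - v ^ 2 * (CAPU.psd M (‖v‖ ^ 2) : ℂ)‖ ≤
        800000 * ((1 + Real.log (R ^ 2)) * E / R ^ 3) := by
  have hR0 : 0 < R := by linarith
  have hE0 : 0 ≤ E := (norm_nonneg _).trans hE
  have h1 : |‖u‖ - ‖v‖| ≤ E := (abs_norm_sub_norm_le u v).trans hE
  rw [← hR] at h1 ⊢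
  set R' := ‖v‖ with hR'
  have h2 := abs_le.mp h1
  have hR'1 : R / 2 ≤ R' := by linarith [h2.1, h2.2]
  have hR'2 : R' ≤ 3 / 2 * R := by linarith [h2.1, h2.2]
  have hR'0 : 0 < R' := by linarith
  have hs0 : 1 ≤ R ^ 2 / 4 := by nlinarith
  have hs : R ^ 2 / 4 ≤ R ^ 2 := by nlinarith
  have hs' : R ^ 2 / 4 ≤ R' ^ 2 := by
    have := pow_le_pow_left₀ (by positivity) hR'1 2
    linarith
  have hlog0 : Real.log (R ^ 2 / 4) ≤ Real.log (R ^ 2) := Real.log_le_log (by positivity) hs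
  have hlog00 : 0 ≤ Real.log (R ^ 2 / 4) := Real.log_nonneg hs0
  have hl : 0 ≤ Real.log (R ^ 2) := hlog00.trans hlog0
  have hss : |R ^ 2 - R' ^ 2| ≤ 5 / 2 * R * E := by
    have e : R ^ 2 - R' ^ 2 = (R + R') * (R - R') := by ring
    rw [e, abs_mul, abs_of_nonneg (by positivity : 0 ≤ R + R')]
    refine mul_le_mul ?_ h1 (abs_nonneg _) (by positivity)
    linarith
  have hQ : (1 + Real.log (R ^ 2)) * E / R ^ 3 = (1 + Real.log (R ^ 2)) * (E / R ^ 3) := by ring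
  have hQ0 : 0 ≤ (1 + Real.log (R ^ 2)) * E / R ^ 3 := by positivity
  constructor
  · have h3 := CAPU.nu_lip hM hs0 hs hs'
    calc |CAPU.nu M (R ^ 2) - CAPU.nu M (R' ^ 2)|
        ≤ 1300 * (1 + Real.log (R ^ 2 / 4)) / (R ^ 2 / 4) ^ 2 * |R ^ 2 - R' ^ 2| := h3
      _ ≤ 1300 * (1 + Real.log (R ^ 2)) / (R ^ 2 / 4) ^ 2 * (5 / 2 * R * E) := by
          refine mul_le_mul ?_ hss (abs_nonneg _) (by positivity)
          refine div_le_div_of_nonneg_right ?_ (by positivity)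
          linarith
      _ = 52000 * ((1 + Real.log (R ^ 2)) * E / R ^ 3) := by
          field_simp
          ring
      _ ≤ 800000 * ((1 + Real.log (R ^ 2)) * E / R ^ 3) := by linarith
  · have h3 := CAPU.psd_lip hM hs0 hs hs'
    have h4 := CAPU.psd_bd hM (hs0.trans hs)
    have e : u ^ 2 * (CAPU.psd M (R ^ 2) : ℂ) - v ^ 2 * (CAPU.psd M (R' ^ 2) : ℂ) =
        (u + v) * (u - v) * (CAPU.psd M (R ^ 2) : ℂ) +
          v ^ 2 * ((CAPU.psd M (R ^ 2) - CAPU.psd M (R' ^ 2) : ℝ) : ℂ) := by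
      push_cast
      ring
    rw [e]
    refine (norm_add_le _ _).trans ?_
    rw [norm_mul, norm_mul, norm_mul, norm_pow, norm_real, norm_real, Real.norm_eq_abs,
      Real.norm_eq_abs, ← hR']
    have h5 : ‖u + v‖ ≤ 5 / 2 * R := by
      refine (norm_add_le _ _).trans ?_
      rw [← hR, ← hR']
      linarith
    have h6 : ‖u + v‖ * ‖u - v‖ * |CAPU.psd M (R ^ 2)| ≤
        1250 * ((1 + Real.log (R ^ 2)) * E / R ^ 3) := by
      calc ‖u + v‖ * ‖u - v‖ * |CAPU.psd M (R ^ 2)| ≤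
            (5 / 2 * R * E) * (500 * (1 + Real.log (R ^ 2)) / (R ^ 2) ^ 2) :=
            mul_le_mul (mul_le_mul h5 hE (norm_nonneg _) (by positivity)) h4 (abs_nonneg _)
              (by positivity)
        _ = 1250 * ((1 + Real.log (R ^ 2)) * E / R ^ 3) := by
            field_simp
            ring
    have h7 : R' ^ 2 * |CAPU.psd M (R ^ 2) - CAPU.psd M (R' ^ 2)| ≤
        720000 * ((1 + Real.log (R ^ 2)) * E / R ^ 3) := by
      have h8 : R' ^ 2 ≤ 9 / 4 * R ^ 2 := by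
        have := pow_le_pow_left₀ hR'0.le hR'2 2
        linarith
      calc R' ^ 2 * |CAPU.psd M (R ^ 2) - CAPU.psd M (R' ^ 2)| ≤
            (9 / 4 * R ^ 2) * (2000 * (1 + Real.log (R ^ 2)) / (R ^ 2 / 4) ^ 3 *
              (5 / 2 * R * E)) := by
            refine mul_le_mul h8 (h3.trans ?_) (abs_nonneg _) (by positivity)
            refine mul_le_mul ?_ hss (abs_nonneg _) (by positivity)
            refine div_le_div_of_nonneg_right ?_ (by positivity)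
            linarith
        _ = 720000 * ((1 + Real.log (R ^ 2)) * E / R ^ 3) := by
            field_simp
            ring
    linarith

theorem W_li (K : ℝ) (hK : 1 ≤ K) : ∃ C t0 : ℝ, 1 ≤ C ∧ 0 < t0 ∧ ∀ (S : SD) (t : ℝ),
    S.Hyp K t → S.HypW K → t ≤ t0 → ∀ i < S.N, ∀ z ∈ SB S.h S.N, ‖z - S.p i‖ ≤ 3 * S.h →
      C * S.ε ≤ ‖z - S.p i‖ → ∀ z' ∈ SB S.h S.N, C * ‖z - z'‖ ≤ ‖z - S.p i‖ →
        |S.nn i z - S.nn i z'| ≤ C * (1 + Real.log (‖z - S.p i‖ / S.ε)) *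
          (S.ε ^ 2 / ‖z - S.p i‖ ^ 3) * ‖z - z'‖ ∧
        ‖S.tt i z - S.tt i z'‖ ≤ C * (1 + Real.log (‖z - S.p i‖ / S.ε)) *
          (S.ε ^ 2 / ‖z - S.p i‖ ^ 3) * ‖z - z'‖ := by
  obtain ⟨t0, ht0, hze⟩ := ze_bd K hK
  have hK0 : 0 < K := by linarith
  have hK5 : 1 ≤ K ^ 5 := one_le_pow₀ hK
  have hK25 : K ^ 2 ≤ K ^ 5 := pow_le_pow_right₀ hK (by norm_num)
  have hK15 : K ≤ K ^ 5 := by
    have := pow_le_pow_right₀ hK (show 1 ≤ 5 by norm_num)
    rwa [pow_one] at this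
  refine ⟨10 ^ 10 * K ^ 5, t0, by linarith, ht0, ?_⟩
  intro S t hS hW ht i hi z hz hz3 hC z' hz' hzz
  obtain ⟨h1, h2⟩ := hze S t hS ht i hi z hz hz3
  obtain ⟨-, -, -, -, -, -, -, hH, -⟩ := hS.basic
  have he := hS.e0
  have hHz := hH z hz z' hz'
  set d := ‖z - S.p i‖ with hd
  set R := ‖S.ze i z‖ with hR
  set δ := ‖z - z'‖ with hδ
  have hδ0 : 0 ≤ δ := norm_nonneg _
  have hdp : 0 < d := lt_of_lt_of_le (by positivity) hC
  set q := d / S.ε with hq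
  have hqC : 10 ^ 10 * K ^ 5 ≤ q := by rw [hq, le_div_iff₀ he]; exact hC
  have hq1 : 1 ≤ q := by linarith
  have hq0 : 0 < q := by linarith
  have hRq : R ≤ 2 * K * q := by
    rw [hq, ← mul_div_assoc, le_div_iff₀ he]
    linarith
  have hqR : q ≤ 8 * K * R := by
    rw [hq, div_le_iff₀ he]
    linarith
  have hR2 : 2 ≤ R := by
    by_contra hc
    push Not at hc
    have : 8 * K * R < 8 * K * 2 := mul_lt_mul_of_pos_left hc (by positivity)
    linarith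
  have hR0 : 0 < R := by linarith
  set E := 2 * K * δ / S.ε with hE
  have hE0 : 0 ≤ E := by positivity
  have hEze : ‖S.ze i z - S.ze i z'‖ ≤ E := by
    have e : S.ze i z - S.ze i z' = (S.H z - S.H z') / (S.ε : ℂ) := by
      unfold SD.ze
      ring
    rw [e, norm_div, norm_real, Real.norm_eq_abs, abs_of_pos he, hE]
    exact div_le_div_of_nonneg_right hHz he.le
  have hER : E ≤ R / 2 := by
    have h3 : 10 ^ 10 * K ^ 5 * δ / S.ε ≤ q := by
      rw [hq]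
      exact div_le_div_of_nonneg_right hzz he.le
    have h4 : 32 * K ^ 2 * (δ / S.ε) ≤ 10 ^ 10 * K ^ 5 * (δ / S.ε) := by
      refine mul_le_mul_of_nonneg_right ?_ (by positivity)
      linarith
    have h5 : 32 * K ^ 2 * (δ / S.ε) ≤ 8 * K * R := by
      have : 10 ^ 10 * K ^ 5 * δ / S.ε = 10 ^ 10 * K ^ 5 * (δ / S.ε) := by ring
      linarith
    have h6 : (8 * K) * (2 * E) ≤ (8 * K) * R := by
      have : E = 2 * K * (δ / S.ε) := by rw [hE]; ring
      rw [this]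
      linarith
    have h7 := le_of_mul_le_mul_left h6 (by positivity)
    linarith
  obtain ⟨hn, htt⟩ := WLi_core hW.M1 hR hR2 hEze hER
  have hlog := WLi_log hK hq1 (by linarith) hRq
  have hlq : 0 ≤ Real.log q := Real.log_nonneg hq1
  have hfin : (1 + Real.log (R ^ 2)) * E / R ^ 3 ≤
      5120 * K ^ 5 * ((1 + Real.log q) * (S.ε ^ 2 / d ^ 3) * δ) := by
    have h3 : E / R ^ 3 ≤ 1024 * K ^ 4 * (S.ε ^ 2 / d ^ 3 * δ) := by
      have h4 := pow_le_pow_left₀ hq0.le hqR 3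
      have h5 : 1 / R ^ 3 ≤ 512 * K ^ 3 * (1 / q ^ 3) := by
        rw [← mul_div_assoc, div_le_div_iff₀ (by positivity) (by positivity)]
        linarith
      calc E / R ^ 3 = E * (1 / R ^ 3) := by ring
        _ ≤ E * (512 * K ^ 3 * (1 / q ^ 3)) := mul_le_mul_of_nonneg_left h5 hE0
        _ = 1024 * K ^ 4 * (S.ε ^ 2 / d ^ 3 * δ) := by
            rw [hE, hq]
            field_simp
            ring
    have hl2 : 0 ≤ Real.log (R ^ 2) := Real.log_nonneg (one_le_pow₀ (by linarith))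
    calc (1 + Real.log (R ^ 2)) * E / R ^ 3 = (1 + Real.log (R ^ 2)) * (E / R ^ 3) := by ring
      _ ≤ (5 * K * (1 + Real.log q)) * (1024 * K ^ 4 * (S.ε ^ 2 / d ^ 3 * δ)) :=
          mul_le_mul hlog h3 (by positivity) (by positivity)
      _ = 5120 * K ^ 5 * ((1 + Real.log q) * (S.ε ^ 2 / d ^ 3) * δ) := by ring
  have hY0 : 0 ≤ K ^ 5 * ((1 + Real.log q) * (S.ε ^ 2 / d ^ 3) * δ) := by positivity
  have hY : 10 ^ 10 * K ^ 5 * (1 + Real.log q) * (S.ε ^ 2 / d ^ 3) * δ =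
      10 ^ 10 * (K ^ 5 * ((1 + Real.log q) * (S.ε ^ 2 / d ^ 3) * δ)) := by ring
  rw [hY]
  constructor
  · have h3 : |S.nn i z - S.nn i z'| ≤ 800000 * ((1 + Real.log (R ^ 2)) * E / R ^ 3) := hn
    linarith
  · have h3 : ‖S.tt i z - S.tt i z'‖ ≤ 800000 * ((1 + Real.log (R ^ 2)) * E / R ^ 3) := htt
    linarith

end Pool.Agent.CAPV
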