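import Pool.Agent.Lib.MP_488b8a_co_V.PtN
import Pool.Agent.Lib.MP_488b8a_co_V.WLi

/-! Project SO (MP_488b8a_co), module PtL: the perturbation near a core is Lipschitz. -/

namespace Pool.Agent.CAPV

open Complex

/-- the radial correction -/
private theorem PtL_W {A K dH n n' : ℝ} {H H' τ τ' : ℂ} (hA : 0 ≤ A) (hH : ‖H - H'‖ ≤ dH)
    (hK : ‖H'‖ ≤ K) :
    ‖(A : ℂ) * ((n : ℂ) * H + τ * (starRingEnd ℂ) H) -
      (A : ℂ) * ((n' : ℂ) * H' + τ' * (starRingEnd ℂ) H')‖ ≤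
      A * (|n| * dH + |n - n'| * K + ‖τ‖ * dH + ‖τ - τ'‖ * K) := by
  have e : (A : ℂ) * ((n : ℂ) * H + τ * (starRingEnd ℂ) H) -
      (A : ℂ) * ((n' : ℂ) * H' + τ' * (starRingEnd ℂ) H') =
      (A : ℂ) * ((n : ℂ) * (H - H') + ((n - n' : ℝ) : ℂ) * H' +
        τ * (starRingEnd ℂ) (H - H') + (τ - τ') * (starRingEnd ℂ) H') := by
    rw [map_sub]
    push_cast
    ring
  rw [e, norm_mul, norm_real, Real.norm_eq_abs, abs_of_nonneg hA]
  refine mul_le_mul_of_nonneg_left ?_ hA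
  refine (norm_add_le _ _).trans (add_le_add ((norm_add_le _ _).trans (add_le_add
    ((norm_add_le _ _).trans (add_le_add ?_ ?_)) ?_)) ?_)
  · rw [norm_mul, norm_real, Real.norm_eq_abs]
    exact mul_le_mul_of_nonneg_left hH (abs_nonneg _)
  · rw [norm_mul, norm_real, Real.norm_eq_abs]
    exact mul_le_mul_of_nonneg_left hK (abs_nonneg _)
  · rw [norm_mul, norm_conj]
    exact mul_le_mul_of_nonneg_left hH (norm_nonneg _)
  · rw [norm_mul, norm_conj]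
    exact mul_le_mul_of_nonneg_left hK (norm_nonneg _)

/-- one component -/
private theorem PtL_comp {e K A C C1 C2 C3 C4 s t x l D : ℝ} {f f' p p' q q' w w' : ℂ}
    (he : 0 ≤ e) (hA : 0 ≤ A) (hx : 0 ≤ x) (hl : 0 ≤ l) (hD : 0 ≤ D)
    (h1 : e * ‖f - f'‖ ≤ 2 * K * t ^ 2 * D) (h2 : e * ‖p - p'‖ ≤ 2 * C1 * t ^ 2 * D)
    (h3 : e * (|s| * ‖q - q'‖) ≤ 4 * C2 * x ^ 2 * D)
    (h4 : e * ‖w - w'‖ ≤ (48 * C3 * K + 32 * K * C4) * (A * l * x ^ 3) * D)
    (c1 : 2 * K + 2 * C1 ≤ C) (c2 : 4 * C2 ≤ C) (c3 : 48 * C3 * K + 32 * K * C4 ≤ C) :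
    e * ‖(f + (p - (s : ℂ) * q + w)) - (f' + (p' - (s : ℂ) * q' + w'))‖ ≤
      C * (t ^ 2 + x ^ 2 + A * l * x ^ 3) * D := by
  have e0 : (f + (p - (s : ℂ) * q + w)) - (f' + (p' - (s : ℂ) * q' + w')) =
      (f - f') + (p - p') - (s : ℂ) * (q - q') + (w - w') := by ring
  have n0 : ‖(f + (p - (s : ℂ) * q + w)) - (f' + (p' - (s : ℂ) * q' + w'))‖ ≤
      ‖f - f'‖ + ‖p - p'‖ + |s| * ‖q - q'‖ + ‖w - w'‖ := by
    rw [e0]
    refine (norm_add_le _ _).trans (add_le_add ((norm_sub_le _ _).trans (add_le_add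
      (norm_add_le _ _) ?_)) le_rfl)
    rw [norm_mul, norm_real, Real.norm_eq_abs]
  have n1 := mul_le_mul_of_nonneg_left n0 he
  have a1 : (2 * K + 2 * C1) * (t ^ 2 * D) ≤ C * (t ^ 2 * D) :=
    mul_le_mul_of_nonneg_right c1 (by positivity)
  have a2 : 4 * C2 * (x ^ 2 * D) ≤ C * (x ^ 2 * D) :=
    mul_le_mul_of_nonneg_right c2 (by positivity)
  have a3 : (48 * C3 * K + 32 * K * C4) * (A * l * x ^ 3 * D) ≤ C * (A * l * x ^ 3 * D) :=
    mul_le_mul_of_nonneg_right c3 (by positivity)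
  calc e * ‖(f + (p - (s : ℂ) * q + w)) - (f' + (p' - (s : ℂ) * q' + w'))‖
      ≤ e * (‖f - f'‖ + ‖p - p'‖ + |s| * ‖q - q'‖ + ‖w - w'‖) := n1
    _ = e * ‖f - f'‖ + e * ‖p - p'‖ + e * (|s| * ‖q - q'‖) + e * ‖w - w'‖ := by ring
    _ ≤ 2 * K * t ^ 2 * D + 2 * C1 * t ^ 2 * D + 4 * C2 * x ^ 2 * D +
        (48 * C3 * K + 32 * K * C4) * (A * l * x ^ 3) * D :=
          add_le_add (add_le_add (add_le_add h1 h2) h3) h4
    _ = (2 * K + 2 * C1) * (t ^ 2 * D) + 4 * C2 * (x ^ 2 * D) +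
        (48 * C3 * K + 32 * K * C4) * (A * l * x ^ 3 * D) := by ring
    _ ≤ C * (t ^ 2 * D) + C * (x ^ 2 * D) + C * (A * l * x ^ 3 * D) :=
          add_le_add (add_le_add a1 a2) a3
    _ = _ := by ring

theorem pt_lip (K : ℝ) (hK : 1 ≤ K) : ∃ C t0 : ℝ, 1000 ≤ C ∧ 0 < t0 ∧ ∀ (S : SD) (t : ℝ),
    S.Hyp K t → S.HypW K → t ≤ t0 → ∀ (i : ℕ) (z : ℂ) (s x l : ℝ), S.Pos C i z s x l →
      ∀ y ∈ Metric.closedBall z (100 * S.ε), ∀ y' ∈ Metric.closedBall z (100 * S.ε),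
          S.ε * ‖(S.F.f1 y + S.P1 i s y) - (S.F.f1 y' + S.P1 i s y')‖ ≤
              C * (t ^ 2 + x ^ 2 + S.A * l * x ^ 3) * ‖y - y'‖ ∧
            S.ε * ‖(S.F.f2 y + S.P2 i s y) - (S.F.f2 y' + S.P2 i s y')‖ ≤
              C * (t ^ 2 + x ^ 2 + S.A * l * x ^ 3) * ‖y - y'‖ := by
  obtain ⟨C1, hC1, pl⟩ := pl_bd K hK
  obtain ⟨C2, hC2, df⟩ := df_bd K hK
  obtain ⟨C3, t3, hC3, ht3, wv⟩ := W_val K hK
  obtain ⟨C4, t4, hC4, ht4, wl⟩ := W_li K hK
  set C : ℝ := 200000 * (K + C1 + C2 + C3 * K + C4 * K) with hC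
  have hC3K : C3 ≤ C3 * K := le_mul_of_one_le_right (by linarith) hK
  have hC4K : C4 ≤ C4 * K := le_mul_of_one_le_right (by linarith) hK
  have c0 : 200000 ≤ C := by rw [hC]; linarith
  have c1 : 2 * K + 2 * C1 ≤ C := by rw [hC]; linarith
  have c2 : 4 * C2 ≤ C := by rw [hC]; linarith
  have c3 : 48 * C3 * K + 32 * K * C4 ≤ C := by
    have e1 : 48 * C3 * K + 32 * K * C4 = 48 * (C3 * K) + 32 * (C4 * K) := by ring
    rw [e1, hC]
    linarith
  have c4 : 2 * C3 ≤ C := by rw [hC]; linarith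
  have c5 : 400 * C4 ≤ C := by rw [hC]; linarith
  refine ⟨C, min t3 t4, by linarith, lt_min ht3 ht4, ?_⟩
  intro S t hS hW ht i z s x l hP y hy y' hy'
  have he0 := hS.e0
  have hh0 := hS.h0
  have hA0 : 0 ≤ S.A := by linarith [hW.A1]
  have hN := hP.iN
  have hi1 := hP.i1
  have hi1R : (1 : ℝ) ≤ i := by exact_mod_cast hi1
  have hiN : (i : ℝ) + 1 ≤ S.N := by exact_mod_cast hN
  have hpre : (S.p i).re = i * S.h := ofReal_re _
  have hpim : (S.p i).im = 0 := ofReal_im _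
  -- distances
  set d : ℝ := ‖z - S.p i‖ with hd
  have hfar := hP.far
  have hre := hP.re
  have him := hP.im
  have hd15 : d ≤ 3 / 2 * S.h := by
    have h1 : d ^ 2 = (z.re - i * S.h) ^ 2 + z.im ^ 2 := by
      rw [hd, ← normSq_eq_norm_sq, normSq_apply, sub_re, sub_im, hpre, hpim]
      ring
    have h2 : (z.re - i * S.h) ^ 2 ≤ (5 / 8 * S.h) ^ 2 := sq_le_sq' (abs_le.1 hre).1 (abs_le.1 hre).2
    have h3 : z.im ^ 2 ≤ (5 / 4 * S.h) ^ 2 := sq_le_sq' (abs_le.1 him).1 (abs_le.1 him).2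
    have h4 : (3 / 2 * S.h) ^ 2 = (5 / 8 * S.h) ^ 2 + (5 / 4 * S.h) ^ 2 + 19 / 64 * S.h ^ 2 := by
      ring
    have h5 : 0 ≤ 19 / 64 * S.h ^ 2 := by positivity
    refine le_of_sq_le_sq ?_ (by positivity)
    rw [h1, h4]
    linarith
  have hCe : 200000 * S.ε ≤ d := (mul_le_mul_of_nonneg_right c0 he0.le).trans hfar
  have hd0 : 0 < d := by linarith
  have hC3e : 2 * C3 * S.ε ≤ d := (mul_le_mul_of_nonneg_right c4 he0.le).trans hfar
  have hC4e : 400 * C4 * S.ε ≤ d := (mul_le_mul_of_nonneg_right c5 he0.le).trans hfar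
  have heh : 100 * S.ε ≤ S.h / 1000 := by linarith
  have key : ∀ u ∈ Metric.closedBall z (100 * S.ε), u ∈ SB S.h S.N ∧
      |u.re - ((i - 1 : ℕ) : ℝ) * S.h| ≤ 3 * S.h ∧ d / 2 ≤ ‖u - S.p i‖ ∧ ‖u - S.p i‖ ≤ 2 * d ∧
      ‖u - S.p i‖ ≤ 3 * S.h ∧ z.re - 100 * S.ε ≤ u.re ∧ u.re ≤ (i + 2) * S.h := by
    intro u hu
    rw [Metric.mem_closedBall, dist_eq_norm] at hu
    have r1 : |u.re - z.re| ≤ 100 * S.ε := by
      rw [← sub_re]
      exact (abs_re_le_norm _).trans hu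
    have r2 : |u.im - z.im| ≤ 100 * S.ε := by
      rw [← sub_im]
      exact (abs_im_le_norm _).trans hu
    obtain ⟨r1a, r1b⟩ := abs_le.1 r1
    obtain ⟨r2a, r2b⟩ := abs_le.1 r2
    obtain ⟨q1, q2⟩ := abs_le.1 hre
    obtain ⟨q3, q4⟩ := abs_le.1 him
    have hih : S.h ≤ i * S.h := le_mul_of_one_le_left hh0.le hi1R
    have hNh : i * S.h + S.h ≤ S.N * S.h := by
      have := mul_le_mul_of_nonneg_right hiN hh0.le
      linarith
    have n1 : ‖u - S.p i‖ ≤ d + 100 * S.ε := by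
      have e1 : u - S.p i = (z - S.p i) + (u - z) := by ring
      rw [e1]
      exact (norm_add_le _ _).trans (add_le_add le_rfl hu)
    have n2 : d ≤ ‖u - S.p i‖ + 100 * S.ε := by
      have e1 : z - S.p i = (u - S.p i) - (u - z) := by ring
      rw [hd, e1]
      exact (norm_sub_le _ _).trans (add_le_add le_rfl hu)
    refine ⟨⟨by linarith, by linarith, ?_⟩, ?_, by linarith, by linarith, by linarith,
      by linarith, by linarith⟩
    · rw [abs_le]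
      constructor <;> linarith
    · rw [Nat.cast_sub hi1, Nat.cast_one, abs_le]
      constructor <;> linarith
  obtain ⟨y1, y2, y3, y4, y5, y6, y7⟩ := key y hy
  obtain ⟨v1, v2, v3, v4, v5, v6, v7⟩ := key y' hy'
  set r : ℝ := ‖y - S.p i‖ with hr
  have hr0 : 0 < r := by linarith
  have hD : ‖y - y'‖ ≤ 200 * S.ε := by
    rw [Metric.mem_closedBall, dist_eq_norm] at hy hy'
    have e1 : y - y' = (y - z) - (y' - z) := by ring
    rw [e1]
    refine (norm_sub_le _ _).trans ?_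
    linarith
  set D : ℝ := ‖y - y'‖ with hDd
  have hD0 : 0 ≤ D := norm_nonneg _
  -- small quantities
  have ht0 : 0 < t := by
    by_contra hcon
    push Not at hcon
    have h1 := hS.eh
    have h2 : t * S.h ≤ 0 := mul_nonpos_of_nonpos_of_nonneg hcon hh0.le
    linarith
  have het2 : S.ε ≤ t ^ 2 := by
    have h1 := hS.eh
    have h2 : t * S.h ≤ t * t := mul_le_mul_of_nonneg_left hS.ht ht0.le
    rw [pow_two]
    linarith
  have hx : x = S.ε / d := hP.hx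
  have hx0 : 0 < x := by rw [hx]; positivity
  have hl : l = 1 + Real.log (1 / x) := hP.hl
  have hx1 : x ≤ 1 := by
    rw [hx, div_le_one hd0]
    linarith
  have hl1 : 1 ≤ l := by
    rw [hl]
    have : 0 ≤ Real.log (1 / x) := Real.log_nonneg (by rw [le_div_iff₀ hx0]; linarith)
    linarith
  have hex : S.ε ≤ 3 / 2 * x := by
    have h1 : S.ε = x * d := by rw [hx, div_mul_cancel₀ _ hd0.ne']
    have h2 : d ≤ 3 / 2 := by
      have := hS.ht
      have := hS.t1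
      linarith
    calc S.ε = x * d := h1
      _ ≤ x * (3 / 2) := mul_le_mul_of_nonneg_left h2 hx0.le
      _ = 3 / 2 * x := by ring
  -- the logarithm at `y`
  have hlog : 1 + Real.log (r / S.ε) ≤ 2 * l := by
    have h1 : r / S.ε ≤ 2 * (1 / x) := by
      rw [hx, one_div_div, div_le_iff₀ he0]
      have : 2 * (d / S.ε) * S.ε = 2 * d := by
        field_simp
      rw [this]
      exact y4
    have h2 := Real.log_le_log (by positivity) h1
    rw [Real.log_mul two_ne_zero (by positivity)] at h2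
    have h3 := Real.log_two_lt_d9
    rw [hl]
    have h4 : 0 ≤ Real.log (1 / x) := by linarith
    linarith
  have hlog0 : 0 ≤ 1 + Real.log (r / S.ε) := by
    have h1 : 1 ≤ r / S.ε := by
      rw [le_div_iff₀ he0]
      linarith
    have := Real.log_nonneg h1
    linarith
  have hrx : S.ε / r ≤ 2 * x := by
    rw [hx, div_le_iff₀ hr0]
    have h1 : 2 * (S.ε / d) * r = S.ε * (2 * r) / d := by ring
    rw [h1, le_div_iff₀ hd0]
    exact mul_le_mul_of_nonneg_left (by linarith) he0.le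
  have hrx0 : 0 ≤ S.ε / r := by positivity
  have hrx2 : (S.ε / r) ^ 2 ≤ 4 * x ^ 2 := by
    have := pow_le_pow_left₀ hrx0 hrx 2
    calc (S.ε / r) ^ 2 ≤ (2 * x) ^ 2 := this
      _ = 4 * x ^ 2 := by ring
  have hrx3 : S.ε * (S.ε ^ 2 / r ^ 3) ≤ 8 * x ^ 3 := by
    have := pow_le_pow_left₀ hrx0 hrx 3
    calc S.ε * (S.ε ^ 2 / r ^ 3) = (S.ε / r) ^ 3 := by
          rw [div_pow]
          ring
      _ ≤ (2 * x) ^ 3 := this
      _ = 8 * x ^ 3 := by ring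
  -- basic bounds
  obtain ⟨f1, f2, -, -, -⟩ := hS.Fb.bl hS.F (SB_convex S.h S.N)
  obtain ⟨bH1, bH2, -, -, -, -, -, -, -⟩ := hS.basic
  have gF : ∀ {u : ℝ}, u ≤ 2 * K * D → S.ε * u ≤ 2 * K * t ^ 2 * D := by
    intro u hu
    have h1 := mul_le_mul_of_nonneg_left hu he0.le
    have h2 : S.ε * (2 * K * D) ≤ t ^ 2 * (2 * K * D) :=
      mul_le_mul_of_nonneg_right het2 (by positivity)
    linarith
  have gP : ∀ {u : ℝ}, u ≤ C1 * (1 + t / S.h) * D → S.ε * u ≤ 2 * C1 * t ^ 2 * D := by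
    intro u hu
    have h1 := mul_le_mul_of_nonneg_left hu he0.le
    have h3 : S.ε * (1 + t / S.h) ≤ 2 * t ^ 2 := by
      have h4 : S.ε / S.h ≤ t := by
        rw [div_le_iff₀ hh0]
        exact hS.eh
      have h5 : S.ε / S.h * t ≤ t * t := mul_le_mul_of_nonneg_right h4 ht0.le
      have h6 : S.ε * (1 + t / S.h) = S.ε + S.ε / S.h * t := by ring
      rw [h6]
      have h7 : t * t = t ^ 2 := by ring
      linarith
    have h2 : S.ε * (1 + t / S.h) * (C1 * D) ≤ 2 * t ^ 2 * (C1 * D) :=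
      mul_le_mul_of_nonneg_right h3 (by positivity)
    calc S.ε * u ≤ S.ε * (C1 * (1 + t / S.h) * D) := h1
      _ = S.ε * (1 + t / S.h) * (C1 * D) := by ring
      _ ≤ 2 * t ^ 2 * (C1 * D) := h2
      _ = _ := by ring
  have gD : ∀ {u : ℝ}, u ≤ C2 * (S.ε / r ^ 2) * D → S.ε * u ≤ 4 * C2 * x ^ 2 * D := by
    intro u hu
    have h1 := mul_le_mul_of_nonneg_left hu he0.le
    calc S.ε * u ≤ S.ε * (C2 * (S.ε / r ^ 2) * D) := h1
      _ = (S.ε / r) ^ 2 * (C2 * D) := by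
          rw [div_pow]
          ring
      _ ≤ 4 * x ^ 2 * (C2 * D) := mul_le_mul_of_nonneg_right hrx2 (by positivity)
      _ = _ := by ring
  have hdfl : s = 0 ∨ (s = 1 ∧ ‖S.df1 i y - S.df1 i y'‖ ≤ C2 * (S.ε / r ^ 2) * D ∧
      ‖S.df2 i y - S.df2 i y'‖ ≤ C2 * (S.ε / r ^ 2) * D) := by
    rcases hP.hs with h | ⟨h, h'⟩
    · exact Or.inl h
    · right
      obtain ⟨-, -, -, -, hh⟩ := df S t hS i hi1 hN y y1 (by linarith) y7
      obtain ⟨k1, k2⟩ := hh y' v1 (by linarith) v7 (by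
        show D ≤ r / 4
        linarith)
      exact ⟨h, k1, k2⟩
  have gs : ∀ {u : ℝ}, 0 ≤ u → (s = 0 ∨ (s = 1 ∧ u ≤ C2 * (S.ε / r ^ 2) * D)) →
      S.ε * (|s| * u) ≤ 4 * C2 * x ^ 2 * D := by
    intro u hu0 hu
    rcases hu with h | ⟨h, h'⟩
    · rw [h, abs_zero, zero_mul, mul_zero]
      positivity
    · rw [h, abs_one, one_mul]
      exact gD h'
  -- the radial correction
  obtain ⟨-, -, n1, n2⟩ := wv S t hS hW (ht.trans (min_le_left _ _)) i hN y y1 y5 (by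
    show C3 * S.ε ≤ r
    linarith)
  obtain ⟨m1, m2⟩ := wl S t hS hW (ht.trans (min_le_right _ _)) i hN y y1 y5 (by
    show C4 * S.ε ≤ r
    have : 0 ≤ C4 * S.ε := by positivity
    linarith) y' v1 (by
      show C4 * D ≤ r
      have h1 : C4 * D ≤ C4 * (200 * S.ε) := mul_le_mul_of_nonneg_left hD (by linarith)
      linarith)
  have hnn : ∀ {u : ℝ}, u ≤ C3 * (1 + Real.log (r / S.ε)) * (S.ε / r) ^ 2 →
      u ≤ 8 * C3 * l * x ^ 2 := by
    intro u hu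
    refine hu.trans ?_
    calc C3 * (1 + Real.log (r / S.ε)) * (S.ε / r) ^ 2 ≤ C3 * (2 * l) * (4 * x ^ 2) := by
          refine mul_le_mul (mul_le_mul_of_nonneg_left hlog (by linarith)) hrx2 (by positivity)
            (by positivity)
      _ = 8 * C3 * l * x ^ 2 := by ring
  have hmm : ∀ {u : ℝ}, u ≤ C4 * (1 + Real.log (r / S.ε)) * (S.ε ^ 2 / r ^ 3) * D →
      S.ε * u ≤ 16 * C4 * l * x ^ 3 * D := by
    intro u hu
    have h1 := mul_le_mul_of_nonneg_left hu he0.le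
    calc S.ε * u ≤ S.ε * (C4 * (1 + Real.log (r / S.ε)) * (S.ε ^ 2 / r ^ 3) * D) := h1
      _ = C4 * (1 + Real.log (r / S.ε)) * (S.ε * (S.ε ^ 2 / r ^ 3)) * D := by ring
      _ ≤ C4 * (2 * l) * (8 * x ^ 3) * D := by
          refine mul_le_mul_of_nonneg_right (mul_le_mul (mul_le_mul_of_nonneg_left hlog
            (by linarith)) hrx3 (by positivity) (by positivity)) hD0
      _ = _ := by ring
  have N1 := hnn n1
  have N2 := hnn n2
  have M1 := hmm m1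
  have M2 := hmm m2
  have gW : ∀ {H H' : ℂ}, ‖H - H'‖ ≤ 2 * K * D → ‖H'‖ ≤ K →
      S.ε * ‖(S.A : ℂ) * ((S.nn i y : ℂ) * H + S.tt i y * (starRingEnd ℂ) H) -
        (S.A : ℂ) * ((S.nn i y' : ℂ) * H' + S.tt i y' * (starRingEnd ℂ) H')‖ ≤
      (48 * C3 * K + 32 * K * C4) * (S.A * l * x ^ 3) * D := by
    intro H H' h1 h2
    have h3 := PtL_W (n := S.nn i y) (n' := S.nn i y') (τ := S.tt i y) (τ' := S.tt i y')
      hA0 h1 h2
    refine (mul_le_mul_of_nonneg_left h3 he0.le).trans ?_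
    have e1 : S.ε * (8 * C3 * l * x ^ 2 * (2 * K * D)) ≤ 24 * C3 * K * (l * x ^ 3) * D := by
      have h4 : S.ε * (16 * C3 * K * l * x ^ 2 * D) ≤ 3 / 2 * x * (16 * C3 * K * l * x ^ 2 * D) :=
        mul_le_mul_of_nonneg_right hex (by positivity)
      calc S.ε * (8 * C3 * l * x ^ 2 * (2 * K * D)) = S.ε * (16 * C3 * K * l * x ^ 2 * D) := by
            ring
        _ ≤ 3 / 2 * x * (16 * C3 * K * l * x ^ 2 * D) := h4
        _ = _ := by ring
    have hKD : 0 ≤ 2 * K * D := by positivity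
    have a1 : S.ε * (|S.nn i y| * (2 * K * D)) ≤ 24 * C3 * K * (l * x ^ 3) * D :=
      (mul_le_mul_of_nonneg_left (mul_le_mul_of_nonneg_right N1 hKD) he0.le).trans e1
    have a2 : S.ε * (‖S.tt i y‖ * (2 * K * D)) ≤ 24 * C3 * K * (l * x ^ 3) * D :=
      (mul_le_mul_of_nonneg_left (mul_le_mul_of_nonneg_right N2 hKD) he0.le).trans e1
    have hK0 : 0 ≤ K := by linarith
    have a3 := mul_le_mul_of_nonneg_right M1 hK0
    have a4 := mul_le_mul_of_nonneg_right M2 hK0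
    have h5 : S.ε * (|S.nn i y| * (2 * K * D) + |S.nn i y - S.nn i y'| * K +
        ‖S.tt i y‖ * (2 * K * D) + ‖S.tt i y - S.tt i y'‖ * K) ≤
        (48 * C3 * K + 32 * K * C4) * (l * x ^ 3) * D := by
      calc S.ε * (|S.nn i y| * (2 * K * D) + |S.nn i y - S.nn i y'| * K +
          ‖S.tt i y‖ * (2 * K * D) + ‖S.tt i y - S.tt i y'‖ * K)
          = S.ε * (|S.nn i y| * (2 * K * D)) + S.ε * |S.nn i y - S.nn i y'| * K +
          S.ε * (‖S.tt i y‖ * (2 * K * D)) + S.ε * ‖S.tt i y - S.tt i y'‖ * K := by ring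
        _ ≤ 24 * C3 * K * (l * x ^ 3) * D + 16 * C4 * l * x ^ 3 * D * K +
          24 * C3 * K * (l * x ^ 3) * D + 16 * C4 * l * x ^ 3 * D * K :=
            add_le_add (add_le_add (add_le_add a1 a3) a2) a4
        _ = _ := by ring
    calc S.ε * (S.A * (|S.nn i y| * (2 * K * D) + |S.nn i y - S.nn i y'| * K +
          ‖S.tt i y‖ * (2 * K * D) + ‖S.tt i y - S.tt i y'‖ * K))
        = S.A * (S.ε * (|S.nn i y| * (2 * K * D) + |S.nn i y - S.nn i y'| * K +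
          ‖S.tt i y‖ * (2 * K * D) + ‖S.tt i y - S.tt i y'‖ * K)) := by ring
      _ ≤ S.A * ((48 * C3 * K + 32 * K * C4) * (l * x ^ 3) * D) :=
          mul_le_mul_of_nonneg_left h5 hA0
      _ = _ := by ring
  obtain ⟨-, -, hpl⟩ := pl S t hS (i - 1) (by omega) y y1 y2
  obtain ⟨p1, p2⟩ := hpl y' v1 v2
  constructor
  · refine PtL_comp (K := K) (C1 := C1) (C2 := C2) (C3 := C3) (C4 := C4) he0.le hA0 hx0.le
      (by linarith) hD0 (gF (f1.2 y y1 y' v1)) (gP p1) (gs (norm_nonneg _) ?_)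
      (gW (bH1.2 y y1 y' v1) (bH1.1 y' v1)) c1 c2 c3
    rcases hdfl with h | ⟨h, h', -⟩
    · exact Or.inl h
    · exact Or.inr ⟨h, h'⟩
  · refine PtL_comp (K := K) (C1 := C1) (C2 := C2) (C3 := C3) (C4 := C4) he0.le hA0 hx0.le
      (by linarith) hD0 (gF (f2.2 y y1 y' v1)) (gP p2) (gs (norm_nonneg _) ?_)
      (gW (bH2.2 y y1 y' v1) (bH2.1 y' v1)) c1 c2 c3
    rcases hdfl with h | ⟨h, -, h'⟩
    · exact Or.inl h
    · exact Or.inr ⟨h, h'⟩

end Pool.Agent.CAPV
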