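import Pool.Agent.Lib.MP_488b8a_co_V.PDef
import Pool.Agent.Lib.MP_488b8a_co_V.PlB
import Pool.Agent.Lib.MP_488b8a_co_V.DfB
import Pool.Agent.Lib.MP_488b8a_co_V.WVal

/-! Project SO (MP_488b8a_co), module PtN: size of the perturbation near a core. -/

namespace Pool.Agent.CAPV

open Complex

theorem pt_norm (K : ℝ) (hK : 1 ≤ K) : ∃ C t0 : ℝ, 1000 ≤ C ∧ 0 < t0 ∧ ∀ (S : SD) (t : ℝ),
    S.Hyp K t → S.HypW K → t ≤ t0 → ∀ (i : ℕ) (z : ℂ) (s x l : ℝ), S.Pos C i z s x l →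
      0 < x ∧ x ≤ 1 / C ∧ 1 ≤ l ∧ t ≤ C * x ∧ ‖S.P1 i s z‖ ≤ C * (t + x + S.A * l * x ^ 2) ∧
        ‖S.P2 i s z‖ ≤ C * (t + x + S.A * l * x ^ 2) ∧
        ‖S.W1 i z‖ ≤ C * (S.A * l * x ^ 2) ∧ ‖S.W2 i z‖ ≤ C * (S.A * l * x ^ 2) ∧
        |S.nn i z| ≤ C * (l * x ^ 2) ∧
        1 / C * x ^ 2 - C * th t ≤ S.nn i z ∧ S.nn i z ≤ C * x ^ 2 := by
  obtain ⟨Cp, hCp, hp⟩ := pl_bd K hK
  obtain ⟨Cd, hCd, hd⟩ := df_bd K hK
  obtain ⟨Cw, t0, hCw, ht0, hw⟩ := W_val K hK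
  have hKCw : 0 ≤ K * Cw := by positivity
  refine ⟨1000 + Cp + Cd + 2 * (K * Cw) + Cw + 2 * K, t0, by linarith, ht0,
    fun S t hS hSW ht i z s x l hP => ?_⟩
  obtain ⟨C, hC⟩ : ∃ C : ℝ, C = 1000 + Cp + Cd + 2 * (K * Cw) + Cw + 2 * K := ⟨_, rfl⟩
  rw [← hC] at hP ⊢
  have hC0 : 0 < C := by linarith
  have he := hS.e0
  have hh := hS.h0
  have ht00 : 0 < t := by
    by_contra h
    have h1 := hS.eh
    have h2 : t * S.h ≤ 0 := mul_nonpos_of_nonpos_of_nonneg (not_lt.1 h) hh.le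
    linarith
  have hi1 : (1 : ℝ) ≤ i := by exact_mod_cast hP.i1
  have hiN : (i : ℝ) + 1 ≤ S.N := by exact_mod_cast hP.iN
  have hre := abs_le.1 hP.re
  have him := abs_le.1 hP.im
  have hzS : z ∈ SB S.h S.N := by
    refine ⟨?_, ?_, by linarith [hP.im]⟩
    · nlinarith [hre.1]
    · nlinarith [hre.2]
  have hd2 : ‖z - S.p i‖ ≤ 2 * S.h := by
    have h1 := Complex.norm_le_abs_re_add_abs_im (z - S.p i)
    have h2 : (z - S.p i).re = z.re - i * S.h := by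
      rw [Complex.sub_re]
      unfold SD.p
      rw [Complex.ofReal_re]
    have h3 : (z - S.p i).im = z.im := by
      rw [Complex.sub_im]
      unfold SD.p
      rw [Complex.ofReal_im, sub_zero]
    rw [h2, h3] at h1
    linarith [hP.re, hP.im]
  obtain ⟨d, hdd⟩ : ∃ d : ℝ, d = ‖z - S.p i‖ := ⟨_, rfl⟩
  have hfar := hP.far
  have hx := hP.hx
  rw [← hdd] at hd2 hfar hx
  have hd0 : 0 < d := lt_of_lt_of_le (mul_pos hC0 he) hfar
  have hx0 : 0 < x := by rw [hx]; positivity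
  have hxC : x ≤ 1 / C := by
    rw [hx, div_le_div_iff₀ hd0 hC0]
    linarith
  have hxinv : 1 / x = d / S.ε := by rw [hx, one_div_div]
  have h1x : 1 ≤ 1 / x := by
    rw [hxinv, one_le_div he]
    nlinarith
  have hl := hP.hl
  have hl1 : 1 ≤ l := by
    rw [hl]
    linarith [Real.log_nonneg h1x]
  have htx : t ≤ 2 * K * x := by
    have h1 := hS.he
    have h2 : S.ε = x * d := by rw [hx]; field_simp
    have h3 : t * S.h ≤ 2 * K * x * S.h := by
      have h4 : K * S.ε ≤ K * (x * (2 * S.h)) := by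
        rw [h2]
        exact mul_le_mul_of_nonneg_left (mul_le_mul_of_nonneg_left hd2 hx0.le) (by linarith)
      linarith
    exact le_of_mul_le_mul_right h3 hh
  obtain ⟨w1, w2, w3, w4⟩ := hw S t hS hSW ht i hP.iN z hzS
    (by rw [← hdd]; linarith) (by
      rw [← hdd]
      have h1 : Cw * S.ε ≤ C * S.ε := mul_le_mul_of_nonneg_right (by linarith) he.le
      linarith)
  rw [← hdd, ← hx] at w1 w2 w3 w4
  rw [← hxinv, ← hl] at w3 w4
  have hA : 1 ≤ S.A := hSW.A1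
  obtain ⟨y, hy⟩ : ∃ y : ℝ, y = S.A * l * x ^ 2 := ⟨_, rfl⟩
  have hlx : 0 ≤ l * x ^ 2 := mul_nonneg (by linarith) (sq_nonneg _)
  have hy0 : 0 ≤ y := by
    rw [hy, mul_assoc]
    exact mul_nonneg (by linarith) hlx
  have wgen : ∀ H : ℂ, ‖H‖ ≤ K →
      ‖(S.A : ℂ) * ((S.nn i z : ℂ) * H + S.tt i z * (starRingEnd ℂ) H)‖ ≤ 2 * (K * Cw) * y := by
    intro H hH
    rw [norm_mul, Complex.norm_real, Real.norm_of_nonneg (by linarith : (0:ℝ) ≤ S.A)]
    have h1 : ‖(S.nn i z : ℂ) * H + S.tt i z * (starRingEnd ℂ) H‖ ≤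
        Cw * l * x ^ 2 * K + Cw * l * x ^ 2 * K := by
      refine (norm_add_le _ _).trans (add_le_add ?_ ?_)
      · rw [norm_mul, Complex.norm_real, Real.norm_eq_abs]
        exact mul_le_mul w3 hH (norm_nonneg _) ((abs_nonneg _).trans w3)
      · rw [norm_mul, RCLike.norm_conj]
        exact mul_le_mul w4 hH (norm_nonneg _) ((norm_nonneg _).trans w4)
    have h2 := mul_le_mul_of_nonneg_left h1 (by linarith : (0:ℝ) ≤ S.A)
    refine h2.trans (le_of_eq ?_)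
    rw [hy]
    ring
  have hH1 : ‖S.H1 z‖ ≤ K := by
    unfold SD.H1
    rw [norm_div, Complex.norm_ofNat]
    have h1 := norm_add_le (S.F.f1 z) (S.G.f1 z)
    have h2 := hS.Fb.b1 z hzS
    have h3 := hS.Gb.b1 z hzS
    linarith
  have hH2 : ‖S.H2 z‖ ≤ K := by
    unfold SD.H2
    rw [norm_div, Complex.norm_ofNat]
    have h1 := norm_add_le (S.F.f2 z) (S.G.f2 z)
    have h2 := hS.Fb.b2 z hzS
    have h3 := hS.Gb.b2 z hzS
    linarith
  have hW1 : ‖S.W1 i z‖ ≤ 2 * (K * Cw) * y := wgen _ hH1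
  have hW2 : ‖S.W2 i z‖ ≤ 2 * (K * Cw) * y := wgen _ hH2
  have hi' : ((i - 1 : ℕ) : ℝ) = i - 1 := by
    rw [Nat.cast_sub hP.i1, Nat.cast_one]
  obtain ⟨p1, p2, _⟩ := hp S t hS (i - 1) (lt_of_le_of_lt (Nat.sub_le _ _) hP.iN) z hzS (by
    rw [hi', abs_le]
    constructor
    · linarith [hre.1]
    · linarith [hre.2])
  have hdf : ‖(s : ℂ) * S.df1 i z‖ ≤ Cd * x ∧ ‖(s : ℂ) * S.df2 i z‖ ≤ Cd * x := by
    rcases hP.hs with h0 | ⟨h0, h1⟩
    · rw [h0, Complex.ofReal_zero, zero_mul, norm_zero, zero_mul, norm_zero]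
      exact ⟨by positivity, by positivity⟩
    · obtain ⟨_, _, d1, d2, _⟩ := hd S t hS i hP.i1 hP.iN z hzS (by linarith)
        (by linarith [hre.2])
      rw [← hdd, ← hx] at d1 d2
      rw [h0, Complex.ofReal_one, one_mul, one_mul]
      exact ⟨d1, d2⟩
  have ht' : 0 ≤ th t := by
    unfold th
    refine mul_nonneg (sq_nonneg _) ?_
    have h1 : 1 ≤ 1 / t := by
      rw [one_le_div ht00]
      exact hS.t1
    linarith [Real.log_nonneg h1]
  have fin : ∀ a b c : ℂ, ‖a‖ ≤ Cp * t → ‖b‖ ≤ Cd * x → ‖c‖ ≤ 2 * (K * Cw) * y →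
      ‖a - b + c‖ ≤ C * (t + x + y) := by
    intro a b c h1 h2 h3
    have h4 := (norm_add_le (a - b) c).trans (add_le_add_left (norm_sub_le a b) _)
    have e1 : Cp * t ≤ C * t := mul_le_mul_of_nonneg_right (by linarith) ht00.le
    have e2 : Cd * x ≤ C * x := mul_le_mul_of_nonneg_right (by linarith) hx0.le
    have e3 : 2 * (K * Cw) * y ≤ C * y := mul_le_mul_of_nonneg_right (by linarith) hy0
    have e4 : C * (t + x + y) = C * t + C * x + C * y := by ring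
    rw [e4]
    linarith
  have e3 : 2 * (K * Cw) * y ≤ C * y := mul_le_mul_of_nonneg_right (by linarith) hy0
  rw [← hy]
  refine ⟨hx0, hxC, hl1, ?_, fin _ _ _ p1 hdf.1 hW1, fin _ _ _ p2 hdf.2 hW2, hW1.trans e3,
    hW2.trans e3, ?_, ?_, ?_⟩
  · refine htx.trans (mul_le_mul_of_nonneg_right (by linarith) hx0.le)
  · refine w3.trans ?_
    rw [mul_assoc]
    exact mul_le_mul_of_nonneg_right (by linarith) hlx
  · refine le_trans ?_ w1
    have e5 : 1 / C * x ^ 2 ≤ 1 / Cw * x ^ 2 :=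
      mul_le_mul_of_nonneg_right (one_div_le_one_div_of_le (by linarith) (by linarith))
        (sq_nonneg _)
    have e6 : Cw * th t ≤ C * th t := mul_le_mul_of_nonneg_right (by linarith) ht'
    linarith
  · exact w2.trans (mul_le_mul_of_nonneg_right (by linarith) (sq_nonneg _))

end Pool.Agent.CAPV
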