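import Pool.Agent.Lib.MP_488b8a_co_V.Str
import Pool.Agent.Lib.MP_488b8a_co_V.Rot

/-! Project SO (MP_488b8a_co): definitions for the ring along the boundary of a cell.

Cell: centre `c`, half side `a`; `ω` is one of `1, -1, I, -I`; `sgm c ω z` are coordinates in which the
side is at the bottom. The strips have the centre lines at distance `3 h / 2` from the sides. -/

namespace Pool.Agent.CAPV

open Complex

noncomputable section

def Qr (ω : ℂ) : Prop := ω = 1 ∨ ω = -1 ∨ ω = I ∨ ω = -I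

/-- coordinates adapted to a side -/
def sgm (c ω z : ℂ) : ℂ := (starRingEnd ℂ) ω * (z - c)

/-- the rectangle along a side -/
def Rr (a h : ℝ) (c ω z : ℂ) : Prop :=
  |(sgm c ω z).re| ≤ a - 2 * h ∧ (sgm c ω z).im < -(a - 2 * h)

/-- cores of the strip -/
def kor (a h : ℝ) (c ω : ℂ) (i : ℕ) : ℂ :=
  c + ω * (⟨i * h - (a - 2 * h), -(a - 3 / 2 * h)⟩ : ℂ)

/-- points of the cuts -/
def kut (a h ε : ℝ) (c ω : ℂ) (s : ℝ) (j : ℕ) : ℂ :=
  c + ω * (⟨s * (a - 2 * h), -(a - 2 * h + j * ε)⟩ : ℂ)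

/-- the map: `f` outside and in the corners, `U0` inside, `V ω` in the rectangles -/
def rgU (a h : ℝ) (c : ℂ) (f U0 : ℂ → ℂ) (V : ℂ → ℂ → ℂ) (z : ℂ) : ℂ := by
  classical
  exact if mx (z - c) ≤ a - 2 * h then U0 z else if Rr a h c 1 z then V 1 z else
    if Rr a h c (-1) z then V (-1) z else if Rr a h c I z then V I z else
    if Rr a h c (-I) z then V (-I) z else f z

end

end Pool.Agent.CAPV
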