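import Pool.Agent.Lib.MP_488b8a_co_V.CelA

/-! Project SO (MP_488b8a_co), module Reg: the map on the whole rectangle. -/

namespace Pool.Agent.CAPV

open Complex

private noncomputable def Reg_c (k : ℕ) (x : ℤ × ℤ) : ℂ :=
  ⟨((x.1 : ℝ) + 1 / 2) / 2 ^ k, ((x.2 : ℝ) + 1 / 2) / 2 ^ k⟩

private noncomputable def Reg_i (k : ℕ) (z : ℂ) : ℤ × ℤ := (⌊2 ^ k * z.re⌋, ⌊2 ^ k * z.im⌋)

open Classical in
private noncomputable def Reg_net (k M : ℕ) (ε : ℝ) (x : ℤ × ℤ) : Finset ℂ :=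
  ((Finset.range (M + 1)).image (fun m : ℕ =>
      (⟨(x.1 : ℝ) / 2 ^ k + m * ε, (x.2 : ℝ) / 2 ^ k⟩ : ℂ)) ∪
    (Finset.range (M + 1)).image (fun m : ℕ =>
      (⟨(x.1 : ℝ) / 2 ^ k + m * ε, (x.2 : ℝ) / 2 ^ k + 1 / 2 ^ k⟩ : ℂ))) ∪
  ((Finset.range (M + 1)).image (fun m : ℕ =>
      (⟨(x.1 : ℝ) / 2 ^ k, (x.2 : ℝ) / 2 ^ k + m * ε⟩ : ℂ)) ∪
    (Finset.range (M + 1)).image (fun m : ℕ =>
      (⟨(x.1 : ℝ) / 2 ^ k + 1 / 2 ^ k, (x.2 : ℝ) / 2 ^ k + m * ε⟩ : ℂ)))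

private theorem Reg_net_card (k M : ℕ) (ε : ℝ) (x : ℤ × ℤ) :
    (Reg_net k M ε x).card ≤ 4 * (M + 1) := by
  unfold Reg_net
  refine (Finset.card_union_le _ _).trans ?_
  have h1 := Finset.card_union_le
    ((Finset.range (M + 1)).image (fun m : ℕ =>
      (⟨(x.1 : ℝ) / 2 ^ k + m * ε, (x.2 : ℝ) / 2 ^ k⟩ : ℂ)))
    ((Finset.range (M + 1)).image (fun m : ℕ =>
      (⟨(x.1 : ℝ) / 2 ^ k + m * ε, (x.2 : ℝ) / 2 ^ k + 1 / 2 ^ k⟩ : ℂ)))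
  have h2 := Finset.card_union_le
    ((Finset.range (M + 1)).image (fun m : ℕ =>
      (⟨(x.1 : ℝ) / 2 ^ k, (x.2 : ℝ) / 2 ^ k + m * ε⟩ : ℂ)))
    ((Finset.range (M + 1)).image (fun m : ℕ =>
      (⟨(x.1 : ℝ) / 2 ^ k + 1 / 2 ^ k, (x.2 : ℝ) / 2 ^ k + m * ε⟩ : ℂ)))
  have h3 : ∀ f : ℕ → ℂ, ((Finset.range (M + 1)).image f).card ≤ M + 1 := fun f => by
    have := Finset.card_image_le (s := Finset.range (M + 1)) (f := f)
    rwa [Finset.card_range] at this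
  have h4 := h3 (fun m : ℕ => (⟨(x.1 : ℝ) / 2 ^ k + m * ε, (x.2 : ℝ) / 2 ^ k⟩ : ℂ))
  have h5 := h3 (fun m : ℕ => (⟨(x.1 : ℝ) / 2 ^ k + m * ε, (x.2 : ℝ) / 2 ^ k + 1 / 2 ^ k⟩ : ℂ))
  have h6 := h3 (fun m : ℕ => (⟨(x.1 : ℝ) / 2 ^ k, (x.2 : ℝ) / 2 ^ k + m * ε⟩ : ℂ))
  have h7 := h3 (fun m : ℕ => (⟨(x.1 : ℝ) / 2 ^ k + 1 / 2 ^ k, (x.2 : ℝ) / 2 ^ k + m * ε⟩ : ℂ))
  omega

private theorem Reg_frac {t l ε : ℝ} (hε : 0 < ε) (h0 : 0 ≤ t) (h1 : t ≤ l) :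
    ∃ m ∈ Finset.range (⌊l / ε⌋₊ + 1), |t - (m : ℝ) * ε| ≤ ε := by
  refine ⟨⌊t / ε⌋₊, ?_, ?_⟩
  · rw [Finset.mem_range, Nat.lt_succ_iff]
    exact Nat.floor_mono (div_le_div_of_nonneg_right h1 hε.le)
  · have h2 := Nat.floor_le (div_nonneg h0 hε.le)
    have h3 := Nat.lt_floor_add_one (t / ε)
    rw [le_div_iff₀ hε] at h2
    rw [div_lt_iff₀ hε, add_mul, one_mul] at h3
    rw [abs_le]
    constructor <;> linarith

private theorem Reg_norm (z q : ℂ) (a b : ℝ) (h1 : |z.re - q.re| ≤ a) (h2 : |z.im - q.im| ≤ b) :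
    ‖z - q‖ ≤ a + b := by
  have h := Complex.norm_le_abs_re_add_abs_im (z - q)
  rw [Complex.sub_re, Complex.sub_im] at h
  linarith

/-- a point which is far from the net is in the interior of its cell -/
private theorem Reg_far {k : ℕ} {ε : ℝ} {x : ℤ × ℤ} {z : ℂ} (hε : 0 < ε)
    (hq : ∀ q ∈ Reg_net k ⌊1 / 2 ^ k / ε⌋₊ ε x, 1000 * ε ≤ ‖z - q‖)
    (h1 : (x.1 : ℝ) / 2 ^ k ≤ z.re) (h2 : z.re ≤ (x.1 : ℝ) / 2 ^ k + 1 / 2 ^ k)
    (h3 : (x.2 : ℝ) / 2 ^ k ≤ z.im) (h4 : z.im ≤ (x.2 : ℝ) / 2 ^ k + 1 / 2 ^ k) :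
    (x.1 : ℝ) / 2 ^ k + 200 * ε ≤ z.re ∧ z.re ≤ (x.1 : ℝ) / 2 ^ k + 1 / 2 ^ k - 200 * ε ∧
      (x.2 : ℝ) / 2 ^ k + 200 * ε ≤ z.im ∧ z.im ≤ (x.2 : ℝ) / 2 ^ k + 1 / 2 ^ k - 200 * ε := by
  classical
  obtain ⟨m, hm, hm'⟩ := Reg_frac (t := z.im - (x.2 : ℝ) / 2 ^ k) (l := 1 / 2 ^ k) hε
    (by linarith) (by linarith)
  obtain ⟨n, hn, hn'⟩ := Reg_frac (t := z.re - (x.1 : ℝ) / 2 ^ k) (l := 1 / 2 ^ k) hε
    (by linarith) (by linarith)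
  have hm2 : |z.im - ((x.2 : ℝ) / 2 ^ k + m * ε)| ≤ ε := by
    rwa [← sub_sub]
  have hn2 : |z.re - ((x.1 : ℝ) / 2 ^ k + n * ε)| ≤ ε := by
    rwa [← sub_sub]
  refine ⟨?_, ?_, ?_, ?_⟩
  · by_contra hcon
    push Not at hcon
    have h5 := hq ⟨(x.1 : ℝ) / 2 ^ k, (x.2 : ℝ) / 2 ^ k + m * ε⟩ (by
      unfold Reg_net
      refine Finset.mem_union_right _ (Finset.mem_union_left _ ?_)
      exact Finset.mem_image_of_mem _ hm)
    have h6 := Reg_norm z ⟨(x.1 : ℝ) / 2 ^ k, (x.2 : ℝ) / 2 ^ k + m * ε⟩ (200 * ε) ε (by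
      change |z.re - (x.1 : ℝ) / 2 ^ k| ≤ 200 * ε
      rw [abs_le]
      constructor <;> linarith) hm2
    linarith
  · by_contra hcon
    push Not at hcon
    have h5 := hq ⟨(x.1 : ℝ) / 2 ^ k + 1 / 2 ^ k, (x.2 : ℝ) / 2 ^ k + m * ε⟩ (by
      unfold Reg_net
      refine Finset.mem_union_right _ (Finset.mem_union_right _ ?_)
      exact Finset.mem_image_of_mem _ hm)
    have h6 := Reg_norm z ⟨(x.1 : ℝ) / 2 ^ k + 1 / 2 ^ k, (x.2 : ℝ) / 2 ^ k + m * ε⟩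
      (200 * ε) ε (by
      change |z.re - ((x.1 : ℝ) / 2 ^ k + 1 / 2 ^ k)| ≤ 200 * ε
      rw [abs_le]
      constructor <;> linarith) hm2
    linarith
  · by_contra hcon
    push Not at hcon
    have h5 := hq ⟨(x.1 : ℝ) / 2 ^ k + n * ε, (x.2 : ℝ) / 2 ^ k⟩ (by
      unfold Reg_net
      refine Finset.mem_union_left _ (Finset.mem_union_left _ ?_)
      exact Finset.mem_image_of_mem _ hn)
    have h6 := Reg_norm z ⟨(x.1 : ℝ) / 2 ^ k + n * ε, (x.2 : ℝ) / 2 ^ k⟩ ε (200 * ε) hn2 (by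
      change |z.im - (x.2 : ℝ) / 2 ^ k| ≤ 200 * ε
      rw [abs_le]
      constructor <;> linarith)
    linarith
  · by_contra hcon
    push Not at hcon
    have h5 := hq ⟨(x.1 : ℝ) / 2 ^ k + n * ε, (x.2 : ℝ) / 2 ^ k + 1 / 2 ^ k⟩ (by
      unfold Reg_net
      refine Finset.mem_union_left _ (Finset.mem_union_right _ ?_)
      exact Finset.mem_image_of_mem _ hn)
    have h6 := Reg_norm z ⟨(x.1 : ℝ) / 2 ^ k + n * ε, (x.2 : ℝ) / 2 ^ k + 1 / 2 ^ k⟩ ε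
      (200 * ε) hn2 (by
      change |z.im - ((x.2 : ℝ) / 2 ^ k + 1 / 2 ^ k)| ≤ 200 * ε
      rw [abs_le]
      constructor <;> linarith)
    linarith

private theorem Reg_floor {k : ℕ} {t : ℝ} {i : ℤ} (h1 : (i : ℝ) / 2 ^ k ≤ t)
    (h2 : t < (i : ℝ) / 2 ^ k + 1 / 2 ^ k) : ⌊2 ^ k * t⌋ = i := by
  have hL : (0 : ℝ) < 2 ^ k := by positivity
  rw [div_le_iff₀ hL] at h1
  rw [← add_div, lt_div_iff₀ hL] at h2
  rw [Int.floor_eq_iff]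
  constructor <;> linarith

private theorem Reg_floor' (k : ℕ) (t : ℝ) :
    ((⌊2 ^ k * t⌋ : ℤ) : ℝ) / 2 ^ k ≤ t ∧ t < ((⌊2 ^ k * t⌋ : ℤ) : ℝ) / 2 ^ k + 1 / 2 ^ k := by
  have hL : (0 : ℝ) < 2 ^ k := by positivity
  have h1 := Int.floor_le (2 ^ k * t)
  have h2 := Int.lt_floor_add_one (2 ^ k * t)
  constructor
  · rw [div_le_iff₀ hL]
    linarith
  · rw [← add_div, lt_div_iff₀ hL]
    linarith

private theorem Reg_sum {α β : Type} [DecidableEq α] [DecidableEq β] (s : Finset α)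
    (t : α → Finset β) (f : β → ℝ) (hf : ∀ x, 0 ≤ f x) :
    ∑ x ∈ s.biUnion t, f x ≤ ∑ i ∈ s, ∑ x ∈ t i, f x := by
  induction s using Finset.induction_on with
  | empty => simp
  | insert a s ha ih =>
    rw [Finset.biUnion_insert, Finset.sum_insert ha]
    have h1 := Finset.sum_union_inter (s₁ := t a) (s₂ := s.biUnion t) (f := f)
    have h2 : 0 ≤ ∑ x ∈ t a ∩ s.biUnion t, f x := Finset.sum_nonneg fun x _ => hf x
    linarith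

private theorem Reg_cst {p : Prm} {C C' : Finset (ℂ × ℕ)} (h : C ⊆ C') (hc : 0 ≤ p.Cc) (z : ℂ) :
    cst p C z ≤ cst p C' z := by
  unfold cst
  refine mul_le_mul_of_nonneg_left ?_ hc
  have h1 : ∀ x : ℂ × ℕ, 0 ≤ en p z x := fun x => by
    unfold en
    split_ifs
    · exact sq_nonneg _
    · exact le_rfl
  have h2 := Finset.sum_le_sum_of_subset_of_nonneg h (f := en p z) (fun x _ _ => h1 x)
  linarith

theorem region (CR : ℝ) (h1 : 1 ≤ CR) : ∃ (a0 : ℝ) (k1 : ℕ), 1 ≤ a0 ∧ ∀ k0 : ℕ, k1 ≤ k0 →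
    ∃ Ck : ℝ, 0 ≤ Ck ∧ ∀ p : Prm, p.Gd CR a0 k1 → p.k0 = k0 →
      ∃ (U : ℂ → ℂ) (Bad : Finset ℂ) (Cor : Finset (ℂ × ℕ)),
        (∀ z ∈ RB, (∀ q ∈ Bad, p.C0 * p.ε ≤ ‖z - q‖) →
          Ok p.T p.ε p.CR (kmin p z) (cst p Cor z) U z) ∧
        (Bad.card : ℝ) ≤ Ck / p.ε ∧ ∑ x ∈ Cor, ((x.2 : ℝ) + 1) ≤ Ck / p.ε := by
  classical
  obtain ⟨a0, Cn, k1, ha0, hCn, hcell⟩ := cell_all CR h1
  refine ⟨max a0 1000, max k1 8, le_max_of_le_left ha0, fun k0 hk0 => ?_⟩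
  have hk8 : 8 ≤ k0 := (le_max_right _ _).trans hk0
  obtain ⟨J0, hJ0⟩ : ∃ J0 : Finset (ℤ × ℤ), J0 = Finset.Icc (-(2 ^ k0)) (8 * 2 ^ k0) ×ˢ
    Finset.Icc (-(2 * 2 ^ k0)) 0 := ⟨_, rfl⟩
  refine ⟨(J0.card : ℝ) * (3 * Cn + 8 + 4 * Cn * ((k0 : ℝ) + 3)), by positivity,
    fun p hp hpk => ?_⟩
  have hpg : p.Gd CR a0 k1 := ⟨hp.cr, hp.T0, hp.T1, hp.elo, hp.ehi,
    (le_max_left _ _).trans hp.A0, (le_max_left _ _).trans hp.Au, (le_max_left _ _).trans hp.C0,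
    (le_max_left _ _).trans hp.Cc, (le_max_left _ _).trans hp.k0, hp.K⟩
  have hC0 : 1000 ≤ p.C0 := (le_max_right _ _).trans hp.C0
  have hCc : 0 ≤ p.Cc := by
    have := (le_max_right _ _).trans hp.Cc
    linarith
  have hε : 0 < p.ε := lt_of_lt_of_le (by positivity) hp.elo
  have hKe : (16 : ℝ) ^ p.K ≤ 1 / p.ε := by
    have h2 := hp.ehi
    rw [le_div_iff₀ (by positivity)] at h2
    rw [le_div_iff₀ hε]
    linarith
  have hL : (0 : ℝ) < 2 ^ k0 := by positivity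
  have hL8 : (256 : ℝ) ≤ 2 ^ k0 := by
    have h2 : (2 : ℝ) ^ 8 ≤ 2 ^ k0 := pow_le_pow_right₀ (by norm_num) hk8
    norm_num at h2
    exact h2
  have hl : (1 : ℝ) / 2 ^ k0 ≤ 1 / 256 := one_div_le_one_div_of_le (by norm_num) hL8
  have hl0 : (0 : ℝ) < 1 / 2 ^ k0 := by positivity
  have hε1 : 1 ≤ 1 / p.ε := by
    refine le_trans ?_ hKe
    exact one_le_pow₀ (by norm_num)
  have hak : ak k0 = 1 / 2 ^ k0 / 2 := by
    unfold ak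
    rw [pow_succ]
    field_simp
  have hcre : ∀ x : ℤ × ℤ, (Reg_c k0 x).re = (x.1 : ℝ) / 2 ^ k0 + 1 / 2 ^ k0 / 2 := fun x => by
    unfold Reg_c
    ring
  have hcim : ∀ x : ℤ × ℤ, (Reg_c k0 x).im = (x.2 : ℝ) / 2 ^ k0 + 1 / 2 ^ k0 / 2 := fun x => by
    unfold Reg_c
    ring
  have hex : ∀ x : ℤ × ℤ, ∃ (U : ℂ → ℂ) (Bad : Finset ℂ) (Cor : Finset (ℂ × ℕ)),
      Rg k0 (Reg_c k0 x) →
      (∀ z, mx (z - Reg_c k0 x) ≤ ak k0 → (∀ q ∈ Bad, p.C0 * p.ε ≤ ‖z - q‖) →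
        Ok p.T p.ε p.CR (kmin p z) (cst p Cor z) U z) ∧
      (Bad.card : ℝ) ≤ 3 * Cn * (1 / p.ε) ∧
      ∑ x ∈ Cor, ((x.2 : ℝ) + 1) ≤ 4 * Cn * ((k0 : ℝ) + 3) * (1 / p.ε) := by
    intro x
    by_cases hR : Rg k0 (Reg_c k0 x)
    · have hkK : k0 ≤ p.K := by
        have := hp.K
        omega
      obtain ⟨U, Bad, Cor, -, h2, h3, h4, -, -⟩ := hcell p hpg k0 hpk.le hkK
        (Reg_c k0 x) 0 ⟨x.1, x.2, rfl⟩ hR
      have h8 : (1 : ℝ) ≤ 8 ^ k0 := one_le_pow₀ (by norm_num)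
      have h4' : (1 : ℝ) ≤ 4 ^ k0 := one_le_pow₀ (by norm_num)
      have h16 : (0 : ℝ) ≤ 16 ^ k0 := by positivity
      have h16K : (0 : ℝ) ≤ 16 ^ p.K := by positivity
      have e1 : (16 : ℝ) ^ p.K / 8 ^ k0 ≤ 1 / p.ε := (div_le_self h16K h8).trans hKe
      have e2 : ((16 : ℝ) ^ p.K - 16 ^ k0) / 4 ^ k0 ≤ 1 / p.ε := by
        refine le_trans ?_ hKe
        rw [div_le_iff₀ (by positivity)]
        nlinarith
      refine ⟨U, Bad, Cor, fun _ => ⟨h2, h3.trans ?_, h4.trans ?_⟩⟩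
      · have e3 : Cn * (2 * (16 ^ p.K / 8 ^ k0) + ((16 : ℝ) ^ p.K - 16 ^ k0) / 4 ^ k0) ≤
            Cn * (2 * (1 / p.ε) + 1 / p.ε) :=
          mul_le_mul_of_nonneg_left (by linarith) (by linarith)
        refine e3.trans (le_of_eq ?_)
        ring
      · exact mul_le_mul_of_nonneg_left e1 (by positivity)
    · exact ⟨fun _ => 0, ∅, ∅, fun h => absurd h hR⟩
  choose U Bad Cor hP using hex
  obtain ⟨M, hM⟩ : ∃ M : ℕ, M = ⌊1 / 2 ^ k0 / p.ε⌋₊ := ⟨_, rfl⟩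
  have hMle : ((M : ℝ) + 1) ≤ 2 * (1 / p.ε) := by
    have h2 : (M : ℝ) ≤ 1 / 2 ^ k0 / p.ε := by
      rw [hM]
      exact Nat.floor_le (by positivity)
    have h3 : (1 : ℝ) / 2 ^ k0 / p.ε ≤ 1 / p.ε :=
      div_le_div_of_nonneg_right (by linarith) hε.le
    linarith
  obtain ⟨J, hJ⟩ : ∃ J : Finset (ℤ × ℤ), J = J0.filter (fun x => Rg k0 (Reg_c k0 x)) := ⟨_, rfl⟩
  have hJR : ∀ x ∈ J, Rg k0 (Reg_c k0 x) := fun x hx => by
    rw [hJ, Finset.mem_filter] at hx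
    exact hx.2
  have hJc : (J.card : ℝ) ≤ J0.card := by
    rw [hJ]
    exact_mod_cast Finset.card_filter_le _ _
  refine ⟨fun z => U (Reg_i k0 z) z, J.biUnion (fun x => Bad x ∪ Reg_net k0 M p.ε x),
    J.biUnion Cor, ?_, ?_, ?_⟩
  · intro z hz hq
    obtain ⟨x, hx⟩ : ∃ x : ℤ × ℤ, x = Reg_i k0 z := ⟨_, rfl⟩
    obtain ⟨f1, f2⟩ := Reg_floor' k0 z.re
    obtain ⟨f3, f4⟩ := Reg_floor' k0 z.im
    have hx1 : x.1 = ⌊2 ^ k0 * z.re⌋ := by rw [hx]; rfl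
    have hx2 : x.2 = ⌊2 ^ k0 * z.im⌋ := by rw [hx]; rfl
    rw [← hx1] at f1 f2
    rw [← hx2] at f3 f4
    obtain ⟨g1, g2, g3, g4⟩ := hz
    have hR : Rg k0 (Reg_c k0 x) := by
      unfold Rg
      rw [hcim, hak]
      constructor <;> linarith
    have hxJ : x ∈ J := by
      rw [hJ, Finset.mem_filter]
      refine ⟨?_, hR⟩
      rw [hJ0, Finset.mem_product, Finset.mem_Icc, Finset.mem_Icc, hx1, hx2]
      refine ⟨⟨?_, ?_⟩, ?_, ?_⟩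
      · rw [Int.le_floor]
        push_cast
        nlinarith
      · have h2 := Int.floor_le (2 ^ k0 * z.re)
        have h3 : ((⌊2 ^ k0 * z.re⌋ : ℤ) : ℝ) ≤ ((8 * 2 ^ k0 : ℤ) : ℝ) := by
          push_cast
          nlinarith
        exact_mod_cast h3
      · rw [Int.le_floor]
        push_cast
        nlinarith
      · have h2 := Int.floor_le (2 ^ k0 * z.im)
        have h3 : ((⌊2 ^ k0 * z.im⌋ : ℤ) : ℝ) ≤ ((0 : ℤ) : ℝ) := by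
          push_cast
          nlinarith
        exact_mod_cast h3
    have hqn : ∀ q ∈ Reg_net k0 ⌊1 / 2 ^ k0 / p.ε⌋₊ p.ε x, 1000 * p.ε ≤ ‖z - q‖ := by
      intro q hq'
      rw [← hM] at hq'
      have h2 := hq q (Finset.mem_biUnion.2 ⟨x, hxJ, Finset.mem_union_right _ hq'⟩)
      have h3 := mul_le_mul_of_nonneg_right hC0 hε.le
      linarith
    obtain ⟨r1, r2, r3, r4⟩ := Reg_far hε hqn f1 f2.le f3 f4.le
    have hmx : mx (z - Reg_c k0 x) ≤ ak k0 := by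
      unfold mx
      rw [Complex.sub_re, Complex.sub_im, hcre, hcim, hak]
      refine max_le ?_ ?_ <;> rw [abs_le] <;> constructor <;> linarith
    have hok := (hP x hR).1 z hmx (fun q hq' =>
      hq q (Finset.mem_biUnion.2 ⟨x, hxJ, Finset.mem_union_left _ hq'⟩))
    refine ok_congr hok le_rfl (Reg_cst (fun y hy => Finset.mem_biUnion.2 ⟨x, hxJ, hy⟩) hCc z) ?_
    intro y hy
    rw [mem_closedBall_iff_norm] at hy
    have y1 := abs_le.1 ((Complex.abs_re_le_norm (y - z)).trans hy)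
    have y2 := abs_le.1 ((Complex.abs_im_le_norm (y - z)).trans hy)
    rw [Complex.sub_re] at y1
    rw [Complex.sub_im] at y2
    have hyx : Reg_i k0 y = x := by
      unfold Reg_i
      refine Prod.ext ?_ ?_
      · exact Reg_floor (by linarith [y1.1]) (by linarith [y1.2])
      · exact Reg_floor (by linarith [y2.1]) (by linarith [y2.2])
    change U x y - U (Reg_i k0 y) y ∈ LamE p.ε
    rw [hyx, sub_self]
    exact LamE_zero _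
  · have h2 : ((J.biUnion (fun x => Bad x ∪ Reg_net k0 M p.ε x)).card : ℝ) ≤
        ∑ x ∈ J, ((3 * Cn + 8) * (1 / p.ε)) := by
      have h3 : ((J.biUnion (fun x => Bad x ∪ Reg_net k0 M p.ε x)).card : ℝ) ≤
          ((∑ x ∈ J, (Bad x ∪ Reg_net k0 M p.ε x).card : ℕ) : ℝ) := by
        exact_mod_cast Finset.card_biUnion_le
      refine h3.trans ?_
      push_cast
      refine Finset.sum_le_sum fun x hx => ?_
      have h4 : ((Bad x ∪ Reg_net k0 M p.ε x).card : ℝ) ≤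
          ((Bad x).card : ℝ) + ((Reg_net k0 M p.ε x).card : ℝ) := by
        exact_mod_cast Finset.card_union_le _ _
      have h5 : ((Reg_net k0 M p.ε x).card : ℝ) ≤ 4 * ((M : ℝ) + 1) := by
        exact_mod_cast Reg_net_card k0 M p.ε x
      have h6 := (hP x (hJR x hx)).2.1
      linarith
    refine h2.trans ?_
    have h7 : 0 ≤ 4 * Cn * ((k0 : ℝ) + 3) := by positivity
    have h8 : (J.card : ℝ) * (3 * Cn + 8) ≤
        (J0.card : ℝ) * (3 * Cn + 8 + 4 * Cn * ((k0 : ℝ) + 3)) :=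
      mul_le_mul hJc (by linarith) (by positivity) (by positivity)
    have h9 := mul_le_mul_of_nonneg_right h8 (show 0 ≤ 1 / p.ε by positivity)
    rw [Finset.sum_const, nsmul_eq_mul]
    exact le_trans (le_of_eq (by ring)) (h9.trans (le_of_eq (by ring)))
  · have h2 := Reg_sum J Cor (fun x => (x.2 : ℝ) + 1) (fun x => by positivity)
    refine h2.trans ?_
    have h3 : ∑ i ∈ J, ∑ x ∈ Cor i, ((x.2 : ℝ) + 1) ≤
        ∑ i ∈ J, (4 * Cn * ((k0 : ℝ) + 3) * (1 / p.ε)) :=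
      Finset.sum_le_sum fun i hi => (hP i (hJR i hi)).2.2
    refine h3.trans ?_
    have h8 : (J.card : ℝ) * (4 * Cn * ((k0 : ℝ) + 3)) ≤
        (J0.card : ℝ) * (3 * Cn + 8 + 4 * Cn * ((k0 : ℝ) + 3)) :=
      mul_le_mul hJc (by linarith) (by positivity) (by positivity)
    have h9 := mul_le_mul_of_nonneg_right h8 (show 0 ≤ 1 / p.ε by positivity)
    rw [Finset.sum_const, nsmul_eq_mul]
    exact le_trans (le_of_eq (by ring)) (h9.trans (le_of_eq (by ring)))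

end Pool.Agent.CAPV
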