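import Pool.Agent.Lib.MP_488b8a_co_V.Defs

/-! Project SO (MP_488b8a_co): definitions for the strip.

Local coordinates: the strip is `0 ≤ re ≤ N h`, `|im| ≤ h / 2`; the cores of the dislocations are
the points `i h`, `1 ≤ i < N`. Below the strip the map is `F`, above it is `G` modulo the lattice. -/

namespace Pool.Agent.CAPV

open Complex MeasureTheory

noncomputable section

/-- the box in which the bounds are assumed -/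
def SB (h : ℝ) (N : ℕ) : Set ℂ :=
  {z | -h ≤ z.re ∧ z.re ≤ ((N : ℝ) + 1) * h ∧ |z.im| ≤ 2 * h}

/-- data of a strip -/
structure SD where
  F : Jet
  G : Jet
  P : Prof
  ε : ℝ
  h : ℝ
  A : ℝ
  M : ℕ
  N : ℕ
  g0 : ℂ → ℝ
  lam : ℕ → ℂ
  c : ℕ → ℝ

namespace SD

variable (S : SD)

def H (z : ℂ) : ℂ := (S.F.f z + S.G.f z) / 2
def H1 (z : ℂ) : ℂ := (S.F.f1 z + S.G.f1 z) / 2
def H2 (z : ℂ) : ℂ := (S.F.f2 z + S.G.f2 z) / 2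

/-- displacement in the box `i` -/
def w (i : ℕ) (z : ℂ) : ℂ := S.G.f z - S.F.f z - S.lam i
def w1 (z : ℂ) : ℂ := S.G.f1 z - S.F.f1 z
def w2 (z : ℂ) : ℂ := S.G.f2 z - S.F.f2 z

/-- stream function of the displacement in the box `i` -/
def gam (i : ℕ) (z : ℂ) : ℝ := S.g0 z - cr (S.lam i) (S.H z) + S.c i

def X0 (z : ℂ) : ℝ := S.P.x0 (z.im / S.h)
def X1 (z : ℂ) : ℝ := S.P.x1 (z.im / S.h) / S.h
def X2 (z : ℂ) : ℝ := S.P.x2 (z.im / S.h) / S.h ^ 2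

/-- the map without dislocations, box `i` -/
def pl (i : ℕ) (z : ℂ) : ℂ :=
  S.F.f z + (S.X0 z : ℂ) * S.w i z + ((S.gam i z * S.X1 z : ℝ) : ℂ) * S.F.f1 z

/-- its derivative in the first coordinate, minus that of `F` -/
def pl1 (i : ℕ) (z : ℂ) : ℂ :=
  (S.X0 z : ℂ) * S.w1 z + ((cr (S.w i z) (S.H1 z) * S.X1 z : ℝ) : ℂ) * S.F.f1 z +
    ((S.gam i z * S.X1 z : ℝ) : ℂ) * S.F.f11 z

/-- its derivative in the second coordinate, minus that of `F` -/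
def pl2 (i : ℕ) (z : ℂ) : ℂ :=
  (S.X1 z : ℂ) * S.w i z + (S.X0 z : ℂ) * S.w2 z +
    ((cr (S.w i z) (S.H2 z) * S.X1 z + S.gam i z * S.X2 z : ℝ) : ℂ) * S.F.f1 z +
    ((S.gam i z * S.X1 z : ℝ) : ℂ) * S.F.f12 z

/-- the core -/
def p (i : ℕ) : ℂ := (((i : ℝ) * S.h : ℝ) : ℂ)

/-- the Burgers vector -/
def b (i : ℕ) : ℂ := S.lam i - S.lam (i - 1)

def bet (i : ℕ) (z : ℂ) : ℝ := cr (S.b i) (S.H z - S.H (S.p i))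

def T0 (i : ℕ) (z : ℂ) : ℝ := S.P.t0 ((z - S.p i) / (S.h : ℂ))
def T1 (i : ℕ) (z : ℂ) : ℝ := S.P.t1 ((z - S.p i) / (S.h : ℂ)) / S.h
def T2 (i : ℕ) (z : ℂ) : ℝ := S.P.t2 ((z - S.p i) / (S.h : ℂ)) / S.h
def T11 (i : ℕ) (z : ℂ) : ℝ := S.P.t11 ((z - S.p i) / (S.h : ℂ)) / S.h ^ 2
def T12 (i : ℕ) (z : ℂ) : ℝ := S.P.t12 ((z - S.p i) / (S.h : ℂ)) / S.h ^ 2
def T22 (i : ℕ) (z : ℂ) : ℝ := S.P.t22 ((z - S.p i) / (S.h : ℂ)) / S.h ^ 2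

/-- the dislocation at the core `i` -/
def df (i : ℕ) (z : ℂ) : ℂ :=
  S.b i * (S.T0 i z : ℂ) +
    (S.bet i z : ℂ) * (S.F.f1 z * (S.T2 i z : ℂ) - S.F.f2 z * (S.T1 i z : ℂ))

def df1 (i : ℕ) (z : ℂ) : ℂ :=
  S.b i * (S.T1 i z : ℂ) +
    (cr (S.b i) (S.H1 z) : ℂ) * (S.F.f1 z * (S.T2 i z : ℂ) - S.F.f2 z * (S.T1 i z : ℂ)) +
    (S.bet i z : ℂ) * (S.F.f11 z * (S.T2 i z : ℂ) + S.F.f1 z * (S.T12 i z : ℂ) -
      S.F.f12 z * (S.T1 i z : ℂ) - S.F.f2 z * (S.T11 i z : ℂ))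

def df2 (i : ℕ) (z : ℂ) : ℂ :=
  S.b i * (S.T2 i z : ℂ) +
    (cr (S.b i) (S.H2 z) : ℂ) * (S.F.f1 z * (S.T2 i z : ℂ) - S.F.f2 z * (S.T1 i z : ℂ)) +
    (S.bet i z : ℂ) * (S.F.f12 z * (S.T2 i z : ℂ) + S.F.f1 z * (S.T22 i z : ℂ) -
      S.F.f22 z * (S.T1 i z : ℂ) - S.F.f2 z * (S.T12 i z : ℂ))

/-- the position relative to the core, in lattice units -/
def ze (i : ℕ) (z : ℂ) : ℂ := (S.H z - S.H (S.p i)) / (S.ε : ℂ)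

/-- holomorphic and antiholomorphic components of the derivative of the radial correction -/
def nn (i : ℕ) (z : ℂ) : ℝ := CAPU.nu S.M (‖S.ze i z‖ ^ 2)
def tt (i : ℕ) (z : ℂ) : ℂ := S.ze i z ^ 2 * (CAPU.psd S.M (‖S.ze i z‖ ^ 2) : ℂ)

/-- the radial correction (compression) at the core `i` -/
def W (i : ℕ) (z : ℂ) : ℂ := ((S.A * S.ε : ℝ) : ℂ) * CAPU.W0 S.M (S.ze i z)

def W1 (i : ℕ) (z : ℂ) : ℂ :=
  (S.A : ℂ) * ((S.nn i z : ℂ) * S.H1 z + S.tt i z * (starRingEnd ℂ) (S.H1 z))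

def W2 (i : ℕ) (z : ℂ) : ℂ :=
  (S.A : ℂ) * ((S.nn i z : ℂ) * S.H2 z + S.tt i z * (starRingEnd ℂ) (S.H2 z))

/-- index of the nearest core -/
def ix (z : ℂ) : ℤ := ⌊z.re / S.h + 1 / 2⌋

/-- the map of the strip -/
def U (z : ℂ) : ℂ := by
  classical
  exact if S.ix z ≤ 0 then S.pl 0 z else if (S.N : ℤ) ≤ S.ix z then S.pl (S.N - 1) z else
    S.pl ((S.ix z).toNat - 1) z -
      (if ((S.ix z).toNat : ℝ) * S.h < z.re then S.df (S.ix z).toNat z else 0) +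
      (if ‖z - S.p (S.ix z).toNat‖ ≤ S.h then S.W (S.ix z).toNat z else 0)

/-- standing hypotheses -/
structure Hyp (K t : ℝ) : Prop where
  hK : 1 ≤ K
  e0 : 0 < S.ε
  h0 : 0 < S.h
  t1 : t ≤ 1
  eh : S.ε ≤ t * S.h
  he : t * S.h ≤ K * S.ε
  ht : S.h ≤ t
  N2 : 2 ≤ S.N
  F : S.F.Sm
  G : S.G.Sm
  Fb : S.F.Bd (SB S.h S.N) K
  Gb : S.G.Bd (SB S.h S.N) K
  d1 : ∀ z ∈ SB S.h S.N, ‖S.w1 z‖ ≤ t
  d2 : ∀ z ∈ SB S.h S.N, ‖S.w2 z‖ ≤ t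
  PC : S.P.C ≤ K
  g0 : ∀ z, HasFDerivAt S.g0 (frr (cr (S.G.f z - S.F.f z) (S.H1 z))
    (cr (S.G.f z - S.F.f z) (S.H2 z))) z
  lam : ∀ i, S.lam i ∈ LamE S.ε
  wb : ∀ i < S.N, ∀ z ∈ SB S.h S.N, |z.re - i * S.h| ≤ 3 * S.h → ‖S.w i z‖ ≤ K * S.ε
  gb : ∀ i < S.N, ∀ z ∈ SB S.h S.N, |z.re - i * S.h| ≤ 3 * S.h →
    |S.gam i z| ≤ K * S.ε * S.h
  join : ∀ i, 1 ≤ i → i < S.N → S.gam i (S.p i) = S.gam (i - 1) (S.p i)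

/-- the radial corrections are supported near the cores -/
structure HypW (K : ℝ) : Prop where
  A1 : 1 ≤ S.A
  M1 : 1 ≤ S.M
  lo : S.h ≤ 1000 * K ^ 2 * S.ε * CAPU.Dm S.M
  hi : 100 * K ^ 2 * S.ε * CAPU.Dm S.M ≤ S.h

end SD

end

end Pool.Agent.CAPV
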