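import Pool.Agent.Lib.MP_488b8a_co_V.PlD
import Pool.Agent.Lib.MP_488b8a_co_V.LamL

/-! Project SO (MP_488b8a_co), module SdE: existence of the data of a strip (greedy choice). -/

namespace Pool.Agent.CAPV

open Complex

private theorem sde_lip {B : Set ℂ} (hB : Convex ℝ B) {f f1 f2 : ℂ → ℂ} {L : ℝ}
    (hd : ∀ z ∈ B, HasFDerivAt f (fr (f1 z) (f2 z)) z) (h1 : ∀ z ∈ B, ‖f1 z‖ ≤ L)
    (h2 : ∀ z ∈ B, ‖f2 z‖ ≤ L) {x y : ℂ} (hx : x ∈ B) (hy : y ∈ B) :
    ‖f y - f x‖ ≤ 2 * L * ‖y - x‖ :=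
  hB.norm_image_sub_le_of_norm_hasFDerivWithin_le
    (fun z hz => (hd z hz).hasFDerivWithinAt)
    (fun z hz => (fr_norm_le _ _).trans (by linarith [h1 z hz, h2 z hz])) hx hy

private theorem sde_lipr {B : Set ℂ} (hB : Convex ℝ B) {f f1 f2 : ℂ → ℝ} {L : ℝ}
    (hd : ∀ z ∈ B, HasFDerivAt f (frr (f1 z) (f2 z)) z) (h1 : ∀ z ∈ B, |f1 z| ≤ L)
    (h2 : ∀ z ∈ B, |f2 z| ≤ L) {x y : ℂ} (hx : x ∈ B) (hy : y ∈ B) :
    |f y - f x| ≤ 2 * L * ‖y - x‖ :=
  hB.norm_image_sub_le_of_norm_hasFDerivWithin_le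
    (fun z hz => (hd z hz).hasFDerivWithinAt)
    (fun z hz => (frr_norm_le _ _).trans (by linarith [h1 z hz, h2 z hz])) hx hy

private theorem sde_conv (h : ℝ) (N : ℕ) : Convex ℝ (SB h N) := by
  have h1 : SB h N = (({z : ℂ | -h ≤ z.re} ∩ {z : ℂ | z.re ≤ ((N : ℝ) + 1) * h}) ∩
      ({z : ℂ | -(2 * h) ≤ z.im} ∩ {z : ℂ | z.im ≤ 2 * h})) := by
    ext z
    constructor
    · rintro ⟨h1, h2, h3⟩
      exact ⟨⟨h1, h2⟩, (abs_le.1 h3).1, (abs_le.1 h3).2⟩
    · rintro ⟨⟨h1, h2⟩, h3, h4⟩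
      exact ⟨h1, h2, abs_le.2 ⟨h3, h4⟩⟩
  rw [h1]
  exact ((convex_halfSpace_re_ge _).inter (convex_halfSpace_re_le _)).inter
    ((convex_halfSpace_im_ge _).inter (convex_halfSpace_im_le _))

private theorem sde_unit (w : ℂ) : ∃ v : ℂ, ‖v‖ ≤ 1 ∧ cr v w = -‖w‖ := by
  rcases eq_or_ne w 0 with rfl | hw
  · exact ⟨0, by simp, by simp [cr]⟩
  · have hn : 0 < ‖w‖ := norm_pos_iff.2 hw
    refine ⟨I * w / (‖w‖ : ℂ), ?_, ?_⟩
    · rw [norm_div, norm_mul, norm_I, one_mul, Complex.norm_real, Real.norm_of_nonneg hn.le,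
        div_self hn.ne']
    · have h1 : (I * w / (‖w‖ : ℂ)).re = -w.im / ‖w‖ := by
        rw [div_ofReal_re]
        simp
      have h2 : (I * w / (‖w‖ : ℂ)).im = w.re / ‖w‖ := by
        rw [div_ofReal_im]
        simp
      have h3 : w.re * w.re + w.im * w.im = ‖w‖ * ‖w‖ := by
        rw [← Complex.normSq_apply, Complex.normSq_eq_norm_sq]
        ring
      unfold cr
      rw [h1, h2]
      field_simp
      linarith

private theorem cr_add_right (u v w : ℂ) : cr u (v + w) = cr u v + cr u w := by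
  simp only [cr, add_re, add_im]
  ring

private theorem cr_add_left (u v w : ℂ) : cr (u + v) w = cr u w + cr v w := by
  simp only [cr, add_re, add_im]
  ring

private theorem cr_mul_left (s : ℝ) (u v : ℂ) : cr ((s : ℂ) * u) v = s * cr u v := by
  simp only [cr, re_ofReal_mul, im_ofReal_mul]
  ring

/-- the pointwise estimate on the segment -/
private theorem sde_pt {Cj ε h s : ℝ} {v a W Hx : ℂ} (hC : 1 ≤ Cj) (hε : 0 < ε)
    (hs : s = 1 ∨ s = -1) (hv : ‖v‖ ≤ 1) (hva : cr v a = -‖a‖)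
    (hW : ‖W - ((s * ((2 * Cj + 3) * ε) : ℝ) : ℂ) * v‖ ≤ (1 + 2 * Cj) * ε)
    (hH : ‖Hx - a‖ ≤ 2 * Cj * h) (hHC : ‖Hx‖ ≤ Cj) (ha : (4 * Cj + 4) * Cj * h ≤ ‖a‖) :
    s * cr W Hx ≤ 0 ∧ -((4 * Cj + 4) * Cj * ε) ≤ s * cr W Hx := by
  set E : ℂ := W - ((s * ((2 * Cj + 3) * ε) : ℝ) : ℂ) * v with hE
  have hs2 : s * s = 1 := by rcases hs with h | h <;> rw [h] <;> norm_num
  have has : |s| = 1 := by rcases hs with h | h <;> rw [h] <;> norm_num
  have hWE : W = ((s * ((2 * Cj + 3) * ε) : ℝ) : ℂ) * v + E := by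
    rw [hE]
    ring
  have h1 : s * cr W Hx = (2 * Cj + 3) * ε * cr v Hx + s * cr E Hx := by
    rw [hWE, cr_add_left, cr_mul_left]
    linear_combination (2 * Cj + 3) * ε * cr v Hx * hs2
  have h2 : cr v Hx = -‖a‖ + cr v (Hx - a) := by
    rw [← hva, ← cr_add_right]
    congr 1
    ring
  have h3 : |cr v (Hx - a)| ≤ 2 * Cj * h :=
    (cr_abs_le _ _).trans (by
      calc ‖v‖ * ‖Hx - a‖ ≤ 1 * (2 * Cj * h) :=
            mul_le_mul hv hH (norm_nonneg _) zero_le_one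
        _ = 2 * Cj * h := one_mul _)
  have h4 : ‖Hx‖ ≤ ‖a‖ + 2 * Cj * h := by
    have : Hx = a + (Hx - a) := by ring
    rw [this]
    exact (norm_add_le _ _).trans (by linarith)
  have h5 : |s * cr E Hx| ≤ (1 + 2 * Cj) * ε * ‖Hx‖ := by
    rw [abs_mul, has, one_mul]
    exact (cr_abs_le _ _).trans (mul_le_mul_of_nonneg_right hW (norm_nonneg _))
  have hb : (1 + 2 * Cj) * ε * ‖Hx‖ ≤ (1 + 2 * Cj) * ε * (‖a‖ + 2 * Cj * h) :=
    mul_le_mul_of_nonneg_left h4 (by positivity)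
  have hvH : |cr v Hx| ≤ Cj := (cr_abs_le _ _).trans (by
    calc ‖v‖ * ‖Hx‖ ≤ 1 * Cj := mul_le_mul hv hHC (norm_nonneg _) zero_le_one
      _ = Cj := one_mul _)
  constructor
  · rw [h1, h2]
    have h6 : (2 * Cj + 3) * ε * (-‖a‖ + cr v (Hx - a)) ≤
        (2 * Cj + 3) * ε * (-‖a‖ + 2 * Cj * h) :=
      mul_le_mul_of_nonneg_left (by linarith [(abs_le.1 h3).2]) (by positivity)
    have h7 := (abs_le.1 h5).2
    have h8 : 2 * ε * ((4 * Cj + 4) * Cj * h) ≤ 2 * ε * ‖a‖ :=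
      mul_le_mul_of_nonneg_left ha (by positivity)
    nlinarith
  · rw [h1]
    have h6 : (2 * Cj + 3) * ε * (-Cj) ≤ (2 * Cj + 3) * ε * cr v Hx :=
      mul_le_mul_of_nonneg_left (abs_le.1 hvH).1 (by positivity)
    have h7 := (abs_le.1 h5).1
    have h8 : (1 + 2 * Cj) * ε * ‖Hx‖ ≤ (1 + 2 * Cj) * ε * Cj :=
      mul_le_mul_of_nonneg_left hHC (by positivity)
    nlinarith

private theorem sde_gder {F G : Jet} (hF : F.Sm) (hG : G.Sm) {g0 : ℂ → ℝ}
    (hg0 : ∀ z, HasFDerivAt g0 (frr (cr (G.f z - F.f z) ((F.f1 z + G.f1 z) / 2))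
      (cr (G.f z - F.f z) ((F.f2 z + G.f2 z) / 2))) z) (l : ℂ) (c : ℝ) (z : ℂ) :
    HasFDerivAt (fun z => g0 z - cr l ((F.f z + G.f z) / 2) + c)
      (frr (cr (G.f z - F.f z - l) ((F.f1 z + G.f1 z) / 2))
        (cr (G.f z - F.f z - l) ((F.f2 z + G.f2 z) / 2))) z := by
  have hl : HasFDerivAt (fun _ : ℂ => l) (fr 0 0) z := by
    refine (hasFDerivAt_const l z).congr_fderiv ?_
    refine ContinuousLinearMap.ext fun v => ?_
    rw [fr_apply]
    simp
  have hH : HasFDerivAt (fun y => (F.f y + G.f y) / 2)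
      (fr ((F.f1 z + G.f1 z) / 2) ((F.f2 z + G.f2 z) / 2)) z := by
    have h1 := ((hF.d0 z).add (hG.d0 z)).mul_const (1 / 2 : ℂ)
    have h2 : (fun y => (F.f y + G.f y) / 2) = fun y => (F.f + G.f) y * (1 / 2) := by
      funext y
      show (F.f y + G.f y) / 2 = (F.f y + G.f y) * (1 / 2)
      ring
    rw [h2]
    refine h1.congr_fderiv ?_
    refine ContinuousLinearMap.ext fun v => ?_
    simp only [smul_apply, add_apply, fr_apply, smul_eq_mul]
    ring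
  have h1 := der_cr (f1 := fun _ => 0) (f2 := fun _ => 0)
    (g1 := fun z => (F.f1 z + G.f1 z) / 2) (g2 := fun z => (F.f2 z + G.f2 z) / 2) hl hH
  have h2 := ((hg0 z).sub h1).add_const c
  refine h2.congr_fderiv ?_
  refine ContinuousLinearMap.ext fun v => ?_
  simp only [sub_apply, frr_apply, cr, sub_re, sub_im, zero_re, zero_im]
  ring

theorem sd_ex (P : Prof) (Cj : ℝ) (h1 : 1 ≤ Cj) : ∃ K t0 : ℝ, 1 ≤ K ∧ 0 < t0 ∧
    ∀ (ε h t : ℝ) (N : ℕ) (F G : Jet), 0 < ε → 0 < h → t ≤ t0 → ε ≤ t * h → t * h ≤ Cj * ε →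
      h ≤ t → 2 ≤ N → F.Sm → G.Sm → F.Bd (SB h N) Cj → G.Bd (SB h N) Cj →
      (∀ z ∈ SB h N, ‖G.f1 z - F.f1 z‖ ≤ t ∧ ‖G.f2 z - F.f2 z‖ ≤ t) →
      ∃ (g0 : ℂ → ℝ) (lam : ℕ → ℂ) (c : ℕ → ℝ), ∀ (A : ℝ) (M : ℕ),
        (SD.mk F G P ε h A M N g0 lam c).Hyp K t := by
  have hPC := P.hC
  refine ⟨P.C + Cj + (12 * Cj + 4) + ((4 * Cj + 4) * Cj + 10 * (12 * Cj + 4) * Cj),
    1 / (8 * Cj ^ 2 * (Cj + 1)), by nlinarith, by positivity, ?_⟩
  intro ε h t N F G hε hh ht0 hεt htε hht hN hF hG hFb hGb hw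
  obtain ⟨g0, hg0⟩ := poinc hF hG
  have ht : 0 < t := lt_of_lt_of_le hh hht
  have hC0 : 0 < Cj := by linarith
  have ht00 : t * (8 * Cj ^ 2 * (Cj + 1)) ≤ 1 := (le_div_iff₀ (by positivity)).1 ht0
  have ht1 : t ≤ 1 := by
    have h2 : 1 ≤ 8 * Cj ^ 2 * (Cj + 1) := by nlinarith [sq_nonneg (Cj - 1)]
    nlinarith
  have hconv := sde_conv h N
  obtain ⟨p, hp⟩ : ∃ p : ℕ → ℂ, p = fun i : ℕ => (((i : ℝ) * h : ℝ) : ℂ) :=
    ⟨_, rfl⟩
  have hpre : ∀ i, (p i).re = i * h := fun i => by rw [hp]; exact ofReal_re _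
  have hpim : ∀ i, (p i).im = 0 := fun i => by rw [hp]; exact ofReal_im _
  obtain ⟨H1, hH1⟩ : ∃ H1 : ℂ → ℂ, H1 = fun z => (F.f1 z + G.f1 z) / 2 := ⟨_, rfl⟩
  obtain ⟨H2, hH2⟩ : ∃ H2 : ℂ → ℂ, H2 = fun z => (F.f2 z + G.f2 z) / 2 := ⟨_, rfl⟩
  obtain ⟨u, hu⟩ : ∃ u : ℂ → ℂ, u = fun z => G.f z - F.f z := ⟨_, rfl⟩
  choose v hv1 hv2 using fun i => sde_unit (H1 (p i))
  choose pick hpick1 hpick2 using fun (i : ℕ) (s : ℝ) =>
    LamE_near hε (u (p i) - ((s * ((2 * Cj + 3) * ε) : ℝ) : ℂ) * v i)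
  obtain ⟨gm, hgm⟩ : ∃ gm : ℂ × ℝ → ℂ → ℝ,
      gm = fun x z => g0 z - cr x.1 ((F.f z + G.f z) / 2) + x.2 := ⟨_, rfl⟩
  have hgder : ∀ (x : ℂ × ℝ) (z : ℂ), HasFDerivAt (gm x)
      (frr (cr (u z - x.1) (H1 z)) (cr (u z - x.1) (H2 z))) z := by
    intro x z
    rw [hgm, hu, hH1, hH2]
    exact sde_gder hF hG hg0 x.1 x.2 z
  have hlamex : ∀ (l : ℂ) (i : ℕ) (y : ℝ), ∃ c : ℝ, gm (l, c) (p i) = y := by
    intro l i y
    refine ⟨y - (g0 (p i) - cr l ((F.f (p i) + G.f (p i)) / 2)), ?_⟩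
    rw [hgm]
    simp
  choose cc hcc using hlamex
  obtain ⟨sgn, hsgn⟩ : ∃ sgn : ℝ → ℝ, (∀ y, sgn y = 1 ∨ sgn y = -1) ∧ ∀ y, 0 ≤ sgn y * y := by
    refine ⟨fun y => if 0 ≤ y then 1 else -1, fun y => ?_, fun y => ?_⟩
    · by_cases hy : 0 ≤ y
      · left
        simp [hy]
      · right
        simp [hy]
    · by_cases hy : 0 ≤ y
      · simp [hy]
      · simp only [hy, if_false]
        linarith
  obtain ⟨st, hst0, hst1⟩ : ∃ st : ℕ → ℂ × ℝ, (st 0 = (pick 0 1, cc (pick 0 1) 0 0)) ∧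
      ∀ i, st (i + 1) = (pick (i + 1) (sgn (gm (st i) (p (i + 1)))),
        cc (pick (i + 1) (sgn (gm (st i) (p (i + 1))))) (i + 1) (gm (st i) (p (i + 1)))) :=
    ⟨fun n => Nat.rec (pick 0 1, cc (pick 0 1) 0 0) (fun i x =>
      (pick (i + 1) (sgn (gm x (p (i + 1)))),
        cc (pick (i + 1) (sgn (gm x (p (i + 1))))) (i + 1) (gm x (p (i + 1))))) n, rfl,
      fun i => rfl⟩
  have hjoin : ∀ i, gm (st (i + 1)) (p (i + 1)) = gm (st i) (p (i + 1)) := by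
    intro i
    rw [hst1]
    exact hcc _ _ _
  have hprop : ∀ i, ∃ s : ℝ, (s = 1 ∨ s = -1) ∧ (st i).1 = pick i s ∧
      0 ≤ s * gm (st i) (p i) := by
    intro i
    rcases i with _ | i
    · refine ⟨1, Or.inl rfl, by rw [hst0], ?_⟩
      rw [hst0, hcc]
      simp
    · refine ⟨sgn (gm (st i) (p (i + 1))), hsgn.1 _, by rw [hst1], ?_⟩
      rw [hjoin]
      exact hsgn.2 _
  have hSB : ∀ i : ℕ, i ≤ N → ∀ x : ℝ, 0 ≤ x → x ≤ h → (((i : ℝ) * h + x : ℝ) : ℂ) ∈ SB h N := by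
    intro i hi x hx0 hx1
    have hi' : (i : ℝ) ≤ N := by exact_mod_cast hi
    have hi0 : (0 : ℝ) ≤ i := Nat.cast_nonneg i
    refine ⟨?_, ?_, ?_⟩
    · rw [ofReal_re]
      have := mul_nonneg hi0 hh.le
      linarith
    · rw [ofReal_re]
      have := mul_le_mul_of_nonneg_right hi' hh.le
      linarith
    · rw [ofReal_im, abs_zero]
      linarith
  have hpSB : ∀ i : ℕ, i ≤ N → p i ∈ SB h N := by
    intro i hi
    have := hSB i hi 0 le_rfl hh.le
    rw [add_zero] at this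
    rw [hp]
    exact this
  have hud : ∀ z, HasFDerivAt u (fr (G.f1 z - F.f1 z) (G.f2 z - F.f2 z)) z := by
    intro z
    rw [hu]
    exact der_sub (hG.d0 z) (hF.d0 z)
  have hulip : ∀ x ∈ SB h N, ∀ y ∈ SB h N, ‖u y - u x‖ ≤ 2 * t * ‖y - x‖ := fun x hx y hy =>
    sde_lip hconv (f1 := fun z => G.f1 z - F.f1 z) (f2 := fun z => G.f2 z - F.f2 z)
      (fun z _ => hud z) (fun z hz => (hw z hz).1) (fun z hz => (hw z hz).2) hx hy
  have hH1b : ∀ z ∈ SB h N, ‖H1 z‖ ≤ Cj := by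
    intro z hz
    have h2 := hFb.b1 z hz
    have h3 := hGb.b1 z hz
    rw [hH1]
    show ‖(F.f1 z + G.f1 z) / 2‖ ≤ Cj
    rw [norm_div, Complex.norm_two]
    have := norm_add_le (F.f1 z) (G.f1 z)
    linarith
  have hH2b : ∀ z ∈ SB h N, ‖H2 z‖ ≤ Cj := by
    intro z hz
    have h2 := hFb.b2 z hz
    have h3 := hGb.b2 z hz
    rw [hH2]
    show ‖(F.f2 z + G.f2 z) / 2‖ ≤ Cj
    rw [norm_div, Complex.norm_two]
    have := norm_add_le (F.f2 z) (G.f2 z)
    linarith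
  have hH1lip : ∀ x ∈ SB h N, ∀ y ∈ SB h N, ‖H1 y - H1 x‖ ≤ 2 * Cj * ‖y - x‖ := by
    intro x hx y hy
    have h2 := sde_lip hconv (fun z _ => hF.d1 z) hFb.b11 hFb.b12 hx hy
    have h3 := sde_lip hconv (fun z _ => hG.d1 z) hGb.b11 hGb.b12 hx hy
    have e : H1 y - H1 x = ((F.f1 y - F.f1 x) + (G.f1 y - G.f1 x)) / 2 := by
      rw [hH1]
      ring
    rw [e, norm_div, Complex.norm_two]
    have := norm_add_le (F.f1 y - F.f1 x) (G.f1 y - G.f1 x)
    linarith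
  have hH1lo : ∀ z ∈ SB h N, (4 * Cj + 4) * Cj * h ≤ ‖H1 z‖ := by
    intro z hz
    have e : cr (H1 z) (H2 z) = 1 - cr (G.f1 z - F.f1 z) (G.f2 z - F.f2 z) / 4 := by
      have e1 := hF.det z
      have e2 := hG.det z
      rw [hH1, hH2]
      simp only [cr, add_re, add_im, sub_re, sub_im, div_ofNat_re, div_ofNat_im] at *
      linear_combination (e1 + e2) / 2
    have h2 : cr (G.f1 z - F.f1 z) (G.f2 z - F.f2 z) ≤ 1 := by
      refine (le_abs_self _).trans ((cr_abs_le _ _).trans ?_)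
      obtain ⟨h3, h4⟩ := hw z hz
      calc ‖G.f1 z - F.f1 z‖ * ‖G.f2 z - F.f2 z‖ ≤ t * t :=
            mul_le_mul h3 h4 (norm_nonneg _) ht.le
        _ ≤ 1 := by nlinarith
    have h3 : cr (H1 z) (H2 z) ≤ ‖H1 z‖ * Cj :=
      (le_abs_self _).trans ((cr_abs_le _ _).trans
        (mul_le_mul_of_nonneg_left (hH2b z hz) (norm_nonneg _)))
    have h4 : 1 / 2 ≤ ‖H1 z‖ * Cj := by linarith
    have h5 : (4 * Cj + 4) * Cj * h * Cj ≤ 1 / 2 := by
      have h6 : 8 * Cj ^ 2 * (Cj + 1) * h ≤ 8 * Cj ^ 2 * (Cj + 1) * t :=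
        mul_le_mul_of_nonneg_left hht (by positivity)
      nlinarith
    exact le_of_mul_le_mul_right (h5.trans h4) hC0
  -- the displacement at the cores
  have hwp : ∀ i, ∀ s : ℝ, (st i).1 = pick i s →
      ‖u (p i) - (st i).1 - ((s * ((2 * Cj + 3) * ε) : ℝ) : ℂ) * v i‖ ≤ ε := by
    intro i s hs
    rw [hs]
    have h2 := hpick2 i s
    have e : u (p i) - pick i s - ((s * ((2 * Cj + 3) * ε) : ℝ) : ℂ) * v i =
      u (p i) - ((s * ((2 * Cj + 3) * ε) : ℝ) : ℂ) * v i - pick i s := by ring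
    rw [e]
    exact h2
  -- one step
  have hstep : ∀ i : ℕ, i ≤ N → |gm (st i) (p i)| ≤ (4 * Cj + 4) * Cj * ε * h →
      |gm (st i) (p (i + 1))| ≤ (4 * Cj + 4) * Cj * ε * h := by
    intro i hi hb
    obtain ⟨s, hs, hsp, hs0⟩ := hprop i
    obtain ⟨φ, hφ⟩ : ∃ φ : ℝ → ℝ, φ = fun x => gm (st i) (((i : ℝ) * h + x : ℝ) : ℂ) := ⟨_, rfl⟩
    have hφd : ∀ x : ℝ, HasDerivAt φ (cr (u (((i : ℝ) * h + x : ℝ) : ℂ) - (st i).1)
        (H1 (((i : ℝ) * h + x : ℝ) : ℂ))) x := by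
      intro x
      have h2 : HasDerivAt (fun x : ℝ => (((i : ℝ) * h + x : ℝ) : ℂ)) 1 x := by
        have h3 : HasDerivAt (fun x : ℝ => (i : ℝ) * h + x) 1 x :=
          (hasDerivAt_id x).const_add _
        exact h3.ofReal_comp
      have h3 := (hgder (st i) (((i : ℝ) * h + x : ℝ) : ℂ)).comp_hasDerivAt x h2
      rw [frr_apply] at h3
      simp only [one_re, one_im, mul_one, mul_zero, add_zero] at h3
      rw [hφ]
      exact h3
    obtain ⟨x, hx, hxe⟩ := exists_hasDerivAt_eq_slope φ _ hh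
      (fun x _ => (hφd x).continuousAt.continuousWithinAt) (fun x _ => hφd x)
    have hxm := hSB i hi x hx.1.le hx.2.le
    have hpm := hpSB i hi
    have hd : ‖(((i : ℝ) * h + x : ℝ) : ℂ) - p i‖ ≤ h := by
      have e : (((i : ℝ) * h + x : ℝ) : ℂ) - p i = (x : ℂ) := by
        rw [hp]
        push_cast
        ring
      rw [e, Complex.norm_real, Real.norm_of_nonneg hx.1.le]
      exact hx.2.le
    have hE : ‖u (((i : ℝ) * h + x : ℝ) : ℂ) - (st i).1 -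
        ((s * ((2 * Cj + 3) * ε) : ℝ) : ℂ) * v i‖ ≤ (1 + 2 * Cj) * ε := by
      have e : u (((i : ℝ) * h + x : ℝ) : ℂ) - (st i).1 -
          ((s * ((2 * Cj + 3) * ε) : ℝ) : ℂ) * v i =
          (u (p i) - (st i).1 - ((s * ((2 * Cj + 3) * ε) : ℝ) : ℂ) * v i) +
            (u (((i : ℝ) * h + x : ℝ) : ℂ) - u (p i)) := by ring
      rw [e]
      have h2 := hulip _ hpm _ hxm
      have h3 : 2 * t * ‖(((i : ℝ) * h + x : ℝ) : ℂ) - p i‖ ≤ 2 * t * h :=
        mul_le_mul_of_nonneg_left hd (by positivity)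
      have h4 := hwp i s hsp
      refine (norm_add_le _ _).trans ?_
      linarith
    have hHd : ‖H1 (((i : ℝ) * h + x : ℝ) : ℂ) - H1 (p i)‖ ≤ 2 * Cj * h :=
      (hH1lip _ hpm _ hxm).trans (mul_le_mul_of_nonneg_left hd (by positivity))
    obtain ⟨q1, q2⟩ := sde_pt h1 hε hs (hv1 i) (hv2 i) hE hHd (hH1b _ hxm) (hH1lo _ hpm)
    rw [hxe] at q1 q2
    have e0 : φ 0 = gm (st i) (p i) := by
      rw [hφ, hp]
      simp
    have e1 : φ h = gm (st i) (p (i + 1)) := by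
      rw [hφ, hp]
      show gm (st i) (((i : ℝ) * h + h : ℝ) : ℂ) = gm (st i) ((((i + 1 : ℕ) : ℝ) * h : ℝ) : ℂ)
      congr 2
      push_cast
      ring
    rw [sub_zero, e0, e1] at q1 q2
    have q1' : s * (gm (st i) (p (i + 1)) - gm (st i) (p i)) ≤ 0 := by
      have h2 : s * ((gm (st i) (p (i + 1)) - gm (st i) (p i)) / h) * h ≤ 0 * h :=
        mul_le_mul_of_nonneg_right q1 hh.le
      have h3 : s * ((gm (st i) (p (i + 1)) - gm (st i) (p i)) / h) * h =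
        s * (gm (st i) (p (i + 1)) - gm (st i) (p i)) := by
        field_simp
      linarith
    have q2' : -((4 * Cj + 4) * Cj * ε * h) ≤ s * (gm (st i) (p (i + 1)) - gm (st i) (p i)) := by
      have h2 : -((4 * Cj + 4) * Cj * ε) * h ≤
          s * ((gm (st i) (p (i + 1)) - gm (st i) (p i)) / h) * h :=
        mul_le_mul_of_nonneg_right q2 hh.le
      have h3 : s * ((gm (st i) (p (i + 1)) - gm (st i) (p i)) / h) * h =
        s * (gm (st i) (p (i + 1)) - gm (st i) (p i)) := by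
        field_simp
      linarith
    have hb' := abs_le.1 hb
    rw [abs_le]
    rcases hs with rfl | rfl
    · constructor <;> linarith [hb'.1, hb'.2]
    · constructor <;> linarith [hb'.1, hb'.2]
  have hG0 : 0 ≤ (4 * Cj + 4) * Cj * ε * h := by positivity
  have hcore : ∀ i : ℕ, i ≤ N → |gm (st i) (p i)| ≤ (4 * Cj + 4) * Cj * ε * h := by
    intro i
    induction i with
    | zero =>
      intro _
      rw [hst0, hcc, abs_zero]
      exact hG0
    | succ i ih =>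
      intro hi
      rw [hjoin]
      exact hstep i (by omega) (ih (by omega))
  -- the regions
  have hreg : ∀ i : ℕ, ∀ z ∈ SB h N, |z.re - i * h| ≤ 3 * h → ‖z - p i‖ ≤ 5 * h := by
    intro i z hz hz3
    have h2 := Complex.norm_le_abs_re_add_abs_im (z - p i)
    rw [sub_re, sub_im, hpre, hpim, sub_zero] at h2
    have h3 : |z.im| ≤ 2 * h := hz.2.2
    linarith
  have hwb : ∀ i < N, ∀ z ∈ SB h N, |z.re - i * h| ≤ 3 * h →
      ‖u z - (st i).1‖ ≤ (12 * Cj + 4) * ε := by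
    intro i hi z hz hz3
    obtain ⟨s, hs, hsp, hs0⟩ := hprop i
    have h2 := hwp i s hsp
    have h3 := hulip _ (hpSB i hi.le) _ hz
    have h4 : 2 * t * ‖z - p i‖ ≤ 2 * t * (5 * h) :=
      mul_le_mul_of_nonneg_left (hreg i z hz hz3) (by positivity)
    have h5 : ‖((s * ((2 * Cj + 3) * ε) : ℝ) : ℂ) * v i‖ ≤ (2 * Cj + 3) * ε := by
      have has : |s| = 1 := by rcases hs with h | h <;> rw [h] <;> norm_num
      rw [norm_mul, Complex.norm_real, Real.norm_eq_abs, abs_mul, has, one_mul,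
        abs_of_nonneg (by positivity : 0 ≤ (2 * Cj + 3) * ε)]
      have := mul_le_mul_of_nonneg_left (hv1 i) (by positivity : 0 ≤ (2 * Cj + 3) * ε)
      linarith
    have e : u z - (st i).1 = (u (p i) - (st i).1 - ((s * ((2 * Cj + 3) * ε) : ℝ) : ℂ) * v i) +
        ((s * ((2 * Cj + 3) * ε) : ℝ) : ℂ) * v i + (u z - u (p i)) := by ring
    rw [e]
    refine (norm_add₃_le).trans ?_
    linarith
  have hgb : ∀ i < N, ∀ z ∈ SB h N, |z.re - i * h| ≤ 3 * h →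
      |gm (st i) z| ≤ ((4 * Cj + 4) * Cj + 10 * (12 * Cj + 4) * Cj) * ε * h := by
    intro i hi z hz hz3
    have hB : Convex ℝ (SB h N ∩ {z : ℂ | |z.re - i * h| ≤ 3 * h}) := by
      have e : {z : ℂ | |z.re - i * h| ≤ 3 * h} =
          {z : ℂ | i * h - 3 * h ≤ z.re} ∩ {z : ℂ | z.re ≤ i * h + 3 * h} := by
        ext y
        constructor
        · intro hy
          have hy' := abs_le.1 (show |y.re - i * h| ≤ 3 * h from hy)
          exact ⟨by show i * h - 3 * h ≤ y.re; linarith [hy'.1],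
            by show y.re ≤ i * h + 3 * h; linarith [hy'.2]⟩
        · rintro ⟨hy1, hy2⟩
          have hy1' : i * h - 3 * h ≤ y.re := hy1
          have hy2' : y.re ≤ i * h + 3 * h := hy2
          show |y.re - i * h| ≤ 3 * h
          rw [abs_le]
          constructor <;> linarith
      rw [e]
      exact hconv.inter ((convex_halfSpace_re_ge _).inter (convex_halfSpace_re_le _))
    have hpB : p i ∈ SB h N ∩ {z : ℂ | |z.re - i * h| ≤ 3 * h} := by
      refine ⟨hpSB i hi.le, ?_⟩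
      show |(p i).re - i * h| ≤ 3 * h
      rw [hpre, sub_self, abs_zero]
      positivity
    have h2 := sde_lipr hB (f := gm (st i)) (L := (12 * Cj + 4) * ε * Cj)
      (f1 := fun z => cr (u z - (st i).1) (H1 z)) (f2 := fun z => cr (u z - (st i).1) (H2 z))
      (fun z _ => hgder (st i) z)
      (fun z hz => (cr_abs_le _ _).trans (mul_le_mul (hwb i hi z hz.1 hz.2) (hH1b z hz.1)
        (norm_nonneg _) (by positivity)))
      (fun z hz => (cr_abs_le _ _).trans (mul_le_mul (hwb i hi z hz.1 hz.2) (hH2b z hz.1)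
        (norm_nonneg _) (by positivity))) hpB ⟨hz, hz3⟩
    have h3 : 2 * ((12 * Cj + 4) * ε * Cj) * ‖z - p i‖ ≤ 2 * ((12 * Cj + 4) * ε * Cj) * (5 * h) :=
      mul_le_mul_of_nonneg_left (hreg i z hz hz3) (by positivity)
    have h4 := hcore i hi.le
    have h5 : |gm (st i) z| ≤ |gm (st i) z - gm (st i) (p i)| + |gm (st i) (p i)| := by
      have := abs_add_le (gm (st i) z - gm (st i) (p i)) (gm (st i) (p i))
      rwa [sub_add_cancel] at this
    calc |gm (st i) z| ≤ 2 * ((12 * Cj + 4) * ε * Cj) * (5 * h) +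
          (4 * Cj + 4) * Cj * ε * h := by linarith
      _ = _ := by ring
  have hKC : Cj ≤ P.C + Cj + (12 * Cj + 4) + ((4 * Cj + 4) * Cj + 10 * (12 * Cj + 4) * Cj) := by
    have : 0 ≤ (4 * Cj + 4) * Cj + 10 * (12 * Cj + 4) * Cj := by positivity
    linarith
  have hKP : P.C ≤ P.C + Cj + (12 * Cj + 4) + ((4 * Cj + 4) * Cj + 10 * (12 * Cj + 4) * Cj) := by
    have : 0 ≤ (4 * Cj + 4) * Cj + 10 * (12 * Cj + 4) * Cj := by positivity
    linarith
  have hK1 : 12 * Cj + 4 ≤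
      P.C + Cj + (12 * Cj + 4) + ((4 * Cj + 4) * Cj + 10 * (12 * Cj + 4) * Cj) := by
    have : 0 ≤ (4 * Cj + 4) * Cj + 10 * (12 * Cj + 4) * Cj := by positivity
    linarith
  have hK2 : (4 * Cj + 4) * Cj + 10 * (12 * Cj + 4) * Cj ≤
      P.C + Cj + (12 * Cj + 4) + ((4 * Cj + 4) * Cj + 10 * (12 * Cj + 4) * Cj) := by
    linarith
  have hK0 : 1 ≤ P.C + Cj + (12 * Cj + 4) + ((4 * Cj + 4) * Cj + 10 * (12 * Cj + 4) * Cj) := by
    linarith
  obtain ⟨K, hK⟩ : ∃ K : ℝ, K = P.C + Cj + (12 * Cj + 4) +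
    ((4 * Cj + 4) * Cj + 10 * (12 * Cj + 4) * Cj) := ⟨_, rfl⟩
  rw [← hK] at hKC hKP hK1 hK2 hK0 ⊢
  refine ⟨g0, fun i => (st i).1, fun i => (st i).2, fun A M => ?_⟩
  have hgme : ∀ (i : ℕ) (z : ℂ),
      (SD.mk F G P ε h A M N g0 (fun i => (st i).1) fun i => (st i).2).gam i z =
        gm (st i) z := by
    intro i z
    rw [hgm]
    rfl
  have hpe : ∀ i : ℕ, (SD.mk F G P ε h A M N g0 (fun i => (st i).1) fun i => (st i).2).p i =
      p i := by
    intro i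
    rw [hp]
    rfl
  exact {
    hK := hK0
    e0 := hε
    h0 := hh
    t1 := ht1
    eh := hεt
    he := htε.trans (mul_le_mul_of_nonneg_right hKC hε.le)
    ht := hht
    N2 := hN
    F := hF
    G := hG
    Fb := {
      b1 := fun z hz => (hFb.b1 z hz).trans hKC
      b2 := fun z hz => (hFb.b2 z hz).trans hKC
      b11 := fun z hz => (hFb.b11 z hz).trans hKC
      b12 := fun z hz => (hFb.b12 z hz).trans hKC
      b22 := fun z hz => (hFb.b22 z hz).trans hKC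
      l11 := fun z hz z' hz' => (hFb.l11 z hz z' hz').trans
        (mul_le_mul_of_nonneg_right hKC (norm_nonneg _))
      l12 := fun z hz z' hz' => (hFb.l12 z hz z' hz').trans
        (mul_le_mul_of_nonneg_right hKC (norm_nonneg _))
      l22 := fun z hz z' hz' => (hFb.l22 z hz z' hz').trans
        (mul_le_mul_of_nonneg_right hKC (norm_nonneg _)) }
    Gb := {
      b1 := fun z hz => (hGb.b1 z hz).trans hKC
      b2 := fun z hz => (hGb.b2 z hz).trans hKC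
      b11 := fun z hz => (hGb.b11 z hz).trans hKC
      b12 := fun z hz => (hGb.b12 z hz).trans hKC
      b22 := fun z hz => (hGb.b22 z hz).trans hKC
      l11 := fun z hz z' hz' => (hGb.l11 z hz z' hz').trans
        (mul_le_mul_of_nonneg_right hKC (norm_nonneg _))
      l12 := fun z hz z' hz' => (hGb.l12 z hz z' hz').trans
        (mul_le_mul_of_nonneg_right hKC (norm_nonneg _))
      l22 := fun z hz z' hz' => (hGb.l22 z hz z' hz').trans
        (mul_le_mul_of_nonneg_right hKC (norm_nonneg _)) }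
    d1 := fun z hz => (hw z hz).1
    d2 := fun z hz => (hw z hz).2
    PC := hKP
    g0 := hg0
    lam := fun i => by
      obtain ⟨s, hs, hsp, hs0⟩ := hprop i
      show (st i).1 ∈ LamE ε
      rw [hsp]
      exact hpick1 i s
    wb := fun i hi z hz hz3 => by
      have h2 := hwb i hi z hz hz3
      have h3 : ‖(SD.mk F G P ε h A M N g0 (fun i => (st i).1) fun i => (st i).2).w i z‖ =
          ‖u z - (st i).1‖ := by
        rw [hu]
        rfl
      rw [h3]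
      exact h2.trans (mul_le_mul_of_nonneg_right hK1 hε.le)
    gb := fun i hi z hz hz3 => by
      rw [hgme]
      refine (hgb i hi z hz hz3).trans ?_
      exact mul_le_mul_of_nonneg_right (mul_le_mul_of_nonneg_right hK2 hε.le) hh.le
    join := fun i hi hiN => by
      rw [hgme, hgme, hpe]
      obtain ⟨j, rfl⟩ : ∃ j, i = j + 1 := ⟨i - 1, by omega⟩
      rw [Nat.add_sub_cancel]
      exact hjoin j }

end Pool.Agent.CAPV
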