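import Pool.Agent.Lib.MP_488b8a_co_V.RDef

/-! Project SO (MP_488b8a_co), module Sid: the strip along a side of a cell. -/

namespace Pool.Agent.CAPV

open Complex

private theorem Sid_norm {ω : ℂ} (h : Qr ω) : ‖ω‖ = 1 := by
  rcases h with rfl | rfl | rfl | rfl
  · exact norm_one
  · rw [norm_neg, norm_one]
  · exact norm_I
  · rw [norm_neg, norm_I]

private theorem Sid_ri {ω : ℂ} (h : Qr ω) : |ω.re| + |ω.im| = 1 := by
  rcases h with rfl | rfl | rfl | rfl <;> simp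

private theorem Sid_mx {ω : ℂ} (h : Qr ω) (v : ℂ) : mx (ω * v) = mx v := by
  unfold mx
  rcases h with rfl | rfl | rfl | rfl
  · rw [one_mul]
  · simp
  · simp [max_comm]
  · simp [max_comm]

private theorem Sid_th {t : ℝ} (h0 : 0 < t) (h1 : t ≤ 1) : 0 ≤ th t := by
  unfold th
  have h2 : 0 ≤ Real.log (1 / t) := Real.log_nonneg (by rw [le_div_iff₀ h0]; linarith)
  positivity

private theorem Sid_eh (ε h : ℝ) (z q : ℂ) : 0 ≤ eh ε h z q := by
  unfold eh
  split_ifs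
  · positivity
  · exact le_rfl

private theorem Sid_eh_eq (ε h : ℝ) {z q z' q' : ℂ} (hd : ‖z - q‖ = ‖z' - q'‖) :
    eh ε h z q = eh ε h z' q' := by
  unfold eh
  rw [hd]

private theorem Sid_mono {F : Jet} {B B' : Set ℂ} {C : ℝ} (hb : F.Bd B C) (hB : B' ⊆ B) :
    F.Bd B' C :=
  ⟨fun y hy => hb.b1 y (hB hy), fun y hy => hb.b2 y (hB hy), fun y hy => hb.b11 y (hB hy),
    fun y hy => hb.b12 y (hB hy), fun y hy => hb.b22 y (hB hy),
    fun y hy y' hy' => hb.l11 y (hB hy) y' (hB hy'),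
    fun y hy y' hy' => hb.l12 y (hB hy) y' (hB hy'),
    fun y hy y' hy' => hb.l22 y (hB hy) y' (hB hy')⟩

private theorem Sid_diff {x y : ℂ} {t : ℝ} {c1 c2 : ℝ} (hc : |c1| + |c2| = 1)
    (hx : ‖x‖ ≤ t) (hy : ‖y‖ ≤ t) : ‖(c1 : ℂ) * x + (c2 : ℂ) * y‖ ≤ t := by
  have e1 : ‖(c1 : ℂ) * x‖ ≤ |c1| * t := by
    rw [norm_mul, norm_real, Real.norm_eq_abs]
    exact mul_le_mul_of_nonneg_left hx (abs_nonneg _)
  have e2 : ‖(c2 : ℂ) * y‖ ≤ |c2| * t := by
    rw [norm_mul, norm_real, Real.norm_eq_abs]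
    exact mul_le_mul_of_nonneg_left hy (abs_nonneg _)
  refine (norm_add_le _ _).trans ?_
  calc ‖(c1 : ℂ) * x‖ + ‖(c2 : ℂ) * y‖ ≤ (|c1| + |c2|) * t := by linarith
    _ = t := by rw [hc, one_mul]

theorem side (P : Prof) (Cj CR : ℝ) (h1 : 1 ≤ Cj) (h2 : 1 ≤ CR) : ∃ C C0 t0 : ℝ, 1 ≤ C ∧
    1000 ≤ C0 ∧ 0 < t0 ∧ ∀ (ε h t a : ℝ) (N : ℕ) (c : ℂ) (F G : Jet), 0 < ε → 0 < h → t ≤ t0 →
      ε ≤ t * h → t * h ≤ Cj * ε → h ≤ t → 2 ≤ N → 2 * (a - 2 * h) = N * h → a ≤ 1 / 4 →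
      F.Sm → G.Sm → F.Bd (Metric.closedBall c 1) Cj → G.Bd (Metric.closedBall c 1) Cj →
      (∀ z, mx (z - c) ≤ 2 * a → ‖G.f1 z - F.f1 z‖ ≤ t ∧ ‖G.f2 z - F.f2 z‖ ≤ t) →
      1000 * ε ≤ h ∧ ∀ ω : ℂ, Qr ω → ∃ V : ℂ → ℂ,
        (∀ z : ℂ, (sgm c ω z).im ≤ -(a - 5 / 4 * h) → V z = F.f z) ∧
        (∀ z : ℂ, -(a - 7 / 4 * h) ≤ (sgm c ω z).im → V z - G.f z ∈ LamE ε) ∧
        ∀ z : ℂ, |(sgm c ω z).re| ≤ a - 2 * h → |(sgm c ω z).im + (a - 3 / 2 * h)| ≤ 5 / 4 * h →
          (∀ i : ℕ, 1 ≤ i → i < N → C0 * ε ≤ ‖z - kor a h c ω i‖) →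
          NearS ε (2 * CR) (C * th t)
            (C * (th t + ∑ i ∈ Finset.Ico 1 N, eh ε h z (kor a h c ω i))) V z (F.f1 z) (F.f2 z) := by
  obtain ⟨C, C0, t0, hC, hC0, ht0, hst⟩ := strip P (4 * Cj) (8 * CR) (by linarith) (by linarith)
  refine ⟨8 * C, C0, min t0 1, by linarith, hC0, lt_min ht0 one_pos, ?_⟩
  intro ε h t a N c F G hε hh ht hεt hte hht hN ha ha4 hF hG hFb hGb hd
  obtain ⟨htt, ht1⟩ := le_min_iff.1 ht
  have htp : 0 < t := hh.trans_le hht
  have hth0 : 0 ≤ th t := Sid_th htp ht1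
  have hN2 : (2 : ℝ) ≤ (N : ℝ) := by exact_mod_cast hN
  have ha3 : 3 * h ≤ a := by nlinarith
  have key : ∀ ω : ℂ, Qr ω → 1000 * ε ≤ h ∧ ∃ V : ℂ → ℂ,
        (∀ z : ℂ, (sgm c ω z).im ≤ -(a - 5 / 4 * h) → V z = F.f z) ∧
        (∀ z : ℂ, -(a - 7 / 4 * h) ≤ (sgm c ω z).im → V z - G.f z ∈ LamE ε) ∧
        ∀ z : ℂ, |(sgm c ω z).re| ≤ a - 2 * h → |(sgm c ω z).im + (a - 3 / 2 * h)| ≤ 5 / 4 * h →
          (∀ i : ℕ, 1 ≤ i → i < N → C0 * ε ≤ ‖z - kor a h c ω i‖) →
          NearS ε (2 * CR) (8 * C * th t)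
            (8 * C * (th t + ∑ i ∈ Finset.Ico 1 N, eh ε h z (kor a h c ω i))) V z (F.f1 z)
            (F.f2 z) := by
    intro ω hω
    have hn := Sid_norm hω
    have hri := Sid_ri hω
    have hcc : (starRingEnd ℂ) ω * ω = 1 := by
      rw [mul_comm, mul_conj, normSq_eq_norm_sq, hn]
      norm_num
    obtain ⟨b, hb⟩ : ∃ b : ℂ, b = ⟨a - 2 * h, a - 3 / 2 * h⟩ := ⟨_, rfl⟩
    have hbr : b.re = a - 2 * h := by rw [hb]
    have hbi : b.im = a - 3 / 2 * h := by rw [hb]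
    obtain ⟨z0, hz0⟩ : ∃ z0 : ℂ, z0 = c - ω * b := ⟨_, rfl⟩
    -- the strip in the coordinates of the cell
    have hu : ∀ w : ℂ, z0 + ω * w - c = ω * (w - b) := by
      intro w
      rw [hz0]
      ring
    have hre : ∀ w ∈ SB h N, |(w - b).re| ≤ a - h := by
      intro w hw
      obtain ⟨w1, w2, w3⟩ := hw
      rw [sub_re, hbr, abs_le]
      constructor
      · linarith
      · nlinarith
    have him : ∀ w ∈ SB h N, |(w - b).im| ≤ a + h / 2 := by
      intro w hw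
      obtain ⟨w1, w2, w3⟩ := hw
      rw [abs_le] at w3
      rw [sub_im, hbi, abs_le]
      constructor
      · linarith [w3.1]
      · linarith [w3.2]
    have hmx : ∀ w ∈ SB h N, mx (z0 + ω * w - c) ≤ 2 * a := by
      intro w hw
      rw [hu, Sid_mx hω]
      unfold mx
      exact max_le (by linarith [hre w hw]) (by linarith [him w hw])
    have hball : ∀ w ∈ SB h N, z0 + ω * w ∈ Metric.closedBall c 1 := by
      intro w hw
      rw [mem_closedBall_iff_norm, hu, norm_mul, hn, one_mul]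
      have k1 := norm_le_abs_re_add_abs_im (w - b)
      linarith [hre w hw, him w hw]
    obtain ⟨h1000, Us, hU1, hU2, hU3⟩ := hst ε h t N (F.rot ω z0) (G.rot ω z0) hε hh htt hεt
      (by nlinarith) hht hN (rot_sm hF hn z0) (rot_sm hG hn z0)
      (Sid_mono (rot_bd hFb (by linarith) hn z0) (fun w hw => hball w hw))
      (Sid_mono (rot_bd hGb (by linarith) hn z0) (fun w hw => hball w hw))
      (fun w hw => by
        obtain ⟨k1, k2⟩ := hd (z0 + ω * w) (hmx w hw)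
        constructor
        · refine (le_of_eq ?_).trans (Sid_diff hri k1 k2)
          congr 1
          simp only [Jet.rot]
          ring
        · have hri' : |-ω.im| + |ω.re| = 1 := by rw [abs_neg, add_comm]; exact hri
          refine (le_of_eq ?_).trans (Sid_diff hri' k1 k2)
          congr 1
          simp only [Jet.rot]
          push_cast
          ring)
    have hw : ∀ z : ℂ, (starRingEnd ℂ) ω * (z - z0) = sgm c ω z + b := by
      intro z
      rw [hz0]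
      unfold sgm
      linear_combination b * hcc
    have hback : ∀ z : ℂ, z0 + ω * ((starRingEnd ℂ) ω * (z - z0)) = z := by
      intro z
      linear_combination (z - z0) * hcc
    refine ⟨h1000, fun z => Us ((starRingEnd ℂ) ω * (z - z0)), ?_, ?_, ?_⟩
    · intro z hz
      have k1 := hU1 ((starRingEnd ℂ) ω * (z - z0)) (by
        rw [hw, add_im, hbi]
        linarith)
      change Us ((starRingEnd ℂ) ω * (z - z0)) = F.f z
      rw [k1]
      change F.f (z0 + ω * ((starRingEnd ℂ) ω * (z - z0))) = F.f z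
      rw [hback]
    · intro z hz
      have k1 := hU2 ((starRingEnd ℂ) ω * (z - z0)) (by
        rw [hw, add_im, hbi]
        linarith)
      change Us ((starRingEnd ℂ) ω * (z - z0)) -
        G.f (z0 + ω * ((starRingEnd ℂ) ω * (z - z0))) ∈ LamE ε at k1
      rw [hback] at k1
      exact k1
    · intro z hzr hzi hfar
      have hdist : ∀ i : ℕ, ‖(starRingEnd ℂ) ω * (z - z0) - (((i : ℝ) * h : ℝ) : ℂ)‖ =
          ‖z - kor a h c ω i‖ := by
        intro i
        have k1 : z - kor a h c ω i =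
            ω * ((starRingEnd ℂ) ω * (z - z0) - (((i : ℝ) * h : ℝ) : ℂ)) := by
          have k2 : (⟨(i : ℝ) * h - (a - 2 * h), -(a - 3 / 2 * h)⟩ : ℂ) =
              (((i : ℝ) * h : ℝ) : ℂ) - b := by
            apply Complex.ext
            · rw [sub_re, ofReal_re, hbr]
            · rw [sub_im, ofReal_im, hbi, zero_sub]
          unfold kor
          rw [k2]
          have k3 := hback z
          rw [hz0] at k3 ⊢
          linear_combination -k3
        rw [k1, norm_mul, hn, one_mul]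
      have k1 := hU3 ((starRingEnd ℂ) ω * (z - z0)) (by
          rw [hw, add_re, hbr]
          linarith [(abs_le.1 hzr).1]) (by
          rw [hw, add_re, hbr, ← ha]
          linarith [(abs_le.1 hzr).2]) (by
          rw [hw, add_im, hbi]
          exact hzi) (fun i hi hiN => by
          rw [hdist]
          exact hfar i hi hiN)
      have k2 : ∑ i ∈ Finset.Ico 1 N, eh ε h ((starRingEnd ℂ) ω * (z - z0))
          (((i : ℝ) * h : ℝ) : ℂ) = ∑ i ∈ Finset.Ico 1 N, eh ε h z (kor a h c ω i) :=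
        Finset.sum_congr rfl fun i _ => Sid_eh_eq ε h (hdist i)
      rw [k2] at k1
      have hsum : 0 ≤ ∑ i ∈ Finset.Ico 1 N, eh ε h z (kor a h c ω i) :=
        Finset.sum_nonneg fun i _ => Sid_eh _ _ _ _
      have hC' : 0 ≤ C := by linarith
      have k3 := near_rot hn (by linarith) (mul_nonneg hC' hth0)
        (mul_nonneg hC' (add_nonneg hth0 hsum)) hε k1
      rw [hback] at k3
      have k4 : 8 * CR / 4 = 2 * CR := by ring
      rw [k4] at k3
      refine near_congr k3 ?_ ?_ (fun y _ => ?_)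
      · nlinarith [mul_nonneg hC' hth0]
      · nlinarith [mul_nonneg hC' hth0, mul_nonneg hC' hsum]
      · rw [sub_self]
        exact LamE_zero ε
  exact ⟨(key 1 (Or.inl rfl)).1, fun ω hω => (key ω hω).2⟩

end Pool.Agent.CAPV
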