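import Pool.Agent.Lib.MP_488b8a_co_V.PlD
import Pool.Agent.Lib.MP_488b8a_co_V.LamL

/-! Project SO (MP_488b8a_co), module Stp: the dislocation field past the core and near the line of
the core. -/

namespace Pool.Agent.CAPV

open Complex

variable {S : SD} {K t : ℝ}

private theorem Stp_re (S : SD) (i : ℕ) (z : ℂ) :
    ((z - S.p i) / (S.h : ℂ)).re = (z.re - i * S.h) / S.h := by
  rw [div_ofReal_re, sub_re, SD.p, ofReal_re]

private theorem Stp_im (S : SD) (i : ℕ) (z : ℂ) :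
    ((z - S.p i) / (S.h : ℂ)).im = z.im / S.h := by
  rw [div_ofReal_im, sub_im, SD.p, ofReal_im, sub_zero]

/-- past the transition zone the dislocation field is the step to the next box -/
theorem SD.Hyp.step (hS : S.Hyp K t) {i : ℕ} (h1 : 1 ≤ i) (h2 : i < S.N) {z : ℂ}
    (hz : i * S.h + 3 / 8 * S.h ≤ z.re) : S.pl (i - 1) z - S.df i z = S.pl i z := by
  have hh := hS.h0
  have hu : 3 / 8 ≤ ((z - S.p i) / (S.h : ℂ)).re := by
    rw [Stp_re, le_div_iff₀ hh]
    linarith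
  obtain ⟨r0, r1, r2⟩ := S.P.r _ hu
  rw [Stp_im] at r0 r2
  have hT0 : S.T0 i z = S.X0 z := r0
  have hT1 : S.T1 i z = 0 := by
    rw [SD.T1, r1, zero_div]
  have hT2 : S.T2 i z = S.X1 z := by
    rw [SD.T2, r2, SD.X1]
  have hw : S.w (i - 1) z - S.w i z = S.b i := by
    simp only [SD.w, SD.b]
    ring
  have hj := hS.join i h1 h2
  have hg : S.gam (i - 1) z - S.gam i z = S.bet i z := by
    simp only [SD.gam, SD.bet, SD.b, cr, sub_re, sub_im] at hj ⊢
    linear_combination -hj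
  have hg' : ((S.gam (i - 1) z : ℝ) : ℂ) - ((S.gam i z : ℝ) : ℂ) = ((S.bet i z : ℝ) : ℂ) := by
    rw [← hg]
    push_cast
    ring
  rw [SD.df, hT0, hT1, hT2, SD.pl, SD.pl]
  push_cast
  linear_combination (S.X0 z : ℂ) * hw + (S.X1 z : ℂ) * S.F.f1 z * hg'

/-- near the line of the core the dislocation field is constant -/
theorem SD.Hyp.cut (hS : S.Hyp K t) {i : ℕ} {z : ℂ} (h1 : i * S.h < z.re)
    (h2 : z.re - i * S.h < |z.im|) : S.df i z ∈ LamE S.ε := by
  have hh := hS.h0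
  have hu : 0 < ((z - S.p i) / (S.h : ℂ)).re := by
    rw [Stp_re]
    exact div_pos (by linarith) hh
  rcases le_total 0 z.im with h3 | h3
  · rw [abs_of_nonneg h3] at h2
    have hv : ((z - S.p i) / (S.h : ℂ)).re < ((z - S.p i) / (S.h : ℂ)).im := by
      rw [Stp_re, Stp_im]
      exact (div_lt_div_iff_of_pos_right hh).2 h2
    obtain ⟨r0, r1, r2⟩ := S.P.c1 _ hu hv
    have h4 : S.df i z = S.b i := by
      rw [SD.df, SD.T0, SD.T1, SD.T2, r0, r1, r2]
      simp
    rw [h4]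
    exact LamE_sub (hS.lam i) (hS.lam (i - 1))
  · rw [abs_of_nonpos h3] at h2
    have hv : ((z - S.p i) / (S.h : ℂ)).re < -((z - S.p i) / (S.h : ℂ)).im := by
      rw [Stp_re, Stp_im, ← neg_div]
      exact (div_lt_div_iff_of_pos_right hh).2 h2
    obtain ⟨r0, r1, r2⟩ := S.P.c0 _ hu hv
    have h4 : S.df i z = 0 := by
      rw [SD.df, SD.T0, SD.T1, SD.T2, r0, r1, r2]
      simp
    rw [h4]
    exact LamE_zero _

end Pool.Agent.CAPV
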