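import Pool.Agent.Lib.MP_488b8a_co_V.SdE
import Pool.Agent.Lib.MP_488b8a_co_V.Mod
import Pool.Agent.Lib.MP_488b8a_co_V.ModE
import Pool.Agent.Lib.MP_488b8a_co_V.Pnt
import Pool.Agent.Lib.MP_488b8a_co_V.Pla

/-! Project SO (MP_488b8a_co), module Str: the strip. -/

namespace Pool.Agent.CAPV

open Complex

/-- energy of a core of radius `h` -/
noncomputable def eh (ε h : ℝ) (z q : ℂ) : ℝ := by
  classical
  exact if ‖z - q‖ ≤ h then (ε / ‖z - q‖) ^ 2 else 0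

private theorem Str_mono {ε CR a e a' e' : ℝ} {U : ℂ → ℂ} {z F1 F2 : ℂ}
    (h : NearS ε CR a e U z F1 F2) (ha : a ≤ a') (he : e ≤ e') :
    NearS ε CR a' e' U z F1 F2 := by
  obtain ⟨V, V1, V2, β, L, h1, h2, h3, h4, h5, h6, h7, h8, h9⟩ := h
  exact ⟨V, V1, V2, β, L, h1, h2, h3, h4, h5, by linarith, by linarith, h8, h9⟩

private theorem Str_th {t : ℝ} (h0 : 0 < t) (h1 : t ≤ 1) : t ^ 2 ≤ th t := by
  unfold th
  have h2 : 0 ≤ Real.log (1 / t) := Real.log_nonneg (by rw [le_div_iff₀ h0]; linarith)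
  nlinarith [sq_nonneg t]

private theorem Str_eh (ε h : ℝ) (z q : ℂ) : 0 ≤ eh ε h z q := by
  unfold eh
  split_ifs
  · positivity
  · exact le_rfl

private theorem Str_M {R : ℝ} (hR : 1 ≤ R) : ∃ M : ℕ, 1 ≤ M ∧ R / 10 ≤ CAPU.Dm M ∧
    CAPU.Dm M ≤ R := by
  have h3 : 0 < Real.sqrt 3 := by positivity
  have h3' : Real.sqrt 3 ≤ 2 := by
    rw [Real.sqrt_le_left (by norm_num)]
    norm_num
  have hx : 0 ≤ 8 * R / Real.sqrt 3 := by positivity
  have h4 : 4 ≤ 8 * R / Real.sqrt 3 := by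
    rw [le_div_iff₀ h3]
    nlinarith
  refine ⟨⌊8 * R / Real.sqrt 3 + 1 / 2⌋₊, ?_, ?_, ?_⟩
  · exact Nat.le_floor (by push_cast; linarith)
  · have h5 := Nat.lt_floor_add_one (8 * R / Real.sqrt 3 + 1 / 2)
    have h6 : 8 * R / Real.sqrt 3 - 1 ≤ ((⌊8 * R / Real.sqrt 3 + 1 / 2⌋₊ : ℕ) : ℝ) - 1 / 2 := by
      linarith
    have h7 : Real.sqrt 3 * (8 * R / Real.sqrt 3 - 1) = 8 * R - Real.sqrt 3 := by
      field_simp
    unfold CAPU.Dm
    have h8 := mul_le_mul_of_nonneg_left h6 h3.le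
    rw [h7] at h8
    linarith
  · have h5 := Nat.floor_le (by linarith : 0 ≤ 8 * R / Real.sqrt 3 + 1 / 2)
    have h6 : ((⌊8 * R / Real.sqrt 3 + 1 / 2⌋₊ : ℕ) : ℝ) - 1 / 2 ≤ 8 * R / Real.sqrt 3 := by
      linarith
    have h7 : Real.sqrt 3 * (8 * R / Real.sqrt 3) = 8 * R := by
      field_simp
    unfold CAPU.Dm
    have h8 := mul_le_mul_of_nonneg_left h6 h3.le
    rw [h7] at h8
    linarith

theorem strip (P : Prof) (Cj CR : ℝ) (h1 : 1 ≤ Cj) (h2 : 1 ≤ CR) : ∃ C C0 t0 : ℝ, 1 ≤ C ∧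
    1000 ≤ C0 ∧ 0 < t0 ∧ ∀ (ε h t : ℝ) (N : ℕ) (F G : Jet), 0 < ε → 0 < h → t ≤ t0 →
      ε ≤ t * h → t * h ≤ Cj * ε → h ≤ t → 2 ≤ N → F.Sm → G.Sm → F.Bd (SB h N) Cj →
      G.Bd (SB h N) Cj →
      (∀ z ∈ SB h N, ‖G.f1 z - F.f1 z‖ ≤ t ∧ ‖G.f2 z - F.f2 z‖ ≤ t) →
      1000 * ε ≤ h ∧ ∃ U : ℂ → ℂ, (∀ z : ℂ, z.im ≤ -(h / 4) → U z = F.f z) ∧
        (∀ z : ℂ, h / 4 ≤ z.im → U z - G.f z ∈ LamE ε) ∧
        ∀ z : ℂ, 0 ≤ z.re → z.re ≤ N * h → |z.im| ≤ 5 / 4 * h →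
          (∀ i : ℕ, 1 ≤ i → i < N → C0 * ε ≤ ‖z - (((i : ℝ) * h : ℝ) : ℂ)‖) →
          NearS ε CR (C * th t)
            (C * (th t + ∑ i ∈ Finset.Ico 1 N, eh ε h z (((i : ℝ) * h : ℝ) : ℂ))) U z
            (F.f1 z) (F.f2 z) := by
  obtain ⟨K, t1, hK, ht1, hsd⟩ := sd_ex P Cj h1
  obtain ⟨A, C1, C01, t2, hA, hC1, hC01, ht2, hpt⟩ := point K CR hK h2
  obtain ⟨C2, t3, hC2, ht3, hpl⟩ := plain K CR hK h2
  obtain ⟨C3, t4, hC3, ht4, hmc⟩ := mod_core K hK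
  obtain ⟨t5, ht5, hme⟩ := mod_ends K hK
  have hK2 : 0 < 100 * K ^ 2 := by positivity
  refine ⟨max (2 * C1) C2, max C01 C3, min (min t1 t2) (min (min t3 t4) (min t5
    (min (1 / 1000) (1 / (100 * K ^ 2))))), hC2.trans (le_max_right _ _),
    hC01.trans (le_max_left _ _), ?_, ?_⟩
  · exact lt_min (lt_min ht1 ht2) (lt_min (lt_min ht3 ht4) (lt_min ht5
      (lt_min (by norm_num) (by positivity))))
  intro ε h t N F G hε hh ht hεt hte hht hN hF hG hFb hGb hd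
  obtain ⟨hta, htb⟩ := le_min_iff.1 ht
  obtain ⟨l1, l2⟩ := le_min_iff.1 hta
  obtain ⟨htc, htd⟩ := le_min_iff.1 htb
  obtain ⟨l3, l4⟩ := le_min_iff.1 htc
  obtain ⟨l5, hte'⟩ := le_min_iff.1 htd
  obtain ⟨l6, l7⟩ := le_min_iff.1 hte'
  have ht0 : 0 < t := hh.trans_le hht
  have h1000 : 1000 * ε ≤ h := by
    have : t * h ≤ 1 / 1000 * h := mul_le_mul_of_nonneg_right l6 hh.le
    linarith
  refine ⟨h1000, ?_⟩
  have hth : t ^ 2 ≤ th t := Str_th ht0 (l6.trans (by norm_num))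
  have hth0 : 0 ≤ th t := (sq_nonneg t).trans hth
  -- the radius of the radial corrections
  have hR : 1 ≤ h / (100 * K ^ 2 * ε) := by
    rw [le_div_iff₀ (by positivity), one_mul]
    have h3 : 100 * K ^ 2 * t ≤ 1 := by
      have := mul_le_mul_of_nonneg_left l7 hK2.le
      rwa [mul_one_div_cancel hK2.ne'] at this
    calc 100 * K ^ 2 * ε ≤ 100 * K ^ 2 * (t * h) := mul_le_mul_of_nonneg_left hεt hK2.le
      _ = 100 * K ^ 2 * t * h := by ring
      _ ≤ 1 * h := mul_le_mul_of_nonneg_right h3 hh.le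
      _ = h := one_mul h
  obtain ⟨M, hM1, hM2, hM3⟩ := Str_M hR
  obtain ⟨g0, lam, c, hH⟩ := hsd ε h t N F G hε hh l1 hεt hte hht hN hF hG hFb hGb hd
  have hS := hH A M
  have hKε : 0 < 100 * K ^ 2 * ε := by positivity
  have hW : (SD.mk F G P ε h A M N g0 lam c).HypW K := by
    refine ⟨hA, hM1, ?_, ?_⟩
    · show h ≤ 1000 * K ^ 2 * ε * CAPU.Dm M
      have h3 := mul_le_mul_of_nonneg_left hM2 hKε.le
      have h4 : 100 * K ^ 2 * ε * (h / (100 * K ^ 2 * ε) / 10) = h / 10 := by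
        field_simp
      rw [h4] at h3
      linarith
    · show 100 * K ^ 2 * ε * CAPU.Dm M ≤ h
      have h3 := mul_le_mul_of_nonneg_left hM3 hKε.le
      rwa [mul_div_cancel₀ _ hKε.ne'] at h3
  obtain ⟨S, hSd⟩ : ∃ S : SD, S = SD.mk F G P ε h A M N g0 lam c := ⟨_, rfl⟩
  have eε : S.ε = ε := by rw [hSd]
  have eh' : S.h = h := by rw [hSd]
  have eN : S.N = N := by rw [hSd]
  have eF : S.F = F := by rw [hSd]
  have eG : S.G = G := by rw [hSd]
  have eA : S.A = A := by rw [hSd]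
  have ep : ∀ i : ℕ, S.p i = (((i : ℝ) * h : ℝ) : ℂ) := by
    intro i
    rw [← eh']
    rfl
  rw [← hSd] at hS hW
  obtain ⟨me1, me2⟩ := hme S t hS hW l5
  rw [eh'] at me1 me2
  rw [eF] at me1
  rw [eG, eε] at me2
  refine ⟨S.U, me1, me2, ?_⟩
  intro z hz0 hzN hzi hfar
  obtain ⟨-, hcore, hedge⟩ := hmc S t hS hW l4
  have hsum : 0 ≤ ∑ i ∈ Finset.Ico 1 N, eh ε h z (((i : ℝ) * h : ℝ) : ℂ) :=
    Finset.sum_nonneg fun i _ => Str_eh _ _ _ _
  have hplain : ∀ i < N, |z.re - i * h| ≤ 2 * h →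
      (∀ y ∈ Metric.closedBall z (100 * ε), S.pl i y - S.U y ∈ LamE ε) →
      NearS ε CR (max (2 * C1) C2 * th t) (max (2 * C1) C2 *
        (th t + ∑ i ∈ Finset.Ico 1 N, eh ε h z (((i : ℝ) * h : ℝ) : ℂ))) S.U z
        (F.f1 z) (F.f2 z) := by
    intro i hi hzi' hy
    have h3 := hpl S t hS l3 (by rw [eε, eh']; exact h1000) i (by rw [eN]; exact hi) z
      (by rw [eh']; exact hzi') hz0 (by rw [eN, eh']; exact hzN) (by rw [eh']; exact hzi) S.U
      (by rw [eε]; exact hy)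
    rw [eε, eF] at h3
    refine Str_mono h3 (mul_le_mul_of_nonneg_right (le_max_right _ _) hth0) ?_
    refine (mul_le_mul_of_nonneg_right (le_max_right (2 * C1) C2) hth0).trans ?_
    refine mul_le_mul_of_nonneg_left (by linarith) ?_
    exact le_trans (by linarith) (le_max_right (2 * C1) C2)
  rcases le_or_gt z.re (h / 2) with hlt | hlt
  · refine hplain 0 (by omega) ?_ fun y hy => ?_
    · rw [Nat.cast_zero, zero_mul, sub_zero, abs_of_nonneg hz0]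
      linarith
    · have h3 := (hedge z (by rw [eh']; exact hzi) y (by rw [eε]; exact hy)).1
        (by rw [eh']; exact hlt)
      rwa [eε] at h3
  rcases le_or_gt (N * h - h / 2) z.re with hgt | hgt
  · refine hplain (N - 1) (by omega) ?_ fun y hy => ?_
    · rw [Nat.cast_sub (by omega : 1 ≤ N), Nat.cast_one, abs_le]
      constructor
      · nlinarith
      · nlinarith
    · have h3 := (hedge z (by rw [eh']; exact hzi) y (by rw [eε]; exact hy)).2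
        (by rw [eh', eN]; exact hgt)
      rwa [eε, eN] at h3
  -- the nearest core
  obtain ⟨i, hi1, hiN, hi2⟩ : ∃ i : ℕ, 1 ≤ i ∧ i < N ∧ |z.re - i * h| ≤ h / 2 := by
    have h3 : 0 ≤ z.re / h + 1 / 2 := by positivity
    have h4 := Nat.floor_le h3
    have h5 := Nat.lt_floor_add_one (z.re / h + 1 / 2)
    have h6 : 1 ≤ z.re / h + 1 / 2 := by
      have : 1 / 2 ≤ z.re / h := by
        rw [le_div_iff₀ hh]
        linarith
      linarith
    have h7 : z.re / h + 1 / 2 < N := by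
      have : z.re / h < N - 1 / 2 := by
        rw [div_lt_iff₀ hh]
        linarith
      linarith
    refine ⟨⌊z.re / h + 1 / 2⌋₊, Nat.le_floor (by push_cast; exact h6), ?_, ?_⟩
    · exact_mod_cast h4.trans_lt h7
    · have h8 : (z.re / h + 1 / 2) * h = z.re + h / 2 := by
        field_simp
      have h9 := mul_le_mul_of_nonneg_right h4 hh.le
      have h10 := mul_lt_mul_of_pos_right h5 hh
      rw [h8] at h9 h10
      rw [abs_le]
      constructor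
      · linarith
      · linarith
  have hfi := hfar i hi1 hiN
  rw [← ep i] at hfi
  have hf1 : C01 * ε ≤ ‖z - S.p i‖ :=
    (mul_le_mul_of_nonneg_right (le_max_left _ _) hε.le).trans hfi
  have hf3 : C3 * ε ≤ ‖z - S.p i‖ :=
    (mul_le_mul_of_nonneg_right (le_max_right _ _) hε.le).trans hfi
  have hd0 : 0 < ‖z - S.p i‖ := by
    refine lt_of_lt_of_le ?_ hf1
    have : 0 < C01 := by linarith
    positivity
  -- the energy
  have hen : (ε / ‖z - S.p i‖) ^ 2 ≤ th t +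
      ∑ i ∈ Finset.Ico 1 N, eh ε h z (((i : ℝ) * h : ℝ) : ℂ) := by
    rcases le_or_gt ‖z - S.p i‖ h with h3 | h3
    · have h4 : eh ε h z (((i : ℝ) * h : ℝ) : ℂ) = (ε / ‖z - S.p i‖) ^ 2 := by
        rw [ep i] at h3 ⊢
        unfold eh
        rw [if_pos h3]
      have h5 := Finset.single_le_sum
        (f := fun i : ℕ => eh ε h z (((i : ℝ) * h : ℝ) : ℂ))
        (fun i _ => Str_eh ε h z _) (Finset.mem_Ico.2 ⟨hi1, hiN⟩)
      rw [h4] at h5
      linarith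
    · have h4 : ε / ‖z - S.p i‖ ≤ t := by
        rw [div_le_iff₀ hd0]
        have := mul_le_mul_of_nonneg_left h3.le ht0.le
        linarith
      have h5 : (ε / ‖z - S.p i‖) ^ 2 ≤ t ^ 2 := by
        have : 0 ≤ ε / ‖z - S.p i‖ := by positivity
        gcongr
      linarith
  have hfin : ∀ s : ℝ, (s = 0 ∨ (s = 1 ∧ i * h + 100 * ε < z.re)) →
      (∀ y ∈ Metric.closedBall z (100 * ε),
        S.pl (i - 1) y - (s : ℂ) * S.df i y + S.W i y - S.U y ∈ LamE ε) →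
      NearS ε CR (max (2 * C1) C2 * th t) (max (2 * C1) C2 *
        (th t + ∑ i ∈ Finset.Ico 1 N, eh ε h z (((i : ℝ) * h : ℝ) : ℂ))) S.U z
        (F.f1 z) (F.f2 z) := by
    intro s hs hy
    have h3 := hpt S t hS hW eA l2 i hi1 (by rw [eN]; exact hiN) z
      (by rw [eh']; linarith) (by rw [eh']; exact hzi) (by rw [eε]; exact hf1) s
      (by rw [eh', eε]; exact hs) S.U (by rw [eε]; exact hy)
    rw [eε, eF] at h3
    have hC : 2 * C1 ≤ max (2 * C1) C2 := le_max_left _ _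
    have hC' : 0 ≤ C1 := by linarith
    refine Str_mono h3 (mul_le_mul_of_nonneg_right (by linarith) hth0) ?_
    calc C1 * (th t + (ε / ‖z - S.p i‖) ^ 2) ≤ C1 * (th t + (th t +
          ∑ i ∈ Finset.Ico 1 N, eh ε h z (((i : ℝ) * h : ℝ) : ℂ))) :=
          mul_le_mul_of_nonneg_left (by linarith) hC'
      _ ≤ 2 * C1 * (th t + ∑ i ∈ Finset.Ico 1 N, eh ε h z (((i : ℝ) * h : ℝ) : ℂ)) := by
          nlinarith [mul_nonneg hC' hsum]
      _ ≤ max (2 * C1) C2 * (th t + ∑ i ∈ Finset.Ico 1 N,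
          eh ε h z (((i : ℝ) * h : ℝ) : ℂ)) :=
          mul_le_mul_of_nonneg_right hC (by linarith)
  have hco := hcore i hi1 (by rw [eN]; exact hiN) z (by rw [eh']; exact hi2)
    (by rw [eh']; exact hzi) (by rw [eε]; exact hf3)
  rw [eε, eh'] at hco
  rcases lt_or_ge (i * h + 100 * ε) z.re with h3 | h3
  · exact hfin 1 (Or.inr ⟨rfl, h3⟩) fun y hy => (hco y hy).1 h3
  · exact hfin 0 (Or.inl rfl) fun y hy => (hco y hy).2 h3

end Pool.Agent.CAPV
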