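import Pool.Agent.Lib.MP_488b8a_co_V.Bas

/-! Project SO (MP_488b8a_co), module TBd: bounds for the angular functions at a core. -/

namespace Pool.Agent.CAPV

open Complex

/-- the rescaled point -/
private theorem TBd_u {S : SD} {K t : ℝ} (hS : S.Hyp K t) (i : ℕ) {z : ℂ}
    (h1 : (i : ℝ) * S.h < z.re) (h2 : z.re ≤ (i + 2) * S.h) :
    0 < ((z - S.p i) / (S.h : ℂ)).re ∧ ((z - S.p i) / (S.h : ℂ)).re ≤ 2 ∧
      ‖z - S.p i‖ = S.h * ‖(z - S.p i) / (S.h : ℂ)‖ ∧ 0 < ‖z - S.p i‖ := by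
  have hh := hS.h0
  have e1 : ((z - S.p i) / (S.h : ℂ)).re = (z.re - i * S.h) / S.h := by
    rw [div_ofReal_re, sub_re]
    unfold SD.p
    rw [ofReal_re]
  have e2 : (z - S.p i).re = z.re - i * S.h := by
    rw [sub_re]
    unfold SD.p
    rw [ofReal_re]
  refine ⟨?_, ?_, ?_, ?_⟩
  · rw [e1]
    exact div_pos (by linarith) hh
  · rw [e1, div_le_iff₀ hh]
    linarith
  · rw [norm_div, norm_real, Real.norm_of_nonneg hh.le]
    field_simp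
  · refine norm_pos_iff.2 fun h => ?_
    rw [h, zero_re] at e2
    linarith

private theorem TBd_one {S : SD} {K t : ℝ} (hS : S.Hyp K t) {a n : ℝ} (h0 : 0 < S.h * n)
    (h : |a| * n ≤ S.P.C) : |a / S.h| ≤ K / (S.h * n) := by
  have hh := hS.h0
  rw [le_div_iff₀ h0, abs_div, abs_of_pos hh]
  have e : |a| / S.h * (S.h * n) = |a| * n := by field_simp
  rw [e]
  exact h.trans hS.PC

private theorem TBd_two {S : SD} {K t : ℝ} (hS : S.Hyp K t) {a n : ℝ} (h0 : 0 < S.h * n)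
    (h : |a| * n ^ 2 ≤ S.P.C) : |a / S.h ^ 2| ≤ K / (S.h * n) ^ 2 := by
  have hh := hS.h0
  rw [le_div_iff₀ (by positivity), abs_div, abs_of_pos (pow_pos hh 2)]
  have e : |a| / S.h ^ 2 * (S.h * n) ^ 2 = |a| * n ^ 2 := by field_simp
  rw [e]
  exact h.trans hS.PC

private theorem TBd_bds {S : SD} {K t : ℝ} (hS : S.Hyp K t) (i : ℕ) {z : ℂ}
    (h1 : (i : ℝ) * S.h < z.re) (h2 : z.re ≤ (i + 2) * S.h) :
    |S.T1 i z| ≤ K / ‖z - S.p i‖ ∧ |S.T2 i z| ≤ K / ‖z - S.p i‖ ∧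
      |S.T11 i z| ≤ K / ‖z - S.p i‖ ^ 2 ∧ |S.T12 i z| ≤ K / ‖z - S.p i‖ ^ 2 ∧
      |S.T22 i z| ≤ K / ‖z - S.p i‖ ^ 2 := by
  obtain ⟨u1, u2, u3, u4⟩ := TBd_u hS i h1 h2
  rw [u3] at u4 ⊢
  exact ⟨TBd_one hS u4 (S.P.bt1 _ u1 u2), TBd_one hS u4 (S.P.bt2 _ u1 u2),
    TBd_two hS u4 (S.P.bt11 _ u1 u2), TBd_two hS u4 (S.P.bt12 _ u1 u2),
    TBd_two hS u4 (S.P.bt22 _ u1 u2)⟩

private theorem TBd_lip {S : SD} {K t : ℝ} (hS : S.Hyp K t) {a b n e : ℝ} (h0 : 0 < S.h * n)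
    (he : 0 ≤ e) (h : |a - b| * n ^ 3 ≤ S.P.C * (e / S.h)) :
    |a / S.h ^ 2 - b / S.h ^ 2| ≤ K / (S.h * n) ^ 3 * e := by
  have hh := hS.h0
  rw [div_mul_eq_mul_div, le_div_iff₀ (by positivity), ← sub_div, abs_div,
    abs_of_pos (pow_pos hh 2)]
  have e1 : |a - b| / S.h ^ 2 * (S.h * n) ^ 3 = S.h * (|a - b| * n ^ 3) := by field_simp
  rw [e1]
  have e2 : S.h * (S.P.C * (e / S.h)) = S.P.C * e := by field_simp
  have h2 := mul_le_mul_of_nonneg_left h hh.le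
  rw [e2] at h2
  exact h2.trans (mul_le_mul_of_nonneg_right hS.PC he)

private theorem TBd_seg {S : SD} {K t : ℝ} (hS : S.Hyp K t) (i : ℕ) {f a b : ℂ → ℝ} {z z' : ℂ}
    (h1 : (i : ℝ) * S.h < z.re) (h2 : z.re ≤ (i + 2) * S.h) (h1' : (i : ℝ) * S.h < z'.re)
    (h2' : z'.re ≤ (i + 2) * S.h) (hz : ‖z - z'‖ ≤ ‖z - S.p i‖ / 4)
    (hd : ∀ y : ℂ, (i : ℝ) * S.h < y.re → HasFDerivAt f (frr (a y) (b y)) y)
    (ha : ∀ y : ℂ, (i : ℝ) * S.h < y.re → y.re ≤ (i + 2) * S.h → |a y| ≤ K / ‖y - S.p i‖ ^ 2)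
    (hb : ∀ y : ℂ, (i : ℝ) * S.h < y.re → y.re ≤ (i + 2) * S.h → |b y| ≤ K / ‖y - S.p i‖ ^ 2) :
    |f z - f z'| ≤ 4 * K / ‖z - S.p i‖ ^ 2 * ‖z - z'‖ := by
  obtain ⟨-, -, -, hd0⟩ := TBd_u hS i h1 h2
  have hK : 0 ≤ K := zero_le_one.trans hS.hK
  have hseg : ∀ y ∈ segment ℝ z z', (i : ℝ) * S.h < y.re ∧ y.re ≤ (i + 2) * S.h ∧
      ‖z - y‖ ≤ ‖z - z'‖ := by
    rintro y ⟨s, r, hs, hr, hsr, rfl⟩
    have e1 : (s • z + r • z').re = s * z.re + r * z'.re := by simp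
    rw [e1]
    refine ⟨?_, ?_, ?_⟩
    · have : s * (i * S.h) + r * (i * S.h) < s * z.re + r * z'.re := by
        rcases hs.lt_or_eq with hs' | hs'
        · have a1 := mul_lt_mul_of_pos_left h1 hs'
          have a2 := mul_le_mul_of_nonneg_left h1'.le hr
          linarith
        · have hr1 : r = 1 := by linarith
          rw [← hs', hr1]
          linarith
      have e : s * (i * S.h) + r * (i * S.h) = i * S.h := by
        rw [← add_mul, hsr, one_mul]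
      linarith
    · have a1 := mul_le_mul_of_nonneg_left h2 hs
      have a2 := mul_le_mul_of_nonneg_left h2' hr
      have e : s * ((i + 2) * S.h) + r * ((i + 2) * S.h) = (i + 2) * S.h := by
        rw [← add_mul, hsr, one_mul]
      linarith
    · have e : z - (s • z + r • z') = r • (z - z') := by
        have hs1 : s = 1 - r := by linarith
        rw [hs1, sub_smul, one_smul, smul_sub]
        abel
      rw [e, norm_smul, Real.norm_of_nonneg hr]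
      exact mul_le_of_le_one_left (norm_nonneg _) (by linarith)
  have hbd : ∀ y ∈ segment ℝ z z', ‖frr (a y) (b y)‖ ≤ 4 * K / ‖z - S.p i‖ ^ 2 := by
    intro y hy
    obtain ⟨y1, y2, y3⟩ := hseg y hy
    have e1 : 3 / 4 * ‖z - S.p i‖ ≤ ‖y - S.p i‖ := by
      have e2 := norm_add_le (z - y) (y - S.p i)
      rw [sub_add_sub_cancel] at e2
      linarith
    have e3 : 9 / 16 * ‖z - S.p i‖ ^ 2 ≤ ‖y - S.p i‖ ^ 2 := by
      have e4 := pow_le_pow_left₀ (by positivity) e1 2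
      linarith [mul_pow (3 / 4 : ℝ) ‖z - S.p i‖ 2, e4]
    have e5 : K / ‖y - S.p i‖ ^ 2 ≤ K / (9 / 16 * ‖z - S.p i‖ ^ 2) :=
      div_le_div_of_nonneg_left hK (by positivity) e3
    have e6 : K / (9 / 16 * ‖z - S.p i‖ ^ 2) = 16 / 9 * (K / ‖z - S.p i‖ ^ 2) := by
      field_simp
    have e7 : 4 * K / ‖z - S.p i‖ ^ 2 = 4 * (K / ‖z - S.p i‖ ^ 2) := by ring
    have e8 : 0 ≤ K / ‖z - S.p i‖ ^ 2 := by positivity
    refine (frr_norm_le _ _).trans ?_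
    have e9 := ha y y1 y2
    have e10 := hb y y1 y2
    rw [e7]
    linarith
  have h3 := (convex_segment z z').norm_image_sub_le_of_norm_hasFDerivWithin_le
    (fun y hy => (hd y (hseg y hy).1).hasFDerivWithinAt) hbd (right_mem_segment ℝ z z')
    (left_mem_segment ℝ z z')
  rwa [Real.norm_eq_abs] at h3

theorem T_bd {S : SD} {K t : ℝ} (hS : S.Hyp K t) (i : ℕ) {z z' : ℂ} (h1 : (i : ℝ) * S.h < z.re)
    (h2 : z.re ≤ (i + 2) * S.h) (h1' : (i : ℝ) * S.h < z'.re) (h2' : z'.re ≤ (i + 2) * S.h)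
    (hz : ‖z - z'‖ ≤ ‖z - S.p i‖ / 4) :
    (|S.T1 i z| ≤ K / ‖z - S.p i‖ ∧ |S.T2 i z| ≤ K / ‖z - S.p i‖ ∧
      |S.T11 i z| ≤ K / ‖z - S.p i‖ ^ 2 ∧ |S.T12 i z| ≤ K / ‖z - S.p i‖ ^ 2 ∧
      |S.T22 i z| ≤ K / ‖z - S.p i‖ ^ 2) ∧
    (|S.T1 i z - S.T1 i z'| ≤ 4 * K / ‖z - S.p i‖ ^ 2 * ‖z - z'‖ ∧
      |S.T2 i z - S.T2 i z'| ≤ 4 * K / ‖z - S.p i‖ ^ 2 * ‖z - z'‖ ∧
      |S.T11 i z - S.T11 i z'| ≤ K / ‖z - S.p i‖ ^ 3 * ‖z - z'‖ ∧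
      |S.T12 i z - S.T12 i z'| ≤ K / ‖z - S.p i‖ ^ 3 * ‖z - z'‖ ∧
      |S.T22 i z - S.T22 i z'| ≤ K / ‖z - S.p i‖ ^ 3 * ‖z - z'‖) := by
  refine ⟨TBd_bds hS i h1 h2, ?_, ?_, ?_⟩
  · exact TBd_seg hS i h1 h2 h1' h2' hz (fun y hy => (hS.T_der i y hy).2.1)
      (fun y y1 y2 => (TBd_bds hS i y1 y2).2.2.1) (fun y y1 y2 => (TBd_bds hS i y1 y2).2.2.2.1)
  · exact TBd_seg hS i h1 h2 h1' h2' hz (fun y hy => (hS.T_der i y hy).2.2)
      (fun y y1 y2 => (TBd_bds hS i y1 y2).2.2.2.1)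
      (fun y y1 y2 => (TBd_bds hS i y1 y2).2.2.2.2)
  · obtain ⟨u1, u2, u3, u4⟩ := TBd_u hS i h1 h2
    obtain ⟨v1, v2, -, -⟩ := TBd_u hS i h1' h2'
    have hh := hS.h0
    have e1 : ‖(z - S.p i) / (S.h : ℂ) - (z' - S.p i) / (S.h : ℂ)‖ = ‖z - z'‖ / S.h := by
      rw [← sub_div, sub_sub_sub_cancel_right, norm_div, norm_real, Real.norm_of_nonneg hh.le]
    have e2 : ‖(z - S.p i) / (S.h : ℂ) - (z' - S.p i) / (S.h : ℂ)‖ ≤
        ‖(z - S.p i) / (S.h : ℂ)‖ / 2 := by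
      rw [e1, div_le_iff₀ hh]
      rw [u3] at hz
      have e3 := norm_nonneg ((z - S.p i) / (S.h : ℂ))
      nlinarith
    have l1 := S.P.lt11 _ _ u1 v1 u2 v2 e2
    have l2 := S.P.lt12 _ _ u1 v1 u2 v2 e2
    have l3 := S.P.lt22 _ _ u1 v1 u2 v2 e2
    rw [e1] at l1 l2 l3
    rw [u3] at u4 ⊢
    exact ⟨TBd_lip hS u4 (norm_nonneg _) l1, TBd_lip hS u4 (norm_nonneg _) l2,
      TBd_lip hS u4 (norm_nonneg _) l3⟩

end Pool.Agent.CAPV
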