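import Pool.Agent.Lib.MP_488b8a_co_V.CDef
import Pool.Agent.Lib.MP_488b8a_co_V.KpA

/-! Project SO (MP_488b8a_co), module ThB: numbers for the step. -/

namespace Pool.Agent.CAPV

open Complex

/-- the loss at the level `j` -/
theorem th_le {Ct : ℝ} (h : 1 ≤ Ct) (j : ℕ) (h4 : Ct ≤ 4 ^ j) :
    th (Ct / 4 ^ j) ≤ 2 * Ct ^ 2 * ((j : ℝ) + 1) / 16 ^ j := by
  have hC0 : 0 < Ct := by linarith
  have h40 : (0 : ℝ) < 4 ^ j := by positivity
  have h160 : (0 : ℝ) < 16 ^ j := by positivity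
  unfold th
  have e1 : 1 / (Ct / 4 ^ j) = 4 ^ j / Ct := by
    rw [one_div, inv_div]
  have e2 : Real.log (4 ^ j / Ct) ≤ j * (139 / 100) := by
    rw [Real.log_div h40.ne' hC0.ne', Real.log_pow]
    have h5 := Real.log_nonneg h
    have h6 : Real.log 4 ≤ 139 / 100 := by
      have e4 : (4 : ℝ) = 2 ^ 2 := by norm_num
      rw [e4, Real.log_pow]
      have := Real.log_two_lt_d9
      push_cast
      linarith
    have h7 : (j : ℝ) * Real.log 4 ≤ j * (139 / 100) :=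
      mul_le_mul_of_nonneg_left h6 (Nat.cast_nonneg _)
    linarith
  have e3 : (Ct / 4 ^ j) ^ 2 = Ct ^ 2 / 16 ^ j := by
    rw [div_pow, ← pow_mul, mul_comm j 2, pow_mul]
    norm_num
  rw [e1, e3]
  have hj : (0 : ℝ) ≤ j := Nat.cast_nonneg _
  have h8 : 1 + Real.log (4 ^ j / Ct) ≤ 2 * ((j : ℝ) + 1) := by linarith
  have h9 : 0 ≤ Ct ^ 2 / 16 ^ j := by positivity
  refine (mul_le_mul_of_nonneg_left h8 h9).trans (le_of_eq ?_)
  ring

private theorem ThB_side {j : ℕ} {i : ℤ} {x h : ℝ}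
    (h1 : |x - ((i : ℝ) + 1 / 2) / 2 ^ j| ≤ ak j)
    (h2 : ak j - 3 * h ≤ |x - ((i : ℝ) + 1 / 2) / 2 ^ j|) : dg j x ≤ 3 * h := by
  have hp : (0 : ℝ) < 2 ^ j := by positivity
  have ha : ak j = (1 / 2) / 2 ^ j := by
    unfold ak
    rw [pow_succ]
    field_simp
  have e0 : ((i : ℝ) + 1 / 2) / 2 ^ j = i / 2 ^ j + ak j := by
    rw [ha, add_div]
  rcases le_total 0 (x - ((i : ℝ) + 1 / 2) / 2 ^ j) with h3 | h3
  · rw [abs_of_nonneg h3] at h1 h2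
    refine (dg_le j x (i + 1)).trans ?_
    have e1 : (((i + 1 : ℤ) : ℝ)) / 2 ^ j = i / 2 ^ j + 2 * ak j := by
      rw [ha]
      push_cast
      ring
    rw [e1, abs_le]
    rw [e0] at h1 h2
    constructor <;> linarith
  · rw [abs_of_nonpos h3] at h1 h2
    refine (dg_le j x i).trans ?_
    rw [abs_le]
    rw [e0] at h1 h2
    constructor <;> linarith

/-- the compression near the sides of a cell of level `j` -/
theorem kmin_side {p : Prm} {j : ℕ} {c z : ℂ} (hA : 0 ≤ p.Au) (h0 : p.k0 < j) (h1 : j ≤ p.K)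
    (hc : Dya j c) (hz : mx (z - c) ≤ ak j) (hz2 : ak j - 3 * hk p.K j ≤ mx (z - c)) :
    p.A0 * p.ε + p.Au * (((j : ℝ) + 1) / 16 ^ j) ≤ kmin p z := by
  have hside : dg j z.re ≤ 3 * hk p.K j ∨ dg j z.im ≤ 3 * hk p.K j := by
    obtain ⟨i, l, rfl⟩ := hc
    unfold mx at hz hz2
    rw [max_le_iff] at hz
    rcases le_max_iff.1 hz2 with h | h
    · left
      exact ThB_side hz.1 h
    · right
      exact ThB_side hz.2 h
  unfold kmin
  have h2 : ((j : ℝ) + 1) / 16 ^ j ≤ ∑ k ∈ Finset.Ioc p.k0 p.K, ((k : ℝ) + 1) / 16 ^ k *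
      (if dg k z.re ≤ 3 * hk p.K k ∨ dg k z.im ≤ 3 * hk p.K k then (1 : ℝ) else 0) := by
    have h3 := Finset.single_le_sum (f := fun k : ℕ => ((k : ℝ) + 1) / 16 ^ k *
      (if dg k z.re ≤ 3 * hk p.K k ∨ dg k z.im ≤ 3 * hk p.K k then (1 : ℝ) else 0))
      (s := Finset.Ioc p.k0 p.K) (fun k _ => by
        split_ifs <;> positivity) (Finset.mem_Ioc.2 ⟨h0, h1⟩)
    rw [if_pos hside, mul_one] at h3
    exact h3
  have h4 := mul_le_mul_of_nonneg_left h2 hA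
  convert_to _ ≤ p.A0 * p.ε + p.Au * ∑ k ∈ Finset.Ioc p.k0 p.K, ((k : ℝ) + 1) / 16 ^ k *
      (if dg k z.re ≤ 3 * hk p.K k ∨ dg k z.im ≤ 3 * hk p.K k then (1 : ℝ) else 0)
  linarith

theorem kmin_low {p : Prm} (hA : 0 ≤ p.Au) (z : ℂ) : p.A0 * p.ε ≤ kmin p z := by
  unfold kmin
  have h2 : 0 ≤ ∑ k ∈ Finset.Ioc p.k0 p.K, ((k : ℝ) + 1) / 16 ^ k *
      (if dg k z.re ≤ 3 * hk p.K k ∨ dg k z.im ≤ 3 * hk p.K k then (1 : ℝ) else 0) :=
    Finset.sum_nonneg fun k _ => by split_ifs <;> positivity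
  have h4 := mul_nonneg hA h2
  convert_to _ ≤ p.A0 * p.ε + p.Au * ∑ k ∈ Finset.Ioc p.k0 p.K, ((k : ℝ) + 1) / 16 ^ k *
      (if dg k z.re ≤ 3 * hk p.K k ∨ dg k z.im ≤ 3 * hk p.K k then (1 : ℝ) else 0)
  linarith

/-- the number of boxes of a strip -/
theorem strip_N {K j : ℕ} (h3 : 3 ≤ K) (hj : j ≤ K) : ∃ N : ℕ, 2 ≤ N ∧
    2 * (ak j - 2 * hk K j) = N * hk K j ∧ (N : ℝ) ≤ 16 ^ K / 8 ^ j := by
  have h5 : 3 ≤ 4 * K - 3 * j := by omega
  have h8 : 8 ≤ 2 ^ (4 * K - 3 * j) := by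
    calc 8 = 2 ^ 3 := by norm_num
      _ ≤ 2 ^ (4 * K - 3 * j) := Nat.pow_le_pow_right (by norm_num) h5
  have hN : ((2 ^ (4 * K - 3 * j) - 4 : ℕ) : ℝ) = 2 ^ (4 * K - 3 * j) - 4 := by
    rw [Nat.cast_sub (by omega)]
    push_cast
    rfl
  have e8 : (2 : ℝ) ^ (4 * K - 3 * j) * 8 ^ j = 16 ^ K := by
    have a1 : (8 : ℝ) ^ j = 2 ^ (3 * j) := by
      rw [pow_mul]
      norm_num
    have a2 : (16 : ℝ) ^ K = 2 ^ (4 * K) := by
      rw [pow_mul]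
      norm_num
    rw [a1, a2, ← pow_add]
    congr 1
    omega
  have e9 : (8 : ℝ) ^ j = 4 ^ j * 2 ^ j := by
    rw [← mul_pow]
    norm_num
  have hp2 : (0 : ℝ) < 2 ^ j := by positivity
  have hp4 : (0 : ℝ) < 4 ^ j := by positivity
  have hp8 : (0 : ℝ) < 8 ^ j := by positivity
  have hp16 : (0 : ℝ) < 16 ^ K := by positivity
  refine ⟨2 ^ (4 * K - 3 * j) - 4, by omega, ?_, ?_⟩
  · rw [hN]
    unfold ak hk
    rw [pow_succ]
    have e10 : (1 : ℝ) / 2 ^ j = 2 ^ (4 * K - 3 * j) * (4 ^ j / 16 ^ K) := by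
      rw [← e8, e9]
      field_simp
    have e11 : 2 * (1 / (2 ^ j * 2) - 2 * ((4 : ℝ) ^ j / 16 ^ K)) =
        1 / 2 ^ j - 4 * (4 ^ j / 16 ^ K) := by
      field_simp
      ring
    rw [e11, e10]
    ring
  · rw [hN, le_div_iff₀ hp8]
    have : 0 < (4 : ℝ) * 8 ^ j := by positivity
    rw [sub_mul, e8]
    linarith

end Pool.Agent.CAPV
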