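import Pool.Agent.Lib.MP_488b8a_co_V.KDef
import Pool.Agent.Lib.MP_488b8a_co_U.Tile

/-! Project SO (MP_488b8a_co), module TilN: counting with local lifts. -/

namespace Pool.Agent.CAPV

open Complex MeasureTheory

private def TilN_cel (R : ℝ) (m : ℤ × ℤ) : Set ℂ :=
  {Z | ⌊2 * Z.re / R⌋ = m.1 ∧ ⌊2 * Z.im / R⌋ = m.2}

private theorem TilN_meas (R : ℝ) (m : ℤ × ℤ) : MeasurableSet (TilN_cel R m) := by
  have h1 : Measurable (fun Z : ℂ => ⌊2 * Z.re / R⌋) :=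
    Int.measurable_floor.comp ((Complex.measurable_re.const_mul 2).div_const R)
  have h2 : Measurable (fun Z : ℂ => ⌊2 * Z.im / R⌋) :=
    Int.measurable_floor.comp ((Complex.measurable_im.const_mul 2).div_const R)
  exact (h1 (measurableSet_singleton m.1)).inter (h2 (measurableSet_singleton m.2))

private theorem TilN_one {R x y : ℝ} (hR : 0 < R) {m : ℤ} (hx : ⌊2 * x / R⌋ = m)
    (hy : ⌊2 * y / R⌋ = m) : |x - y| ≤ R / 2 := by
  have h1 := Int.floor_le (2 * x / R)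
  have h2 := Int.lt_floor_add_one (2 * x / R)
  have h3 := Int.floor_le (2 * y / R)
  have h4 := Int.lt_floor_add_one (2 * y / R)
  rw [hx] at h1 h2
  rw [hy] at h3 h4
  rw [le_div_iff₀ hR] at h1 h3
  rw [div_lt_iff₀ hR] at h2 h4
  rw [abs_le]
  constructor <;> nlinarith

private theorem TilN_close {R : ℝ} (hR : 0 < R) {m : ℤ × ℤ} {p q : ℂ} (hp : p ∈ TilN_cel R m)
    (hq : q ∈ TilN_cel R m) : q ∈ Metric.ball p R := by
  rw [Metric.mem_ball, dist_eq_norm]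
  have h1 := abs_le.1 (TilN_one hR hq.1 hp.1)
  have h2 := abs_le.1 (TilN_one hR hq.2 hp.2)
  have h3 : ‖q - p‖ ^ 2 = (q.re - p.re) * (q.re - p.re) + (q.im - p.im) * (q.im - p.im) := by
    rw [Complex.sq_norm, Complex.normSq_apply, Complex.sub_re, Complex.sub_im]
  refine lt_of_pow_lt_pow_left₀ 2 hR.le ?_
  rw [h3]
  nlinarith

private theorem TilN_fin {A : Set ℂ} (hb : Bornology.IsBounded A) {R : ℝ} (hR : 0 < R) :
    ∃ T : Finset (ℤ × ℤ), ∀ Z ∈ A, (⌊2 * Z.re / R⌋, ⌊2 * Z.im / R⌋) ∈ T := by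
  obtain ⟨C, hC⟩ := hb.exists_norm_le
  refine ⟨Finset.Icc ⌊2 * (-C) / R⌋ ⌊2 * C / R⌋ ×ˢ Finset.Icc ⌊2 * (-C) / R⌋ ⌊2 * C / R⌋, ?_⟩
  intro Z hZ
  have h0 := hC Z hZ
  have h1 := (Complex.abs_re_le_norm Z).trans h0
  have h2 := (Complex.abs_im_le_norm Z).trans h0
  rw [abs_le] at h1 h2
  rw [Finset.mem_product, Finset.mem_Icc, Finset.mem_Icc]
  refine ⟨⟨?_, ?_⟩, ⟨?_, ?_⟩⟩
  · exact Int.floor_le_floor (by gcongr; exact h1.1)
  · exact Int.floor_le_floor (by gcongr; exact h1.2)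
  · exact Int.floor_le_floor (by gcongr; exact h2.1)
  · exact Int.floor_le_floor (by gcongr; exact h2.2)

/-- different elements of the lattice have distance at least one -/
private theorem TilN_sep {l : ℂ} (hl : l ∈ CAPU.Lam) (h : ‖l‖ < 1) : l = 0 := by
  obtain ⟨j, k, rfl⟩ := hl
  have h1 := abs_lt.1 ((Complex.abs_im_le_norm _).trans_lt h)
  have h2 := abs_lt.1 ((Complex.abs_re_le_norm _).trans_lt h)
  simp only at h1 h2
  have hk : k = 0 := by
    have h3 : (k : ℝ) < 1 := by linarith [h1.2]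
    have h4 : (-1 : ℝ) < k := by linarith [h1.1]
    have h5 : k < 1 := by exact_mod_cast h3
    have h6 : -1 < k := by exact_mod_cast h4
    omega
  subst hk
  have h3 : (1 : ℝ) ≤ Real.sqrt 3 := by
    rw [← Real.sqrt_one]
    exact Real.sqrt_le_sqrt (by norm_num)
  have hj : j = 0 := by
    by_contra hj0
    rcases lt_or_gt_of_ne hj0 with h4 | h4
    · have h5 : (j : ℝ) ≤ -1 := by exact_mod_cast (by omega : j ≤ -1)
      have h6 := h2.1
      push_cast at h6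
      nlinarith
    · have h5 : (1 : ℝ) ≤ j := by exact_mod_cast (by omega : 1 ≤ j)
      have h6 := h2.2
      push_cast at h6
      nlinarith
  subst hj
  apply Complex.ext <;> simp

/-- the derivative of a map with values in the lattice is zero -/
private theorem TilN_der {W : ℂ → ℂ} {D : ℂ →L[ℝ] ℂ} {Z : ℂ} (hW : HasFDerivAt W D Z)
    (h : ∀ᶠ Y in nhds Z, W Y ∈ CAPU.Lam) : D = 0 := by
  have h1 : ∀ᶠ Y in nhds Z, ‖W Y - W Z‖ < 1 := by
    have h2 := hW.continuousAt.eventually (Metric.ball_mem_nhds (W Z) one_pos)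
    filter_upwards [h2] with Y hY
    rw [← dist_eq_norm]
    exact hY
  have h2 : W =ᶠ[nhds Z] fun _ => W Z := by
    filter_upwards [h1, h] with Y hY1 hY2
    exact sub_eq_zero.1 (TilN_sep (CAPU.Lam_sub hY2 h.self_of_nhds) hY1)
  exact (hW.congr_of_eventuallyEq h2.symm).unique (hasFDerivAt_const (W Z) Z)

theorem tile_n {A : Set ℂ} (hA : MeasurableSet A) (hb : Bornology.IsBounded A) {R : ℝ}
    (hR : 0 < R) (Um : ℂ → ℂ) (dn : ℂ → ℝ) (hdn : ∀ Z ∈ A, 0 ≤ dn Z) (hint : IntegrableOn dn A)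
    (h : ∀ p ∈ A, ∃ (V : ℂ → ℂ) (V' : ℂ → (ℂ →L[ℝ] ℂ)), Set.InjOn V (Metric.closedBall p R) ∧
      (∀ Z ∈ Metric.closedBall p R, HasFDerivAt V (V' Z) Z ∧ V Z - Um Z ∈ CAPU.Lam) ∧
      |(V' p).det| ≤ dn p) :
    ∃ v : ℂ, {Z ∈ A | Um Z - v ∈ CAPU.Lam}.Finite ∧
      (({Z ∈ A | Um Z - v ∈ CAPU.Lam}.ncard : ℕ) : ℝ) ≤ 2 / (3 * Real.sqrt 3) * ∫ Z in A, dn Z := by
  classical
  obtain ⟨T, hT⟩ := TilN_fin hb hR
  have hV : ∀ i : ℤ × ℤ, ∃ (V : ℂ → ℂ) (V' : ℂ → (ℂ →L[ℝ] ℂ)), Set.InjOn V (A ∩ TilN_cel R i) ∧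
      ∀ Z ∈ A ∩ TilN_cel R i, HasFDerivAt V (V' Z) Z ∧ V Z - Um Z ∈ CAPU.Lam ∧
        |(V' Z).det| ≤ dn Z := by
    intro i
    rcases Set.eq_empty_or_nonempty (A ∩ TilN_cel R i) with he | ⟨p, hp⟩
    · refine ⟨fun _ => 0, fun _ => 0, ?_, ?_⟩
      · rw [he]; exact Set.injOn_empty _
      · intro Z hZ; rw [he] at hZ; exact absurd hZ (Set.notMem_empty Z)
    · obtain ⟨V, V', hV1, hV2, -⟩ := h p hp.1
      refine ⟨V, V', hV1.mono fun q hq => Metric.ball_subset_closedBall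
        (TilN_close hR hp.2 hq.2), ?_⟩
      intro Z hZ
      have hZp : Z ∈ Metric.ball p R := TilN_close hR hp.2 hZ.2
      have hZc := Metric.ball_subset_closedBall hZp
      refine ⟨(hV2 Z hZc).1, (hV2 Z hZc).2, ?_⟩
      obtain ⟨V1, V1', -, hV3, hV4⟩ := h Z hZ.1
      have hev : ∀ᶠ Y in nhds Z, V Y - V1 Y ∈ CAPU.Lam := by
        filter_upwards [Metric.isOpen_ball.mem_nhds hZp, Metric.ball_mem_nhds Z hR] with Y h1 h2
        have h3 := CAPU.Lam_sub (hV2 Y (Metric.ball_subset_closedBall h1)).2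
          (hV3 Y (Metric.ball_subset_closedBall h2)).2
        rwa [sub_sub_sub_cancel_right] at h3
      have hd := TilN_der (W := fun Y => V Y - V1 Y)
        ((hV2 Z hZc).1.sub (hV3 Z (Metric.mem_closedBall_self hR.le)).1) hev
      rw [sub_eq_zero] at hd
      rw [hd]
      exact hV4
  choose V V' hV1 hV2 using hV
  have hmi : ∀ i, MeasurableSet (A ∩ TilN_cel R i) := fun i => hA.inter (TilN_meas R i)
  have hinti : ∀ i, IntegrableOn dn (A ∩ TilN_cel R i) := fun i =>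
    hint.mono_set Set.inter_subset_left
  obtain ⟨v, hf, hv⟩ := CAPU.avg_count T (fun i => A ∩ TilN_cel R i) V V'
    (fun i _ => hmi i) (fun i _ Z hZ => (hV2 i Z hZ).1.hasFDerivWithinAt) (fun i _ => hV1 i)
    (fun i => ∫ Z in A ∩ TilN_cel R i, dn Z)
    (fun i _ => setIntegral_nonneg (hmi i) fun Z hZ => hdn Z hZ.1)
    (by
      intro i _
      rw [ofReal_integral_eq_lintegral_ofReal (hinti i)
        (ae_restrict_of_forall_mem (hmi i) fun Z hZ => hdn Z hZ.1)]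
      refine setLIntegral_mono' (hmi i) ?_
      intro Z hZ
      apply ENNReal.ofReal_le_ofReal
      exact (hV2 i Z hZ).2.2)
  have hset : {Z ∈ A | Um Z - v ∈ CAPU.Lam} =
      ⋃ i ∈ T, {Z ∈ A ∩ TilN_cel R i | V i Z - v ∈ CAPU.Lam} := by
    ext Z
    simp only [Set.mem_ofPred_eq, Set.mem_iUnion, exists_prop]
    constructor
    · rintro ⟨hZ, hU⟩
      refine ⟨(⌊2 * Z.re / R⌋, ⌊2 * Z.im / R⌋), hT Z hZ, ⟨hZ, rfl, rfl⟩, ?_⟩
      have h1 := (hV2 (⌊2 * Z.re / R⌋, ⌊2 * Z.im / R⌋) Z ⟨hZ, rfl, rfl⟩).2.1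
      have h2 := CAPU.Lam_add h1 hU
      rw [sub_add_sub_cancel] at h2
      exact h2
    · rintro ⟨i, _, hZ, hU⟩
      refine ⟨hZ.1, ?_⟩
      have h1 := CAPU.Lam_neg (hV2 i Z hZ).2.1
      have h2 := CAPU.Lam_add h1 hU
      rw [neg_sub, sub_add_sub_cancel] at h2
      exact h2
  have hdis : (T : Set (ℤ × ℤ)).Pairwise
      (Function.onFun Disjoint fun i => A ∩ TilN_cel R i) := by
    intro i _ j _ hij
    rw [Function.onFun, Set.disjoint_left]
    intro Z hZ hZ'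
    exact hij (Prod.ext (hZ.2.1.symm.trans hZ'.2.1) (hZ.2.2.symm.trans hZ'.2.2))
  have hAU : A = ⋃ i ∈ T, A ∩ TilN_cel R i := by
    ext Z
    simp only [Set.mem_iUnion, exists_prop]
    constructor
    · intro hZ
      exact ⟨(⌊2 * Z.re / R⌋, ⌊2 * Z.im / R⌋), hT Z hZ, hZ, rfl, rfl⟩
    · rintro ⟨i, _, hZ⟩
      exact hZ.1
  have hint2 : ∫ Z in A, dn Z = ∑ i ∈ T, ∫ Z in A ∩ TilN_cel R i, dn Z := by
    conv_lhs => rw [hAU]
    exact integral_biUnion_finset T (fun i _ => hmi i) hdis (fun i _ => hinti i)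
  refine ⟨v, ?_, ?_⟩
  · rw [hset]
    exact T.finite_toSet.biUnion hf
  · rw [hint2]
    refine le_trans ?_ hv
    rw [hset]
    have hind : ∀ S : Finset (ℤ × ℤ),
        (⋃ i ∈ S, {Z ∈ A ∩ TilN_cel R i | V i Z - v ∈ CAPU.Lam}).ncard ≤
          ∑ i ∈ S, ({Z ∈ A ∩ TilN_cel R i | V i Z - v ∈ CAPU.Lam}.ncard) := by
      intro S
      induction S using Finset.induction_on with
      | empty => simp
      | insert j S hj ih =>
        rw [Finset.set_biUnion_insert, Finset.sum_insert hj]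
        exact (Set.ncard_union_le _ _).trans (Nat.add_le_add_left ih _)
    exact_mod_cast hind T

end Pool.Agent.CAPV
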