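import Pool.Agent.Lib.MP_488b8a_co_V.TrN

/-! Project SO (MP_488b8a_co), module TrL: the components of the derivative are Lipschitz. -/

namespace Pool.Agent.CAPV

open Complex

private theorem TrL_prod (a a' : ℂ) (x x' : ℝ) :
    ‖a * (x : ℂ) - a' * (x' : ℂ)‖ ≤ ‖a - a'‖ * |x| + ‖a'‖ * |x - x'| := by
  have e : a * (x : ℂ) - a' * (x' : ℂ) = (a - a') * (x : ℂ) + a' * ((x - x' : ℝ) : ℂ) := by
    push_cast
    ring
  rw [e]
  refine (norm_add_le _ _).trans ?_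
  rw [norm_mul, norm_mul, Complex.norm_real, Complex.norm_real, Real.norm_eq_abs,
    Real.norm_eq_abs]

private theorem TrL_ty {y0 y y' : ℝ} (h0 : 0 ≤ y0) (h1 : y0 - 1 / 100 ≤ y)
    (h2 : y ≤ y0 + 1 + 1 / 100) (h1' : y0 - 1 / 100 ≤ y') (h2' : y' ≤ y0 + 1 + 1 / 100) :
    |ty y0 y - ty y0 y'| ≤ 21 / 20 * |y - y'| := by
  have h := Convex.norm_image_sub_le_of_norm_hasDerivWithin_le (f := ty y0)
    (f' := fun y => my y0 y ^ 2) (C := 21 / 20) (s := Set.Icc (y0 - 1 / 100) (y0 + 1 + 1 / 100))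
    (fun x _ => (ty_der y0 x).hasDerivWithinAt) (fun x hx => by
      obtain ⟨q1, q2⟩ := my_bd h0 hx.1 hx.2
      rw [Real.norm_eq_abs, abs_of_nonneg (by positivity)]
      nlinarith) (convex_Icc _ _) (x := y') (y := y) ⟨h1', h2'⟩ ⟨h1, h2⟩
  simpa [Real.norm_eq_abs] using h

theorem tr_lip {κ P : ℝ → ℝ} {ε δ C : ℝ} (h : KP κ P ε δ C) {y0 β L : ℝ} {U V V1 V2 : ℂ → ℂ}
    {Z Y u : ℂ} (h0 : 0 ≤ y0) (hε : 0 < ε) (hC : C ^ 2 * ε ≤ 1) (hC0 : 0 ≤ C)
    (hε1 : ε ≤ 1 / 10000) (hδ : δ ≤ 1 / 10000) (hZ : Z ∈ Win y0) (hY : ‖Y - Z‖ ≤ 12 * ε)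
    (hu : ‖u‖ = 1) (hβ : 0 ≤ β) (hβ1 : β ≤ 1) (hL : 0 ≤ L)
    (h1 : ‖V1 (zz P y0 Z) - (mm (1 / Real.cosh y0) (zz P y0 Z).im : ℂ) * u‖ ≤ β)
    (h2 : ‖V2 (zz P y0 Z) - I * u / (mm (1 / Real.cosh y0) (zz P y0 Z).im : ℂ)‖ ≤ β)
    (hLi : Lift ε U (zz P y0 Z) V V1 V2 L) :
    ‖D1 κ P y0 ε V1 Y - D1 κ P y0 ε V1 Z‖ + ‖D2 κ P y0 ε V2 Y - D2 κ P y0 ε V2 Z‖ ≤
      1000 * (my y0 Z.im / ε) ^ 2 * (ε * L + ε + δ * (κ Z.re + κ (ty y0 Z.im))) * ‖Y - Z‖ := by
  have hδ0 : 0 ≤ δ := (h.lo 0).trans (h.hi 0)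
  have hCε : C * ε ≤ 1 / 100 := by
    have h3 : (C * ε) ^ 2 ≤ (1 / 100) ^ 2 := by
      have : (C * ε) ^ 2 = C ^ 2 * ε * ε := by ring
      rw [this]
      have := mul_le_mul_of_nonneg_right hC hε.le
      linarith
    exact le_of_sq_le_sq h3 (by norm_num)
  obtain ⟨z1, z2, z3, z4⟩ := hZ
  have hre : |Y.re - Z.re| ≤ ‖Y - Z‖ := by
    have := Complex.abs_re_le_norm (Y - Z)
    rwa [Complex.sub_re] at this
  have him : |Y.im - Z.im| ≤ ‖Y - Z‖ := by
    have := Complex.abs_im_le_norm (Y - Z)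
    rwa [Complex.sub_im] at this
  have him' := abs_le.1 (him.trans hY)
  have y1 : y0 - 1 / 100 ≤ Y.im := by linarith [him'.1]
  have y2 : Y.im ≤ y0 + 1 + 1 / 100 := by linarith [him'.2]
  have y3 : y0 - 1 / 100 ≤ Z.im := by linarith
  have y4 : Z.im ≤ y0 + 1 + 1 / 100 := by linarith
  obtain ⟨m1, m2⟩ := my_bd h0 y3 y4
  obtain ⟨n1, n2⟩ := my_bd h0 y1 y2
  have hml := my_lip h0 y1 y2 y3 y4
  obtain ⟨t1, t2⟩ := ty_range h0 z3 z4
  -- the radius at the image point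
  have hP : |P (ty y0 Z.im) - ty y0 Z.im| ≤ 1 / 100 :=
    (h.sh _ (abs_le.2 ⟨by linarith, by linarith⟩)).trans hCε
  have hP' := abs_le.1 hP
  obtain ⟨M, hM⟩ : ∃ M, M = mm (1 / Real.cosh y0) (zz P y0 Z).im := ⟨_, rfl⟩
  have hMm : |M - my y0 Z.im| ≤ 1 / 10 := by
    rw [hM, ← mm_ty y0 Z.im]
    show |mm (1 / Real.cosh y0) (P (ty y0 Z.im)) - _| ≤ _
    have hc := Real.one_le_cosh y0
    have hT1 : 1 / Real.cosh y0 ≤ 1 := by
      rw [div_le_one (by linarith)]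
      exact hc
    have := mm_lip (T := 1 / Real.cosh y0) (s := P (ty y0 Z.im)) (s' := ty y0 Z.im)
      (by positivity) hT1 (by linarith [hP'.1]) (by linarith [hP'.2]) (by linarith) (by linarith)
    linarith
  have hMm' := abs_le.1 hMm
  have M1 : 26 / 100 ≤ M := by linarith [hMm'.1]
  have M2 : M ≤ 112 / 100 := by linarith [hMm'.2]
  rw [← hM] at h1 h2
  have hV1 : ‖V1 (zz P y0 Z)‖ ≤ 22 / 10 := by
    have e : V1 (zz P y0 Z) = (V1 (zz P y0 Z) - (M : ℂ) * u) + (M : ℂ) * u := by ring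
    rw [e]
    refine (norm_add_le _ _).trans ?_
    rw [norm_mul, hu, mul_one, Complex.norm_real, Real.norm_eq_abs, abs_of_nonneg (by linarith)]
    linarith
  have hV2 : ‖V2 (zz P y0 Z)‖ ≤ 5 := by
    have e : V2 (zz P y0 Z) = (V2 (zz P y0 Z) - I * u / (M : ℂ)) + I * u / (M : ℂ) := by ring
    rw [e]
    refine (norm_add_le _ _).trans ?_
    rw [norm_div, norm_mul, hu, mul_one, Complex.norm_I, Complex.norm_real, Real.norm_eq_abs,
      abs_of_nonneg (by linarith)]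
    have : 1 / M ≤ 4 := by
      rw [div_le_iff₀ (by linarith)]
      linarith
    linarith
  -- the images of `Y` and `Z`
  have hzl := (zz_lip h (by linarith) h0 y1 y2 y3 y4).2
  have hYb : zz P y0 Y ∈ Metric.closedBall (zz P y0 Z) (100 * ε) := by
    rw [Metric.mem_closedBall, dist_eq_norm]
    linarith
  have hZb : zz P y0 Z ∈ Metric.closedBall (zz P y0 Z) (100 * ε) :=
    Metric.mem_closedBall_self (by positivity)
  obtain ⟨D, hD⟩ : ∃ D, D = ‖Y - Z‖ := ⟨_, rfl⟩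
  rw [← hD] at hY hre him hzl ⊢
  have hD0 : 0 ≤ D := by rw [hD]; exact norm_nonneg _
  have hd1 : ‖V1 (zz P y0 Y) - V1 (zz P y0 Z)‖ ≤ 2 * L * D := by
    refine (hLi.l1 _ hYb _ hZb).trans ?_
    have := mul_le_mul_of_nonneg_left hzl hL
    linarith
  have hd2 : ‖V2 (zz P y0 Y) - V2 (zz P y0 Z)‖ ≤ 2 * L * D := by
    refine (hLi.l2 _ hYb _ hZb).trans ?_
    have := mul_le_mul_of_nonneg_left hzl hL
    linarith
  obtain ⟨k1, hk1⟩ : ∃ k1, k1 = κ Z.re := ⟨_, rfl⟩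
  obtain ⟨k2, hk2⟩ : ∃ k2, k2 = κ (ty y0 Z.im) := ⟨_, rfl⟩
  have k10 : 0 ≤ k1 := by rw [hk1]; exact h.lo _
  have k20 : 0 ≤ k2 := by rw [hk2]; exact h.lo _
  have hκ1 : |κ Y.re - κ Z.re| ≤ δ / ε * k1 * D := by
    have h3 : |Z.re - Y.re| ≤ D := by rw [abs_sub_comm]; exact hre
    have := h.li Z.re Y.re (by linarith)
    rw [abs_sub_comm, hk1]
    refine this.trans ?_
    exact mul_le_mul_of_nonneg_left h3 (mul_nonneg (by positivity) (h.lo _))
  have hty : |ty y0 Z.im - ty y0 Y.im| ≤ 21 / 20 * D := by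
    have := TrL_ty h0 y1 y2 y3 y4
    rw [abs_sub_comm]
    linarith
  have hκ2 : |κ (ty y0 Y.im) - κ (ty y0 Z.im)| ≤ δ / ε * k2 * (21 / 20 * D) := by
    have := h.li (ty y0 Z.im) (ty y0 Y.im) (by linarith)
    rw [abs_sub_comm, hk2]
    refine this.trans ?_
    exact mul_le_mul_of_nonneg_left hty (mul_nonneg (by positivity) (h.lo _))
  have hk2d : k2 ≤ 1 / 10000 := by rw [hk2]; exact (h.hi _).trans hδ
  -- first component
  have hA : ‖D1 κ P y0 ε V1 Y - D1 κ P y0 ε V1 Z‖ ≤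
      2 * L * D * (11 / 10 / ε) + 22 / 10 * (δ / ε * k1 * D / ε) := by
    refine (TrL_prod _ _ _ _).trans (add_le_add ?_ ?_)
    · apply mul_le_mul hd1 _ (abs_nonneg _) (by positivity)
      have h3 := h.lo Y.re
      have h4 := h.hi Y.re
      rw [abs_of_nonneg (by positivity)]
      apply div_le_div_of_nonneg_right _ hε.le
      linarith
    · apply mul_le_mul hV1 _ (abs_nonneg _) (by norm_num)
      rw [← sub_div, abs_div, abs_of_pos hε]
      apply div_le_div_of_nonneg_right _ hε.le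
      rw [add_sub_add_left_eq_sub]
      exact hκ1
  -- second component
  have hB : ‖D2 κ P y0 ε V2 Y - D2 κ P y0 ε V2 Z‖ ≤
      2 * L * D * (12 / 10 / ε) + 5 * ((δ / ε * k2 * (21 / 20 * D) * (21 / 20) +
        11 / 10 * (3 * D)) / ε) := by
    refine (TrL_prod _ _ _ _).trans (add_le_add ?_ ?_)
    · apply mul_le_mul hd2 _ (abs_nonneg _) (by positivity)
      have h3 := h.lo (ty y0 Y.im)
      have h4 := h.hi (ty y0 Y.im)
      rw [abs_of_nonneg (by positivity)]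
      apply div_le_div_of_nonneg_right _ hε.le
      have h5 : my y0 Y.im ^ 2 ≤ 21 / 20 := by nlinarith
      have h6 : 1 + κ (ty y0 Y.im) ≤ 11 / 10 := by linarith
      have := mul_le_mul h6 h5 (by positivity) (by norm_num)
      linarith
    · apply mul_le_mul hV2 _ (abs_nonneg _) (by norm_num)
      rw [← sub_div, abs_div, abs_of_pos hε]
      apply div_le_div_of_nonneg_right _ hε.le
      have e : (1 + κ (ty y0 Y.im)) * my y0 Y.im ^ 2 - (1 + κ (ty y0 Z.im)) * my y0 Z.im ^ 2 =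
          (κ (ty y0 Y.im) - κ (ty y0 Z.im)) * my y0 Y.im ^ 2 +
            (1 + κ (ty y0 Z.im)) * (my y0 Y.im ^ 2 - my y0 Z.im ^ 2) := by ring
      rw [e]
      refine (abs_add_le _ _).trans (add_le_add ?_ ?_)
      · rw [abs_mul]
        apply mul_le_mul hκ2 _ (abs_nonneg _)
          (mul_nonneg (mul_nonneg (by positivity) k20) (by positivity))
        rw [abs_of_nonneg (by positivity)]
        nlinarith
      · rw [abs_mul, ← hk2, abs_of_nonneg (by linarith : (0 : ℝ) ≤ 1 + k2)]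
        apply mul_le_mul (by linarith) _ (abs_nonneg _) (by norm_num)
        linarith
  refine (add_le_add hA hB).trans ?_
  rw [← hk1, ← hk2]
  have e1 : 2 * L * D * (11 / 10 / ε) + 22 / 10 * (δ / ε * k1 * D / ε) +
      (2 * L * D * (12 / 10 / ε) + 5 * ((δ / ε * k2 * (21 / 20 * D) * (21 / 20) +
        11 / 10 * (3 * D)) / ε)) =
      (2 * (ε * L * D) * (11 / 10) + 22 / 10 * (δ * k1 * D) + 2 * (ε * L * D) * (12 / 10) +
        5 * (δ * k2 * D * (21 / 20) * (21 / 20) + 11 / 10 * (3 * (ε * D)))) / ε ^ 2 := by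
    field_simp
    ring
  have e2 : 1000 * (my y0 Z.im / ε) ^ 2 * (ε * L + ε + δ * (k1 + k2)) * D =
      (1000 * my y0 Z.im ^ 2 * (ε * L * D + ε * D + δ * k1 * D + δ * k2 * D)) / ε ^ 2 := by
    rw [div_pow]
    ring
  rw [e1, e2]
  apply div_le_div_of_nonneg_right _ (by positivity)
  have p1 : 0 ≤ ε * L * D := by positivity
  have p2 : 0 ≤ ε * D := by positivity
  have p3 : 0 ≤ δ * k1 * D := by positivity
  have p4 : 0 ≤ δ * k2 * D := by positivity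
  have q : 100 ≤ 1000 * my y0 Z.im ^ 2 := by nlinarith
  have := mul_le_mul_of_nonneg_right q (by positivity :
    0 ≤ ε * L * D + ε * D + δ * k1 * D + δ * k2 * D)
  linarith

end Pool.Agent.CAPV
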