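import Pool.Agent.Lib.MP_488b8a_co_V.TrQ
import Pool.Agent.Lib.MP_488b8a_co_V.TrL
import Pool.Agent.Lib.MP_488b8a_co_V.LamL

/-! Project SO (MP_488b8a_co), module TrB: transfer to the Mercator plane. -/

namespace Pool.Agent.CAPV

open Complex

theorem transfer : ∃ CR C δ : ℝ, 1 ≤ CR ∧ 1 ≤ C ∧ 0 < δ ∧ δ ≤ 1 / 10000 ∧
    ∀ (y0 ε C' e : ℝ) (κ P : ℝ → ℝ) (U : ℂ → ℂ) (Z : ℂ), 0 ≤ y0 → 0 < ε → ε ≤ δ → 0 ≤ C' →
      C' ^ 2 * ε ≤ 1 → KP κ P ε δ C' → 0 ≤ e → Z ∈ Win y0 →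
      Ok (1 / Real.cosh y0) ε CR (κ Z.re + κ (ty y0 Z.im)) e U (zz P y0 Z) →
      Trf (my y0 Z.im / ε) (C * (e + (κ Z.re + κ (ty y0 Z.im)) + ε))
        (fun Y => U (zz P y0 Y) / (ε : ℂ)) Z := by
  obtain ⟨CR, C, δ, hCR, hC, hδ, hδ1, H⟩ := tr_alg 100000 (by norm_num)
  refine ⟨CR, C, δ, hCR, hC, hδ, hδ1, ?_⟩
  intro y0 ε C' e κ P U Z h0 hε hεδ hC0 hCε hKP he hZ hOk
  obtain ⟨V, V1, V2, u, β, L, hu, hβ, hL, hLi, h1, h2, hn1, hn2, hn3, hn4⟩ := hOk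
  have hε1 : ε ≤ 1 / 10000 := hεδ.trans hδ1
  have hβ1 : β ≤ 1 := by nlinarith
  have hZ' : Z ∈ Win y0 := hZ
  obtain ⟨-, -, hZ3, hZ4⟩ := hZ
  obtain ⟨hmy, -⟩ := my_bd (y := Z.im) h0 (by linarith) (by linarith)
  have hmy0 : 0 < my y0 Z.im := by linarith
  have hc : 0 < my y0 Z.im / ε := div_pos hmy0 hε
  have h4c : 4 / (my y0 Z.im / ε) ≤ 12 * ε := by
    rw [div_le_iff₀ hc]
    have : 12 * ε * (my y0 Z.im / ε) = 12 * my y0 Z.im := by field_simp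
    rw [this]
    linarith
  have hε' : (ε : ℂ) ≠ 0 := by exact_mod_cast hε.ne'
  have hY12 : ∀ Y ∈ Metric.closedBall Z (4 / (my y0 Z.im / ε)), ‖Y - Z‖ ≤ 12 * ε := by
    intro Y hY
    rw [mem_closedBall_iff_norm] at hY
    exact hY.trans h4c
  have hzY : ∀ Y ∈ Metric.closedBall Z (4 / (my y0 Z.im / ε)),
      zz P y0 Y ∈ Metric.closedBall (zz P y0 Z) (100 * ε) := by
    intro Y hY
    have h3 := hY12 Y hY
    have h5 : |Y.im - Z.im| ≤ 12 * ε := by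
      rw [← sub_im]
      exact (abs_im_le_norm _).trans h3
    rw [abs_le] at h5
    have h6 := (zz_lip hKP (by linarith) h0 (Z := Y) (Z' := Z) (by linarith) (by linarith)
      (by linarith) (by linarith)).2
    rw [mem_closedBall_iff_norm]
    linarith
  have hk1 := hKP.lo Z.re
  have hk2 := hKP.lo (ty y0 Z.im)
  set Lm : ℝ := 1000 * (my y0 Z.im / ε) ^ 2 * (ε * L + ε + δ * (κ Z.re + κ (ty y0 Z.im)))
    with hLm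
  have hLm0 : 0 ≤ Lm := by positivity
  obtain ⟨t1, t2⟩ := tr_norm hKP h0 hε hCε hC0 hε1 hδ1 hZ' hu hβ hβ1 h1 h2
  obtain ⟨r1, r2, r3, r4, r5⟩ := H ‖(D1 κ P y0 ε V1 Z - I * D2 κ P y0 ε V2 Z) / 2‖
    ‖(D1 κ P y0 ε V1 Z + I * D2 κ P y0 ε V2 Z) / 2‖ (my y0 Z.im / ε) e
    (cr (V1 (zz P y0 Z)) (V2 (zz P y0 Z))) β L ε Lm (κ Z.re) (κ (ty y0 Z.im)) hε hεδ hk1
    (hKP.hi _) hk2 (hKP.hi _) hβ hL he hc (norm_nonneg _) (norm_nonneg _) hLm0 t2 t1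
    (by
      rw [hLm]
      have h5 : 0 ≤ (my y0 Z.im / ε) ^ 2 * (ε * L + ε + δ * (κ Z.re + κ (ty y0 Z.im))) := by
        positivity
      calc 1000 * (my y0 Z.im / ε) ^ 2 * (ε * L + ε + δ * (κ Z.re + κ (ty y0 Z.im))) =
          1000 * ((my y0 Z.im / ε) ^ 2 * (ε * L + ε + δ * (κ Z.re + κ (ty y0 Z.im)))) := by ring
        _ ≤ 100000 * ((my y0 Z.im / ε) ^ 2 * (ε * L + ε + δ * (κ Z.re + κ (ty y0 Z.im)))) :=
            mul_le_mul_of_nonneg_right (by norm_num) h5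
        _ = _ := by ring)
    hn1 hn2 hn3 hn4
  refine ⟨fun X => V (zz P y0 X) / (ε : ℂ),
    fun Y => (D1 κ P y0 ε V1 Y - I * D2 κ P y0 ε V2 Y) / 2,
    fun Y => (D1 κ P y0 ε V1 Y + I * D2 κ P y0 ε V2 Y) / 2, Lm, hLm0, ?_, ?_, r1, r2, r3, r4, r5⟩
  · intro Y hY
    refine ⟨tr_der hKP (hLi.der _ (hzY Y hY)), ?_⟩
    obtain ⟨l, hl, hVU⟩ := hLi.mod _ (hzY Y hY)
    have h3 : V (zz P y0 Y) / (ε : ℂ) - U (zz P y0 Y) / (ε : ℂ) = l := by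
      rw [← sub_div, hVU, mul_div_cancel_left₀ _ hε']
    change V (zz P y0 Y) / (ε : ℂ) - U (zz P y0 Y) / (ε : ℂ) ∈ CAPU.Lam
    rw [h3]
    exact hl
  · intro Y hY
    have h3 := tr_lip hKP h0 hε hCε hC0 hε1 hδ1 hZ' (hY12 Y hY) hu hβ hβ1 hL h1 h2 hLi
    refine le_trans ?_ h3
    set d1 := D1 κ P y0 ε V1 Y - D1 κ P y0 ε V1 Z with hd1
    set d2 := D2 κ P y0 ε V2 Y - D2 κ P y0 ε V2 Z with hd2
    have e1 : (D1 κ P y0 ε V1 Y - I * D2 κ P y0 ε V2 Y) / 2 -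
        (D1 κ P y0 ε V1 Z - I * D2 κ P y0 ε V2 Z) / 2 = (d1 - I * d2) / 2 := by
      rw [hd1, hd2]
      ring
    have e2 : (D1 κ P y0 ε V1 Y + I * D2 κ P y0 ε V2 Y) / 2 -
        (D1 κ P y0 ε V1 Z + I * D2 κ P y0 ε V2 Z) / 2 = (d1 + I * d2) / 2 := by
      rw [hd1, hd2]
      ring
    have h2n : ‖(2 : ℂ)‖ = 2 := by simp
    have hI : ‖I * d2‖ = ‖d2‖ := by rw [norm_mul, norm_I, one_mul]
    beta_reduce
    rw [e1, e2, norm_div, norm_div, h2n]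
    have n1 := norm_sub_le d1 (I * d2)
    have n2 := norm_add_le d1 (I * d2)
    rw [hI] at n1 n2
    linarith

end Pool.Agent.CAPV
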