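import Pool.Agent.Lib.MP_488b8a_co_V.MerB
import Pool.Agent.Lib.MP_488b8a_co_V.ChD

/-! Project SO (MP_488b8a_co), module TrN: the two components of the derivative in the Mercator
plane. -/

namespace Pool.Agent.CAPV

open Complex

/-- derivative in the first direction -/
noncomputable def D1 (κ P : ℝ → ℝ) (y0 ε : ℝ) (V1 : ℂ → ℂ) (Y : ℂ) : ℂ :=
  V1 (zz P y0 Y) * (((1 + κ Y.re) / ε : ℝ) : ℂ)

/-- derivative in the second direction -/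
noncomputable def D2 (κ P : ℝ → ℝ) (y0 ε : ℝ) (V2 : ℂ → ℂ) (Y : ℂ) : ℂ :=
  V2 (zz P y0 Y) * (((1 + κ (ty y0 Y.im)) * my y0 Y.im ^ 2 / ε : ℝ) : ℂ)

private theorem TrN_alg (a b : ℂ) :
    ‖(a - I * b) / 2‖ ^ 2 = ‖(a + I * b) / 2‖ ^ 2 + cr a b := by
  have h2 : ∀ z : ℂ, ‖z / 2‖ ^ 2 = (z.re * z.re + z.im * z.im) / 4 := by
    intro z
    rw [norm_div, div_pow, ← Complex.normSq_eq_norm_sq z, Complex.normSq_apply]
    norm_num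
  rw [h2, h2]
  simp only [cr, sub_re, sub_im, add_re, add_im, mul_re, mul_im, I_re, I_im]
  ring

private theorem TrN_cr (a b : ℂ) (s t : ℝ) : cr (a * (s : ℂ)) (b * (t : ℂ)) = s * t * cr a b := by
  simp only [cr, mul_re, mul_im, ofReal_re, ofReal_im]
  ring

private theorem TrN_fr (a b : ℝ) (v : ℂ) :
    fr (a : ℂ) (I * (b : ℂ)) v = ⟨v.re * a, v.im * b⟩ := by
  rw [fr_apply]
  apply Complex.ext <;> simp

private theorem TrN_fin {N a K β ε m : ℝ} (hN0 : 0 ≤ N) (hN : N ≤ 24 * a + 3 / 2 * K + 21 / 10 * β)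
    (hε : 0 < ε) (ha2 : a ^ 2 ≤ ε) (hm1 : 9 / 25 ≤ m) :
    (N / (2 * ε)) ^ 2 ≤ 100000 * (m / ε) ^ 2 * (ε + K ^ 2 + β ^ 2) := by
  have h1 : N ^ 2 ≤ (24 * a + 3 / 2 * K + 21 / 10 * β) ^ 2 := pow_le_pow_left₀ hN0 hN 2
  have h2 : (24 * a + 3 / 2 * K + 21 / 10 * β) ^ 2 ≤ 1728 * (ε + K ^ 2 + β ^ 2) := by
    nlinarith [sq_nonneg (24 * a - 3 / 2 * K), sq_nonneg (24 * a - 21 / 10 * β),
      sq_nonneg (3 / 2 * K - 21 / 10 * β), sq_nonneg K, sq_nonneg β]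
  have h3 : 1296 / 10000 ≤ m ^ 2 := by nlinarith
  have hX : 0 ≤ ε + K ^ 2 + β ^ 2 := by positivity
  have h4 : 1296 / 10000 * (ε + K ^ 2 + β ^ 2) ≤ m ^ 2 * (ε + K ^ 2 + β ^ 2) :=
    mul_le_mul_of_nonneg_right h3 hX
  have e1 : (N / (2 * ε)) ^ 2 = (N ^ 2 / 4) / ε ^ 2 := by
    field_simp
    norm_num
  have e2 : 100000 * (m / ε) ^ 2 * (ε + K ^ 2 + β ^ 2) =
      (100000 * (m ^ 2 * (ε + K ^ 2 + β ^ 2))) / ε ^ 2 := by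
    field_simp
  rw [e1, e2]
  refine div_le_div_of_nonneg_right ?_ (by positivity)
  linarith

/-- the real estimate -/
private theorem TrN_real {M m a k1 k2 : ℝ} (hm1 : 9 / 25 ≤ m) (hm2 : m ≤ 51 / 50)
    (ha1 : a ≤ 1 / 100) (hMm : |M - m| ≤ 10 * a) (hk1 : 0 ≤ k1) (hk2 : 0 ≤ k2) :
    |M * (1 + k1) - m ^ 2 / M * (1 + k2)| ≤ 24 * a + 3 / 2 * (k1 + k2) := by
  have h1 := abs_le.1 hMm
  have hM1 : 26 / 100 ≤ M := by linarith [h1.1]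
  have hM2 : M ≤ 112 / 100 := by linarith [h1.2]
  have hM0 : 0 < M := by linarith
  have hq : m / M ≤ 139 / 100 := by
    rw [div_le_iff₀ hM0]
    linarith [h1.1]
  have hq0 : 0 ≤ m / M := by positivity
  have e1 : m ^ 2 / M = m * (m / M) := by
    field_simp
  have hq2 : m ^ 2 / M ≤ 3 / 2 := by
    rw [e1]
    nlinarith
  have hq3 : 0 ≤ m ^ 2 / M := by positivity
  have e2 : M * (1 + k1) - m ^ 2 / M * (1 + k2) =
      (M - m) * (1 + m / M) + (M * k1 - m ^ 2 / M * k2) := by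
    field_simp
    ring
  rw [e2]
  refine (abs_add_le _ _).trans ?_
  have h3 : |(M - m) * (1 + m / M)| ≤ 24 * a := by
    rw [abs_mul, abs_of_nonneg (by linarith : 0 ≤ 1 + m / M)]
    have h4 := abs_nonneg (M - m)
    nlinarith
  have h5 : |M * k1 - m ^ 2 / M * k2| ≤ 3 / 2 * (k1 + k2) := by
    have h6 : M * k1 ≤ 3 / 2 * k1 := mul_le_mul_of_nonneg_right (by linarith) hk1
    have h7 : m ^ 2 / M * k2 ≤ 3 / 2 * k2 := mul_le_mul_of_nonneg_right hq2 hk2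
    have h8 : 0 ≤ M * k1 := mul_nonneg hM0.le hk1
    have h9 : 0 ≤ m ^ 2 / M * k2 := mul_nonneg hq3 hk2
    rw [abs_le]
    constructor <;> linarith
  linarith

/-- the estimate of the antilinear part -/
private theorem TrN_cplx {M m a k1 k2 β : ℝ} {v1 v2 u : ℂ} (hm1 : 9 / 25 ≤ m)
    (hm2 : m ≤ 51 / 50) (ha1 : a ≤ 1 / 100) (hMm : |M - m| ≤ 10 * a) (hk1 : 0 ≤ k1)
    (hk2 : 0 ≤ k2) (hk1' : k1 ≤ 1 / 10000) (hk2' : k2 ≤ 1 / 10000) (hu : ‖u‖ = 1) (hβ : 0 ≤ β)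
    (h1 : ‖v1 - (M : ℂ) * u‖ ≤ β) (h2 : ‖v2 - I * u / (M : ℂ)‖ ≤ β) :
    ‖v1 * ((1 + k1 : ℝ) : ℂ) + I * (v2 * (((1 + k2) * m ^ 2 : ℝ) : ℂ))‖ ≤
      24 * a + 3 / 2 * (k1 + k2) + 21 / 10 * β := by
  have h0 := abs_le.1 hMm
  have hM1 : 26 / 100 ≤ M := by linarith [h0.1]
  have hM0 : (M : ℂ) ≠ 0 := by
    rw [ofReal_ne_zero]
    linarith
  have e : v1 * ((1 + k1 : ℝ) : ℂ) + I * (v2 * (((1 + k2) * m ^ 2 : ℝ) : ℂ)) =
      ((M * (1 + k1) - m ^ 2 / M * (1 + k2) : ℝ) : ℂ) * u +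
        ((v1 - (M : ℂ) * u) * ((1 + k1 : ℝ) : ℂ) +
          (v2 - I * u / (M : ℂ)) * (I * (((1 + k2) * m ^ 2 : ℝ) : ℂ))) := by
    push_cast
    field_simp
    linear_combination (u * m ^ 2 * (1 + k2)) * Complex.I_sq
  rw [e]
  refine (norm_add_le _ _).trans ?_
  have h3 : ‖((M * (1 + k1) - m ^ 2 / M * (1 + k2) : ℝ) : ℂ) * u‖ ≤
      24 * a + 3 / 2 * (k1 + k2) := by
    rw [norm_mul, hu, mul_one, norm_real, Real.norm_eq_abs]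
    exact TrN_real hm1 hm2 ha1 hMm hk1 hk2
  have h4 : ‖(v1 - (M : ℂ) * u) * ((1 + k1 : ℝ) : ℂ)‖ ≤ β * (1 + k1) := by
    rw [norm_mul, norm_real, Real.norm_eq_abs, abs_of_nonneg (by linarith : 0 ≤ 1 + k1)]
    exact mul_le_mul_of_nonneg_right h1 (by linarith)
  have hm0 : 0 ≤ (1 + k2) * m ^ 2 := by positivity
  have h5 : ‖(v2 - I * u / (M : ℂ)) * (I * (((1 + k2) * m ^ 2 : ℝ) : ℂ))‖ ≤
      β * ((1 + k2) * m ^ 2) := by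
    rw [norm_mul, norm_mul, norm_I, one_mul, norm_real, Real.norm_eq_abs, abs_of_nonneg hm0]
    exact mul_le_mul_of_nonneg_right h2 hm0
  have h6 := norm_add_le ((v1 - (M : ℂ) * u) * ((1 + k1 : ℝ) : ℂ))
    ((v2 - I * u / (M : ℂ)) * (I * (((1 + k2) * m ^ 2 : ℝ) : ℂ)))
  have h7 : (1 + k1) + (1 + k2) * m ^ 2 ≤ 21 / 10 := by
    have h8 : m ^ 2 ≤ 105 / 100 := by nlinarith
    nlinarith [sq_nonneg m]
  have h9 := mul_le_mul_of_nonneg_left h7 hβ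
  linarith

theorem tr_der {κ P : ℝ → ℝ} {ε δ C : ℝ} (h : KP κ P ε δ C) {y0 : ℝ} {V V1 V2 : ℂ → ℂ} {Y : ℂ}
    (hV : HasFDerivAt V (fr (V1 (zz P y0 Y)) (V2 (zz P y0 Y))) (zz P y0 Y)) :
    HasFDerivAt (fun X => V (zz P y0 X) / (ε : ℂ))
      (CAPU.lin ((D1 κ P y0 ε V1 Y - I * D2 κ P y0 ε V2 Y) / 2)
        ((D1 κ P y0 ε V1 Y + I * D2 κ P y0 ε V2 Y) / 2)) Y := by
  have h1 := (hV.comp Y (zz_der h y0 Y)).mul_const ((ε : ℂ)⁻¹)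
  have e : (fun X => V (zz P y0 X) / (ε : ℂ)) = fun X => (V ∘ zz P y0) X * (ε : ℂ)⁻¹ := by
    funext X
    rw [div_eq_mul_inv, Function.comp_apply]
  rw [e]
  refine h1.congr_fderiv (ContinuousLinearMap.ext fun v => ?_)
  have e2 : CAPU.lin ((D1 κ P y0 ε V1 Y - I * D2 κ P y0 ε V2 Y) / 2)
      ((D1 κ P y0 ε V1 Y + I * D2 κ P y0 ε V2 Y) / 2) v =
      (v.re : ℂ) * D1 κ P y0 ε V1 Y + (v.im : ℂ) * D2 κ P y0 ε V2 Y := by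
    have e3 : CAPU.lin ((D1 κ P y0 ε V1 Y - I * D2 κ P y0 ε V2 Y) / 2)
        ((D1 κ P y0 ε V1 Y + I * D2 κ P y0 ε V2 Y) / 2) v =
        (D1 κ P y0 ε V1 Y - I * D2 κ P y0 ε V2 Y) / 2 * v +
        (D1 κ P y0 ε V1 Y + I * D2 κ P y0 ε V2 Y) / 2 * (starRingEnd ℂ) v := rfl
    have e4 : v = (v.re : ℂ) + (v.im : ℂ) * I := (re_add_im v).symm
    have e5 : (starRingEnd ℂ) v = (v.re : ℂ) - (v.im : ℂ) * I := by
      apply Complex.ext <;> simp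
    rw [e3, e5]
    nth_rewrite 1 [e4]
    linear_combination (-((v.im : ℂ) * D2 κ P y0 ε V2 Y)) * Complex.I_sq
  rw [e2]
  have e6 : (fr ((1 + κ Y.re : ℝ) : ℂ) (I * (((1 + κ (ty y0 Y.im)) * my y0 Y.im ^ 2 : ℝ) : ℂ)) v)
      = ⟨v.re * (1 + κ Y.re), v.im * ((1 + κ (ty y0 Y.im)) * my y0 Y.im ^ 2)⟩ := by
    exact TrN_fr _ _ _
  change (ε : ℂ)⁻¹ • ((fr (V1 (zz P y0 Y)) (V2 (zz P y0 Y)))
    (fr ((1 + κ Y.re : ℝ) : ℂ) (I * (((1 + κ (ty y0 Y.im)) * my y0 Y.im ^ 2 : ℝ) : ℂ)) v)) = _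
  rw [e6, fr_apply, smul_eq_mul]
  unfold D1 D2
  push_cast
  ring

theorem tr_norm {κ P : ℝ → ℝ} {ε δ C : ℝ} (h : KP κ P ε δ C) {y0 β : ℝ} {V1 V2 : ℂ → ℂ} {Z u : ℂ}
    (h0 : 0 ≤ y0) (hε : 0 < ε) (hC : C ^ 2 * ε ≤ 1) (hC0 : 0 ≤ C) (hε1 : ε ≤ 1 / 10000)
    (hδ : δ ≤ 1 / 10000)
    (hZ : Z ∈ Win y0) (hu : ‖u‖ = 1) (hβ : 0 ≤ β) (hβ1 : β ≤ 1)
    (h1 : ‖V1 (zz P y0 Z) - (mm (1 / Real.cosh y0) (zz P y0 Z).im : ℂ) * u‖ ≤ β)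
    (h2 : ‖V2 (zz P y0 Z) - I * u / (mm (1 / Real.cosh y0) (zz P y0 Z).im : ℂ)‖ ≤ β) :
    ‖(D1 κ P y0 ε V1 Z + I * D2 κ P y0 ε V2 Z) / 2‖ ^ 2 ≤
        100000 * (my y0 Z.im / ε) ^ 2 * (ε + (κ Z.re + κ (ty y0 Z.im)) ^ 2 + β ^ 2) ∧
      ‖(D1 κ P y0 ε V1 Z - I * D2 κ P y0 ε V2 Z) / 2‖ ^ 2 =
        ‖(D1 κ P y0 ε V1 Z + I * D2 κ P y0 ε V2 Z) / 2‖ ^ 2 +
          (my y0 Z.im / ε) ^ 2 * cr (V1 (zz P y0 Z)) (V2 (zz P y0 Z)) * (1 + κ Z.re) *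
            (1 + κ (ty y0 Z.im)) := by
  obtain ⟨-, -, hZ1, hZ2⟩ := hZ
  refine ⟨?_, ?_⟩
  · obtain ⟨hS1, hS2⟩ := ty_range h0 hZ1 hZ2
    obtain ⟨hm1, hm2⟩ := my_bd h0 (by linarith : y0 - 1 / 100 ≤ Z.im)
      (by linarith : Z.im ≤ y0 + 1 + 1 / 100)
    have hcosh : 1 ≤ Real.cosh y0 := Real.one_le_cosh y0
    have hT0 : 0 ≤ 1 / Real.cosh y0 := by positivity
    have hT1 : 1 / Real.cosh y0 ≤ 1 := by
      rw [div_le_one (by linarith)]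
      exact hcosh
    have hsh := h.sh (ty y0 Z.im) (abs_le.2 ⟨by linarith, by linarith⟩)
    have ha0 : 0 ≤ C * ε := mul_nonneg hC0 hε.le
    have ha2 : (C * ε) ^ 2 ≤ ε := by
      have e : (C * ε) ^ 2 = C ^ 2 * ε * ε := by ring
      rw [e]
      have := mul_le_mul_of_nonneg_right hC hε.le
      linarith
    have ha1 : C * ε ≤ 1 / 100 := by
      by_contra hcon
      push Not at hcon
      nlinarith
    have hsh' := abs_le.1 hsh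
    have hMm : |mm (1 / Real.cosh y0) (P (ty y0 Z.im)) - my y0 Z.im| ≤ 10 * (C * ε) := by
      rw [← mm_ty y0 Z.im]
      refine (mm_lip hT0 hT1 ?_ ?_ ?_ ?_).trans (by linarith)
      · linarith [hsh'.1]
      · linarith [hsh'.2]
      · linarith
      · linarith
    have hk1 := h.lo Z.re
    have hk2 := h.lo (ty y0 Z.im)
    have hk1' := (h.hi Z.re).trans hδ
    have hk2' := (h.hi (ty y0 Z.im)).trans hδ
    have hzz : (zz P y0 Z).im = P (ty y0 Z.im) := rfl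
    rw [hzz] at h1 h2
    have hN := TrN_cplx hm1 hm2 ha1 hMm hk1 hk2 hk1' hk2' hu hβ h1 h2
    have eD : (D1 κ P y0 ε V1 Z + I * D2 κ P y0 ε V2 Z) / 2 =
        (V1 (zz P y0 Z) * ((1 + κ Z.re : ℝ) : ℂ) + I * (V2 (zz P y0 Z) *
          (((1 + κ (ty y0 Z.im)) * my y0 Z.im ^ 2 : ℝ) : ℂ))) / ((2 * ε : ℝ) : ℂ) := by
      have hε' : (ε : ℂ) ≠ 0 := ofReal_ne_zero.2 hε.ne'
      unfold D1 D2
      push_cast
      field_simp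
    rw [eD, norm_div, norm_real, Real.norm_of_nonneg (by positivity)]
    exact TrN_fin (norm_nonneg _) hN hε ha2 hm1
  · rw [TrN_alg]
    unfold D1 D2
    rw [TrN_cr]
    ring

end Pool.Agent.CAPV
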