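import Pool.Agent.Lib.MP_488b8a_co_V.KDef

/-! Project SO (MP_488b8a_co), module TrQ: the inequality behind the transfer. -/

namespace Pool.Agent.CAPV

private lemma trq_sq (w : ℝ) (h0 : 0 ≤ w) (h3 : w ≤ 3) : (1 + w / 3) ^ 2 ≤ 1 + w := by
  nlinarith

private lemma trq_prod (k1 k2 : ℝ) (h1 : 0 ≤ k1) (h2 : 0 ≤ k2) :
    1 + (k1 + k2) ≤ (1 + k1) * (1 + k2) := by
  nlinarith [mul_nonneg h1 h2]

private lemma trq_prod' (k1 k2 : ℝ) (h1 : 0 ≤ k1) (h2 : 0 ≤ k2) (h3 : k1 ≤ 1) :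
    (1 + k1) * (1 + k2) ≤ 1 + 2 * (k1 + k2) := by
  nlinarith [mul_nonneg h1 h2, mul_le_mul_of_nonneg_right h3 h2]

private lemma trq_low (q κ D : ℝ) (hq : 0 ≤ q) (hκ : 0 ≤ κ) (hκ2 : κ ≤ 1 / 12)
    (hD : 1 + q ≤ D + 3 / 4 * κ) : 1 + (q + 3 / 16 * κ) ≤ D * (1 + κ) := by
  have h2 : (1 + q - 3 / 4 * κ) * (1 + κ) ≤ D * (1 + κ) :=
    mul_le_mul_of_nonneg_right (by linarith) (by linarith)
  have h3 : 0 ≤ q * κ := mul_nonneg hq hκ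
  have h4 : κ * κ ≤ 1 / 12 * κ := mul_le_mul_of_nonneg_right hκ2 hκ
  nlinarith

theorem tr_alg (C1 : ℝ) (h1 : 1 ≤ C1) : ∃ CR C δ : ℝ, 1 ≤ CR ∧ 1 ≤ C ∧ 0 < δ ∧ δ ≤ 1 / 10000 ∧
    ∀ a b c e D β L ε Lm κ1 κ2 : ℝ, 0 < ε → ε ≤ δ → 0 ≤ κ1 → κ1 ≤ δ → 0 ≤ κ2 → κ2 ≤ δ → 0 ≤ β →
      0 ≤ L → 0 ≤ e → 0 < c → 0 ≤ a → 0 ≤ b → 0 ≤ Lm →
      a ^ 2 = b ^ 2 + c ^ 2 * D * (1 + κ1) * (1 + κ2) →
      b ^ 2 ≤ C1 * c ^ 2 * (ε + (κ1 + κ2) ^ 2 + β ^ 2) →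
      Lm ≤ C1 * c ^ 2 * (ε * L + ε + δ * (κ1 + κ2)) →
      1 + CR * (β ^ 2 + ε + ε * L) ≤ D + 3 / 4 * (κ1 + κ2) → D + β ^ 2 ≤ 1 + e → CR * β ≤ 1 →
      CR * (ε * L) ≤ 1 →
      c ≤ a ∧ 10 * b ≤ c ∧ 100 * Lm ≤ c ^ 2 ∧
        c * (1 + 4 * b ^ 2 / c ^ 2 + 5 * Lm / c ^ 2) ≤ a ∧
        a ^ 2 ≤ c ^ 2 * (1 + C * (e + (κ1 + κ2) + ε)) := by
  have hC0 : 0 < C1 := by linarith
  obtain ⟨δ, hδ⟩ : ∃ δ : ℝ, δ = 1 / (10 ^ 6 * C1 ^ 2) := ⟨_, rfl⟩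
  have hδ0 : 0 < δ := by rw [hδ]; positivity
  have hδC2 : δ * C1 ^ 2 = 1 / 10 ^ 6 := by rw [hδ]; field_simp
  have hC1sq : C1 ≤ C1 ^ 2 := by nlinarith
  have hδC : C1 * δ ≤ 1 / 1000000 := by
    have := mul_le_mul_of_nonneg_left hC1sq hδ0.le
    norm_num at hδC2
    linarith
  have hδ1 : δ ≤ 1 / 1000000 := by
    have := mul_le_mul_of_nonneg_right h1 hδ0.le
    linarith
  refine ⟨1000 * C1, 2 * C1 + 2, δ, by linarith, by linarith, hδ0, by linarith, ?_⟩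
  intro a b c e D β L ε Lm κ1 κ2 hε hεδ hk1 hk1δ hk2 hk2δ hβ hL he hc ha hb hLm hA hB hM hD1 hD2
    hCβ hCL
  clear hδC2 hC1sq
  have hk12 := trq_prod κ1 κ2 hk1 hk2
  have hk12' := trq_prod' κ1 κ2 hk1 hk2 (by linarith)
  obtain ⟨κ, hκ⟩ : ∃ κ : ℝ, κ = κ1 + κ2 := ⟨_, rfl⟩
  obtain ⟨x, hx⟩ : ∃ x : ℝ, x = ε * L := ⟨_, rfl⟩
  rw [← hκ] at hB hM hD1 hk12 hk12' ⊢
  rw [← hx] at hM hD1 hCL
  have hκ0 : 0 ≤ κ := by linarith
  have hκδ : κ ≤ 2 * δ := by linarith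
  have hx0 : 0 ≤ x := by rw [hx]; positivity
  have hc2 : 0 < c ^ 2 := by positivity
  -- small quantities
  have hβC : C1 * β ≤ 1 / 1000 := by linarith
  have hβ1 : β ≤ 1 / 1000 := by
    have := mul_le_mul_of_nonneg_right h1 hβ
    linarith
  have hCββ : C1 * β ^ 2 ≤ 1 / 1000000 := by
    have h2 := mul_le_mul hβC hβ1 hβ (by norm_num)
    have h3 : C1 * β ^ 2 = C1 * β * β := by ring
    rw [h3]
    norm_num at h2 ⊢
    linarith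
  have hCε : C1 * ε ≤ 1 / 1000000 := le_trans (mul_le_mul_of_nonneg_left hεδ hC0.le) hδC
  have hCε0 : 0 ≤ C1 * ε := by positivity
  have hCx : C1 * x ≤ 1 / 1000 := by linarith
  have hCx0 : 0 ≤ C1 * x := by positivity
  have hCκ : C1 * κ ≤ 2 / 1000000 := by
    have := mul_le_mul_of_nonneg_left hκδ hC0.le
    linarith
  have hCκ0 : 0 ≤ C1 * κ := by positivity
  have hCββ0 : 0 ≤ C1 * β ^ 2 := by positivity
  have hCκκ : C1 * κ ^ 2 ≤ 2 / 1000000 * κ := by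
    have h2 := mul_le_mul_of_nonneg_right hCκ hκ0
    have h3 : C1 * κ ^ 2 = C1 * κ * κ := by ring
    rw [h3]
    exact h2
  have hCδκ : C1 * (δ * κ) ≤ 1 / 1000000 * κ := by
    have h2 := mul_le_mul_of_nonneg_right hδC hκ0
    have h3 : C1 * (δ * κ) = C1 * δ * κ := by ring
    rw [h3]
    exact h2
  have hCδκ0 : 0 ≤ C1 * (δ * κ) := by positivity
  have hCκκ0 : 0 ≤ C1 * κ ^ 2 := by positivity
  -- the quantity q and w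
  obtain ⟨q, hq⟩ : ∃ q : ℝ, q = 1000 * C1 * (β ^ 2 + ε + x) := ⟨_, rfl⟩
  have hq0 : 0 ≤ q := by rw [hq]; positivity
  have hq' : q = 1000 * (C1 * β ^ 2) + 1000 * (C1 * ε) + 1000 * (C1 * x) := by rw [hq]; ring
  have hβe : β ^ 2 ≤ e + κ := by
    rw [← hq] at hD1
    linarith
  rw [← hq] at hD1
  have hq1 : q ≤ 2 := by rw [hq']; linarith
  obtain ⟨w, hw⟩ : ∃ w : ℝ, w = q + 3 / 16 * κ := ⟨_, rfl⟩
  have hw0 : 0 ≤ w := by rw [hw]; positivity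
  have hw3 : w ≤ 3 := by rw [hw]; linarith
  have hsq : (1 + w / 3) ^ 2 ≤ 1 + w := trq_sq w hw0 hw3
  -- the lower bound for the product
  have hD0 : 0 ≤ D := by linarith
  have hDκ : 1 + w ≤ D * (1 + κ) := by
    rw [hw]
    exact trq_low q κ D hq0 hκ0 (by linarith) hD1
  have hP : 1 + w ≤ D * ((1 + κ1) * (1 + κ2)) :=
    le_trans hDκ (mul_le_mul_of_nonneg_left hk12 hD0)
  have hA' : a ^ 2 = b ^ 2 + c ^ 2 * (D * ((1 + κ1) * (1 + κ2))) := by rw [hA]; ring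
  have hAlow : (c * (1 + w / 3)) ^ 2 ≤ a ^ 2 := by
    have h2 : c ^ 2 * (1 + w / 3) ^ 2 ≤ c ^ 2 * (D * ((1 + κ1) * (1 + κ2))) :=
      mul_le_mul_of_nonneg_left (le_trans hsq hP) hc2.le
    have h3 : 0 ≤ b ^ 2 := by positivity
    rw [mul_pow, hA']
    linarith
  have hcw : c * (1 + w / 3) ≤ a := (abs_le_of_sq_le_sq' hAlow ha).2
  have hca : c ≤ a := by
    have h2 : 0 ≤ c * (w / 3) := by positivity
    have h3 : c * (1 + w / 3) = c + c * (w / 3) := by ring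
    linarith
  -- the bounds for b and Lm
  have hB' : b ^ 2 ≤ c ^ 2 * (C1 * ε + C1 * κ ^ 2 + C1 * β ^ 2) := by
    calc b ^ 2 ≤ C1 * c ^ 2 * (ε + κ ^ 2 + β ^ 2) := hB
      _ = _ := by ring
  have hM' : Lm ≤ c ^ 2 * (C1 * x + C1 * ε + C1 * (δ * κ)) := by
    calc Lm ≤ C1 * c ^ 2 * (x + ε + δ * κ) := hM
      _ = _ := by ring
  refine ⟨hca, ?_, ?_, ?_, ?_⟩
  · have h2 : (10 * b) ^ 2 ≤ c ^ 2 := by
      have h3 : c ^ 2 * (C1 * ε + C1 * κ ^ 2 + C1 * β ^ 2) ≤ c ^ 2 * (1 / 100) :=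
        mul_le_mul_of_nonneg_left (by linarith) hc2.le
      have h4 : (10 * b) ^ 2 = 100 * b ^ 2 := by ring
      rw [h4]
      linarith
    exact (abs_le_of_sq_le_sq' h2 hc.le).2
  · have h3 : c ^ 2 * (C1 * x + C1 * ε + C1 * (δ * κ)) ≤ c ^ 2 * (1 / 100) :=
      mul_le_mul_of_nonneg_left (by linarith) hc2.le
    linarith
  · refine le_trans (mul_le_mul_of_nonneg_left ?_ hc.le) hcw
    have h2 : 4 * b ^ 2 / c ^ 2 ≤ 4 * (C1 * ε + C1 * κ ^ 2 + C1 * β ^ 2) := by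
      rw [div_le_iff₀ hc2]; linarith
    have h3 : 5 * Lm / c ^ 2 ≤ 5 * (C1 * x + C1 * ε + C1 * (δ * κ)) := by
      rw [div_le_iff₀ hc2]; linarith
    rw [hw, hq']
    linarith
  · -- the upper bound
    have hD1e : D ≤ 1 + e := by
      have := sq_nonneg β
      linarith
    have h2 : D * ((1 + κ1) * (1 + κ2)) ≤ (1 + e) * (1 + 2 * κ) :=
      mul_le_mul hD1e hk12' (by positivity) (by linarith)
    have h3 : (1 + e) * (1 + 2 * κ) ≤ 1 + 2 * e + 2 * κ := by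
      have : e * κ ≤ e * (1 / 2) := mul_le_mul_of_nonneg_left (by linarith) he
      linarith
    have h4 : C1 * κ ^ 2 ≤ C1 * κ := by
      have : 2 / 1000000 * κ ≤ 1 * κ := mul_le_mul_of_nonneg_right (by norm_num) hκ0
      have := mul_le_mul_of_nonneg_right h1 hκ0
      linarith
    have h5 : C1 * β ^ 2 ≤ C1 * (e + κ) := mul_le_mul_of_nonneg_left hβe hC0.le
    have h6 : 0 ≤ C1 * e := by positivity
    have h7 : a ^ 2 ≤ c ^ 2 * (C1 * ε + C1 * κ ^ 2 + C1 * β ^ 2) +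
        c ^ 2 * (1 + 2 * e + 2 * κ) := by
      have := mul_le_mul_of_nonneg_left (le_trans h2 h3) hc2.le
      rw [hA']
      linarith
    refine le_trans h7 ?_
    rw [← mul_add]
    refine mul_le_mul_of_nonneg_left ?_ hc2.le
    linarith

end Pool.Agent.CAPV
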