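import Pool.Agent.Lib.MP_488b8a_co_V.Det
import Pool.Agent.Lib.MP_488b8a_co_V.Bas

/-! Project SO (MP_488b8a_co), module ZeB: distances in the `H`-plane. -/

namespace Pool.Agent.CAPV

open Complex

private theorem ZeB_p {S : SD} {K t : ℝ} (hS : S.Hyp K t) {i : ℕ} (hi : i < S.N) :
    S.p i ∈ SB S.h S.N := by
  have h0 := hS.h0
  have h1 : (S.p i).re = i * S.h := rfl
  have h2 : (S.p i).im = 0 := rfl
  have h3 : (0 : ℝ) ≤ i * S.h := by positivity
  have h4 : (i : ℝ) ≤ (S.N : ℝ) + 1 := by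
    exact_mod_cast (by omega : i ≤ S.N + 1)
  refine ⟨?_, ?_, ?_⟩
  · rw [h1]
    linarith
  · rw [h1]
    exact mul_le_mul_of_nonneg_right h4 h0.le
  · rw [h2, abs_zero]
    positivity

/-- lower bound for the linear map -/
private theorem ZeB_lin {a b v : ℂ} {K : ℝ} (ha : ‖a‖ ≤ K) (hb : ‖b‖ ≤ K)
    (hc : 1 / 2 ≤ cr a b) : ‖v‖ ≤ 4 * K * ‖fr a b v‖ := by
  have e1 : cr a (fr a b v) = v.im * cr a b := by
    rw [fr_apply]
    unfold cr
    simp only [add_re, add_im, mul_re, mul_im, ofReal_re, ofReal_im, zero_mul, sub_zero, add_zero]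
    ring
  have e2 : cr (fr a b v) b = v.re * cr a b := by
    rw [fr_apply]
    unfold cr
    simp only [add_re, add_im, mul_re, mul_im, ofReal_re, ofReal_im, zero_mul, sub_zero, add_zero]
    ring
  have h1 := cr_abs_le a (fr a b v)
  have h2 := cr_abs_le (fr a b v) b
  have hn := norm_nonneg (fr a b v)
  have hc0 : 0 < cr a b := by linarith
  rw [e1, abs_mul, abs_of_pos hc0] at h1
  rw [e2, abs_mul, abs_of_pos hc0] at h2
  have h3 : |v.im| * (1 / 2) ≤ K * ‖fr a b v‖ :=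
    (mul_le_mul_of_nonneg_left hc (abs_nonneg _)).trans
      (h1.trans (mul_le_mul_of_nonneg_right ha hn))
  have h4 : |v.re| * (1 / 2) ≤ K * ‖fr a b v‖ := by
    refine (mul_le_mul_of_nonneg_left hc (abs_nonneg _)).trans (h2.trans ?_)
    rw [mul_comm]
    exact mul_le_mul_of_nonneg_right hb hn
  have h5 := Complex.norm_le_abs_re_add_abs_im v
  linarith

theorem ze_bd (K : ℝ) (hK : 1 ≤ K) : ∃ t0 : ℝ, 0 < t0 ∧ ∀ (S : SD) (t : ℝ), S.Hyp K t → t ≤ t0 →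
    ∀ i < S.N, ∀ z ∈ SB S.h S.N, ‖z - S.p i‖ ≤ 3 * S.h →
      ‖z - S.p i‖ ≤ 8 * K * (S.ε * ‖S.ze i z‖) ∧ S.ε * ‖S.ze i z‖ ≤ 2 * K * ‖z - S.p i‖ := by
  have hK0 : 0 < K := by linarith
  refine ⟨1 / (100 * K ^ 2), by positivity, fun S t hS ht i hi z hz hd => ?_⟩
  obtain ⟨bH1, bH2, -, -, -, -, -, hH, -⟩ := hS.basic
  have hp := ZeB_p hS hi
  have h0 := hS.h0
  have e0 := hS.e0
  have ht0 : 0 < t := by
    by_contra hcon
    have h1 : t * S.h ≤ 0 := mul_nonpos_of_nonpos_of_nonneg (not_lt.1 hcon) h0.le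
    linarith [hS.eh]
  have hX : S.ε * ‖S.ze i z‖ = ‖S.H z - S.H (S.p i)‖ := by
    unfold SD.ze
    rw [norm_div, Complex.norm_real, Real.norm_eq_abs, abs_of_pos e0]
    field_simp
  rw [hX]
  refine ⟨?_, hH z hz _ hp⟩
  set d : ℝ := ‖z - S.p i‖ with hdd
  have hd0 : 0 ≤ d := norm_nonneg _
  -- mean value inequality
  have hmv : ‖(S.H z - fr (S.H1 (S.p i)) (S.H2 (S.p i)) z) -
      (S.H (S.p i) - fr (S.H1 (S.p i)) (S.H2 (S.p i)) (S.p i))‖ ≤ 4 * K * d * d := by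
    have hconv : Convex ℝ (SB S.h S.N ∩ Metric.closedBall (S.p i) d) :=
      (SB_convex S.h S.N).inter (convex_closedBall _ _)
    refine hconv.norm_image_sub_le_of_norm_hasFDerivWithin_le
      (f := fun y => S.H y - fr (S.H1 (S.p i)) (S.H2 (S.p i)) y)
      (f' := fun y => fr (S.H1 y) (S.H2 y) - fr (S.H1 (S.p i)) (S.H2 (S.p i)))
      (fun y _ => ((hS.H_der y).sub
        (fr (S.H1 (S.p i)) (S.H2 (S.p i))).hasFDerivAt).hasFDerivWithinAt)
      (fun y hy => ?_) ⟨hp, Metric.mem_closedBall_self hd0⟩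
      ⟨hz, by rw [Metric.mem_closedBall, dist_eq_norm]⟩
    have e1 : fr (S.H1 y) (S.H2 y) - fr (S.H1 (S.p i)) (S.H2 (S.p i)) =
        fr (S.H1 y - S.H1 (S.p i)) (S.H2 y - S.H2 (S.p i)) := by
      refine ContinuousLinearMap.ext fun v => ?_
      rw [ContinuousLinearMap.sub_apply, fr_apply, fr_apply, fr_apply]
      ring
    rw [e1]
    refine (fr_norm_le _ _).trans ?_
    have h1 := bH1.2 y hy.1 _ hp
    have h2 := bH2.2 y hy.1 _ hp
    have h3 : ‖y - S.p i‖ ≤ d := by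
      rw [← dist_eq_norm]
      exact hy.2
    have h4 : 2 * K * ‖y - S.p i‖ ≤ 2 * K * d := mul_le_mul_of_nonneg_left h3 (by positivity)
    linarith
  have hcr : 1 / 2 ≤ cr (S.H1 (S.p i)) (S.H2 (S.p i)) := by
    rw [hS.H_det]
    have h1 := (abs_le.1 (cr_abs_le (S.w1 (S.p i)) (S.w2 (S.p i)))).2
    have h2 := hS.d1 _ hp
    have h3 := hS.d2 _ hp
    have h4 : ‖S.w1 (S.p i)‖ * ‖S.w2 (S.p i)‖ ≤ 1 * 1 :=
      mul_le_mul (h2.trans hS.t1) (h3.trans hS.t1) (norm_nonneg _) zero_le_one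
    linarith
  have hlin := ZeB_lin (v := z - S.p i) (bH1.1 _ hp) (bH2.1 _ hp) hcr
  have hLv : ‖fr (S.H1 (S.p i)) (S.H2 (S.p i)) (z - S.p i)‖ ≤
      ‖S.H z - S.H (S.p i)‖ + 4 * K * d * d := by
    have e1 : fr (S.H1 (S.p i)) (S.H2 (S.p i)) (z - S.p i) = (S.H z - S.H (S.p i)) -
        ((S.H z - fr (S.H1 (S.p i)) (S.H2 (S.p i)) z) -
      (S.H (S.p i) - fr (S.H1 (S.p i)) (S.H2 (S.p i)) (S.p i))) := by
      rw [map_sub]
      ring
    rw [e1]
    exact (norm_sub_le _ _).trans (add_le_add_right hmv _)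
  have h1 : d ≤ 4 * K * (‖S.H z - S.H (S.p i)‖ + 4 * K * d * d) :=
    hlin.trans (mul_le_mul_of_nonneg_left hLv (by positivity))
  have h2 : K ^ 2 * d ≤ 3 / 100 := by
    have h3 : d ≤ 3 * (1 / (100 * K ^ 2)) := by
      have h4 := hS.ht
      linarith
    have h4 : K ^ 2 * d ≤ K ^ 2 * (3 * (1 / (100 * K ^ 2))) :=
      mul_le_mul_of_nonneg_left h3 (by positivity)
    have h5 : K ^ 2 * (3 * (1 / (100 * K ^ 2))) = 3 / 100 := by
      field_simp
    linarith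
  have h3 : 16 * (K ^ 2 * d) * d ≤ 16 * (3 / 100) * d := by
    have h4 : 16 * (K ^ 2 * d) ≤ 16 * (3 / 100) := by linarith
    exact mul_le_mul_of_nonneg_right h4 hd0
  have hX0 : 0 ≤ K * ‖S.H z - S.H (S.p i)‖ := by positivity
  nlinarith [h1, h3, hX0]

end Pool.Agent.CAPV
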