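import Pool.Agent.Lib.MP_488b8a_co_V.IntM
import Pool.Agent.Lib.MP_488b8a_co_V.IntE

/-! Project SO (MP_488b8a_co), module ZonI: the integral of the density. -/

namespace Pool.Agent.CAPV

open Complex MeasureTheory

/-- the density of the centres -/
noncomputable def dens (p : Prm) (κ P : ℝ → ℝ) (y0 Cd : ℝ) (Cor : Finset (ℂ × ℕ)) (Z : ℂ) : ℝ :=
  (my y0 Z.im / p.ε) ^ 2 * (1 + Cd * (κ Z.re + κ (ty y0 Z.im) + p.ε +
    ∑ x ∈ Cor, en p (zz P y0 Z) x))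

theorem int_dens : ∃ C1 : ℝ, 0 ≤ C1 ∧ ∀ (κ P : ℝ → ℝ) (p : Prm) (δ C y0 Cd Ck : ℝ)
    (Cor : Finset (ℂ × ℕ)) (A : Set ℂ), KP κ P p.ε δ C → δ ≤ 1 / 100 → 0 ≤ y0 → p.ε ≤ 1 / 3000 →
    1 / 16 ^ (p.K + 1) ≤ p.ε → 0 ≤ C → 0 ≤ Cd → ∑ x ∈ Cor, ((x.2 : ℝ) + 1) ≤ Ck / p.ε →
    MeasurableSet A → A ⊆ BxV y0 p.ε → (∀ Z ∈ A, ∀ x ∈ Cor, p.ε ≤ ‖zz P y0 Z - x.1‖) →
    IntegrableOn (dens p κ P y0 Cd Cor) A ∧
      ∫ Z in A, dens p κ P y0 Cd Cor Z ≤
        2 * Real.pi * Real.cosh y0 ^ 2 * (Real.tanh (y0 + 1) - Real.tanh y0) / p.ε ^ 2 +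
          C1 * (1 + Cd * (1 + C + Ck)) / p.ε := by
  refine ⟨10 ^ 6, by norm_num, ?_⟩
  intro κ P p δ C y0 Cd Ck Cor A h hδ h0 hε1 elo hC hCd hCk hA hAB hx
  have hε : 0 < p.ε := lt_of_lt_of_le (by positivity) elo
  obtain ⟨hmyI, hmy⟩ := int_my h0 hε hε1
  obtain ⟨hkI, hk⟩ := int_kap h.cont h.lo h.int h0 hε hε1
  have hB := (BxV_meas y0 p.ε).1
  have hAB' : A ≤ᵐ[volume] BxV y0 p.ε := Filter.Eventually.of_forall hAB
  -- the size of the main term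
  have hJ1 : 0 ≤ 2 * Real.pi * Real.cosh y0 ^ 2 * (Real.tanh (y0 + 1) - Real.tanh y0) ∧
      2 * Real.pi * Real.cosh y0 ^ 2 * (Real.tanh (y0 + 1) - Real.tanh y0) ≤ 6 + 1 / 2 := by
    have e1 : Real.cosh y0 ^ 2 * (Real.tanh (y0 + 1) - Real.tanh y0) =
        ty y0 (y0 + 1) - ty y0 y0 := by
      simp only [ty]
      ring
    have t1 := ty_range (y0 := y0) (y := y0 + 1) h0 (by linarith) (by linarith)
    have t2 := ty_range (y0 := y0) (y := y0) h0 (by linarith) (by linarith)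
    have hpi := Real.pi_lt_d2
    have hpi0 := Real.pi_pos
    have e2 : 0 ≤ Real.cosh y0 ^ 2 * (Real.tanh (y0 + 1) - Real.tanh y0) := by
      rw [e1]
      obtain ⟨c, -, hc⟩ := exists_hasDerivAt_eq_slope (ty y0) (fun y => my y0 y ^ 2)
        (show y0 < y0 + 1 by linarith)
        (fun t _ => (ty_der y0 t).continuousAt.continuousWithinAt) (fun t _ => ty_der y0 t)
      rw [add_sub_cancel_left, div_one] at hc
      rw [← hc]
      positivity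
    rw [mul_assoc]
    constructor
    · positivity
    · have e3 : Real.cosh y0 ^ 2 * (Real.tanh (y0 + 1) - Real.tanh y0) ≤ 1 := by
        rw [e1]
        linarith [t1.1, t1.2, t2.1, t2.2]
      nlinarith
  set J := 2 * Real.pi * Real.cosh y0 ^ 2 * (Real.tanh (y0 + 1) - Real.tanh y0) with hJ
  -- the weight
  have hmycont : Continuous fun Z : ℂ => my y0 Z.im ^ 2 := by
    have hc : Continuous fun y : ℝ => my y0 y := by
      unfold my
      exact continuous_const.div Real.continuous_cosh fun y => (Real.cosh_pos y).ne'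
    exact (hc.comp continuous_im).pow 2
  have hmyb : ∀ Z ∈ BxV y0 p.ε, 0 ≤ my y0 Z.im ^ 2 ∧ my y0 Z.im ^ 2 ≤ 105 / 100 := by
    rintro Z ⟨-, -, z3, z4⟩
    obtain ⟨m1, m2⟩ := my_bd h0 (show y0 - 1 / 100 ≤ Z.im by linarith)
      (show Z.im ≤ y0 + 1 + 1 / 100 by linarith)
    exact ⟨sq_nonneg _, by nlinarith⟩
  have hen0 : ∀ z x, 0 ≤ en p z x := by
    intro z x
    unfold en
    split_ifs
    · positivity
    · exact le_rfl
  -- the function in the bracket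
  have hg1 : IntegrableOn (fun Z : ℂ => κ Z.re + κ (ty y0 Z.im)) A := hkI.mono_set hAB
  have hg2 : IntegrableOn (fun Z : ℂ => ∑ x ∈ Cor, en p (zz P y0 Z) x) A :=
    integrable_finsetSum _ fun x hxC =>
      (int_en h hδ h0 hε1 elo hA hAB x fun Z hZ => hx Z hZ x hxC).1
  have hg : IntegrableOn (fun Z : ℂ => κ Z.re + κ (ty y0 Z.im) +
      ∑ x ∈ Cor, en p (zz P y0 Z) x) A := hg1.add hg2
  have hmyA : IntegrableOn (fun Z : ℂ => my y0 Z.im ^ 2) A := hmyI.mono_set hAB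
  have hprod : IntegrableOn (fun Z : ℂ => my y0 Z.im ^ 2 * (κ Z.re + κ (ty y0 Z.im) +
      ∑ x ∈ Cor, en p (zz P y0 Z) x)) A := by
    refine Integrable.bdd_mul (c := 105 / 100) hg hmycont.aestronglyMeasurable ?_
    refine (ae_restrict_iff' hA).2 (Filter.Eventually.of_forall fun Z hZ => ?_)
    obtain ⟨m1, m2⟩ := hmyb Z (hAB hZ)
    rw [Real.norm_eq_abs, abs_of_nonneg m1]
    exact m2
  have hdens : dens p κ P y0 Cd Cor = fun Z : ℂ =>
      (1 / p.ε ^ 2 + Cd / p.ε) * my y0 Z.im ^ 2 +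
        Cd / p.ε ^ 2 * (my y0 Z.im ^ 2 * (κ Z.re + κ (ty y0 Z.im) +
          ∑ x ∈ Cor, en p (zz P y0 Z) x)) := by
    funext Z
    unfold dens
    field_simp
    ring
  have hI1 : IntegrableOn (fun Z : ℂ => (1 / p.ε ^ 2 + Cd / p.ε) * my y0 Z.im ^ 2) A :=
    hmyA.const_mul _
  have hI2 : IntegrableOn (fun Z : ℂ => Cd / p.ε ^ 2 * (my y0 Z.im ^ 2 *
      (κ Z.re + κ (ty y0 Z.im) + ∑ x ∈ Cor, en p (zz P y0 Z) x))) A := hprod.const_mul _
  rw [hdens]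
  refine ⟨hI1.add hI2, ?_⟩
  rw [integral_add hI1 hI2, integral_const_mul, integral_const_mul]
  -- bounds for the integrals
  have b1 : ∫ Z in A, my y0 Z.im ^ 2 ≤ J + 100 * p.ε := by
    refine le_trans (setIntegral_mono_set hmyI ?_ hAB') hmy
    exact Filter.Eventually.of_forall fun Z => sq_nonneg _
  have b2 : ∫ Z in A, (κ Z.re + κ (ty y0 Z.im)) ≤ 100 * (C * p.ε) := by
    refine le_trans (setIntegral_mono_set hkI ?_ hAB') hk
    exact Filter.Eventually.of_forall fun Z => add_nonneg (h.lo _) (h.lo _)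
  have b3 : ∫ Z in A, ∑ x ∈ Cor, en p (zz P y0 Z) x ≤ 10 ^ 5 * p.ε * Ck := by
    rw [integral_finsetSum _ fun x hxC =>
      (int_en h hδ h0 hε1 elo hA hAB x fun Z hZ => hx Z hZ x hxC).1]
    calc ∑ x ∈ Cor, ∫ Z in A, en p (zz P y0 Z) x
        ≤ ∑ x ∈ Cor, 10 ^ 5 * p.ε ^ 2 * ((x.2 : ℝ) + 1) :=
          Finset.sum_le_sum fun x hxC =>
            (int_en h hδ h0 hε1 elo hA hAB x fun Z hZ => hx Z hZ x hxC).2
      _ = 10 ^ 5 * p.ε ^ 2 * ∑ x ∈ Cor, ((x.2 : ℝ) + 1) := by rw [Finset.mul_sum]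
      _ ≤ 10 ^ 5 * p.ε ^ 2 * (Ck / p.ε) := by gcongr
      _ = 10 ^ 5 * p.ε * Ck := by field_simp
  have b4 : ∫ Z in A, my y0 Z.im ^ 2 * (κ Z.re + κ (ty y0 Z.im) +
      ∑ x ∈ Cor, en p (zz P y0 Z) x) ≤
      105 / 100 * (100 * (C * p.ε) + 10 ^ 5 * p.ε * Ck) := by
    have b5 : ∫ Z in A, my y0 Z.im ^ 2 * (κ Z.re + κ (ty y0 Z.im) +
        ∑ x ∈ Cor, en p (zz P y0 Z) x) ≤ ∫ Z in A, 105 / 100 * (κ Z.re + κ (ty y0 Z.im) +
        ∑ x ∈ Cor, en p (zz P y0 Z) x) := by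
      refine setIntegral_mono_on hprod (hg.const_mul _) hA fun Z hZ => ?_
      refine mul_le_mul_of_nonneg_right (hmyb Z (hAB hZ)).2 ?_
      exact add_nonneg (add_nonneg (h.lo _) (h.lo _)) (Finset.sum_nonneg fun x _ => hen0 _ _)
    refine b5.trans ?_
    rw [integral_const_mul, integral_add hg1 hg2]
    have := add_le_add b2 b3
    linarith
  have hCk0 : 0 ≤ Ck := by
    have h1 : 0 ≤ ∑ x ∈ Cor, ((x.2 : ℝ) + 1) := Finset.sum_nonneg fun x _ => by positivity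
    have h2 : 0 ≤ Ck / p.ε := h1.trans hCk
    by_contra h3
    push Not at h3
    have := div_neg_of_neg_of_pos h3 hε
    linarith
  have c1 : (1 / p.ε ^ 2 + Cd / p.ε) * ∫ Z in A, my y0 Z.im ^ 2 ≤
      (1 / p.ε ^ 2 + Cd / p.ε) * (J + 100 * p.ε) :=
    mul_le_mul_of_nonneg_left b1 (by positivity)
  have c2 := mul_le_mul_of_nonneg_left b4 (show 0 ≤ Cd / p.ε ^ 2 by positivity)
  refine (add_le_add c1 c2).trans ?_
  have e1 : (1 / p.ε ^ 2 + Cd / p.ε) * (J + 100 * p.ε) +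
      Cd / p.ε ^ 2 * (105 / 100 * (100 * (C * p.ε) + 10 ^ 5 * p.ε * Ck)) =
      J / p.ε ^ 2 + (100 + Cd * (J + 100 * p.ε) + 105 * (Cd * C) + 105000 * (Cd * Ck)) / p.ε := by
    field_simp
    ring
  rw [e1]
  refine add_le_add le_rfl (div_le_div_of_nonneg_right ?_ hε.le)
  have d1 : Cd * (J + 100 * p.ε) ≤ Cd * 7 := by
    refine mul_le_mul_of_nonneg_left ?_ hCd
    linarith [hJ1.2]
  have d2 : 0 ≤ Cd * C := mul_nonneg hCd hC
  have d3 : 0 ≤ Cd * Ck := mul_nonneg hCd hCk0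
  nlinarith

end Pool.Agent.CAPV
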