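import Pool.Agent.Lib.MP_488b8a_co_V.ZonV
import Pool.Agent.Lib.MP_488b8a_co_U.SpG

/-! Project SO (MP_488b8a_co), module ZonN: the covering of a zone of the sphere. -/

namespace Pool.Agent.CAPV

open CAPU

open Complex MeasureTheory

private theorem cosh_add_one_le (y : ℝ) : Real.cosh (y + 1) ≤ 2.72 * Real.cosh y := by
  have he := Real.exp_one_lt_d9
  have h0 : Real.cosh (y + 1) ≤ Real.exp 1 * Real.cosh y := by
    rw [Real.cosh_eq, Real.cosh_eq, neg_add, Real.exp_add, Real.exp_add]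
    have h1 := Real.exp_pos y
    have h2 := Real.exp_pos (-y)
    have h3 : Real.exp (-1) ≤ Real.exp 1 := Real.exp_le_exp.2 (by norm_num)
    nlinarith
  have := Real.cosh_pos y
  nlinarith

private theorem tanh_diff {y : ℝ} (hy : 0 ≤ y) :
    Real.tanh (y + 1) - Real.tanh y ≤ 1 / Real.cosh y ^ 2 := by
  have hc := Real.cosh_pos y
  have hs : 0 ≤ Real.sinh y := Real.sinh_nonneg_iff.2 hy
  have hcs := Real.cosh_sq y
  have h0 := Real.tanh_lt_one (y + 1)
  have h1 : 1 - Real.tanh y ≤ 1 / Real.cosh y ^ 2 := by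
    rw [Real.tanh_eq_sinh_div_cosh]
    have h1 : 1 - Real.sinh y / Real.cosh y =
        (Real.cosh y - Real.sinh y) * Real.cosh y / Real.cosh y ^ 2 := by
      field_simp
    rw [h1]
    apply div_le_div_of_nonneg_right _ (by positivity)
    have h2 : (Real.cosh y - Real.sinh y) * (Real.cosh y + Real.sinh y) = 1 := by nlinarith
    have h3 : 0 ≤ Real.cosh y - Real.sinh y := by
      by_contra hneg
      push Not at hneg
      nlinarith
    nlinarith
  linarith

/-- the cosine of `r` is below the value provided by `Sp_close` -/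
private theorem cos_cmp {r η : ℝ} (hr : 0 < r) (hη : r ≤ η) (hη1 : η ≤ 1 / 10) {x : ℝ}
    (hx0 : 0 ≤ x) (hx : x ≤ η) :
    Real.cos r ≤ 1 - (r * (1 - 2 * η)) ^ 2 / 2 * (1 + 2 * x) := by
  have h1 : Real.cos r ≤ 1 - r ^ 2 / 2 + r ^ 4 * (5 / 96) := by
    have hr1 : |r| ≤ 1 := by
      rw [abs_of_pos hr]
      linarith
    have := Real.cos_bound hr1
    rw [abs_le, abs_of_pos hr] at this
    linarith [this.2]
  have h2 : (r * (1 - 2 * η)) ^ 2 / 2 * (1 + 2 * x) ≤ (r * (1 - 2 * η)) ^ 2 / 2 * (1 + 2 * η) := by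
    gcongr
  have h3 : (1 - 2 * η) ^ 2 * (1 + 2 * η) ≤ 1 - 2 * η := by
    have : 0 ≤ η := by linarith
    nlinarith [mul_nonneg this this]
  have h4 : (r * (1 - 2 * η)) ^ 2 / 2 * (1 + 2 * η) ≤ r ^ 2 / 2 * (1 - 2 * η) := by
    have : (r * (1 - 2 * η)) ^ 2 / 2 * (1 + 2 * η) = r ^ 2 / 2 * ((1 - 2 * η) ^ 2 * (1 + 2 * η)) := by
      ring
    rw [this]
    gcongr
  have h5 : r ^ 4 * (5 / 96) ≤ r ^ 2 / 2 * (2 * η) := by
    have h6 : r ^ 2 * (5 / 96) ≤ η := by nlinarith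
    have h7 : 0 ≤ r ^ 2 := by positivity
    nlinarith
  linarith

theorem zone_sphN : ∃ C r₀ : ℝ, 0 < C ∧ 0 < r₀ ∧ r₀ ≤ 1 / 10 ∧ ∀ (r : ℝ) (j : ℕ), 0 < r →
    r * Real.cosh (j + 1) ≤ r₀ → ∃ Q : Finset (EuclideanSpace ℝ (Fin 3)), (∀ q ∈ Q, ‖q‖ = 1) ∧
    (∀ x : EuclideanSpace ℝ (Fin 3), ‖x‖ = 1 → Real.tanh j ≤ x 2 → x 2 ≤ Real.tanh (j + 1) →
      ∃ q ∈ Q, Real.cos r ≤ inner ℝ x q) ∧
    (Q.card : ℝ) ≤ 4 * Real.pi / (3 * Real.sqrt 3) * (Real.tanh (j + 1) - Real.tanh j) / r ^ 2 +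
      C / (r * Real.cosh j) := by
  classical
  obtain ⟨C₀, r1, hC₀, hr1, hr11, H⟩ := zone_V
  refine ⟨100 + 2 * C₀, r1, by positivity, hr1, by linarith, fun r j hr hrj => ?_⟩
  set y : ℝ := (j : ℝ) with hy
  have hy0 : 0 ≤ y := Nat.cast_nonneg j
  set c := Real.cosh y with hc
  set c' := Real.cosh (y + 1) with hc'
  have hc1 : 1 ≤ c := Real.one_le_cosh y
  have hcc' : c ≤ c' := by
    rw [hc, hc', Real.cosh_le_cosh, abs_of_nonneg hy0, abs_of_nonneg (by linarith)]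
    linarith
  have hc'c : c' ≤ 2.72 * c := cosh_add_one_le y
  set η := r * c' with hη
  have hη0 : η ≤ 1 / 10000 := hrj.trans hr11
  have hrη : r ≤ η := by nlinarith
  have hηpos : 0 < η := lt_of_lt_of_le hr hrη
  set ρ := r * (1 - 2 * η) with hρ
  have hρpos : 0 < ρ := by
    rw [hρ]
    apply mul_pos hr
    linarith
  have hρr : ρ ≤ r := by
    rw [hρ]
    nlinarith
  have hrρ : r ≤ 1.01 * ρ := by
    rw [hρ]
    nlinarith
  have hρc : ρ * Real.cosh y ≤ r1 := by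
    have h1 : ρ * c ≤ r * c' := by gcongr
    exact h1.trans hrj
  have h3a : (1.7 : ℝ) ≤ Real.sqrt 3 := by
    apply Real.le_sqrt_of_sq_le
    norm_num
  have h3pos : 0 < Real.sqrt 3 := by positivity
  have hpi4 := Real.pi_lt_d2
  obtain ⟨Q0, hQ1, hQ2⟩ := H ρ y hρpos hy0 hρc
  refine ⟨Q0.image Sp, ?_, ?_, ?_⟩
  · intro q hq
    rw [Finset.mem_image] at hq
    obtain ⟨z, _, rfl⟩ := hq
    exact Sp_norm z
  · intro x hx hx1 hx2
    have hx3 : |x 2| < 1 := by
      rw [abs_lt]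
      have h1 := Real.tanh_lt_one (y + 1)
      have h2 : 0 ≤ Real.tanh y := by
        rw [Real.tanh_eq_sinh_div_cosh]
        apply div_nonneg (Real.sinh_nonneg_iff.2 hy0) (Real.cosh_pos y).le
      constructor <;> linarith
    obtain ⟨Z, hZ0, hZ1, hZ2, hZ3⟩ := Sp_surj hx hx3
    have hmono : ∀ a b : ℝ, Real.tanh a ≤ Real.tanh b → a ≤ b := by
      intro a b hab
      have h1 : Real.tanh a ∈ Set.Ioo (-1 : ℝ) 1 := ⟨Real.neg_one_lt_tanh a, Real.tanh_lt_one a⟩
      have h2 : Real.tanh b ∈ Set.Ioo (-1 : ℝ) 1 := ⟨Real.neg_one_lt_tanh b, Real.tanh_lt_one b⟩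
      have h3 := Real.artanh_le_artanh h1.1 h2.2 hab
      rwa [Real.artanh_tanh, Real.artanh_tanh] at h3
    have hy1 : y ≤ Z.im := hmono _ _ (by rw [hZ2]; exact hx1)
    have hy2 : Z.im ≤ y + 1 := hmono _ _ (by rw [hZ2]; exact hx2)
    obtain ⟨q, hq1, hq2⟩ := hQ1 Z hZ0 hZ1 hy1 hy2
    refine ⟨Sp q, Finset.mem_image_of_mem _ hq1, ?_⟩
    have hcZ : Real.cosh Z.im ≤ c' := by
      rw [hc', Real.cosh_le_cosh, abs_of_nonneg (by linarith), abs_of_nonneg (by linarith)]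
      exact hy2
    have hcZ0 := Real.cosh_pos Z.im
    have hρη : ρ * Real.cosh Z.im ≤ η := by
      rw [hη]
      gcongr
    have h1 := Sp_close hρpos (Z := Z) (q := q) (by linarith) hq2
    rw [← hZ3]
    refine le_trans ?_ h1
    have h2 := cos_cmp hr hrη (by linarith) (x := ρ * Real.cosh Z.im) (by positivity) hρη
    rw [← hρ] at h2
    calc Real.cos r ≤ _ := h2
      _ = _ := by ring
  · have hcard : ((Q0.image Sp).card : ℝ) ≤ Q0.card := by exact_mod_cast Finset.card_image_le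
    refine hcard.trans (hQ2.trans ?_)
    set T := Real.tanh (y + 1) - Real.tanh y with hT
    have hT0 : 0 ≤ T := by
      have h1 : Real.tanh y ≤ Real.tanh (y + 1) := by
        by_contra hneg
        push Not at hneg
        have h1 : Real.tanh (y + 1) ∈ Set.Ioo (-1 : ℝ) 1 :=
          ⟨Real.neg_one_lt_tanh _, Real.tanh_lt_one _⟩
        have h2 : Real.tanh y ∈ Set.Ioo (-1 : ℝ) 1 := ⟨Real.neg_one_lt_tanh _, Real.tanh_lt_one _⟩
        have h3 := Real.artanh_le_artanh h1.1 h2.2 hneg.le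
        rw [Real.artanh_tanh, Real.artanh_tanh] at h3
        linarith
      linarith
    have hT1 : T ≤ 1 / c ^ 2 := tanh_diff hy0
    have hcpos : 0 < c := by linarith
    -- first term
    have hmain : 4 * Real.pi / (3 * Real.sqrt 3) * T / ρ ^ 2 ≤
        4 * Real.pi / (3 * Real.sqrt 3) * T / r ^ 2 + 100 / (r * c) := by
      have h1 : 1 / ρ ^ 2 ≤ 1 / r ^ 2 * (1 + 5 * η) := by
        rw [hρ, mul_pow, one_div, one_div, mul_inv]
        have h2 : ((1 - 2 * η) ^ 2)⁻¹ ≤ 1 + 5 * η := by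
          rw [inv_le_iff_one_le_mul₀ (by nlinarith)]
          nlinarith [mul_pos hηpos hηpos]
        gcongr
      have hA : 4 * Real.pi / (3 * Real.sqrt 3) ≤ 3 := by
        rw [div_le_iff₀ (by positivity)]
        nlinarith
      have hA0 : 0 ≤ 4 * Real.pi / (3 * Real.sqrt 3) := by positivity
      have h3 : 4 * Real.pi / (3 * Real.sqrt 3) * T / ρ ^ 2 ≤
          4 * Real.pi / (3 * Real.sqrt 3) * T * (1 / r ^ 2 * (1 + 5 * η)) := by
        rw [div_eq_mul_one_div]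
        gcongr
      refine h3.trans ?_
      have h4 : 4 * Real.pi / (3 * Real.sqrt 3) * T * (1 / r ^ 2 * (1 + 5 * η)) =
          4 * Real.pi / (3 * Real.sqrt 3) * T / r ^ 2 +
            (4 * Real.pi / (3 * Real.sqrt 3)) * T * (5 * η / r ^ 2) := by
        ring
      rw [h4]
      have h5 : (4 * Real.pi / (3 * Real.sqrt 3)) * T * (5 * η / r ^ 2) ≤
          3 * (1 / c ^ 2) * (5 * (r * (2.72 * c)) / r ^ 2) := by
        have h6 : η ≤ r * (2.72 * c) := by
          rw [hη]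
          gcongr
        gcongr
      have h7 : 3 * (1 / c ^ 2) * (5 * (r * (2.72 * c)) / r ^ 2) = 40.8 / (r * c) := by
        field_simp
        ring
      have h8 : 40.8 / (r * c) ≤ 100 / (r * c) := by
        apply div_le_div_of_nonneg_right _ (by positivity)
        norm_num
      linarith
    -- second term
    have hsec : C₀ / (ρ * c) ≤ 2 * C₀ / (r * c) := by
      rw [div_le_div_iff₀ (by positivity) (by positivity)]
      have h9 : C₀ * (r * c) ≤ C₀ * (1.01 * ρ * c) := by gcongr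
      have h10 : 0 ≤ C₀ * (ρ * c) := by positivity
      nlinarith
    have hfin : (100 + 2 * C₀) / (r * c) = 100 / (r * c) + 2 * C₀ / (r * c) := by ring
    rw [hfin]
    linarith

end Pool.Agent.CAPV
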