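import Pool.Agent.Lib.MP_488b8a_co_V.Reg
import Pool.Agent.Lib.MP_488b8a_co_V.KpF
import Pool.Agent.Lib.MP_488b8a_co_V.TrB
import Pool.Agent.Lib.MP_488b8a_co_V.CovT
import Pool.Agent.Lib.MP_488b8a_co_V.TilN
import Pool.Agent.Lib.MP_488b8a_co_V.NetV
import Pool.Agent.Lib.MP_488b8a_co_V.ZonI

/-! Project SO (MP_488b8a_co), module ZonV: the covering of a zone in the Mercator plane. -/

namespace Pool.Agent.CAPV

open Complex MeasureTheory

private theorem ZonV_K (k0 : ℕ) {ε : ℝ} (hε : 0 < ε) (h : ε ≤ 1 / 16 ^ k0) :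
    ∃ K : ℕ, k0 ≤ K ∧ 1 / 16 ^ (K + 1) ≤ ε ∧ ε ≤ 1 / 16 ^ K := by
  classical
  have hex : ∃ K : ℕ, k0 ≤ K ∧ 1 / (16 : ℝ) ^ (K + 1) ≤ ε := by
    obtain ⟨n, hn⟩ := exists_pow_lt_of_lt_one hε (show (1 / 16 : ℝ) < 1 by norm_num)
    refine ⟨max k0 n, le_max_left _ _, ?_⟩
    have h1 : (1 / 16 : ℝ) ^ (max k0 n + 1) ≤ (1 / 16 : ℝ) ^ n :=
      pow_le_pow_of_le_one (by norm_num) (by norm_num) ((le_max_right _ _).trans (Nat.le_succ _))
    rw [one_div_pow] at h1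
    linarith
  obtain ⟨h1, h2⟩ := Nat.find_spec hex
  refine ⟨Nat.find hex, h1, h2, ?_⟩
  rcases h1.eq_or_lt with h3 | h3
  · rw [← h3]
    exact h
  · have h4 : Nat.find hex - 1 < Nat.find hex := by omega
    have h5 := Nat.find_min hex h4
    have h6 : k0 ≤ Nat.find hex - 1 := by omega
    have h7 : Nat.find hex - 1 + 1 = Nat.find hex := by omega
    rw [h7] at h5
    by_contra h8
    exact h5 ⟨h6, (not_le.1 h8).le⟩

private theorem ZonV_ok {T ε CR κ κ' e : ℝ} {U : ℂ → ℂ} {z : ℂ} (h : Ok T ε CR κ e U z)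
    (hκ : κ ≤ κ') : Ok T ε CR κ' e U z := by
  obtain ⟨V, V1, V2, u, β, L, h1, h2, h3, h4, h5, h6, h7, h8, h9, h10⟩ := h
  exact ⟨V, V1, V2, u, β, L, h1, h2, h3, h4, h5, h6, by linarith, h8, h9, h10⟩

private theorem ZonV_en (p : Prm) (z : ℂ) (x : ℂ × ℕ) : 0 ≤ en p z x := by
  unfold en
  split_ifs
  · positivity
  · exact le_rfl

private theorem ZonV_box {y0 ε : ℝ} (hε1 : ε ≤ 1 / 10000) : BxV y0 ε ⊆ Win y0 := by
  rintro Z ⟨h1, h2, h3, h4⟩
  exact ⟨by linarith, by linarith, by linarith, by linarith⟩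

private theorem ZonV_core {P κ : ℝ → ℝ} {ε δ C y0 a I0 : ℝ} {N : ℕ} {Um : ℂ → ℂ} {dn : ℂ → ℝ}
    {Bad : Finset ℂ} (hKP : KP κ P ε δ C) (hδ : δ ≤ 1 / 100) (h0 : 0 ≤ y0) (hε : 0 < ε)
    (hε1 : ε ≤ 1 / 10000)
    (hG : ∀ Z ∈ Win y0, (∀ q ∈ Bad, a * ε ≤ ‖zz P y0 Z - q‖) →
      ∃ Ce, Trf (my y0 Z.im / ε) Ce Um Z ∧ (my y0 Z.im / ε) ^ 2 * (1 + Ce) ≤ dn Z)
    (hdn : ∀ Z, 0 ≤ dn Z)
    (hint : ∀ A : Set ℂ, MeasurableSet A → A ⊆ BxV y0 ε →
      (∀ Z ∈ A, ∀ q ∈ Bad, a * ε ≤ ‖zz P y0 Z - q‖) → IntegrableOn dn A ∧ ∫ Z in A, dn Z ≤ I0)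
    (hnet : ∀ q : ℂ, ∃ Q : Finset ℂ, Q.card ≤ N ∧
      ∀ Z ∈ Win y0, ‖zz P y0 Z - q‖ ≤ (a + 8) * ε → ∃ q' ∈ Q, ‖Z - q'‖ ≤ ε / 2) :
    ∃ Q : Finset ℂ,
      (∀ Z : ℂ, 0 ≤ Z.re → Z.re ≤ 2 * Real.pi → y0 ≤ Z.im → Z.im ≤ y0 + 1 →
        ∃ q ∈ Q, ‖Z - q‖ ≤ ε / my y0 Z.im) ∧
      (Q.card : ℝ) ≤ 2 / (3 * Real.sqrt 3) * I0 + Bad.card * N := by
  classical
  set A : Set ℂ := BxV y0 ε ∩ ⋂ q ∈ Bad, {Z | a * ε ≤ ‖zz P y0 Z - q‖} with hA
  have hmem : ∀ Z : ℂ, Z ∈ A ↔ Z ∈ BxV y0 ε ∧ ∀ q ∈ Bad, a * ε ≤ ‖zz P y0 Z - q‖ := by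
    intro Z
    rw [hA, Set.mem_inter_iff, Set.mem_iInter₂]
    rfl
  have hAm : MeasurableSet A := by
    refine (BxV_meas y0 ε).1.inter (IsClosed.measurableSet ?_)
    refine isClosed_biInter fun q _ => ?_
    exact isClosed_le continuous_const ((zz_cont hKP y0).sub continuous_const).norm
  have hAb : Bornology.IsBounded A := (BxV_meas y0 ε).2.subset Set.inter_subset_left
  obtain ⟨hi1, hi2⟩ := hint A hAm Set.inter_subset_left fun Z hZ => ((hmem Z).1 hZ).2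
  have hmy : ∀ Z ∈ Win y0, 9 / 25 ≤ my y0 Z.im ∧ my y0 Z.im ≤ 51 / 50 := fun Z hZ =>
    my_bd h0 (by linarith [hZ.2.2.1]) (by linarith [hZ.2.2.2])
  obtain ⟨v, hvf, hvc⟩ := tile_n hAm hAb (show 0 < 3 * ε by linarith) Um dn (fun Z _ => hdn Z) hi1
    (by
      intro Z hZ
      have hW := ZonV_box hε1 ((hmem Z).1 hZ).1
      obtain ⟨Ce, hC1, hC2⟩ := hG Z hW ((hmem Z).1 hZ).2
      obtain ⟨m1, m2⟩ := hmy Z hW
      have hc : 0 < my y0 Z.im / ε := div_pos (by linarith) hε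
      obtain ⟨V, V', h1, h2, h3⟩ := trf_inj hc (show (0:ℝ) ≤ 3 * ε by linarith) (by
        rw [div_div_eq_mul_div, le_div_iff₀ (by linarith)]
        nlinarith) hC1
      exact ⟨V, V', h1, h2, h3.trans hC2⟩)
  choose net hnet1 hnet2 using hnet
  refine ⟨hvf.toFinset ∪ Bad.biUnion net, ?_, ?_⟩
  · intro Z hr0 hr1 hi0 hi1'
    have hW : Z ∈ Win y0 := ⟨by linarith, by linarith, by linarith, by linarith⟩
    obtain ⟨m1, m2⟩ := hmy Z hW
    by_cases hq : ∃ q ∈ Bad, ‖zz P y0 Z - q‖ ≤ (a + 8) * ε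
    · obtain ⟨q, hq1, hq2⟩ := hq
      obtain ⟨q', hq3, hq4⟩ := hnet2 q Z hW hq2
      refine ⟨q', Finset.mem_union_right _ (Finset.mem_biUnion.2 ⟨q, hq1, hq3⟩), hq4.trans ?_⟩
      rw [div_le_div_iff₀ (by norm_num) (by linarith)]
      nlinarith
    · push Not at hq
      obtain ⟨Ce, hC1, -⟩ := hG Z hW fun q hq1 => by nlinarith [hq q hq1]
      have hc : 0 < my y0 Z.im / ε := div_pos (by linarith) hε
      obtain ⟨q, hq1, hq2⟩ := trf_cov hc hC1 v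
      rw [one_div_div] at hq1
      have hq3 : ‖Z - q‖ ≤ 3 * ε := by
        refine hq1.trans ?_
        rw [div_le_iff₀ (by linarith)]
        nlinarith
      have hre := abs_le.1 ((Complex.abs_re_le_norm (Z - q)).trans hq3)
      have him := abs_le.1 ((Complex.abs_im_le_norm (Z - q)).trans hq3)
      rw [Complex.sub_re] at hre
      rw [Complex.sub_im] at him
      have hqB : q ∈ BxV y0 ε := ⟨by linarith, by linarith, by linarith, by linarith⟩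
      have hlip := (zz_lip (Z := Z) (Z' := q) hKP hδ h0 (by linarith) (by linarith) (by linarith)
        (by linarith)).2
      have hqA : q ∈ A := by
        refine (hmem q).2 ⟨hqB, fun b hb => ?_⟩
        have h1 := hq b hb
        have h2 : ‖zz P y0 Z - b‖ ≤ ‖zz P y0 Z - zz P y0 q‖ + ‖zz P y0 q - b‖ := by
          have h3 := norm_add_le (zz P y0 Z - zz P y0 q) (zz P y0 q - b)
          rwa [sub_add_sub_cancel] at h3
        linarith
      exact ⟨q, Finset.mem_union_left _ (hvf.mem_toFinset.2 ⟨hqA, hq2⟩), hq1⟩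
  · have h1 : ((hvf.toFinset ∪ Bad.biUnion net).card : ℝ) ≤
        (hvf.toFinset.card : ℝ) + (Bad.card : ℝ) * N := by
      have h2 : (Bad.biUnion net).card ≤ Bad.card * N :=
        Finset.card_biUnion_le_card_mul _ _ _ fun q _ => hnet1 q
      have h3 := Finset.card_union_le hvf.toFinset (Bad.biUnion net)
      have h4 : (hvf.toFinset ∪ Bad.biUnion net).card ≤ hvf.toFinset.card + Bad.card * N := by
        omega
      exact_mod_cast h4
    rw [← Set.ncard_eq_toFinset_card _ hvf] at h1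
    have h5 : 2 / (3 * Real.sqrt 3) * ∫ Z in A, dn Z ≤ 2 / (3 * Real.sqrt 3) * I0 :=
      mul_le_mul_of_nonneg_left hi2 (by positivity)
    linarith

theorem zone_V : ∃ C r0 : ℝ, 0 < C ∧ 0 < r0 ∧ r0 ≤ 1 / 10000 ∧ ∀ ρ y0 : ℝ, 0 < ρ → 0 ≤ y0 →
    ρ * Real.cosh y0 ≤ r0 → ∃ Q : Finset ℂ,
      (∀ Z : ℂ, 0 ≤ Z.re → Z.re ≤ 2 * Real.pi → y0 ≤ Z.im → Z.im ≤ y0 + 1 →
        ∃ q ∈ Q, ‖Z - q‖ ≤ ρ * Real.cosh Z.im) ∧
      (Q.card : ℝ) ≤ 4 * Real.pi / (3 * Real.sqrt 3) *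
        (Real.tanh (y0 + 1) - Real.tanh y0) / ρ ^ 2 + C / (ρ * Real.cosh y0) := by
  classical
  obtain ⟨CR, Ct, de, hCR, hCt, hde0, hde1, htr⟩ := transfer
  obtain ⟨a0, k1, ha0, hreg⟩ := region CR hCR
  obtain ⟨Cp, k2, hCp, hkp⟩ := kp_all a0 de (by linarith) hde0
  obtain ⟨Ck, hCk0, hCk⟩ := hreg (max k1 k2) (le_max_left _ _)
  obtain ⟨N, hN⟩ := nets_V (a0 + 8)
  obtain ⟨C1, hC10, hC1⟩ := int_dens
  set Cd : ℝ := Ct * (1 + a0) with hCd
  have hCd0 : 0 ≤ Cd := by positivity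
  set r0 : ℝ := min (1 / 16 ^ (max k1 k2)) (min (1 / 10000) (min de (1 / (1000 * Cp ^ 2))))
    with hr0
  have hCp0 : 0 < Cp := by linarith
  have r1 : r0 ≤ 1 / 16 ^ (max k1 k2) := min_le_left _ _
  have r2 : r0 ≤ 1 / 10000 := (min_le_right _ _).trans (min_le_left _ _)
  have r3 : r0 ≤ de := (min_le_right _ _).trans ((min_le_right _ _).trans (min_le_left _ _))
  have r4 : r0 ≤ 1 / (1000 * Cp ^ 2) :=
    (min_le_right _ _).trans ((min_le_right _ _).trans (min_le_right _ _))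
  have r5 : 0 < r0 := by positivity
  refine ⟨C1 * (1 + Cd * (1 + Cp + Ck)) + 2 * Ck * N + 1, r0, by positivity, r5, r2, ?_⟩
  intro ρ y0 hρ h0 hle
  set ε : ℝ := ρ * Real.cosh y0 with hεd
  have hch : 1 ≤ Real.cosh y0 := Real.one_le_cosh y0
  have hε : 0 < ε := by positivity
  obtain ⟨K, hK1, hK2, hK3⟩ := ZonV_K (max k1 k2) hε (hle.trans r1)
  have hCpε2 : Cp ^ 2 * ε ≤ 1 / 1000 := by
    have h1 : Cp ^ 2 * ε ≤ Cp ^ 2 * (1 / (1000 * Cp ^ 2)) :=
      mul_le_mul_of_nonneg_left (hle.trans r4) (by positivity)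
    have h2 : Cp ^ 2 * (1 / (1000 * Cp ^ 2)) = 1 / 1000 := by field_simp
    linarith
  have hCpε : Cp * ε ≤ 1 / 1000 := by
    have h1 : Cp * ε ≤ Cp ^ 2 * ε := by
      have h2 : Cp ≤ Cp ^ 2 := by nlinarith
      exact mul_le_mul_of_nonneg_right h2 hε.le
    linarith
  set p : Prm := ⟨1 / Real.cosh y0, ε, CR, a0, a0, a0, a0, max k1 k2, K⟩ with hp
  have hpe : p.ε = ε := rfl
  have hGd : p.Gd CR a0 k1 :=
    ⟨rfl, by positivity, (div_le_one (by linarith)).2 hch, hK2, hK3, le_rfl, le_rfl, le_rfl,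
      le_rfl, le_max_left _ _, hK1⟩
  obtain ⟨U, Bad, Cor, hOk, hBad, hCor⟩ := hCk p hGd rfl
  obtain ⟨hKP, hkm⟩ := hkp p rfl rfl (le_max_right _ _) hK1 hK2 hK3
  rw [hpe] at hBad hCor hKP
  have hcard : (((Bad ∪ Cor.image Prod.fst).card : ℕ) : ℝ) ≤ 2 * Ck / ε := by
    have h1 : ((Bad ∪ Cor.image Prod.fst).card : ℝ) ≤ (Bad.card : ℝ) + (Cor.card : ℝ) := by
      have h2 := Finset.card_union_le Bad (Cor.image Prod.fst)
      have h3 : (Cor.image Prod.fst).card ≤ Cor.card := Finset.card_image_le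
      exact_mod_cast h2.trans (Nat.add_le_add_left h3 _)
    have h2 : (Cor.card : ℝ) ≤ ∑ x ∈ Cor, ((x.2 : ℝ) + 1) := by
      rw [Finset.card_eq_sum_ones]
      push_cast
      refine Finset.sum_le_sum fun x _ => ?_
      have h3 : (0 : ℝ) ≤ x.2 := Nat.cast_nonneg _
      linarith
    have h3 : 2 * Ck / ε = Ck / ε + Ck / ε := by ring
    linarith
  have hka : ∀ Z : ℂ, 0 ≤ kp p Z.re + kp p (ty y0 Z.im) := fun Z =>
    add_nonneg (hKP.lo _) (hKP.lo _)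
  have hes : ∀ z : ℂ, 0 ≤ ∑ x ∈ Cor, en p z x := fun z =>
    Finset.sum_nonneg fun x _ => ZonV_en p z x
  obtain ⟨Q, hQ1, hQ2⟩ := ZonV_core (Um := fun Y => U (zz (PP p) y0 Y) / (ε : ℂ))
    (dn := dens p (kp p) (PP p) y0 Cd Cor) (Bad := Bad ∪ Cor.image Prod.fst) (a := a0) (N := N)
    (I0 := 2 * Real.pi * Real.cosh y0 ^ 2 * (Real.tanh (y0 + 1) - Real.tanh y0) / ε ^ 2 +
      C1 * (1 + Cd * (1 + Cp + Ck)) / ε) hKP (hde1.trans (by norm_num)) h0 hε (hle.trans r2)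
    (by
      intro Z hZ hq
      have hRB := zz_RB hKP h0 hCpε hZ
      have h1 := hOk _ hRB fun q hq1 => hq q (Finset.mem_union_left _ hq1)
      have hty := ty_range h0 hZ.2.2.1 hZ.2.2.2
      have hpi := Real.pi_lt_d2
      have h2 : kmin p (zz (PP p) y0 Z) ≤ kp p Z.re + kp p (ty y0 Z.im) := by
        refine hkm Z.re (ty y0 Z.im) ?_ ?_
        · rw [abs_le]
          exact ⟨by linarith [hZ.1], by linarith [hZ.2.1]⟩
        · rw [abs_le]
          exact ⟨by linarith [hty.1], by linarith [hty.2]⟩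
      have h3 := ZonV_ok h1 h2
      have hkm0 : 0 ≤ kmin p (zz (PP p) y0 Z) := by
        unfold kmin
        have h4 : (0 : ℝ) ≤ a0 := by linarith
        refine add_nonneg (mul_nonneg h4 hε.le) (mul_nonneg h4 (Finset.sum_nonneg fun k _ => ?_))
        refine mul_nonneg (by positivity) ?_
        split_ifs
        · exact zero_le_one
        · exact le_rfl
      have hcst : 0 ≤ cst p Cor (zz (PP p) y0 Z) := by
        unfold cst
        exact mul_nonneg (by linarith : (0:ℝ) ≤ a0) (add_nonneg hkm0 (hes _))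
      have h4 := htr y0 ε Cp (cst p Cor (zz (PP p) y0 Z)) (kp p) (PP p) U Z h0 hε (hle.trans r3)
        hCp0.le (by linarith) hKP hcst hZ h3
      refine ⟨_, h4, ?_⟩
      unfold dens
      rw [hpe]
      refine mul_le_mul_of_nonneg_left ?_ (sq_nonneg _)
      have h5 : cst p Cor (zz (PP p) y0 Z) ≤ a0 * (kp p Z.re + kp p (ty y0 Z.im) +
          ∑ x ∈ Cor, en p (zz (PP p) y0 Z) x) := by
        unfold cst
        exact mul_le_mul_of_nonneg_left (by linarith) (by linarith : (0:ℝ) ≤ a0)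
      have h6 := hka Z
      have h7 := hes (zz (PP p) y0 Z)
      have h8 : cst p Cor (zz (PP p) y0 Z) + (kp p Z.re + kp p (ty y0 Z.im)) + ε ≤
          (1 + a0) * (kp p Z.re + kp p (ty y0 Z.im) + ε +
            ∑ x ∈ Cor, en p (zz (PP p) y0 Z) x) := by
        have h9 : 0 ≤ a0 * ε := by positivity
        linarith
      have h9 : Ct * (cst p Cor (zz (PP p) y0 Z) + (kp p Z.re + kp p (ty y0 Z.im)) + ε) ≤
          Ct * ((1 + a0) * (kp p Z.re + kp p (ty y0 Z.im) + ε +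
            ∑ x ∈ Cor, en p (zz (PP p) y0 Z) x)) :=
        mul_le_mul_of_nonneg_left h8 (by linarith)
      rw [hCd]
      linarith)
    (by
      intro Z
      unfold dens
      have h6 := hka Z
      have h7 := hes (zz (PP p) y0 Z)
      rw [hpe]
      positivity)
    (by
      intro A hA hAB hAq
      exact hC1 (kp p) (PP p) p de Cp y0 Cd Ck Cor A hKP (hde1.trans (by norm_num)) h0
        ((hle.trans r2).trans (by norm_num)) hK2 hCp0.le hCd0 hCor hA hAB fun Z hZ x hx => by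
          have h1 := hAq Z hZ x.1 (Finset.mem_union_right _ (Finset.mem_image_of_mem _ hx))
          refine le_trans ?_ h1
          rw [hpe]
          nlinarith)
    (fun q => hN (kp p) (PP p) ε de Cp y0 q hKP (hde1.trans (by norm_num)) h0 hε)
  refine ⟨Q, fun Z h1 h2 h3 h4 => ?_, ?_⟩
  · obtain ⟨q, hq1, hq2⟩ := hQ1 Z h1 h2 h3 h4
    refine ⟨q, hq1, hq2.trans (le_of_eq ?_)⟩
    unfold my
    have h5 := Real.cosh_pos Z.im
    have h6 := Real.cosh_pos y0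
    rw [hεd]
    field_simp
  · refine hQ2.trans ?_
    have h1 : (((Bad ∪ Cor.image Prod.fst).card : ℕ) : ℝ) * N ≤ 2 * Ck / ε * N :=
      mul_le_mul_of_nonneg_right hcard (Nat.cast_nonneg _)
    have h3 : (1 : ℝ) ≤ Real.sqrt 3 := by
      rw [← Real.sqrt_one]
      exact Real.sqrt_le_sqrt (by norm_num)
    have h4 : 2 / (3 * Real.sqrt 3) ≤ 1 := by
      rw [div_le_one (by positivity)]
      linarith
    have h5 : 2 / (3 * Real.sqrt 3) * (C1 * (1 + Cd * (1 + Cp + Ck)) / ε) ≤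
        1 * (C1 * (1 + Cd * (1 + Cp + Ck)) / ε) :=
      mul_le_mul_of_nonneg_right h4 (by positivity)
    have h6 : 2 / (3 * Real.sqrt 3) * (2 * Real.pi * Real.cosh y0 ^ 2 *
        (Real.tanh (y0 + 1) - Real.tanh y0) / ε ^ 2) =
        4 * Real.pi / (3 * Real.sqrt 3) * (Real.tanh (y0 + 1) - Real.tanh y0) / ρ ^ 2 := by
      rw [hεd]
      have h7 := Real.cosh_pos y0
      field_simp
      ring
    have h8 : (C1 * (1 + Cd * (1 + Cp + Ck)) + 2 * Ck * N + 1) / ε =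
        C1 * (1 + Cd * (1 + Cp + Ck)) / ε + 2 * Ck / ε * N + 1 / ε := by
      field_simp
    have h9 : 0 < 1 / ε := by positivity
    rw [mul_add, h6, h8]
    linarith

end Pool.Agent.CAPV
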